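import Mathlib

/-!
Reduction of a two-dimensional lattice given by `(m u + β v, δ v)`, in the maximum norm.
-/

set_option autoImplicit false

namespace Run7.h577.S

/-- the norm `max |m u + β v| (δ |v|)` -/
noncomputable def nm (m β δ : ℝ) (u v : ℤ) : ℝ := max |m * u + β * v| (δ * |(v : ℝ)|)

theorem nm_smul (m β δ : ℝ) (k u v : ℤ) : nm m β δ (k * u) (k * v) = |(k : ℝ)| * nm m β δ u v := by
  unfold nm
  rw [mul_max_of_nonneg _ _ (abs_nonneg _)]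
  push_cast
  congr 1
  · rw [← abs_mul]; congr 1; ring
  · rw [abs_mul]; ring

theorem nm_pos (m β δ : ℝ) (hm : 0 < m) (hδ : 0 < δ) (u v : ℤ) (h : ¬ (u = 0 ∧ v = 0)) :
    0 < nm m β δ u v := by
  unfold nm
  by_cases hv : v = 0
  · have hu : u ≠ 0 := fun h0 => h ⟨h0, hv⟩
    apply lt_max_of_lt_left
    rw [hv, Int.cast_zero, mul_zero, add_zero, abs_pos]
    exact mul_ne_zero hm.ne' (by exact_mod_cast hu)
  · apply lt_max_of_lt_right
    have : (0 : ℝ) < |(v : ℝ)| := abs_pos.2 (by exact_mod_cast hv)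
    positivity

/-- a nonzero vector of minimal norm -/
theorem exists_min (m β δ : ℝ) (hm : 0 < m) (hδ : 0 < δ) :
    ∃ u v : ℤ, ¬ (u = 0 ∧ v = 0) ∧
      ∀ u' v' : ℤ, ¬ (u' = 0 ∧ v' = 0) → nm m β δ u v ≤ nm m β δ u' v' := by
  classical
  have h10 : nm m β δ 1 0 = m := by
    unfold nm
    rw [Int.cast_zero, Int.cast_one, mul_one, mul_zero, add_zero, abs_zero, mul_zero, abs_of_pos hm]
    exact max_eq_left hm.le
  set V : ℤ := ⌈m / δ⌉ with hV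
  set U : ℤ := ⌈(m + |β| * (m / δ)) / m⌉ with hU
  set F : Finset (ℤ × ℤ) := ((Finset.Icc (-U) U) ×ˢ (Finset.Icc (-V) V)).filter
    (fun e => ¬ (e.1 = 0 ∧ e.2 = 0) ∧ nm m β δ e.1 e.2 ≤ m) with hF
  have hmem : ∀ u v : ℤ, ¬ (u = 0 ∧ v = 0) → nm m β δ u v ≤ m → (u, v) ∈ F := by
    intro u v h0 h
    have h1 : |m * u + β * v| ≤ m := (le_max_left _ _).trans h
    have h2 : δ * |(v : ℝ)| ≤ m := (le_max_right _ _).trans h
    have hv : |(v : ℝ)| ≤ m / δ := by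
      rw [le_div_iff₀ hδ]; linarith
    have hu : |(u : ℝ)| ≤ (m + |β| * (m / δ)) / m := by
      rw [le_div_iff₀ hm]
      have e : (u : ℝ) * m = (m * u + β * v) - β * v := by ring
      have h3 : |(u : ℝ)| * m = |(m * u + β * v) - β * v| := by
        rw [← e, abs_mul, abs_of_pos hm]
      rw [h3]
      have h4 := abs_sub (m * u + β * v) (β * (v : ℝ))
      have h5 : |β * (v : ℝ)| ≤ |β| * (m / δ) := by
        rw [abs_mul]; gcongr
      linarith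
    rw [hF, Finset.mem_filter, Finset.mem_product, Finset.mem_Icc, Finset.mem_Icc]
    have hu' : |u| ≤ U := by
      have : ((|u| : ℤ) : ℝ) ≤ (U : ℝ) := by
        rw [Int.cast_abs]; exact hu.trans (Int.le_ceil _)
      exact_mod_cast this
    have hv' : |v| ≤ V := by
      have : ((|v| : ℤ) : ℝ) ≤ (V : ℝ) := by
        rw [Int.cast_abs]; exact hv.trans (Int.le_ceil _)
      exact_mod_cast this
    exact ⟨⟨⟨(abs_le.1 hu').1, (abs_le.1 hu').2⟩, ⟨(abs_le.1 hv').1, (abs_le.1 hv').2⟩⟩, h0, h⟩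
  have hne : F.Nonempty := ⟨(1, 0), hmem 1 0 (by simp) h10.le⟩
  obtain ⟨e, he, hmin⟩ := F.exists_min_image (fun e => nm m β δ e.1 e.2) hne
  have he' := (Finset.mem_filter.1 he).2
  refine ⟨e.1, e.2, he'.1, fun u' v' h => ?_⟩
  by_cases h' : nm m β δ u' v' ≤ m
  · exact hmin (u', v') (hmem u' v' h h')
  · push Not at h'
    exact he'.2.trans h'.le

theorem round_bound (w x : ℝ) (hw : w ≠ 0) : ∃ k : ℤ, |x + k * w| ≤ |w| / 2 := by
  refine ⟨-round (x / w), ?_⟩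
  have h := abs_sub_round (x / w)
  have e : x + ((-round (x / w) : ℤ) : ℝ) * w = (x / w - round (x / w)) * w := by
    push_cast; field_simp; ring
  rw [e, abs_mul]
  have := abs_nonneg w
  nlinarith

/-- REDUCTION. -/
theorem reduce (m β δ : ℝ) (hm : 0 < m) (hδ : 0 < δ) :
    ∃ u₁ v₁ u₂ v₂ : ℤ, u₁ * v₂ - u₂ * v₁ = 1 ∧ 0 < nm m β δ u₁ v₁ ∧
      nm m β δ u₁ v₁ ≤ nm m β δ u₂ v₂ ∧
      nm m β δ u₁ v₁ * nm m β δ u₂ v₂ ≤ 2 * m * δ := by
  obtain ⟨u₁, v₁, h0, hmin⟩ := exists_min m β δ hm hδ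
  have hpos := nm_pos m β δ hm hδ u₁ v₁ h0
  -- primitivity
  have hcop : IsCoprime u₁ v₁ := by
    rw [Int.isCoprime_iff_gcd_eq_one]
    have hg0 : Int.gcd u₁ v₁ ≠ 0 := by
      intro h
      rw [Int.gcd_eq_zero_iff] at h
      exact h0 h
    by_contra hne
    have hg : 2 ≤ Int.gcd u₁ v₁ := by omega
    obtain ⟨a, ha⟩ := Int.gcd_dvd_left (a := u₁) (b := v₁)
    obtain ⟨b, hb⟩ := Int.gcd_dvd_right (a := u₁) (b := v₁)
    have hab : ¬ (a = 0 ∧ b = 0) := by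
      rintro ⟨rfl, rfl⟩
      exact h0 ⟨by rw [ha, mul_zero], by rw [hb, mul_zero]⟩
    have h1 := hmin a b hab
    have h2 : nm m β δ u₁ v₁ = |((Int.gcd u₁ v₁ : ℤ) : ℝ)| * nm m β δ a b := by
      rw [← nm_smul, ← ha, ← hb]
    have h3 : (2 : ℝ) ≤ |((Int.gcd u₁ v₁ : ℤ) : ℝ)| := by
      rw [abs_of_nonneg (by positivity)]
      exact_mod_cast hg
    have h4 := nm_pos m β δ hm hδ a b hab
    nlinarith
  obtain ⟨b, a, hab⟩ := hcop
  -- `b * u₁ + a * v₁ = 1`, the second vector is `(-a, b) + k (u₁, v₁)`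
  have hdet : ∀ k : ℤ, u₁ * (b + k * v₁) - (-a + k * u₁) * v₁ = 1 := by
    intro k; linear_combination hab
  have hne2 : ∀ k : ℤ, ¬ (-a + k * u₁ = 0 ∧ b + k * v₁ = 0) := by
    rintro k ⟨h1, h2⟩
    have := hdet k
    rw [h1, h2] at this
    simp at this
  set W₁ : ℝ := m * u₁ + β * v₁ with hW₁
  have key : ∀ k : ℤ, W₁ * (δ * ((b + k * v₁ : ℤ) : ℝ)) -
      (m * ((-a + k * u₁ : ℤ) : ℝ) + β * ((b + k * v₁ : ℤ) : ℝ)) * (δ * v₁) = m * δ := by
    intro k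
    have h : ((u₁ * (b + k * v₁) - (-a + k * u₁) * v₁ : ℤ) : ℝ) = 1 := by rw [hdet k]; simp
    push_cast at h ⊢
    rw [hW₁]
    linear_combination (m * δ) * h
  have hn1 : nm m β δ u₁ v₁ = max |W₁| (δ * |(v₁ : ℝ)|) := rfl
  rcases le_total (δ * |(v₁ : ℝ)|) |W₁| with hc | hc
  · have hn : nm m β δ u₁ v₁ = |W₁| := by rw [hn1, max_eq_left hc]
    have hW0 : W₁ ≠ 0 := by
      intro h; rw [hn, h, abs_zero] at hpos; exact lt_irrefl _ hpos
    obtain ⟨k, hk⟩ := round_bound W₁ (m * ((-a : ℤ) : ℝ) + β * (b : ℝ)) hW0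
    refine ⟨u₁, v₁, -a + k * u₁, b + k * v₁, hdet k, hpos, hmin _ _ (hne2 k), ?_⟩
    have hm2 := hmin _ _ (hne2 k)
    have hW2 : |m * ((-a + k * u₁ : ℤ) : ℝ) + β * ((b + k * v₁ : ℤ) : ℝ)| ≤ |W₁| / 2 := by
      refine le_trans (le_of_eq ?_) hk
      congr 1
      push_cast
      rw [hW₁]; ring
    have hkey := key k
    generalize -a + k * u₁ = u₂ at *
    generalize b + k * v₁ = v₂ at *
    set W₂ : ℝ := m * (u₂ : ℝ) + β * (v₂ : ℝ) with hW₂
    have hWpos : 0 < |W₁| := abs_pos.2 hW0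
    have hn2 : nm m β δ u₂ v₂ = δ * |(v₂ : ℝ)| := by
      have : nm m β δ u₂ v₂ = max |W₂| (δ * |(v₂ : ℝ)|) := rfl
      rw [this]
      apply max_eq_right
      by_contra hlt
      push Not at hlt
      rw [this, max_eq_left hlt.le, hn] at hm2
      linarith
    rw [hn2, hn] at hm2
    rw [hn, hn2]
    have h1 : |W₁| * (δ * |(v₂ : ℝ)|) ≤ m * δ + |W₂| * (δ * |(v₁ : ℝ)|) := by
      have e : W₁ * (δ * (v₂ : ℝ)) = m * δ + W₂ * (δ * v₁) := by linear_combination hkey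
      have : |W₁| * (δ * |(v₂ : ℝ)|) = |W₁ * (δ * (v₂ : ℝ))| := by
        rw [abs_mul, abs_mul, abs_of_pos hδ]
      rw [this, e]
      refine (abs_add_le _ _).trans ?_
      rw [abs_of_pos (mul_pos hm hδ), abs_mul, abs_mul, abs_of_pos hδ]
    have h2 : |W₂| * (δ * |(v₁ : ℝ)|) ≤ |W₁| / 2 * (δ * |(v₂ : ℝ)|) := by
      have : 0 ≤ δ * |(v₁ : ℝ)| := by positivity
      apply mul_le_mul hW2 (hc.trans hm2) this (by positivity)
    linarith
  · have hn : nm m β δ u₁ v₁ = δ * |(v₁ : ℝ)| := by rw [hn1, max_eq_right hc]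
    have hv0 : (v₁ : ℝ) ≠ 0 := by
      intro h; rw [hn, h, abs_zero, mul_zero] at hpos; exact lt_irrefl _ hpos
    obtain ⟨k, hk⟩ := round_bound (v₁ : ℝ) (b : ℝ) hv0
    refine ⟨u₁, v₁, -a + k * u₁, b + k * v₁, hdet k, hpos, hmin _ _ (hne2 k), ?_⟩
    have hm2 := hmin _ _ (hne2 k)
    have hv2 : δ * |((b + k * v₁ : ℤ) : ℝ)| ≤ δ * |(v₁ : ℝ)| / 2 := by
      have : |((b + k * v₁ : ℤ) : ℝ)| ≤ |(v₁ : ℝ)| / 2 := by
        push_cast; exact hk
      have := mul_le_mul_of_nonneg_left this hδ.le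
      linarith
    have hkey := key k
    generalize -a + k * u₁ = u₂ at *
    generalize b + k * v₁ = v₂ at *
    set W₂ : ℝ := m * (u₂ : ℝ) + β * (v₂ : ℝ) with hW₂
    have hvpos : 0 < δ * |(v₁ : ℝ)| := mul_pos hδ (abs_pos.2 hv0)
    have hn2 : nm m β δ u₂ v₂ = |W₂| := by
      have : nm m β δ u₂ v₂ = max |W₂| (δ * |(v₂ : ℝ)|) := rfl
      rw [this]
      apply max_eq_left
      by_contra hlt
      push Not at hlt
      rw [this, max_eq_right hlt.le, hn] at hm2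
      linarith
    rw [hn2, hn] at hm2
    rw [hn, hn2]
    have h1 : |W₂| * (δ * |(v₁ : ℝ)|) ≤ m * δ + |W₁| * (δ * |(v₂ : ℝ)|) := by
      have e : W₂ * (δ * (v₁ : ℝ)) = -(m * δ) + W₁ * (δ * v₂) := by linear_combination -hkey
      have : |W₂| * (δ * |(v₁ : ℝ)|) = |W₂ * (δ * (v₁ : ℝ))| := by
        rw [abs_mul, abs_mul, abs_of_pos hδ]
      rw [this, e]
      refine (abs_add_le _ _).trans ?_
      rw [abs_neg, abs_of_pos (mul_pos hm hδ), abs_mul, abs_mul, abs_of_pos hδ]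
    have h2 : |W₁| * (δ * |(v₂ : ℝ)|) ≤ |W₂| * (δ * |(v₁ : ℝ)| / 2) := by
      have : 0 ≤ δ * |(v₂ : ℝ)| := by positivity
      apply mul_le_mul (hc.trans hm2) hv2 this (abs_nonneg _)
    have e3 : δ * |(v₁ : ℝ)| * |W₂| = |W₂| * (δ * |(v₁ : ℝ)|) := by ring
    linarith

end Run7.h577.S
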