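import Mathlib
import Pool.Agent.Run7.h577.SA

/-!
The binary cubic form `(p, 3q, 3r, s)` with a representation `F(x, y) = m` attached to a pair `(c, d)` with
`m ∣ t² - c`, `m² ∣ t³ - 3ct + 2d`.
-/

set_option autoImplicit false

namespace Run7.h577.S

section ident
variable {R : Type*} [CommRing R] (m t C E u₁ v₁ u₂ v₂ : R)

def fp : R := m * u₁ ^ 3 + 3 * t * u₁ ^ 2 * v₁ + 3 * C * u₁ * v₁ ^ 2 + E * v₁ ^ 3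
def fq : R := m * u₁ ^ 2 * u₂ + t * (u₁ ^ 2 * v₂ + 2 * u₁ * u₂ * v₁) +
  C * (2 * u₁ * v₁ * v₂ + u₂ * v₁ ^ 2) + E * v₁ ^ 2 * v₂
def fr : R := m * u₁ * u₂ ^ 2 + t * (u₂ ^ 2 * v₁ + 2 * u₁ * u₂ * v₂) +
  C * (2 * u₂ * v₁ * v₂ + u₁ * v₂ ^ 2) + E * v₁ * v₂ ^ 2
def fs : R := m * u₂ ^ 3 + 3 * t * u₂ ^ 2 * v₂ + 3 * C * u₂ * v₂ ^ 2 + E * v₂ ^ 3

theorem alpha_eq : fp m t C E u₁ v₁ * v₂ - fq m t C E u₁ v₁ u₂ v₂ * v₁ =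
    (m * u₁ ^ 2 + 2 * t * u₁ * v₁ + C * v₁ ^ 2) * (u₁ * v₂ - u₂ * v₁) := by
  unfold fp fq; ring

theorem beta_eq : fq m t C E u₁ v₁ u₂ v₂ * v₂ - fr m t C E u₁ v₁ u₂ v₂ * v₁ =
    (m * u₁ * u₂ + t * (u₁ * v₂ + u₂ * v₁) + C * v₁ * v₂) * (u₁ * v₂ - u₂ * v₁) := by
  unfold fq fr; ring

theorem gamma_eq : fr m t C E u₁ v₁ u₂ v₂ * v₂ - fs m t C E u₂ v₂ * v₁ =
    (m * u₂ ^ 2 + 2 * t * u₂ * v₂ + C * v₂ ^ 2) * (u₁ * v₂ - u₂ * v₁) := by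
  unfold fr fs; ring

end ident

/-- the trilinear form -/
def T3 (τ h k W₁ W₂ W₃ v₁ v₂ v₃ : ℝ) : ℝ :=
  W₁ * W₂ * W₃ + τ * (W₁ * W₂ * v₃ + W₁ * W₃ * v₂ + W₂ * W₃ * v₁) +
    h * (W₁ * v₂ * v₃ + W₂ * v₁ * v₃ + W₃ * v₁ * v₂) + k * (v₁ * v₂ * v₃)

theorem abs3 {a b c A B C : ℝ} (h1 : |a| ≤ A) (h2 : |b| ≤ B) (h3 : |c| ≤ C) :
    |a * b * c| ≤ A * B * C := by
  rw [abs_mul, abs_mul]
  have := (abs_nonneg a).trans h1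
  have := (abs_nonneg b).trans h2
  have := (abs_nonneg c).trans h3
  gcongr

theorem T3_bound (X δ τ h k W₁ W₂ W₃ v₁ v₂ v₃ a₁ a₂ a₃ : ℝ) (hδ : 0 < δ) (hδX : δ ≤ X)
    (hτ : |τ| ≤ X) (hh : |h| ≤ δ * X) (hk : |k| ≤ 2 * δ ^ 2 * X)
    (w1 : |W₁| ≤ δ * a₁) (w2 : |W₂| ≤ δ * a₂) (w3 : |W₃| ≤ δ * a₃)
    (b1 : |v₁| ≤ a₁) (b2 : |v₂| ≤ a₂) (b3 : |v₃| ≤ a₃) :
    |T3 τ h k W₁ W₂ W₃ v₁ v₂ v₃| ≤ 9 * δ ^ 2 * X * (a₁ * a₂ * a₃) := by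
  have ha1 := (abs_nonneg _).trans b1
  have ha2 := (abs_nonneg _).trans b2
  have ha3 := (abs_nonneg _).trans b3
  have hX : 0 < X := hδ.trans_le hδX
  set P := a₁ * a₂ * a₃ with hP
  have hP0 : 0 ≤ P := by positivity
  unfold T3
  have e1 : |W₁ * W₂ * W₃| ≤ δ ^ 2 * X * P := by
    refine (abs3 w1 w2 w3).trans ?_
    have : δ * a₁ * (δ * a₂) * (δ * a₃) = δ ^ 2 * δ * P := by rw [hP]; ring
    rw [this]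
    gcongr
  have e2 : |τ * (W₁ * W₂ * v₃ + W₁ * W₃ * v₂ + W₂ * W₃ * v₁)| ≤ 3 * (δ ^ 2 * X * P) := by
    have f1 : |W₁ * W₂ * v₃| ≤ δ ^ 2 * P := (abs3 w1 w2 b3).trans (le_of_eq (by rw [hP]; ring))
    have f2 : |W₁ * W₃ * v₂| ≤ δ ^ 2 * P := (abs3 w1 w3 b2).trans (le_of_eq (by rw [hP]; ring))
    have f3 : |W₂ * W₃ * v₁| ≤ δ ^ 2 * P := (abs3 w2 w3 b1).trans (le_of_eq (by rw [hP]; ring))
    have f4 : |W₁ * W₂ * v₃ + W₁ * W₃ * v₂ + W₂ * W₃ * v₁| ≤ 3 * (δ ^ 2 * P) := by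
      have g1 := abs_add_le (W₁ * W₂ * v₃ + W₁ * W₃ * v₂) (W₂ * W₃ * v₁)
      have g2 := abs_add_le (W₁ * W₂ * v₃) (W₁ * W₃ * v₂)
      linarith
    rw [abs_mul]
    calc |τ| * _ ≤ X * (3 * (δ ^ 2 * P)) := by gcongr
      _ = _ := by ring
  have e3 : |h * (W₁ * v₂ * v₃ + W₂ * v₁ * v₃ + W₃ * v₁ * v₂)| ≤ 3 * (δ ^ 2 * X * P) := by
    have f1 : |W₁ * v₂ * v₃| ≤ δ * P := (abs3 w1 b2 b3).trans (le_of_eq (by rw [hP]; ring))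
    have f2 : |W₂ * v₁ * v₃| ≤ δ * P := (abs3 w2 b1 b3).trans (le_of_eq (by rw [hP]; ring))
    have f3 : |W₃ * v₁ * v₂| ≤ δ * P := (abs3 w3 b1 b2).trans (le_of_eq (by rw [hP]; ring))
    have f4 : |W₁ * v₂ * v₃ + W₂ * v₁ * v₃ + W₃ * v₁ * v₂| ≤ 3 * (δ * P) := by
      have g1 := abs_add_le (W₁ * v₂ * v₃ + W₂ * v₁ * v₃) (W₃ * v₁ * v₂)
      have g2 := abs_add_le (W₁ * v₂ * v₃) (W₂ * v₁ * v₃)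
      linarith
    rw [abs_mul]
    calc |h| * _ ≤ (δ * X) * (3 * (δ * P)) := by gcongr
      _ = _ := by ring
  have e4 : |k * (v₁ * v₂ * v₃)| ≤ 2 * (δ ^ 2 * X * P) := by
    rw [abs_mul]
    calc |k| * _ ≤ (2 * δ ^ 2 * X) * P := by
          gcongr
          exact abs3 b1 b2 b3
      _ = _ := by ring
  have g1 := abs_add_le (W₁ * W₂ * W₃ + τ * (W₁ * W₂ * v₃ + W₁ * W₃ * v₂ + W₂ * W₃ * v₁) +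
    h * (W₁ * v₂ * v₃ + W₂ * v₁ * v₃ + W₃ * v₁ * v₂)) (k * (v₁ * v₂ * v₃))
  have g2 := abs_add_le (W₁ * W₂ * W₃ + τ * (W₁ * W₂ * v₃ + W₁ * W₃ * v₂ + W₂ * W₃ * v₁))
    (h * (W₁ * v₂ * v₃ + W₂ * v₁ * v₃ + W₃ * v₁ * v₂))
  have g3 := abs_add_le (W₁ * W₂ * W₃) (τ * (W₁ * W₂ * v₃ + W₁ * W₃ * v₂ + W₂ * W₃ * v₁))
  linarith

/-- the data attached to `(c, d)` -/
structure Tup (X δ : ℝ) (m m₀ c d p q r s x y : ℤ) (a₁ a₂ : ℝ) : Prop where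
  eqn : p * x ^ 3 + 3 * q * x ^ 2 * y + 3 * r * x * y ^ 2 + s * y ^ 3 = m
  cop : IsCoprime x y
  p0 : p ≠ 0
  y0 : y ≠ 0
  a1 : 0 < a₁
  a12 : a₁ ≤ a₂
  prod : δ * (a₁ * a₂) ≤ 2 * m
  hy : |(y : ℝ)| ≤ a₁
  hx : |(x : ℝ)| ≤ a₂
  big : (m : ℝ) ≤ δ * (a₁ * |(x : ℝ)| + a₂ * |(y : ℝ)|)
  bp : (m : ℝ) ^ 2 * |(p : ℝ)| ≤ 9 * δ ^ 2 * X * (a₁ * a₁ * a₁)
  bq : (m : ℝ) ^ 2 * |(q : ℝ)| ≤ 9 * δ ^ 2 * X * (a₁ * a₁ * a₂)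
  br : (m : ℝ) ^ 2 * |(r : ℝ)| ≤ 9 * δ ^ 2 * X * (a₁ * a₂ * a₂)
  bs : (m : ℝ) ^ 2 * |(s : ℝ)| ≤ 9 * δ ^ 2 * X * (a₂ * a₂ * a₂)
  con : m₀ ∣ 3 * (p * x + q * y) ^ 2 - 4 * p * (p * x ^ 2 + 2 * q * x * y + r * y ^ 2)
  rc : c = (q * x + r * y) ^ 2 - (p * x + q * y) * (r * x + s * y)
  rd : m ^ 2 * p = (p * x ^ 2 + 2 * q * x * y + r * y ^ 2) ^ 3 -
    3 * c * (p * x ^ 2 + 2 * q * x * y + r * y ^ 2) * y ^ 2 - 2 * d * y ^ 3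

/-- the region -/
structure Reg (X δ : ℝ) (c d : ℤ) (τ : ℝ) : Prop where
  h0 : |τ| ≤ X
  h1 : |τ ^ 2 - c| ≤ δ * X
  h2 : |τ ^ 3 - 3 * c * τ + 2 * d| ≤ 2 * δ ^ 2 * X

theorem tuple (X δ τ : ℝ) (m m₀ c d t C E : ℤ) (hδ : 0 < δ) (hδX : δ ≤ X) (hm : 2 * δ < m)
    (hr : Reg X δ c d τ) (hC : m * C = t ^ 2 - c) (hE : m ^ 2 * E = t ^ 3 - 3 * c * t + 2 * d)
    (irr : ∀ w v : ℤ, ¬ (w = 0 ∧ v = 0) → w ^ 3 - 3 * c * w * v ^ 2 + 2 * d * v ^ 3 ≠ 0)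
    (hm₀ : m₀ ∣ m) (hcon : m₀ ∣ 3 * C ^ 2 - 4 * t * E) :
    ∃ (p q r s x y : ℤ) (a₁ a₂ : ℝ), Tup X δ m m₀ c d p q r s x y a₁ a₂ := by
  have hX : 0 < X := hδ.trans_le hδX
  have hmpos : (0 : ℝ) < m := by linarith
  have hm0 : m ≠ 0 := by
    rintro rfl
    simp at hmpos
  obtain ⟨u₁, v₁, u₂, v₂, hdet, hn0, hn12, hnp⟩ := reduce (m : ℝ) ((t : ℝ) - τ) δ hmpos hδ
  set n₁ := nm (m : ℝ) ((t : ℝ) - τ) δ u₁ v₁ with hn₁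
  set n₂ := nm (m : ℝ) ((t : ℝ) - τ) δ u₂ v₂ with hn₂
  set W₁ : ℝ := m * u₁ + ((t : ℝ) - τ) * v₁ with hW₁
  set W₂ : ℝ := m * u₂ + ((t : ℝ) - τ) * v₂ with hW₂
  have w1 : |W₁| ≤ δ * (n₁ / δ) := by
    rw [mul_div_cancel₀ _ hδ.ne']; exact le_max_left _ _
  have w2 : |W₂| ≤ δ * (n₂ / δ) := by
    rw [mul_div_cancel₀ _ hδ.ne']; exact le_max_left _ _
  have b1 : |(v₁ : ℝ)| ≤ n₁ / δ := by
    rw [le_div_iff₀ hδ, mul_comm]; exact le_max_right _ _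
  have b2 : |(v₂ : ℝ)| ≤ n₂ / δ := by
    rw [le_div_iff₀ hδ, mul_comm]; exact le_max_right _ _
  have hdetR : (u₁ : ℝ) * v₂ - u₂ * v₁ = 1 := by exact_mod_cast hdet
  have hCR : (m : ℝ) * C = (t : ℝ) ^ 2 - c := by exact_mod_cast hC
  have hER : (m : ℝ) ^ 2 * E = (t : ℝ) ^ 3 - 3 * c * t + 2 * d := by exact_mod_cast hE
  have hα := alpha_eq m t C E u₁ v₁ u₂ v₂
  have hβ := beta_eq m t C E u₁ v₁ u₂ v₂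
  have hγ := gamma_eq m t C E u₁ v₁ u₂ v₂
  rw [hdet, mul_one] at hα hβ hγ
  have hcop : IsCoprime v₂ (-v₁) := ⟨u₁, u₂, by linear_combination hdet⟩
  have hv₁ : v₁ ≠ 0 := by
    intro h
    have hu : u₁ * v₂ = 1 := by rw [h] at hdet; linarith
    have hn : n₁ = m := by
      rw [hn₁]
      unfold nm
      have hu1 : |(u₁ : ℝ)| = 1 := by
        have : |u₁| = 1 := Int.isUnit_iff_abs_eq.1 (IsUnit.of_mul_eq_one _ hu)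
        exact_mod_cast this
      rw [h, Int.cast_zero, mul_zero, add_zero, abs_zero, mul_zero, abs_mul, hu1, mul_one,
        abs_of_pos hmpos]
      exact max_eq_left hmpos.le
    have : n₁ * n₁ ≤ 2 * m * δ := (mul_le_mul_of_nonneg_left hn12 hn0.le).trans hnp
    rw [hn] at this
    nlinarith
  have kp : (m : ℝ) ^ 2 * (fp m t C E u₁ v₁ : ℤ) = T3 τ (τ ^ 2 - c) (τ ^ 3 - 3 * c * τ + 2 * d)
      W₁ W₁ W₁ v₁ v₁ v₁ := by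
    unfold fp T3
    push_cast
    rw [hW₁]
    linear_combination (3 * (m : ℝ) * u₁ * v₁ ^ 2) * hCR + (v₁ : ℝ) ^ 3 * hER
  have kq : (m : ℝ) ^ 2 * (fq m t C E u₁ v₁ u₂ v₂ : ℤ) =
      T3 τ (τ ^ 2 - c) (τ ^ 3 - 3 * c * τ + 2 * d) W₁ W₁ W₂ v₁ v₁ v₂ := by
    unfold fq T3
    push_cast
    rw [hW₁, hW₂]
    linear_combination ((m : ℝ) * (2 * u₁ * v₁ * v₂ + u₂ * v₁ ^ 2)) * hCR +
      (v₁ : ℝ) ^ 2 * v₂ * hER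
  have kr : (m : ℝ) ^ 2 * (fr m t C E u₁ v₁ u₂ v₂ : ℤ) =
      T3 τ (τ ^ 2 - c) (τ ^ 3 - 3 * c * τ + 2 * d) W₁ W₂ W₂ v₁ v₂ v₂ := by
    unfold fr T3
    push_cast
    rw [hW₁, hW₂]
    linear_combination ((m : ℝ) * (2 * u₂ * v₁ * v₂ + u₁ * v₂ ^ 2)) * hCR +
      (v₁ : ℝ) * v₂ ^ 2 * hER
  have ks : (m : ℝ) ^ 2 * (fs m t C E u₂ v₂ : ℤ) = T3 τ (τ ^ 2 - c) (τ ^ 3 - 3 * c * τ + 2 * d)
      W₂ W₂ W₂ v₂ v₂ v₂ := by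
    unfold fs T3
    push_cast
    rw [hW₂]
    linear_combination (3 * (m : ℝ) * u₂ * v₂ ^ 2) * hCR + (v₂ : ℝ) ^ 3 * hER
  -- the value at the first vector
  have kw : m ^ 2 * fp m t C E u₁ v₁ = (m * u₁ + t * v₁) ^ 3 - 3 * c * (m * u₁ + t * v₁) * v₁ ^ 2 +
      2 * d * v₁ ^ 3 := by
    unfold fp
    linear_combination (3 * m * u₁ * v₁ ^ 2) * hC + v₁ ^ 3 * hE
  have m2 : ∀ z : ℤ, (m : ℝ) ^ 2 * |(z : ℝ)| = |(m : ℝ) ^ 2 * z| := by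
    intro z
    rw [abs_mul, abs_of_nonneg (by positivity : (0 : ℝ) ≤ (m : ℝ) ^ 2)]
  refine ⟨fp m t C E u₁ v₁, fq m t C E u₁ v₁ u₂ v₂, fr m t C E u₁ v₁ u₂ v₂, fs m t C E u₂ v₂,
    v₂, -v₁, n₁ / δ, n₂ / δ, ?_⟩
  generalize hp : fp m t C E u₁ v₁ = p at *
  generalize hq : fq m t C E u₁ v₁ u₂ v₂ = q at *
  generalize hr' : fr m t C E u₁ v₁ u₂ v₂ = r at *
  generalize hs : fs m t C E u₂ v₂ = s at *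
  have hw : p * v₂ ^ 2 + 2 * q * v₂ * -v₁ + r * (-v₁) ^ 2 = m * u₁ + t * v₁ := by
    have e : p * v₂ ^ 2 + 2 * q * v₂ * -v₁ + r * (-v₁) ^ 2 =
        (p * v₂ - q * v₁) * v₂ - (q * v₂ - r * v₁) * v₁ := by ring
    rw [e, hα, hβ]
    linear_combination (m * u₁ + t * v₁) * hdet
  have hw2 : (q * v₂ - r * v₁) * v₂ - (r * v₂ - s * v₁) * v₁ = m * u₂ + t * v₂ := by
    rw [hβ, hγ]
    linear_combination (m * u₂ + t * v₂) * hdet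
  constructor
  · -- eqn
    have e : p * v₂ ^ 3 + 3 * q * v₂ ^ 2 * -v₁ + 3 * r * v₂ * (-v₁) ^ 2 + s * (-v₁) ^ 3 =
        (p * v₂ ^ 2 + 2 * q * v₂ * -v₁ + r * (-v₁) ^ 2) * v₂ -
          ((q * v₂ - r * v₁) * v₂ - (r * v₂ - s * v₁) * v₁) * v₁ := by ring
    rw [e, hw, hw2]
    linear_combination m * hdet
  · exact hcop
  · -- p ≠ 0
    intro h0
    apply irr (m * u₁ + t * v₁) v₁
    · rintro ⟨-, h⟩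
      exact hv₁ h
    · rw [← kw, h0, mul_zero]
  · exact neg_ne_zero.2 hv₁
  · positivity
  · gcongr
  · have e : δ * (n₁ / δ * (n₂ / δ)) = n₁ * n₂ / δ := by field_simp
    rw [e, div_le_iff₀ hδ]
    linarith
  · push_cast
    rw [abs_neg]
    exact b1
  · exact b2
  · push_cast
    rw [abs_neg]
    have e : (m : ℝ) = W₁ * v₂ - W₂ * v₁ := by
      rw [hW₁, hW₂]
      linear_combination (-(m : ℝ)) * hdetR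
    have h1 := abs_sub (W₁ * (v₂ : ℝ)) (W₂ * v₁)
    rw [← e, abs_of_pos hmpos, abs_mul, abs_mul] at h1
    have h2 : |W₁| * |(v₂ : ℝ)| ≤ δ * (n₁ / δ) * |(v₂ : ℝ)| := by gcongr
    have h3 : |W₂| * |(v₁ : ℝ)| ≤ δ * (n₂ / δ) * |(v₁ : ℝ)| := by gcongr
    calc (m : ℝ) ≤ δ * (n₁ / δ) * |(v₂ : ℝ)| + δ * (n₂ / δ) * |(v₁ : ℝ)| := by linarith
      _ = _ := by ring
  · rw [m2, kp]
    exact T3_bound X δ _ _ _ _ _ _ _ _ _ _ _ _ hδ hδX hr.h0 hr.h1 hr.h2 w1 w1 w1 b1 b1 b1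
  · rw [m2, kq]
    exact T3_bound X δ _ _ _ _ _ _ _ _ _ _ _ _ hδ hδX hr.h0 hr.h1 hr.h2 w1 w1 w2 b1 b1 b2
  · rw [m2, kr]
    exact T3_bound X δ _ _ _ _ _ _ _ _ _ _ _ _ hδ hδX hr.h0 hr.h1 hr.h2 w1 w2 w2 b1 b2 b2
  · rw [m2, ks]
    exact T3_bound X δ _ _ _ _ _ _ _ _ _ _ _ _ hδ hδX hr.h0 hr.h1 hr.h2 w2 w2 w2 b2 b2 b2
  · rw [hw]
    have e : p * v₂ + q * -v₁ = m * u₁ ^ 2 + 2 * t * u₁ * v₁ + C * v₁ ^ 2 := by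
      rw [← hα]; ring
    rw [e, ← hp]
    have e2 : 3 * (m * u₁ ^ 2 + 2 * t * u₁ * v₁ + C * v₁ ^ 2) ^ 2 -
        4 * fp m t C E u₁ v₁ * (m * u₁ + t * v₁) = v₁ ^ 4 * (3 * C ^ 2 - 4 * t * E) +
        m * (3 * m * u₁ ^ 4 + 6 * u₁ ^ 2 * (2 * t * u₁ * v₁ + C * v₁ ^ 2) - 4 * m * u₁ ^ 4 -
          4 * u₁ ^ 3 * (t * v₁) -
          4 * u₁ * (3 * t * u₁ ^ 2 * v₁ + 3 * C * u₁ * v₁ ^ 2 + E * v₁ ^ 3)) := by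
      unfold fp; ring
    rw [e2]
    exact dvd_add (Dvd.dvd.mul_left hcon _) (Dvd.dvd.mul_right hm₀ _)
  · have e1 : q * v₂ + r * -v₁ = m * u₁ * u₂ + t * (u₁ * v₂ + u₂ * v₁) + C * v₁ * v₂ := by
      rw [← hβ]; ring
    have e2 : p * v₂ + q * -v₁ = m * u₁ ^ 2 + 2 * t * u₁ * v₁ + C * v₁ ^ 2 := by
      rw [← hα]; ring
    have e3 : r * v₂ + s * -v₁ = m * u₂ ^ 2 + 2 * t * u₂ * v₂ + C * v₂ ^ 2 := by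
      rw [← hγ]; ring
    rw [e1, e2, e3]
    have e4 : (m * u₁ * u₂ + t * (u₁ * v₂ + u₂ * v₁) + C * v₁ * v₂) ^ 2 -
        (m * u₁ ^ 2 + 2 * t * u₁ * v₁ + C * v₁ ^ 2) * (m * u₂ ^ 2 + 2 * t * u₂ * v₂ + C * v₂ ^ 2) =
        (t ^ 2 - m * C) * (u₁ * v₂ - u₂ * v₁) ^ 2 := by ring
    rw [e4, hdet, hC]
    ring
  · rw [hw, kw]
    ring

end Run7.h577.S
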