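import Mathlib
import Pool.Agent.H328R2.ABC.Roots
import Pool.Agent.R481.S2.Divisor

/-!
Counting lemmas: fibres, spaced integers, cube roots modulo `y`.
-/

set_option autoImplicit false

namespace Run7.h577.S

open Finset

theorem card_fib {α β : Type*} [DecidableEq β] (s : Finset α) (f : α → β) (K : ℝ)
    (h : ∀ b ∈ s.image f, ((s.filter (fun a => f a = b)).card : ℝ) ≤ K) :
    (s.card : ℝ) ≤ K * ((s.image f).card : ℝ) := by
  have h1 : (s.card : ℝ) = ∑ b ∈ s.image f, ((s.filter (fun a => f a = b)).card : ℝ) := by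
    rw [← Nat.cast_sum, ← Finset.card_eq_sum_card_image f s]
  rw [h1]
  calc ∑ b ∈ s.image f, ((s.filter (fun a => f a = b)).card : ℝ) ≤ ∑ b ∈ s.image f, K :=
        Finset.sum_le_sum h
    _ = K * ((s.image f).card : ℝ) := by rw [Finset.sum_const, nsmul_eq_mul, mul_comm]

theorem card_fib_sum {α β : Type*} [DecidableEq β] (s : Finset α) (f : α → β) (t : Finset β)
    (K : β → ℝ) (hm : ∀ a ∈ s, f a ∈ t)
    (h : ∀ b ∈ t, ((s.filter (fun a => f a = b)).card : ℝ) ≤ K b) :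
    (s.card : ℝ) ≤ ∑ b ∈ t, K b := by
  have h1 : (s.card : ℝ) = ∑ b ∈ t, ((s.filter (fun a => f a = b)).card : ℝ) := by
    rw [← Nat.cast_sum, ← Finset.card_eq_sum_card_fiberwise hm]
  rw [h1]
  exact Finset.sum_le_sum h

/-- integers that are congruent modulo `N` and close to each other -/
theorem spaced (R : Finset ℤ) (N : ℕ) (L : ℝ) (hN : 1 ≤ N) (hL : 0 ≤ L)
    (h1 : ∀ a ∈ R, ∀ b ∈ R, (N : ℤ) ∣ a - b)
    (h2 : ∀ a ∈ R, ∀ b ∈ R, |(a : ℝ) - b| ≤ L) :
    (R.card : ℝ) ≤ L / N + 1 := by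
  have hN0 : (0 : ℝ) < N := by exact_mod_cast hN
  rcases R.eq_empty_or_nonempty with h | h
  · rw [h, card_empty, Nat.cast_zero]; positivity
  · set a₀ := R.min' h with ha₀
    have ha₀R : a₀ ∈ R := R.min'_mem h
    have hmin : ∀ a ∈ R, a₀ ≤ a := fun a ha => R.min'_le a ha
    have hmap : ∀ a ∈ R, (a - a₀) / N ∈ Icc (0 : ℤ) ⌊L / N⌋ := by
      intro a ha
      rw [mem_Icc]
      constructor
      · apply Int.ediv_nonneg
        · have := hmin a ha; linarith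
        · positivity
      · rw [Int.le_floor, le_div_iff₀ hN0]
        have hd := h1 a ha a₀ ha₀R
        have he : ((a - a₀) / N : ℤ) * (N : ℤ) = a - a₀ := Int.ediv_mul_cancel hd
        have he' : (((a - a₀) / N : ℤ) : ℝ) * (N : ℝ) = (a : ℝ) - a₀ := by exact_mod_cast he
        rw [he']
        exact (le_abs_self _).trans (h2 a ha a₀ ha₀R)
    have hinj : Set.InjOn (fun a : ℤ => (a - a₀) / N) (R : Set ℤ) := by
      intro a ha b hb hab
      simp only at hab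
      have e1 : ((a - a₀) / N : ℤ) * (N : ℤ) = a - a₀ := Int.ediv_mul_cancel (h1 a ha a₀ ha₀R)
      have e2 : ((b - a₀) / N : ℤ) * (N : ℤ) = b - a₀ := Int.ediv_mul_cancel (h1 b hb a₀ ha₀R)
      rw [hab] at e1
      linarith
    have hcard := card_le_card_of_injOn (fun a : ℤ => (a - a₀) / N) hmap hinj
    rw [Int.card_Icc] at hcard
    have hfl : (0 : ℤ) ≤ ⌊L / N⌋ := Int.floor_nonneg.2 (by positivity)
    have h3 : ((R.card : ℕ) : ℤ) ≤ ⌊L / N⌋ + 1 := by
      have : ((R.card : ℕ) : ℤ) ≤ ((⌊L / (N : ℝ)⌋ + 1 - 0).toNat : ℤ) := by exact_mod_cast hcard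
      rw [Int.toNat_of_nonneg (by linarith)] at this
      linarith
    have h4 : (R.card : ℝ) ≤ (⌊L / N⌋ : ℝ) + 1 := by exact_mod_cast h3
    have h5 := Int.floor_le (L / (N : ℝ))
    linarith

theorem spaced3 (R : Finset ℤ) (N : ℕ) (L : ℝ) (hN : 1 ≤ N) (hL : 0 ≤ L)
    (h1 : ∀ a ∈ R, ∀ b ∈ R, (N : ℤ) ∣ 3 * (a - b))
    (h2 : ∀ a ∈ R, ∀ b ∈ R, |(a : ℝ) - b| ≤ L) :
    (R.card : ℝ) ≤ 3 * L / N + 1 := by
  have hinj : Function.Injective (fun a : ℤ => 3 * a) := by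
    intro a b h
    simp only at h
    omega
  have h := spaced (R.image (fun a => 3 * a)) N (3 * L) hN (by positivity) (by
      intro a ha b hb
      obtain ⟨a', ha', rfl⟩ := mem_image.1 ha
      obtain ⟨b', hb', rfl⟩ := mem_image.1 hb
      have := h1 a' ha' b' hb'
      rwa [mul_sub] at this) (by
      intro a ha b hb
      obtain ⟨a', ha', rfl⟩ := mem_image.1 ha
      obtain ⟨b', hb', rfl⟩ := mem_image.1 hb
      have := h2 a' ha' b' hb'
      push_cast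
      rw [← mul_sub, abs_mul, abs_of_pos (by norm_num : (0 : ℝ) < 3)]
      linarith)
  rwa [card_image_of_injective _ hinj] at h

/-- cube roots modulo `y` in an interval -/
theorem cube_count (ε : ℝ) (hε : 0 < ε) : ∃ C : ℝ, 0 < C ∧ ∀ (y p m : ℤ) (L : ℝ) (R : Finset ℤ),
    y ≠ 0 → 0 ≤ L → (∀ x ∈ R, y ∣ p * x ^ 3 - m ∧ IsCoprime x y) →
    (∀ a ∈ R, ∀ b ∈ R, |(a : ℝ) - b| ≤ L) →
    (R.card : ℝ) ≤ C * |(y : ℝ)| ^ ε * (Int.gcd p y) * (L / |(y : ℝ)| + 1) := by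
  classical
  obtain ⟨C, hC, hroots⟩ := Pool.Agent.H328R2.ABC.roots 3 (by norm_num) ε hε
  refine ⟨C, hC, fun y p m L R hy hL h1 h2 => ?_⟩
  rcases R.eq_empty_or_nonempty with h | ⟨x₀, hx₀⟩
  · rw [h, card_empty, Nat.cast_zero]; positivity
  set g : ℕ := Int.gcd p y with hg
  have hg0 : 0 < g := Int.gcd_pos_of_ne_zero_right _ hy
  obtain ⟨y', hy'⟩ : ∃ y' : ℤ, y = g * y' := by
    obtain ⟨k, hk⟩ := Int.gcd_dvd_right (a := p) (b := y)
    exact ⟨k, hk⟩
  obtain ⟨p', hp'⟩ : ∃ p' : ℤ, p = g * p' := by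
    obtain ⟨k, hk⟩ := Int.gcd_dvd_left (a := p) (b := y)
    exact ⟨k, hk⟩
  have hgZ : (g : ℤ) ≠ 0 := by exact_mod_cast hg0.ne'
  have hcop : IsCoprime p' y' := by
    rw [Int.isCoprime_iff_gcd_eq_one]
    have h3 : Int.gcd p y = g * Int.gcd p' y' := by
      conv_lhs => rw [hp', hy', Int.gcd_mul_left]
      simp
    rw [← hg] at h3
    have : g * Int.gcd p' y' = g * 1 := by rw [← h3, mul_one]
    exact Nat.eq_of_mul_eq_mul_left hg0 this
  have hy'0 : y' ≠ 0 := by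
    rintro rfl
    rw [mul_zero] at hy'
    exact hy hy'
  set M : ℕ := y'.natAbs with hM
  have hM1 : 1 ≤ M := Nat.one_le_iff_ne_zero.2 (Int.natAbs_ne_zero.2 hy'0)
  have hMdvd : (M : ℤ) ∣ y := (Int.natAbs_dvd.2 ⟨g, by rw [hy']; ring⟩)
  -- congruence of the cubes
  have hcub : ∀ x ∈ R, (M : ℤ) ∣ x ^ 3 - x₀ ^ 3 := by
    intro x hx
    have e1 : y ∣ p * (x ^ 3 - x₀ ^ 3) := by
      have := dvd_sub (h1 x hx).1 (h1 x₀ hx₀).1
      have e : p * x ^ 3 - m - (p * x₀ ^ 3 - m) = p * (x ^ 3 - x₀ ^ 3) := by ring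
      rwa [e] at this
    rw [hy', hp', mul_assoc] at e1
    have e2 : y' ∣ p' * (x ^ 3 - x₀ ^ 3) := (mul_dvd_mul_iff_left hgZ).1 e1
    exact Int.natAbs_dvd.2 (hcop.symm.dvd_of_dvd_mul_left e2)
  have hunit : ∀ x ∈ R, IsUnit ((x : ℤ) : ZMod M) := by
    intro x hx
    rw [ZMod.coe_int_isUnit_iff_isCoprime]
    have h3 : IsCoprime x (M : ℤ) := (h1 x hx).2.of_isCoprime_of_dvd_right hMdvd
    exact h3.symm
  set u : ZMod M := ((x₀ : ℤ) : ZMod M) ^ 3 with hu
  have huu : IsUnit u := (hunit x₀ hx₀).pow 3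
  have hmem : ∀ x ∈ R, ((x : ℤ) : ZMod M) ^ 3 = u := by
    intro x hx
    have := (ZMod.intCast_zmod_eq_zero_iff_dvd (x ^ 3 - x₀ ^ 3) M).2 (hcub x hx)
    push_cast at this
    rw [hu]
    exact sub_eq_zero.1 this
  haveI : NeZero M := ⟨by omega⟩
  have himg : ((R.image (fun x : ℤ => (x : ZMod M))).card : ℝ) ≤ C * (M : ℝ) ^ ε := by
    refine le_trans ?_ (hroots M hM1 u huu)
    have hsub : ((R.image (fun x : ℤ => (x : ZMod M)) : Finset (ZMod M)) : Set (ZMod M)) ⊆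
        {t : ZMod M | t ^ 3 = u} := by
      intro t ht
      obtain ⟨x, hx, rfl⟩ := mem_image.1 (mem_coe.1 ht)
      exact hmem x hx
    have := Set.ncard_le_ncard hsub (Set.toFinite _)
    rw [Set.ncard_coe_finset] at this
    exact_mod_cast this
  have hMR : (0 : ℝ) < M := by exact_mod_cast hM1
  have hfib : ∀ b ∈ R.image (fun x : ℤ => (x : ZMod M)),
      ((R.filter (fun x : ℤ => (x : ZMod M) = b)).card : ℝ) ≤ L / M + 1 := by
    intro b _
    apply spaced _ M L hM1 hL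
    · intro a ha c hc
      rw [mem_filter] at ha hc
      rw [← ZMod.intCast_zmod_eq_zero_iff_dvd]
      push_cast
      rw [ha.2, hc.2, sub_self]
    · intro a ha c hc
      exact h2 a (mem_filter.1 ha).1 c (mem_filter.1 hc).1
  have hfin := card_fib R (fun x : ℤ => (x : ZMod M)) (L / M + 1) hfib
  have hyabs : |(y : ℝ)| = g * M := by
    rw [hy']
    push_cast
    rw [abs_mul, abs_of_pos (by exact_mod_cast hg0 : (0 : ℝ) < (g : ℝ)), hM, Nat.cast_natAbs,
      Int.cast_abs]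
  have hgR : (1 : ℝ) ≤ g := by exact_mod_cast hg0
  have hMy : (M : ℝ) ≤ |(y : ℝ)| := by
    rw [hyabs]; nlinarith
  have hy0 : 0 < |(y : ℝ)| := lt_of_lt_of_le hMR hMy
  calc (R.card : ℝ) ≤ (L / M + 1) * ((R.image (fun x : ℤ => (x : ZMod M))).card : ℝ) := hfin
    _ ≤ (g * (L / |(y : ℝ)| + 1)) * (C * |(y : ℝ)| ^ ε) := by
        have e : L / M + 1 ≤ g * (L / |(y : ℝ)| + 1) := by
          have : L / M = g * (L / |(y : ℝ)|) := by
            rw [hyabs]
            field_simp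
          rw [this, mul_add, mul_one]
          linarith
        have e2 : C * (M : ℝ) ^ ε ≤ C * |(y : ℝ)| ^ ε := by gcongr
        apply mul_le_mul e (himg.trans e2) (Nat.cast_nonneg _) (by positivity)
    _ = _ := by ring

end Run7.h577.S
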