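import Mathlib
import Pool.Agent.Run7.h577.SC

/-!
Sums of greatest common divisors.
-/

set_option autoImplicit false

namespace Run7.h577.S

open Finset

theorem harm (P : ℕ) : ∑ j ∈ Icc 1 P, (1 : ℝ) / j ≤ 1 + Real.log P := by
  have h := harmonic_le_one_add_log P
  have e : ((harmonic P : ℚ) : ℝ) = ∑ j ∈ Icc 1 P, (1 : ℝ) / j := by
    rw [harmonic_eq_sum_Icc]
    push_cast
    exact sum_congr rfl fun j _ => by rw [one_div]
  rwa [e] at h

/-- the multiples of `d` up to `P` -/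
theorem mult_sum (d P : ℕ) (hd : 1 ≤ d) (H : ℝ) (hH : 0 ≤ H) :
    ∑ k ∈ (Icc 1 P).filter (fun k => d ∣ k), (1 + H / k) ≤ (P + H * (1 + Real.log P)) / d := by
  have hdR : (0 : ℝ) < d := by exact_mod_cast hd
  have himg : (Icc 1 P).filter (fun k => d ∣ k) = (Icc 1 (P / d)).image (fun j => d * j) := by
    ext k
    simp only [mem_filter, mem_Icc, mem_image]
    constructor
    · rintro ⟨⟨h1, h2⟩, j, rfl⟩
      refine ⟨j, ⟨?_, ?_⟩, rfl⟩
      · rcases Nat.eq_zero_or_pos j with h | h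
        · rw [h, mul_zero] at h1; omega
        · exact h
      · rw [Nat.le_div_iff_mul_le (by omega)]; rw [mul_comm]; exact h2
    · rintro ⟨j, ⟨h1, h2⟩, rfl⟩
      rw [Nat.le_div_iff_mul_le (by omega)] at h2
      refine ⟨⟨?_, by rw [mul_comm]; exact h2⟩, dvd_mul_right _ _⟩
      exact Nat.one_le_iff_ne_zero.2 (Nat.mul_ne_zero (by omega) (by omega))
  rw [himg, sum_image (by
    intro a _ b _ h
    exact Nat.eq_of_mul_eq_mul_left (by omega) h)]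
  rw [sum_add_distrib]
  have h1 : ∑ _j ∈ Icc 1 (P / d), (1 : ℝ) ≤ P / d := by
    rw [sum_const, Nat.card_Icc, nsmul_eq_mul, mul_one]
    have : ((P / d + 1 - 1 : ℕ) : ℝ) = ((P / d : ℕ) : ℝ) := by norm_num
    rw [this]
    exact Nat.cast_div_le
  have h2 : ∑ j ∈ Icc 1 (P / d), H / ((d * j : ℕ) : ℝ) ≤ H / d * (1 + Real.log P) := by
    have e : ∑ j ∈ Icc 1 (P / d), H / ((d * j : ℕ) : ℝ) = H / d * ∑ j ∈ Icc 1 (P / d), (1 : ℝ) / j := by
      rw [mul_sum]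
      refine sum_congr rfl fun j hj => ?_
      have hj0 : (0 : ℝ) < j := by
        have := (mem_Icc.1 hj).1
        exact_mod_cast this
      push_cast
      field_simp
    rw [e]
    apply mul_le_mul_of_nonneg_left _ (by positivity)
    refine le_trans ?_ (harm P)
    apply sum_le_sum_of_subset_of_nonneg
    · apply Icc_subset_Icc le_rfl (Nat.div_le_self _ _)
    · intro i _ _; positivity
  have e : (P + H * (1 + Real.log P)) / d = P / d + H / d * (1 + Real.log P) := by ring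
  rw [e]
  linarith

theorem gcd_sum (n P : ℕ) (hn : 1 ≤ n) (H : ℝ) (hH : 0 ≤ H) :
    ∑ k ∈ Icc 1 P, ((Nat.gcd k n : ℕ) : ℝ) * (1 + H / k) ≤
      n.divisors.card * (P + H * (1 + Real.log P)) := by
  have h1 : ∀ k ∈ Icc 1 P, ((Nat.gcd k n : ℕ) : ℝ) * (1 + H / k) ≤
      ∑ d ∈ n.divisors, if d ∣ k then (d : ℝ) * (1 + H / k) else 0 := by
    intro k hk
    have hk1 := (mem_Icc.1 hk).1
    have hk0 : (0 : ℝ) < k := by exact_mod_cast hk1
    have hmem : Nat.gcd k n ∈ n.divisors := Nat.mem_divisors.2 ⟨Nat.gcd_dvd_right _ _, by omega⟩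
    have h2 := single_le_sum (f := fun d : ℕ => if d ∣ k then (d : ℝ) * (1 + H / k) else 0)
      (fun d _ => by
        split_ifs
        · positivity
        · exact le_rfl) hmem
    simp only [Nat.gcd_dvd_left, if_true] at h2
    exact h2
  refine (sum_le_sum h1).trans ?_
  rw [sum_comm]
  have h3 : ∀ d ∈ n.divisors, (∑ k ∈ Icc 1 P, if d ∣ k then (d : ℝ) * (1 + H / k) else 0) ≤
      P + H * (1 + Real.log P) := by
    intro d hd
    have hd1 : 1 ≤ d := Nat.pos_of_mem_divisors hd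
    have hdR : (0 : ℝ) < d := by exact_mod_cast hd1
    rw [← sum_filter, ← mul_sum]
    have h4 := mult_sum d P hd1 H hH
    rw [le_div_iff₀ hdR] at h4
    linarith
  refine (sum_le_sum h3).trans ?_
  rw [sum_const, nsmul_eq_mul]

theorem gcd_prod_le (k y m : ℕ) (hk : 1 ≤ k) (hy : 1 ≤ y) :
    Nat.gcd k y * Nat.gcd k m ≤ Nat.gcd k (y * m) * Nat.gcd y m := by
  have h1 : Nat.lcm (Nat.gcd k y) (Nat.gcd k m) ∣ Nat.gcd k (y * m) := by
    apply Nat.dvd_gcd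
    · exact Nat.lcm_dvd (Nat.gcd_dvd_left _ _) (Nat.gcd_dvd_left _ _)
    · exact Nat.lcm_dvd ((Nat.gcd_dvd_right _ _).trans (dvd_mul_right _ _))
        ((Nat.gcd_dvd_right _ _).trans (dvd_mul_left _ _))
  have h2 : Nat.gcd (Nat.gcd k y) (Nat.gcd k m) ∣ Nat.gcd y m := by
    apply Nat.dvd_gcd
    · exact (Nat.gcd_dvd_left _ _).trans (Nat.gcd_dvd_right _ _)
    · exact (Nat.gcd_dvd_right _ _).trans (Nat.gcd_dvd_right _ _)
  have p1 : 0 < Nat.gcd k (y * m) := Nat.gcd_pos_of_pos_left _ (by omega)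
  have p2 : 0 < Nat.gcd y m := Nat.gcd_pos_of_pos_left _ (by omega)
  rw [← Nat.gcd_mul_lcm (Nat.gcd k y) (Nat.gcd k m), mul_comm]
  exact Nat.mul_le_mul (Nat.le_of_dvd p1 h1) (Nat.le_of_dvd p2 h2)

/-- the sum over the pairs `(y, k)` -/
theorem pair_sum (ε : ℝ) (hε : 0 < ε) : ∃ C : ℝ, 0 < C ∧ ∀ (Y P m : ℕ) (H ρ Z : ℝ), 1 ≤ m →
    0 ≤ H → 0 ≤ ρ → 1 ≤ Z → (Y : ℝ) ≤ Z → (P : ℝ) ≤ Z → (m : ℝ) ≤ Z →
    ∑ y ∈ Icc 1 Y, ∑ k ∈ Icc 1 P, (y : ℝ) ^ ε * (Nat.gcd k y : ℕ) * (1 + H / k) *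
      (1 + ρ * (Nat.gcd k m : ℕ)) ≤ C * Z ^ (5 * ε) * (Y * (1 + ρ) * (P + H)) := by
  obtain ⟨C, hC, hdiv⟩ := Pool.Agent.R481.S2.divisor_bound_real ε hε
  have hC1 : 1 ≤ C := by
    have := hdiv 1 one_ne_zero
    simpa using this
  refine ⟨C * C * (1 + 1 / ε), by positivity, fun Y P m H ρ Z hm hH hρ hZ hYZ hPZ hmZ => ?_⟩
  have hmR : (1 : ℝ) ≤ m := by exact_mod_cast hm
  have hZ0 : 0 < Z := by linarith
  have hZε : 1 ≤ Z ^ ε := Real.one_le_rpow hZ hε.le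
  -- the logarithm
  have hlog : 1 + Real.log P ≤ (1 + 1 / ε) * Z ^ ε := by
    have h1 : Real.log P ≤ Real.log Z := by
      rcases Nat.eq_zero_or_pos P with h | h
      · rw [h, Nat.cast_zero, Real.log_zero]; exact Real.log_nonneg hZ
      · exact Real.log_le_log (by exact_mod_cast h) hPZ
    have h2 := Real.log_le_rpow_div hZ0.le hε
    have e : (1 + 1 / ε) * Z ^ ε = Z ^ ε + Z ^ ε / ε := by ring
    rw [e]
    linarith
  have hlog0 : 0 ≤ 1 + Real.log (P : ℝ) := by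
    have := Real.log_natCast_nonneg P
    linarith
  -- inner sum
  have hin : ∀ y ∈ Icc 1 Y, ∑ k ∈ Icc 1 P, (y : ℝ) ^ ε * (Nat.gcd k y : ℕ) * (1 + H / k) *
      (1 + ρ * (Nat.gcd k m : ℕ)) ≤ C * (1 + 1 / ε) * Z ^ (4 * ε) * (P + H) *
        (1 + ρ * (Nat.gcd y m : ℕ)) := by
    intro y hy
    have hy1 := (mem_Icc.1 hy).1
    have hy2 := (mem_Icc.1 hy).2
    have hyR : (1 : ℝ) ≤ y := by exact_mod_cast hy1
    have hyZ : (y : ℝ) ≤ Z := le_trans (by exact_mod_cast hy2) hYZ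
    have hyε : (y : ℝ) ^ ε ≤ Z ^ ε := Real.rpow_le_rpow (by linarith) hyZ hε.le
    have hterm : ∀ k ∈ Icc 1 P, (y : ℝ) ^ ε * (Nat.gcd k y : ℕ) * (1 + H / k) *
        (1 + ρ * (Nat.gcd k m : ℕ)) ≤ (Z ^ ε * (1 + ρ * (Nat.gcd y m : ℕ))) *
          (((Nat.gcd k (y * m) : ℕ) : ℝ) * (1 + H / k)) := by
      intro k hk
      have hk1 := (mem_Icc.1 hk).1
      have hkR : (1 : ℝ) ≤ k := by exact_mod_cast hk1
      have h1 : ((Nat.gcd k y : ℕ) : ℝ) ≤ (Nat.gcd k (y * m) : ℕ) := by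
        have : Nat.gcd k y ∣ Nat.gcd k (y * m) :=
          Nat.dvd_gcd (Nat.gcd_dvd_left _ _) ((Nat.gcd_dvd_right _ _).trans (dvd_mul_right _ _))
        exact_mod_cast Nat.le_of_dvd (Nat.gcd_pos_of_pos_left _ (by omega)) this
      have h2 : ((Nat.gcd k y : ℕ) : ℝ) * (Nat.gcd k m : ℕ) ≤
          (Nat.gcd k (y * m) : ℕ) * (Nat.gcd y m : ℕ) := by
        exact_mod_cast gcd_prod_le k y m hk1 hy1
      have h3 : ((Nat.gcd k y : ℕ) : ℝ) * (1 + ρ * (Nat.gcd k m : ℕ)) ≤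
          (Nat.gcd k (y * m) : ℕ) * (1 + ρ * (Nat.gcd y m : ℕ)) := by
        have := mul_le_mul_of_nonneg_left h2 hρ
        linarith
      calc (y : ℝ) ^ ε * (Nat.gcd k y : ℕ) * (1 + H / k) * (1 + ρ * (Nat.gcd k m : ℕ))
          = (y : ℝ) ^ ε * (1 + H / k) * (((Nat.gcd k y : ℕ) : ℝ) * (1 + ρ * (Nat.gcd k m : ℕ))) := by
            ring
        _ ≤ Z ^ ε * (1 + H / k) * ((Nat.gcd k (y * m) : ℕ) * (1 + ρ * (Nat.gcd y m : ℕ))) := by
            gcongr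
        _ = _ := by ring
    refine (sum_le_sum hterm).trans ?_
    rw [← mul_sum]
    have hym : 1 ≤ y * m := Nat.one_le_iff_ne_zero.2 (Nat.mul_ne_zero (by omega) (by omega))
    have h5 := gcd_sum (y * m) P hym H hH
    have h6 := hdiv (y * m) (by omega)
    have h7 : (((y * m : ℕ) : ℝ)) ^ ε ≤ Z ^ (2 * ε) := by
      have : ((y * m : ℕ) : ℝ) ≤ Z ^ (2 : ℝ) := by
        push_cast
        rw [Real.rpow_two, sq]
        exact mul_le_mul hyZ hmZ (by linarith) (by linarith)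
      calc (((y * m : ℕ) : ℝ)) ^ ε ≤ (Z ^ (2 : ℝ)) ^ ε := Real.rpow_le_rpow (by positivity) this hε.le
        _ = Z ^ (2 * ε) := by rw [← Real.rpow_mul hZ0.le]
    have h8 : ∑ k ∈ Icc 1 P, ((Nat.gcd k (y * m) : ℕ) : ℝ) * (1 + H / k) ≤
        C * Z ^ (2 * ε) * ((P + H) * ((1 + 1 / ε) * Z ^ ε)) := by
      refine h5.trans ?_
      apply mul_le_mul (h6.trans (by gcongr)) _ (by positivity) (by positivity)
      have e1 : (1 : ℝ) ≤ (1 + 1 / ε) * Z ^ ε := by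
        have : (1 : ℝ) ≤ 1 + 1 / ε := by
          have : 0 < 1 / ε := by positivity
          linarith
        nlinarith
      have e2 : (P : ℝ) ≤ P * ((1 + 1 / ε) * Z ^ ε) := le_mul_of_one_le_right (Nat.cast_nonneg _) e1
      have e3 := mul_le_mul_of_nonneg_left hlog hH
      rw [add_mul]
      linarith
    calc (Z ^ ε * (1 + ρ * (Nat.gcd y m : ℕ))) *
          ∑ k ∈ Icc 1 P, ((Nat.gcd k (y * m) : ℕ) : ℝ) * (1 + H / k)
        ≤ (Z ^ ε * (1 + ρ * (Nat.gcd y m : ℕ))) *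
          (C * Z ^ (2 * ε) * ((P + H) * ((1 + 1 / ε) * Z ^ ε))) := by
          apply mul_le_mul_of_nonneg_left h8 (by positivity)
      _ = C * (1 + 1 / ε) * (Z ^ ε * Z ^ (2 * ε) * Z ^ ε) * (P + H) *
          (1 + ρ * (Nat.gcd y m : ℕ)) := by ring
      _ = _ := by
          rw [← Real.rpow_add hZ0, ← Real.rpow_add hZ0]
          congr 4
          ring
  refine (sum_le_sum hin).trans ?_
  rw [← mul_sum]
  have h9 : ∑ y ∈ Icc 1 Y, (1 + ρ * ((Nat.gcd y m : ℕ) : ℝ)) ≤ C * Z ^ ε * (Y * (1 + ρ)) := by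
    rw [sum_add_distrib, ← mul_sum]
    have h10 := gcd_sum m Y hm 0 le_rfl
    simp only [zero_div, add_zero, mul_one, zero_mul] at h10
    have h11 := hdiv m (by omega)
    have h12 : (m : ℝ) ^ ε ≤ Z ^ ε := Real.rpow_le_rpow (by linarith) hmZ hε.le
    have h13 : (m.divisors.card : ℝ) ≤ C * Z ^ ε := h11.trans (by gcongr)
    have h14 : (1 : ℝ) ≤ C * Z ^ ε := by nlinarith
    rw [sum_const, Nat.card_Icc, nsmul_eq_mul, mul_one]
    have e1 : ((Y + 1 - 1 : ℕ) : ℝ) = Y := by norm_num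
    rw [e1]
    have e2 : (Y : ℝ) ≤ C * Z ^ ε * Y := le_mul_of_one_le_left (Nat.cast_nonneg _) h14
    have e3 : ρ * ∑ y ∈ Icc 1 Y, ((Nat.gcd y m : ℕ) : ℝ) ≤ ρ * (C * Z ^ ε * Y) := by
      apply mul_le_mul_of_nonneg_left _ hρ
      exact h10.trans (by gcongr)
    calc (Y : ℝ) + ρ * ∑ y ∈ Icc 1 Y, ((Nat.gcd y m : ℕ) : ℝ) ≤ C * Z ^ ε * Y + ρ * (C * Z ^ ε * Y) := by
          linarith
      _ = _ := by ring
  calc C * (1 + 1 / ε) * Z ^ (4 * ε) * (P + H) * ∑ y ∈ Icc 1 Y, (1 + ρ * ((Nat.gcd y m : ℕ) : ℝ))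
      ≤ C * (1 + 1 / ε) * Z ^ (4 * ε) * (P + H) * (C * Z ^ ε * (Y * (1 + ρ))) := by
        apply mul_le_mul_of_nonneg_left h9 (by positivity)
    _ = C * C * (1 + 1 / ε) * (Z ^ (4 * ε) * Z ^ ε) * (Y * (1 + ρ) * (P + H)) := by ring
    _ = _ := by
        rw [← Real.rpow_add hZ0]
        congr 3
        ring

end Run7.h577.S
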