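import Mathlib
import Pool.Agent.Run7.h577.SD

/-!
The number of the representations `F(x, y) = m` by binary cubic forms `(p, 3q, 3r, s)` in a box.
-/

set_option autoImplicit false

namespace Run7.h577.S

open Finset

/-- a binary cubic form together with a point -/
structure F6 where
  (p q r s x y : ℤ)
  deriving DecidableEq

/-- the conditions -/
structure Good (A B G : ℝ) (m m₀ : ℤ) (z : F6) : Prop where
  eqn : z.p * z.x ^ 3 + 3 * z.q * z.x ^ 2 * z.y + 3 * z.r * z.x * z.y ^ 2 + z.s * z.y ^ 3 = m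
  cop : IsCoprime z.x z.y
  p0 : z.p ≠ 0
  y0 : z.y ≠ 0
  hy : |(z.y : ℝ)| ≤ A
  hx : |(z.x : ℝ)| ≤ B
  big : A * B ≤ 4 * (A * |(z.x : ℝ)| + B * |(z.y : ℝ)|)
  bp : |(z.p : ℝ)| ≤ 9 * G * A ^ 3
  bq : |(z.q : ℝ)| ≤ 9 * G * A ^ 2 * B
  br : |(z.r : ℝ)| ≤ 9 * G * A * B ^ 2
  bs : |(z.s : ℝ)| ≤ 9 * G * B ^ 3
  con : m₀ ∣ 3 * (z.p * z.x + z.q * z.y) ^ 2 -
    4 * z.p * (z.p * z.x ^ 2 + 2 * z.q * z.x * z.y + z.r * z.y ^ 2)

variable {A B G : ℝ} {m m₀ : ℤ}

theorem Good.xbig (hA : 0 < A) {z : F6} (h : Good A B G m m₀ z) (hs : 8 * |(z.y : ℝ)| ≤ A) :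
    B ≤ 8 * |(z.x : ℝ)| := by
  have h1 := h.big
  have hB : 0 ≤ B := (abs_nonneg _).trans h.hx
  have h2 : A * B ≤ 4 * A * |(z.x : ℝ)| + A * B / 2 := by nlinarith
  have h3 : A * B ≤ A * (8 * |(z.x : ℝ)|) := by linarith
  exact le_of_mul_le_mul_left h3 hA

theorem sub_abs_le {a b c : ℝ} (h1 : |a| ≤ c) (h2 : |b| ≤ c) : |a - b| ≤ 2 * c := by
  have := abs_sub a b
  linarith

/-- the number of `r` -/
theorem cnt_r (hA : 0 < A) (hB : 0 < B) (hG : 0 < G) (m₀ : ℕ) (hm₀ : 1 ≤ m₀) (hsq : Squarefree m₀)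
    (hmm : (m₀ : ℤ) ∣ m) (p q x y : ℤ) (S : Finset F6)
    (hS : ∀ z ∈ S, Good A B G m m₀ z ∧ z.p = p ∧ z.q = q ∧ z.x = x ∧ z.y = y) :
    (S.card : ℝ) ≤ 1 + 864 * (G * B ^ 2 / m₀) * (Int.gcd p m₀ : ℕ) := by
  classical
  rcases S.eq_empty_or_nonempty with h | ⟨z₀, hz₀⟩
  · rw [h, card_empty, Nat.cast_zero]; positivity
  obtain ⟨g0, hp0, hq0, hx0, hy0⟩ := hS z₀ hz₀
  have hcop : IsCoprime x y := by have := g0.cop; rwa [hx0, hy0] at this
  have hpne : p ≠ 0 := by have := g0.p0; rwa [hp0] at this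
  have hyne : y ≠ 0 := by have := g0.y0; rwa [hy0] at this
  have hmR : (0 : ℝ) < m₀ := by exact_mod_cast hm₀
  -- the map `z ↦ r` is injective
  have hrel : ∀ z ∈ S, ∀ z' ∈ S, 3 * x * (z.r - z'.r) = -(y * (z.s - z'.s)) := by
    intro z hz z' hz'
    obtain ⟨h1, e1, e2, e3, e4⟩ := hS z hz
    obtain ⟨h1', e1', e2', e3', e4'⟩ := hS z' hz'
    have a := h1.eqn
    have b := h1'.eqn
    rw [e1, e2, e3, e4] at a
    rw [e1', e2', e3', e4'] at b
    have h2 : y ^ 2 * (3 * x * (z.r - z'.r) + y * (z.s - z'.s)) = 0 := by linear_combination a - b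
    rcases mul_eq_zero.1 h2 with h3 | h3
    · exact absurd h3 (pow_ne_zero 2 hyne)
    · linarith
  have hinj : Set.InjOn (fun z : F6 => z.r) (S : Set F6) := by
    intro z hz z' hz' hrr
    simp only at hrr
    have h1 := hrel z hz z' hz'
    rw [hrr, sub_self, mul_zero] at h1
    have h2 : z.s - z'.s = 0 := by
      rcases mul_eq_zero.1 (neg_eq_zero.1 h1.symm) with h3 | h3
      · exact absurd h3 hyne
      · exact h3
    obtain ⟨-, e1, e2, e3, e4⟩ := hS z hz
    obtain ⟨-, e1', e2', e3', e4'⟩ := hS z' hz'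
    cases z
    cases z'
    simp only at e1 e2 e3 e4 e1' e2' e3' e4' hrr h2
    simp only [F6.mk.injEq]
    refine ⟨by rw [e1, e1'], by rw [e2, e2'], hrr, by linarith, by rw [e3, e3'], by rw [e4, e4']⟩
  rw [← card_image_of_injOn hinj]
  -- the modulus
  set g : ℕ := Nat.gcd m₀ (2 * p.natAbs) with hg
  have hpn : p.natAbs ≠ 0 := Int.natAbs_ne_zero.2 hpne
  have hg0 : 0 < g := Nat.gcd_pos_of_pos_left _ (by omega)
  have hgd : g ∣ m₀ := Nat.gcd_dvd_left _ _
  set M : ℕ := m₀ / g with hM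
  have hMg : M * g = m₀ := Nat.div_mul_cancel hgd
  have hM1 : 1 ≤ M := by
    rcases Nat.eq_zero_or_pos M with h | h
    · rw [h, zero_mul] at hMg; omega
    · exact h
  have hMc : Nat.Coprime M (2 * p.natAbs) := Nat.coprime_div_gcd_of_squarefree hsq (by omega)
  have hMm : (M : ℤ) ∣ m := (Int.natCast_dvd_natCast.2 (Dvd.intro _ hMg)).trans hmm
  have hMp : IsCoprime (M : ℤ) p := by
    rw [Int.isCoprime_iff_gcd_eq_one]
    have : Nat.Coprime M p.natAbs := hMc.coprime_mul_left_right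
    simpa [Int.gcd] using this
  have hM2 : IsCoprime (M : ℤ) 2 := by
    rw [Int.isCoprime_iff_gcd_eq_one]
    have : Nat.Coprime M 2 := hMc.coprime_mul_right_right
    simpa [Int.gcd] using this
  have hMy : IsCoprime (M : ℤ) y := by
    -- a common factor divides `p x³`
    have he := g0.eqn
    rw [hp0, hx0, hy0] at he
    have h1 : IsCoprime (M : ℤ) y := by
      rw [Int.isCoprime_iff_gcd_eq_one]
      set e : ℕ := Int.gcd (M : ℤ) y with hee
      have d1 : (e : ℤ) ∣ (M : ℤ) := Int.gcd_dvd_left ..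
      have d2 : (e : ℤ) ∣ y := Int.gcd_dvd_right ..
      have d3 : (e : ℤ) ∣ p * x ^ 3 := by
        have e3 : p * x ^ 3 = m - y * (3 * z₀.q * x ^ 2 + 3 * z₀.r * x * y + z₀.s * y ^ 2) := by
          linear_combination he
        rw [e3]
        exact dvd_sub (d1.trans hMm) (Dvd.dvd.mul_right d2 _)
      have c1 : IsCoprime (e : ℤ) x := (hcop.of_isCoprime_of_dvd_right d2).symm
      have c2 : IsCoprime (e : ℤ) p := hMp.of_isCoprime_of_dvd_left d1
      have c3 : IsCoprime (e : ℤ) (p * x ^ 3) := c2.mul_right (c1.pow_right)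
      have := c3.isUnit_of_dvd' (dvd_refl _) d3
      have h5 := Int.isUnit_iff.1 this
      omega
    exact h1
  -- the modulus `|y| M`
  have hN1 : 1 ≤ y.natAbs * M :=
    Nat.one_le_iff_ne_zero.2 (Nat.mul_ne_zero (Int.natAbs_ne_zero.2 hyne) (by omega))
  have hL0 : 0 ≤ 144 * G * B ^ 2 * |(y : ℝ)| := by positivity
  have hsp := spaced3 (S.image (fun z : F6 => z.r)) (y.natAbs * M) (144 * G * B ^ 2 * |(y : ℝ)|)
    hN1 hL0 (by
      intro a ha b hb
      obtain ⟨z, hz, rfl⟩ := mem_image.1 ha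
      obtain ⟨z', hz', rfl⟩ := mem_image.1 hb
      have h1 : y ∣ 3 * (z.r - z'.r) := by
        have h2 : y ∣ x * (3 * (z.r - z'.r)) :=
          ⟨-(z.s - z'.s), by linear_combination hrel z hz z' hz'⟩
        exact hcop.symm.dvd_of_dvd_mul_left h2
      have h2 : (M : ℤ) ∣ z.r - z'.r := by
        obtain ⟨k1, e1, e2, e3, e4⟩ := hS z hz
        obtain ⟨k1', e1', e2', e3', e4'⟩ := hS z' hz'
        have a := k1.con
        have b := k1'.con
        rw [e1, e2, e3, e4] at a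
        rw [e1', e2', e3', e4'] at b
        have c := dvd_sub b a
        have e : 3 * (p * x + q * y) ^ 2 - 4 * p * (p * x ^ 2 + 2 * q * x * y + z'.r * y ^ 2) -
            (3 * (p * x + q * y) ^ 2 - 4 * p * (p * x ^ 2 + 2 * q * x * y + z.r * y ^ 2)) =
            (2 * 2 * p * y ^ 2) * (z.r - z'.r) := by ring
        rw [e] at c
        have c2 : (M : ℤ) ∣ (2 * 2 * p * y ^ 2) * (z.r - z'.r) :=
          (Int.natCast_dvd_natCast.2 (Dvd.intro _ hMg)).trans c
        have c3 : IsCoprime (M : ℤ) (2 * 2 * p * y ^ 2) :=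
          (((hM2.mul_right hM2).mul_right hMp).mul_right hMy.pow_right)
        exact c3.dvd_of_dvd_mul_left c2
      have h3 : (y.natAbs : ℤ) ∣ 3 * (z.r - z'.r) := Int.natAbs_dvd.2 h1
      have h4 : IsCoprime (y.natAbs : ℤ) (M : ℤ) := by
        have : IsCoprime y (M : ℤ) := hMy.symm
        rw [Int.isCoprime_iff_gcd_eq_one] at this ⊢
        simpa [Int.gcd, Int.natAbs_abs] using this
      have := h4.mul_dvd h3 (Dvd.dvd.mul_left h2 3)
      push_cast
      push_cast at this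
      exact this) (by
      intro a ha b hb
      obtain ⟨z, hz, rfl⟩ := mem_image.1 ha
      obtain ⟨z', hz', rfl⟩ := mem_image.1 hb
      obtain ⟨k1, e1, e2, e3, e4⟩ := hS z hz
      obtain ⟨k1', e1', e2', e3', e4'⟩ := hS z' hz'
      rcases le_total (8 * |(y : ℝ)|) A with hc | hc
      · have hxb : B ≤ 8 * |(x : ℝ)| := by
          have := k1.xbig hA (by rw [e4]; exact hc)
          rwa [e3] at this
        have hss := sub_abs_le k1.bs k1'.bs
        have hr := hrel z hz z' hz'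
        have hrR : 3 * (x : ℝ) * ((z.r : ℝ) - z'.r) = -((y : ℝ) * ((z.s : ℝ) - z'.s)) := by
          exact_mod_cast hr
        have h1 : 3 * |(x : ℝ)| * |(z.r : ℝ) - z'.r| = |(y : ℝ)| * |(z.s : ℝ) - z'.s| := by
          have := congrArg abs hrR
          rwa [abs_neg, abs_mul, abs_mul, abs_mul, abs_of_pos (by norm_num : (0 : ℝ) < 3)] at this
        have h2 : 3 * |(x : ℝ)| * |(z.r : ℝ) - z'.r| ≤ |(y : ℝ)| * (2 * (9 * G * B ^ 3)) := by
          rw [h1]; gcongr
        have h3 : 3 * B * |(z.r : ℝ) - z'.r| ≤ 8 * (|(y : ℝ)| * (2 * (9 * G * B ^ 3))) := by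
          have h5 := abs_nonneg ((z.r : ℝ) - z'.r)
          nlinarith
        have h4 : B * |(z.r : ℝ) - z'.r| ≤ B * (48 * G * B ^ 2 * |(y : ℝ)|) := by
          have e : 8 * (|(y : ℝ)| * (2 * (9 * G * B ^ 3))) = 3 * (B * (48 * G * B ^ 2 * |(y : ℝ)|)) := by
            ring
          rw [e] at h3
          linarith
        have h5 := le_of_mul_le_mul_left h4 hB
        have h6 : 0 ≤ G * B ^ 2 * |(y : ℝ)| := by positivity
        linarith
      · have h1 := sub_abs_le k1.br k1'.br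
        refine h1.trans ?_
        have h2 : G * B ^ 2 * A ≤ G * B ^ 2 * (8 * |(y : ℝ)|) := by gcongr
        linarith)
  refine hsp.trans ?_
  have hyR : 0 < |(y : ℝ)| := abs_pos.2 (by exact_mod_cast hyne)
  have hMR : (0 : ℝ) < M := by exact_mod_cast hM1
  have e1 : ((y.natAbs * M : ℕ) : ℝ) = |(y : ℝ)| * M := by
    push_cast
    rw [Nat.cast_natAbs, Int.cast_abs]
  rw [e1]
  have e2 : 3 * (144 * G * B ^ 2 * |(y : ℝ)|) / (|(y : ℝ)| * M) = 432 * G * B ^ 2 / M := by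
    field_simp
    ring
  rw [e2]
  have hgR : (0 : ℝ) < g := by exact_mod_cast hg0
  have e3 : 432 * G * B ^ 2 / M = 432 * (G * B ^ 2 / m₀) * g := by
    have : (m₀ : ℝ) = M * g := by exact_mod_cast hMg.symm
    rw [this]
    field_simp
  rw [e3]
  have h7 : (g : ℝ) ≤ 2 * (Int.gcd p m₀ : ℕ) := by
    have h8 : g ∣ 2 * Nat.gcd m₀ p.natAbs := by
      have := Nat.gcd_mul_right_dvd_mul_gcd m₀ 2 p.natAbs
      refine this.trans (Nat.mul_dvd_mul (Nat.gcd_dvd_right _ _) dvd_rfl)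
    have h9 : g ≤ 2 * Nat.gcd m₀ p.natAbs :=
      Nat.le_of_dvd (by have := Nat.gcd_pos_of_pos_left p.natAbs (show 0 < m₀ by omega); omega) h8
    have h10 : Int.gcd p m₀ = Nat.gcd m₀ p.natAbs := by
      rw [Int.gcd, Int.natAbs_natCast, Nat.gcd_comm]
    rw [h10]
    exact_mod_cast h9
  have h8 : 0 ≤ G * B ^ 2 / m₀ := by positivity
  nlinarith

/-- the number of `(q, r)` -/
theorem cnt_q (hA : 0 < A) (hB : 0 < B) (hG : 0 < G) (m₀ : ℕ) (hm₀ : 1 ≤ m₀) (hsq : Squarefree m₀)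
    (hmm : (m₀ : ℤ) ∣ m) (p x y : ℤ) (S : Finset F6)
    (hS : ∀ z ∈ S, Good A B G m m₀ z ∧ z.p = p ∧ z.x = x ∧ z.y = y) :
    (S.card : ℝ) ≤ (1 + 864 * (G * B ^ 2 / m₀) * (Int.gcd p m₀ : ℕ)) * (1 + 576 * (G * A * B)) := by
  classical
  rcases S.eq_empty_or_nonempty with h | ⟨z₀, hz₀⟩
  · rw [h, card_empty, Nat.cast_zero]; positivity
  obtain ⟨g0, hp0, hx0, hy0⟩ := hS z₀ hz₀
  have hcop : IsCoprime x y := by have := g0.cop; rwa [hx0, hy0] at this
  have hyne : y ≠ 0 := by have := g0.y0; rwa [hy0] at this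
  have hyR : 0 < |(y : ℝ)| := abs_pos.2 (by exact_mod_cast hyne)
  have h1 := card_fib S (fun z : F6 => z.q) (1 + 864 * (G * B ^ 2 / m₀) * (Int.gcd p m₀ : ℕ)) (by
    intro q _
    apply cnt_r hA hB hG m₀ hm₀ hsq hmm p q x y
    intro z hz
    rw [mem_filter] at hz
    obtain ⟨k, e1, e3, e4⟩ := hS z hz.1
    exact ⟨k, e1, hz.2, e3, e4⟩)
  refine h1.trans ?_
  apply mul_le_mul_of_nonneg_left _ (by positivity)
  have hrel : ∀ z ∈ S, ∀ z' ∈ S,
      3 * x ^ 2 * (z.q - z'.q) = -(y * (3 * x * (z.r - z'.r) + y * (z.s - z'.s))) := by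
    intro z hz z' hz'
    obtain ⟨h1, e1, e3, e4⟩ := hS z hz
    obtain ⟨h1', e1', e3', e4'⟩ := hS z' hz'
    have a := h1.eqn
    have b := h1'.eqn
    rw [e1, e3, e4] at a
    rw [e1', e3', e4'] at b
    have h2 : y * (3 * x ^ 2 * (z.q - z'.q) + y * (3 * x * (z.r - z'.r) + y * (z.s - z'.s))) = 0 := by
      linear_combination a - b
    rcases mul_eq_zero.1 h2 with h3 | h3
    · exact absurd h3 hyne
    · linarith
  have hsp := spaced3 (S.image (fun z : F6 => z.q)) y.natAbs (192 * G * A * B * |(y : ℝ)|)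
    (Nat.one_le_iff_ne_zero.2 (Int.natAbs_ne_zero.2 hyne)) (by positivity) (by
      intro a ha b hb
      obtain ⟨z, hz, rfl⟩ := mem_image.1 ha
      obtain ⟨z', hz', rfl⟩ := mem_image.1 hb
      have h1 : y ∣ x ^ 2 * (3 * (z.q - z'.q)) :=
        ⟨-(3 * x * (z.r - z'.r) + y * (z.s - z'.s)), by linear_combination hrel z hz z' hz'⟩
      exact Int.natAbs_dvd.2 (hcop.symm.pow_right.dvd_of_dvd_mul_left h1)) (by
      intro a ha b hb
      obtain ⟨z, hz, rfl⟩ := mem_image.1 ha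
      obtain ⟨z', hz', rfl⟩ := mem_image.1 hb
      obtain ⟨k1, e1, e3, e4⟩ := hS z hz
      obtain ⟨k1', e1', e3', e4'⟩ := hS z' hz'
      rcases le_total (8 * |(y : ℝ)|) A with hc | hc
      · have hxb : B ≤ 8 * |(x : ℝ)| := by
          have := k1.xbig hA (by rw [e4]; exact hc)
          rwa [e3] at this
        have hss := sub_abs_le k1.bs k1'.bs
        have hrr := sub_abs_le k1.br k1'.br
        have hr := hrel z hz z' hz'
        have hrR : 3 * (x : ℝ) ^ 2 * ((z.q : ℝ) - z'.q) =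
            -((y : ℝ) * (3 * x * ((z.r : ℝ) - z'.r) + y * ((z.s : ℝ) - z'.s))) := by
          exact_mod_cast hr
        have h1 : 3 * |(x : ℝ)| ^ 2 * |(z.q : ℝ) - z'.q| ≤
            |(y : ℝ)| * (3 * |(x : ℝ)| * (2 * (9 * G * A * B ^ 2)) +
              |(y : ℝ)| * (2 * (9 * G * B ^ 3))) := by
          have h2 := congrArg abs hrR
          rw [abs_neg, abs_mul, abs_mul, abs_mul, abs_of_pos (by norm_num : (0 : ℝ) < 3),
            abs_pow] at h2
          rw [h2]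
          apply mul_le_mul_of_nonneg_left _ (abs_nonneg _)
          refine (abs_add_le _ _).trans ?_
          rw [abs_mul, abs_mul, abs_mul, abs_of_pos (by norm_num : (0 : ℝ) < 3)]
          gcongr
        have hxpos : 0 < |(x : ℝ)| := by linarith
        have h3 : |(y : ℝ)| * (2 * (9 * G * B ^ 3)) ≤ 18 * G * A * B ^ 2 * |(x : ℝ)| := by
          have : |(y : ℝ)| * B ≤ A / 8 * (8 * |(x : ℝ)|) :=
            mul_le_mul (by linarith) hxb hB.le (by positivity)
          have h4 : 18 * G * B ^ 2 * (|(y : ℝ)| * B) ≤ 18 * G * B ^ 2 * (A / 8 * (8 * |(x : ℝ)|)) := by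
            gcongr
          linarith
        have h5 : 3 * |(x : ℝ)| ^ 2 * |(z.q : ℝ) - z'.q| ≤
            3 * |(x : ℝ)| * (24 * G * A * B ^ 2 * |(y : ℝ)|) := by
          refine h1.trans ?_
          have := mul_le_mul_of_nonneg_left h3 hyR.le
          nlinarith
        have h6 : |(x : ℝ)| * |(z.q : ℝ) - z'.q| ≤ 24 * G * A * B ^ 2 * |(y : ℝ)| := by
          have e : 3 * |(x : ℝ)| ^ 2 * |(z.q : ℝ) - z'.q| =
              3 * |(x : ℝ)| * (|(x : ℝ)| * |(z.q : ℝ) - z'.q|) := by ring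
          rw [e] at h5
          exact le_of_mul_le_mul_left h5 (by positivity)
        have h7 : B * |(z.q : ℝ) - z'.q| ≤ B * (192 * G * A * B * |(y : ℝ)|) := by
          have h8 : B * |(z.q : ℝ) - z'.q| ≤ 8 * |(x : ℝ)| * |(z.q : ℝ) - z'.q| := by gcongr
          nlinarith
        exact le_of_mul_le_mul_left h7 hB
      · have h1 := sub_abs_le k1.bq k1'.bq
        refine h1.trans ?_
        have h2 : G * A * B * A ≤ G * A * B * (8 * |(y : ℝ)|) := by gcongr
        have h3 : 0 ≤ G * A * B * |(y : ℝ)| := by positivity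
        nlinarith)
  refine hsp.trans ?_
  have e1 : ((y.natAbs : ℕ) : ℝ) = |(y : ℝ)| := by
    rw [Nat.cast_natAbs, Int.cast_abs]
  rw [e1]
  have e2 : 3 * (192 * G * A * B * |(y : ℝ)|) / |(y : ℝ)| = 576 * (G * A * B) := by
    field_simp
    ring
  rw [e2]
  linarith

end Run7.h577.S
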