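import Mathlib
import Pool.Agent.Run7.h577.SE

/-!
The number of the representations: the sum over `(x, p, y)`.
-/

set_option autoImplicit false

namespace Run7.h577.S

open Finset

variable {A B G : ℝ} {m m₀ : ℤ}

/-- two values of `x` of the same sign are close if `y` is small -/
theorem x_close (hA : 0 < A) (hB : 0 < B) (hG : 0 < G) {z z' : F6} (h : Good A B G m m₀ z)
    (h' : Good A B G m m₀ z') (hp : z.p = z'.p) (hy : z.y = z'.y) (hc : 8 * |(z.y : ℝ)| ≤ A)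
    (hs : 0 < z.x * z'.x) :
    |(z.x : ℝ) - z'.x| ≤ 1323 * (G * A ^ 2 * B) * |(z.y : ℝ)| / |(z.p : ℝ)| := by
  have hxb := h.xbig hA hc
  have hxb' := h'.xbig hA (by rw [← hy]; exact hc)
  have hp0 : 0 < |(z.p : ℝ)| := abs_pos.2 (by exact_mod_cast h.p0)
  have hy0 : 0 < |(z.y : ℝ)| := abs_pos.2 (by exact_mod_cast h.y0)
  have e := h.eqn
  have e' := h'.eqn
  rw [← hp, ← hy] at e'
  have hxx : ((z.x : ℝ) * z'.x) = |(z.x : ℝ)| * |(z'.x : ℝ)| := by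
    rw [← abs_mul, abs_of_pos]
    exact_mod_cast hs
  have hR : (z.p : ℝ) * ((z.x : ℝ) - z'.x) * ((z.x : ℝ) ^ 2 + z.x * z'.x + (z'.x : ℝ) ^ 2) =
      -((z.y : ℝ) * (3 * ((z.q : ℝ) * (z.x : ℝ) ^ 2 - z'.q * (z'.x : ℝ) ^ 2) +
        3 * (z.y : ℝ) * ((z.r : ℝ) * z.x - z'.r * z'.x) +
        (z.y : ℝ) ^ 2 * ((z.s : ℝ) - z'.s))) := by
    have e1 : (z.p : ℝ) * (z.x : ℝ) ^ 3 + 3 * z.q * (z.x : ℝ) ^ 2 * z.y + 3 * z.r * z.x * (z.y : ℝ) ^ 2 +
      z.s * (z.y : ℝ) ^ 3 = m := by exact_mod_cast e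
    have e2 : (z.p : ℝ) * (z'.x : ℝ) ^ 3 + 3 * z'.q * (z'.x : ℝ) ^ 2 * z.y +
      3 * z'.r * z'.x * (z.y : ℝ) ^ 2 + z'.s * (z.y : ℝ) ^ 3 = m := by exact_mod_cast e'
    linear_combination e1 - e2
  set X := |(z.x : ℝ)| with hX
  set X' := |(z'.x : ℝ)| with hX'
  have hsq : (z.x : ℝ) ^ 2 + z.x * z'.x + (z'.x : ℝ) ^ 2 = X ^ 2 + X * X' + X' ^ 2 := by
    rw [hxx, hX, hX', sq_abs, sq_abs]
  have hlow : 3 * B ^ 2 ≤ 64 * (X ^ 2 + X * X' + X' ^ 2) := by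
    have h1 : B ^ 2 ≤ 64 * X ^ 2 := by nlinarith
    have h2 : B ^ 2 ≤ 64 * X' ^ 2 := by nlinarith
    have h3 : B * B ≤ (8 * X) * (8 * X') := mul_le_mul hxb hxb' hB.le (by positivity)
    nlinarith
  have hup : |(z.p : ℝ)| * |(z.x : ℝ) - z'.x| * (X ^ 2 + X * X' + X' ^ 2) ≤
      62 * |(z.y : ℝ)| * (G * A ^ 2 * B ^ 3) := by
    have h1 := congrArg abs hR
    rw [abs_neg, abs_mul, abs_mul, hsq, abs_of_nonneg (by positivity : 0 ≤ X ^ 2 + X * X' + X' ^ 2),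
      abs_mul] at h1
    rw [h1]
    have q1 : |(z.q : ℝ) * (z.x : ℝ) ^ 2 - z'.q * (z'.x : ℝ) ^ 2| ≤ 2 * (9 * G * A ^ 2 * B * B ^ 2) := by
      apply sub_abs_le
      · rw [abs_mul, abs_pow]
        have := h.hx
        have := h.bq
        gcongr
      · rw [abs_mul, abs_pow]
        have := h'.hx
        have := h'.bq
        gcongr
    have r1 : |(z.r : ℝ) * z.x - z'.r * z'.x| ≤ 2 * (9 * G * A * B ^ 2 * B) := by
      apply sub_abs_le
      · rw [abs_mul]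
        have := h.hx
        have := h.br
        gcongr
      · rw [abs_mul]
        have := h'.hx
        have := h'.br
        gcongr
    have s1 : |(z.s : ℝ) - z'.s| ≤ 2 * (9 * G * B ^ 3) := sub_abs_le h.bs h'.bs
    have hy8 : |(z.y : ℝ)| ≤ A / 8 := by linarith
    have t1 : |3 * ((z.q : ℝ) * (z.x : ℝ) ^ 2 - z'.q * (z'.x : ℝ) ^ 2)| ≤ 54 * (G * A ^ 2 * B ^ 3) := by
      rw [abs_mul, abs_of_pos (by norm_num : (0 : ℝ) < 3)]
      calc 3 * |(z.q : ℝ) * (z.x : ℝ) ^ 2 - z'.q * (z'.x : ℝ) ^ 2| ≤ 3 * (2 * (9 * G * A ^ 2 * B * B ^ 2)) := by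
            gcongr
        _ = _ := by ring
    have t2 : |3 * (z.y : ℝ) * ((z.r : ℝ) * z.x - z'.r * z'.x)| ≤ 54 / 8 * (G * A ^ 2 * B ^ 3) := by
      rw [abs_mul, abs_mul, abs_of_pos (by norm_num : (0 : ℝ) < 3)]
      calc 3 * |(z.y : ℝ)| * |(z.r : ℝ) * z.x - z'.r * z'.x| ≤
            3 * (A / 8) * (2 * (9 * G * A * B ^ 2 * B)) := by gcongr
        _ = _ := by ring
    have t3 : |(z.y : ℝ) ^ 2 * ((z.s : ℝ) - z'.s)| ≤ 18 / 64 * (G * A ^ 2 * B ^ 3) := by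
      rw [abs_mul, abs_pow]
      calc |(z.y : ℝ)| ^ 2 * |(z.s : ℝ) - z'.s| ≤ (A / 8) ^ 2 * (2 * (9 * G * B ^ 3)) := by gcongr
        _ = _ := by ring
    have h0 : 0 ≤ G * A ^ 2 * B ^ 3 := by positivity
    have t4 : |3 * ((z.q : ℝ) * (z.x : ℝ) ^ 2 - z'.q * (z'.x : ℝ) ^ 2) +
        3 * (z.y : ℝ) * ((z.r : ℝ) * z.x - z'.r * z'.x) + (z.y : ℝ) ^ 2 * ((z.s : ℝ) - z'.s)| ≤
        62 * (G * A ^ 2 * B ^ 3) := by
      have a1 := abs_add_le (3 * ((z.q : ℝ) * (z.x : ℝ) ^ 2 - z'.q * (z'.x : ℝ) ^ 2) +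
        3 * (z.y : ℝ) * ((z.r : ℝ) * z.x - z'.r * z'.x)) ((z.y : ℝ) ^ 2 * ((z.s : ℝ) - z'.s))
      have a2 := abs_add_le (3 * ((z.q : ℝ) * (z.x : ℝ) ^ 2 - z'.q * (z'.x : ℝ) ^ 2))
        (3 * (z.y : ℝ) * ((z.r : ℝ) * z.x - z'.r * z'.x))
      linarith
    calc |(z.y : ℝ)| * _ ≤ |(z.y : ℝ)| * (62 * (G * A ^ 2 * B ^ 3)) := by gcongr
      _ = _ := by ring
  rw [le_div_iff₀ hp0]
  have h2 : |(z.p : ℝ)| * |(z.x : ℝ) - z'.x| * (3 * B ^ 2) ≤
      64 * (62 * |(z.y : ℝ)| * (G * A ^ 2 * B ^ 3)) := by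
    calc |(z.p : ℝ)| * |(z.x : ℝ) - z'.x| * (3 * B ^ 2) ≤
          |(z.p : ℝ)| * |(z.x : ℝ) - z'.x| * (64 * (X ^ 2 + X * X' + X' ^ 2)) := by gcongr
      _ = 64 * (|(z.p : ℝ)| * |(z.x : ℝ) - z'.x| * (X ^ 2 + X * X' + X' ^ 2)) := by ring
      _ ≤ _ := by gcongr
  have h3 : B ^ 2 * (3 * (|(z.x : ℝ) - z'.x| * |(z.p : ℝ)|)) ≤
      B ^ 2 * (3968 * (G * A ^ 2 * B) * |(z.y : ℝ)|) := by
    calc B ^ 2 * (3 * (|(z.x : ℝ) - z'.x| * |(z.p : ℝ)|)) =
        |(z.p : ℝ)| * |(z.x : ℝ) - z'.x| * (3 * B ^ 2) := by ring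
      _ ≤ _ := h2
      _ = _ := by ring
  have h4 := le_of_mul_le_mul_left h3 (by positivity)
  have h5 : 0 ≤ (G * A ^ 2 * B) * |(z.y : ℝ)| := by positivity
  nlinarith

/-- the number of `(x, q, r)` for given `(p, y)` -/
theorem cnt_x (ε : ℝ) (hε : 0 < ε) : ∃ C : ℝ, 0 < C ∧ ∀ (A B G : ℝ) (m : ℤ) (m₀ : ℕ), 0 < A →
    0 < B → 0 < G → 1 ≤ m₀ → Squarefree m₀ → (m₀ : ℤ) ∣ m → ∀ (p y : ℤ) (S : Finset F6),
    (∀ z ∈ S, Good A B G m m₀ z ∧ z.p = p ∧ z.y = y) →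
    (S.card : ℝ) ≤ C * (1 + G * A * B) * (|(y : ℝ)| ^ ε * (Int.gcd p y : ℕ) *
      (1 + (G * A ^ 2 * B) / |(p : ℝ)|) * (1 + (G * B ^ 2 / m₀) * (Int.gcd p m₀ : ℕ))) := by
  classical
  obtain ⟨C, hC, hcube⟩ := cube_count ε hε
  refine ⟨864 * 576 * (2646 * C), by positivity,
    fun A B G m m₀ hA hB hG hm₀ hsq hmm p y S hS => ?_⟩
  rcases S.eq_empty_or_nonempty with h | ⟨z₀, hz₀⟩
  · rw [h, card_empty, Nat.cast_zero]; positivity
  obtain ⟨g0, hp0, hy0⟩ := hS z₀ hz₀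
  have hyne : y ≠ 0 := by have := g0.y0; rwa [hy0] at this
  have hpne : p ≠ 0 := by have := g0.p0; rwa [hp0] at this
  have hyR : 0 < |(y : ℝ)| := abs_pos.2 (by exact_mod_cast hyne)
  have hpR : 0 < |(p : ℝ)| := abs_pos.2 (by exact_mod_cast hpne)
  have hpA : |(p : ℝ)| ≤ 9 * G * A ^ 3 := by have := g0.bp; rwa [hp0] at this
  set K : ℝ := (1 + 864 * (G * B ^ 2 / m₀) * (Int.gcd p m₀ : ℕ)) * (1 + 576 * (G * A * B)) with hK
  have hK0 : 0 ≤ K := by positivity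
  have h1 := card_fib S (fun z : F6 => z.x) K (by
    intro x _
    apply cnt_q hA hB hG m₀ hm₀ hsq hmm p x y
    intro z hz
    rw [mem_filter] at hz
    obtain ⟨k, e1, e4⟩ := hS z hz.1
    exact ⟨k, e1, hz.2, e4⟩)
  -- the number of `x`
  have hgood : ∀ z ∈ S, y ∣ p * z.x ^ 3 - m ∧ IsCoprime z.x y := by
    intro z hz
    obtain ⟨k, e1, e4⟩ := hS z hz
    have a := k.eqn
    have b := k.cop
    rw [e1, e4] at a
    rw [e4] at b
    exact ⟨⟨-(3 * z.q * z.x ^ 2 + 3 * z.r * z.x * y + z.s * y ^ 2), by linear_combination a⟩, b⟩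
  have hx : ((S.image (fun z : F6 => z.x)).card : ℝ) ≤
      2646 * C * (|(y : ℝ)| ^ ε * (Int.gcd p y : ℕ) * (1 + (G * A ^ 2 * B) / |(p : ℝ)|)) := by
    rcases le_total (8 * |(y : ℝ)|) A with hc | hc
    · -- two signs
      set S₁ := S.filter (fun z : F6 => 0 < z.x) with hS₁
      set S₂ := S.filter (fun z : F6 => z.x < 0) with hS₂
      have hcov : S.image (fun z : F6 => z.x) ⊆
          S₁.image (fun z : F6 => z.x) ∪ S₂.image (fun z : F6 => z.x) := by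
        intro x hx
        obtain ⟨z, hz, rfl⟩ := mem_image.1 hx
        obtain ⟨k, e1, e4⟩ := hS z hz
        have hb := k.xbig hA (by rw [e4]; exact hc)
        have hx0 : z.x ≠ 0 := by
          intro h0
          rw [h0, Int.cast_zero, abs_zero, mul_zero] at hb
          linarith
        rw [mem_union, mem_image, mem_image]
        rcases lt_or_gt_of_ne hx0 with h | h
        · exact Or.inr ⟨z, mem_filter.2 ⟨hz, h⟩, rfl⟩
        · exact Or.inl ⟨z, mem_filter.2 ⟨hz, h⟩, rfl⟩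
      set L : ℝ := 1323 * (G * A ^ 2 * B) * |(y : ℝ)| / |(p : ℝ)| with hL
      have hL0 : 0 ≤ L := by positivity
      have hb : ∀ T : Finset F6, T ⊆ S → (∀ z ∈ T, ∀ z' ∈ T, 0 < z.x * z'.x) →
          ((T.image (fun z : F6 => z.x)).card : ℝ) ≤
            C * |(y : ℝ)| ^ ε * (Int.gcd p y) * (L / |(y : ℝ)| + 1) := by
        intro T hT hsign
        apply hcube y p m L _ hyne hL0
        · intro x hx
          obtain ⟨z, hz, rfl⟩ := mem_image.1 hx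
          exact hgood z (hT hz)
        · intro a ha b hb
          obtain ⟨z, hz, rfl⟩ := mem_image.1 ha
          obtain ⟨z', hz', rfl⟩ := mem_image.1 hb
          obtain ⟨k, e1, e4⟩ := hS z (hT hz)
          obtain ⟨k', e1', e4'⟩ := hS z' (hT hz')
          have := x_close hA hB hG k k' (by rw [e1, e1']) (by rw [e4, e4']) (by rw [e4]; exact hc)
            (hsign z hz z' hz')
          rw [e1, e4] at this
          exact this
      have b1 := hb S₁ (filter_subset _ _) (by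
        intro z hz z' hz'
        exact mul_pos (mem_filter.1 hz).2 (mem_filter.1 hz').2)
      have b2 := hb S₂ (filter_subset _ _) (by
        intro z hz z' hz'
        exact mul_pos_of_neg_of_neg (mem_filter.1 hz).2 (mem_filter.1 hz').2)
      have hcard := (card_le_card hcov).trans (card_union_le _ _)
      have hcardR : ((S.image (fun z : F6 => z.x)).card : ℝ) ≤
          ((S₁.image (fun z : F6 => z.x)).card : ℝ) + ((S₂.image (fun z : F6 => z.x)).card : ℝ) := by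
        exact_mod_cast hcard
      have e : L / |(y : ℝ)| = 1323 * ((G * A ^ 2 * B) / |(p : ℝ)|) := by
        rw [hL]; field_simp
      rw [e] at b1 b2
      have h0 : 0 ≤ C * |(y : ℝ)| ^ ε * (Int.gcd p y : ℕ) := by positivity
      have h2 : 0 ≤ (G * A ^ 2 * B) / |(p : ℝ)| := by positivity
      calc ((S.image (fun z : F6 => z.x)).card : ℝ) ≤
            2 * (C * |(y : ℝ)| ^ ε * (Int.gcd p y) * (1323 * ((G * A ^ 2 * B) / |(p : ℝ)|) + 1)) := by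
              linarith
        _ ≤ 2 * (C * |(y : ℝ)| ^ ε * (Int.gcd p y) * (1323 * (1 + (G * A ^ 2 * B) / |(p : ℝ)|))) := by
              gcongr
              linarith
        _ = _ := by ring
    · have hb := hcube y p m (2 * B) (S.image (fun z : F6 => z.x)) hyne (by positivity) (by
        intro x hx
        obtain ⟨z, hz, rfl⟩ := mem_image.1 hx
        exact hgood z hz) (by
        intro a ha b hb
        obtain ⟨z, hz, rfl⟩ := mem_image.1 ha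
        obtain ⟨z', hz', rfl⟩ := mem_image.1 hb
        exact sub_abs_le (hS z hz).1.hx (hS z' hz').1.hx)
      refine hb.trans ?_
      have e : 2 * B / |(y : ℝ)| ≤ 144 * ((G * A ^ 2 * B) / |(p : ℝ)|) := by
        rw [div_le_iff₀ hyR]
        have e2 : 144 * ((G * A ^ 2 * B) / |(p : ℝ)|) * |(y : ℝ)| =
            144 * (G * A ^ 2 * B) * |(y : ℝ)| / |(p : ℝ)| := by ring
        rw [e2, le_div_iff₀ hpR]
        calc 2 * B * |(p : ℝ)| ≤ 2 * B * (9 * G * A ^ 3) := by gcongr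
          _ = 18 * (G * A ^ 2 * B) * A := by ring
          _ ≤ 18 * (G * A ^ 2 * B) * (8 * |(y : ℝ)|) := by gcongr
          _ = _ := by ring
      have h0 : 0 ≤ C * |(y : ℝ)| ^ ε * (Int.gcd p y : ℕ) := by positivity
      have h2 : 0 ≤ (G * A ^ 2 * B) / |(p : ℝ)| := by positivity
      calc C * |(y : ℝ)| ^ ε * (Int.gcd p y) * (2 * B / |(y : ℝ)| + 1) ≤
            C * |(y : ℝ)| ^ ε * (Int.gcd p y) * (2646 * (1 + (G * A ^ 2 * B) / |(p : ℝ)|)) := by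
              gcongr
              linarith
        _ = _ := by ring
  have hKb : K ≤ 864 * 576 * ((1 + G * A * B) * (1 + (G * B ^ 2 / m₀) * (Int.gcd p m₀ : ℕ))) := by
    have h2 : 0 ≤ (G * B ^ 2 / m₀) * (Int.gcd p m₀ : ℕ) := by positivity
    have h3 : 0 ≤ G * A * B := by positivity
    calc K ≤ (864 * (1 + (G * B ^ 2 / m₀) * (Int.gcd p m₀ : ℕ))) * (576 * (1 + G * A * B)) := by
          rw [hK]
          gcongr
          · nlinarith
          · nlinarith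
      _ = _ := by ring
  calc (S.card : ℝ) ≤ K * ((S.image (fun z : F6 => z.x)).card : ℝ) := h1
    _ ≤ (864 * 576 * ((1 + G * A * B) * (1 + (G * B ^ 2 / m₀) * (Int.gcd p m₀ : ℕ)))) *
        (2646 * C * (|(y : ℝ)| ^ ε * (Int.gcd p y : ℕ) * (1 + (G * A ^ 2 * B) / |(p : ℝ)|))) := by
        apply mul_le_mul hKb hx (Nat.cast_nonneg _) (by positivity)
    _ = _ := by ring

/-- MAIN COUNT -/
theorem main_count (ε : ℝ) (hε : 0 < ε) : ∃ C : ℝ, 0 < C ∧ ∀ (A B G Z : ℝ) (m : ℤ) (m₀ : ℕ),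
    0 < A → A ≤ 2 * B → 0 < G → 1 ≤ Z → A ≤ Z → 9 * G * A ^ 3 ≤ Z → (m₀ : ℝ) ≤ Z →
    1 ≤ m₀ → Squarefree m₀ → (m₀ : ℤ) ∣ m → ∀ S : Finset F6, (∀ z ∈ S, Good A B G m m₀ z) →
    (S.card : ℝ) ≤ C * Z ^ ε * (G * A ^ 3 * B * (1 + G * A * B) * (1 + G * B ^ 2 / m₀)) := by
  classical
  set ε' := ε / 5 with hε'
  have hε'0 : 0 < ε' := by positivity
  obtain ⟨C₁, hC₁, hcx⟩ := cnt_x ε' hε'0
  obtain ⟨C₂, hC₂, hps⟩ := pair_sum ε' hε'0
  refine ⟨4 * C₁ * C₂ * 19, by positivity,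
    fun A B G Z m m₀ hA hAB hG hZ hAZ hPZ hmZ hm₀ hsq hmm S hS => ?_⟩
  have hB : 0 < B := by linarith
  have hmR : (0 : ℝ) < m₀ := by exact_mod_cast hm₀
  set Y : ℕ := ⌊A⌋₊ with hY
  set P : ℕ := ⌊9 * G * A ^ 3⌋₊ with hP
  set H : ℝ := G * A ^ 2 * B with hH
  set ρ : ℝ := G * B ^ 2 / m₀ with hρ
  have hH0 : 0 ≤ H := by positivity
  have hρ0 : 0 ≤ ρ := by positivity
  have hYA : (Y : ℝ) ≤ A := Nat.floor_le hA.le
  have hPA : (P : ℝ) ≤ 9 * G * A ^ 3 := Nat.floor_le (by positivity)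
  have h1 := card_fib_sum S (fun z : F6 => (z.y.natAbs, z.p.natAbs)) (Icc 1 Y ×ˢ Icc 1 P)
    (fun b => 4 * (C₁ * (1 + G * A * B) * ((b.1 : ℝ) ^ ε' * (Nat.gcd b.2 b.1 : ℕ) *
      (1 + H / b.2) * (1 + ρ * (Nat.gcd b.2 m₀ : ℕ))))) (by
    intro z hz
    have h := hS z hz
    rw [mem_product, mem_Icc, mem_Icc]
    refine ⟨⟨Nat.one_le_iff_ne_zero.2 (Int.natAbs_ne_zero.2 h.y0), ?_⟩,
      ⟨Nat.one_le_iff_ne_zero.2 (Int.natAbs_ne_zero.2 h.p0), ?_⟩⟩
    · apply Nat.le_floor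
      rw [Nat.cast_natAbs, Int.cast_abs]
      exact h.hy
    · apply Nat.le_floor
      rw [Nat.cast_natAbs, Int.cast_abs]
      exact h.bp) (by
    rintro ⟨n, k⟩ -
    simp only
    set T := S.filter (fun z : F6 => (z.y.natAbs, z.p.natAbs) = (n, k)) with hT
    have h2 := card_fib T (fun z : F6 => (z.y, z.p)) (C₁ * (1 + G * A * B) * ((n : ℝ) ^ ε' *
      (Nat.gcd k n : ℕ) * (1 + H / k) * (1 + ρ * (Nat.gcd k m₀ : ℕ)))) (by
      rintro ⟨y, p⟩ hb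
      obtain ⟨z₀, hz₀, e⟩ := mem_image.1 hb
      have hz₀' := (mem_filter.1 hz₀).2
      simp only [Prod.mk.injEq] at e hz₀'
      have hn : y.natAbs = n := by rw [← e.1]; exact hz₀'.1
      have hk : p.natAbs = k := by rw [← e.2]; exact hz₀'.2
      have h3 := hcx A B G m m₀ hA hB hG hm₀ hsq hmm p y
        (T.filter (fun z : F6 => (z.y, z.p) = (y, p))) (by
          intro z hz
          rw [mem_filter] at hz
          have hz2 := hz.2
          simp only [Prod.mk.injEq] at hz2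
          exact ⟨hS z (mem_filter.1 hz.1).1, hz2.2, hz2.1⟩)
      have a1 : |(y : ℝ)| = (n : ℝ) := by rw [← hn, Nat.cast_natAbs, Int.cast_abs]
      have a2 : |(p : ℝ)| = (k : ℝ) := by rw [← hk, Nat.cast_natAbs, Int.cast_abs]
      have a3 : Int.gcd p y = Nat.gcd k n := by rw [Int.gcd, hn, hk]
      have a4 : Int.gcd p m₀ = Nat.gcd k m₀ := by rw [Int.gcd, hk, Int.natAbs_natCast]
      rw [a1, a2, a3, a4] at h3
      exact h3)
    refine h2.trans ?_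
    rw [mul_comm]
    apply mul_le_mul_of_nonneg_right _ (by positivity)
    have h4 : T.image (fun z : F6 => (z.y, z.p)) ⊆
        (({(n : ℤ), -(n : ℤ)} : Finset ℤ) ×ˢ ({(k : ℤ), -(k : ℤ)} : Finset ℤ)) := by
      intro b hb
      obtain ⟨z, hz, rfl⟩ := mem_image.1 hb
      have hz' := (mem_filter.1 hz).2
      simp only [Prod.mk.injEq] at hz'
      rw [mem_product, mem_insert, mem_singleton, mem_insert, mem_singleton]
      constructor
      · have := Int.natAbs_eq z.y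
        rw [hz'.1] at this
        exact this
      · have := Int.natAbs_eq z.p
        rw [hz'.2] at this
        exact this
    have h5 := card_le_card h4
    rw [card_product] at h5
    have h6 : (({(n : ℤ), -(n : ℤ)} : Finset ℤ)).card ≤ 2 := card_le_two
    have h7 : (({(k : ℤ), -(k : ℤ)} : Finset ℤ)).card ≤ 2 := card_le_two
    have h8 : (T.image (fun z : F6 => (z.y, z.p))).card ≤ 4 := h5.trans (Nat.mul_le_mul h6 h7)
    exact_mod_cast h8)
  refine h1.trans ?_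
  rw [← mul_sum, ← mul_sum, sum_product]
  have h9 := hps Y P m₀ H ρ Z hm₀ hH0 hρ0 hZ (hYA.trans hAZ) (hPA.trans hPZ) hmZ
  have h10 : (Y : ℝ) * (1 + ρ) * (P + H) ≤ A * (1 + ρ) * (19 * H) := by
    have h11 : (P : ℝ) + H ≤ 19 * H := by
      have : 9 * G * A ^ 3 ≤ 18 * H := by
        rw [hH]
        have : 9 * G * A ^ 2 * A ≤ 9 * G * A ^ 2 * (2 * B) := by gcongr
        linarith
      linarith
    gcongr
  have e5 : Z ^ (5 * ε') = Z ^ ε := by
    congr 1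
    rw [hε']; ring
  rw [e5] at h9
  calc 4 * (C₁ * (1 + G * A * B) * ∑ y ∈ Icc 1 Y, ∑ k ∈ Icc 1 P, (y : ℝ) ^ ε' * (Nat.gcd k y : ℕ) *
        (1 + H / k) * (1 + ρ * (Nat.gcd k m₀ : ℕ)))
      ≤ 4 * (C₁ * (1 + G * A * B) * (C₂ * Z ^ ε * (A * (1 + ρ) * (19 * H)))) := by
        have h12 : 0 ≤ C₂ * Z ^ ε := by positivity
        have h13 := h9.trans (mul_le_mul_of_nonneg_left h10 h12)
        have h14 : 0 ≤ C₁ * (1 + G * A * B) := by positivity
        have := mul_le_mul_of_nonneg_left h13 h14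
        linarith
    _ = _ := by rw [hH]; ring

end Run7.h577.S
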