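import Mathlib
import Pool.Agent.Run7.h577.SB
import Pool.Agent.Run7.h577.SF

/-!
The number of the pairs `(c, d)` with `m ∣ t² - c`, `m² ∣ t³ - 3ct + 2d`.
-/

set_option autoImplicit false

namespace Run7.h577.S

open Finset

instance : Inhabited F6 := ⟨⟨0, 0, 0, 0, 0, 0⟩⟩

/-- the properties of a pair `(c, d)` with the modulus `(m, m₀)` -/
def Has (X δ : ℝ) (m m₀ c d : ℤ) : Prop :=
  (∃ τ : ℝ, Reg X δ c d τ) ∧
  (∃ t C E : ℤ, m * C = t ^ 2 - c ∧ m ^ 2 * E = t ^ 3 - 3 * c * t + 2 * d ∧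
    m₀ ∣ 3 * C ^ 2 - 4 * t * E) ∧
  (∀ w v : ℤ, ¬ (w = 0 ∧ v = 0) → w ^ 3 - 3 * c * w * v ^ 2 + 2 * d * v ^ 3 ≠ 0)

/-- the dyadic data -/
theorem dyadic {X δ : ℝ} {m m₀ c d : ℤ} (hδ : 0 < δ) (hδX : δ ≤ X) (hm : 2 * δ < m)
    (hm₀ : m₀ ∣ m) (h : Has X δ m m₀ c d) :
    ∃ (j : ℕ) (z : F6) (a₁ a₂ : ℝ), Tup X δ m m₀ c d z.p z.q z.r z.s z.x z.y a₁ a₂ ∧
      a₁ ≤ 2 ^ j ∧ (2 : ℝ) ^ j ≤ 2 * a₁ := by
  obtain ⟨⟨τ, hτ⟩, ⟨t, C, E, h1, h2, h3⟩, irr⟩ := h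
  obtain ⟨p, q, r, s, x, y, a₁, a₂, ht⟩ := tuple X δ τ m m₀ c d t C E hδ hδX hm hτ h1 h2 irr hm₀ h3
  have ha1 : 1 ≤ a₁ := by
    have h4 : (1 : ℝ) ≤ |(y : ℝ)| := by
      have := Int.one_le_abs ht.y0
      exact_mod_cast this
    exact h4.trans ht.hy
  -- the least `j`
  have hex : ∃ j : ℕ, a₁ ≤ 2 ^ j := pow_unbounded_of_one_lt' a₁
  classical
  refine ⟨Nat.find hex, ⟨p, q, r, s, x, y⟩, a₁, a₂, ht, Nat.find_spec hex, ?_⟩
  rcases Nat.eq_zero_or_pos (Nat.find hex) with h0 | h0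
  · rw [h0, pow_zero]; linarith
  · have h5 := Nat.find_min hex (m := Nat.find hex - 1) (by omega)
    push Not at h5
    have e : (2 : ℝ) ^ (Nat.find hex) = 2 * 2 ^ (Nat.find hex - 1) := by
      rw [← pow_succ']
      congr 1
      omega
    rw [e]
    linarith
where
  pow_unbounded_of_one_lt' (a : ℝ) : ∃ j : ℕ, a ≤ 2 ^ j := by
    obtain ⟨n, hn⟩ := pow_unbounded_of_one_lt a (by norm_num : (1 : ℝ) < 2)
    exact ⟨n, hn.le⟩

/-- from `Tup` to `Good` -/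
theorem good_of_tup {X δ : ℝ} {m m₀ c d : ℤ} {z : F6} {a₁ a₂ A : ℝ} (hδ : 0 < δ) (hX : 0 < X)
    (hm : 0 < (m : ℝ)) (h : Tup X δ m m₀ c d z.p z.q z.r z.s z.x z.y a₁ a₂) (hA1 : a₁ ≤ A)
    (hA2 : A ≤ 2 * a₁) :
    Good A (4 * m / (δ * A)) (δ ^ 2 * X / (m : ℝ) ^ 2) m m₀ z ∧ A ≤ 2 * (4 * m / (δ * A)) ∧ 1 ≤ A := by
  have ha1 := h.a1
  have hA : 0 < A := ha1.trans_le hA1
  have ha12 := h.a12
  have ha2 : 0 < a₂ := ha1.trans_le ha12
  have hB : a₂ ≤ 4 * m / (δ * A) := by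
    rw [le_div_iff₀ (by positivity)]
    have h1 := h.prod
    calc a₂ * (δ * A) ≤ a₂ * (δ * (2 * a₁)) := by gcongr
      _ = 2 * (δ * (a₁ * a₂)) := by ring
      _ ≤ 2 * (2 * m) := by gcongr
      _ = _ := by ring
  have hm2 : (0 : ℝ) < (m : ℝ) ^ 2 := by positivity
  have hAB : A * (4 * m / (δ * A)) = 4 * m / δ := by field_simp
  have key : ∀ (z : ℤ) (u v : ℝ), (m : ℝ) ^ 2 * |(z : ℝ)| ≤ 9 * δ ^ 2 * X * u → u ≤ v →
      |(z : ℝ)| ≤ 9 * (δ ^ 2 * X / (m : ℝ) ^ 2) * v := by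
    intro z u v h1 h2
    have h3 : (m : ℝ) ^ 2 * |(z : ℝ)| ≤ 9 * δ ^ 2 * X * v := h1.trans (by gcongr)
    have e : 9 * (δ ^ 2 * X / (m : ℝ) ^ 2) * v = (9 * δ ^ 2 * X * v) / (m : ℝ) ^ 2 := by ring
    rw [e, le_div_iff₀ hm2]
    linarith
  set B := 4 * (m : ℝ) / (δ * A) with hBdef
  have hB0 : 0 < B := ha2.trans_le hB
  refine ⟨?_, by linarith, ?_⟩
  · constructor
    · exact h.eqn
    · exact h.cop
    · exact h.p0
    · exact h.y0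
    · exact h.hy.trans hA1
    · exact h.hx.trans hB
    · rw [hAB, div_le_iff₀ hδ]
      have h1 := h.big
      have h2 : a₁ * |(z.x : ℝ)| + a₂ * |(z.y : ℝ)| ≤ A * |(z.x : ℝ)| + B * |(z.y : ℝ)| := by gcongr
      have h3 := mul_le_mul_of_nonneg_left h2 hδ.le
      linarith
    · have := key z.p (a₁ * a₁ * a₁) (A ^ 3) h.bp (by
        have : a₁ * a₁ * a₁ = a₁ ^ 3 := by ring
        rw [this]; gcongr)
      linarith
    · have := key z.q (a₁ * a₁ * a₂) (A ^ 2 * B) h.bq (by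
        have : a₁ * a₁ * a₂ = a₁ ^ 2 * a₂ := by ring
        rw [this]; gcongr)
      linarith
    · have := key z.r (a₁ * a₂ * a₂) (A * B ^ 2) h.br (by
        have : a₁ * a₂ * a₂ = a₁ * a₂ ^ 2 := by ring
        rw [this]; gcongr)
      linarith
    · have := key z.s (a₂ * a₂ * a₂) (B ^ 3) h.bs (by
        have : a₂ * a₂ * a₂ = a₂ ^ 3 := by ring
        rw [this]; gcongr)
      linarith
    · exact h.con
  · have h4 : (1 : ℝ) ≤ |(z.y : ℝ)| := by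
      have := Int.one_le_abs h.y0
      exact_mod_cast this
    exact (h4.trans h.hy).trans hA1

/-- the pair is determined by the form and the point -/
theorem tup_inj {X δ : ℝ} {m m' m₀ m₀' c d c' d' : ℤ} {z : F6} {a₁ a₂ a₁' a₂' : ℝ}
    (h : Tup X δ m m₀ c d z.p z.q z.r z.s z.x z.y a₁ a₂)
    (h' : Tup X δ m' m₀' c' d' z.p z.q z.r z.s z.x z.y a₁' a₂') : c = c' ∧ d = d' := by
  have e1 : c = c' := by rw [h.rc, h'.rc]
  subst e1
  have e2 : m = m' := by rw [← h.eqn, ← h'.eqn]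
  subst e2
  refine ⟨rfl, ?_⟩
  have e3 := h.rd
  rw [h'.rd] at e3
  have e4 : 2 * z.y ^ 3 * (d - d') = 0 := by linear_combination e3
  have hy := h.y0
  rcases mul_eq_zero.1 e4 with h5 | h5
  · exact absurd h5 (mul_ne_zero (by norm_num) (pow_ne_zero 3 hy))
  · linarith

theorem dyadic_range {X δ : ℝ} {m : ℤ} {a₁ a₂ : ℝ} {j : ℕ} (hX : 1 ≤ X) (hδ : 0 < δ)
    (hδ1 : 1 ≤ δ * X ^ 2) (hmX : (m : ℝ) ≤ 50 * X ^ 3) (ha1 : 0 < a₁) (ha12 : a₁ ≤ a₂)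
    (hprod : δ * (a₁ * a₂) ≤ 2 * m) (hj : (2 : ℝ) ^ j ≤ 2 * a₁) :
    ((2 : ℝ) ^ j) ^ 2 ≤ 8 * m / δ ∧ (2 : ℝ) ^ j ≤ 20 * X ^ 3 := by
  have h1 : ((2 : ℝ) ^ j) ^ 2 ≤ 8 * m / δ := by
    rw [le_div_iff₀ hδ]
    have h2 : ((2 : ℝ) ^ j) ^ 2 ≤ (2 * a₁) ^ 2 := by gcongr
    have h3 : a₁ * a₁ ≤ a₁ * a₂ := by gcongr
    nlinarith
  refine ⟨h1, ?_⟩
  have hX0 : 0 < X := by linarith
  have h4 : 8 * m / δ ≤ 400 * X ^ 5 := by
    rw [div_le_iff₀ hδ]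
    calc 8 * (m : ℝ) ≤ 8 * (50 * X ^ 3) := by gcongr
      _ = 400 * X ^ 3 * 1 := by ring
      _ ≤ 400 * X ^ 3 * (δ * X ^ 2) := by gcongr
      _ = _ := by ring
  have h5 : ((2 : ℝ) ^ j) ^ 2 ≤ (20 * X ^ 3) ^ 2 := by
    calc ((2 : ℝ) ^ j) ^ 2 ≤ 400 * X ^ 5 := h1.trans h4
      _ ≤ 400 * X ^ 6 := by
        have : X ^ 5 ≤ X ^ 6 := pow_le_pow_right₀ hX (by norm_num)
        linarith
      _ = _ := by ring
  exact le_of_sq_le_sq h5 (by positivity)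
where
  le_of_sq_le_sq {a b : ℝ} (h : a ^ 2 ≤ b ^ 2) (hb : 0 ≤ b) : a ≤ b := by
    by_contra hc
    push Not at hc
    nlinarith

theorem two_pow_log (ε : ℝ) (hε : 0 < ε) : ∃ C : ℝ, 0 < C ∧ ∀ (Z : ℝ) (j : ℕ), 1 ≤ Z →
    (2 : ℝ) ^ j ≤ Z → (j : ℝ) + 1 ≤ C * Z ^ ε := by
  refine ⟨1 + 1 / (ε * Real.log 2), by positivity, fun Z j hZ hj => ?_⟩
  have hl2 : 0 < Real.log 2 := Real.log_pos (by norm_num)
  have h1 : (j : ℝ) * Real.log 2 ≤ Real.log Z := by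
    rw [← Real.log_pow]
    exact Real.log_le_log (by positivity) hj
  have h2 := Real.log_le_rpow_div (by linarith : 0 ≤ Z) hε
  have h3 : (j : ℝ) ≤ Z ^ ε / ε / Real.log 2 := by
    rw [le_div_iff₀ hl2]
    linarith
  have h4 : (1 : ℝ) ≤ Z ^ ε := Real.one_le_rpow hZ hε.le
  have e : (1 + 1 / (ε * Real.log 2)) * Z ^ ε = Z ^ ε + Z ^ ε / ε / Real.log 2 := by
    field_simp
  rw [e]
  linarith

/-- COUNT for given `m` -/
theorem cnt_m (ε : ℝ) (hε : 0 < ε) : ∃ C : ℝ, 0 < C ∧ ∀ (X δ : ℝ) (m m₀ : ℕ), 1 ≤ X → 0 < δ →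
    δ ≤ X → 1 ≤ δ * X ^ 2 → 2 * δ < m → (m : ℝ) ≤ 50 * X ^ 3 → 1 ≤ m₀ → Squarefree m₀ → m₀ ∣ m →
    ∀ S : Finset (ℤ × ℤ), (∀ e ∈ S, Has X δ m m₀ e.1 e.2) →
    (S.card : ℝ) ≤ C * X ^ ε * (X + δ * X ^ 2 / m + δ ^ 2 * X ^ 3 / (m ^ 2 * m₀)) := by
  classical
  set ε' := ε / 12 with hε'
  have hε'0 : 0 < ε' := by positivity
  obtain ⟨C₁, hC₁, hmain⟩ := main_count ε' hε'0
  obtain ⟨C₂, hC₂, hlog⟩ := two_pow_log ε' hε'0
  refine ⟨256 * C₁ * C₂ * ((100000 : ℝ) ^ ε' * (20 : ℝ) ^ ε'), by positivity,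
    fun X δ m m₀ hX hδ hδX hδ1 hm hmX hm₀ hsq hmm S hS => ?_⟩
  have hX0 : 0 < X := by linarith
  have hmpos : (0 : ℝ) < m := by linarith
  have hmposZ : (0 : ℝ) < ((m : ℤ) : ℝ) := by exact_mod_cast hmpos
  have hmZ : 2 * δ < ((m : ℤ) : ℝ) := by exact_mod_cast hm
  have hmmZ : (m₀ : ℤ) ∣ (m : ℤ) := Int.natCast_dvd_natCast.2 hmm
  have hm₀R : (0 : ℝ) < m₀ := by exact_mod_cast hm₀
  have hdat : ∀ e ∈ S, ∃ (j : ℕ) (z : F6) (a₁ a₂ : ℝ),
      Tup X δ m m₀ e.1 e.2 z.p z.q z.r z.s z.x z.y a₁ a₂ ∧ a₁ ≤ 2 ^ j ∧ (2 : ℝ) ^ j ≤ 2 * a₁ :=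
    fun e he => dyadic hδ hδX hmZ hmmZ (hS e he)
  choose! jf zf a₁f a₂f hf using hdat
  set Q : ℝ := X + δ * X ^ 2 / m + δ ^ 2 * X ^ 3 / (m ^ 2 * m₀) with hQ
  have hQ0 : 0 ≤ Q := by positivity
  set K : ℝ := C₁ * (100000 * X ^ 6) ^ ε' * (256 * Q) with hK
  have hm1 : (1 : ℝ) ≤ m := by
    have : 1 ≤ m := by
      rcases Nat.eq_zero_or_pos m with h | h
      · rw [h, Nat.cast_zero] at hmpos; exact absurd hmpos (lt_irrefl _)
      · exact h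
    exact_mod_cast this
  have hX6 : ∀ n : ℕ, n ≤ 6 → X ^ n ≤ X ^ 6 := fun n hn => pow_le_pow_right₀ hX hn
  -- the size of a fibre
  have hfib : ∀ b ∈ S.image jf, ((S.filter (fun e => jf e = b)).card : ℝ) ≤ K := by
    intro b hb
    obtain ⟨e₀, he₀, hjb⟩ := mem_image.1 hb
    obtain ⟨hT0, h1, h2⟩ := hf e₀ he₀
    rw [hjb] at h1 h2
    set A : ℝ := 2 ^ b with hA
    obtain ⟨-, hAB, hA1⟩ := good_of_tup hδ hX0 hmposZ hT0 h1 h2
    obtain ⟨hA2, hAX⟩ := dyadic_range hX hδ hδ1 (by exact_mod_cast hmX) hT0.a1 hT0.a12 hT0.prod h2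
    rw [← hA] at hA2 hAX
    have hA0 : 0 < A := by linarith
    set T := S.filter (fun e => jf e = b) with hT
    have hinj : Set.InjOn zf (T : Set (ℤ × ℤ)) := by
      intro e he e' he' hz
      have g1 := (hf e (mem_filter.1 he).1).1
      have g2 := (hf e' (mem_filter.1 he').1).1
      rw [← hz] at g2
      obtain ⟨k1, k2⟩ := tup_inj g1 g2
      exact Prod.ext k1 k2
    rw [← card_image_of_injOn hinj]
    set B : ℝ := 4 * ((m : ℤ) : ℝ) / (δ * A) with hB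
    set G : ℝ := δ ^ 2 * X / ((m : ℤ) : ℝ) ^ 2 with hG
    have hG0 : 0 < G := by positivity
    have hP : 9 * G * A ^ 3 ≤ 100000 * X ^ 6 := by
      -- `G A^3 = δ² X A A² / m² ≤ δ X A * 8 / m`
      have e1 : 9 * G * A ^ 3 = 9 * (δ ^ 2 * X * A / ((m : ℤ) : ℝ) ^ 2) * A ^ 2 := by rw [hG]; ring
      rw [e1]
      calc 9 * (δ ^ 2 * X * A / ((m : ℤ) : ℝ) ^ 2) * A ^ 2 ≤
            9 * (δ ^ 2 * X * A / ((m : ℤ) : ℝ) ^ 2) * (8 * ((m : ℤ) : ℝ) / δ) := by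
              gcongr
        _ = 72 * δ * X * A / ((m : ℤ) : ℝ) := by field_simp; ring
        _ ≤ 72 * δ * X * A := by
            apply div_le_self (by positivity)
            exact_mod_cast hm1
        _ ≤ 72 * X * X * (20 * X ^ 3) := by gcongr
        _ = 1440 * X ^ 5 := by ring
        _ ≤ 100000 * X ^ 6 := by
            have := hX6 5 (by norm_num)
            have h0 : 0 ≤ X ^ 6 := by positivity
            linarith
    have hm₀Z : (m₀ : ℝ) ≤ 100000 * X ^ 6 := by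
      have h3 : m₀ ≤ m := Nat.le_of_dvd (by exact_mod_cast hmpos) hmm
      have h4 : (m₀ : ℝ) ≤ m := by exact_mod_cast h3
      have := hX6 3 (by norm_num)
      have h0 : 0 ≤ X ^ 6 := by positivity
      linarith
    have hone : (1 : ℝ) ≤ 100000 * X ^ 6 := by
      have : (1 : ℝ) ≤ X ^ 6 := one_le_pow₀ hX
      linarith
    have hAZ : A ≤ 100000 * X ^ 6 := by
      have := hX6 3 (by norm_num)
      have h0 : 0 ≤ X ^ 6 := by positivity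
      linarith
    have hc := hmain A B G (100000 * X ^ 6) m m₀ hA0 hAB hG0 hone hAZ hP hm₀Z hm₀ hsq hmmZ
      (T.image zf) (by
        intro z hz
        obtain ⟨e, he, rfl⟩ := mem_image.1 hz
        have hj := (mem_filter.1 he).2
        obtain ⟨g1, g2, g3⟩ := hf e (mem_filter.1 he).1
        rw [hj] at g2 g3
        exact (good_of_tup hδ hX0 hmposZ g1 g2 g3).1)
    refine hc.trans ?_
    rw [hK]
    apply mul_le_mul_of_nonneg_left _ (by positivity)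
    -- the computation
    have e1 : G * A * B = 4 * δ * X / m := by
      rw [hG, hB]; push_cast; field_simp
    have e2 : G * A ^ 3 * B = 4 * δ * X / m * A ^ 2 := by
      rw [hG, hB]; push_cast; field_simp
    have e3 : G * B ^ 2 / m₀ = 16 * X / (A ^ 2 * m₀) := by
      rw [hG, hB]; push_cast; field_simp; ring
    rw [e1, e2, e3]
    have hA2' : A ^ 2 ≤ 8 * m / δ := by exact_mod_cast hA2
    have e4 : 4 * δ * X / m * A ^ 2 * (1 + 4 * δ * X / m) * (1 + 16 * X / (A ^ 2 * m₀)) =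
        4 * δ * X / m * (1 + 4 * δ * X / m) * (A ^ 2 + 16 * X / m₀) := by
      field_simp
    rw [e4]
    calc 4 * δ * X / m * (1 + 4 * δ * X / m) * (A ^ 2 + 16 * X / m₀) ≤
          4 * δ * X / m * (1 + 4 * δ * X / m) * (8 * m / δ + 16 * X / m₀) := by gcongr
      _ = 32 * X + 128 * (δ * X ^ 2 / m) + 64 * (δ * X ^ 2 / m) / m₀ +
          256 * (δ ^ 2 * X ^ 3 / (m ^ 2 * m₀)) := by
          field_simp
          ring
      _ ≤ 32 * X + 128 * (δ * X ^ 2 / m) + 64 * (δ * X ^ 2 / m) +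
          256 * (δ ^ 2 * X ^ 3 / (m ^ 2 * m₀)) := by
          have : 64 * (δ * X ^ 2 / m) / m₀ ≤ 64 * (δ * X ^ 2 / m) :=
            div_le_self (by positivity) (by exact_mod_cast hm₀)
          linarith
      _ ≤ 256 * Q := by
          rw [hQ]
          have h0 : 0 ≤ δ * X ^ 2 / m := by positivity
          linarith
  have h1 := card_fib S jf K hfib
  -- the number of `j`
  have hj : ((S.image jf).card : ℝ) ≤ C₂ * (20 * X ^ 3) ^ ε' := by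
    rcases S.eq_empty_or_nonempty with h | ⟨e₀, he₀⟩
    · rw [h, image_empty, card_empty, Nat.cast_zero]; positivity
    have hne : (S.image jf).Nonempty := ⟨_, mem_image_of_mem _ he₀⟩
    set J := (S.image jf).max' hne with hJ
    have hJm := (S.image jf).max'_mem hne
    obtain ⟨e, he, heJ⟩ := mem_image.1 hJm
    obtain ⟨g1, g2, g3⟩ := hf e he
    rw [heJ] at g2 g3
    obtain ⟨-, hAX⟩ := dyadic_range hX hδ hδ1 (by exact_mod_cast hmX) g1.a1 g1.a12 g1.prod g3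
    have hsub : S.image jf ⊆ range (J + 1) := by
      intro j hj
      rw [mem_range, Nat.lt_succ_iff]
      exact (S.image jf).le_max' j hj
    have h2 := card_le_card hsub
    rw [card_range] at h2
    have h3 : ((S.image jf).card : ℝ) ≤ (J : ℝ) + 1 := by exact_mod_cast h2
    refine h3.trans (hlog _ J ?_ hAX)
    have : (1 : ℝ) ≤ X ^ 3 := one_le_pow₀ hX
    linarith
  have e5 : ((100000 : ℝ) * X ^ 6) ^ ε' = (100000 : ℝ) ^ ε' * X ^ (6 * ε') := by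
    rw [Real.mul_rpow (by norm_num) (by positivity), ← Real.rpow_natCast X 6,
      ← Real.rpow_mul hX0.le]
    norm_num
  have e6 : ((20 : ℝ) * X ^ 3) ^ ε' = (20 : ℝ) ^ ε' * X ^ (3 * ε') := by
    rw [Real.mul_rpow (by norm_num) (by positivity), ← Real.rpow_natCast X 3,
      ← Real.rpow_mul hX0.le]
    norm_num
  have e7 : X ^ (6 * ε') * X ^ (3 * ε') ≤ X ^ ε := by
    rw [← Real.rpow_add hX0]
    apply Real.rpow_le_rpow_of_exponent_le hX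
    rw [hε']; linarith
  calc (S.card : ℝ) ≤ K * ((S.image jf).card : ℝ) := h1
    _ ≤ K * (C₂ * (20 * X ^ 3) ^ ε') := by
        apply mul_le_mul_of_nonneg_left hj
        rw [hK]; positivity
    _ = 256 * C₁ * C₂ * ((100000 : ℝ) ^ ε' * (20 : ℝ) ^ ε') * (X ^ (6 * ε') * X ^ (3 * ε')) * Q := by
        rw [hK, e5, e6]; ring
    _ ≤ 256 * C₁ * C₂ * ((100000 : ℝ) ^ ε' * (20 : ℝ) ^ ε') * X ^ ε * Q := by gcongr
    _ = _ := by rw [hQ]

end Run7.h577.S
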