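import Mathlib
import Pool.Agent.Run7.h577.SG

/-!
The number of the pairs `(c, d)` with a large modulus `m`.
-/

set_option autoImplicit false

namespace Run7.h577.S

open Finset

theorem icc_card (b : ℝ) (hb : 0 ≤ b) : (((Icc (-⌊b⌋) ⌊b⌋ : Finset ℤ)).card : ℝ) ≤ 2 * b + 1 := by
  rw [Int.card_Icc]
  have h0 : (0 : ℤ) ≤ ⌊b⌋ := Int.floor_nonneg.2 hb
  have h1 : ((⌊b⌋ + 1 - -⌊b⌋).toNat : ℤ) = 2 * ⌊b⌋ + 1 := by
    rw [Int.toNat_of_nonneg (by linarith)]; ring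
  have h2 : (((⌊b⌋ + 1 - -⌊b⌋).toNat : ℕ) : ℝ) = 2 * (⌊b⌋ : ℝ) + 1 := by exact_mod_cast h1
  rw [h2]
  have := Int.floor_le b
  linarith

theorem mem_icc_floor {n : ℤ} {b : ℝ} (h : |(n : ℝ)| ≤ b) : n ∈ Icc (-⌊b⌋) ⌊b⌋ := by
  rw [mem_Icc]
  have h1 := abs_le.1 h
  constructor
  · have : -n ≤ ⌊b⌋ := by
      rw [Int.le_floor]
      push_cast
      linarith [h1.1]
    linarith
  · rw [Int.le_floor]; exact h1.2

/-- the number of the forms and points in a box -/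
theorem box_count (bp bq br bs bx byy : ℝ) (h1 : 0 ≤ bp) (h2 : 0 ≤ bq) (h3 : 0 ≤ br) (h4 : 0 ≤ bs)
    (h5 : 0 ≤ bx) (h6 : 0 ≤ byy) (S : Finset F6)
    (hS : ∀ z ∈ S, |(z.p : ℝ)| ≤ bp ∧ |(z.q : ℝ)| ≤ bq ∧ |(z.r : ℝ)| ≤ br ∧ |(z.s : ℝ)| ≤ bs ∧
      |(z.x : ℝ)| ≤ bx ∧ |(z.y : ℝ)| ≤ byy) :
    (S.card : ℝ) ≤ (2 * bp + 1) * ((2 * bq + 1) * ((2 * br + 1) * ((2 * bs + 1) *
      ((2 * bx + 1) * (2 * byy + 1))))) := by
  classical
  set T := (Icc (-⌊bp⌋) ⌊bp⌋) ×ˢ ((Icc (-⌊bq⌋) ⌊bq⌋) ×ˢ ((Icc (-⌊br⌋) ⌊br⌋) ×ˢ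
    ((Icc (-⌊bs⌋) ⌊bs⌋) ×ˢ ((Icc (-⌊bx⌋) ⌊bx⌋) ×ˢ (Icc (-⌊byy⌋) ⌊byy⌋))))) with hT
  have hc : S.card ≤ T.card := by
    apply card_le_card_of_injOn (fun z : F6 => (z.p, z.q, z.r, z.s, z.x, z.y))
    · intro z hz
      obtain ⟨a1, a2, a3, a4, a5, a6⟩ := hS z hz
      rw [hT, mem_coe]
      simp only [mem_product]
      exact ⟨mem_icc_floor a1, mem_icc_floor a2, mem_icc_floor a3, mem_icc_floor a4,
        mem_icc_floor a5, mem_icc_floor a6⟩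
    · intro z _ z' _ h
      simp only [Prod.mk.injEq] at h
      cases z
      cases z'
      simp only at h
      simp only [F6.mk.injEq]
      exact h
  have hcR : (S.card : ℝ) ≤ (T.card : ℝ) := by exact_mod_cast hc
  refine hcR.trans ?_
  rw [hT, card_product, card_product, card_product, card_product, card_product]
  push_cast
  have g1 := icc_card bp h1
  have g2 := icc_card bq h2
  have g3 := icc_card br h3
  have g4 := icc_card bs h4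
  have g5 := icc_card bx h5
  have g6 := icc_card byy h6
  gcongr

theorem box_bound (G A B : ℝ) (hG : 0 < G) (hA1 : 1 ≤ A) (hAB : A ≤ 2 * B) (hP : 1 ≤ 9 * G * A ^ 3)
    (S : Finset F6)
    (hS : ∀ z ∈ S, |(z.p : ℝ)| ≤ 9 * G * A ^ 3 ∧ |(z.q : ℝ)| ≤ 9 * G * A ^ 2 * B ∧
      |(z.r : ℝ)| ≤ 9 * G * A * B ^ 2 ∧ |(z.s : ℝ)| ≤ 9 * G * B ^ 3 ∧
      |(z.x : ℝ)| ≤ B ∧ |(z.y : ℝ)| ≤ A) :
    (S.card : ℝ) ≤ 60000000 * (G ^ 4 * (A * B) ^ 7) := by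
  have hA : 0 < A := by linarith
  have hB : 0 < B := by linarith
  have h := box_count (9 * G * A ^ 3) (9 * G * A ^ 2 * B) (9 * G * A * B ^ 2) (9 * G * B ^ 3) B A
    (by positivity) (by positivity) (by positivity) (by positivity) hB.le hA.le S hS
  refine h.trans ?_
  have b2 : 1 ≤ 2 * (9 * G * A ^ 2 * B) := by
    have : 9 * G * A ^ 2 * A ≤ 9 * G * A ^ 2 * (2 * B) := by gcongr
    linarith
  have b3 : 1 ≤ 4 * (9 * G * A * B ^ 2) := by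
    have : 9 * G * A * B * A ≤ 9 * G * A * B * (2 * B) := by gcongr
    linarith
  have b4 : 1 ≤ 8 * (9 * G * B ^ 3) := by
    have : 9 * G * B ^ 2 * A ≤ 9 * G * B ^ 2 * (2 * B) := by gcongr
    linarith
  have c1 : 2 * (9 * G * A ^ 3) + 1 ≤ 3 * (9 * G * A ^ 3) := by linarith
  have c2 : 2 * (9 * G * A ^ 2 * B) + 1 ≤ 4 * (9 * G * A ^ 2 * B) := by linarith
  have c3 : 2 * (9 * G * A * B ^ 2) + 1 ≤ 6 * (9 * G * A * B ^ 2) := by linarith
  have c4 : 2 * (9 * G * B ^ 3) + 1 ≤ 10 * (9 * G * B ^ 3) := by linarith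
  have c5 : 2 * B + 1 ≤ 4 * B := by linarith
  have c6 : 2 * A + 1 ≤ 3 * A := by linarith
  calc (2 * (9 * G * A ^ 3) + 1) * ((2 * (9 * G * A ^ 2 * B) + 1) * ((2 * (9 * G * A * B ^ 2) + 1) *
        ((2 * (9 * G * B ^ 3) + 1) * ((2 * B + 1) * (2 * A + 1)))))
      ≤ (3 * (9 * G * A ^ 3)) * ((4 * (9 * G * A ^ 2 * B)) * ((6 * (9 * G * A * B ^ 2)) *
        ((10 * (9 * G * B ^ 3)) * ((4 * B) * (3 * A))))) := by gcongr
    _ = 56687040 * (G ^ 4 * (A * B) ^ 7) := by ring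
    _ ≤ _ := by
        have : 0 ≤ G ^ 4 * (A * B) ^ 7 := by positivity
        linarith

theorem dyadic_m (M : ℝ) (hM : 1 ≤ M) (m : ℕ) (hm : M ≤ m) :
    ∃ k : ℕ, (2 : ℝ) ^ k * M ≤ m ∧ (m : ℝ) ≤ 2 * (2 ^ k * M) := by
  classical
  have hex : ∃ k : ℕ, (m : ℝ) ≤ 2 * (2 ^ k * M) := by
    obtain ⟨n, hn⟩ := pow_unbounded_of_one_lt (m : ℝ) (by norm_num : (1 : ℝ) < 2)
    refine ⟨n, ?_⟩
    have h1 : (2 : ℝ) ^ n * 1 ≤ 2 ^ n * M := by gcongr
    have h2 : (0 : ℝ) < 2 ^ n * M := by positivity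
    linarith
  refine ⟨Nat.find hex, ?_, Nat.find_spec hex⟩
  rcases Nat.eq_zero_or_pos (Nat.find hex) with h0 | h0
  · rw [h0, pow_zero, one_mul]; exact hm
  · have h5 := Nat.find_min hex (m := Nat.find hex - 1) (by omega)
    push Not at h5
    have e : (2 : ℝ) ^ (Nat.find hex) = 2 * 2 ^ (Nat.find hex - 1) := by
      rw [← pow_succ']
      congr 1
      omega
    rw [e]
    linarith

/-- COUNT for large `m` -/
theorem cnt_big (ε : ℝ) (hε : 0 < ε) : ∃ C : ℝ, 0 < C ∧ ∀ (X δ M : ℝ), 1 ≤ X → 0 < δ →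
    δ ≤ X → 1 ≤ δ * X ^ 2 → 2 * δ < M → 1 ≤ M → ∀ S : Finset (ℤ × ℤ),
    (∀ e ∈ S, ∃ m : ℕ, M ≤ m ∧ (m : ℝ) ≤ 50 * X ^ 3 ∧ Has X δ m 1 e.1 e.2) →
    (S.card : ℝ) ≤ C * X ^ ε * (δ * X ^ 4 / M) := by
  classical
  set ε' := ε / 6 with hε'
  have hε'0 : 0 < ε' := by positivity
  obtain ⟨C₂, hC₂, hlog⟩ := two_pow_log ε' hε'0
  refine ⟨60000000 * 8 ^ 7 * (C₂ * 20 ^ ε') * (C₂ * 50 ^ ε'), by positivity,
    fun X δ M hX hδ hδX hδ1 hM hM1 S hS => ?_⟩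
  have hX0 : 0 < X := by linarith
  have hM0 : 0 < M := by linarith
  rcases S.eq_empty_or_nonempty with h | hSne
  · rw [h, card_empty, Nat.cast_zero]; positivity
  have hdat : ∀ e ∈ S, ∃ (m j k : ℕ) (z : F6) (a₁ a₂ : ℝ), (m : ℝ) ≤ 50 * X ^ 3 ∧
      Tup X δ m 1 e.1 e.2 z.p z.q z.r z.s z.x z.y a₁ a₂ ∧ a₁ ≤ 2 ^ j ∧ (2 : ℝ) ^ j ≤ 2 * a₁ ∧
      (2 : ℝ) ^ k * M ≤ m ∧ (m : ℝ) ≤ 2 * (2 ^ k * M) := by
    intro e he
    obtain ⟨m, h1, h2, h3⟩ := hS e he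
    obtain ⟨j, z, a₁, a₂, g1, g2, g3⟩ := dyadic hδ hδX (by
      have : 2 * δ < (m : ℝ) := lt_of_lt_of_le hM h1
      exact_mod_cast this) (one_dvd _) h3
    obtain ⟨k, k1, k2⟩ := dyadic_m M hM1 m h1
    exact ⟨m, j, k, z, a₁, a₂, h2, g1, g2, g3, k1, k2⟩
  choose! mf jf kf zf a₁f a₂f hf using hdat
  set K : ℝ := 60000000 * 8 ^ 7 * (δ * X ^ 4 / M) with hK
  have hfib : ∀ b ∈ S.image (fun e => (jf e, kf e)),
      ((S.filter (fun e => (jf e, kf e) = b)).card : ℝ) ≤ K := by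
    rintro ⟨b, k⟩ hb
    obtain ⟨e₀, he₀, hjb⟩ := mem_image.1 hb
    simp only [Prod.mk.injEq] at hjb
    obtain ⟨h0, hT0, h1, h2, h3, h4⟩ := hf e₀ he₀
    rw [hjb.1] at h1 h2
    rw [hjb.2] at h3 h4
    set A : ℝ := 2 ^ b with hA
    set M' : ℝ := 2 ^ k * M with hM'
    have hM'1 : 1 ≤ M' := by
      have : (1 : ℝ) ≤ 2 ^ k := one_le_pow₀ (by norm_num)
      nlinarith
    have hM'M : M ≤ M' := by
      have : (1 : ℝ) ≤ 2 ^ k := one_le_pow₀ (by norm_num)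
      nlinarith
    have hM'0 : 0 < M' := by linarith
    have hmpos0 : (0 : ℝ) < ((mf e₀ : ℤ) : ℝ) := by
      have : (0 : ℝ) < (mf e₀ : ℝ) := by linarith
      exact_mod_cast this
    obtain ⟨hg0, hAB0, hA1⟩ := good_of_tup hδ hX0 hmpos0 hT0 h1 h2
    have hA0 : 0 < A := by linarith
    set B : ℝ := 8 * M' / (δ * A) with hB
    set G : ℝ := δ ^ 2 * X / M' ^ 2 with hG
    have hB0 : 0 < B := by positivity
    have hG0 : 0 < G := by positivity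
    have mono : ∀ m : ℕ, M' ≤ m → (m : ℝ) ≤ 2 * M' →
        4 * ((m : ℤ) : ℝ) / (δ * A) ≤ B ∧ δ ^ 2 * X / ((m : ℤ) : ℝ) ^ 2 ≤ G := by
      intro m a1 a2
      constructor
      · rw [hB]
        apply div_le_div_of_nonneg_right _ (by positivity)
        push_cast
        linarith
      · rw [hG]
        push_cast
        gcongr
    set T := S.filter (fun e => (jf e, kf e) = (b, k)) with hT
    have hinj : Set.InjOn zf (T : Set (ℤ × ℤ)) := by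
      intro e he e' he' hz
      have g1 := (hf e (mem_filter.1 he).1).2.1
      have g2 := (hf e' (mem_filter.1 he').1).2.1
      rw [← hz] at g2
      obtain ⟨k1, k2⟩ := tup_inj g1 g2
      exact Prod.ext k1 k2
    rw [← card_image_of_injOn hinj]
    have hgood : ∀ z ∈ T.image zf, |(z.p : ℝ)| ≤ 9 * G * A ^ 3 ∧ |(z.q : ℝ)| ≤ 9 * G * A ^ 2 * B ∧
      |(z.r : ℝ)| ≤ 9 * G * A * B ^ 2 ∧ |(z.s : ℝ)| ≤ 9 * G * B ^ 3 ∧
      |(z.x : ℝ)| ≤ B ∧ |(z.y : ℝ)| ≤ A := by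
      intro z hz
      obtain ⟨e, he, rfl⟩ := mem_image.1 hz
      have hj := (mem_filter.1 he).2
      simp only [Prod.mk.injEq] at hj
      obtain ⟨g0, g1, g2, g3, g4, g5⟩ := hf e (mem_filter.1 he).1
      rw [hj.1] at g2 g3
      rw [hj.2] at g4 g5
      have hmpos : (0 : ℝ) < ((mf e : ℤ) : ℝ) := by
        have : (0 : ℝ) < (mf e : ℝ) := by linarith
        exact_mod_cast this
      have hg := (good_of_tup hδ hX0 hmpos g1 g2 g3).1
      obtain ⟨m1, m2⟩ := mono (mf e) g4 g5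
      have hBm : 0 < 4 * ((mf e : ℤ) : ℝ) / (δ * A) := by positivity
      have hGm : 0 < δ ^ 2 * X / ((mf e : ℤ) : ℝ) ^ 2 := by positivity
      refine ⟨hg.bp.trans (by gcongr), hg.bq.trans (by gcongr), hg.br.trans (by gcongr),
        hg.bs.trans (by gcongr), hg.hx.trans m1, hg.hy⟩
    have hP : 1 ≤ 9 * G * A ^ 3 := by
      have h5 : (1 : ℝ) ≤ |((zf e₀).p : ℝ)| := by
        have := Int.one_le_abs hT0.p0
        exact_mod_cast this
      have h6 := (hgood (zf e₀) (mem_image_of_mem _ (mem_filter.2 ⟨he₀, by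
        simp only [Prod.mk.injEq]; exact hjb⟩))).1
      linarith
    have hAB : A ≤ 2 * B := by
      have := (mono (mf e₀) h3 h4).1
      linarith
    refine (box_bound G A B hG0 hA1 hAB hP _ hgood).trans ?_
    have e1 : G ^ 4 * (A * B) ^ 7 = 8 ^ 7 * (δ * X ^ 4 / M') := by
      rw [hG, hB]; field_simp
    rw [e1, hK]
    have e2 : δ * X ^ 4 / M' ≤ δ * X ^ 4 / M := by gcongr
    nlinarith
  have h1 := card_fib S (fun e => (jf e, kf e)) K hfib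
  -- the number of the pairs `(j, k)`
  have hne : (S.image jf).Nonempty := hSne.image _
  have hne' : (S.image kf).Nonempty := hSne.image _
  set J := (S.image jf).max' hne with hJ
  set L := (S.image kf).max' hne' with hL
  obtain ⟨e, he, heJ⟩ := mem_image.1 ((S.image jf).max'_mem hne)
  obtain ⟨e', he', heL⟩ := mem_image.1 ((S.image kf).max'_mem hne')
  have hX3 : (1 : ℝ) ≤ X ^ 3 := one_le_pow₀ hX
  have hJb : (J : ℝ) + 1 ≤ C₂ * (20 * X ^ 3) ^ ε' := by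
    obtain ⟨g0, g1, g2, g3, g4, g5⟩ := hf e he
    rw [heJ] at g2 g3
    obtain ⟨-, hAX⟩ := dyadic_range hX hδ hδ1 (by exact_mod_cast g0) g1.a1 g1.a12 g1.prod g3
    exact hlog _ J (by linarith) hAX
  have hLb : (L : ℝ) + 1 ≤ C₂ * (50 * X ^ 3) ^ ε' := by
    obtain ⟨g0, g1, g2, g3, g4, g5⟩ := hf e' he'
    rw [heL] at g4
    refine hlog _ L (by linarith) ?_
    have : (2 : ℝ) ^ L * 1 ≤ 2 ^ L * M := by gcongr
    linarith
  have hsub : S.image (fun e => (jf e, kf e)) ⊆ range (J + 1) ×ˢ range (L + 1) := by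
    intro b hb
    obtain ⟨e, he, rfl⟩ := mem_image.1 hb
    rw [mem_product, mem_range, mem_range, Nat.lt_succ_iff, Nat.lt_succ_iff]
    exact ⟨(S.image jf).le_max' _ (mem_image_of_mem _ he),
      (S.image kf).le_max' _ (mem_image_of_mem _ he)⟩
  have hcard : ((S.image (fun e => (jf e, kf e))).card : ℝ) ≤ ((J : ℝ) + 1) * ((L : ℝ) + 1) := by
    have := card_le_card hsub
    rw [card_product, card_range, card_range] at this
    exact_mod_cast this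
  have e5 : ((20 : ℝ) * X ^ 3) ^ ε' = (20 : ℝ) ^ ε' * X ^ (3 * ε') := by
    rw [Real.mul_rpow (by norm_num) (by positivity), ← Real.rpow_natCast X 3,
      ← Real.rpow_mul hX0.le]
    norm_num
  have e6 : ((50 : ℝ) * X ^ 3) ^ ε' = (50 : ℝ) ^ ε' * X ^ (3 * ε') := by
    rw [Real.mul_rpow (by norm_num) (by positivity), ← Real.rpow_natCast X 3,
      ← Real.rpow_mul hX0.le]
    norm_num
  rw [e5] at hJb
  rw [e6] at hLb
  have e7 : X ^ (3 * ε') * X ^ (3 * ε') = X ^ ε := by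
    rw [← Real.rpow_add hX0]
    congr 1
    rw [hε']; ring
  calc (S.card : ℝ) ≤ K * ((S.image (fun e => (jf e, kf e))).card : ℝ) := h1
    _ ≤ K * ((C₂ * (20 ^ ε' * X ^ (3 * ε'))) * (C₂ * (50 ^ ε' * X ^ (3 * ε')))) := by
        apply mul_le_mul_of_nonneg_left _ (by rw [hK]; positivity)
        refine hcard.trans ?_
        apply mul_le_mul hJb hLb (by positivity) (by positivity)
    _ = 60000000 * 8 ^ 7 * (C₂ * 20 ^ ε') * (C₂ * 50 ^ ε') * (X ^ (3 * ε') * X ^ (3 * ε')) *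
        (δ * X ^ 4 / M) := by rw [hK]; ring
    _ = _ := by rw [e7]

end Run7.h577.S
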