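import Mathlib
import Pool.Agent.Run7.h577.SH

/-!
The elementary count for small moduli, and the reducible cubics.
-/

set_option autoImplicit false

namespace Run7.h577.S

open Finset

/-- the possible values of `τ` -/
noncomputable def tau (i : Fin 3) (c : ℤ) : ℝ := if i = 0 then √(c : ℝ) else if i = 1 then -√(c : ℝ) else 0

theorem icc_card_X2 (X : ℝ) (hX : 1 ≤ X) (S : Finset ℤ) (hS : ∀ c ∈ S, |(c : ℝ)| ≤ X ^ 2) :
    (S.card : ℝ) ≤ 3 * X ^ 2 := by
  have h1 : S ⊆ Icc (-⌊X ^ 2⌋) ⌊X ^ 2⌋ := fun c hc => mem_icc_floor (hS c hc)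
  have h2 : (S.card : ℝ) ≤ ((Icc (-⌊X ^ 2⌋) ⌊X ^ 2⌋ : Finset ℤ).card : ℝ) := by
    exact_mod_cast card_le_card h1
  have h3 := icc_card (X ^ 2) (by positivity)
  have h4 : (1 : ℝ) ≤ X ^ 2 := one_le_pow₀ hX
  linarith

/-- the elementary count -/
theorem cnt_elem (ε : ℝ) (hε : 0 < ε) : ∃ C : ℝ, 0 < C ∧ ∀ (X δ : ℝ) (M : ℕ), 1 ≤ X → 0 < δ →
    1 ≤ M → ∀ S : Finset (ℤ × ℤ), (∀ e ∈ S, |(e.1 : ℝ)| ≤ X ^ 2 ∧ IsCoprime e.1 (M : ℤ) ∧
      (M : ℤ) ∣ e.2 ^ 2 - e.1 ^ 3 ∧ ∃ i : Fin 3, Reg X δ e.1 e.2 (tau i e.1)) →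
    (S.card : ℝ) ≤ C * (M : ℝ) ^ ε * (X ^ 2 * (δ ^ 2 * X / M + 1)) := by
  classical
  obtain ⟨C, hC, hroots⟩ := Pool.Agent.H328R2.ABC.roots 2 (by norm_num) ε hε
  refine ⟨18 * C, by positivity, fun X δ M hX hδ hM S hS => ?_⟩
  have hX0 : 0 < X := by linarith
  have hMR : (0 : ℝ) < M := by exact_mod_cast hM
  haveI : NeZero M := ⟨by omega⟩
  have hch : ∀ e ∈ S, ∃ i : Fin 3, Reg X δ e.1 e.2 (tau i e.1) := fun e he => (hS e he).2.2.2
  choose! g hg using hch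
  have h1 := card_fib S (fun e : ℤ × ℤ => e.1) (3 * (C * (M : ℝ) ^ ε * (2 * δ ^ 2 * X / M + 1))) (by
    intro c hc
    set T := S.filter (fun e : ℤ × ℤ => e.1 = c) with hT
    obtain ⟨e₀, he₀, rfl⟩ := mem_image.1 hc
    have h2 := card_fib T g (C * (M : ℝ) ^ ε * (2 * δ ^ 2 * X / M + 1)) (by
      intro i _
      set T' := T.filter (fun e => g e = i) with hT'
      have h3 := card_fib T' (fun e : ℤ × ℤ => ((e.2 : ℤ) : ZMod M)) (2 * δ ^ 2 * X / M + 1) (by
        intro u _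
        set T'' := T'.filter (fun e : ℤ × ℤ => ((e.2 : ℤ) : ZMod M) = u) with hT''
        have hinj : Set.InjOn (fun e : ℤ × ℤ => e.2) (T'' : Set (ℤ × ℤ)) := by
          intro e he e' he' h
          have a1 := (mem_filter.1 (mem_filter.1 (mem_filter.1 he).1).1).2
          have a2 := (mem_filter.1 (mem_filter.1 (mem_filter.1 he').1).1).2
          exact Prod.ext (by rw [a1, a2]) h
        rw [← card_image_of_injOn hinj]
        apply spaced _ M (2 * δ ^ 2 * X) hM (by positivity)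
        · intro a ha b hb
          obtain ⟨e, he, rfl⟩ := mem_image.1 ha
          obtain ⟨e', he', rfl⟩ := mem_image.1 hb
          rw [← ZMod.intCast_zmod_eq_zero_iff_dvd]
          push_cast
          rw [(mem_filter.1 he).2, (mem_filter.1 he').2, sub_self]
        · intro a ha b hb
          obtain ⟨e, he, rfl⟩ := mem_image.1 ha
          obtain ⟨e', he', rfl⟩ := mem_image.1 hb
          have a0 := (mem_filter.1 (mem_filter.1 (mem_filter.1 he).1).1)
          have b0 := (mem_filter.1 (mem_filter.1 (mem_filter.1 he').1).1)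
          have a1 := (mem_filter.1 (mem_filter.1 he).1).2
          have b1 := (mem_filter.1 (mem_filter.1 he').1).2
          have r1 := (hg e a0.1).h2
          have r2 := (hg e' b0.1).h2
          rw [a1, a0.2] at r1
          rw [b1, b0.2] at r2
          have r3 := sub_abs_le r1 r2
          have e3 : (tau i e₀.1 ^ 3 - 3 * (e₀.1 : ℝ) * tau i e₀.1 + 2 * (e.2 : ℝ)) -
              (tau i e₀.1 ^ 3 - 3 * (e₀.1 : ℝ) * tau i e₀.1 + 2 * (e'.2 : ℝ)) =
              2 * ((e.2 : ℝ) - e'.2) := by ring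
          rw [e3, abs_mul, abs_of_pos (by norm_num : (0 : ℝ) < 2)] at r3
          linarith)
      refine h3.trans ?_
      rw [mul_comm]
      apply mul_le_mul_of_nonneg_right _ (by positivity)
      -- the number of the residues
      rcases T'.eq_empty_or_nonempty with h | ⟨e₁, he₁⟩
      · rw [h, image_empty, card_empty, Nat.cast_zero]; positivity
      have hu : IsUnit (((e₀.1 : ℤ) : ZMod M) ^ 3) := by
        apply IsUnit.pow
        rw [ZMod.coe_int_isUnit_iff_isCoprime]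
        exact (hS e₀ he₀).2.1.symm
      refine le_trans ?_ (hroots M hM _ hu)
      have hsub : ((T'.image (fun e : ℤ × ℤ => ((e.2 : ℤ) : ZMod M)) : Finset (ZMod M)) :
          Set (ZMod M)) ⊆ {t : ZMod M | t ^ 2 = ((e₀.1 : ℤ) : ZMod M) ^ 3} := by
        intro t ht
        obtain ⟨e, he, rfl⟩ := mem_image.1 (mem_coe.1 ht)
        have a0 := mem_filter.1 (mem_filter.1 he).1
        have h5 := (hS e a0.1).2.2.1
        rw [← ZMod.intCast_zmod_eq_zero_iff_dvd] at h5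
        push_cast at h5
        rw [a0.2] at h5
        exact sub_eq_zero.1 h5
      have := Set.ncard_le_ncard hsub (Set.toFinite _)
      rw [Set.ncard_coe_finset] at this
      exact_mod_cast this)
    refine h2.trans ?_
    rw [mul_comm]
    apply mul_le_mul_of_nonneg_right _ (by positivity)
    have h6 : (T.image g).card ≤ 3 := by
      refine (card_le_univ _).trans ?_
      simp
    exact_mod_cast h6)
  have h7 := icc_card_X2 X hX (S.image (fun e : ℤ × ℤ => e.1)) (by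
    intro c hc
    obtain ⟨e, he, rfl⟩ := mem_image.1 hc
    exact (hS e he).1)
  refine h1.trans ?_
  calc 3 * (C * (M : ℝ) ^ ε * (2 * δ ^ 2 * X / M + 1)) * ((S.image (fun e : ℤ × ℤ => e.1)).card : ℝ)
      ≤ 3 * (C * (M : ℝ) ^ ε * (2 * δ ^ 2 * X / M + 1)) * (3 * X ^ 2) := by
        apply mul_le_mul_of_nonneg_left h7 (by positivity)
    _ ≤ 3 * (C * (M : ℝ) ^ ε * (2 * (δ ^ 2 * X / M + 1))) * (3 * X ^ 2) := by
        gcongr
        have e : 2 * δ ^ 2 * X / M = 2 * (δ ^ 2 * X / M) := by ring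
        rw [e]
        linarith
    _ = _ := by ring

/-- an integral root of a reducible cubic -/
theorem int_root (c d w v : ℤ) (h0 : ¬ (w = 0 ∧ v = 0))
    (h : w ^ 3 - 3 * c * w * v ^ 2 + 2 * d * v ^ 3 = 0) : ∃ e : ℤ, 2 * d = 3 * c * e - e ^ 3 := by
  have hg0 : 0 < Int.gcd w v := Int.gcd_pos_iff.2 (by
    by_contra hc
    push Not at hc
    exact h0 hc)
  obtain ⟨w', v', hco, hw, hv⟩ := Int.exists_gcd_one hg0
  set g : ℤ := (Int.gcd w v : ℤ) with hg
  have hgne : g ≠ 0 := by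
    rw [hg]; exact_mod_cast hg0.ne'
  rw [hw, hv] at h
  have h1 : w' ^ 3 - 3 * c * w' * v' ^ 2 + 2 * d * v' ^ 3 = 0 := by
    have : g ^ 3 * (w' ^ 3 - 3 * c * w' * v' ^ 2 + 2 * d * v' ^ 3) = 0 := by linear_combination h
    exact (mul_eq_zero.1 this).resolve_left (pow_ne_zero 3 hgne)
  have hcop : IsCoprime w' v' := Int.isCoprime_iff_gcd_eq_one.2 hco
  have h2 : v' ∣ w' ^ 3 := ⟨3 * c * w' * v' - 2 * d * v' ^ 2, by linear_combination h1⟩
  have h3 : IsUnit v' := (hcop.pow_left (m := 3)).isUnit_of_dvd' h2 dvd_rfl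
  rcases Int.isUnit_iff.1 h3 with h4 | h4
  · rw [h4] at h1
    exact ⟨w', by linear_combination h1⟩
  · rw [h4] at h1
    exact ⟨-w', by linear_combination -h1⟩

/-- the number of the reducible cubics -/
theorem cnt_red (X : ℝ) (hX : 1 ≤ X) (S : Finset (ℤ × ℤ))
    (hS : ∀ e ∈ S, |(e.1 : ℝ)| ≤ X ^ 2 ∧ |(e.2 : ℝ)| ≤ X ^ 3 ∧
      ∃ w v : ℤ, ¬ (w = 0 ∧ v = 0) ∧ w ^ 3 - 3 * e.1 * w * v ^ 2 + 2 * e.2 * v ^ 3 = 0) :
    (S.card : ℝ) ≤ 21 * X ^ 3 := by
  classical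
  have hX0 : 0 < X := by linarith
  have hdat : ∀ e ∈ S, ∃ r : ℤ, 2 * e.2 = 3 * e.1 * r - r ^ 3 := by
    intro e he
    obtain ⟨-, -, w, v, h0, h⟩ := hS e he
    exact int_root e.1 e.2 w v h0 h
  choose! rf hr using hdat
  have hrb : ∀ e ∈ S, |((rf e : ℤ) : ℝ)| ≤ 3 * X := by
    intro e he
    obtain ⟨h1, h2, -⟩ := hS e he
    have h3 := hr e he
    have h4 : ((rf e : ℤ) : ℝ) ^ 3 = 3 * (e.1 : ℝ) * (rf e : ℝ) - 2 * e.2 := by
      have : (2 * e.2 : ℝ) = 3 * (e.1 : ℝ) * (rf e : ℝ) - (rf e : ℝ) ^ 3 := by exact_mod_cast h3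
      linarith
    by_contra hc
    push Not at hc
    set a := |((rf e : ℤ) : ℝ)| with ha
    have h5 : a ^ 3 ≤ 3 * X ^ 2 * a + 2 * X ^ 3 := by
      have := congrArg abs h4
      rw [abs_pow, ← ha] at this
      rw [this]
      refine (abs_sub _ _).trans ?_
      rw [abs_mul, abs_mul, abs_mul, abs_of_pos (by norm_num : (0 : ℝ) < 3),
        abs_of_pos (by norm_num : (0 : ℝ) < 2), ← ha]
      gcongr
    have h6 : 9 * X ^ 2 ≤ a ^ 2 := by nlinarith
    have h7 : 9 * X ^ 2 * a ≤ a ^ 3 := by nlinarith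
    have h8 : 3 * X ^ 3 ≤ X ^ 2 * a := by nlinarith [sq_nonneg X]
    have h9 : 0 < X ^ 3 := by positivity
    nlinarith
  have hinj : Set.InjOn (fun e : ℤ × ℤ => (e.1, rf e)) (S : Set (ℤ × ℤ)) := by
    intro e he e' he' h
    simp only [Prod.mk.injEq] at h
    have a1 := hr e he
    have a2 := hr e' he'
    rw [h.1, h.2] at a1
    exact Prod.ext h.1 (by linarith)
  have hsub : S.image (fun e : ℤ × ℤ => (e.1, rf e)) ⊆
      (Icc (-⌊X ^ 2⌋) ⌊X ^ 2⌋) ×ˢ (Icc (-⌊3 * X⌋) ⌊3 * X⌋) := by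
    intro b hb
    obtain ⟨e, he, rfl⟩ := mem_image.1 hb
    exact mem_product.2 ⟨mem_icc_floor (hS e he).1, mem_icc_floor (hrb e he)⟩
  rw [← card_image_of_injOn hinj]
  have h1 := card_le_card hsub
  rw [card_product] at h1
  have h2 : ((S.image (fun e : ℤ × ℤ => (e.1, rf e))).card : ℝ) ≤
      ((Icc (-⌊X ^ 2⌋) ⌊X ^ 2⌋ : Finset ℤ).card : ℝ) *
        ((Icc (-⌊3 * X⌋) ⌊3 * X⌋ : Finset ℤ).card : ℝ) := by exact_mod_cast h1
  refine h2.trans ?_
  have h3 := icc_card (X ^ 2) (by positivity)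
  have h4 := icc_card (3 * X) (by positivity)
  have h5 : (1 : ℝ) ≤ X ^ 2 := one_le_pow₀ hX
  calc ((Icc (-⌊X ^ 2⌋) ⌊X ^ 2⌋ : Finset ℤ).card : ℝ) *
        ((Icc (-⌊3 * X⌋) ⌊3 * X⌋ : Finset ℤ).card : ℝ) ≤ (3 * X ^ 2) * (7 * X) := by
        apply mul_le_mul (by linarith) (by linarith) (Nat.cast_nonneg _) (by positivity)
    _ = _ := by ring

end Run7.h577.S
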