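import Mathlib
import Pool.Agent.W335.CF.RAD
import Pool.Agent.Run7.h577.SI

/-!
Arithmetic of the modulus: least divisors, squarefull numbers, radicals.
-/

set_option autoImplicit false

namespace Run7.h577.S

open Finset

/-- the radical -/
def rd (n : ℕ) : ℕ := ∏ p ∈ n.primeFactors, p

theorem rd_pos (n : ℕ) : 0 < rd n :=
  Finset.prod_pos fun _ hp => (Nat.prime_of_mem_primeFactors hp).pos

theorem rd_dvd (n : ℕ) : rd n ∣ n := Nat.prod_primeFactors_dvd n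

theorem rd_le (n : ℕ) (hn : 1 ≤ n) : rd n ≤ n := Nat.le_of_dvd (by omega) (rd_dvd n)

theorem rd_squarefree {n : ℕ} (h : Squarefree n) : rd n = n := Nat.prod_primeFactors_of_squarefree h

theorem rd_dvd_of {n b : ℕ} (h : ∀ p, p.Prime → p ∣ n → p ∣ b) : rd n ∣ b := by
  apply Finset.prod_primes_dvd
  · intro p hp
    exact (Nat.prime_of_mem_primeFactors hp).prime
  · intro p hp
    exact h p (Nat.prime_of_mem_primeFactors hp) (Nat.dvd_of_mem_primeFactors hp)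

theorem prime_dvd_rd {n p : ℕ} (hn : n ≠ 0) (hp : p.Prime) (h : p ∣ n) : p ∣ rd n :=
  Finset.dvd_prod_of_mem _ (Nat.mem_primeFactors.2 ⟨hp, h, hn⟩)

/-- a divisor of `n₀` that is minimal among those `≥ T` -/
theorem least_div (n₀ : ℕ) (T : ℝ) (hT : T ≤ n₀) (h0 : 1 ≤ n₀) : ∃ n : ℕ, n ∣ n₀ ∧ 1 ≤ n ∧ T ≤ n ∧
    ∀ p : ℕ, p.Prime → p ∣ n → ((n / p : ℕ) : ℝ) < T := by
  classical
  have hex : ∃ n : ℕ, n ∣ n₀ ∧ 1 ≤ n ∧ T ≤ n := ⟨n₀, dvd_rfl, h0, hT⟩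
  obtain ⟨h1, h2, h3⟩ := Nat.find_spec hex
  refine ⟨Nat.find hex, h1, h2, h3, ?_⟩
  intro p hp hpn
  by_contra hc
  push Not at hc
  have hlt : Nat.find hex / p < Nat.find hex := Nat.div_lt_self (by omega) hp.one_lt
  apply Nat.find_min hex hlt
  refine ⟨(Nat.div_dvd_of_dvd hpn).trans h1, ?_, hc⟩
  exact Nat.div_pos (Nat.le_of_dvd (by omega) hpn) hp.pos

/-- `n * rd n = m² m₀` -/
theorem sqfull (n : ℕ) (hn : 1 ≤ n) : ∃ m m₀ : ℕ, m ^ 2 * m₀ = n * rd n ∧ Squarefree m₀ ∧ m₀ ∣ m ∧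
    rd n ∣ m ∧ 1 ≤ m ∧ 1 ≤ m₀ := by
  obtain ⟨a, b, hab, hsq⟩ := Nat.sq_mul_squarefree (n * rd n)
  have hpos : 0 < n * rd n := Nat.mul_pos (by omega) (rd_pos n)
  have ha0 : a ≠ 0 := by
    rintro rfl
    rw [mul_zero] at hab
    omega
  have hb0 : b ≠ 0 := by
    rintro rfl
    rw [← hab] at hpos
    simp at hpos
  have key : ∀ p : ℕ, p.Prime → p ∣ n → p ∣ b := by
    intro p hp hpn
    by_contra hpb
    have h2 : p ^ 2 ∣ b ^ 2 * a := by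
      rw [hab, sq]
      exact Nat.mul_dvd_mul hpn (prime_dvd_rd (by omega) hp hpn)
    have h3 : Nat.Coprime (p ^ 2) (b ^ 2) :=
      Nat.Coprime.pow 2 2 ((Nat.Prime.coprime_iff_not_dvd hp).2 hpb)
    have h4 : p ^ 2 ∣ a := h3.dvd_of_dvd_mul_left h2
    have h5 := hsq p (by rw [← sq]; exact h4)
    exact hp.one_lt.ne' (Nat.isUnit_iff.1 h5)
  refine ⟨b, a, hab, hsq, ?_, rd_dvd_of key, by omega, by omega⟩
  rw [← rd_squarefree hsq]
  apply rd_dvd_of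
  intro p hp hpa
  apply key p hp
  have h1 : p ∣ n * rd n := by rw [← hab]; exact Dvd.dvd.mul_left hpa _
  rcases (Nat.Prime.dvd_mul hp).1 h1 with h | h
  · exact h
  · exact h.trans (rd_dvd n)

/-- the sum of the inverses of the radicals -/
theorem rd_sum (ε : ℝ) (hε : 0 < ε) : ∃ C : ℝ, 0 < C ∧ ∀ N : ℕ, 1 ≤ N →
    ∑ n ∈ Icc 1 N, (1 : ℝ) / (rd n : ℝ) ≤ C * (N : ℝ) ^ ε := by
  obtain ⟨C, hC, h⟩ := Pool.W335.CF.t_RAD ε hε
  refine ⟨C, hC, fun N hN => ?_⟩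
  have h1 := h 1 N le_rfl hN
  rw [Nat.cast_one, one_mul] at h1
  refine le_trans (le_of_eq ?_) h1
  refine sum_congr rfl fun n _ => ?_
  congr 2
  unfold rd Pool.Agent.W4.CF.radp
  congr 1
  ext p
  rw [mem_filter]
  constructor
  · intro hp
    exact ⟨hp, fun h => (Nat.prime_of_mem_primeFactors hp).one_lt.ne' (Nat.dvd_one.1 h)⟩
  · exact fun hp => hp.1

/-- the products `n' e` with `n' ≤ Y` and `e ∣ n'` -/
def NN (Y : ℕ) : Finset ℕ := (Icc 1 Y).biUnion (fun n => n.divisors.image (fun e => n * e))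

theorem NN_card (ε : ℝ) (hε : 0 < ε) : ∃ C : ℝ, 0 < C ∧ ∀ Y : ℕ, 1 ≤ Y →
    ((NN Y).card : ℝ) ≤ C * (Y : ℝ) ^ (1 + ε) := by
  obtain ⟨C, hC, hdiv⟩ := Pool.Agent.R481.S2.divisor_bound_real ε hε
  refine ⟨C, hC, fun Y hY => ?_⟩
  have hYR : (0 : ℝ) < Y := by exact_mod_cast hY
  have h1 : (NN Y).card ≤ ∑ n ∈ Icc 1 Y, n.divisors.card := by
    unfold NN
    refine card_biUnion_le.trans (sum_le_sum fun n _ => card_image_le)
  have h2 : ((NN Y).card : ℝ) ≤ ∑ n ∈ Icc 1 Y, (n.divisors.card : ℝ) := by exact_mod_cast h1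
  refine h2.trans ?_
  have h3 : ∀ n ∈ Icc 1 Y, (n.divisors.card : ℝ) ≤ C * (Y : ℝ) ^ ε := by
    intro n hn
    obtain ⟨a, b⟩ := mem_Icc.1 hn
    refine (hdiv n (by omega)).trans ?_
    have : (n : ℝ) ≤ Y := by exact_mod_cast b
    gcongr
  refine (sum_le_sum h3).trans ?_
  rw [sum_const, Nat.card_Icc, nsmul_eq_mul, Real.rpow_add hYR, Real.rpow_one]
  have e : ((Y + 1 - 1 : ℕ) : ℝ) = Y := by norm_num
  rw [e]
  linarith

theorem NN_bound {Y n : ℕ} (h : n ∈ NN Y) : 1 ≤ n ∧ n ≤ Y * Y := by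
  unfold NN at h
  obtain ⟨k, hk, hn⟩ := mem_biUnion.1 h
  obtain ⟨e, he, rfl⟩ := mem_image.1 hn
  obtain ⟨h1, h2⟩ := mem_Icc.1 hk
  have h3 := Nat.pos_of_mem_divisors he
  have h4 := Nat.divisor_le he
  constructor
  · exact Nat.mul_pos (by omega) h3
  · exact Nat.mul_le_mul h2 (h4.trans h2)

/-- minimal divisors are in `NN` -/
theorem mem_NN {Y n : ℕ} {T : ℝ} (hn : 1 ≤ n) (hTY : T ≤ (Y : ℝ))
    (hmin : ∀ p : ℕ, p.Prime → p ∣ n → ((n / p : ℕ) : ℝ) < T) (hr : rd n ≤ Y) : n ∈ NN Y := by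
  unfold NN
  rw [mem_biUnion]
  by_cases hsq : Squarefree n
  · rw [rd_squarefree hsq] at hr
    refine ⟨n, mem_Icc.2 ⟨hn, hr⟩, mem_image.2 ⟨1, ?_, mul_one n⟩⟩
    rw [Nat.mem_divisors]
    exact ⟨one_dvd _, by omega⟩
  · rw [Nat.squarefree_iff_prime_squarefree] at hsq
    push Not at hsq
    obtain ⟨p, hp, hpp⟩ := hsq
    have hpn : p ∣ n := (dvd_mul_right p p).trans hpp
    obtain ⟨k, hk⟩ := hpp
    have e : n / p = p * k := by
      rw [hk, mul_assoc]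
      exact Nat.mul_div_cancel_left _ hp.pos
    have hk0 : k ≠ 0 := by
      rintro rfl
      rw [mul_zero] at hk
      omega
    have h1 := hmin p hp hpn
    have h2 : ((n / p : ℕ) : ℝ) ≤ Y := (h1.trans_le hTY).le
    have h3 : n / p ≤ Y := by exact_mod_cast h2
    refine ⟨n / p, mem_Icc.2 ⟨Nat.div_pos (Nat.le_of_dvd (by omega) hpn) hp.pos, h3⟩,
      mem_image.2 ⟨p, ?_, ?_⟩⟩
    · rw [Nat.mem_divisors, e]
      exact ⟨dvd_mul_right _ _, Nat.mul_ne_zero hp.ne_zero hk0⟩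
    · exact Nat.div_mul_cancel hpn

/-- the residue `t` -/
theorem exists_t (c d : ℤ) (M : ℕ) (hM : 1 ≤ M) (hco : IsCoprime c (M : ℤ))
    (h : (M : ℤ) ∣ d ^ 2 - c ^ 3) :
    ∃ t : ℤ, (M : ℤ) ∣ t ^ 2 - c ∧ (M : ℤ) ∣ t ^ 3 - 3 * c * t + 2 * d := by
  obtain ⟨u, v, huv⟩ := hco
  -- `u c + v M = 1`, `t = u d`
  obtain ⟨k, hk⟩ := h
  refine ⟨u * d, ⟨u ^ 2 * k + c * (-v * (u * c + 1)), ?_⟩, ?_⟩
  · have e : u * c = 1 - v * M := by linarith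
    have e2 : (u * d) ^ 2 - c = u ^ 2 * (d ^ 2 - c ^ 3) + c * ((u * c) ^ 2 - 1) := by ring
    have e3 : (u * c) ^ 2 - 1 = -(v * M) * (u * c + 1) := by
      have : (u * c) ^ 2 - 1 = (u * c - 1) * (u * c + 1) := by ring
      rw [this]
      have : u * c - 1 = -(v * M) := by linarith
      rw [this]
    rw [e2, hk, e3]
    ring
  · -- `t³ - 3 c t + 2 d = t (t² - c) - 2 (c t - d)`
    have e1 : (M : ℤ) ∣ c * (u * d) - d := ⟨-(v * d), by linear_combination d * huv⟩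
    have e2 : (M : ℤ) ∣ (u * d) ^ 2 - c := by
      have e2 : (u * d) ^ 2 - c = u ^ 2 * (d ^ 2 - c ^ 3) + c * ((u * c) ^ 2 - 1) := by ring
      have e3 : (u * c) ^ 2 - 1 = (M : ℤ) * (-(v) * (u * c + 1)) := by
        have : (u * c) ^ 2 - 1 = (u * c - 1) * (u * c + 1) := by ring
        rw [this]
        have : u * c - 1 = -(v * M) := by linarith
        rw [this]
        ring
      rw [e2, hk, e3]
      exact dvd_add (Dvd.dvd.mul_left (dvd_mul_right _ _) _)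
        (Dvd.dvd.mul_left (dvd_mul_right _ _) _)
    have e3 : (u * d) ^ 3 - 3 * c * (u * d) + 2 * d =
        (u * d) * ((u * d) ^ 2 - c) - 2 * (c * (u * d) - d) := by ring
    rw [e3]
    exact dvd_sub (Dvd.dvd.mul_left e2 _) (Dvd.dvd.mul_left e1 _)

/-- the modulus condition -/
theorem mod_cond (c d : ℤ) (M m m₀ : ℕ) (hM : 1 ≤ M) (hco : IsCoprime c (M : ℤ))
    (h : (M : ℤ) ∣ d ^ 2 - c ^ 3) (hMm : m ^ 2 * m₀ = M) (hm : m₀ ∣ m) :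
    ∃ t C E : ℤ, (m : ℤ) * C = t ^ 2 - c ∧ (m : ℤ) ^ 2 * E = t ^ 3 - 3 * c * t + 2 * d ∧
      (m₀ : ℤ) ∣ 3 * C ^ 2 - 4 * t * E := by
  obtain ⟨t, ⟨k1, h1⟩, ⟨k2, h2⟩⟩ := exists_t c d M hM hco h
  have hMZ : (M : ℤ) = (m : ℤ) ^ 2 * m₀ := by exact_mod_cast hMm.symm
  refine ⟨t, m * m₀ * k1, m₀ * k2, ?_, ?_, ?_⟩
  · rw [h1, hMZ]; ring
  · rw [h2, hMZ]; ring
  · exact ⟨3 * (m : ℤ) ^ 2 * m₀ * k1 ^ 2 - 4 * t * k2, by ring⟩

end Run7.h577.S
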