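import Mathlib
import Pool.Agent.Run7.h577.SJ

/-!
The count for given `X` and `δ`.
-/

set_option autoImplicit false

namespace Run7.h577.S

open Finset

/-- the hypotheses on a pair `(c, d)` -/
def Hyp (X δ T : ℝ) (c d : ℤ) : Prop :=
  |(c : ℝ)| ≤ X ^ 2 ∧ |(d : ℝ)| ≤ X ^ 3 ∧ (∃ i : Fin 3, Reg X δ c d (tau i c)) ∧
  ∃ n₀ : ℕ, 1 ≤ n₀ ∧ T ≤ n₀ ∧ ∀ n : ℕ, n ∣ n₀ → IsCoprime c ((n * rd n : ℕ) : ℤ) ∧
    ((n * rd n : ℕ) : ℤ) ∣ d ^ 2 - c ^ 3 ∧ ((n * rd n : ℕ) : ℝ) ≤ 2 * X ^ 6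

theorem rpow_six (ε X : ℝ) (hX : 1 ≤ X) (k : ℕ) : (X ^ k) ^ ε = X ^ (k * ε) := by
  rw [← Real.rpow_natCast X k, ← Real.rpow_mul (by linarith)]

/-- a sum over minimal divisors of `1 / (n rd n)` -/
theorem sum_inv (U T : ℝ) (hT : 0 < T) (F : Finset ℕ) (hF : ∀ n ∈ F, 1 ≤ n ∧ T ≤ (n : ℝ))
    (h : ∑ n ∈ F, (1 : ℝ) / (rd n : ℝ) ≤ U) : ∑ n ∈ F, (1 : ℝ) / ((n : ℝ) * rd n) ≤ U / T := by
  rw [le_div_iff₀ hT, sum_mul]
  refine le_trans (sum_le_sum fun n hn => ?_) h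
  obtain ⟨h1, h2⟩ := hF n hn
  have h3 : (0 : ℝ) < n := by exact_mod_cast h1
  have h4 : (0 : ℝ) < rd n := by exact_mod_cast rd_pos n
  rw [div_mul_eq_mul_div, one_mul, div_le_div_iff₀ (by positivity) h4]
  nlinarith

theorem rd_sum_sub (ε : ℝ) (hε : 0 < ε) : ∃ C : ℝ, 0 < C ∧ ∀ (F : Finset ℕ) (Z : ℝ), 1 ≤ Z →
    (∀ n ∈ F, 1 ≤ n ∧ (n : ℝ) ≤ Z) → ∑ n ∈ F, (1 : ℝ) / (rd n : ℝ) ≤ C * Z ^ ε := by
  obtain ⟨C, hC, h⟩ := rd_sum ε hε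
  refine ⟨C, hC, fun F Z hZ hF => ?_⟩
  have hZ1 : 1 ≤ ⌊Z⌋₊ := Nat.le_floor (by rw [Nat.cast_one]; exact hZ)
  have h1 := h ⌊Z⌋₊ hZ1
  have h2 : ∑ n ∈ F, (1 : ℝ) / (rd n : ℝ) ≤ ∑ n ∈ Icc 1 ⌊Z⌋₊, (1 : ℝ) / (rd n : ℝ) := by
    apply sum_le_sum_of_subset_of_nonneg
    · intro n hn
      obtain ⟨a, b⟩ := hF n hn
      rw [mem_Icc]
      exact ⟨a, Nat.le_floor b⟩
    · intro i _ _; positivity
  refine h2.trans (h1.trans ?_)
  have h3 : ((⌊Z⌋₊ : ℕ) : ℝ) ≤ Z := Nat.floor_le (by linarith)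
  gcongr

/-- COUNT -/
theorem count_K (ε : ℝ) (hε : 0 < ε) : ∃ C : ℝ, 0 < C ∧ ∀ (X δ T₀ : ℝ), 1 ≤ X → 0 < δ → δ ≤ X →
    1 ≤ δ * X ^ 2 → 0 < T₀ → ∀ S : Finset (ℤ × ℤ), (∀ e ∈ S, Hyp X δ T₀ e.1 e.2) →
    (S.card : ℝ) ≤ C * X ^ ε * (δ ^ 2 * X ^ 3 / T₀ + X ^ 3) := by
  classical
  set ε' := ε / 8 with hε'
  have hε'0 : 0 < ε' := by positivity
  obtain ⟨C₁, hC₁, helem⟩ := cnt_elem ε' hε'0
  obtain ⟨C₂, hC₂, hcm⟩ := cnt_m ε' hε'0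
  obtain ⟨C₃, hC₃, hcb⟩ := cnt_big ε' hε'0
  obtain ⟨C₄, hC₄, hrs⟩ := rd_sum_sub ε' hε'0
  obtain ⟨C₅, hC₅, hNN⟩ := NN_card ε' hε'0
  refine ⟨36 + 21 + 9 * C₁ * 8 ^ ε' * C₄ * 8 ^ ε' * 2 + C₂ * (C₅ + 2 * C₄ + C₄) + C₃, by positivity,
    fun X δ T₀ hX hδ hδX hδ1 hT₀ S hS => ?_⟩
  have hX0 : 0 < X := by linarith
  have hXε : 1 ≤ X ^ ε := Real.one_le_rpow hX hε.le
  have hX3 : (1 : ℝ) ≤ X ^ 3 := one_le_pow₀ hX
  set R : ℝ := δ ^ 2 * X ^ 3 / T₀ + X ^ 3 with hR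
  have hR0 : 0 < R := by positivity
  have hRX : X ^ 3 ≤ R := by
    have : 0 ≤ δ ^ 2 * X ^ 3 / T₀ := by positivity
    linarith
  have hXR : 0 ≤ X ^ ε * R := by positivity
  -- small `X`
  rcases le_or_gt X 2 with hX2 | hX2
  · have h1 : (S.card : ℝ) ≤ 36 * X ^ 3 := by
      have h2 := card_fib S (fun e : ℤ × ℤ => e.1) (3 * X ^ 3) (by
        intro c _
        set T := S.filter (fun e : ℤ × ℤ => e.1 = c) with hT
        have hinj : Set.InjOn (fun e : ℤ × ℤ => e.2) (T : Set (ℤ × ℤ)) := by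
          intro e he e' he' h
          have a1 := (mem_filter.1 he).2
          have a2 := (mem_filter.1 he').2
          exact Prod.ext (by rw [a1, a2]) h
        rw [← card_image_of_injOn hinj]
        have h3 : T.image (fun e : ℤ × ℤ => e.2) ⊆ Icc (-⌊X ^ 3⌋) ⌊X ^ 3⌋ := by
          intro b hb
          obtain ⟨e, he, rfl⟩ := mem_image.1 hb
          exact mem_icc_floor (hS e (mem_filter.1 he).1).2.1
        have h4 : ((T.image (fun e : ℤ × ℤ => e.2)).card : ℝ) ≤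
            ((Icc (-⌊X ^ 3⌋) ⌊X ^ 3⌋ : Finset ℤ).card : ℝ) := by exact_mod_cast card_le_card h3
        have h5 := icc_card (X ^ 3) (by positivity)
        linarith)
      have h6 := icc_card_X2 X hX (S.image (fun e : ℤ × ℤ => e.1)) (by
        intro c hc
        obtain ⟨e, he, rfl⟩ := mem_image.1 hc
        exact (hS e he).1)
      calc (S.card : ℝ) ≤ 3 * X ^ 3 * ((S.image (fun e : ℤ × ℤ => e.1)).card : ℝ) := h2
        _ ≤ 3 * X ^ 3 * (3 * X ^ 2) := by gcongr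
        _ ≤ 3 * X ^ 3 * (3 * 2 ^ 2) := by gcongr
        _ = _ := by ring
    have h7 : X ^ 3 ≤ X ^ ε * R := by
      calc X ^ 3 ≤ R := hRX
        _ = 1 * R := (one_mul _).symm
        _ ≤ _ := by gcongr
    calc (S.card : ℝ) ≤ 36 * X ^ 3 := h1
      _ ≤ 36 * (X ^ ε * R) := by gcongr
      _ ≤ (36 + 21 + 9 * C₁ * 8 ^ ε' * C₄ * 8 ^ ε' * 2 + C₂ * (C₅ + 2 * C₄ + C₄) + C₃) *
          (X ^ ε * R) := by
          apply mul_le_mul_of_nonneg_right _ hXR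
          have : 0 ≤ 21 + 9 * C₁ * 8 ^ ε' * C₄ * 8 ^ ε' * 2 + C₂ * (C₅ + 2 * C₄ + C₄) + C₃ := by
            positivity
          linarith
      _ = _ := by ring
  -- the truncated threshold
  set Y : ℕ := ⌊X ^ 2⌋₊ with hY
  have hX21 : (1 : ℝ) ≤ X ^ 2 := one_le_pow₀ hX
  have hY1 : 1 ≤ Y := Nat.le_floor (by rw [Nat.cast_one]; exact hX21)
  have hYX : (Y : ℝ) ≤ X ^ 2 := Nat.floor_le (by positivity)
  have hYR : (1 : ℝ) ≤ Y := by exact_mod_cast hY1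
  have hYlow : X ^ 2 ≤ 2 * Y := by
    have := Nat.lt_floor_add_one (X ^ 2)
    rw [← hY] at this
    linarith
  set T : ℝ := min T₀ Y with hT
  have hT0 : 0 < T := lt_min hT₀ (by linarith)
  have hTY : T ≤ Y := min_le_right _ _
  have hTinv : δ ^ 2 * X ^ 3 / T ≤ 2 * R := by
    rcases min_choice T₀ (Y : ℝ) with h | h
    · rw [hT, h, hR]
      have h0 : 0 < X ^ 3 := by positivity
      have h1 : 0 ≤ δ ^ 2 * X ^ 3 / T₀ := by positivity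
      linarith
    · rw [hT, h]
      have h1 : δ ^ 2 * X ^ 3 / Y ≤ 2 * X ^ 3 := by
        rw [div_le_iff₀ (by linarith)]
        have h2 : δ ^ 2 ≤ X ^ 2 := by gcongr
        calc δ ^ 2 * X ^ 3 ≤ X ^ 2 * X ^ 3 := by gcongr
          _ ≤ (2 * Y) * X ^ 3 := by gcongr
          _ = _ := by ring
      linarith
  -- the functions
  have hdat : ∀ e ∈ S, ∃ n : ℕ, 1 ≤ n ∧ T ≤ n ∧
      (∀ p : ℕ, p.Prime → p ∣ n → ((n / p : ℕ) : ℝ) < T) ∧ IsCoprime e.1 ((n * rd n : ℕ) : ℤ) ∧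
      ((n * rd n : ℕ) : ℤ) ∣ e.2 ^ 2 - e.1 ^ 3 ∧ ((n * rd n : ℕ) : ℝ) ≤ 2 * X ^ 6 := by
    intro e he
    obtain ⟨-, -, -, n₀, h1, h2, h3⟩ := hS e he
    obtain ⟨n, g1, g2, g3, g4⟩ := least_div n₀ T ((min_le_left _ _).trans h2) h1
    obtain ⟨k1, k2, k3⟩ := h3 n g1
    exact ⟨n, g2, g3, g4, k1, k2, k3⟩
  choose! nf hn1 hnT hnmin hnco hndvd hnX using hdat
  have hsf : ∀ n : ℕ, ∃ m m₀ : ℕ, 1 ≤ n → (m ^ 2 * m₀ = n * rd n ∧ Squarefree m₀ ∧ m₀ ∣ m ∧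
      rd n ∣ m ∧ 1 ≤ m ∧ 1 ≤ m₀) := by
    intro n
    by_cases h : 1 ≤ n
    · obtain ⟨m, m₀, h1⟩ := sqfull n h
      exact ⟨m, m₀, fun _ => h1⟩
    · exact ⟨0, 0, fun h' => absurd h' h⟩
  choose mf m₀f hmf using hsf
  -- the parts
  set S₁ := S.filter (fun e => ∃ w v : ℤ, ¬ (w = 0 ∧ v = 0) ∧
    w ^ 3 - 3 * e.1 * w * v ^ 2 + 2 * e.2 * v ^ 3 = 0) with hS₁
  set S' := S.filter (fun e => ¬ ∃ w v : ℤ, ¬ (w = 0 ∧ v = 0) ∧
    w ^ 3 - 3 * e.1 * w * v ^ 2 + 2 * e.2 * v ^ 3 = 0) with hS'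
  set S₂ := S'.filter (fun e => ((nf e * rd (nf e) : ℕ) : ℝ) ≤ 8 * δ ^ 2 * X) with hS₂
  set S'' := S'.filter (fun e => ¬ ((nf e * rd (nf e) : ℕ) : ℝ) ≤ 8 * δ ^ 2 * X) with hS''
  set S₃ := S''.filter (fun e => mf (nf e) ≤ Y) with hS₃
  set S₄ := S''.filter (fun e => ¬ mf (nf e) ≤ Y) with hS₄
  have hsplit : (S.card : ℝ) = S₁.card + (S₂.card + (S₃.card + S₄.card)) := by
    have e1 := card_filter_add_card_filter_not (s := S) (fun e => ∃ w v : ℤ, ¬ (w = 0 ∧ v = 0) ∧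
      w ^ 3 - 3 * e.1 * w * v ^ 2 + 2 * e.2 * v ^ 3 = 0)
    have e2 := card_filter_add_card_filter_not (s := S')
      (fun e => ((nf e * rd (nf e) : ℕ) : ℝ) ≤ 8 * δ ^ 2 * X)
    have e3 := card_filter_add_card_filter_not (s := S'') (fun e => mf (nf e) ≤ Y)
    have : S.card = S₁.card + (S₂.card + (S₃.card + S₄.card)) := by
      rw [e3, e2, e1]
    exact_mod_cast this
  -- membership facts
  have hmem' : ∀ e ∈ S', e ∈ S := fun e he => (mem_filter.1 he).1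
  have hmem'' : ∀ e ∈ S'', e ∈ S ∧ 8 * δ ^ 2 * X < ((nf e * rd (nf e) : ℕ) : ℝ) := by
    intro e he
    have h1 := mem_filter.1 he
    exact ⟨hmem' e h1.1, not_le.1 h1.2⟩
  have hirr : ∀ e ∈ S', ∀ w v : ℤ, ¬ (w = 0 ∧ v = 0) →
      w ^ 3 - 3 * e.1 * w * v ^ 2 + 2 * e.2 * v ^ 3 ≠ 0 := by
    intro e he w v h0 h
    exact (mem_filter.1 he).2 ⟨w, v, h0, h⟩
  have hmlow : ∀ e ∈ S'', 2 * δ < (mf (nf e) : ℝ) ∧ (mf (nf e) : ℝ) ≤ 50 * X ^ 3 := by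
    intro e he
    obtain ⟨h1, h2⟩ := hmem'' e he
    obtain ⟨g1, g2, g3, g4, g5, g6⟩ := hmf (nf e) (hn1 e h1)
    have h3 : (m₀f (nf e) : ℝ) ≤ mf (nf e) := by exact_mod_cast Nat.le_of_dvd g5 g3
    have h4 : ((nf e * rd (nf e) : ℕ) : ℝ) = (mf (nf e) : ℝ) ^ 2 * m₀f (nf e) := by
      rw [← g1]; push_cast; ring
    have h5 : (1 : ℝ) ≤ mf (nf e) := by exact_mod_cast g5
    have h6 : (1 : ℝ) ≤ m₀f (nf e) := by exact_mod_cast g6
    constructor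
    · by_contra hc
      push Not at hc
      rw [h4] at h2
      have h7 : (mf (nf e) : ℝ) ^ 2 * m₀f (nf e) ≤ (2 * δ) ^ 2 * (2 * δ) := by
        have : (m₀f (nf e) : ℝ) ≤ 2 * δ := h3.trans hc
        gcongr
      have h8 : (2 * δ) ^ 2 * (2 * δ) ≤ 8 * δ ^ 2 * X := by
        have : 8 * δ ^ 2 * δ ≤ 8 * δ ^ 2 * X := by gcongr
        linarith
      linarith
    · have h7 := hnX e h1
      rw [h4] at h7
      have h8 : (mf (nf e) : ℝ) ^ 2 ≤ 2 * X ^ 6 := by nlinarith [sq_nonneg (mf (nf e) : ℝ)]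
      by_contra hc
      push Not at hc
      have h9 : (50 * X ^ 3) ^ 2 < (mf (nf e) : ℝ) ^ 2 := by
        apply pow_lt_pow_left₀ hc (by positivity) (by norm_num)
      have h10 : 0 < X ^ 6 := by positivity
      nlinarith
  -- `Has`
  have hHas : ∀ e ∈ S'', Has X δ (mf (nf e)) (m₀f (nf e)) e.1 e.2 := by
    intro e he
    obtain ⟨h1, h2⟩ := hmem'' e he
    obtain ⟨g1, g2, g3, g4, g5, g6⟩ := hmf (nf e) (hn1 e h1)
    obtain ⟨-, -, ⟨i, hi⟩, -⟩ := hS e h1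
    have hM1 : 1 ≤ nf e * rd (nf e) := Nat.mul_pos (hn1 e h1) (rd_pos _)
    exact ⟨⟨_, hi⟩, mod_cond e.1 e.2 (nf e * rd (nf e)) _ _ hM1 (hnco e h1) (hndvd e h1) g1 g3,
      hirr e (mem_filter.1 he).1⟩
  have hHas1 : ∀ e ∈ S'', Has X δ (mf (nf e)) 1 e.1 e.2 := by
    intro e he
    obtain ⟨a, ⟨t, C, E, b1, b2, -⟩, c⟩ := hHas e he
    exact ⟨a, ⟨t, C, E, b1, b2, one_dvd _⟩, c⟩
  have hXe1 : ∀ θ : ℝ, θ ≤ ε → X ^ θ ≤ X ^ ε := fun θ h =>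
    Real.rpow_le_rpow_of_exponent_le hX h
  -- (1) the reducible cubics
  have b1 : (S₁.card : ℝ) ≤ 21 * (X ^ ε * R) := by
    have h1 := cnt_red X hX S₁ (by
      intro e he
      have h := mem_filter.1 he
      exact ⟨(hS e h.1).1, (hS e h.1).2.1, h.2⟩)
    refine h1.trans ?_
    have : X ^ 3 ≤ X ^ ε * R := by
      calc X ^ 3 ≤ R := hRX
        _ = 1 * R := (one_mul _).symm
        _ ≤ _ := by gcongr
    linarith
  -- (2) small moduli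
  have b2 : (S₂.card : ℝ) ≤ 9 * C₁ * 8 ^ ε' * C₄ * 8 ^ ε' * 2 * (X ^ ε * R) := by
    have hnS : ∀ e ∈ S₂, e ∈ S ∧ ((nf e * rd (nf e) : ℕ) : ℝ) ≤ 8 * δ ^ 2 * X := fun e he =>
      ⟨hmem' e (mem_filter.1 he).1, (mem_filter.1 he).2⟩
    set F := S₂.image nf with hF
    have hFn : ∀ n ∈ F, 1 ≤ n ∧ T ≤ (n : ℝ) ∧ ((n * rd n : ℕ) : ℝ) ≤ 8 * δ ^ 2 * X := by
      intro n hn
      obtain ⟨e, he, rfl⟩ := mem_image.1 hn
      obtain ⟨h1, h2⟩ := hnS e he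
      exact ⟨hn1 e h1, hnT e h1, h2⟩
    have h8X : (1 : ℝ) ≤ 8 * X ^ 3 := by linarith
    have h1 := card_fib_sum S₂ nf F (fun n => C₁ * (8 * X ^ 3) ^ ε' * (9 * δ ^ 2 * X ^ 3) *
      (1 / ((n : ℝ) * rd n))) (fun e he => mem_image_of_mem _ he) (by
      intro n hn
      obtain ⟨k1, k2, k3⟩ := hFn n hn
      have hM1 : 1 ≤ n * rd n := Nat.mul_pos k1 (rd_pos n)
      have h2 := helem X δ (n * rd n) hX hδ hM1 (S₂.filter (fun e => nf e = n)) (by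
        intro e he
        obtain ⟨a1, a2⟩ := mem_filter.1 he
        obtain ⟨a3, a4⟩ := hnS e a1
        rw [← a2]
        exact ⟨(hS e a3).1, hnco e a3, hndvd e a3, (hS e a3).2.2.1⟩)
      refine h2.trans ?_
      set M : ℝ := ((n * rd n : ℕ) : ℝ) with hM
      have hM0 : 0 < M := by rw [hM]; exact_mod_cast hM1
      have e1 : (1 : ℝ) ≤ 8 * (δ ^ 2 * X / M) := by
        rw [← mul_div_assoc, le_div_iff₀ hM0]
        linarith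
      have e2 : M ≤ 8 * X ^ 3 := by
        refine k3.trans ?_
        have : δ ^ 2 ≤ X ^ 2 := by gcongr
        calc 8 * δ ^ 2 * X ≤ 8 * X ^ 2 * X := by gcongr
          _ = _ := by ring
      have e3 : (n : ℝ) * rd n = M := by rw [hM]; push_cast; ring
      rw [e3]
      calc C₁ * M ^ ε' * (X ^ 2 * (δ ^ 2 * X / M + 1)) ≤
            C₁ * (8 * X ^ 3) ^ ε' * (X ^ 2 * (9 * (δ ^ 2 * X / M))) := by
            gcongr
            linarith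
        _ = _ := by ring)
    refine h1.trans ?_
    rw [← mul_sum]
    have h3 := hrs F (8 * X ^ 3) h8X (by
      intro n hn
      obtain ⟨k1, k2, k3⟩ := hFn n hn
      refine ⟨k1, ?_⟩
      have e4 : (n : ℝ) ≤ ((n * rd n : ℕ) : ℝ) := by
        have : n ≤ n * rd n := Nat.le_mul_of_pos_right _ (rd_pos n)
        exact_mod_cast this
      have : δ ^ 2 ≤ X ^ 2 := by gcongr
      calc (n : ℝ) ≤ 8 * δ ^ 2 * X := e4.trans k3
        _ ≤ 8 * X ^ 2 * X := by gcongr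
        _ = _ := by ring)
    have h4 := sum_inv _ T hT0 F (fun n hn => ⟨(hFn n hn).1, (hFn n hn).2.1⟩) h3
    have e5 : ((8 : ℝ) * X ^ 3) ^ ε' = 8 ^ ε' * X ^ (3 * ε') := by
      rw [Real.mul_rpow (by norm_num) (by positivity), rpow_six ε' X hX 3]
      norm_num
    have e6 : X ^ (3 * ε') * X ^ (3 * ε') ≤ X ^ ε := by
      rw [← Real.rpow_add hX0]
      apply hXe1
      rw [hε']; linarith
    calc C₁ * (8 * X ^ 3) ^ ε' * (9 * δ ^ 2 * X ^ 3) * ∑ n ∈ F, (1 : ℝ) / ((n : ℝ) * rd n)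
        ≤ C₁ * (8 * X ^ 3) ^ ε' * (9 * δ ^ 2 * X ^ 3) * (C₄ * (8 * X ^ 3) ^ ε' / T) := by
          apply mul_le_mul_of_nonneg_left h4 (by positivity)
      _ = 9 * C₁ * 8 ^ ε' * C₄ * 8 ^ ε' * (X ^ (3 * ε') * X ^ (3 * ε')) * (δ ^ 2 * X ^ 3 / T) := by
          rw [e5]; ring
      _ ≤ 9 * C₁ * 8 ^ ε' * C₄ * 8 ^ ε' * X ^ ε * (2 * R) := by gcongr
      _ = _ := by ring
  -- (3) medium moduli
  have b3 : (S₃.card : ℝ) ≤ C₂ * (C₅ + 2 * C₄ + C₄) * (X ^ ε * R) := by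
    have hnS : ∀ e ∈ S₃, e ∈ S'' ∧ mf (nf e) ≤ Y := fun e he => mem_filter.1 he
    set F := S₃.image nf with hF
    have hFn : ∀ n ∈ F, 1 ≤ n ∧ T ≤ (n : ℝ) ∧ n ∈ NN Y ∧ 2 * δ < (mf n : ℝ) ∧
        (mf n : ℝ) ≤ 50 * X ^ 3 := by
      intro n hn
      obtain ⟨e, he, rfl⟩ := mem_image.1 hn
      obtain ⟨h1, h2⟩ := hnS e he
      obtain ⟨h3, h4⟩ := hmem'' e h1
      obtain ⟨g1, g2, g3, g4, g5, g6⟩ := hmf (nf e) (hn1 e h3)
      have h5 : rd (nf e) ≤ Y := (Nat.le_of_dvd g5 g4).trans h2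
      exact ⟨hn1 e h3, hnT e h3, mem_NN (hn1 e h3) hTY (hnmin e h3) h5, hmlow e h1⟩
    have hFX : ∀ n ∈ F, 1 ≤ n ∧ (n : ℝ) ≤ X ^ 4 := by
      intro n hn
      obtain ⟨k1, -, k3, -⟩ := hFn n hn
      refine ⟨k1, ?_⟩
      have h1 := (NN_bound k3).2
      have h2 : (n : ℝ) ≤ Y * Y := by exact_mod_cast h1
      calc (n : ℝ) ≤ Y * Y := h2
        _ ≤ X ^ 2 * X ^ 2 := by gcongr
        _ = _ := by ring
    have hX4 : (1 : ℝ) ≤ X ^ 4 := one_le_pow₀ hX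
    have h1 := card_fib_sum S₃ nf F (fun n => C₂ * X ^ ε' * (X + X ^ 3 * (1 / (rd n : ℝ)) +
      δ ^ 2 * X ^ 3 * (1 / ((n : ℝ) * rd n)))) (fun e he => mem_image_of_mem _ he) (by
      intro n hn
      obtain ⟨k1, k2, k3, k4, k5⟩ := hFn n hn
      obtain ⟨g1, g2, g3, g4, g5, g6⟩ := hmf n k1
      have h2 := hcm X δ (mf n) (m₀f n) hX hδ hδX hδ1 k4 k5 g6 g2 g3
        (S₃.filter (fun e => nf e = n)) (by
        intro e he
        obtain ⟨a1, a2⟩ := mem_filter.1 he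
        have := hHas e (hnS e a1).1
        rwa [a2] at this)
      refine h2.trans ?_
      have hrR : (0 : ℝ) < rd n := by exact_mod_cast rd_pos n
      have hmR : (rd n : ℝ) ≤ mf n := by exact_mod_cast Nat.le_of_dvd g5 g4
      have hmpos : (0 : ℝ) < mf n := by exact_mod_cast g5
      have e1 : (mf n : ℝ) ^ 2 * m₀f n = (n : ℝ) * rd n := by exact_mod_cast g1
      rw [e1]
      apply mul_le_mul_of_nonneg_left _ (by positivity)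
      have e2 : δ * X ^ 2 / mf n ≤ X ^ 3 * (1 / (rd n : ℝ)) := by
        rw [mul_one_div]
        calc δ * X ^ 2 / mf n ≤ X * X ^ 2 / (rd n : ℝ) := by gcongr
          _ = _ := by ring
      have e3 : δ ^ 2 * X ^ 3 / ((n : ℝ) * rd n) = δ ^ 2 * X ^ 3 * (1 / ((n : ℝ) * rd n)) := by
        rw [mul_one_div]
      rw [e3]
      linarith)
    refine h1.trans ?_
    rw [← mul_sum, sum_add_distrib, sum_add_distrib, ← mul_sum, ← mul_sum]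
    have h3 := hrs F (X ^ 4) hX4 hFX
    have h4 := sum_inv _ T hT0 F (fun n hn => ⟨(hFn n hn).1, (hFn n hn).2.1⟩) h3
    have h5 : ∑ _n ∈ F, X ≤ C₅ * X ^ (2 * ε') * X ^ 3 := by
      rw [sum_const, nsmul_eq_mul]
      have h6 : F ⊆ NN Y := fun n hn => (hFn n hn).2.2.1
      have h7 : (F.card : ℝ) ≤ ((NN Y).card : ℝ) := by exact_mod_cast card_le_card h6
      have h8 := hNN Y hY1
      have h9 : (Y : ℝ) ^ (1 + ε') ≤ X ^ (2 * ε') * X ^ 2 := by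
        calc (Y : ℝ) ^ (1 + ε') ≤ (X ^ 2) ^ (1 + ε') :=
              Real.rpow_le_rpow (by positivity) hYX (by positivity)
          _ = X ^ (2 * ε') * X ^ 2 := by
              rw [rpow_six (1 + ε') X hX 2, ← Real.rpow_natCast X 2, ← Real.rpow_add hX0]
              congr 1
              push_cast
              ring
      calc (F.card : ℝ) * X ≤ (C₅ * (X ^ (2 * ε') * X ^ 2)) * X := by
            apply mul_le_mul_of_nonneg_right _ hX0.le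
            exact h7.trans (h8.trans (by gcongr))
        _ = _ := by ring
    rw [rpow_six ε' X hX 4] at h3 h4
    have e7 : X ^ ε' * X ^ (2 * ε') ≤ X ^ ε := by
      rw [← Real.rpow_add hX0]
      apply hXe1
      rw [hε']; linarith
    have e8 : X ^ ε' * X ^ (((4 : ℕ) : ℝ) * ε') ≤ X ^ ε := by
      rw [← Real.rpow_add hX0]
      apply hXe1
      rw [hε']; push_cast; linarith
    set W : ℝ := X ^ (((4 : ℕ) : ℝ) * ε') with hW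
    have hW0 : 0 < W := by rw [hW]; positivity
    calc C₂ * X ^ ε' * (∑ _n ∈ F, X + X ^ 3 * ∑ n ∈ F, (1 : ℝ) / (rd n : ℝ) +
          δ ^ 2 * X ^ 3 * ∑ n ∈ F, (1 : ℝ) / ((n : ℝ) * rd n))
        ≤ C₂ * X ^ ε' * (C₅ * X ^ (2 * ε') * X ^ 3 + X ^ 3 * (C₄ * W) +
          δ ^ 2 * X ^ 3 * (C₄ * W / T)) := by gcongr
      _ = C₂ * C₅ * (X ^ ε' * X ^ (2 * ε')) * X ^ 3 + C₂ * C₄ * (X ^ ε' * W) * X ^ 3 +
          C₂ * C₄ * (X ^ ε' * W) * (δ ^ 2 * X ^ 3 / T) := by ring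
      _ ≤ C₂ * C₅ * X ^ ε * R + C₂ * C₄ * X ^ ε * R + C₂ * C₄ * X ^ ε * (2 * R) := by gcongr
      _ = _ := by ring
  -- (4) large moduli
  have b4 : (S₄.card : ℝ) ≤ C₃ * (X ^ ε * R) := by
    have h2X : 2 * δ < X ^ 2 := by nlinarith
    have h1 := hcb X δ (X ^ 2) hX hδ hδX hδ1 h2X hX21 S₄ (by
      intro e he
      obtain ⟨a1, a2⟩ := mem_filter.1 he
      refine ⟨mf (nf e), ?_, (hmlow e a1).2, hHas1 e a1⟩
      push Not at a2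
      have h3 : Y + 1 ≤ mf (nf e) := a2
      have h4 : ((Y : ℝ) + 1) ≤ mf (nf e) := by exact_mod_cast h3
      have h5 := Nat.lt_floor_add_one (X ^ 2)
      rw [← hY] at h5
      linarith)
    have e1 : δ * X ^ 4 / X ^ 2 ≤ R := by
      calc δ * X ^ 4 / X ^ 2 = δ * X ^ 2 := by field_simp
        _ ≤ X * X ^ 2 := by gcongr
        _ = X ^ 3 := by ring
        _ ≤ R := hRX
    calc (S₄.card : ℝ) ≤ C₃ * X ^ ε' * (δ * X ^ 4 / X ^ 2) := h1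
      _ ≤ C₃ * X ^ ε * R := by
          have := hXe1 ε' (by rw [hε']; linarith)
          gcongr
      _ = _ := by ring
  rw [hsplit]
  calc (S₁.card : ℝ) + (S₂.card + (S₃.card + S₄.card)) ≤ 21 * (X ^ ε * R) +
        (9 * C₁ * 8 ^ ε' * C₄ * 8 ^ ε' * 2 * (X ^ ε * R) +
          (C₂ * (C₅ + 2 * C₄ + C₄) * (X ^ ε * R) + C₃ * (X ^ ε * R))) := by linarith
    _ ≤ 36 * (X ^ ε * R) + (21 * (X ^ ε * R) +
        (9 * C₁ * 8 ^ ε' * C₄ * 8 ^ ε' * 2 * (X ^ ε * R) +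
          (C₂ * (C₅ + 2 * C₄ + C₄) * (X ^ ε * R) + C₃ * (X ^ ε * R)))) := by linarith
    _ = _ := by ring

end Run7.h577.S
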