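import Mathlib
import Pool.Agent.Run7.h577.SK

/-!
The count in a box: dyadic decomposition of the height and of the discriminant.
-/

set_option autoImplicit false

namespace Run7.h577.S

open Finset

/-- the height of a pair -/
noncomputable def HH (c d : ℤ) : ℝ := max (|(c : ℝ)| ^ 3) ((d : ℝ) ^ 2)

theorem reg_pos (X δ : ℝ) (c d : ℤ) (hX : 1 ≤ X) (hδ : 0 < δ) (hc : 0 < c)
    (hcX : |(c : ℝ)| ≤ X ^ 2) (hD : |(d : ℝ) ^ 2 - (c : ℝ) ^ 3| ≤ δ ^ 2 * X ^ 4 / 8)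
    (hH : X ^ 6 ≤ 64 * HH c d) : ∃ i : Fin 3, Reg X δ c d (tau i c) := by
  have hX0 : 0 < X := by linarith
  have hcR : (0 : ℝ) < c := by exact_mod_cast hc
  set s := √(c : ℝ) with hs
  have hs0 : 0 < s := Real.sqrt_pos.2 hcR
  have hss : s ^ 2 = c := Real.sq_sqrt hcR.le
  have hs3 : (s ^ 3) ^ 2 = (c : ℝ) ^ 3 := by rw [← hss]; ring
  have hsX : |s| ≤ X := by
    rw [abs_of_pos hs0]
    rw [abs_of_pos hcR, ← hss] at hcX
    by_contra hc
    push Not at hc
    nlinarith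
  -- the main estimate
  have key : ∀ τ : ℝ, (τ = s ∧ 0 ≤ d) ∨ (τ = -s ∧ d < 0) → |(d : ℝ) - τ ^ 3| ≤ δ ^ 2 * X := by
    intro τ hτ
    have h1 : |(d : ℝ) + τ ^ 3| = |(d : ℝ)| + s ^ 3 := by
      rcases hτ with ⟨rfl, h⟩ | ⟨rfl, h⟩
      · have hd : (0 : ℝ) ≤ d := by exact_mod_cast h
        rw [abs_of_nonneg (by positivity), abs_of_nonneg hd]
      · have hd : (d : ℝ) < 0 := by exact_mod_cast h
        have e : (d : ℝ) + (-s) ^ 3 = -(-(d : ℝ) + s ^ 3) := by ring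
        rw [e, abs_neg, abs_of_neg hd, abs_of_nonneg]
        have : 0 < s ^ 3 := by positivity
        linarith
    have h2 : ((d : ℝ) - τ ^ 3) * ((d : ℝ) + τ ^ 3) = (d : ℝ) ^ 2 - (c : ℝ) ^ 3 := by
      rcases hτ with ⟨rfl, h⟩ | ⟨rfl, h⟩
      · rw [← hs3]; ring
      · rw [← hs3]; ring
    have h3 : X ^ 3 ≤ 8 * (|(d : ℝ)| + s ^ 3) := by
      have h4 : HH c d ≤ (|(d : ℝ)| + s ^ 3) ^ 2 := by
        unfold HH
        apply max_le
        · rw [abs_of_pos hcR, ← hs3]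
          have : 0 ≤ |(d : ℝ)| := abs_nonneg _
          have h5 : 0 < s ^ 3 := by positivity
          gcongr
          linarith
        · rw [← sq_abs (d : ℝ)]
          have h5 : 0 < s ^ 3 := by positivity
          gcongr
          linarith
      have h6 : (X ^ 3) ^ 2 ≤ (8 * (|(d : ℝ)| + s ^ 3)) ^ 2 := by
        calc (X ^ 3) ^ 2 = X ^ 6 := by ring
          _ ≤ 64 * HH c d := hH
          _ ≤ 64 * (|(d : ℝ)| + s ^ 3) ^ 2 := by gcongr
          _ = _ := by ring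
      exact (pow_le_pow_iff_left₀ (by positivity) (by positivity) (by norm_num)).1 h6
    have h5 : |(d : ℝ) - τ ^ 3| * (|(d : ℝ)| + s ^ 3) ≤ δ ^ 2 * X ^ 4 / 8 := by
      rw [← h1, ← abs_mul, h2]; exact hD
    have h6 : |(d : ℝ) - τ ^ 3| * X ^ 3 ≤ δ ^ 2 * X * X ^ 3 := by
      calc |(d : ℝ) - τ ^ 3| * X ^ 3 ≤ |(d : ℝ) - τ ^ 3| * (8 * (|(d : ℝ)| + s ^ 3)) := by gcongr
        _ = 8 * (|(d : ℝ) - τ ^ 3| * (|(d : ℝ)| + s ^ 3)) := by ring
        _ ≤ 8 * (δ ^ 2 * X ^ 4 / 8) := by gcongr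
        _ = _ := by ring
    exact le_of_mul_le_mul_right h6 (by positivity)
  rcases le_or_gt 0 d with hd | hd
  · refine ⟨0, ?_, ?_, ?_⟩
    · simp only [tau, if_true]; exact hsX
    · simp only [tau, if_true]
      rw [← hs, hss, sub_self, abs_zero]
      positivity
    · simp only [tau, if_true]
      rw [← hs]
      have h1 := key s (Or.inl ⟨rfl, hd⟩)
      have e : s ^ 3 - 3 * (c : ℝ) * s + 2 * d = 2 * ((d : ℝ) - s ^ 3) := by rw [← hss]; ring
      rw [e, abs_mul, abs_of_pos (by norm_num : (0 : ℝ) < 2)]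
      linarith
  · refine ⟨1, ?_, ?_, ?_⟩
    · simp only [tau, if_true, one_ne_zero, if_false]
      rw [abs_neg]; exact hsX
    · simp only [tau, if_true, one_ne_zero, if_false]
      rw [← hs, neg_sq, hss, sub_self, abs_zero]
      positivity
    · simp only [tau, if_true, one_ne_zero, if_false]
      rw [← hs]
      have h1 := key (-s) (Or.inr ⟨rfl, hd⟩)
      have e : (-s) ^ 3 - 3 * (c : ℝ) * (-s) + 2 * d = 2 * ((d : ℝ) - (-s) ^ 3) := by
        rw [← hss]; ring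
      rw [e, abs_mul, abs_of_pos (by norm_num : (0 : ℝ) < 2)]
      linarith

theorem reg_zero (X : ℝ) (c d : ℤ) (hcX : |(c : ℝ)| ≤ X ^ 2) (hdX : |(d : ℝ)| ≤ X ^ 3) (hX : 0 ≤ X) :
    ∃ i : Fin 3, Reg X X c d (tau i c) := by
  refine ⟨2, ?_, ?_, ?_⟩
  · simp [tau]; exact hX
  · simp [tau]
    calc |(c : ℝ)| ≤ X ^ 2 := hcX
      _ = X * X := by ring
  · simp [tau]
    calc 2 * |(d : ℝ)| ≤ 2 * X ^ 3 := by gcongr
      _ = _ := by ring

/-- the largest power of `1/2` -/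
theorem dyadic_low (a b : ℝ) (ha : 0 < a) (hab : a ≤ b) (q : ℝ) (hq : 1 < q) :
    ∃ k : ℕ, a * q ^ k ≤ b ∧ b < a * q ^ (k + 1) := by
  classical
  have hex : ∃ k : ℕ, b < a * q ^ (k + 1) := by
    obtain ⟨n, hn⟩ := pow_unbounded_of_one_lt (b / a) hq
    refine ⟨n, ?_⟩
    rw [div_lt_iff₀ ha] at hn
    have : q ^ n ≤ q ^ (n + 1) := pow_le_pow_right₀ hq.le (Nat.le_succ n)
    nlinarith
  refine ⟨Nat.find hex, ?_, Nat.find_spec hex⟩
  rcases Nat.eq_zero_or_pos (Nat.find hex) with h0 | h0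
  · rw [h0, pow_zero, mul_one]; exact hab
  · have h5 := Nat.find_min hex (m := Nat.find hex - 1) (by omega)
    push Not at h5
    have e : Nat.find hex - 1 + 1 = Nat.find hex := by omega
    rw [e] at h5
    exact h5

/-- the hypotheses on a pair `(c, d)` of conductor at most `N` -/
def HypA (K N : ℝ) (c d : ℤ) : Prop :=
  d ^ 2 - c ^ 3 ≠ 0 ∧ ∃ n₀ : ℕ, 1 ≤ n₀ ∧ |((d ^ 2 - c ^ 3 : ℤ) : ℝ)| ≤ K * n₀ * N ∧
    ∀ n : ℕ, n ∣ n₀ → IsCoprime c ((n * rd n : ℕ) : ℤ) ∧ ((n * rd n : ℕ) : ℤ) ∣ d ^ 2 - c ^ 3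

/-- COUNT in a box -/
theorem count_A (ε K A σ : ℝ) (hε : 0 < ε) (hK : 0 < K) (hA : 0 < A) (hσ : 0 < σ) (hσ6 : σ ≤ 6) :
    ∃ C : ℝ, 0 < C ∧ ∀ X : ℝ, 1 ≤ X → ∀ S : Finset (ℤ × ℤ),
    (∀ e ∈ S, |(e.1 : ℝ)| ≤ X ^ 2 ∧ |(e.2 : ℝ)| ≤ X ^ 3 ∧
      HypA K (A * (HH e.1 e.2) ^ (1 / σ)) e.1 e.2) →
    (S.card : ℝ) ≤ C * X ^ ε * (X ^ (6 / σ - 1) + X ^ 3) := by
  classical
  set ε' := ε / 5 with hε'
  have hε'0 : 0 < ε' := by positivity
  obtain ⟨C₁, hC₁, hK'⟩ := count_K ε' hε'0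
  obtain ⟨C₂, hC₂, hlog⟩ := two_pow_log ε' hε'0
  refine ⟨C₁ * (64 * K * A + 1) * C₂ * C₂, by positivity, fun X hX S hS => ?_⟩
  have hX0 : 0 < X := by linarith
  -- facts for a pair
  have hdat : ∀ e ∈ S, ∃ k i : ℕ, (2 : ℝ) ^ k ≤ X ∧ (2 : ℝ) ^ i ≤ X ^ 3 ∧
      1 ≤ X / 2 ^ k ∧ 1 ≤ (X / 2 ^ k / 2 ^ i) * (X / 2 ^ k) ^ 2 ∧
      Hyp (X / 2 ^ k) (X / 2 ^ k / 2 ^ i)
        ((X / 2 ^ k / 2 ^ i) ^ 2 * (X / 2 ^ k) ^ 4 / (64 * K * (A * (X / 2 ^ k) ^ (6 / σ))))
        e.1 e.2 := by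
    intro e he
    obtain ⟨hc, hd, hD0, n₀, hn₀, hn, hdiv⟩ := hS e he
    set H := HH e.1 e.2 with hH
    set D : ℝ := |((e.2 ^ 2 - e.1 ^ 3 : ℤ) : ℝ)| with hD
    have hD1 : 1 ≤ D := by
      rw [hD]
      have := Int.one_le_abs hD0
      exact_mod_cast this
    have hDH : D ≤ 2 * H := by
      rw [hD, hH]
      push_cast
      refine (abs_sub _ _).trans ?_
      rw [abs_pow, abs_pow, sq_abs]
      unfold HH
      have := le_max_left (|(e.1 : ℝ)| ^ 3) ((e.2 : ℝ) ^ 2)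
      have := le_max_right (|(e.1 : ℝ)| ^ 3) ((e.2 : ℝ) ^ 2)
      linarith
    have hH1 : 1 ≤ H := by
      rw [hH]
      unfold HH
      by_cases h : e.1 = 0
      · have h2 : e.2 ≠ 0 := by
          intro h2
          apply hD0
          rw [h, h2]; norm_num
        apply le_max_of_le_right
        have : (1 : ℤ) ≤ e.2 ^ 2 := by
          have := Int.one_le_abs h2
          nlinarith [sq_abs e.2]
        exact_mod_cast this
      · apply le_max_of_le_left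
        have : (1 : ℝ) ≤ |(e.1 : ℝ)| := by
          have := Int.one_le_abs h
          exact_mod_cast this
        exact one_le_pow₀ this
    have hHX : H ≤ X ^ 6 := by
      rw [hH]
      unfold HH
      apply max_le
      · calc |(e.1 : ℝ)| ^ 3 ≤ (X ^ 2) ^ 3 := by gcongr
          _ = _ := by ring
      · rw [← sq_abs]
        calc |(e.2 : ℝ)| ^ 2 ≤ (X ^ 3) ^ 2 := by gcongr
          _ = _ := by ring
    have hH0 : 0 < H := by linarith
    obtain ⟨k, hk1, hk2⟩ := dyadic_low H (X ^ 6) hH0 hHX 64 (by norm_num)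
    set Y : ℝ := X / 2 ^ k with hY
    have h2k : (0 : ℝ) < 2 ^ k := by positivity
    have hY0 : 0 < Y := by positivity
    have e64 : (64 : ℝ) ^ k = (2 ^ k) ^ 6 := by
      rw [← pow_mul, mul_comm, pow_mul]; norm_num
    have hY6 : Y ^ 6 = X ^ 6 / 64 ^ k := by
      rw [hY, div_pow, e64]
    have hHY : H ≤ Y ^ 6 := by
      rw [hY6, le_div_iff₀ (by positivity)]; exact hk1
    have hYH : Y ^ 6 ≤ 64 * H := by
      rw [hY6, div_le_iff₀ (by positivity)]
      have : H * 64 ^ (k + 1) = 64 * H * 64 ^ k := by rw [pow_succ]; ring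
      linarith
    have hY1 : 1 ≤ Y := by
      by_contra hc
      push Not at hc
      have : Y ^ 6 < 1 := pow_lt_one₀ hY0.le hc (by norm_num)
      linarith
    have hkX : (2 : ℝ) ^ k ≤ X := by
      rw [hY, le_div_iff₀ h2k] at hY1; linarith
    have hYX : Y ≤ X := by
      rw [hY]; exact div_le_self hX0.le (one_le_pow₀ (by norm_num))
    have hcY : |(e.1 : ℝ)| ≤ Y ^ 2 := by
      have h1 : |(e.1 : ℝ)| ^ 3 ≤ (Y ^ 2) ^ 3 := by
        calc |(e.1 : ℝ)| ^ 3 ≤ H := le_max_left _ _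
          _ ≤ Y ^ 6 := hHY
          _ = _ := by ring
      exact (pow_le_pow_iff_left₀ (abs_nonneg _) (by positivity) (by norm_num)).1 h1
    have hdY : |(e.2 : ℝ)| ≤ Y ^ 3 := by
      have h1 : |(e.2 : ℝ)| ^ 2 ≤ (Y ^ 3) ^ 2 := by
        calc |(e.2 : ℝ)| ^ 2 = (e.2 : ℝ) ^ 2 := sq_abs _
          _ ≤ H := le_max_right _ _
          _ ≤ Y ^ 6 := hHY
          _ = _ := by ring
      exact (pow_le_pow_iff_left₀ (abs_nonneg _) (by positivity) (by norm_num)).1 h1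
    have hHpow : H ^ (1 / σ) ≤ Y ^ (6 / σ) := by
      have h1 : Y ^ (6 / σ) = (Y ^ 6) ^ (1 / σ) := by
        rw [← Real.rpow_natCast Y 6, ← Real.rpow_mul hY0.le]
        congr 1
        push_cast
        ring
      rw [h1]
      exact Real.rpow_le_rpow hH0.le hHY (by positivity)
    have hdivs : ∀ n : ℕ, n ∣ n₀ → IsCoprime e.1 ((n * rd n : ℕ) : ℤ) ∧
        ((n * rd n : ℕ) : ℤ) ∣ e.2 ^ 2 - e.1 ^ 3 ∧ ((n * rd n : ℕ) : ℝ) ≤ 2 * Y ^ 6 := by
      intro n hnn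
      obtain ⟨g1, g2⟩ := hdiv n hnn
      refine ⟨g1, g2, ?_⟩
      have h1 := Int.le_of_dvd (abs_pos.2 hD0) ((dvd_abs _ _).2 g2)
      have h2 : ((n * rd n : ℕ) : ℝ) ≤ D := by
        rw [hD, ← Int.cast_abs]
        exact_mod_cast h1
      linarith
    -- the lower bound for `n₀`
    have hn0 : ∀ δ : ℝ, δ ^ 2 * Y ^ 4 ≤ 64 * D →
        δ ^ 2 * Y ^ 4 / (64 * K * (A * Y ^ (6 / σ))) ≤ n₀ := by
      intro δ hδ
      rw [div_le_iff₀ (by positivity)]
      have hn₀R : (0 : ℝ) < n₀ := by exact_mod_cast hn₀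
      calc δ ^ 2 * Y ^ 4 ≤ 64 * D := hδ
        _ ≤ 64 * (K * n₀ * (A * H ^ (1 / σ))) := by gcongr
        _ ≤ 64 * (K * n₀ * (A * Y ^ (6 / σ))) := by gcongr
        _ = _ := by ring
    by_cases hgen : 0 < e.1 ∧ D ≤ Y ^ 6 / 8
    · obtain ⟨i, hi1, hi2⟩ := dyadic_low D (Y ^ 6 / 8) (by linarith) hgen.2 4 (by norm_num)
      have e4 : (4 : ℝ) ^ i = (2 ^ i) ^ 2 := by
        rw [← pow_mul, mul_comm, pow_mul]; norm_num
      have h2i : (0 : ℝ) < 2 ^ i := by positivity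
      have hδ2 : (Y / 2 ^ i) ^ 2 * Y ^ 4 = Y ^ 6 / 4 ^ i := by
        rw [div_pow, e4]; field_simp
      have hlow : D ≤ (Y / 2 ^ i) ^ 2 * Y ^ 4 / 8 := by
        rw [hδ2, div_div, mul_comm, ← div_div, le_div_iff₀ (by positivity)]
        linarith
      have hup : (Y / 2 ^ i) ^ 2 * Y ^ 4 ≤ 64 * D := by
        rw [hδ2, div_le_iff₀ (by positivity)]
        have : D * 4 ^ (i + 1) = 4 * D * 4 ^ i := by rw [pow_succ]; ring
        have h0 : 0 < D * 4 ^ i := by positivity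
        linarith
      have hone : 1 ≤ (Y / 2 ^ i) * Y ^ 2 := by
        have h1 : 1 ^ 2 ≤ ((Y / 2 ^ i) * Y ^ 2) ^ 2 := by
          have e : ((Y / 2 ^ i) * Y ^ 2) ^ 2 = (Y / 2 ^ i) ^ 2 * Y ^ 4 := by ring
          rw [e]
          linarith
        exact (pow_le_pow_iff_left₀ (by norm_num) (by positivity) (by norm_num)).1 h1
      refine ⟨k, i, hkX, ?_, hY1, hone, hcY, hdY, ?_, n₀, hn₀, hn0 _ hup, hdivs⟩
      · have h1 : (2 : ℝ) ^ i ≤ Y ^ 3 := by
          have h2 : (Y / 2 ^ i) * Y ^ 2 = Y ^ 3 / 2 ^ i := by ring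
          rw [h2, le_div_iff₀ h2i] at hone
          linarith
        exact h1.trans (by gcongr)
      · apply reg_pos Y _ e.1 e.2 hY1 (by positivity) hgen.1 hcY _ hYH
        rw [hD] at hlow
        push_cast at hlow
        exact hlow
    · have hup : Y ^ 2 * Y ^ 4 ≤ 64 * D := by
        rw [not_and_or] at hgen
        rcases hgen with h | h
        · -- `c ≤ 0`
          have hc0 : (e.1 : ℝ) ≤ 0 := by
            have : e.1 ≤ 0 := not_lt.1 h
            exact_mod_cast this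
          have h1 : D = |(e.1 : ℝ)| ^ 3 + (e.2 : ℝ) ^ 2 := by
            rw [hD]
            push_cast
            have e5 : (e.2 : ℝ) ^ 2 - (e.1 : ℝ) ^ 3 = |(e.1 : ℝ)| ^ 3 + (e.2 : ℝ) ^ 2 := by
              rw [abs_of_nonpos hc0]; ring
            rw [e5]
            exact abs_of_nonneg (by positivity)
          have h2 : H ≤ D := by
            rw [h1, hH]
            unfold HH
            apply max_le
            · have : 0 ≤ (e.2 : ℝ) ^ 2 := by positivity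
              linarith
            · have : 0 ≤ |(e.1 : ℝ)| ^ 3 := by positivity
              linarith
          calc Y ^ 2 * Y ^ 4 = Y ^ 6 := by ring
            _ ≤ 64 * H := hYH
            _ ≤ _ := by gcongr
        · push Not at h
          have : Y ^ 2 * Y ^ 4 = Y ^ 6 := by ring
          rw [this]
          linarith
      refine ⟨k, 0, hkX, ?_, hY1, ?_, hcY, hdY, ?_, n₀, hn₀, ?_, hdivs⟩
      · rw [pow_zero]; exact one_le_pow₀ hX
      · rw [pow_zero, div_one]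
        have : Y * Y ^ 2 = Y ^ 3 := by ring
        rw [this]
        exact one_le_pow₀ hY1
      · rw [pow_zero, div_one]
        exact reg_zero Y e.1 e.2 hcY hdY hY0.le
      · rw [pow_zero, div_one]
        exact hn0 Y hup
  choose! kf jf hf using hdat
  set Q : ℝ := X ^ (6 / σ - 1) + X ^ 3 with hQ
  have hQ0 : 0 < Q := by positivity
  have h1 := card_fib S (fun e => (kf e, jf e)) (C₁ * X ^ ε' * ((64 * K * A + 1) * Q)) (by
    rintro ⟨k, i⟩ hb
    obtain ⟨e₀, he₀, hki⟩ := mem_image.1 hb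
    simp only [Prod.mk.injEq] at hki
    obtain ⟨a1, a2, a3, a4, -⟩ := hf e₀ he₀
    rw [hki.1] at a1 a3 a4
    rw [hki.2] at a2 a4
    set Y : ℝ := X / 2 ^ k with hY
    set δ : ℝ := Y / 2 ^ i with hδ
    have hY0 : 0 < Y := by linarith
    have hδ0 : 0 < δ := by positivity
    have hδY : δ ≤ Y := div_le_self hY0.le (one_le_pow₀ (by norm_num))
    have hYX : Y ≤ X := by
      rw [hY]; exact div_le_self hX0.le (one_le_pow₀ (by norm_num))
    set T : ℝ := δ ^ 2 * Y ^ 4 / (64 * K * (A * Y ^ (6 / σ))) with hT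
    have hT0 : 0 < T := by positivity
    have h2 := hK' Y δ T a3 hδ0 hδY a4 hT0 (S.filter (fun e => (kf e, jf e) = (k, i))) (by
      intro e he
      obtain ⟨b1, b2⟩ := mem_filter.1 he
      simp only [Prod.mk.injEq] at b2
      have := (hf e b1).2.2.2.2
      rw [b2.1, b2.2] at this
      exact this)
    refine h2.trans ?_
    have e1 : δ ^ 2 * Y ^ 3 / T = 64 * K * A * Y ^ (6 / σ - 1) := by
      have e2 : Y ^ (6 / σ) = Y ^ (6 / σ - 1) * Y := by
        rw [← Real.rpow_add_one hY0.ne']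
        congr 1
        ring
      rw [hT, e2]
      field_simp
    rw [e1]
    have e3 : Y ^ (6 / σ - 1) ≤ X ^ (6 / σ - 1) := by
      apply Real.rpow_le_rpow hY0.le hYX
      rw [sub_nonneg, le_div_iff₀ hσ]
      linarith
    have e4 : Y ^ ε' ≤ X ^ ε' := Real.rpow_le_rpow hY0.le hYX hε'0.le
    calc C₁ * Y ^ ε' * (64 * K * A * Y ^ (6 / σ - 1) + Y ^ 3) ≤
          C₁ * X ^ ε' * (64 * K * A * X ^ (6 / σ - 1) + X ^ 3) := by gcongr
      _ ≤ _ := by
          rw [hQ]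
          have h3 : 0 < X ^ (6 / σ - 1) := by positivity
          have h4 : 0 < X ^ 3 := by positivity
          have h5 : 0 < 64 * K * A := by positivity
          gcongr
          nlinarith)
  -- the number of the pairs `(k, i)`
  rcases S.eq_empty_or_nonempty with h | hSne
  · rw [h, card_empty, Nat.cast_zero]; positivity
  have hne : (S.image kf).Nonempty := hSne.image _
  have hne' : (S.image jf).Nonempty := hSne.image _
  set J := (S.image kf).max' hne with hJ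
  set L := (S.image jf).max' hne' with hL
  obtain ⟨e, he, heJ⟩ := mem_image.1 ((S.image kf).max'_mem hne)
  obtain ⟨e', he', heL⟩ := mem_image.1 ((S.image jf).max'_mem hne')
  have hJb : (J : ℝ) + 1 ≤ C₂ * X ^ ε' := by
    have := (hf e he).1
    rw [heJ] at this
    exact hlog _ J hX this
  have hLb : (L : ℝ) + 1 ≤ C₂ * (X ^ 3) ^ ε' := by
    have := (hf e' he').2.1
    rw [heL] at this
    exact hlog _ L (one_le_pow₀ hX) this
  rw [rpow_six ε' X hX 3] at hLb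
  have hsub : S.image (fun e => (kf e, jf e)) ⊆ range (J + 1) ×ˢ range (L + 1) := by
    intro b hb
    obtain ⟨e, he, rfl⟩ := mem_image.1 hb
    rw [mem_product, mem_range, mem_range, Nat.lt_succ_iff, Nat.lt_succ_iff]
    exact ⟨(S.image kf).le_max' _ (mem_image_of_mem _ he),
      (S.image jf).le_max' _ (mem_image_of_mem _ he)⟩
  have hcard : ((S.image (fun e => (kf e, jf e))).card : ℝ) ≤ ((J : ℝ) + 1) * ((L : ℝ) + 1) := by
    have := card_le_card hsub
    rw [card_product, card_range, card_range] at this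
    exact_mod_cast this
  have e7 : X ^ ε' * (X ^ ε' * X ^ (((3 : ℕ) : ℝ) * ε')) = X ^ ε := by
    rw [← Real.rpow_add hX0, ← Real.rpow_add hX0]
    congr 1
    rw [hε']; push_cast; ring
  calc (S.card : ℝ) ≤ C₁ * X ^ ε' * ((64 * K * A + 1) * Q) *
        ((S.image (fun e => (kf e, jf e))).card : ℝ) := h1
    _ ≤ C₁ * X ^ ε' * ((64 * K * A + 1) * Q) *
        ((C₂ * X ^ ε') * (C₂ * X ^ (((3 : ℕ) : ℝ) * ε'))) := by
        apply mul_le_mul_of_nonneg_left _ (by positivity)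
        refine hcard.trans ?_
        apply mul_le_mul hJb hLb (by positivity) (by positivity)
    _ = C₁ * (64 * K * A + 1) * C₂ * C₂ * (X ^ ε' * (X ^ ε' * X ^ (((3 : ℕ) : ℝ) * ε'))) * Q := by
        ring
    _ = _ := by rw [e7]

end Run7.h577.S
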