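import Mathlib
import Pool.Agent.Run7.h577.SL
import Pool.Agent.R417.LD.Gen

/-!
Semistable curves: the upper and the lower bound.
-/

set_option autoImplicit false

namespace Run7.h577.S

open Finset Filter Topology

/-- the conductor of a semistable curve -/
def cond (W : WeierstrassCurve ℤ) : ℕ := ∏ p ∈ W.Δ.natAbs.primeFactors, p

theorem hypA_semi (W : WeierstrassCurve ℤ) (hΔ : W.Δ ≠ 0) (hc : IsCoprime W.c₄ W.Δ) (N : ℝ)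
    (hN : (cond W : ℝ) ≤ N) : HypA 1728 N W.c₄ W.c₆ := by
  have hrel : W.c₆ ^ 2 - W.c₄ ^ 3 = -(1728 * W.Δ) := by
    have := W.c_relation
    linarith
  have hn0 : W.Δ.natAbs ≠ 0 := Int.natAbs_ne_zero.2 hΔ
  have hcr : cond W = rd W.Δ.natAbs := rfl
  set n₀ := W.Δ.natAbs / rd W.Δ.natAbs with hn₀
  have hmul : n₀ * rd W.Δ.natAbs = W.Δ.natAbs := Nat.div_mul_cancel (rd_dvd _)
  have hn₀1 : 1 ≤ n₀ := by
    rcases Nat.eq_zero_or_pos n₀ with h | h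
    · rw [h, zero_mul] at hmul; exact absurd hmul.symm hn0
    · exact h
  refine ⟨?_, n₀, hn₀1, ?_, ?_⟩
  · rw [hrel]
    intro h
    apply hΔ
    omega
  · rw [hrel]
    have e1 : |((-(1728 * W.Δ) : ℤ) : ℝ)| = 1728 * (W.Δ.natAbs : ℝ) := by
      push_cast
      rw [abs_neg, abs_mul, abs_of_pos (by norm_num : (0 : ℝ) < 1728), Nat.cast_natAbs, Int.cast_abs]
    have e2 : (W.Δ.natAbs : ℝ) = n₀ * (cond W : ℝ) := by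
      rw [hcr]; exact_mod_cast hmul.symm
    rw [e1, e2]
    have : (0 : ℝ) ≤ n₀ := Nat.cast_nonneg _
    calc 1728 * ((n₀ : ℝ) * (cond W : ℝ)) = 1728 * n₀ * (cond W : ℝ) := by ring
      _ ≤ _ := by gcongr
  · intro n hn
    have hd : n * rd n ∣ W.Δ.natAbs := by
      rw [← hmul]
      apply Nat.mul_dvd_mul hn
      apply rd_dvd_of
      intro p hp hpn
      apply prime_dvd_rd hn0 hp
      exact hpn.trans (hn.trans ⟨rd W.Δ.natAbs, hmul.symm⟩)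
    have hdZ : ((n * rd n : ℕ) : ℤ) ∣ W.Δ := Int.natCast_dvd.2 hd
    refine ⟨hc.of_isCoprime_of_dvd_right hdZ, ?_⟩
    rw [hrel]
    exact (Dvd.dvd.mul_left hdZ 1728).neg_right

/-- the semistable curves with `|c₄| ≤ X²`, `|c₆| ≤ X³` and `C N ^ σ ≤ H` -/
def SemH (σ C X : ℝ) : Set (ℤ × ℤ) :=
  {q | ∃ W : WeierstrassCurve ℤ, (W.Δ ≠ 0 ∧ IsCoprime W.c₄ W.Δ) ∧ q = (W.c₄, W.c₆) ∧
    |(W.c₄ : ℝ)| ≤ X ^ 2 ∧ |(W.c₆ : ℝ)| ≤ X ^ 3 ∧ C * (cond W : ℝ) ^ σ ≤ HH W.c₄ W.c₆}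

/-- the semistable curves with `|c₄| ≤ X²`, `|c₆| ≤ X³` and `C N ^ σ ≤ |Δ|` -/
def SemD (σ C X : ℝ) : Set (ℤ × ℤ) :=
  {q | ∃ W : WeierstrassCurve ℤ, (W.Δ ≠ 0 ∧ IsCoprime W.c₄ W.Δ) ∧ q = (W.c₄, W.c₆) ∧
    |(W.c₄ : ℝ)| ≤ X ^ 2 ∧ |(W.c₆ : ℝ)| ≤ X ^ 3 ∧ C * (cond W : ℝ) ^ σ ≤ |(W.Δ : ℝ)|}

theorem box_fin (a b : ℝ) : {q : ℤ × ℤ | |(q.1 : ℝ)| ≤ a ∧ |(q.2 : ℝ)| ≤ b}.Finite := by
  apply Set.Finite.subset (Finset.finite_toSet (Icc (-⌊a⌋) ⌊a⌋ ×ˢ Icc (-⌊b⌋) ⌊b⌋))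
  intro q hq
  rw [mem_coe, mem_product]
  exact ⟨mem_icc_floor hq.1, mem_icc_floor hq.2⟩

theorem semD_sub (σ C X : ℝ) : SemD σ C X ⊆ SemH σ C X := by
  rintro q ⟨W, h1, h2, h3, h4, h5⟩
  refine ⟨W, h1, h2, h3, h4, h5.trans ?_⟩
  have hrel : (1728 : ℝ) * W.Δ = (W.c₄ : ℝ) ^ 3 - (W.c₆ : ℝ) ^ 2 := by
    exact_mod_cast W.c_relation
  have h6 : 1728 * |(W.Δ : ℝ)| ≤ 2 * HH W.c₄ W.c₆ := by
    have e : 1728 * |(W.Δ : ℝ)| = |(1728 : ℝ) * W.Δ| := by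
      rw [abs_mul, abs_of_pos (by norm_num : (0 : ℝ) < 1728)]
    rw [e, hrel]
    refine (abs_sub _ _).trans ?_
    rw [abs_pow, abs_pow, sq_abs]
    have := le_max_left (|(W.c₄ : ℝ)| ^ 3) ((W.c₆ : ℝ) ^ 2)
    have := le_max_right (|(W.c₄ : ℝ)| ^ 3) ((W.c₆ : ℝ) ^ 2)
    unfold HH
    linarith
  have h7 : 0 ≤ |(W.Δ : ℝ)| := abs_nonneg _
  linarith

theorem semH_fin (σ C X : ℝ) : (SemH σ C X).Finite := by
  apply (box_fin (X ^ 2) (X ^ 3)).subset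
  rintro q ⟨W, -, rfl, h3, h4, -⟩
  exact ⟨h3, h4⟩

theorem HH_nonneg (c d : ℤ) : 0 ≤ HH c d := by
  unfold HH
  exact le_max_of_le_left (by positivity)

theorem cond_pos (W : WeierstrassCurve ℤ) : 1 ≤ cond W := rd_pos _

/-- UPPER BOUND -/
theorem semi_up (ε σ C : ℝ) (hε : 0 < ε) (hσ : 0 < σ) (hσ6 : σ ≤ 6) (hC : 0 < C) :
    ∃ K : ℝ, 0 < K ∧ ∀ X : ℝ, 1 ≤ X →
      ((SemH σ C X).ncard : ℝ) ≤ K * X ^ ε * (X ^ (6 / σ - 1) + X ^ 3) := by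
  obtain ⟨K, hK, h⟩ := count_A ε 1728 ((1 / C) ^ (1 / σ)) σ hε (by norm_num) (by positivity) hσ hσ6
  refine ⟨K, hK, fun X hX => ?_⟩
  have hf := semH_fin σ C X
  rw [Set.ncard_eq_toFinset_card _ hf]
  apply h X hX
  intro e he
  rw [Set.Finite.mem_toFinset] at he
  obtain ⟨W, h1, rfl, h3, h4, h5⟩ := he
  refine ⟨h3, h4, hypA_semi W h1.1 h1.2 _ ?_⟩
  have hc1 : (0 : ℝ) < (cond W : ℝ) := by exact_mod_cast cond_pos W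
  have e1 : (cond W : ℝ) = ((cond W : ℝ) ^ σ) ^ (1 / σ) := by
    rw [← Real.rpow_mul hc1.le, mul_one_div_cancel hσ.ne', Real.rpow_one]
  rw [e1, ← Real.mul_rpow (by positivity) (HH_nonneg _ _)]
  apply Real.rpow_le_rpow (by positivity) _ (by positivity)
  rw [one_div, ← div_eq_inv_mul, le_div_iff₀ hC]
  linarith

end Run7.h577.S
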