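import Mathlib
import Pool.Agent.Run7.h577.SM

/-!
Semistable curves: the lower bound and the exponent.
-/

set_option autoImplicit false

namespace Run7.h577.S

open Finset Filter Topology
open Pool.Agent.R417.LD

theorem ev_log (a b δ : ℝ) (hδ : 0 < δ) :
    ∀ᶠ X : ℝ in atTop, a + b * Real.log X ≤ X ^ δ := by
  have h1 : (fun X : ℝ => a) =o[atTop] fun X : ℝ => X ^ δ :=
    Asymptotics.isLittleO_const_left.2 (Or.inr (by
      have := tendsto_rpow_atTop hδ
      exact tendsto_norm_atTop_atTop.comp this))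
  have h2 : (fun X : ℝ => b * Real.log X) =o[atTop] fun X : ℝ => X ^ δ :=
    (isLittleO_log_rpow_atTop hδ).const_mul_left b
  have h3 := (h1.add h2).bound (c := 1) one_pos
  filter_upwards [h3, eventually_ge_atTop 0] with X hX hX0
  have h4 : a + b * Real.log X ≤ ‖a + b * Real.log X‖ := Real.le_norm_self _
  rw [one_mul, Real.norm_of_nonneg (Real.rpow_nonneg hX0 _)] at hX
  exact h4.trans hX

/-- the starting file's lower bound (`Pool.Agent.R417.LD.low_gen`) -/
theorem low_gen (κ : ℝ) (h1 : 1 ≤ κ) (h2 : κ < 2) : ∃ X₀ : ℝ, 0 < X₀ ∧ ∀ X : ℝ, X₀ ≤ X →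
    1 / 3000000 * X ^ (1 - κ / 6) ≤ ((Lg (fun _ => True) κ 20000000000 X).ncard : ℝ) := by
  have hδ : 0 < 1 - κ / 2 := by linarith
  have hδ2 : 0 < κ / 3 := by linarith
  have e1 := ev_log (768 * 60000) 0 _ hδ
  have e2 := ev_log (16 * (1 + Real.log 192) * 60000) (16 * (κ / 3) * 60000) _ hδ
  have e3 := ev_log (16 * (1 + Real.log 192)) (16 * (κ / 3)) _ hδ2
  have key : ∀ᶠ X : ℝ in atTop, 0 < X ∧
      1 / 3000000 * X ^ (1 - κ / 6) ≤ ((Lg (fun _ => True) κ 20000000000 X).ncard : ℝ) := by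
    filter_upwards [e1, e2, e3, eventually_ge_atTop 1] with X h1' h3 h4 hX
    have hX0 : 0 < X := by linarith
    refine ⟨hX0, ?_⟩
    have hV2 : (X ^ (κ / 6)) ^ 2 = X ^ (κ / 3) := by
      rw [← Real.rpow_natCast (X ^ (κ / 6)) 2, ← Real.rpow_mul hX0.le]
      congr 1
      push_cast
      ring
    have hV3 : (X ^ (κ / 6)) ^ 3 = X ^ (κ / 2) := by
      rw [← Real.rpow_natCast (X ^ (κ / 6)) 3, ← Real.rpow_mul hX0.le]
      congr 1
      push_cast
      ring
    have hXe : X = X ^ (1 - κ / 2) * (X ^ (κ / 6)) ^ 3 := by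
      rw [hV3, ← Real.rpow_add hX0]
      conv_lhs => rw [← Real.rpow_one X]
      congr 1
      ring
    have hlog : Real.log (192 * (X ^ (κ / 6)) ^ 2) = Real.log 192 + κ / 3 * Real.log X := by
      rw [hV2, Real.log_mul (by norm_num) (by positivity), Real.log_rpow hX0]
    have hm := low_core2 (V := X ^ (κ / 6)) (S := X ^ (1 - κ / 2)) (X := X) hXe (by linarith)
      (Real.one_le_rpow hX (by positivity)) (by
        rw [hV3]
        exact Real.rpow_le_rpow_of_exponent_le hX (by linarith)) (by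
        rw [hlog]
        linarith) (by
        rw [hlog, hV2]
        linarith) κ (by
        rw [← Real.rpow_natCast (X ^ (κ / 6)) 6, ← Real.rpow_mul hX0.le]
        congr 1
        push_cast
        ring)
    refine le_trans ?_ hm
    rw [hV2, ← Real.rpow_add hX0]
    have e : κ / 3 + (1 - κ / 2) = 1 - κ / 6 := by ring
    rw [e]
    have : 0 ≤ X ^ (1 - κ / 6) := by positivity
    linarith
  obtain ⟨X₀, h⟩ := eventually_atTop.1 key
  exact ⟨max X₀ 1, by positivity, fun X hX => (h X ((le_max_left _ _).trans hX)).2⟩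

/-- an exponent from upper and lower bounds -/
theorem tendsto_exp {f : ℝ → ℝ} {L : ℝ}
    (h1 : ∀ ε : ℝ, 0 < ε → ∃ C : ℝ, 0 < C ∧ ∀ X : ℝ, 1 ≤ X → f X ≤ C * X ^ (L + ε))
    (h2 : ∀ ε : ℝ, 0 < ε → ∃ c : ℝ, 0 < c ∧ ∃ X₀ : ℝ, ∀ X : ℝ, X₀ ≤ X → c * X ^ (L - ε) ≤ f X) :
    Tendsto (fun X : ℝ => Real.log (f X) / Real.log X) atTop (𝓝 L) := by
  rw [Metric.tendsto_atTop]
  intro ε hε
  obtain ⟨C, hC, hup⟩ := h1 (ε / 3) (by positivity)
  obtain ⟨c, hc, X₀, hlo⟩ := h2 (ε / 3) (by positivity)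
  have ht : Tendsto (fun X : ℝ => ε / 3 * Real.log X) atTop atTop :=
    Real.tendsto_log_atTop.const_mul_atTop (by positivity)
  obtain ⟨X₁, hX₁⟩ := eventually_atTop.1 (ht.eventually_gt_atTop (Real.log C))
  obtain ⟨X₂, hX₂⟩ := eventually_atTop.1 (ht.eventually_gt_atTop (-Real.log c))
  refine ⟨max (max X₀ 2) (max X₁ X₂), fun X hX => ?_⟩
  have g0 : X₀ ≤ X := (le_max_left _ _).trans ((le_max_left _ _).trans hX)
  have g2 : 2 ≤ X := (le_max_right _ _).trans ((le_max_left _ _).trans hX)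
  have g3 := hX₁ X ((le_max_left _ _).trans ((le_max_right _ _).trans hX))
  have g4 := hX₂ X ((le_max_right _ _).trans ((le_max_right _ _).trans hX))
  have hX0 : 0 < X := by linarith
  have hl : 0 < Real.log X := Real.log_pos (by linarith)
  have u := hup X (by linarith)
  have l := hlo X g0
  have hf : 0 < f X := lt_of_lt_of_le (by positivity) l
  have lu : Real.log (f X) ≤ Real.log C + (L + ε / 3) * Real.log X := by
    have := Real.log_le_log hf u
    rwa [Real.log_mul hC.ne' (by positivity), Real.log_rpow hX0] at this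
  have ll : Real.log c + (L - ε / 3) * Real.log X ≤ Real.log (f X) := by
    have := Real.log_le_log (by positivity) l
    rwa [Real.log_mul hc.ne' (by positivity), Real.log_rpow hX0] at this
  rw [Real.dist_eq, abs_lt]
  constructor
  · rw [lt_sub_iff_add_lt, lt_div_iff₀ hl]
    nlinarith
  · rw [sub_lt_iff_lt_add, div_lt_iff₀ hl]
    nlinarith

/-- LOWER BOUND -/
theorem semi_low (σ C κ : ℝ) (hσ : 1 < σ) (hκ : σ < κ) (hκ2 : κ < 2) (hC : 0 < C) :
    ∃ c : ℝ, 0 < c ∧ ∃ X₀ : ℝ, ∀ X : ℝ, X₀ ≤ X →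
      c * X ^ (6 / κ - 1) ≤ ((SemD σ C X).ncard : ℝ) := by
  obtain ⟨Y₀, hY₀, h⟩ := low_gen κ (by linarith) hκ2
  have hκ0 : 0 < κ := by linarith
  have t1 : Tendsto (fun Y : ℝ => Y ^ (κ - σ)) atTop atTop := tendsto_rpow_atTop (by linarith)
  obtain ⟨Y₁, hY₁⟩ := eventually_atTop.1 (t1.eventually_ge_atTop C)
  set B : ℝ := 20000000000 with hB
  -- `Y = (X⁶ / B) ^ (1/κ)`
  have t2 : Tendsto (fun X : ℝ => (X ^ 6 / B) ^ (1 / κ)) atTop atTop := by
    apply (tendsto_rpow_atTop (by positivity : 0 < 1 / κ)).comp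
    apply Tendsto.atTop_div_const (by norm_num)
    exact tendsto_pow_atTop (by norm_num)
  obtain ⟨X₁, hX₁⟩ := eventually_atTop.1 (t2.eventually_ge_atTop (max (max Y₀ Y₁) 1))
  refine ⟨1 / 3000000 * ((1 / B) ^ (1 / κ)) ^ (1 - κ / 6), by positivity, max X₁ 1, fun X hX => ?_⟩
  have hX1 : 1 ≤ X := (le_max_right _ _).trans hX
  have hX0 : 0 < X := by linarith
  have hY := hX₁ X ((le_max_left _ _).trans hX)
  set Y : ℝ := (X ^ 6 / B) ^ (1 / κ) with hYdef
  have hYa : Y₀ ≤ Y := (le_max_left _ _).trans ((le_max_left _ _).trans hY)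
  have hYb : Y₁ ≤ Y := (le_max_right _ _).trans ((le_max_left _ _).trans hY)
  have hY1 : 1 ≤ Y := (le_max_right _ _).trans hY
  have hY0 : 0 < Y := by linarith
  have hYκ : Y ^ κ = X ^ 6 / B := by
    rw [hYdef, ← Real.rpow_mul (by positivity), one_div_mul_cancel hκ0.ne', Real.rpow_one]
  have h1 := h Y hYa
  have hsub : Lg (fun _ => True) κ B Y ⊆ SemD σ C X := by
    rintro q ⟨W, w1, w2, -, w4, w5, w6, w7, w8⟩
    have hc : (Pool.Agent.R417.LD.cond W : ℝ) = (cond W : ℝ) := rfl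
    rw [hYκ, mul_div_cancel₀ _ (by norm_num : B ≠ 0)] at w7 w8
    refine ⟨W, ⟨w1, w2⟩, w4, ?_, ?_, ?_⟩
    · have : |(W.c₄ : ℝ)| ^ 3 ≤ (X ^ 2) ^ 3 := by
        calc _ ≤ X ^ 6 := w7
          _ = _ := by ring
      exact (pow_le_pow_iff_left₀ (abs_nonneg _) (by positivity) (by norm_num)).1 this
    · have : |(W.c₆ : ℝ)| ^ 2 ≤ (X ^ 3) ^ 2 := by
        rw [sq_abs]
        calc _ ≤ X ^ 6 := w8
          _ = _ := by ring
      exact (pow_le_pow_iff_left₀ (abs_nonneg _) (by positivity) (by norm_num)).1 this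
    · rw [hc] at w5
      have g1 : C ≤ Y ^ (κ - σ) := hY₁ Y hYb
      calc C * (cond W : ℝ) ^ σ ≤ Y ^ (κ - σ) * Y ^ σ := by gcongr
        _ = Y ^ κ := by rw [← Real.rpow_add hY0]; congr 1; ring
        _ ≤ _ := w6
  have hfin : (SemD σ C X).Finite := (semH_fin σ C X).subset (semD_sub σ C X)
  have h2 : ((Lg (fun _ => True) κ B Y).ncard : ℝ) ≤ ((SemD σ C X).ncard : ℝ) := by
    exact_mod_cast Set.ncard_le_ncard hsub hfin
  refine le_trans (le_of_eq ?_) (h1.trans h2)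
  have e1 : Y = (1 / B) ^ (1 / κ) * X ^ (6 / κ) := by
    rw [hYdef, div_eq_mul_one_div (X ^ 6) B, Real.mul_rpow (by positivity) (by positivity), mul_comm]
    congr 1
    rw [← Real.rpow_natCast X 6, ← Real.rpow_mul hX0.le]
    congr 1
    push_cast
    ring
  have e2 : Y ^ (1 - κ / 6) = ((1 / B) ^ (1 / κ)) ^ (1 - κ / 6) * X ^ (6 / κ - 1) := by
    rw [e1, Real.mul_rpow (by positivity) (by positivity), ← Real.rpow_mul hX0.le (6 / κ)]
    congr 2
    field_simp
  rw [e2]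
  ring

/-- THE EXPONENT, for every set between `SemD` and `SemH` -/
theorem semi_exp (σ C C' : ℝ) (hσ : 1 < σ) (hσ2 : σ ≤ 3 / 2) (hC : 0 < C) (hC' : 0 < C')
    (S : ℝ → Set (ℤ × ℤ)) (h1 : ∀ X, S X ⊆ SemH σ C X) (h2 : ∀ X, SemD σ C' X ⊆ S X) :
    Tendsto (fun X : ℝ => Real.log ((S X).ncard : ℝ) / Real.log X) atTop (𝓝 (6 / σ - 1)) := by
  have hσ0 : 0 < σ := by linarith
  apply tendsto_exp
  · intro ε hε
    obtain ⟨K, hK, h⟩ := semi_up ε σ C hε hσ0 (by linarith) hC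
    refine ⟨2 * K, by positivity, fun X hX => ?_⟩
    have hX0 : 0 < X := by linarith
    have h3 : ((S X).ncard : ℝ) ≤ ((SemH σ C X).ncard : ℝ) := by
      exact_mod_cast Set.ncard_le_ncard (h1 X) (semH_fin σ C X)
    refine h3.trans ((h X hX).trans ?_)
    have h4 : X ^ 3 ≤ X ^ (6 / σ - 1) := by
      rw [← Real.rpow_natCast X 3]
      apply Real.rpow_le_rpow_of_exponent_le hX
      push_cast
      rw [le_sub_iff_add_le, le_div_iff₀ hσ0]
      linarith
    calc K * X ^ ε * (X ^ (6 / σ - 1) + X ^ 3) ≤ K * X ^ ε * (X ^ (6 / σ - 1) + X ^ (6 / σ - 1)) := by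
          gcongr
      _ = 2 * K * X ^ (6 / σ - 1 + ε) := by rw [Real.rpow_add hX0]; ring
  · intro ε hε
    -- choose `κ > σ` with `6/κ ≥ 6/σ - ε`
    obtain ⟨κ, hκ1, hκ2, hκ3⟩ : ∃ κ : ℝ, σ < κ ∧ κ < 2 ∧ 6 / σ - ε ≤ 6 / κ := by
      refine ⟨min (σ + ε / 6) (7 / 4), ?_, ?_, ?_⟩
      · apply lt_min
        · linarith
        · linarith
      · exact lt_of_le_of_lt (min_le_right _ _) (by norm_num)
      · set κ := min (σ + ε / 6) (7 / 4) with hκ
        have g1 : σ < κ := lt_min (by linarith) (by linarith)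
        have g2 : κ ≤ σ + ε / 6 := min_le_left _ _
        have g3 : 6 / σ - 6 / κ ≤ ε := by
          rw [div_sub_div _ _ hσ0.ne' (by linarith), div_le_iff₀ (by nlinarith)]
          have h5 : 6 * κ - σ * 6 ≤ ε := by linarith
          have h6 : 1 ≤ σ * κ := by nlinarith
          nlinarith
        linarith
    obtain ⟨c, hc, X₀, h⟩ := semi_low σ C' κ hσ hκ1 hκ2 hC'
    refine ⟨c, hc, max X₀ 1, fun X hX => ?_⟩
    have hX1 : 1 ≤ X := (le_max_right _ _).trans hX
    have h3 : ((SemD σ C' X).ncard : ℝ) ≤ ((S X).ncard : ℝ) := by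
      exact_mod_cast Set.ncard_le_ncard (h2 X) ((semH_fin σ C X).subset (h1 X))
    refine le_trans ?_ ((h X ((le_max_left _ _).trans hX)).trans h3)
    apply mul_le_mul_of_nonneg_left _ hc.le
    apply Real.rpow_le_rpow_of_exponent_le hX1
    linarith

end Run7.h577.S
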