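import Mathlib
import Pool.Agent.Run7.h577.SB
import Pool.Agent.Run7.h577.SF

/-!
The binary cubic form attached to a pair `(c, d)`, with more local conditions (additive reduction).
-/

set_option autoImplicit false

namespace Run7.h577.V

open Run7.h577.S

/-- the additional conditions on a form and a point: the form is a cube modulo `s₂`, the point is a double zero modulo
`s₃` and a triple zero modulo `s₄` -/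
structure Ext (s₂ s₃ s₄ : ℤ) (z : F6) : Prop where
  e2a : s₂ ∣ z.q ^ 2 - z.p * z.r
  e2b : s₂ ∣ z.q * z.r - z.p * z.s
  e3 : s₃ ∣ z.p * z.x ^ 2 + 2 * z.q * z.x * z.y + z.r * z.y ^ 2
  e4a : s₄ ∣ z.p * z.x + z.q * z.y
  e4b : s₄ ∣ z.q * z.x + z.r * z.y
  e4c : s₄ ∣ z.r * z.x + z.s * z.y

theorem tuple (X δ τ : ℝ) (m m₀ s₂ s₃ s₄ c d t C E : ℤ) (hδ : 0 < δ) (hδX : δ ≤ X) (hm : 2 * δ < m)
    (hr : Reg X δ c d τ) (hC : m * C = t ^ 2 - c) (hE : m ^ 2 * E = t ^ 3 - 3 * c * t + 2 * d)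
    (irr : ∀ w v : ℤ, ¬ (w = 0 ∧ v = 0) → w ^ 3 - 3 * c * w * v ^ 2 + 2 * d * v ^ 3 ≠ 0)
    (hm₀ : m₀ ∣ m) (hcon : m₀ ∣ 3 * C ^ 2 - 4 * t * E) (h2a : s₂ ∣ t ^ 2 - m * C)
    (h2b : s₂ ∣ t * C - m * E) (h2c : s₂ ∣ C ^ 2 - t * E) (h3a : s₃ ∣ m) (h3b : s₃ ∣ t)
    (h4a : s₄ ∣ m) (h4b : s₄ ∣ t) (h4c : s₄ ∣ C) :
    ∃ (p q r s x y : ℤ) (a₁ a₂ : ℝ), Tup X δ m m₀ c d p q r s x y a₁ a₂ ∧
      Ext s₂ s₃ s₄ ⟨p, q, r, s, x, y⟩ := by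
  have hX : 0 < X := hδ.trans_le hδX
  have hmpos : (0 : ℝ) < m := by linarith
  have hm0 : m ≠ 0 := by
    rintro rfl
    simp at hmpos
  obtain ⟨u₁, v₁, u₂, v₂, hdet, hn0, hn12, hnp⟩ := reduce (m : ℝ) ((t : ℝ) - τ) δ hmpos hδ
  set n₁ := nm (m : ℝ) ((t : ℝ) - τ) δ u₁ v₁ with hn₁
  set n₂ := nm (m : ℝ) ((t : ℝ) - τ) δ u₂ v₂ with hn₂
  set W₁ : ℝ := m * u₁ + ((t : ℝ) - τ) * v₁ with hW₁
  set W₂ : ℝ := m * u₂ + ((t : ℝ) - τ) * v₂ with hW₂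
  have w1 : |W₁| ≤ δ * (n₁ / δ) := by
    rw [mul_div_cancel₀ _ hδ.ne']; exact le_max_left _ _
  have w2 : |W₂| ≤ δ * (n₂ / δ) := by
    rw [mul_div_cancel₀ _ hδ.ne']; exact le_max_left _ _
  have b1 : |(v₁ : ℝ)| ≤ n₁ / δ := by
    rw [le_div_iff₀ hδ, mul_comm]; exact le_max_right _ _
  have b2 : |(v₂ : ℝ)| ≤ n₂ / δ := by
    rw [le_div_iff₀ hδ, mul_comm]; exact le_max_right _ _
  have hdetR : (u₁ : ℝ) * v₂ - u₂ * v₁ = 1 := by exact_mod_cast hdet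
  have hCR : (m : ℝ) * C = (t : ℝ) ^ 2 - c := by exact_mod_cast hC
  have hER : (m : ℝ) ^ 2 * E = (t : ℝ) ^ 3 - 3 * c * t + 2 * d := by exact_mod_cast hE
  have hα := alpha_eq m t C E u₁ v₁ u₂ v₂
  have hβ := beta_eq m t C E u₁ v₁ u₂ v₂
  have hγ := gamma_eq m t C E u₁ v₁ u₂ v₂
  rw [hdet, mul_one] at hα hβ hγ
  have hcop : IsCoprime v₂ (-v₁) := ⟨u₁, u₂, by linear_combination hdet⟩
  have hv₁ : v₁ ≠ 0 := by
    intro h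
    have hu : u₁ * v₂ = 1 := by rw [h] at hdet; linarith
    have hn : n₁ = m := by
      rw [hn₁]
      unfold nm
      have hu1 : |(u₁ : ℝ)| = 1 := by
        have : |u₁| = 1 := Int.isUnit_iff_abs_eq.1 (IsUnit.of_mul_eq_one _ hu)
        exact_mod_cast this
      rw [h, Int.cast_zero, mul_zero, add_zero, abs_zero, mul_zero, abs_mul, hu1, mul_one,
        abs_of_pos hmpos]
      exact max_eq_left hmpos.le
    have : n₁ * n₁ ≤ 2 * m * δ := (mul_le_mul_of_nonneg_left hn12 hn0.le).trans hnp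
    rw [hn] at this
    nlinarith
  have kp : (m : ℝ) ^ 2 * (fp m t C E u₁ v₁ : ℤ) = T3 τ (τ ^ 2 - c) (τ ^ 3 - 3 * c * τ + 2 * d)
      W₁ W₁ W₁ v₁ v₁ v₁ := by
    unfold fp T3
    push_cast
    rw [hW₁]
    linear_combination (3 * (m : ℝ) * u₁ * v₁ ^ 2) * hCR + (v₁ : ℝ) ^ 3 * hER
  have kq : (m : ℝ) ^ 2 * (fq m t C E u₁ v₁ u₂ v₂ : ℤ) =
      T3 τ (τ ^ 2 - c) (τ ^ 3 - 3 * c * τ + 2 * d) W₁ W₁ W₂ v₁ v₁ v₂ := by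
    unfold fq T3
    push_cast
    rw [hW₁, hW₂]
    linear_combination ((m : ℝ) * (2 * u₁ * v₁ * v₂ + u₂ * v₁ ^ 2)) * hCR +
      (v₁ : ℝ) ^ 2 * v₂ * hER
  have kr : (m : ℝ) ^ 2 * (fr m t C E u₁ v₁ u₂ v₂ : ℤ) =
      T3 τ (τ ^ 2 - c) (τ ^ 3 - 3 * c * τ + 2 * d) W₁ W₂ W₂ v₁ v₂ v₂ := by
    unfold fr T3
    push_cast
    rw [hW₁, hW₂]
    linear_combination ((m : ℝ) * (2 * u₂ * v₁ * v₂ + u₁ * v₂ ^ 2)) * hCR +
      (v₁ : ℝ) * v₂ ^ 2 * hER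
  have ks : (m : ℝ) ^ 2 * (fs m t C E u₂ v₂ : ℤ) = T3 τ (τ ^ 2 - c) (τ ^ 3 - 3 * c * τ + 2 * d)
      W₂ W₂ W₂ v₂ v₂ v₂ := by
    unfold fs T3
    push_cast
    rw [hW₂]
    linear_combination (3 * (m : ℝ) * u₂ * v₂ ^ 2) * hCR + (v₂ : ℝ) ^ 3 * hER
  -- the value at the first vector
  have kw : m ^ 2 * fp m t C E u₁ v₁ = (m * u₁ + t * v₁) ^ 3 - 3 * c * (m * u₁ + t * v₁) * v₁ ^ 2 +
      2 * d * v₁ ^ 3 := by
    unfold fp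
    linear_combination (3 * m * u₁ * v₁ ^ 2) * hC + v₁ ^ 3 * hE
  have x2a : s₂ ∣ fq m t C E u₁ v₁ u₂ v₂ ^ 2 - fp m t C E u₁ v₁ * fr m t C E u₁ v₁ u₂ v₂ := by
    have e : fq m t C E u₁ v₁ u₂ v₂ ^ 2 - fp m t C E u₁ v₁ * fr m t C E u₁ v₁ u₂ v₂ =
        ((t ^ 2 - m * C) * u₁ ^ 2 + (t * C - m * E) * (u₁ * v₁) + (C ^ 2 - t * E) * v₁ ^ 2) *
          (u₁ * v₂ - u₂ * v₁) ^ 2 := by
      unfold fp fq fr; ring
    rw [e]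
    exact Dvd.dvd.mul_right (dvd_add (dvd_add (h2a.mul_right _) (h2b.mul_right _))
      (h2c.mul_right _)) _
  have x2b : s₂ ∣ fq m t C E u₁ v₁ u₂ v₂ * fr m t C E u₁ v₁ u₂ v₂ -
      fp m t C E u₁ v₁ * fs m t C E u₂ v₂ := by
    have e : fq m t C E u₁ v₁ u₂ v₂ * fr m t C E u₁ v₁ u₂ v₂ -
      fp m t C E u₁ v₁ * fs m t C E u₂ v₂ =
        ((t ^ 2 - m * C) * (2 * u₁ * u₂) + (t * C - m * E) * (u₁ * v₂ + u₂ * v₁) +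
          (C ^ 2 - t * E) * (2 * v₁ * v₂)) * (u₁ * v₂ - u₂ * v₁) ^ 2 := by
      unfold fp fq fr fs; ring
    rw [e]
    exact Dvd.dvd.mul_right (dvd_add (dvd_add (h2a.mul_right _) (h2b.mul_right _))
      (h2c.mul_right _)) _
  have m2 : ∀ z : ℤ, (m : ℝ) ^ 2 * |(z : ℝ)| = |(m : ℝ) ^ 2 * z| := by
    intro z
    rw [abs_mul, abs_of_nonneg (by positivity : (0 : ℝ) ≤ (m : ℝ) ^ 2)]
  refine ⟨fp m t C E u₁ v₁, fq m t C E u₁ v₁ u₂ v₂, fr m t C E u₁ v₁ u₂ v₂, fs m t C E u₂ v₂,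
    v₂, -v₁, n₁ / δ, n₂ / δ, ?_, ?_⟩
  rotate_left
  · constructor
    · exact x2a
    · exact x2b
    · simp only
      have e : fp m t C E u₁ v₁ * v₂ ^ 2 + 2 * fq m t C E u₁ v₁ u₂ v₂ * v₂ * -v₁ +
          fr m t C E u₁ v₁ u₂ v₂ * (-v₁) ^ 2 = m * u₁ + t * v₁ := by
        linear_combination v₂ * hα - v₁ * hβ + (m * u₁ + t * v₁) * hdet
      rw [e]
      exact dvd_add (h3a.mul_right _) (h3b.mul_right _)
    · simp only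
      have e : fp m t C E u₁ v₁ * v₂ + fq m t C E u₁ v₁ u₂ v₂ * -v₁ =
          m * u₁ ^ 2 + t * (2 * u₁ * v₁) + C * v₁ ^ 2 := by linear_combination hα
      rw [e]
      exact dvd_add (dvd_add (h4a.mul_right _) (h4b.mul_right _)) (h4c.mul_right _)
    · simp only
      have e : fq m t C E u₁ v₁ u₂ v₂ * v₂ + fr m t C E u₁ v₁ u₂ v₂ * -v₁ =
          m * (u₁ * u₂) + t * (u₁ * v₂ + u₂ * v₁) + C * (v₁ * v₂) := by linear_combination hβ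
      rw [e]
      exact dvd_add (dvd_add (h4a.mul_right _) (h4b.mul_right _)) (h4c.mul_right _)
    · simp only
      have e : fr m t C E u₁ v₁ u₂ v₂ * v₂ + fs m t C E u₂ v₂ * -v₁ =
          m * u₂ ^ 2 + t * (2 * u₂ * v₂) + C * v₂ ^ 2 := by linear_combination hγ
      rw [e]
      exact dvd_add (dvd_add (h4a.mul_right _) (h4b.mul_right _)) (h4c.mul_right _)
  generalize hp : fp m t C E u₁ v₁ = p at *
  generalize hq : fq m t C E u₁ v₁ u₂ v₂ = q at *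
  generalize hr' : fr m t C E u₁ v₁ u₂ v₂ = r at *
  generalize hs : fs m t C E u₂ v₂ = s at *
  have hw : p * v₂ ^ 2 + 2 * q * v₂ * -v₁ + r * (-v₁) ^ 2 = m * u₁ + t * v₁ := by
    have e : p * v₂ ^ 2 + 2 * q * v₂ * -v₁ + r * (-v₁) ^ 2 =
        (p * v₂ - q * v₁) * v₂ - (q * v₂ - r * v₁) * v₁ := by ring
    rw [e, hα, hβ]
    linear_combination (m * u₁ + t * v₁) * hdet
  have hw2 : (q * v₂ - r * v₁) * v₂ - (r * v₂ - s * v₁) * v₁ = m * u₂ + t * v₂ := by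
    rw [hβ, hγ]
    linear_combination (m * u₂ + t * v₂) * hdet
  constructor
  · -- eqn
    have e : p * v₂ ^ 3 + 3 * q * v₂ ^ 2 * -v₁ + 3 * r * v₂ * (-v₁) ^ 2 + s * (-v₁) ^ 3 =
        (p * v₂ ^ 2 + 2 * q * v₂ * -v₁ + r * (-v₁) ^ 2) * v₂ -
          ((q * v₂ - r * v₁) * v₂ - (r * v₂ - s * v₁) * v₁) * v₁ := by ring
    rw [e, hw, hw2]
    linear_combination m * hdet
  · exact hcop
  · -- p ≠ 0
    intro h0
    apply irr (m * u₁ + t * v₁) v₁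
    · rintro ⟨-, h⟩
      exact hv₁ h
    · rw [← kw, h0, mul_zero]
  · exact neg_ne_zero.2 hv₁
  · positivity
  · gcongr
  · have e : δ * (n₁ / δ * (n₂ / δ)) = n₁ * n₂ / δ := by field_simp
    rw [e, div_le_iff₀ hδ]
    linarith
  · push_cast
    rw [abs_neg]
    exact b1
  · exact b2
  · push_cast
    rw [abs_neg]
    have e : (m : ℝ) = W₁ * v₂ - W₂ * v₁ := by
      rw [hW₁, hW₂]
      linear_combination (-(m : ℝ)) * hdetR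
    have h1 := abs_sub (W₁ * (v₂ : ℝ)) (W₂ * v₁)
    rw [← e, abs_of_pos hmpos, abs_mul, abs_mul] at h1
    have h2 : |W₁| * |(v₂ : ℝ)| ≤ δ * (n₁ / δ) * |(v₂ : ℝ)| := by gcongr
    have h3 : |W₂| * |(v₁ : ℝ)| ≤ δ * (n₂ / δ) * |(v₁ : ℝ)| := by gcongr
    calc (m : ℝ) ≤ δ * (n₁ / δ) * |(v₂ : ℝ)| + δ * (n₂ / δ) * |(v₁ : ℝ)| := by linarith
      _ = _ := by ring
  · rw [m2, kp]
    exact T3_bound X δ _ _ _ _ _ _ _ _ _ _ _ _ hδ hδX hr.h0 hr.h1 hr.h2 w1 w1 w1 b1 b1 b1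
  · rw [m2, kq]
    exact T3_bound X δ _ _ _ _ _ _ _ _ _ _ _ _ hδ hδX hr.h0 hr.h1 hr.h2 w1 w1 w2 b1 b1 b2
  · rw [m2, kr]
    exact T3_bound X δ _ _ _ _ _ _ _ _ _ _ _ _ hδ hδX hr.h0 hr.h1 hr.h2 w1 w2 w2 b1 b2 b2
  · rw [m2, ks]
    exact T3_bound X δ _ _ _ _ _ _ _ _ _ _ _ _ hδ hδX hr.h0 hr.h1 hr.h2 w2 w2 w2 b2 b2 b2
  · rw [hw]
    have e : p * v₂ + q * -v₁ = m * u₁ ^ 2 + 2 * t * u₁ * v₁ + C * v₁ ^ 2 := by
      rw [← hα]; ring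
    rw [e, ← hp]
    have e2 : 3 * (m * u₁ ^ 2 + 2 * t * u₁ * v₁ + C * v₁ ^ 2) ^ 2 -
        4 * fp m t C E u₁ v₁ * (m * u₁ + t * v₁) = v₁ ^ 4 * (3 * C ^ 2 - 4 * t * E) +
        m * (3 * m * u₁ ^ 4 + 6 * u₁ ^ 2 * (2 * t * u₁ * v₁ + C * v₁ ^ 2) - 4 * m * u₁ ^ 4 -
          4 * u₁ ^ 3 * (t * v₁) -
          4 * u₁ * (3 * t * u₁ ^ 2 * v₁ + 3 * C * u₁ * v₁ ^ 2 + E * v₁ ^ 3)) := by
      unfold fp; ring
    rw [e2]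
    exact dvd_add (Dvd.dvd.mul_left hcon _) (Dvd.dvd.mul_right hm₀ _)
  · have e1 : q * v₂ + r * -v₁ = m * u₁ * u₂ + t * (u₁ * v₂ + u₂ * v₁) + C * v₁ * v₂ := by
      rw [← hβ]; ring
    have e2 : p * v₂ + q * -v₁ = m * u₁ ^ 2 + 2 * t * u₁ * v₁ + C * v₁ ^ 2 := by
      rw [← hα]; ring
    have e3 : r * v₂ + s * -v₁ = m * u₂ ^ 2 + 2 * t * u₂ * v₂ + C * v₂ ^ 2 := by
      rw [← hγ]; ring
    rw [e1, e2, e3]
    have e4 : (m * u₁ * u₂ + t * (u₁ * v₂ + u₂ * v₁) + C * v₁ * v₂) ^ 2 -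
        (m * u₁ ^ 2 + 2 * t * u₁ * v₁ + C * v₁ ^ 2) * (m * u₂ ^ 2 + 2 * t * u₂ * v₂ + C * v₂ ^ 2) =
        (t ^ 2 - m * C) * (u₁ * v₂ - u₂ * v₁) ^ 2 := by ring
    rw [e4, hdet, hC]
    ring
  · rw [hw, kw]
    ring

end Run7.h577.V
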