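import Mathlib
import Pool.Agent.Run7.h577.VB
import Pool.Agent.Run7.h577.SJ

/-!
The number of the representations `F(x, y) = m` with the additional conditions: the coefficients `q`, `r`.
-/

set_option autoImplicit false

namespace Run7.h577.V

open Finset Run7.h577.S

theorem sq_dvd_of {n : ℕ} (hsq : Squarefree n) {z : ℤ}
    (h : ∀ l : ℕ, l.Prime → l ∣ n → (l : ℤ) ∣ z) : (n : ℤ) ∣ z := by
  rw [← rd_squarefree hsq, Int.natCast_dvd]
  apply rd_dvd_of
  intro p hp hpn
  exact Int.natCast_dvd.1 (h p hp hpn)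

theorem prime_cop {l : ℕ} (hl : l.Prime) {a : ℤ} (h : ¬ (l : ℤ) ∣ a) : IsCoprime (l : ℤ) a :=
  (Prime.coprime_iff_not_dvd (Nat.prime_iff_prime_int.1 hl)).2 h

variable {A B G : ℝ} {m : ℤ} {m₀ s₂ s₃ s₄ : ℕ}

/-- the number of `r` -/
theorem cnt_r (hA : 0 < A) (hB : 0 < B) (hG : 0 < G) (h : ℕ) (hh : m₀ * s₂ * s₃ * s₄ = h)
    (hh1 : 1 ≤ h) (hsq : Squarefree h) (hmm : (m₀ : ℤ) ∣ m) (p q x y : ℤ) (S : Finset F6)
    (hS : ∀ z ∈ S, (Good A B G m m₀ z ∧ Ext s₂ s₃ s₄ z) ∧ z.p = p ∧ z.q = q ∧ z.x = x ∧ z.y = y) :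
    (S.card : ℝ) ≤ 1 + 864 * (G * B ^ 2 / h) * (Int.gcd p h : ℕ) := by
  classical
  rcases S.eq_empty_or_nonempty with h | ⟨z₀, hz₀⟩
  · rw [h, card_empty, Nat.cast_zero]; positivity
  obtain ⟨⟨g0, -⟩, hp0, hq0, hx0, hy0⟩ := hS z₀ hz₀
  have hcop : IsCoprime x y := by have := g0.cop; rwa [hx0, hy0] at this
  have hpne : p ≠ 0 := by have := g0.p0; rwa [hp0] at this
  have hyne : y ≠ 0 := by have := g0.y0; rwa [hy0] at this
  have hmR : (0 : ℝ) < h := by exact_mod_cast hh1
  -- the map `z ↦ r` is injective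
  have hrel : ∀ z ∈ S, ∀ z' ∈ S, 3 * x * (z.r - z'.r) = -(y * (z.s - z'.s)) := by
    intro z hz z' hz'
    obtain ⟨⟨h1, -⟩, e1, e2, e3, e4⟩ := hS z hz
    obtain ⟨⟨h1', -⟩, e1', e2', e3', e4'⟩ := hS z' hz'
    have a := h1.eqn
    have b := h1'.eqn
    rw [e1, e2, e3, e4] at a
    rw [e1', e2', e3', e4'] at b
    have h2 : y ^ 2 * (3 * x * (z.r - z'.r) + y * (z.s - z'.s)) = 0 := by linear_combination a - b
    rcases mul_eq_zero.1 h2 with h3 | h3
    · exact absurd h3 (pow_ne_zero 2 hyne)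
    · linarith
  have hinj : Set.InjOn (fun z : F6 => z.r) (S : Set F6) := by
    intro z hz z' hz' hrr
    simp only at hrr
    have h1 := hrel z hz z' hz'
    rw [hrr, sub_self, mul_zero] at h1
    have h2 : z.s - z'.s = 0 := by
      rcases mul_eq_zero.1 (neg_eq_zero.1 h1.symm) with h3 | h3
      · exact absurd h3 hyne
      · exact h3
    obtain ⟨-, e1, e2, e3, e4⟩ := hS z hz
    obtain ⟨-, e1', e2', e3', e4'⟩ := hS z' hz'
    cases z
    cases z'
    simp only at e1 e2 e3 e4 e1' e2' e3' e4' hrr h2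
    simp only [F6.mk.injEq]
    refine ⟨by rw [e1, e1'], by rw [e2, e2'], hrr, by linarith, by rw [e3, e3'], by rw [e4, e4']⟩
  rw [← card_image_of_injOn hinj]
  -- the modulus
  set g : ℕ := Nat.gcd h (2 * p.natAbs) with hg
  have hpn : p.natAbs ≠ 0 := Int.natAbs_ne_zero.2 hpne
  have hg0 : 0 < g := Nat.gcd_pos_of_pos_left _ (by omega)
  have hgd : g ∣ h := Nat.gcd_dvd_left _ _
  set M : ℕ := h / g with hM
  have hMg : M * g = h := Nat.div_mul_cancel hgd
  have hMh : M ∣ h := Dvd.intro _ hMg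
  have hM1 : 1 ≤ M := by
    rcases Nat.eq_zero_or_pos M with h' | h'
    · rw [h', zero_mul] at hMg; omega
    · exact h'
  have hMc : Nat.Coprime M (2 * p.natAbs) := Nat.coprime_div_gcd_of_squarefree hsq (by omega)
  have hMsq : Squarefree M := hsq.squarefree_of_dvd hMh
  -- the primes of `M`
  have hlp : ∀ l : ℕ, l.Prime → l ∣ M → ¬ (l : ℤ) ∣ p ∧ ¬ (l : ℤ) ∣ 2 := by
    intro l hl hlM
    have h1 : ¬ l ∣ 2 * p.natAbs := fun h2 =>
      hl.one_lt.ne' (Nat.eq_one_of_dvd_coprimes hMc hlM h2)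
    constructor
    · intro h2
      exact h1 (Dvd.dvd.mul_left (Int.natCast_dvd.1 h2) _)
    · intro h2
      exact h1 (Dvd.dvd.mul_right (by exact_mod_cast h2) _)
  -- the modulus `|y| M`
  have hN1 : 1 ≤ y.natAbs * M :=
    Nat.one_le_iff_ne_zero.2 (Nat.mul_ne_zero (Int.natAbs_ne_zero.2 hyne) (by omega))
  have hL0 : 0 ≤ 144 * G * B ^ 2 * |(y : ℝ)| := by positivity
  have hsp := spaced3 (S.image (fun z : F6 => z.r)) (y.natAbs * M) (144 * G * B ^ 2 * |(y : ℝ)|)
    hN1 hL0 (by
      intro a ha b hb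
      obtain ⟨z, hz, rfl⟩ := mem_image.1 ha
      obtain ⟨z', hz', rfl⟩ := mem_image.1 hb
      have h1 : y ∣ 3 * (z.r - z'.r) := by
        have h2 : y ∣ x * (3 * (z.r - z'.r)) :=
          ⟨-(z.s - z'.s), by linear_combination hrel z hz z' hz'⟩
        exact hcop.symm.dvd_of_dvd_mul_left h2
      obtain ⟨Z, hZ⟩ := h1
      have hZ2 : x * Z = -(z.s - z'.s) := by
        have h3 : y * (x * Z + (z.s - z'.s)) = 0 := by
          linear_combination hrel z hz z' hz' - x * hZ
        rcases mul_eq_zero.1 h3 with h4 | h4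
        · exact absurd h4 hyne
        · linarith
      obtain ⟨⟨k1, k2⟩, e1, e2, e3, e4⟩ := hS z hz
      obtain ⟨⟨k1', k2'⟩, e1', e2', e3', e4'⟩ := hS z' hz'
      have hMZ : (M : ℤ) ∣ Z := by
        apply sq_dvd_of hMsq
        intro l hl hlM
        obtain ⟨hlp1, hl2⟩ := hlp l hl hlM
        have hlP : Prime (l : ℤ) := Nat.prime_iff_prime_int.1 hl
        -- from `l ∣ r - r'` and `l ∤ y`
        have fin1 : ¬ (l : ℤ) ∣ y → (l : ℤ) ∣ z.r - z'.r → (l : ℤ) ∣ Z := by
          intro f1 f2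
          have f3 : (l : ℤ) ∣ y * Z := by rw [← hZ]; exact f2.mul_left 3
          exact (hlP.dvd_or_dvd f3).resolve_left f1
        have hlh : l ∣ m₀ * s₂ * s₃ * s₄ := by rw [hh]; exact hlM.trans hMh
        rcases (Nat.Prime.dvd_mul hl).1 hlh with h5 | h5
        · rcases (Nat.Prime.dvd_mul hl).1 h5 with h6 | h6
          · rcases (Nat.Prime.dvd_mul hl).1 h6 with h7 | h7
            · -- `l ∣ m₀`
              have hlm₀ : (l : ℤ) ∣ m₀ := Int.natCast_dvd_natCast.2 h7
              have hly : ¬ (l : ℤ) ∣ y := by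
                intro hly
                have he := g0.eqn
                rw [hp0, hx0, hy0] at he
                have d3 : (l : ℤ) ∣ p * x ^ 3 := by
                  have e3 : p * x ^ 3 = m - y * (3 * z₀.q * x ^ 2 + 3 * z₀.r * x * y + z₀.s * y ^ 2) := by
                    linear_combination he
                  rw [e3]
                  exact dvd_sub (hlm₀.trans hmm) (Dvd.dvd.mul_right hly _)
                have d4 := hlP.dvd_of_dvd_pow ((hlP.dvd_or_dvd d3).resolve_left hlp1)
                exact hlP.not_isUnit (hcop.isUnit_of_dvd' d4 hly)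
              apply fin1 hly
              have a := k1.con
              have b := k1'.con
              rw [e1, e2, e3, e4] at a
              rw [e1', e2', e3', e4'] at b
              have c := dvd_sub b a
              have e : 3 * (p * x + q * y) ^ 2 - 4 * p * (p * x ^ 2 + 2 * q * x * y + z'.r * y ^ 2) -
                  (3 * (p * x + q * y) ^ 2 - 4 * p * (p * x ^ 2 + 2 * q * x * y + z.r * y ^ 2)) =
                  (2 * 2 * p * y ^ 2) * (z.r - z'.r) := by ring
              rw [e] at c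
              have c2 := hlm₀.trans c
              have c3 : IsCoprime (l : ℤ) (2 * 2 * p * y ^ 2) :=
                ((((prime_cop hl hl2).mul_right (prime_cop hl hl2)).mul_right
                  (prime_cop hl hlp1)).mul_right (prime_cop hl hly).pow_right)
              exact c3.dvd_of_dvd_mul_left c2
            · -- `l ∣ s₂`
              have hls : (l : ℤ) ∣ s₂ := Int.natCast_dvd_natCast.2 h7
              have a := k2.e2a
              have b := k2'.e2a
              have a' := k2.e2b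
              have b' := k2'.e2b
              rw [e1, e2] at a a'
              rw [e1', e2'] at b b'
              have c1 : (l : ℤ) ∣ z.r - z'.r := by
                have c := hls.trans (dvd_sub b a)
                have e : q ^ 2 - p * z'.r - (q ^ 2 - p * z.r) = p * (z.r - z'.r) := by ring
                rw [e] at c
                exact (hlP.dvd_or_dvd c).resolve_left hlp1
              have c2 : (l : ℤ) ∣ z.s - z'.s := by
                have c := hls.trans (dvd_sub b' a')
                have e : q * z'.r - p * z'.s - (q * z.r - p * z.s) =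
                    p * (z.s - z'.s) - q * (z.r - z'.r) := by ring
                rw [e] at c
                have c3 : (l : ℤ) ∣ p * (z.s - z'.s) := by
                  have := dvd_add c (c1.mul_left q)
                  rwa [sub_add_cancel] at this
                exact (hlP.dvd_or_dvd c3).resolve_left hlp1
              obtain ⟨u, v, huv⟩ := hcop
              have e : Z = u * (x * Z) + v * (y * Z) := by linear_combination (-Z) * huv
              rw [e, hZ2, ← hZ]
              exact dvd_add (Dvd.dvd.mul_left (c2.neg_right) _)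
                (Dvd.dvd.mul_left (Dvd.dvd.mul_left c1 _) _)
          · -- `l ∣ s₃`
            have hls : (l : ℤ) ∣ s₃ := Int.natCast_dvd_natCast.2 h6
            have a := k2.e3
            have b := k2'.e3
            rw [e1, e2, e3, e4] at a
            rw [e1', e2', e3', e4'] at b
            have hly : ¬ (l : ℤ) ∣ y := by
              intro hly
              have c := hls.trans a
              have d3 : (l : ℤ) ∣ p * x ^ 2 := by
                have e5 : p * x ^ 2 = (p * x ^ 2 + 2 * q * x * y + z.r * y ^ 2) -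
                    y * (2 * q * x + z.r * y) := by ring
                rw [e5]
                exact dvd_sub c (Dvd.dvd.mul_right hly _)
              have d4 := hlP.dvd_of_dvd_pow ((hlP.dvd_or_dvd d3).resolve_left hlp1)
              exact hlP.not_isUnit (hcop.isUnit_of_dvd' d4 hly)
            apply fin1 hly
            have c := hls.trans (dvd_sub a b)
            have e : p * x ^ 2 + 2 * q * x * y + z.r * y ^ 2 -
                (p * x ^ 2 + 2 * q * x * y + z'.r * y ^ 2) = (z.r - z'.r) * y ^ 2 := by ring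
            rw [e] at c
            rcases hlP.dvd_or_dvd c with c1 | c1
            · exact c1
            · exact absurd (hlP.dvd_of_dvd_pow c1) hly
        · -- `l ∣ s₄`
          have hls : (l : ℤ) ∣ s₄ := Int.natCast_dvd_natCast.2 h5
          have a0 := k2.e4a
          have a := k2.e4b
          have b := k2'.e4b
          rw [e1, e2, e3, e4] at a0
          rw [e2, e3, e4] at a
          rw [e2', e3', e4'] at b
          have hly : ¬ (l : ℤ) ∣ y := by
            intro hly
            have d3 : (l : ℤ) ∣ p * x := by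
              have := dvd_sub (hls.trans a0) (Dvd.dvd.mul_left hly q)
              rwa [add_sub_cancel_right] at this
            have d4 := (hlP.dvd_or_dvd d3).resolve_left hlp1
            exact hlP.not_isUnit (hcop.isUnit_of_dvd' d4 hly)
          apply fin1 hly
          have c := hls.trans (dvd_sub a b)
          have e : q * x + z.r * y - (q * x + z'.r * y) = (z.r - z'.r) * y := by ring
          rw [e] at c
          exact (hlP.dvd_or_dvd c).resolve_right hly
      rw [hZ]
      push_cast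
      have : ((y.natAbs : ℕ) : ℤ) ∣ y := Int.natAbs_dvd.2 dvd_rfl
      have h9 := mul_dvd_mul this hMZ
      rwa [Int.natCast_natAbs] at h9) (by
      intro a ha b hb
      obtain ⟨z, hz, rfl⟩ := mem_image.1 ha
      obtain ⟨z', hz', rfl⟩ := mem_image.1 hb
      obtain ⟨⟨k1, -⟩, e1, e2, e3, e4⟩ := hS z hz
      obtain ⟨⟨k1', -⟩, e1', e2', e3', e4'⟩ := hS z' hz'
      rcases le_total (8 * |(y : ℝ)|) A with hc | hc
      · have hxb : B ≤ 8 * |(x : ℝ)| := by
          have := k1.xbig hA (by rw [e4]; exact hc)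
          rwa [e3] at this
        have hss := sub_abs_le k1.bs k1'.bs
        have hr := hrel z hz z' hz'
        have hrR : 3 * (x : ℝ) * ((z.r : ℝ) - z'.r) = -((y : ℝ) * ((z.s : ℝ) - z'.s)) := by
          exact_mod_cast hr
        have h1 : 3 * |(x : ℝ)| * |(z.r : ℝ) - z'.r| = |(y : ℝ)| * |(z.s : ℝ) - z'.s| := by
          have := congrArg abs hrR
          rwa [abs_neg, abs_mul, abs_mul, abs_mul, abs_of_pos (by norm_num : (0 : ℝ) < 3)] at this
        have h2 : 3 * |(x : ℝ)| * |(z.r : ℝ) - z'.r| ≤ |(y : ℝ)| * (2 * (9 * G * B ^ 3)) := by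
          rw [h1]; gcongr
        have h3 : 3 * B * |(z.r : ℝ) - z'.r| ≤ 8 * (|(y : ℝ)| * (2 * (9 * G * B ^ 3))) := by
          have h5 := abs_nonneg ((z.r : ℝ) - z'.r)
          nlinarith
        have h4 : B * |(z.r : ℝ) - z'.r| ≤ B * (48 * G * B ^ 2 * |(y : ℝ)|) := by
          have e : 8 * (|(y : ℝ)| * (2 * (9 * G * B ^ 3))) = 3 * (B * (48 * G * B ^ 2 * |(y : ℝ)|)) := by
            ring
          rw [e] at h3
          linarith
        have h5 := le_of_mul_le_mul_left h4 hB
        have h6 : 0 ≤ G * B ^ 2 * |(y : ℝ)| := by positivity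
        linarith
      · have h1 := sub_abs_le k1.br k1'.br
        refine h1.trans ?_
        have h2 : G * B ^ 2 * A ≤ G * B ^ 2 * (8 * |(y : ℝ)|) := by gcongr
        linarith)
  refine hsp.trans ?_
  have hyR : 0 < |(y : ℝ)| := abs_pos.2 (by exact_mod_cast hyne)
  have hMR : (0 : ℝ) < M := by exact_mod_cast hM1
  have e1 : ((y.natAbs * M : ℕ) : ℝ) = |(y : ℝ)| * M := by
    push_cast
    rw [Nat.cast_natAbs, Int.cast_abs]
  rw [e1]
  have e2 : 3 * (144 * G * B ^ 2 * |(y : ℝ)|) / (|(y : ℝ)| * M) = 432 * G * B ^ 2 / M := by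
    field_simp
    ring
  rw [e2]
  have hgR : (0 : ℝ) < g := by exact_mod_cast hg0
  have e3 : 432 * G * B ^ 2 / M = 432 * (G * B ^ 2 / h) * g := by
    have : (h : ℝ) = M * g := by exact_mod_cast hMg.symm
    rw [this]
    field_simp
  rw [e3]
  have h7 : (g : ℝ) ≤ 2 * (Int.gcd p h : ℕ) := by
    have h8 : g ∣ 2 * Nat.gcd h p.natAbs := by
      have := Nat.gcd_mul_right_dvd_mul_gcd h 2 p.natAbs
      refine this.trans (Nat.mul_dvd_mul (Nat.gcd_dvd_right _ _) dvd_rfl)
    have h9 : g ≤ 2 * Nat.gcd h p.natAbs :=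
      Nat.le_of_dvd (by have := Nat.gcd_pos_of_pos_left p.natAbs (show 0 < h by omega); omega) h8
    have h10 : Int.gcd p h = Nat.gcd h p.natAbs := by
      rw [Int.gcd, Int.natAbs_natCast, Nat.gcd_comm]
    rw [h10]
    exact_mod_cast h9
  have h8 : 0 ≤ G * B ^ 2 / h := by positivity
  nlinarith

/-- pigeonhole: a subset on which all labels are constant -/
theorem pigeon (P : Finset ℕ) (f : ℤ → ℤ) (Q : Finset ℤ)
    (hQ : ∀ l ∈ P, (Q.image (fun q => ((f q : ℤ) : ZMod l))).card ≤ 3) :
    ∃ Q' ⊆ Q, Q.card ≤ 3 ^ P.card * Q'.card ∧ ∀ l ∈ P, ∀ q ∈ Q', ∀ q' ∈ Q', (l : ℤ) ∣ f q - f q' := by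
  classical
  induction P using Finset.induction_on with
  | empty => exact ⟨Q, subset_rfl, by simp, by simp⟩
  | insert l P hl ih =>
    obtain ⟨Q₁, h1, h2, h3⟩ := ih (fun l' hl' => hQ l' (mem_insert_of_mem hl'))
    rcases Q₁.eq_empty_or_nonempty with he | hne
    · refine ⟨∅, empty_subset _, ?_, by simp⟩
      rw [he, card_empty, mul_zero] at h2
      omega
    set g : ℤ → ZMod l := fun q => ((f q : ℤ) : ZMod l) with hg
    have hcard : (Q₁.image g).card ≤ 3 :=
      (card_le_card (image_subset_image h1)).trans (hQ l (mem_insert_self _ _))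
    -- a fibre of maximal size
    obtain ⟨v, hv, hmax⟩ := Finset.exists_max_image (Q₁.image g) (fun v => (Q₁.filter (fun q => g q = v)).card)
      (hne.image _)
    set Q₂ := Q₁.filter (fun q => g q = v) with hQ₂
    have h4 : Q₁.card ≤ 3 * Q₂.card := by
      rw [card_eq_sum_card_image g Q₁]
      calc ∑ b ∈ Q₁.image g, (Q₁.filter (fun q => g q = b)).card ≤ ∑ _b ∈ Q₁.image g, Q₂.card :=
            sum_le_sum fun b hb => hmax b hb
        _ = (Q₁.image g).card * Q₂.card := by rw [sum_const, smul_eq_mul]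
        _ ≤ _ := Nat.mul_le_mul_right _ hcard
    refine ⟨Q₂, (filter_subset _ _).trans h1, ?_, ?_⟩
    · rw [card_insert_of_notMem hl, pow_succ, mul_assoc]
      exact h2.trans (Nat.mul_le_mul_left _ h4)
    · intro l' hl' q hq q' hq'
      rcases mem_insert.1 hl' with h5 | h5
      · subst h5
        have a := (mem_filter.1 hq).2
        have b := (mem_filter.1 hq').2
        rw [← ZMod.intCast_zmod_eq_zero_iff_dvd]
        push_cast
        have : ((f q : ℤ) : ZMod l') = ((f q' : ℤ) : ZMod l') := a.trans b.symm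
        rw [this, sub_self]
      · exact h3 l' h5 q (mem_filter.1 hq).1 q' (mem_filter.1 hq').1

/-- at most three cube roots modulo a prime -/
theorem cube_roots (l : ℕ) (hl : l.Prime) (a : ZMod l) (F : Finset (ZMod l)) (hF : ∀ t ∈ F, t ^ 3 = a) :
    F.card ≤ 3 := by
  classical
  haveI := Fact.mk hl
  have h1 : F ⊆ (Polynomial.nthRoots 3 a).toFinset := by
    intro t ht
    rw [Multiset.mem_toFinset, Polynomial.mem_nthRoots (by norm_num)]
    exact hF t ht
  exact (card_le_card h1).trans ((Multiset.toFinset_card_le _).trans (Polynomial.card_nthRoots 3 a))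

/-- the number of `(q, r)` -/
theorem cnt_q (hA : 0 < A) (hB : 0 < B) (hG : 0 < G) (h : ℕ) (hh : m₀ * s₂ * s₃ * s₄ = h)
    (hh1 : 1 ≤ h) (hsq : Squarefree h) (hmm : (m₀ : ℤ) ∣ m) (hm3 : ¬ 3 ∣ s₂)
    (hms : ∀ l : ℕ, l.Prime → l ∣ s₂ → ¬ (l : ℤ) ∣ m) (p x y : ℤ) (S : Finset F6)
    (hS : ∀ z ∈ S, (Good A B G m m₀ z ∧ Ext s₂ s₃ s₄ z) ∧ z.p = p ∧ z.x = x ∧ z.y = y) :
    (S.card : ℝ) ≤ (1 + 864 * (G * B ^ 2 / h) * (Int.gcd p h : ℕ)) *
      (3 ^ s₂.primeFactors.card * (1 + 576 * (G * A * B / (s₂ * s₄ : ℕ)))) := by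
  classical
  rcases S.eq_empty_or_nonempty with h | ⟨z₀, hz₀⟩
  · rw [h, card_empty, Nat.cast_zero]; positivity
  obtain ⟨⟨g0, -⟩, hp0, hx0, hy0⟩ := hS z₀ hz₀
  have hcop : IsCoprime x y := by have := g0.cop; rwa [hx0, hy0] at this
  have hyne : y ≠ 0 := by have := g0.y0; rwa [hy0] at this
  have hyR : 0 < |(y : ℝ)| := abs_pos.2 (by exact_mod_cast hyne)
  have hhne : h ≠ 0 := by omega
  have hs2 : s₂ ≠ 0 := by rintro rfl; apply hhne; rw [← hh]; ring
  have hs4 : s₄ ≠ 0 := by rintro rfl; apply hhne; rw [← hh]; ring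
  have hs24 : s₂ * s₄ ∣ h := ⟨m₀ * s₃, by rw [← hh]; ring⟩
  have hsq24 : Squarefree (s₂ * s₄) := hsq.squarefree_of_dvd hs24
  have h1 := card_fib S (fun z : F6 => z.q) (1 + 864 * (G * B ^ 2 / h) * (Int.gcd p h : ℕ)) (by
    intro q _
    apply cnt_r hA hB hG h hh hh1 hsq hmm p q x y
    intro z hz
    rw [mem_filter] at hz
    obtain ⟨k, e1, e3, e4⟩ := hS z hz.1
    exact ⟨k, e1, hz.2, e3, e4⟩)
  refine h1.trans ?_
  apply mul_le_mul_of_nonneg_left _ (by positivity)
  have hrel : ∀ z ∈ S, ∀ z' ∈ S,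
      3 * x ^ 2 * (z.q - z'.q) = -(y * (3 * x * (z.r - z'.r) + y * (z.s - z'.s))) := by
    intro z hz z' hz'
    obtain ⟨⟨h1, -⟩, e1, e3, e4⟩ := hS z hz
    obtain ⟨⟨h1', -⟩, e1', e3', e4'⟩ := hS z' hz'
    have a := h1.eqn
    have b := h1'.eqn
    rw [e1, e3, e4] at a
    rw [e1', e3', e4'] at b
    have h2 : y * (3 * x ^ 2 * (z.q - z'.q) + y * (3 * x * (z.r - z'.r) + y * (z.s - z'.s))) = 0 := by
      linear_combination a - b
    rcases mul_eq_zero.1 h2 with h3 | h3
    · exact absurd h3 hyne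
    · linarith
  -- the labels
  set Q := S.image (fun z : F6 => z.q) with hQ
  obtain ⟨Q', hQ'Q, hcard, hlab⟩ := pigeon s₂.primeFactors (fun q => p * x + q * y) Q (by
    intro l hl
    have hlp := Nat.prime_of_mem_primeFactors hl
    have hls : (l : ℤ) ∣ s₂ := Int.natCast_dvd_natCast.2 (Nat.dvd_of_mem_primeFactors hl)
    apply cube_roots l hlp (((p ^ 2 * m : ℤ)) : ZMod l)
    intro t ht
    obtain ⟨q, hq, rfl⟩ := mem_image.1 ht
    obtain ⟨z, hz, rfl⟩ := mem_image.1 hq
    obtain ⟨⟨k1, k2⟩, e1, e3, e4⟩ := hS z hz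
    have a := k1.eqn
    have b1 := hls.trans k2.e2a
    have b2 := hls.trans k2.e2b
    rw [e1, e3, e4] at a
    rw [e1] at b1 b2
    have c : (l : ℤ) ∣ (p * x + z.q * y) ^ 3 - p ^ 2 * m := by
      have e : (p * x + z.q * y) ^ 3 - p ^ 2 * m =
          (z.q ^ 2 - p * z.r) * (3 * p * x * y ^ 2 + z.q * y ^ 3) +
            (z.q * z.r - p * z.s) * (p * y ^ 3) := by
        rw [← a]; ring
      rw [e]
      exact dvd_add (b1.mul_right _) (b2.mul_right _)
    rw [← ZMod.intCast_zmod_eq_zero_iff_dvd] at c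
    push_cast at c ⊢
    exact sub_eq_zero.1 c)
  have hyn : 1 ≤ y.natAbs * (s₂ * s₄) :=
    Nat.one_le_iff_ne_zero.2 (Nat.mul_ne_zero (Int.natAbs_ne_zero.2 hyne) (Nat.mul_ne_zero hs2 hs4))
  have hsp := spaced3 Q' (y.natAbs * (s₂ * s₄)) (192 * G * A * B * |(y : ℝ)|)
    hyn (by positivity) (by
      intro a ha b hb
      obtain ⟨z, hz, rfl⟩ := mem_image.1 (hQ'Q ha)
      obtain ⟨z', hz', rfl⟩ := mem_image.1 (hQ'Q hb)
      have h1 : y ∣ x ^ 2 * (3 * (z.q - z'.q)) :=
        ⟨-(3 * x * (z.r - z'.r) + y * (z.s - z'.s)), by linear_combination hrel z hz z' hz'⟩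
      have h2 : y ∣ 3 * (z.q - z'.q) := hcop.symm.pow_right.dvd_of_dvd_mul_left h1
      obtain ⟨Z, hZ⟩ := h2
      have hZ2 : x ^ 2 * Z = -(3 * x * (z.r - z'.r) + y * (z.s - z'.s)) := by
        have h3 : y * (x ^ 2 * Z + (3 * x * (z.r - z'.r) + y * (z.s - z'.s))) = 0 := by
          linear_combination hrel z hz z' hz' - x ^ 2 * hZ
        rcases mul_eq_zero.1 h3 with h4 | h4
        · exact absurd h4 hyne
        · linarith
      obtain ⟨⟨k1, k2⟩, e1, e3, e4⟩ := hS z hz
      obtain ⟨⟨k1', k2'⟩, e1', e3', e4'⟩ := hS z' hz'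
      have hMZ : ((s₂ * s₄ : ℕ) : ℤ) ∣ Z := by
        apply sq_dvd_of hsq24
        intro l hl hlM
        have hlP : Prime (l : ℤ) := Nat.prime_iff_prime_int.1 hl
        have fin1 : ¬ (l : ℤ) ∣ y → (l : ℤ) ∣ z.q - z'.q → (l : ℤ) ∣ Z := by
          intro f1 f2
          have f3 : (l : ℤ) ∣ y * Z := by rw [← hZ]; exact f2.mul_left 3
          exact (hlP.dvd_or_dvd f3).resolve_left f1
        have fin2 : (l : ℤ) ∣ y → (l : ℤ) ∣ z.r - z'.r → (l : ℤ) ∣ Z := by
          intro f1 f2
          have f3 : (l : ℤ) ∣ x ^ 2 * Z := by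
            rw [hZ2]
            exact (dvd_add (f2.mul_left _) (f1.mul_right _)).neg_right
          rcases hlP.dvd_or_dvd f3 with f4 | f4
          · exact absurd (hcop.isUnit_of_dvd' (hlP.dvd_of_dvd_pow f4) f1) hlP.not_isUnit
          · exact f4
        rcases (Nat.Prime.dvd_mul hl).1 hlM with h5 | h5
        · -- `l ∣ s₂`
          have hls : (l : ℤ) ∣ s₂ := Int.natCast_dvd_natCast.2 h5
          have c := hlab l (Nat.mem_primeFactors.2 ⟨hl, h5, hs2⟩) _ ha _ hb
          have e : p * x + z.q * y - (p * x + z'.q * y) = (z.q - z'.q) * y := by ring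
          rw [e] at c
          by_cases hly : (l : ℤ) ∣ y
          · apply fin2 hly
            have hlp1 : ¬ (l : ℤ) ∣ p := by
              intro hlp1
              apply hms l hl h5
              have he := k1.eqn
              rw [e1, e3, e4] at he
              rw [← he]
              have e5 : p * x ^ 3 + 3 * z.q * x ^ 2 * y + 3 * z.r * x * y ^ 2 + z.s * y ^ 3 =
                  p * x ^ 3 + y * (3 * z.q * x ^ 2 + 3 * z.r * x * y + z.s * y ^ 2) := by ring
              rw [e5]
              exact dvd_add (hlp1.mul_right _) (hly.mul_right _)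
            have hl3 : ¬ (l : ℤ) ∣ 3 := by
              intro hl3
              have h6 : l ∣ 3 := by exact_mod_cast hl3
              have h7 := (Nat.prime_dvd_prime_iff_eq hl Nat.prime_three).1 h6
              rw [h7] at h5
              exact hm3 h5
            have hqq : (l : ℤ) ∣ z.q - z'.q := by
              have : (l : ℤ) ∣ 3 * (z.q - z'.q) := by rw [hZ]; exact hly.mul_right _
              exact (hlP.dvd_or_dvd this).resolve_left hl3
            have b1 := hls.trans k2.e2a
            have b2 := hls.trans k2'.e2a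
            rw [e1] at b1
            rw [e1'] at b2
            have b3 := dvd_sub b2 b1
            have e6 : z'.q ^ 2 - p * z'.r - (z.q ^ 2 - p * z.r) =
                p * (z.r - z'.r) - (z.q - z'.q) * (z.q + z'.q) := by ring
            rw [e6] at b3
            have b4 : (l : ℤ) ∣ p * (z.r - z'.r) := by
              have := dvd_add b3 (hqq.mul_right (z.q + z'.q))
              rwa [sub_add_cancel] at this
            exact (hlP.dvd_or_dvd b4).resolve_left hlp1
          · exact fin1 hly ((hlP.dvd_or_dvd c).resolve_right hly)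
        · -- `l ∣ s₄`
          have hls : (l : ℤ) ∣ s₄ := Int.natCast_dvd_natCast.2 h5
          have a1 := hls.trans (dvd_sub k2.e4a k2'.e4a)
          have a2 := hls.trans (dvd_sub k2.e4b k2'.e4b)
          have a3 := hls.trans (dvd_sub k2.e4c k2'.e4c)
          rw [e1, e3, e4, e1', e3', e4'] at a1
          rw [e3, e4, e3', e4'] at a2 a3
          have e5 : p * x + z.q * y - (p * x + z'.q * y) = (z.q - z'.q) * y := by ring
          have e6 : z.q * x + z.r * y - (z'.q * x + z'.r * y) =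
            x * (z.q - z'.q) + y * (z.r - z'.r) := by ring
          have e7 : z.r * x + z.s * y - (z'.r * x + z'.s * y) =
            x * (z.r - z'.r) + y * (z.s - z'.s) := by ring
          rw [e5] at a1
          rw [e6] at a2
          rw [e7] at a3
          by_cases hly : (l : ℤ) ∣ y
          · apply fin2 hly
            have a4 : (l : ℤ) ∣ x * (z.r - z'.r) := by
              have := dvd_sub a3 (hly.mul_right (z.s - z'.s))
              rwa [add_sub_cancel_right] at this
            rcases hlP.dvd_or_dvd a4 with f4 | f4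
            · exact absurd (hcop.isUnit_of_dvd' f4 hly) hlP.not_isUnit
            · exact f4
          · exact fin1 hly ((hlP.dvd_or_dvd a1).resolve_right hly)
      rw [hZ]
      have this : ((y.natAbs : ℕ) : ℤ) ∣ y := Int.natAbs_dvd.2 dvd_rfl
      have h9 := mul_dvd_mul this hMZ
      rw [← Nat.cast_mul] at h9
      exact h9) (by
      intro a ha b hb
      obtain ⟨z, hz, rfl⟩ := mem_image.1 (hQ'Q ha)
      obtain ⟨z', hz', rfl⟩ := mem_image.1 (hQ'Q hb)
      obtain ⟨⟨k1, -⟩, e1, e3, e4⟩ := hS z hz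
      obtain ⟨⟨k1', -⟩, e1', e3', e4'⟩ := hS z' hz'
      rcases le_total (8 * |(y : ℝ)|) A with hc | hc
      · have hxb : B ≤ 8 * |(x : ℝ)| := by
          have := k1.xbig hA (by rw [e4]; exact hc)
          rwa [e3] at this
        have hss := sub_abs_le k1.bs k1'.bs
        have hrr := sub_abs_le k1.br k1'.br
        have hr := hrel z hz z' hz'
        have hrR : 3 * (x : ℝ) ^ 2 * ((z.q : ℝ) - z'.q) =
            -((y : ℝ) * (3 * x * ((z.r : ℝ) - z'.r) + y * ((z.s : ℝ) - z'.s))) := by
          exact_mod_cast hr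
        have h1 : 3 * |(x : ℝ)| ^ 2 * |(z.q : ℝ) - z'.q| ≤
            |(y : ℝ)| * (3 * |(x : ℝ)| * (2 * (9 * G * A * B ^ 2)) +
              |(y : ℝ)| * (2 * (9 * G * B ^ 3))) := by
          have h2 := congrArg abs hrR
          rw [abs_neg, abs_mul, abs_mul, abs_mul, abs_of_pos (by norm_num : (0 : ℝ) < 3),
            abs_pow] at h2
          rw [h2]
          apply mul_le_mul_of_nonneg_left _ (abs_nonneg _)
          refine (abs_add_le _ _).trans ?_
          rw [abs_mul, abs_mul, abs_mul, abs_of_pos (by norm_num : (0 : ℝ) < 3)]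
          gcongr
        have hxpos : 0 < |(x : ℝ)| := by linarith
        have h3 : |(y : ℝ)| * (2 * (9 * G * B ^ 3)) ≤ 18 * G * A * B ^ 2 * |(x : ℝ)| := by
          have : |(y : ℝ)| * B ≤ A / 8 * (8 * |(x : ℝ)|) :=
            mul_le_mul (by linarith) hxb hB.le (by positivity)
          have h4 : 18 * G * B ^ 2 * (|(y : ℝ)| * B) ≤ 18 * G * B ^ 2 * (A / 8 * (8 * |(x : ℝ)|)) := by
            gcongr
          linarith
        have h5 : 3 * |(x : ℝ)| ^ 2 * |(z.q : ℝ) - z'.q| ≤
            3 * |(x : ℝ)| * (24 * G * A * B ^ 2 * |(y : ℝ)|) := by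
          refine h1.trans ?_
          have := mul_le_mul_of_nonneg_left h3 hyR.le
          nlinarith
        have h6 : |(x : ℝ)| * |(z.q : ℝ) - z'.q| ≤ 24 * G * A * B ^ 2 * |(y : ℝ)| := by
          have e : 3 * |(x : ℝ)| ^ 2 * |(z.q : ℝ) - z'.q| =
              3 * |(x : ℝ)| * (|(x : ℝ)| * |(z.q : ℝ) - z'.q|) := by ring
          rw [e] at h5
          exact le_of_mul_le_mul_left h5 (by positivity)
        have h7 : B * |(z.q : ℝ) - z'.q| ≤ B * (192 * G * A * B * |(y : ℝ)|) := by
          have h8 : B * |(z.q : ℝ) - z'.q| ≤ 8 * |(x : ℝ)| * |(z.q : ℝ) - z'.q| := by gcongr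
          nlinarith
        exact le_of_mul_le_mul_left h7 hB
      · have h1 := sub_abs_le k1.bq k1'.bq
        refine h1.trans ?_
        have h2 : G * A * B * A ≤ G * A * B * (8 * |(y : ℝ)|) := by gcongr
        have h3 : 0 ≤ G * A * B * |(y : ℝ)| := by positivity
        nlinarith)
  have hcR : (Q.card : ℝ) ≤ 3 ^ s₂.primeFactors.card * (Q'.card : ℝ) := by exact_mod_cast hcard
  refine hcR.trans ?_
  apply mul_le_mul_of_nonneg_left _ (by positivity)
  refine hsp.trans ?_
  have hsR : (0 : ℝ) < ((s₂ * s₄ : ℕ) : ℝ) := by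
    exact_mod_cast Nat.pos_of_ne_zero (Nat.mul_ne_zero hs2 hs4)
  have e1 : ((y.natAbs * (s₂ * s₄) : ℕ) : ℝ) = |(y : ℝ)| * ((s₂ * s₄ : ℕ) : ℝ) := by
    rw [Nat.cast_mul, Nat.cast_natAbs, Int.cast_abs]
  rw [e1]
  have e2 : 3 * (192 * G * A * B * |(y : ℝ)|) / (|(y : ℝ)| * ((s₂ * s₄ : ℕ) : ℝ)) =
      576 * (G * A * B / ((s₂ * s₄ : ℕ) : ℝ)) := by
    field_simp
    ring
  rw [e2]
  linarith

end Run7.h577.V
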