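import Mathlib
import Pool.Agent.Run7.h577.VE

/-!
The number of the representations with the additional conditions: the sum over `(x, p, y)`.
-/

set_option autoImplicit false

namespace Run7.h577.V

open Finset Run7.h577.S

theorem three_pow_omega (ε : ℝ) (hε : 0 < ε) : ∃ C : ℝ, 0 < C ∧ ∀ n : ℕ, 1 ≤ n →
    (3 : ℝ) ^ n.primeFactors.card ≤ C * (n : ℝ) ^ ε := by
  obtain ⟨C, hC, hdiv⟩ := Pool.Agent.R481.S2.divisor_bound_real (ε / 2) (by positivity)
  refine ⟨C ^ 2, by positivity, fun n hn => ?_⟩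
  have h1 : 2 ^ n.primeFactors.card ≤ n.divisors.card := by
    rw [Nat.card_divisors (by omega)]
    rw [← Finset.prod_const]
    apply Finset.prod_le_prod' 
    intro p hp
    have := Nat.Prime.factorization_pos_of_dvd (Nat.prime_of_mem_primeFactors hp) (by omega)
      (Nat.dvd_of_mem_primeFactors hp)
    omega
  have h2 : (2 : ℝ) ^ n.primeFactors.card ≤ C * (n : ℝ) ^ (ε / 2) :=
    le_trans (by exact_mod_cast h1) (hdiv n (by omega))
  have hnR : (0 : ℝ) < n := by exact_mod_cast hn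
  calc (3 : ℝ) ^ n.primeFactors.card ≤ (2 ^ 2) ^ n.primeFactors.card := by
        gcongr; norm_num
    _ = (2 ^ n.primeFactors.card) ^ 2 := by rw [← pow_mul, ← pow_mul, mul_comm]
    _ ≤ (C * (n : ℝ) ^ (ε / 2)) ^ 2 := by gcongr
    _ = C ^ 2 * (n : ℝ) ^ ε := by
        rw [mul_pow, ← Real.rpow_natCast ((n : ℝ) ^ (ε / 2)) 2, ← Real.rpow_mul hnR.le]
        congr 2
        push_cast
        ring

/-- the number of `(x, q, r)` for given `(p, y)` -/
theorem cnt_x (ε : ℝ) (hε : 0 < ε) : ∃ C : ℝ, 0 < C ∧ ∀ (A B G : ℝ) (m : ℤ) (m₀ s₂ s₃ s₄ h : ℕ),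
    0 < A → 0 < B → 0 < G → m₀ * s₂ * s₃ * s₄ = h → 1 ≤ h → Squarefree h → (m₀ : ℤ) ∣ m → ¬ 3 ∣ s₂ →
    (∀ l : ℕ, l.Prime → l ∣ s₂ → ¬ (l : ℤ) ∣ m) → ∀ (p y : ℤ) (S : Finset F6),
    (∀ z ∈ S, (Good A B G m m₀ z ∧ Ext s₂ s₃ s₄ z) ∧ z.p = p ∧ z.y = y) →
    (S.card : ℝ) ≤ C * (3 ^ s₂.primeFactors.card * (1 + G * A * B / (s₂ * s₄ : ℕ))) *
      (|(y : ℝ)| ^ ε * (Int.gcd p y : ℕ) *
      (1 + (G * A ^ 2 * B) / |(p : ℝ)|) * (1 + (G * B ^ 2 / h) * (Int.gcd p h : ℕ))) := by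
  classical
  obtain ⟨C, hC, hcube⟩ := cube_count ε hε
  refine ⟨864 * 576 * (2646 * C), by positivity,
    fun A B G m m₀ s₂ s₃ s₄ h hA hB hG hh hm₀ hsq hmm hm3 hms p y S hS => ?_⟩
  rcases S.eq_empty_or_nonempty with h | ⟨z₀, hz₀⟩
  · rw [h, card_empty, Nat.cast_zero]; positivity
  obtain ⟨⟨g0, -⟩, hp0, hy0⟩ := hS z₀ hz₀
  have hyne : y ≠ 0 := by have := g0.y0; rwa [hy0] at this
  have hpne : p ≠ 0 := by have := g0.p0; rwa [hp0] at this
  have hyR : 0 < |(y : ℝ)| := abs_pos.2 (by exact_mod_cast hyne)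
  have hpR : 0 < |(p : ℝ)| := abs_pos.2 (by exact_mod_cast hpne)
  have hpA : |(p : ℝ)| ≤ 9 * G * A ^ 3 := by have := g0.bp; rwa [hp0] at this
  set K : ℝ := (1 + 864 * (G * B ^ 2 / h) * (Int.gcd p h : ℕ)) *
    (3 ^ s₂.primeFactors.card * (1 + 576 * (G * A * B / (s₂ * s₄ : ℕ)))) with hK
  have hK0 : 0 ≤ K := by positivity
  have h1 := card_fib S (fun z : F6 => z.x) K (by
    intro x _
    apply cnt_q hA hB hG h hh hm₀ hsq hmm hm3 hms p x y
    intro z hz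
    rw [mem_filter] at hz
    obtain ⟨k, e1, e4⟩ := hS z hz.1
    exact ⟨k, e1, hz.2, e4⟩)
  -- the number of `x`
  have hgood : ∀ z ∈ S, y ∣ p * z.x ^ 3 - m ∧ IsCoprime z.x y := by
    intro z hz
    obtain ⟨⟨k, -⟩, e1, e4⟩ := hS z hz
    have a := k.eqn
    have b := k.cop
    rw [e1, e4] at a
    rw [e4] at b
    exact ⟨⟨-(3 * z.q * z.x ^ 2 + 3 * z.r * z.x * y + z.s * y ^ 2), by linear_combination a⟩, b⟩
  have hx : ((S.image (fun z : F6 => z.x)).card : ℝ) ≤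
      2646 * C * (|(y : ℝ)| ^ ε * (Int.gcd p y : ℕ) * (1 + (G * A ^ 2 * B) / |(p : ℝ)|)) := by
    rcases le_total (8 * |(y : ℝ)|) A with hc | hc
    · -- two signs
      set S₁ := S.filter (fun z : F6 => 0 < z.x) with hS₁
      set S₂ := S.filter (fun z : F6 => z.x < 0) with hS₂
      have hcov : S.image (fun z : F6 => z.x) ⊆
          S₁.image (fun z : F6 => z.x) ∪ S₂.image (fun z : F6 => z.x) := by
        intro x hx
        obtain ⟨z, hz, rfl⟩ := mem_image.1 hx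
        obtain ⟨⟨k, -⟩, e1, e4⟩ := hS z hz
        have hb := k.xbig hA (by rw [e4]; exact hc)
        have hx0 : z.x ≠ 0 := by
          intro h0
          rw [h0, Int.cast_zero, abs_zero, mul_zero] at hb
          linarith
        rw [mem_union, mem_image, mem_image]
        rcases lt_or_gt_of_ne hx0 with h | h
        · exact Or.inr ⟨z, mem_filter.2 ⟨hz, h⟩, rfl⟩
        · exact Or.inl ⟨z, mem_filter.2 ⟨hz, h⟩, rfl⟩
      set L : ℝ := 1323 * (G * A ^ 2 * B) * |(y : ℝ)| / |(p : ℝ)| with hL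
      have hL0 : 0 ≤ L := by positivity
      have hb : ∀ T : Finset F6, T ⊆ S → (∀ z ∈ T, ∀ z' ∈ T, 0 < z.x * z'.x) →
          ((T.image (fun z : F6 => z.x)).card : ℝ) ≤
            C * |(y : ℝ)| ^ ε * (Int.gcd p y) * (L / |(y : ℝ)| + 1) := by
        intro T hT hsign
        apply hcube y p m L _ hyne hL0
        · intro x hx
          obtain ⟨z, hz, rfl⟩ := mem_image.1 hx
          exact hgood z (hT hz)
        · intro a ha b hb
          obtain ⟨z, hz, rfl⟩ := mem_image.1 ha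
          obtain ⟨z', hz', rfl⟩ := mem_image.1 hb
          obtain ⟨⟨k, -⟩, e1, e4⟩ := hS z (hT hz)
          obtain ⟨⟨k', -⟩, e1', e4'⟩ := hS z' (hT hz')
          have := x_close hA hB hG k k' (by rw [e1, e1']) (by rw [e4, e4']) (by rw [e4]; exact hc)
            (hsign z hz z' hz')
          rw [e1, e4] at this
          exact this
      have b1 := hb S₁ (filter_subset _ _) (by
        intro z hz z' hz'
        exact mul_pos (mem_filter.1 hz).2 (mem_filter.1 hz').2)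
      have b2 := hb S₂ (filter_subset _ _) (by
        intro z hz z' hz'
        exact mul_pos_of_neg_of_neg (mem_filter.1 hz).2 (mem_filter.1 hz').2)
      have hcard := (card_le_card hcov).trans (card_union_le _ _)
      have hcardR : ((S.image (fun z : F6 => z.x)).card : ℝ) ≤
          ((S₁.image (fun z : F6 => z.x)).card : ℝ) + ((S₂.image (fun z : F6 => z.x)).card : ℝ) := by
        exact_mod_cast hcard
      have e : L / |(y : ℝ)| = 1323 * ((G * A ^ 2 * B) / |(p : ℝ)|) := by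
        rw [hL]; field_simp
      rw [e] at b1 b2
      have h0 : 0 ≤ C * |(y : ℝ)| ^ ε * (Int.gcd p y : ℕ) := by positivity
      have h2 : 0 ≤ (G * A ^ 2 * B) / |(p : ℝ)| := by positivity
      calc ((S.image (fun z : F6 => z.x)).card : ℝ) ≤
            2 * (C * |(y : ℝ)| ^ ε * (Int.gcd p y) * (1323 * ((G * A ^ 2 * B) / |(p : ℝ)|) + 1)) := by
              linarith
        _ ≤ 2 * (C * |(y : ℝ)| ^ ε * (Int.gcd p y) * (1323 * (1 + (G * A ^ 2 * B) / |(p : ℝ)|))) := by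
              gcongr
              linarith
        _ = _ := by ring
    · have hb := hcube y p m (2 * B) (S.image (fun z : F6 => z.x)) hyne (by positivity) (by
        intro x hx
        obtain ⟨z, hz, rfl⟩ := mem_image.1 hx
        exact hgood z hz) (by
        intro a ha b hb
        obtain ⟨z, hz, rfl⟩ := mem_image.1 ha
        obtain ⟨z', hz', rfl⟩ := mem_image.1 hb
        exact sub_abs_le (hS z hz).1.1.hx (hS z' hz').1.1.hx)
      refine hb.trans ?_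
      have e : 2 * B / |(y : ℝ)| ≤ 144 * ((G * A ^ 2 * B) / |(p : ℝ)|) := by
        rw [div_le_iff₀ hyR]
        have e2 : 144 * ((G * A ^ 2 * B) / |(p : ℝ)|) * |(y : ℝ)| =
            144 * (G * A ^ 2 * B) * |(y : ℝ)| / |(p : ℝ)| := by ring
        rw [e2, le_div_iff₀ hpR]
        calc 2 * B * |(p : ℝ)| ≤ 2 * B * (9 * G * A ^ 3) := by gcongr
          _ = 18 * (G * A ^ 2 * B) * A := by ring
          _ ≤ 18 * (G * A ^ 2 * B) * (8 * |(y : ℝ)|) := by gcongr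
          _ = _ := by ring
      have h0 : 0 ≤ C * |(y : ℝ)| ^ ε * (Int.gcd p y : ℕ) := by positivity
      have h2 : 0 ≤ (G * A ^ 2 * B) / |(p : ℝ)| := by positivity
      calc C * |(y : ℝ)| ^ ε * (Int.gcd p y) * (2 * B / |(y : ℝ)| + 1) ≤
            C * |(y : ℝ)| ^ ε * (Int.gcd p y) * (2646 * (1 + (G * A ^ 2 * B) / |(p : ℝ)|)) := by
              gcongr
              linarith
        _ = _ := by ring
  have hKb : K ≤ 864 * 576 * ((3 ^ s₂.primeFactors.card * (1 + G * A * B / (s₂ * s₄ : ℕ))) *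
      (1 + (G * B ^ 2 / h) * (Int.gcd p h : ℕ))) := by
    have h2 : 0 ≤ (G * B ^ 2 / h) * (Int.gcd p h : ℕ) := by positivity
    have h3 : 0 ≤ G * A * B / (s₂ * s₄ : ℕ) := by positivity
    calc K ≤ (864 * (1 + (G * B ^ 2 / h) * (Int.gcd p h : ℕ))) *
          (3 ^ s₂.primeFactors.card * (576 * (1 + G * A * B / (s₂ * s₄ : ℕ)))) := by
          rw [hK]
          gcongr
          · nlinarith
          · nlinarith
      _ = _ := by ring
  calc (S.card : ℝ) ≤ K * ((S.image (fun z : F6 => z.x)).card : ℝ) := h1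
    _ ≤ (864 * 576 * ((3 ^ s₂.primeFactors.card * (1 + G * A * B / (s₂ * s₄ : ℕ))) *
        (1 + (G * B ^ 2 / h) * (Int.gcd p h : ℕ)))) *
        (2646 * C * (|(y : ℝ)| ^ ε * (Int.gcd p y : ℕ) * (1 + (G * A ^ 2 * B) / |(p : ℝ)|))) := by
        apply mul_le_mul hKb hx (Nat.cast_nonneg _) (by positivity)
    _ = _ := by ring

/-- MAIN COUNT -/
theorem main_count (ε : ℝ) (hε : 0 < ε) : ∃ C : ℝ, 0 < C ∧ ∀ (A B G Z : ℝ) (m : ℤ)
    (m₀ s₂ s₃ s₄ h : ℕ), 0 < A → A ≤ 2 * B → 0 < G → 1 ≤ Z → A ≤ Z → 9 * G * A ^ 3 ≤ Z →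
    (h : ℝ) ≤ Z → m₀ * s₂ * s₃ * s₄ = h → 1 ≤ h → Squarefree h → (m₀ : ℤ) ∣ m → ¬ 3 ∣ s₂ →
    (∀ l : ℕ, l.Prime → l ∣ s₂ → ¬ (l : ℤ) ∣ m) →
    ∀ S : Finset F6, (∀ z ∈ S, Good A B G m m₀ z ∧ Ext s₂ s₃ s₄ z) →
    (S.card : ℝ) ≤ C * Z ^ ε * (G * A ^ 3 * B * (1 + G * A * B / (s₂ * s₄ : ℕ)) *
      (1 + G * B ^ 2 / h)) := by
  classical
  set ε' := ε / 6 with hε'
  have hε'0 : 0 < ε' := by positivity
  obtain ⟨C₁, hC₁, hcx⟩ := cnt_x ε' hε'0
  obtain ⟨C₂, hC₂, hps⟩ := pair_sum ε' hε'0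
  obtain ⟨C₃, hC₃, hom⟩ := three_pow_omega ε' hε'0
  refine ⟨4 * C₁ * C₂ * 19 * C₃, by positivity,
    fun A B G Z m m₀ s₂ s₃ s₄ h hA hAB hG hZ hAZ hPZ hmZ hh hm₀ hsq hmm hm3 hms S hS => ?_⟩
  have hB : 0 < B := by linarith
  have hmR : (0 : ℝ) < h := by exact_mod_cast hm₀
  set KQ : ℝ := 3 ^ s₂.primeFactors.card * (1 + G * A * B / (s₂ * s₄ : ℕ)) with hKQ
  have hKQ0 : 0 ≤ KQ := by positivity
  set Y : ℕ := ⌊A⌋₊ with hY
  set P : ℕ := ⌊9 * G * A ^ 3⌋₊ with hP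
  set H : ℝ := G * A ^ 2 * B with hH
  set ρ : ℝ := G * B ^ 2 / h with hρ
  have hH0 : 0 ≤ H := by positivity
  have hρ0 : 0 ≤ ρ := by positivity
  have hYA : (Y : ℝ) ≤ A := Nat.floor_le hA.le
  have hPA : (P : ℝ) ≤ 9 * G * A ^ 3 := Nat.floor_le (by positivity)
  have h1 := card_fib_sum S (fun z : F6 => (z.y.natAbs, z.p.natAbs)) (Icc 1 Y ×ˢ Icc 1 P)
    (fun b => 4 * (C₁ * KQ * ((b.1 : ℝ) ^ ε' * (Nat.gcd b.2 b.1 : ℕ) *
      (1 + H / b.2) * (1 + ρ * (Nat.gcd b.2 h : ℕ))))) (by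
    intro z hz
    have h := (hS z hz).1
    rw [mem_product, mem_Icc, mem_Icc]
    refine ⟨⟨Nat.one_le_iff_ne_zero.2 (Int.natAbs_ne_zero.2 h.y0), ?_⟩,
      ⟨Nat.one_le_iff_ne_zero.2 (Int.natAbs_ne_zero.2 h.p0), ?_⟩⟩
    · apply Nat.le_floor
      rw [Nat.cast_natAbs, Int.cast_abs]
      exact h.hy
    · apply Nat.le_floor
      rw [Nat.cast_natAbs, Int.cast_abs]
      exact h.bp) (by
    rintro ⟨n, k⟩ -
    simp only
    set T := S.filter (fun z : F6 => (z.y.natAbs, z.p.natAbs) = (n, k)) with hT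
    have h2 := card_fib T (fun z : F6 => (z.y, z.p)) (C₁ * KQ * ((n : ℝ) ^ ε' *
      (Nat.gcd k n : ℕ) * (1 + H / k) * (1 + ρ * (Nat.gcd k h : ℕ)))) (by
      rintro ⟨y, p⟩ hb
      obtain ⟨z₀, hz₀, e⟩ := mem_image.1 hb
      have hz₀' := (mem_filter.1 hz₀).2
      simp only [Prod.mk.injEq] at e hz₀'
      have hn : y.natAbs = n := by rw [← e.1]; exact hz₀'.1
      have hk : p.natAbs = k := by rw [← e.2]; exact hz₀'.2
      have h3 := hcx A B G m m₀ s₂ s₃ s₄ h hA hB hG hh hm₀ hsq hmm hm3 hms p y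
        (T.filter (fun z : F6 => (z.y, z.p) = (y, p))) (by
          intro z hz
          rw [mem_filter] at hz
          have hz2 := hz.2
          simp only [Prod.mk.injEq] at hz2
          exact ⟨hS z (mem_filter.1 hz.1).1, hz2.2, hz2.1⟩)
      have a1 : |(y : ℝ)| = (n : ℝ) := by rw [← hn, Nat.cast_natAbs, Int.cast_abs]
      have a2 : |(p : ℝ)| = (k : ℝ) := by rw [← hk, Nat.cast_natAbs, Int.cast_abs]
      have a3 : Int.gcd p y = Nat.gcd k n := by rw [Int.gcd, hn, hk]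
      have a4 : Int.gcd p h = Nat.gcd k h := by rw [Int.gcd, hk, Int.natAbs_natCast]
      rw [a1, a2, a3, a4] at h3
      exact h3)
    refine h2.trans ?_
    rw [mul_comm]
    apply mul_le_mul_of_nonneg_right _ (by positivity)
    have h4 : T.image (fun z : F6 => (z.y, z.p)) ⊆
        (({(n : ℤ), -(n : ℤ)} : Finset ℤ) ×ˢ ({(k : ℤ), -(k : ℤ)} : Finset ℤ)) := by
      intro b hb
      obtain ⟨z, hz, rfl⟩ := mem_image.1 hb
      have hz' := (mem_filter.1 hz).2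
      simp only [Prod.mk.injEq] at hz'
      rw [mem_product, mem_insert, mem_singleton, mem_insert, mem_singleton]
      constructor
      · have := Int.natAbs_eq z.y
        rw [hz'.1] at this
        exact this
      · have := Int.natAbs_eq z.p
        rw [hz'.2] at this
        exact this
    have h5 := card_le_card h4
    rw [card_product] at h5
    have h6 : (({(n : ℤ), -(n : ℤ)} : Finset ℤ)).card ≤ 2 := card_le_two
    have h7 : (({(k : ℤ), -(k : ℤ)} : Finset ℤ)).card ≤ 2 := card_le_two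
    have h8 : (T.image (fun z : F6 => (z.y, z.p))).card ≤ 4 := h5.trans (Nat.mul_le_mul h6 h7)
    exact_mod_cast h8)
  refine h1.trans ?_
  rw [← mul_sum, ← mul_sum, sum_product]
  have h9 := hps Y P h H ρ Z hm₀ hH0 hρ0 hZ (hYA.trans hAZ) (hPA.trans hPZ) hmZ
  have h10 : (Y : ℝ) * (1 + ρ) * (P + H) ≤ A * (1 + ρ) * (19 * H) := by
    have h11 : (P : ℝ) + H ≤ 19 * H := by
      have : 9 * G * A ^ 3 ≤ 18 * H := by
        rw [hH]
        have : 9 * G * A ^ 2 * A ≤ 9 * G * A ^ 2 * (2 * B) := by gcongr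
        linarith
      linarith
    gcongr
  have hs2 : s₂ ≠ 0 := by rintro rfl; simp at hh; omega
  have hs2Z : (s₂ : ℝ) ≤ Z := by
    have h20 : s₂ ≤ h := Nat.le_of_dvd (by omega) ⟨m₀ * s₃ * s₄, by rw [← hh]; ring⟩
    have h21 : (s₂ : ℝ) ≤ h := by exact_mod_cast h20
    linarith
  have hom1 : (3 : ℝ) ^ s₂.primeFactors.card ≤ C₃ * Z ^ ε' := by
    refine (hom s₂ (by omega)).trans ?_
    gcongr
  have e5 : Z ^ ε' * Z ^ (5 * ε') = Z ^ ε := by
    rw [← Real.rpow_add (by linarith)]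
    congr 1
    rw [hε']; ring
  have hKQb : KQ ≤ C₃ * Z ^ ε' * (1 + G * A * B / (s₂ * s₄ : ℕ)) := by
    rw [hKQ]
    apply mul_le_mul_of_nonneg_right hom1 (by positivity)
  calc 4 * (C₁ * KQ * ∑ y ∈ Icc 1 Y, ∑ k ∈ Icc 1 P, (y : ℝ) ^ ε' * (Nat.gcd k y : ℕ) *
        (1 + H / k) * (1 + ρ * (Nat.gcd k h : ℕ)))
      ≤ 4 * (C₁ * (C₃ * Z ^ ε' * (1 + G * A * B / (s₂ * s₄ : ℕ))) *
          (C₂ * Z ^ (5 * ε') * (A * (1 + ρ) * (19 * H)))) := by
        have h12 : 0 ≤ C₂ * Z ^ (5 * ε') := by positivity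
        have h13 := h9.trans (mul_le_mul_of_nonneg_left h10 h12)
        gcongr
    _ = 4 * C₁ * C₂ * 19 * C₃ * (Z ^ ε' * Z ^ (5 * ε')) * (A * H * (1 + G * A * B / (s₂ * s₄ : ℕ)) *
          (1 + ρ)) := by ring
    _ = _ := by rw [e5, hH]; ring

end Run7.h577.V
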