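import Mathlib
import Pool.Agent.Run7.h577.VF
import Pool.Agent.Run7.h577.SG

/-!
The number of the pairs `(c, d)` with given moduli.
-/

set_option autoImplicit false

namespace Run7.h577.V

open Finset Run7.h577.S

/-- the properties of a pair `(c, d)` with the moduli -/
def Has (X δ : ℝ) (m m₀ s₂ s₃ s₄ c d : ℤ) : Prop :=
  (∃ τ : ℝ, Reg X δ c d τ) ∧
  (∃ t C E : ℤ, m * C = t ^ 2 - c ∧ m ^ 2 * E = t ^ 3 - 3 * c * t + 2 * d ∧
    m₀ ∣ 3 * C ^ 2 - 4 * t * E ∧ s₂ ∣ t ^ 2 - m * C ∧ s₂ ∣ t * C - m * E ∧ s₂ ∣ C ^ 2 - t * E ∧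
    s₃ ∣ t ∧ s₄ ∣ t ∧ s₄ ∣ C) ∧
  (∀ w v : ℤ, ¬ (w = 0 ∧ v = 0) → w ^ 3 - 3 * c * w * v ^ 2 + 2 * d * v ^ 3 ≠ 0)

/-- the dyadic data -/
theorem dyadic {X δ : ℝ} {m m₀ s₂ s₃ s₄ c d : ℤ} (hδ : 0 < δ) (hδX : δ ≤ X) (hm : 2 * δ < m)
    (hm₀ : m₀ ∣ m) (hm3 : s₃ ∣ m) (hm4 : s₄ ∣ m) (h : Has X δ m m₀ s₂ s₃ s₄ c d) :
    ∃ (j : ℕ) (z : F6) (a₁ a₂ : ℝ), (Tup X δ m m₀ c d z.p z.q z.r z.s z.x z.y a₁ a₂ ∧
      Ext s₂ s₃ s₄ z) ∧ a₁ ≤ 2 ^ j ∧ (2 : ℝ) ^ j ≤ 2 * a₁ := by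
  obtain ⟨⟨τ, hτ⟩, ⟨t, C, E, h1, h2, h3, k1, k2, k3, k4, k5, k6⟩, irr⟩ := h
  obtain ⟨p, q, r, s, x, y, a₁, a₂, ht, hext⟩ :=
    tuple X δ τ m m₀ s₂ s₃ s₄ c d t C E hδ hδX hm hτ h1 h2 irr hm₀ h3 k1 k2 k3 hm3 k4 hm4 k5 k6
  have ha1 : 1 ≤ a₁ := by
    have h4 : (1 : ℝ) ≤ |(y : ℝ)| := by
      have := Int.one_le_abs ht.y0
      exact_mod_cast this
    exact h4.trans ht.hy
  -- the least `j`
  have hex : ∃ j : ℕ, a₁ ≤ 2 ^ j := by
    obtain ⟨n, hn⟩ := pow_unbounded_of_one_lt a₁ (by norm_num : (1 : ℝ) < 2)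
    exact ⟨n, hn.le⟩
  classical
  refine ⟨Nat.find hex, ⟨p, q, r, s, x, y⟩, a₁, a₂, ⟨ht, hext⟩, Nat.find_spec hex, ?_⟩
  rcases Nat.eq_zero_or_pos (Nat.find hex) with h0 | h0
  · rw [h0, pow_zero]; linarith
  · have h5 := Nat.find_min hex (m := Nat.find hex - 1) (by omega)
    push Not at h5
    have e : (2 : ℝ) ^ (Nat.find hex) = 2 * 2 ^ (Nat.find hex - 1) := by
      rw [← pow_succ']
      congr 1
      omega
    rw [e]
    linarith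

/-- COUNT for given `m` -/
theorem cnt_m (ε : ℝ) (hε : 0 < ε) : ∃ C : ℝ, 0 < C ∧ ∀ (X δ : ℝ) (m m₀ s₂ s₃ s₄ h : ℕ), 1 ≤ X →
    0 < δ → δ ≤ X → 1 ≤ δ * X ^ 2 → 2 * δ < m → (m : ℝ) ≤ 50 * X ^ 3 → m₀ * s₂ * s₃ * s₄ = h →
    1 ≤ h → Squarefree h → (h : ℝ) ≤ 100000 * X ^ 6 → m₀ ∣ m → s₃ ∣ m → s₄ ∣ m → ¬ 3 ∣ s₂ →
    (∀ l : ℕ, l.Prime → l ∣ s₂ → ¬ (l : ℤ) ∣ (m : ℤ)) →
    ∀ S : Finset (ℤ × ℤ), (∀ e ∈ S, Has X δ m m₀ s₂ s₃ s₄ e.1 e.2) →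
    (S.card : ℝ) ≤ C * X ^ ε * (X + δ * X ^ 2 / m +
      δ ^ 2 * X ^ 3 / (m ^ 2 * ((s₂ * s₄ : ℕ) : ℝ) * h)) := by
  classical
  set ε' := ε / 12 with hε'
  have hε'0 : 0 < ε' := by positivity
  obtain ⟨C₁, hC₁, hmain⟩ := main_count ε' hε'0
  obtain ⟨C₂, hC₂, hlog⟩ := two_pow_log ε' hε'0
  refine ⟨256 * C₁ * C₂ * ((100000 : ℝ) ^ ε' * (20 : ℝ) ^ ε'), by positivity,
    fun X δ m m₀ s₂ s₃ s₄ h hX hδ hδX hδ1 hm hmX hh hm₀ hsq hm₀Z hmm hm3 hm4 h3s hms S hS => ?_⟩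
  have hX0 : 0 < X := by linarith
  have hmpos : (0 : ℝ) < m := by linarith
  have hmposZ : (0 : ℝ) < ((m : ℤ) : ℝ) := by exact_mod_cast hmpos
  have hmZ : 2 * δ < ((m : ℤ) : ℝ) := by exact_mod_cast hm
  have hmmZ : (m₀ : ℤ) ∣ (m : ℤ) := Int.natCast_dvd_natCast.2 hmm
  have hm₀R : (0 : ℝ) < h := by exact_mod_cast hm₀
  have hhR1 : (1 : ℝ) ≤ h := by exact_mod_cast hm₀
  have hs2 : s₂ ≠ 0 := by rintro rfl; simp at hh; omega
  have hs4 : s₄ ≠ 0 := by rintro rfl; simp at hh; omega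
  have hσ1 : (1 : ℝ) ≤ ((s₂ * s₄ : ℕ) : ℝ) := by
    exact_mod_cast Nat.one_le_iff_ne_zero.2 (Nat.mul_ne_zero hs2 hs4)
  have hσ0 : (0 : ℝ) < ((s₂ * s₄ : ℕ) : ℝ) := by linarith
  have hdat : ∀ e ∈ S, ∃ (j : ℕ) (z : F6) (a₁ a₂ : ℝ),
      (Tup X δ m m₀ e.1 e.2 z.p z.q z.r z.s z.x z.y a₁ a₂ ∧ Ext s₂ s₃ s₄ z) ∧ a₁ ≤ 2 ^ j ∧
        (2 : ℝ) ^ j ≤ 2 * a₁ :=
    fun e he => dyadic hδ hδX hmZ hmmZ (Int.natCast_dvd_natCast.2 hm3)
      (Int.natCast_dvd_natCast.2 hm4) (hS e he)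
  choose! jf zf a₁f a₂f hf using hdat
  set Q : ℝ := X + δ * X ^ 2 / m + δ ^ 2 * X ^ 3 / (m ^ 2 * ((s₂ * s₄ : ℕ) : ℝ) * h) with hQ
  have hQ0 : 0 ≤ Q := by positivity
  set K : ℝ := C₁ * (100000 * X ^ 6) ^ ε' * (256 * Q) with hK
  have hm1 : (1 : ℝ) ≤ m := by
    have : 1 ≤ m := by
      rcases Nat.eq_zero_or_pos m with h | h
      · rw [h, Nat.cast_zero] at hmpos; exact absurd hmpos (lt_irrefl _)
      · exact h
    exact_mod_cast this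
  have hX6 : ∀ n : ℕ, n ≤ 6 → X ^ n ≤ X ^ 6 := fun n hn => pow_le_pow_right₀ hX hn
  -- the size of a fibre
  have hfib : ∀ b ∈ S.image jf, ((S.filter (fun e => jf e = b)).card : ℝ) ≤ K := by
    intro b hb
    obtain ⟨e₀, he₀, hjb⟩ := mem_image.1 hb
    obtain ⟨⟨hT0, -⟩, h1, h2⟩ := hf e₀ he₀
    rw [hjb] at h1 h2
    set A : ℝ := 2 ^ b with hA
    obtain ⟨-, hAB, hA1⟩ := good_of_tup hδ hX0 hmposZ hT0 h1 h2
    obtain ⟨hA2, hAX⟩ := dyadic_range hX hδ hδ1 (by exact_mod_cast hmX) hT0.a1 hT0.a12 hT0.prod h2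
    rw [← hA] at hA2 hAX
    have hA0 : 0 < A := by linarith
    set T := S.filter (fun e => jf e = b) with hT
    have hinj : Set.InjOn zf (T : Set (ℤ × ℤ)) := by
      intro e he e' he' hz
      have g1 := (hf e (mem_filter.1 he).1).1.1
      have g2 := (hf e' (mem_filter.1 he').1).1.1
      rw [← hz] at g2
      obtain ⟨k1, k2⟩ := tup_inj g1 g2
      exact Prod.ext k1 k2
    rw [← card_image_of_injOn hinj]
    set B : ℝ := 4 * ((m : ℤ) : ℝ) / (δ * A) with hB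
    set G : ℝ := δ ^ 2 * X / ((m : ℤ) : ℝ) ^ 2 with hG
    have hG0 : 0 < G := by positivity
    have hP : 9 * G * A ^ 3 ≤ 100000 * X ^ 6 := by
      -- `G A^3 = δ² X A A² / m² ≤ δ X A * 8 / m`
      have e1 : 9 * G * A ^ 3 = 9 * (δ ^ 2 * X * A / ((m : ℤ) : ℝ) ^ 2) * A ^ 2 := by rw [hG]; ring
      rw [e1]
      calc 9 * (δ ^ 2 * X * A / ((m : ℤ) : ℝ) ^ 2) * A ^ 2 ≤
            9 * (δ ^ 2 * X * A / ((m : ℤ) : ℝ) ^ 2) * (8 * ((m : ℤ) : ℝ) / δ) := by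
              gcongr
        _ = 72 * δ * X * A / ((m : ℤ) : ℝ) := by field_simp; ring
        _ ≤ 72 * δ * X * A := by
            apply div_le_self (by positivity)
            exact_mod_cast hm1
        _ ≤ 72 * X * X * (20 * X ^ 3) := by gcongr
        _ = 1440 * X ^ 5 := by ring
        _ ≤ 100000 * X ^ 6 := by
            have := hX6 5 (by norm_num)
            have h0 : 0 ≤ X ^ 6 := by positivity
            linarith
    have hone : (1 : ℝ) ≤ 100000 * X ^ 6 := by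
      have : (1 : ℝ) ≤ X ^ 6 := one_le_pow₀ hX
      linarith
    have hAZ : A ≤ 100000 * X ^ 6 := by
      have := hX6 3 (by norm_num)
      have h0 : 0 ≤ X ^ 6 := by positivity
      linarith
    have hc := hmain A B G (100000 * X ^ 6) m m₀ s₂ s₃ s₄ h hA0 hAB hG0 hone hAZ hP hm₀Z hh hm₀ hsq
      hmmZ h3s hms (T.image zf) (by
        intro z hz
        obtain ⟨e, he, rfl⟩ := mem_image.1 hz
        have hj := (mem_filter.1 he).2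
        obtain ⟨⟨g1, g1'⟩, g2, g3⟩ := hf e (mem_filter.1 he).1
        rw [hj] at g2 g3
        exact ⟨(good_of_tup hδ hX0 hmposZ g1 g2 g3).1, g1'⟩)
    refine hc.trans ?_
    rw [hK]
    apply mul_le_mul_of_nonneg_left _ (by positivity)
    -- the computation
    set σ : ℝ := ((s₂ * s₄ : ℕ) : ℝ) with hσ
    have e1 : G * A * B / σ = 4 * δ * X / m / σ := by
      congr 1
      rw [hG, hB]; push_cast; field_simp
    have e2 : G * A ^ 3 * B = 4 * δ * X / m * A ^ 2 := by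
      rw [hG, hB]; push_cast; field_simp
    have e3 : G * B ^ 2 / h = 16 * X / (A ^ 2 * h) := by
      rw [hG, hB]; push_cast; field_simp; ring
    rw [e1, e2, e3]
    have hA2' : A ^ 2 ≤ 8 * m / δ := by exact_mod_cast hA2
    have e4 : 4 * δ * X / m * A ^ 2 * (1 + 4 * δ * X / m / σ) * (1 + 16 * X / (A ^ 2 * h)) =
        4 * δ * X / m * (1 + 4 * δ * X / m / σ) * (A ^ 2 + 16 * X / h) := by
      field_simp
    rw [e4]
    calc 4 * δ * X / m * (1 + 4 * δ * X / m / σ) * (A ^ 2 + 16 * X / h) ≤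
          4 * δ * X / m * (1 + 4 * δ * X / m / σ) * (8 * m / δ + 16 * X / h) := by gcongr
      _ = 32 * X + 128 * (δ * X ^ 2 / m) / σ + 64 * (δ * X ^ 2 / m) / h +
          256 * (δ ^ 2 * X ^ 3 / (m ^ 2 * σ * h)) := by
          field_simp
          ring
      _ ≤ 32 * X + 128 * (δ * X ^ 2 / m) + 64 * (δ * X ^ 2 / m) +
          256 * (δ ^ 2 * X ^ 3 / (m ^ 2 * σ * h)) := by
          have a1 : 128 * (δ * X ^ 2 / m) / σ ≤ 128 * (δ * X ^ 2 / m) :=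
            div_le_self (by positivity) hσ1
          have a2 : 64 * (δ * X ^ 2 / m) / h ≤ 64 * (δ * X ^ 2 / m) :=
            div_le_self (by positivity) hhR1
          linarith
      _ ≤ 256 * Q := by
          rw [hQ]
          have h0 : 0 ≤ δ * X ^ 2 / m := by positivity
          linarith
  have h1 := card_fib S jf K hfib
  -- the number of `j`
  have hj : ((S.image jf).card : ℝ) ≤ C₂ * (20 * X ^ 3) ^ ε' := by
    rcases S.eq_empty_or_nonempty with h | ⟨e₀, he₀⟩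
    · rw [h, image_empty, card_empty, Nat.cast_zero]; positivity
    have hne : (S.image jf).Nonempty := ⟨_, mem_image_of_mem _ he₀⟩
    set J := (S.image jf).max' hne with hJ
    have hJm := (S.image jf).max'_mem hne
    obtain ⟨e, he, heJ⟩ := mem_image.1 hJm
    obtain ⟨⟨g1, -⟩, g2, g3⟩ := hf e he
    rw [heJ] at g2 g3
    obtain ⟨-, hAX⟩ := dyadic_range hX hδ hδ1 (by exact_mod_cast hmX) g1.a1 g1.a12 g1.prod g3
    have hsub : S.image jf ⊆ range (J + 1) := by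
      intro j hj
      rw [mem_range, Nat.lt_succ_iff]
      exact (S.image jf).le_max' j hj
    have h2 := card_le_card hsub
    rw [card_range] at h2
    have h3 : ((S.image jf).card : ℝ) ≤ (J : ℝ) + 1 := by exact_mod_cast h2
    refine h3.trans (hlog _ J ?_ hAX)
    have : (1 : ℝ) ≤ X ^ 3 := one_le_pow₀ hX
    linarith
  have e5 : ((100000 : ℝ) * X ^ 6) ^ ε' = (100000 : ℝ) ^ ε' * X ^ (6 * ε') := by
    rw [Real.mul_rpow (by norm_num) (by positivity), ← Real.rpow_natCast X 6,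
      ← Real.rpow_mul hX0.le]
    norm_num
  have e6 : ((20 : ℝ) * X ^ 3) ^ ε' = (20 : ℝ) ^ ε' * X ^ (3 * ε') := by
    rw [Real.mul_rpow (by norm_num) (by positivity), ← Real.rpow_natCast X 3,
      ← Real.rpow_mul hX0.le]
    norm_num
  have e7 : X ^ (6 * ε') * X ^ (3 * ε') ≤ X ^ ε := by
    rw [← Real.rpow_add hX0]
    apply Real.rpow_le_rpow_of_exponent_le hX
    rw [hε']; linarith
  calc (S.card : ℝ) ≤ K * ((S.image jf).card : ℝ) := h1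
    _ ≤ K * (C₂ * (20 * X ^ 3) ^ ε') := by
        apply mul_le_mul_of_nonneg_left hj
        rw [hK]; positivity
    _ = 256 * C₁ * C₂ * ((100000 : ℝ) ^ ε' * (20 : ℝ) ^ ε') * (X ^ (6 * ε') * X ^ (3 * ε')) * Q := by
        rw [hK, e5, e6]; ring
    _ ≤ 256 * C₁ * C₂ * ((100000 : ℝ) ^ ε' * (20 : ℝ) ^ ε') * X ^ ε * Q := by gcongr
    _ = _ := by rw [hQ]

end Run7.h577.V
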