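import Mathlib
import Pool.Agent.Run7.h577.SI

/-!
The elementary count for small moduli, with divisibility conditions on `c` and `d`.
-/

set_option autoImplicit false

namespace Run7.h577.V

open Finset Run7.h577.S

/-- the elementary count -/
theorem cnt_elem (ε : ℝ) (hε : 0 < ε) : ∃ C : ℝ, 0 < C ∧ ∀ (X δ : ℝ) (M κc κd : ℕ), 1 ≤ X → 0 < δ →
    1 ≤ M → 1 ≤ κc → 1 ≤ κd → Nat.Coprime M κd →
    ∀ S : Finset (ℤ × ℤ), (∀ e ∈ S, |(e.1 : ℝ)| ≤ X ^ 2 ∧ IsCoprime e.1 (M : ℤ) ∧
      (M : ℤ) ∣ e.2 ^ 2 - e.1 ^ 3 ∧ (κc : ℤ) ∣ e.1 ∧ (κd : ℤ) ∣ e.2 ∧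
      ∃ i : Fin 3, Reg X δ e.1 e.2 (tau i e.1)) →
    (S.card : ℝ) ≤ C * (M : ℝ) ^ ε * ((X ^ 2 / κc + 1) * (δ ^ 2 * X / (M * κd) + 1)) := by
  classical
  obtain ⟨C, hC, hroots⟩ := Pool.Agent.H328R2.ABC.roots 2 (by norm_num) ε hε
  refine ⟨12 * C, by positivity, fun X δ M κc κd hX hδ hM hκc hκd hMκ S hS => ?_⟩
  have hX0 : 0 < X := by linarith
  have hMR : (0 : ℝ) < M := by exact_mod_cast hM
  have hκcR : (0 : ℝ) < κc := by exact_mod_cast hκc
  have hκdR : (0 : ℝ) < κd := by exact_mod_cast hκd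
  haveI : NeZero M := ⟨by omega⟩
  have hch : ∀ e ∈ S, ∃ i : Fin 3, Reg X δ e.1 e.2 (tau i e.1) := fun e he => (hS e he).2.2.2.2.2
  choose! g hg using hch
  have h1 := card_fib S (fun e : ℤ × ℤ => e.1) (3 * (C * (M : ℝ) ^ ε * (2 * δ ^ 2 * X / (M * κd) + 1))) (by
    intro c hc
    set T := S.filter (fun e : ℤ × ℤ => e.1 = c) with hT
    obtain ⟨e₀, he₀, rfl⟩ := mem_image.1 hc
    have h2 := card_fib T g (C * (M : ℝ) ^ ε * (2 * δ ^ 2 * X / (M * κd) + 1)) (by
      intro i _
      set T' := T.filter (fun e => g e = i) with hT'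
      have h3 := card_fib T' (fun e : ℤ × ℤ => ((e.2 : ℤ) : ZMod M)) (2 * δ ^ 2 * X / (M * κd) + 1) (by
        intro u _
        set T'' := T'.filter (fun e : ℤ × ℤ => ((e.2 : ℤ) : ZMod M) = u) with hT''
        have hinj : Set.InjOn (fun e : ℤ × ℤ => e.2) (T'' : Set (ℤ × ℤ)) := by
          intro e he e' he' h
          have a1 := (mem_filter.1 (mem_filter.1 (mem_filter.1 he).1).1).2
          have a2 := (mem_filter.1 (mem_filter.1 (mem_filter.1 he').1).1).2
          exact Prod.ext (by rw [a1, a2]) h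
        rw [← card_image_of_injOn hinj]
        have hsp := spaced (T''.image (fun e : ℤ × ℤ => e.2)) (M * κd) (2 * δ ^ 2 * X)
          (Nat.mul_pos hM hκd) (by positivity) (by
            intro a ha b hb
            obtain ⟨e, he, rfl⟩ := mem_image.1 ha
            obtain ⟨e', he', rfl⟩ := mem_image.1 hb
            have a0 := (mem_filter.1 (mem_filter.1 (mem_filter.1 he).1).1)
            have b0 := (mem_filter.1 (mem_filter.1 (mem_filter.1 he').1).1)
            have d1 : (M : ℤ) ∣ e.2 - e'.2 := by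
              rw [← ZMod.intCast_zmod_eq_zero_iff_dvd]
              push_cast
              rw [(mem_filter.1 he).2, (mem_filter.1 he').2, sub_self]
            have d2 : (κd : ℤ) ∣ e.2 - e'.2 := dvd_sub (hS e a0.1).2.2.2.2.1 (hS e' b0.1).2.2.2.2.1
            have d3 : IsCoprime (M : ℤ) (κd : ℤ) := Nat.isCoprime_iff_coprime.2 hMκ
            push_cast
            exact d3.mul_dvd d1 d2) (by
            intro a ha b hb
            obtain ⟨e, he, rfl⟩ := mem_image.1 ha
            obtain ⟨e', he', rfl⟩ := mem_image.1 hb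
            have a0 := (mem_filter.1 (mem_filter.1 (mem_filter.1 he).1).1)
            have b0 := (mem_filter.1 (mem_filter.1 (mem_filter.1 he').1).1)
            have a1 := (mem_filter.1 (mem_filter.1 he).1).2
            have b1 := (mem_filter.1 (mem_filter.1 he').1).2
            have r1 := (hg e a0.1).h2
            have r2 := (hg e' b0.1).h2
            rw [a1, a0.2] at r1
            rw [b1, b0.2] at r2
            have r3 := sub_abs_le r1 r2
            have e3 : (tau i e₀.1 ^ 3 - 3 * (e₀.1 : ℝ) * tau i e₀.1 + 2 * (e.2 : ℝ)) -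
                (tau i e₀.1 ^ 3 - 3 * (e₀.1 : ℝ) * tau i e₀.1 + 2 * (e'.2 : ℝ)) =
                2 * ((e.2 : ℝ) - e'.2) := by ring
            rw [e3, abs_mul, abs_of_pos (by norm_num : (0 : ℝ) < 2)] at r3
            linarith)
        push_cast at hsp
        exact hsp)
      refine h3.trans ?_
      rw [mul_comm]
      apply mul_le_mul_of_nonneg_right _ (by positivity)
      -- the number of the residues
      rcases T'.eq_empty_or_nonempty with h | ⟨e₁, he₁⟩
      · rw [h, image_empty, card_empty, Nat.cast_zero]; positivity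
      have hu : IsUnit (((e₀.1 : ℤ) : ZMod M) ^ 3) := by
        apply IsUnit.pow
        rw [ZMod.coe_int_isUnit_iff_isCoprime]
        exact (hS e₀ he₀).2.1.symm
      refine le_trans ?_ (hroots M hM _ hu)
      have hsub : ((T'.image (fun e : ℤ × ℤ => ((e.2 : ℤ) : ZMod M)) : Finset (ZMod M)) :
          Set (ZMod M)) ⊆ {t : ZMod M | t ^ 2 = ((e₀.1 : ℤ) : ZMod M) ^ 3} := by
        intro t ht
        obtain ⟨e, he, rfl⟩ := mem_image.1 (mem_coe.1 ht)
        have a0 := mem_filter.1 (mem_filter.1 he).1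
        have h5 := (hS e a0.1).2.2.1
        rw [← ZMod.intCast_zmod_eq_zero_iff_dvd] at h5
        push_cast at h5
        rw [a0.2] at h5
        exact sub_eq_zero.1 h5
      have := Set.ncard_le_ncard hsub (Set.toFinite _)
      rw [Set.ncard_coe_finset] at this
      exact_mod_cast this)
    refine h2.trans ?_
    rw [mul_comm]
    apply mul_le_mul_of_nonneg_right _ (by positivity)
    have h6 : (T.image g).card ≤ 3 := by
      refine (card_le_univ _).trans ?_
      simp
    exact_mod_cast h6)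
  have h7 := spaced (S.image (fun e : ℤ × ℤ => e.1)) κc (2 * X ^ 2) hκc (by positivity) (by
    intro a ha b hb
    obtain ⟨e, he, rfl⟩ := mem_image.1 ha
    obtain ⟨e', he', rfl⟩ := mem_image.1 hb
    exact dvd_sub (hS e he).2.2.2.1 (hS e' he').2.2.2.1) (by
    intro a ha b hb
    obtain ⟨e, he, rfl⟩ := mem_image.1 ha
    obtain ⟨e', he', rfl⟩ := mem_image.1 hb
    exact sub_abs_le (hS e he).1 (hS e' he').1)
  refine h1.trans ?_
  calc 3 * (C * (M : ℝ) ^ ε * (2 * δ ^ 2 * X / (M * κd) + 1)) *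
        ((S.image (fun e : ℤ × ℤ => e.1)).card : ℝ)
      ≤ 3 * (C * (M : ℝ) ^ ε * (2 * δ ^ 2 * X / (M * κd) + 1)) * (2 * X ^ 2 / κc + 1) := by
        apply mul_le_mul_of_nonneg_left h7 (by positivity)
    _ ≤ 3 * (C * (M : ℝ) ^ ε * (2 * (δ ^ 2 * X / (M * κd) + 1))) * (2 * (X ^ 2 / κc + 1)) := by
        gcongr
        · have e : 2 * δ ^ 2 * X / (M * κd) = 2 * (δ ^ 2 * X / (M * κd)) := by ring
          rw [e]
          linarith
        · have e : 2 * X ^ 2 / (κc : ℝ) = 2 * (X ^ 2 / κc) := by ring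
          rw [e]
          linarith
    _ = _ := by ring

end Run7.h577.V
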