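import Mathlib
import Pool.Agent.Run7.h577.VG
import Pool.Agent.Run7.h577.VI
import Pool.Agent.Run7.h577.SJ
import Pool.Agent.Run7.h577.SK

/-!
The moduli of a pair `(c, d)`.
-/

set_option autoImplicit false

namespace Run7.h577.V

open Finset Run7.h577.S

/-- the modulus condition -/
theorem mod_cond (c d : ℤ) (M μ m₀ s₂ s₃ s₄ : ℕ) (hM : 1 ≤ M) (hco : IsCoprime c (M : ℤ))
    (h : (M : ℤ) ∣ d ^ 2 - c ^ 3) (hMm : μ ^ 2 * m₀ = M)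
    (hsq : Squarefree (s₂ * s₃ * s₄)) (hc : ((s₂ * s₃ * s₄ ^ 2 : ℕ) : ℤ) ∣ c)
    (hd : ((s₂ * s₃ ^ 2 * s₄ ^ 2 : ℕ) : ℤ) ∣ d) :
    ∃ t C E : ℤ, ((s₃ * s₄ * μ : ℕ) : ℤ) * C = t ^ 2 - c ∧
      ((s₃ * s₄ * μ : ℕ) : ℤ) ^ 2 * E = t ^ 3 - 3 * c * t + 2 * d ∧
      (m₀ : ℤ) ∣ 3 * C ^ 2 - 4 * t * E ∧ (s₂ : ℤ) ∣ t ^ 2 - ((s₃ * s₄ * μ : ℕ) : ℤ) * C ∧
      (s₂ : ℤ) ∣ t * C - ((s₃ * s₄ * μ : ℕ) : ℤ) * E ∧ (s₂ : ℤ) ∣ C ^ 2 - t * E ∧ (s₃ : ℤ) ∣ t ∧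
      (s₄ : ℤ) ∣ t ∧ (s₄ : ℤ) ∣ C := by
  obtain ⟨t₁, ⟨k1, h1⟩, ⟨k2, h2⟩⟩ := exists_t c d M hM hco h
  have hsc : ∀ a : ℕ, (a : ℤ) ∣ c → IsCoprime (a : ℤ) (M : ℤ) := fun a ha =>
    hco.of_isCoprime_of_dvd_left ha
  have hc' : (s₂ : ℤ) * s₃ * s₄ ^ 2 ∣ c := by exact_mod_cast hc
  have hd' : (s₂ : ℤ) * s₃ ^ 2 * s₄ ^ 2 ∣ d := by exact_mod_cast hd
  have d2 : (s₂ : ℤ) ∣ c := Dvd.dvd.trans ⟨s₃ * s₄ ^ 2, by ring⟩ hc'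
  have d3 : (s₃ : ℤ) ∣ c := Dvd.dvd.trans ⟨s₂ * s₄ ^ 2, by ring⟩ hc'
  have d4 : (s₄ : ℤ) ∣ c := Dvd.dvd.trans ⟨s₂ * s₃ * s₄, by ring⟩ hc'
  have d34 : (s₃ : ℤ) * s₄ * s₄ ∣ c := Dvd.dvd.trans ⟨s₂, by ring⟩ hc'
  have d2d : (s₂ : ℤ) ∣ d := Dvd.dvd.trans ⟨s₃ ^ 2 * s₄ ^ 2, by ring⟩ hd'
  have d34d : ((s₃ : ℤ) * s₄) ^ 2 ∣ d := Dvd.dvd.trans ⟨s₂, by ring⟩ hd'
  have c2 := hsc s₂ d2
  have c3 := hsc s₃ d3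
  have c4 := hsc s₄ d4
  have c34 : IsCoprime ((s₃ : ℤ) * s₄) (M : ℤ) := c3.mul_left c4
  have cμ : ∀ a : ℤ, IsCoprime a (M : ℤ) → IsCoprime a (μ : ℤ) := by
    intro a ha
    refine ha.of_isCoprime_of_dvd_right ?_
    rw [← hMm]
    exact ⟨μ * m₀, by push_cast; ring⟩
  -- `s₂` is coprime to `m`
  have c23 : IsCoprime (s₂ : ℤ) (s₃ : ℤ) := by
    rw [Nat.isCoprime_iff_coprime]
    exact Nat.coprime_of_squarefree_mul (hsq.squarefree_of_dvd ⟨s₄, rfl⟩)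
  have c24 : IsCoprime (s₂ : ℤ) (s₄ : ℤ) := by
    rw [Nat.isCoprime_iff_coprime]
    exact Nat.coprime_of_squarefree_mul (hsq.squarefree_of_dvd ⟨s₃, by ring⟩)
  have c2m : IsCoprime (s₂ : ℤ) ((s₃ * s₄ * μ : ℕ) : ℤ) := by
    push_cast
    exact (c23.mul_right c24).mul_right (cμ _ c2)
  obtain ⟨u, v, huv⟩ := c34
  set σ : ℤ := (s₃ : ℤ) * s₄ with hσ
  set t : ℤ := t₁ * (u * σ) with ht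
  have htt : t - t₁ = M * (-(t₁ * v)) := by rw [ht]; linear_combination t₁ * huv
  have hσt : σ ∣ t := ⟨t₁ * u, by rw [ht]; ring⟩
  have c34' : IsCoprime σ (M : ℤ) := ⟨u, v, huv⟩
  -- the divisibilities
  have e1 : (M : ℤ) ∣ t ^ 2 - c := by
    have : t ^ 2 - c = (t₁ ^ 2 - c) + (t - t₁) * (t + t₁) := by ring
    rw [this, h1, htt]
    exact dvd_add (dvd_mul_right _ _) (Dvd.dvd.mul_right (dvd_mul_right _ _) _)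
  have e2 : (M : ℤ) ∣ t ^ 3 - 3 * c * t + 2 * d := by
    have : t ^ 3 - 3 * c * t + 2 * d = (t₁ ^ 3 - 3 * c * t₁ + 2 * d) +
        (t - t₁) * (t ^ 2 + t * t₁ + t₁ ^ 2 - 3 * c) := by ring
    rw [this, h2, htt]
    exact dvd_add (dvd_mul_right _ _) (Dvd.dvd.mul_right (dvd_mul_right _ _) _)
  have e3 : σ * s₄ ∣ t ^ 2 - c := by
    apply dvd_sub
    · rw [sq]
      exact mul_dvd_mul hσt (Dvd.dvd.trans ⟨s₃, by rw [hσ]; ring⟩ hσt)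
    · exact d34
  have e4 : σ ^ 2 ∣ t ^ 3 - 3 * c * t + 2 * d := by
    apply dvd_add
    · apply dvd_sub
      · exact (pow_dvd_pow_of_dvd hσt 2).trans (pow_dvd_pow t (by norm_num))
      · have f1 : σ ∣ 3 * c := Dvd.dvd.mul_left (Dvd.dvd.trans (dvd_mul_right σ (s₄ : ℤ)) d34) 3
        rw [sq]
        exact mul_dvd_mul f1 hσt
    · exact Dvd.dvd.mul_left d34d 2
  have c34s : IsCoprime (σ * s₄) (M : ℤ) := c34'.mul_left c4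
  obtain ⟨j1, hj1⟩ := c34s.mul_dvd e3 e1
  obtain ⟨j2, hj2⟩ := (c34'.pow_left (m := 2)).mul_dvd e4 e2
  have hMZ : (M : ℤ) = (μ : ℤ) ^ 2 * m₀ := by exact_mod_cast hMm.symm
  have hmZ : ((s₃ * s₄ * μ : ℕ) : ℤ) = σ * μ := by push_cast; rw [hσ]
  have hC : ((s₃ * s₄ * μ : ℕ) : ℤ) * (s₄ * μ * m₀ * j1) = t ^ 2 - c := by
    rw [hj1, hMZ, hmZ]; ring
  have hE : ((s₃ * s₄ * μ : ℕ) : ℤ) ^ 2 * (m₀ * j2) = t ^ 3 - 3 * c * t + 2 * d := by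
    rw [hj2, hMZ, hmZ]; ring
  refine ⟨t, s₄ * μ * m₀ * j1, m₀ * j2, hC, hE, ?_, ?_, ?_, ?_, ?_, ?_, ?_⟩
  · exact ⟨3 * (s₄ : ℤ) ^ 2 * μ ^ 2 * m₀ * j1 ^ 2 - 4 * t * j2, by ring⟩
  · rw [hC]
    have : t ^ 2 - (t ^ 2 - c) = c := by ring
    rw [this]
    exact d2
  · have f1 : ((s₃ * s₄ * μ : ℕ) : ℤ) * (t * (s₄ * μ * m₀ * j1) - ((s₃ * s₄ * μ : ℕ) : ℤ) * (m₀ * j2)) =
        2 * c * t - 2 * d := by linear_combination t * hC - hE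
    have f2 : (s₂ : ℤ) ∣ ((s₃ * s₄ * μ : ℕ) : ℤ) *
        (t * (s₄ * μ * m₀ * j1) - ((s₃ * s₄ * μ : ℕ) : ℤ) * (m₀ * j2)) := by
      rw [f1]
      exact dvd_sub ((d2.mul_left 2).mul_right t) (d2d.mul_left 2)
    exact c2m.dvd_of_dvd_mul_left f2
  · have f1 : ((s₃ * s₄ * μ : ℕ) : ℤ) ^ 2 * ((s₄ * μ * m₀ * j1) ^ 2 - t * (m₀ * j2)) =
        c * t ^ 2 + c ^ 2 - 2 * d * t := by
      linear_combination (((s₃ * s₄ * μ : ℕ) : ℤ) * (s₄ * μ * m₀ * j1) + t ^ 2 - c) * hC - t * hE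
    have f2 : (s₂ : ℤ) ∣ ((s₃ * s₄ * μ : ℕ) : ℤ) ^ 2 * ((s₄ * μ * m₀ * j1) ^ 2 - t * (m₀ * j2)) := by
      rw [f1]
      exact dvd_sub (dvd_add (d2.mul_right _) (Dvd.dvd.trans d2 (dvd_pow_self c (by norm_num))))
        ((d2d.mul_left 2).mul_right t)
    exact (c2m.pow_right (n := 2)).dvd_of_dvd_mul_left f2
  · exact Dvd.dvd.trans ⟨s₄, by rw [hσ]⟩ hσt
  · exact Dvd.dvd.trans ⟨s₃, by rw [hσ]; ring⟩ hσt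
  · exact ⟨μ * m₀ * j1, by ring⟩

/-- the hypotheses on a pair `(c, d)` -/
def Hyp (X δ T : ℝ) (g₂ g₃ g₄ : ℕ) (c d : ℤ) : Prop :=
  |(c : ℝ)| ≤ X ^ 2 ∧ |(d : ℝ)| ≤ X ^ 3 ∧ (∃ i : Fin 3, Reg X δ c d (tau i c)) ∧
  d ^ 2 - c ^ 3 ≠ 0 ∧ ∃ n r₃ r₄ : ℕ, 1 ≤ n ∧ T ≤ n * r₃ * r₄ ^ 2 ∧ IsCoprime c ((n * rd n : ℕ) : ℤ) ∧
    ((n * rd n : ℕ) : ℤ) ∣ d ^ 2 - c ^ 3 ∧ Squarefree (g₂ * (g₃ * r₃) * (g₄ * r₄)) ∧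
    ((g₂ * (g₃ * r₃) * (g₄ * r₄) ^ 2 : ℕ) : ℤ) ∣ c ∧ ((g₂ * (g₃ * r₃) ^ 2 * (g₄ * r₄) ^ 2 : ℕ) : ℤ) ∣ d

/-- the total modulus is small -/
theorem tot_le (X : ℝ) (c d : ℤ) (n s₂ s₃ s₄ : ℕ) (hcX : |(c : ℝ)| ≤ X ^ 2) (hdX : |(d : ℝ)| ≤ X ^ 3)
    (h0 : d ^ 2 - c ^ 3 ≠ 0) (hco : IsCoprime c ((n * rd n : ℕ) : ℤ))
    (hn : ((n * rd n : ℕ) : ℤ) ∣ d ^ 2 - c ^ 3) (hc : ((s₂ * s₃ * s₄ ^ 2 : ℕ) : ℤ) ∣ c)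
    (hd : ((s₂ * s₃ ^ 2 * s₄ ^ 2 : ℕ) : ℤ) ∣ d) :
    (((s₃ * s₄) ^ 2 * (n * rd n) : ℕ) : ℝ) ≤ 2 * X ^ 6 := by
  have hc' : (s₂ : ℤ) * s₃ * s₄ ^ 2 ∣ c := by exact_mod_cast hc
  have hd' : (s₂ : ℤ) * s₃ ^ 2 * s₄ ^ 2 ∣ d := by exact_mod_cast hd
  have hσc : ((s₃ : ℤ) * s₄) ∣ c := Dvd.dvd.trans ⟨s₂ * s₄, by ring⟩ hc'
  have hσd : ((s₃ : ℤ) * s₄) ∣ d := Dvd.dvd.trans ⟨s₂ * s₃ * s₄, by ring⟩ hd'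
  have h1 : ((s₃ : ℤ) * s₄) ^ 2 ∣ d ^ 2 - c ^ 3 :=
    dvd_sub (pow_dvd_pow_of_dvd hσd 2)
      ((pow_dvd_pow_of_dvd hσc 2).trans (pow_dvd_pow c (by norm_num)))
  have h2 : IsCoprime (((s₃ : ℤ) * s₄) ^ 2) ((n * rd n : ℕ) : ℤ) :=
    (hco.of_isCoprime_of_dvd_left hσc).pow_left
  have h3 : (((s₃ * s₄) ^ 2 * (n * rd n) : ℕ) : ℤ) ∣ d ^ 2 - c ^ 3 := by
    rw [Nat.cast_mul]
    push_cast at h2 hn ⊢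
    exact h2.mul_dvd h1 hn
  have h4 := Int.le_of_dvd (abs_pos.2 h0) ((dvd_abs _ _).2 h3)
  have h5 : (((s₃ * s₄) ^ 2 * (n * rd n) : ℕ) : ℝ) ≤ |((d ^ 2 - c ^ 3 : ℤ) : ℝ)| := by
    rw [← Int.cast_abs]
    exact_mod_cast h4
  refine h5.trans ?_
  push_cast
  refine (abs_sub _ _).trans ?_
  rw [abs_pow, abs_pow]
  calc |(d : ℝ)| ^ 2 + |(c : ℝ)| ^ 3 ≤ (X ^ 3) ^ 2 + (X ^ 2) ^ 3 := by gcongr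
    _ = _ := by ring

end Run7.h577.V
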