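import Mathlib
import Pool.Agent.Run7.h577.VJ

/-!
The count for given `X` and `δ`.
-/

set_option autoImplicit false

namespace Run7.h577.V

open Finset Run7.h577.S

/-- the weight of a label `(r₃, r₄, n)` -/
noncomputable def wt (b : ℕ × ℕ × ℕ) : ℝ := 1 / ((b.1 : ℝ) * b.2.1 * rd b.2.2)

theorem wt_sum (ε : ℝ) (hε : 0 < ε) : ∃ C : ℝ, 0 < C ∧ ∀ (F : Finset (ℕ × ℕ × ℕ)) (Z : ℝ), 1 ≤ Z →
    (∀ b ∈ F, (1 ≤ b.1 ∧ 1 ≤ b.2.1 ∧ 1 ≤ b.2.2) ∧ (b.1 : ℝ) ≤ Z ∧ (b.2.1 : ℝ) ≤ Z ∧ (b.2.2 : ℝ) ≤ Z) →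
    ∑ b ∈ F, wt b ≤ C * (Z ^ ε) ^ 3 := by
  classical
  obtain ⟨C, hC, h⟩ := rd_sum ε hε
  refine ⟨C ^ 3, by positivity, fun F Z hZ hF => ?_⟩
  set N : ℕ := ⌊Z⌋₊ with hN
  have hN1 : 1 ≤ N := Nat.le_floor (by rw [Nat.cast_one]; exact hZ)
  have hNZ : (N : ℝ) ≤ Z := Nat.floor_le (by linarith)
  have hsub : F ⊆ Icc 1 N ×ˢ (Icc 1 N ×ˢ Icc 1 N) := by
    intro b hb
    obtain ⟨⟨a1, a2, a3⟩, b1, b2, b3⟩ := hF b hb
    rw [mem_product, mem_product, mem_Icc, mem_Icc, mem_Icc]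
    exact ⟨⟨a1, Nat.le_floor b1⟩, ⟨a2, Nat.le_floor b2⟩, ⟨a3, Nat.le_floor b3⟩⟩
  have h1 : ∑ b ∈ F, wt b ≤ ∑ b ∈ Icc 1 N ×ˢ (Icc 1 N ×ˢ Icc 1 N), wt b := by
    apply sum_le_sum_of_subset_of_nonneg hsub
    intro i _ _
    unfold wt
    positivity
  refine h1.trans ?_
  have h2 := h N hN1
  have h3 : ∑ r ∈ Icc 1 N, (1 : ℝ) / (r : ℝ) ≤ ∑ n ∈ Icc 1 N, (1 : ℝ) / (rd n : ℝ) := by
    apply sum_le_sum
    intro r hr
    have hr1 := (mem_Icc.1 hr).1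
    have a : (0 : ℝ) < rd r := by exact_mod_cast rd_pos r
    have b : (rd r : ℝ) ≤ r := by exact_mod_cast rd_le r hr1
    exact one_div_le_one_div_of_le a b
  have h4 : C * (N : ℝ) ^ ε ≤ C * Z ^ ε := by
    have : (0 : ℝ) ≤ N := Nat.cast_nonneg _
    gcongr
  have h5 : ∑ b ∈ Icc 1 N ×ˢ (Icc 1 N ×ˢ Icc 1 N), wt b =
      (∑ r ∈ Icc 1 N, (1 : ℝ) / (r : ℝ)) * ((∑ r ∈ Icc 1 N, (1 : ℝ) / (r : ℝ)) *
        ∑ n ∈ Icc 1 N, (1 : ℝ) / (rd n : ℝ)) := by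
    rw [sum_product, sum_mul_sum, sum_mul_sum]
    refine sum_congr rfl fun a _ => ?_
    rw [sum_product]
    refine sum_congr rfl fun b _ => ?_
    rw [mul_sum]
    refine sum_congr rfl fun c _ => ?_
    unfold wt
    simp only
    rw [one_div_mul_one_div, one_div_mul_one_div, mul_assoc]
  rw [h5]
  have h6 : 0 ≤ ∑ r ∈ Icc 1 N, (1 : ℝ) / (r : ℝ) := sum_nonneg fun r _ => by positivity
  have h7 : 0 ≤ ∑ n ∈ Icc 1 N, (1 : ℝ) / (rd n : ℝ) := sum_nonneg fun r _ => by positivity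
  calc (∑ r ∈ Icc 1 N, (1 : ℝ) / (r : ℝ)) * ((∑ r ∈ Icc 1 N, (1 : ℝ) / (r : ℝ)) *
        ∑ n ∈ Icc 1 N, (1 : ℝ) / (rd n : ℝ)) ≤ (C * Z ^ ε) * ((C * Z ^ ε) * (C * Z ^ ε)) := by
        have g1 := h3.trans (h2.trans h4)
        have g2 := h2.trans h4
        have g0 : 0 ≤ C * Z ^ ε := by positivity
        exact mul_le_mul g1 (mul_le_mul g1 g2 h7 g0) (by positivity) g0
    _ = _ := by ring

/-- COUNT -/
theorem count_K (ε : ℝ) (hε : 0 < ε) : ∃ C : ℝ, 0 < C ∧ ∀ (X δ T : ℝ) (g₂ g₃ g₄ : ℕ), 1 ≤ X → 0 < δ →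
    δ ≤ X → 1 ≤ δ * X ^ 2 → 0 < T → ¬ 3 ∣ g₂ → ∀ S : Finset (ℤ × ℤ),
    (∀ e ∈ S, Hyp X δ T g₂ g₃ g₄ e.1 e.2) →
    (S.card : ℝ) ≤ C * X ^ ε * (δ ^ 2 * X ^ 3 / (T * ((g₂ ^ 2 * g₃ ^ 3 * g₄ ^ 4 : ℕ) : ℝ)) + X ^ 3) := by
  classical
  set ε' := ε / 24 with hε'
  have hε'0 : 0 < ε' := by positivity
  obtain ⟨C₁, hC₁, helem⟩ := cnt_elem ε' hε'0
  obtain ⟨C₂, hC₂, hcm⟩ := cnt_m ε' hε'0
  obtain ⟨C₃, hC₃, hcb⟩ := cnt_big ε' hε'0
  obtain ⟨C₄, hC₄, hws⟩ := wt_sum ε' hε'0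
  refine ⟨36 + 21 + 5 * C₁ * C₄ * (2 ^ ε') ^ 4 + 3 * C₂ * C₄ * (2 ^ ε') ^ 3 + C₃, by positivity,
    fun X δ T g₂ g₃ g₄ hX hδ hδX hδ1 hT hg23 S hS => ?_⟩
  have hX0 : 0 < X := by linarith
  have hXε : 1 ≤ X ^ ε := Real.one_le_rpow hX hε.le
  have hX3 : (1 : ℝ) ≤ X ^ 3 := one_le_pow₀ hX
  set 𝔤 : ℝ := ((g₂ ^ 2 * g₃ ^ 3 * g₄ ^ 4 : ℕ) : ℝ) with h𝔤
  have h𝔤0 : 0 ≤ 𝔤 := Nat.cast_nonneg _
  set R : ℝ := δ ^ 2 * X ^ 3 / (T * 𝔤) + X ^ 3 with hR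
  have hR0 : 0 < R := by positivity
  have hRT : δ ^ 2 * X ^ 3 / (T * 𝔤) ≤ R := by
    rw [hR]; linarith
  have hRX : X ^ 3 ≤ R := by
    have : 0 ≤ δ ^ 2 * X ^ 3 / (T * 𝔤) := by positivity
    linarith
  have hXR : 0 ≤ X ^ ε * R := by positivity
  have hXRle : X ^ 3 ≤ X ^ ε * R := by
    calc X ^ 3 ≤ R := hRX
      _ = 1 * R := (one_mul _).symm
      _ ≤ _ := by gcongr
  rcases S.eq_empty_or_nonempty with hemp | ⟨e₀, he₀⟩
  · rw [hemp, card_empty, Nat.cast_zero]; positivity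
  have hgpos : 1 ≤ g₂ ∧ 1 ≤ g₃ ∧ 1 ≤ g₄ := by
    obtain ⟨-, -, -, -, n, r₃, r₄, -, -, -, -, hsq, -⟩ := hS e₀ he₀
    have h0 := hsq.ne_zero
    refine ⟨Nat.one_le_iff_ne_zero.2 ?_, Nat.one_le_iff_ne_zero.2 ?_, Nat.one_le_iff_ne_zero.2 ?_⟩ <;>
    · rintro rfl
      apply h0
      ring
  obtain ⟨hg2, hg3, hg4⟩ := hgpos
  have hg2X : (g₂ : ℝ) ≤ X ^ 3 := by
    obtain ⟨f1, f2, -, f4, n, r₃, r₄, -, -, -, -, -, hc, hd⟩ := hS e₀ he₀
    have d1 : (g₂ : ℤ) ∣ e₀.1 := Dvd.dvd.trans ⟨(g₃ * r₃) * (g₄ * r₄) ^ 2, by push_cast; ring⟩ hc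
    have d2 : (g₂ : ℤ) ∣ e₀.2 := Dvd.dvd.trans ⟨(g₃ * r₃) ^ 2 * (g₄ * r₄) ^ 2, by push_cast; ring⟩ hd
    by_cases h0 : e₀.1 = 0
    · have h2 : e₀.2 ≠ 0 := by
        intro h2
        apply f4
        rw [h0, h2]; norm_num
      have h3 := Int.le_of_dvd (abs_pos.2 h2) ((dvd_abs _ _).2 d2)
      refine le_trans ?_ f2
      rw [← Int.cast_abs]
      exact_mod_cast h3
    · have h3 := Int.le_of_dvd (abs_pos.2 h0) ((dvd_abs _ _).2 d1)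
      have h4 : (g₂ : ℝ) ≤ X ^ 2 := by
        refine le_trans ?_ f1
        rw [← Int.cast_abs]
        exact_mod_cast h3
      exact h4.trans (pow_le_pow_right₀ hX (by norm_num))
  have h𝔤1 : 0 < 𝔤 := by
    rw [h𝔤]
    have : 0 < g₂ ^ 2 * g₃ ^ 3 * g₄ ^ 4 := by positivity
    exact_mod_cast this
  -- small `X`
  rcases le_or_gt X 2 with hX2 | hX2
  · have h1 : (S.card : ℝ) ≤ 36 * X ^ 3 := by
      have h2 := card_fib S (fun e : ℤ × ℤ => e.1) (3 * X ^ 3) (by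
        intro c _
        set T := S.filter (fun e : ℤ × ℤ => e.1 = c) with hT
        have hinj : Set.InjOn (fun e : ℤ × ℤ => e.2) (T : Set (ℤ × ℤ)) := by
          intro e he e' he' h
          have a1 := (mem_filter.1 he).2
          have a2 := (mem_filter.1 he').2
          exact Prod.ext (by rw [a1, a2]) h
        rw [← card_image_of_injOn hinj]
        have h3 : T.image (fun e : ℤ × ℤ => e.2) ⊆ Icc (-⌊X ^ 3⌋) ⌊X ^ 3⌋ := by
          intro b hb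
          obtain ⟨e, he, rfl⟩ := mem_image.1 hb
          exact mem_icc_floor (hS e (mem_filter.1 he).1).2.1
        have h4 : ((T.image (fun e : ℤ × ℤ => e.2)).card : ℝ) ≤
            ((Icc (-⌊X ^ 3⌋) ⌊X ^ 3⌋ : Finset ℤ).card : ℝ) := by exact_mod_cast card_le_card h3
        have h5 := icc_card (X ^ 3) (by positivity)
        linarith)
      have h6 := icc_card_X2 X hX (S.image (fun e : ℤ × ℤ => e.1)) (by
        intro c hc
        obtain ⟨e, he, rfl⟩ := mem_image.1 hc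
        exact (hS e he).1)
      calc (S.card : ℝ) ≤ 3 * X ^ 3 * ((S.image (fun e : ℤ × ℤ => e.1)).card : ℝ) := h2
        _ ≤ 3 * X ^ 3 * (3 * X ^ 2) := by gcongr
        _ ≤ 3 * X ^ 3 * (3 * 2 ^ 2) := by gcongr
        _ = _ := by ring
    calc (S.card : ℝ) ≤ 36 * X ^ 3 := h1
      _ ≤ 36 * (X ^ ε * R) := by gcongr
      _ ≤ (36 + 21 + 5 * C₁ * C₄ * (2 ^ ε') ^ 4 + 3 * C₂ * C₄ * (2 ^ ε') ^ 3 + C₃) *
          (X ^ ε * R) := by
          apply mul_le_mul_of_nonneg_right _ hXR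
          have : 0 ≤ 21 + 5 * C₁ * C₄ * (2 ^ ε') ^ 4 + 3 * C₂ * C₄ * (2 ^ ε') ^ 3 + C₃ := by
            positivity
          linarith
      _ = _ := by ring
  set Y : ℕ := ⌊X ^ 2⌋₊ with hY
  have hX21 : (1 : ℝ) ≤ X ^ 2 := one_le_pow₀ hX
  have hYX : (Y : ℝ) ≤ X ^ 2 := Nat.floor_le (by positivity)
  -- the functions
  have hdat : ∀ e ∈ S, ∃ n r₃ r₄ : ℕ, 1 ≤ n ∧ T ≤ n * r₃ * r₄ ^ 2 ∧ IsCoprime e.1 ((n * rd n : ℕ) : ℤ) ∧
      ((n * rd n : ℕ) : ℤ) ∣ e.2 ^ 2 - e.1 ^ 3 ∧ Squarefree (g₂ * (g₃ * r₃) * (g₄ * r₄)) ∧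
      ((g₂ * (g₃ * r₃) * (g₄ * r₄) ^ 2 : ℕ) : ℤ) ∣ e.1 ∧
      ((g₂ * (g₃ * r₃) ^ 2 * (g₄ * r₄) ^ 2 : ℕ) : ℤ) ∣ e.2 := fun e he => (hS e he).2.2.2.2
  choose! nf af bf hn1 hnT hnco hndvd hnsq hnc hnd using hdat
  have hsf : ∀ n : ℕ, ∃ m m₀ : ℕ, 1 ≤ n → (m ^ 2 * m₀ = n * rd n ∧ Squarefree m₀ ∧ m₀ ∣ m ∧
      rd n ∣ m ∧ 1 ≤ m ∧ 1 ≤ m₀) := by
    intro n
    by_cases h : 1 ≤ n
    · obtain ⟨m, m₀, h1⟩ := sqfull n h
      exact ⟨m, m₀, fun _ => h1⟩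
    · exact ⟨0, 0, fun h' => absurd h' h⟩
  choose μf m₀f hmf using hsf
  -- the total `m` of a label
  obtain ⟨tm, htm⟩ : ∃ tm : ℕ × ℕ × ℕ → ℕ, tm = fun b => g₃ * b.1 * (g₄ * b.2.1) * μf b.2.2 := ⟨_, rfl⟩
  obtain ⟨lab, hlab⟩ : ∃ lab : ℤ × ℤ → ℕ × ℕ × ℕ, lab = fun e => (af e, bf e, nf e) := ⟨_, rfl⟩
  have hlab1 : ∀ e, (lab e).1 = af e ∧ (lab e).2.1 = bf e ∧ (lab e).2.2 = nf e := by
    intro e; rw [hlab]; exact ⟨rfl, rfl, rfl⟩
  -- facts for a label that occurs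
  have hfact : ∀ e ∈ S, ∀ b, lab e = b → (1 ≤ b.1 ∧ 1 ≤ b.2.1 ∧ 1 ≤ b.2.2) ∧
      (b.1 : ℝ) ≤ 2 * X ^ 6 ∧ (b.2.1 : ℝ) ≤ 2 * X ^ 6 ∧ (b.2.2 : ℝ) ≤ 2 * X ^ 6 ∧
      (1 : ℝ) ≤ tm b ∧ (tm b : ℝ) ≤ 50 * X ^ 3 ∧ b.1 * b.2.1 * rd b.2.2 ≤ tm b := by
    rintro e he b rfl
    obtain ⟨l1, l2, l3⟩ := hlab1 e
    rw [htm]
    simp only [l1, l2, l3]
    have h0 := (hnsq e he).ne_zero
    have ha1 : 1 ≤ af e := Nat.one_le_iff_ne_zero.2 (by intro h; apply h0; rw [h]; ring)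
    have hb1 : 1 ≤ bf e := Nat.one_le_iff_ne_zero.2 (by intro h; apply h0; rw [h]; ring)
    obtain ⟨g1, g2, g3, g4, g5, g6⟩ := hmf (nf e) (hn1 e he)
    obtain ⟨f1, f2, -, f4, -⟩ := hS e he
    have ht := tot_le X e.1 e.2 (nf e) g₂ (g₃ * af e) (g₄ * bf e) f1 f2 f4 (hnco e he) (hndvd e he)
      (hnc e he) (hnd e he)
    set u := nf e with hu
    set tt := g₃ * af e * (g₄ * bf e) * μf u with htt
    have hrp : 1 ≤ rd u := rd_pos u
    have hr : af e * bf e * rd u ≤ tt := by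
      have k1 : rd u ≤ μf u := Nat.le_of_dvd g5 g4
      calc af e * bf e * rd u ≤ (g₃ * af e) * (g₄ * bf e) * μf u := by
            apply Nat.mul_le_mul _ k1
            exact Nat.mul_le_mul (Nat.le_mul_of_pos_left _ hg3) (Nat.le_mul_of_pos_left _ hg4)
        _ = _ := rfl
    have htt1 : 1 ≤ tt := le_trans (by
      have : 1 ≤ af e * bf e * rd u := Nat.mul_pos (Nat.mul_pos ha1 hb1) hrp
      exact this) hr
    have hsq : tt ^ 2 ≤ (g₃ * af e * (g₄ * bf e)) ^ 2 * (u * rd u) := by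
      rw [htt, mul_pow, ← g1]
      exact Nat.mul_le_mul_left _ (Nat.le_mul_of_pos_right _ g6)
    have hsqR : (tt : ℝ) ^ 2 ≤ 2 * X ^ 6 := by
      refine le_trans ?_ ht
      exact_mod_cast hsq
    have htt50 : (tt : ℝ) ≤ 50 * X ^ 3 := by
      by_contra hc
      push Not at hc
      have h9 : (50 * X ^ 3) ^ 2 < (tt : ℝ) ^ 2 := pow_lt_pow_left₀ hc (by positivity) (by norm_num)
      have h10 : 0 < X ^ 6 := by positivity
      nlinarith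
    have httR : (1 : ℝ) ≤ tt := by exact_mod_cast htt1
    have htt6 : (tt : ℝ) ≤ 2 * X ^ 6 := by nlinarith
    have hle : ∀ k : ℕ, k ≤ tt → (k : ℝ) ≤ 2 * X ^ 6 := fun k hk => by
      have : (k : ℝ) ≤ tt := by exact_mod_cast hk
      linarith
    refine ⟨⟨ha1, hb1, hn1 e he⟩, hle _ ?_, hle _ ?_, ?_, httR, htt50, hr⟩
    · calc af e ≤ af e * (bf e * rd u) := Nat.le_mul_of_pos_right _ (Nat.mul_pos hb1 hrp)
        _ = af e * bf e * rd u := by ring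
        _ ≤ _ := hr
    · calc bf e ≤ (af e * rd u) * bf e := Nat.le_mul_of_pos_left _ (Nat.mul_pos ha1 hrp)
        _ = af e * bf e * rd u := by ring
        _ ≤ _ := hr
    · refine le_trans ?_ ht
      have : u ≤ (g₃ * af e * (g₄ * bf e)) ^ 2 * (u * rd u) := by
        have k2 : 1 ≤ (g₃ * af e * (g₄ * bf e)) ^ 2 * rd u := by
          apply Nat.mul_pos _ hrp
          have : 0 < g₃ * af e * (g₄ * bf e) := by positivity
          positivity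
        calc u ≤ u * ((g₃ * af e * (g₄ * bf e)) ^ 2 * rd u) := Nat.le_mul_of_pos_right _ k2
          _ = _ := by ring
      exact_mod_cast this
  -- the key inequality for the moduli
  have hkey : ∀ e ∈ S, ∀ b, lab e = b → T * 𝔤 * ((b.1 : ℝ) * b.2.1 * rd b.2.2) ≤
      𝔤 * (b.1 : ℝ) ^ 3 * (b.2.1 : ℝ) ^ 4 * ((b.2.2 : ℝ) * rd b.2.2) := by
    intro e he b hb
    obtain ⟨⟨a1, a2, a3⟩, -⟩ := hfact e he b hb
    have hT' := hnT e he
    obtain ⟨l1, l2, l3⟩ := hlab1 e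
    rw [hb] at l1 l2 l3
    rw [← l1, ← l2, ← l3] at hT'
    have b1 : (1 : ℝ) ≤ b.1 := by exact_mod_cast a1
    have b2 : (1 : ℝ) ≤ b.2.1 := by exact_mod_cast a2
    have b4 : (0 : ℝ) < rd b.2.2 := by exact_mod_cast rd_pos _
    calc T * 𝔤 * ((b.1 : ℝ) * b.2.1 * rd b.2.2)
        = T * (𝔤 * ((b.1 : ℝ) * b.2.1 * rd b.2.2)) := by ring
      _ ≤ ((b.2.2 : ℝ) * b.1 * (b.2.1 : ℝ) ^ 2) * (𝔤 * ((b.1 : ℝ) * b.2.1 * rd b.2.2)) := by
          gcongr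
      _ = 𝔤 * (b.1 : ℝ) ^ 2 * (b.2.1 : ℝ) ^ 3 * ((b.2.2 : ℝ) * rd b.2.2) := by ring
      _ ≤ 𝔤 * (b.1 : ℝ) ^ 3 * (b.2.1 : ℝ) ^ 4 * ((b.2.2 : ℝ) * rd b.2.2) := by
          gcongr <;> norm_num
  -- the parts
  set S₁ := S.filter (fun e => ∃ w v : ℤ, ¬ (w = 0 ∧ v = 0) ∧
    w ^ 3 - 3 * e.1 * w * v ^ 2 + 2 * e.2 * v ^ 3 = 0) with hS₁
  set S' := S.filter (fun e => ¬ ∃ w v : ℤ, ¬ (w = 0 ∧ v = 0) ∧
    w ^ 3 - 3 * e.1 * w * v ^ 2 + 2 * e.2 * v ^ 3 = 0) with hS'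
  set S₂ := S'.filter (fun e => (tm (lab e) : ℝ) ≤ 2 * δ) with hS₂
  set S'' := S'.filter (fun e => ¬ (tm (lab e) : ℝ) ≤ 2 * δ) with hS''
  set S₃ := S''.filter (fun e => tm (lab e) ≤ Y) with hS₃
  set S₄ := S''.filter (fun e => ¬ tm (lab e) ≤ Y) with hS₄
  have hsplit : (S.card : ℝ) = S₁.card + (S₂.card + (S₃.card + S₄.card)) := by
    have e1 := card_filter_add_card_filter_not (s := S) (fun e => ∃ w v : ℤ, ¬ (w = 0 ∧ v = 0) ∧
      w ^ 3 - 3 * e.1 * w * v ^ 2 + 2 * e.2 * v ^ 3 = 0)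
    have e2 := card_filter_add_card_filter_not (s := S') (fun e => (tm (lab e) : ℝ) ≤ 2 * δ)
    have e3 := card_filter_add_card_filter_not (s := S'') (fun e => tm (lab e) ≤ Y)
    have : S.card = S₁.card + (S₂.card + (S₃.card + S₄.card)) := by
      rw [e3, e2, e1]
    exact_mod_cast this
  have hmem' : ∀ e ∈ S', e ∈ S := fun e he => (mem_filter.1 he).1
  have hmem'' : ∀ e ∈ S'', e ∈ S ∧ 2 * δ < (tm (lab e) : ℝ) := by
    intro e he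
    have h1 := mem_filter.1 he
    exact ⟨hmem' e h1.1, not_le.1 h1.2⟩
  have hirr : ∀ e ∈ S', ∀ w v : ℤ, ¬ (w = 0 ∧ v = 0) →
      w ^ 3 - 3 * e.1 * w * v ^ 2 + 2 * e.2 * v ^ 3 ≠ 0 := by
    intro e he w v h0 h
    exact (mem_filter.1 he).2 ⟨w, v, h0, h⟩
  -- `Has`
  have hHas : ∀ e ∈ S'', Has X δ (tm (lab e)) (m₀f (nf e)) g₂ ((g₃ * af e : ℕ) : ℤ)
      ((g₄ * bf e : ℕ) : ℤ) e.1 e.2 := by
    intro e he
    obtain ⟨h1, h2⟩ := hmem'' e he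
    obtain ⟨l1, l2, l3⟩ := hlab1 e
    obtain ⟨g1, g2, g3, g4, g5, g6⟩ := hmf (nf e) (hn1 e h1)
    obtain ⟨-, -, ⟨i, hi⟩, -⟩ := hS e h1
    have hM1 : 1 ≤ nf e * rd (nf e) := Nat.mul_pos (hn1 e h1) (rd_pos _)
    have hmc := mod_cond e.1 e.2 (nf e * rd (nf e)) (μf (nf e)) (m₀f (nf e)) g₂ (g₃ * af e)
      (g₄ * bf e) hM1 (hnco e h1) (hndvd e h1) g1 (hnsq e h1) (hnc e h1) (hnd e h1)
    have et : tm (lab e) = g₃ * af e * (g₄ * bf e) * μf (nf e) := by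
      rw [htm]; simp only [l1, l2, l3]
    rw [et]
    exact ⟨⟨_, hi⟩, hmc, hirr e (mem_filter.1 he).1⟩
  have hXe1 : ∀ θ : ℝ, θ ≤ ε → X ^ θ ≤ X ^ ε := fun θ h =>
    Real.rpow_le_rpow_of_exponent_le hX h
  have h2X6 : (1 : ℝ) ≤ 2 * X ^ 6 := by
    have : (1 : ℝ) ≤ X ^ 6 := one_le_pow₀ hX
    linarith
  have e26 : ((2 : ℝ) * X ^ 6) ^ ε' = 2 ^ ε' * X ^ (6 * ε') := by
    rw [Real.mul_rpow (by norm_num) (by positivity), rpow_six ε' X hX 6]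
    norm_num
  -- (1) the reducible cubics
  have b1 : (S₁.card : ℝ) ≤ 21 * (X ^ ε * R) := by
    have h1 := cnt_red X hX S₁ (by
      intro e he
      have h := mem_filter.1 he
      exact ⟨(hS e h.1).1, (hS e h.1).2.1, h.2⟩)
    linarith
  -- (2) small moduli
  have b2 : (S₂.card : ℝ) ≤ 5 * C₁ * C₄ * (2 ^ ε') ^ 4 * (X ^ ε * R) := by
    have hnS : ∀ e ∈ S₂, e ∈ S ∧ (tm (lab e) : ℝ) ≤ 2 * δ := fun e he =>
      ⟨hmem' e (mem_filter.1 he).1, (mem_filter.1 he).2⟩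
    set F := S₂.image lab with hF
    have h1 := card_fib_sum S₂ lab F (fun b => C₁ * (2 * X ^ 6) ^ ε' * (5 * R) * wt b)
      (fun e he => mem_image_of_mem _ he) (by
      intro b hb
      obtain ⟨e₁, he₁, hb1⟩ := mem_image.1 hb
      obtain ⟨he₁S, he₁m⟩ := hnS e₁ he₁
      obtain ⟨⟨a1, a2, a3⟩, c1, c2, c3, c4, c5, c6⟩ := hfact e₁ he₁S b hb1
      have hk := hkey e₁ he₁S b hb1
      obtain ⟨l1, l2, l3⟩ := hlab1 e₁
      rw [hb1] at l1 l2 l3 he₁m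
      obtain ⟨f1, f2, -, f4, -⟩ := hS e₁ he₁S
      have hsq := hnsq e₁ he₁S
      have hcc := hnc e₁ he₁S
      have hdd := hnd e₁ he₁S
      have hco := hnco e₁ he₁S
      have hdv := hndvd e₁ he₁S
      rw [← l1, ← l2] at hsq hcc hdd
      rw [← l3] at hco hdv
      have ht := tot_le X e₁.1 e₁.2 b.2.2 g₂ (g₃ * b.1) (g₄ * b.2.1) f1 f2 f4 hco hdv hcc hdd
      set M := b.2.2 * rd b.2.2 with hM
      have hM1 : 1 ≤ M := Nat.mul_pos a3 (rd_pos _)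
      set κc := g₂ * (g₃ * b.1) * (g₄ * b.2.1) ^ 2 with hκc
      set κd := g₂ * (g₃ * b.1) ^ 2 * (g₄ * b.2.1) ^ 2 with hκd
      have hκc1 : 1 ≤ κc := by
        have : 0 < κc := by rw [hκc]; positivity
        exact this
      have hκd1 : 1 ≤ κd := by
        have : 0 < κd := by rw [hκd]; positivity
        exact this
      have hcop : Nat.Coprime M κd := by
        rw [← Nat.isCoprime_iff_coprime]
        have i1 : IsCoprime (κc : ℤ) (M : ℤ) := hco.of_isCoprime_of_dvd_left hcc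
        have i2 : IsCoprime ((κc : ℤ) ^ 2) (M : ℤ) := i1.pow_left
        have i3 : (κd : ℤ) ∣ (κc : ℤ) ^ 2 :=
          ⟨g₂ * (g₄ * b.2.1) ^ 2, by rw [hκc, hκd]; push_cast; ring⟩
        exact (i2.of_isCoprime_of_dvd_left i3).symm
      have h2 := helem X δ M κc κd hX hδ hM1 hκc1 hκd1 hcop (S₂.filter (fun e => lab e = b)) (by
        intro e he
        obtain ⟨q1, q2⟩ := mem_filter.1 he
        obtain ⟨q3, q4⟩ := hnS e q1
        obtain ⟨n1, n2, n3⟩ := hlab1 e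
        rw [q2] at n1 n2 n3
        have p1 := hnco e q3
        have p2 := hndvd e q3
        have p3 := hnc e q3
        have p4 := hnd e q3
        rw [← n3] at p1 p2
        rw [← n1, ← n2] at p3 p4
        exact ⟨(hS e q3).1, p1, p2, p3, p4, (hS e q3).2.2.1⟩)
      refine h2.trans ?_
      set r : ℝ := (b.1 : ℝ) * b.2.1 * rd b.2.2 with hr
      have hr0 : 0 < r := by
        have i1 : (0 : ℝ) < b.1 := by exact_mod_cast a1
        have i2 : (0 : ℝ) < b.2.1 := by exact_mod_cast a2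
        have i3 : (0 : ℝ) < rd b.2.2 := by exact_mod_cast rd_pos _
        rw [hr]; positivity
      have hrδ : r ≤ 2 * δ := by
        refine le_trans ?_ he₁m
        rw [hr]; exact_mod_cast c6
      have hMR : (0 : ℝ) < M := by exact_mod_cast hM1
      have hκcR : (1 : ℝ) ≤ κc := by exact_mod_cast hκc1
      have hκdR : (1 : ℝ) ≤ κd := by exact_mod_cast hκd1
      have hprod : T * 𝔤 * r ≤ M * κd * κc := by
        refine hk.trans (le_of_eq ?_)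
        rw [h𝔤, hκc, hκd, hM]
        push_cast
        ring
      have hMκd : r ≤ M * κd := by
        have i1 : b.1 * b.2.1 * rd b.2.2 ≤ M * κd := by
          have j1 : rd b.2.2 ≤ M := Nat.le_mul_of_pos_left _ a3
          have j2 : b.1 * b.2.1 ≤ κd := by
            apply Nat.le_of_dvd hκd1
            exact ⟨g₂ * g₃ ^ 2 * g₄ ^ 2 * b.1 * b.2.1, by rw [hκd]; ring⟩
          calc b.1 * b.2.1 * rd b.2.2 ≤ κd * M := Nat.mul_le_mul j2 j1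
            _ = _ := by ring
        rw [hr]; exact_mod_cast i1
      have hw : wt b = 1 / r := rfl
      rw [hw]
      have hMle : (M : ℝ) ≤ 2 * X ^ 6 := by
        refine le_trans ?_ ht
        have : M ≤ (g₃ * b.1 * (g₄ * b.2.1)) ^ 2 * M := by
          apply Nat.le_mul_of_pos_left
          positivity
        exact_mod_cast this
      have k0 : X ^ 2 / κc ≤ 2 * X ^ 3 * (1 / r) := by
        rw [mul_one_div, div_le_div_iff₀ (by linarith) hr0]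
        calc X ^ 2 * r ≤ X ^ 2 * (2 * δ) := by gcongr
          _ ≤ X ^ 2 * (2 * X) := by gcongr
          _ = 2 * X ^ 3 * 1 := by ring
          _ ≤ 2 * X ^ 3 * κc := by gcongr
      have k1 : (1 : ℝ) ≤ 2 * X ^ 3 * (1 / r) := by
        rw [mul_one_div, le_div_iff₀ hr0]
        calc 1 * r ≤ 2 * X := by linarith
          _ ≤ 2 * X ^ 3 := by
            have : X ≤ X ^ 3 := le_self_pow₀ hX (by norm_num)
            linarith
      have k2 : δ ^ 2 * X / (M * κd) ≤ X ^ 3 * (1 / r) := by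
        rw [mul_one_div]
        calc δ ^ 2 * X / (M * κd) ≤ X ^ 2 * X / r := by gcongr
          _ = _ := by ring
      have k3 : X ^ 2 / κc * (δ ^ 2 * X / (M * κd)) ≤ δ ^ 2 * X ^ 3 / (T * 𝔤) * (1 / r) := by
        rw [mul_one_div, div_div, div_mul_div_comm]
        calc X ^ 2 * (δ ^ 2 * X) / (κc * (M * κd)) ≤ X ^ 2 * (δ ^ 2 * X) / (T * 𝔤 * r) := by
              apply div_le_div_of_nonneg_left (by positivity) (by positivity)
              calc T * 𝔤 * r ≤ M * κd * κc := hprod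
                _ = _ := by ring
          _ = _ := by ring
      have k4 : (X ^ 2 / κc + 1) * (δ ^ 2 * X / (M * κd) + 1) ≤ 5 * R * (1 / r) := by
        have : (X ^ 2 / κc + 1) * (δ ^ 2 * X / (M * κd) + 1) =
          X ^ 2 / κc * (δ ^ 2 * X / (M * κd)) + X ^ 2 / κc + δ ^ 2 * X / (M * κd) + 1 := by ring
        rw [this, hR]
        have h1r : 0 < 1 / r := by positivity
        have h5 : 0 ≤ δ ^ 2 * X ^ 3 / (T * 𝔤) * (1 / r) := by positivity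
        calc X ^ 2 / κc * (δ ^ 2 * X / (M * κd)) + X ^ 2 / κc + δ ^ 2 * X / (M * κd) + 1 ≤
              δ ^ 2 * X ^ 3 / (T * 𝔤) * (1 / r) + 2 * X ^ 3 * (1 / r) + X ^ 3 * (1 / r) +
                2 * X ^ 3 * (1 / r) := by linarith
          _ ≤ _ := by linarith
      calc C₁ * (M : ℝ) ^ ε' * ((X ^ 2 / κc + 1) * (δ ^ 2 * X / (M * κd) + 1)) ≤
            C₁ * (2 * X ^ 6) ^ ε' * (5 * R * (1 / r)) := by gcongr
        _ = _ := by ring)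
    refine h1.trans ?_
    rw [← mul_sum]
    have h3 := hws F (2 * X ^ 6) h2X6 (by
      intro b hb
      obtain ⟨e₁, he₁, hb1⟩ := mem_image.1 hb
      obtain ⟨a, c1, c2, c3, -⟩ := hfact e₁ (hnS e₁ he₁).1 b hb1
      exact ⟨a, c1, c2, c3⟩)
    rw [e26] at h3 ⊢
    have e6 : X ^ (6 * ε') * (X ^ (6 * ε')) ^ 3 ≤ X ^ ε := by
      rw [← Real.rpow_natCast (X ^ (6 * ε')) 3, ← Real.rpow_mul hX0.le, ← Real.rpow_add hX0]
      apply hXe1
      rw [hε']; push_cast; linarith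
    calc C₁ * (2 ^ ε' * X ^ (6 * ε')) * (5 * R) * ∑ b ∈ F, wt b ≤
          C₁ * (2 ^ ε' * X ^ (6 * ε')) * (5 * R) * (C₄ * (2 ^ ε' * X ^ (6 * ε')) ^ 3) := by gcongr
      _ = 5 * C₁ * C₄ * (2 ^ ε') ^ 4 * ((X ^ (6 * ε') * (X ^ (6 * ε')) ^ 3) * R) := by ring
      _ ≤ _ := by gcongr
  -- (3) medium moduli
  have b3 : (S₃.card : ℝ) ≤ 3 * C₂ * C₄ * (2 ^ ε') ^ 3 * (X ^ ε * R) := by
    have hnS : ∀ e ∈ S₃, e ∈ S'' ∧ tm (lab e) ≤ Y := fun e he => mem_filter.1 he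
    set F := S₃.image lab with hF
    have h1 := card_fib_sum S₃ lab F (fun b => C₂ * X ^ ε' * (3 * R) * wt b)
      (fun e he => mem_image_of_mem _ he) (by
      intro b hb
      obtain ⟨e₁, he₁, hb1⟩ := mem_image.1 hb
      obtain ⟨he₁'', he₁Y⟩ := hnS e₁ he₁
      obtain ⟨he₁S, he₁m⟩ := hmem'' e₁ he₁''
      obtain ⟨⟨a1, a2, a3⟩, c1, c2, c3, c4, c5, c6⟩ := hfact e₁ he₁S b hb1
      have hk := hkey e₁ he₁S b hb1
      obtain ⟨l1, l2, l3⟩ := hlab1 e₁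
      rw [hb1] at l1 l2 l3 he₁m he₁Y
      have hsq := hnsq e₁ he₁S
      have hcc := hnc e₁ he₁S
      have hco := hnco e₁ he₁S
      rw [← l1, ← l2] at hsq hcc
      rw [← l3] at hco
      obtain ⟨g1, g2, g3, g4, g5, g6⟩ := hmf b.2.2 a3
      set M := b.2.2 * rd b.2.2 with hM
      set s₃ := g₃ * b.1 with hs₃
      set s₄ := g₄ * b.2.1 with hs₄
      set m₀ := m₀f b.2.2 with hm₀
      set μ := μf b.2.2 with hμ
      have htmb : tm b = s₃ * s₄ * μ := by rw [htm]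
      -- coprimality of `m₀` with the rest
      have hsdvd : ((g₂ * s₃ * s₄ : ℕ) : ℤ) ∣ e₁.1 :=
        Dvd.dvd.trans ⟨s₄, by push_cast; ring⟩ hcc
      have hcopM : IsCoprime ((g₂ * s₃ * s₄ : ℕ) : ℤ) (M : ℤ) := hco.of_isCoprime_of_dvd_left hsdvd
      have hcopMn : Nat.Coprime (g₂ * s₃ * s₄) M := Nat.isCoprime_iff_coprime.1 hcopM
      have hm₀M : m₀ ∣ M := ⟨μ ^ 2, by rw [← g1]; ring⟩
      have hμM : μ ∣ M := ⟨μ * m₀, by rw [← g1]; ring⟩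
      have hh1 : Squarefree (m₀ * g₂ * s₃ * s₄) := by
        have e5 : m₀ * g₂ * s₃ * s₄ = m₀ * (g₂ * s₃ * s₄) := by ring
        rw [e5, Nat.squarefree_mul (hcopMn.coprime_dvd_right hm₀M).symm]
        exact ⟨g2, hsq⟩
      have hhpos : 1 ≤ m₀ * g₂ * s₃ * s₄ := Nat.one_le_iff_ne_zero.2 hh1.ne_zero
      have hhle : ((m₀ * g₂ * s₃ * s₄ : ℕ) : ℝ) ≤ 100000 * X ^ 6 := by
        have i1 : m₀ * s₃ * s₄ ≤ tm b := by
          rw [htmb]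
          calc m₀ * s₃ * s₄ = s₃ * s₄ * m₀ := by ring
            _ ≤ s₃ * s₄ * μ := Nat.mul_le_mul_left _ (Nat.le_of_dvd g5 g3)
        have i2 : ((m₀ * s₃ * s₄ : ℕ) : ℝ) ≤ 50 * X ^ 3 := le_trans (by exact_mod_cast i1) c5
        have e5 : ((m₀ * g₂ * s₃ * s₄ : ℕ) : ℝ) = g₂ * ((m₀ * s₃ * s₄ : ℕ) : ℝ) := by push_cast; ring
        rw [e5]
        calc (g₂ : ℝ) * ((m₀ * s₃ * s₄ : ℕ) : ℝ) ≤ X ^ 3 * (50 * X ^ 3) := by gcongr
          _ = 50 * X ^ 6 := by ring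
          _ ≤ 100000 * X ^ 6 := by
            have h0 : 0 ≤ X ^ 6 := by positivity
            linarith
      have h2 := hcm X δ (tm b) m₀ g₂ s₃ s₄ (m₀ * g₂ * s₃ * s₄) hX hδ hδX hδ1 he₁m c5 rfl hhpos hh1
        hhle (by rw [htmb]; exact Dvd.dvd.mul_left g3 _)
        (by rw [htmb, mul_assoc]; exact dvd_mul_right _ _)
        (by rw [htmb, mul_comm s₃ s₄, mul_assoc]; exact dvd_mul_right _ _) hg23 (by
          intro l hl hl2 hlm
          have i1 : l ∣ tm b := Int.natCast_dvd_natCast.1 hlm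
          rw [htmb] at i1
          have i2 : Nat.Coprime g₂ (s₃ * s₄ * μ) := by
            apply Nat.Coprime.mul_right
            · have : g₂ * (s₃ * s₄) = g₂ * s₃ * s₄ := by ring
              apply Nat.coprime_of_squarefree_mul
              rw [this]
              exact hsq
            · have i3 : Nat.Coprime (g₂ * s₃ * s₄) μ := hcopMn.coprime_dvd_right hμM
              exact i3.coprime_dvd_left ⟨s₃ * s₄, by ring⟩
          exact hl.one_lt.ne' (Nat.eq_one_of_dvd_coprimes i2 hl2 i1))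
        (S₃.filter (fun e => lab e = b)) (by
        intro e he
        obtain ⟨q1, q2⟩ := mem_filter.1 he
        have q3 := hHas e (hnS e q1).1
        obtain ⟨n1, n2, n3⟩ := hlab1 e
        rw [q2] at n1 n2 n3
        rw [q2, ← n1, ← n2, ← n3] at q3
        exact q3)
      refine h2.trans ?_
      set r : ℝ := (b.1 : ℝ) * b.2.1 * rd b.2.2 with hr
      have hr0 : 0 < r := by
        have i1 : (0 : ℝ) < b.1 := by exact_mod_cast a1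
        have i2 : (0 : ℝ) < b.2.1 := by exact_mod_cast a2
        have i3 : (0 : ℝ) < rd b.2.2 := by exact_mod_cast rd_pos _
        rw [hr]; positivity
      have hrm : r ≤ tm b := by
        rw [hr]; exact_mod_cast c6
      have hmY : (tm b : ℝ) ≤ Y := by exact_mod_cast he₁Y
      have hmpos : (0 : ℝ) < tm b := by linarith
      have hw : wt b = 1 / r := rfl
      rw [hw]
      have k0 : X ≤ X ^ 3 * (1 / r) := by
        rw [mul_one_div, le_div_iff₀ hr0]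
        calc X * r ≤ X * X ^ 2 := by
              apply mul_le_mul_of_nonneg_left _ hX0.le
              linarith
          _ = _ := by ring
      have k1 : δ * X ^ 2 / tm b ≤ X ^ 3 * (1 / r) := by
        rw [mul_one_div]
        calc δ * X ^ 2 / tm b ≤ X * X ^ 2 / r := by gcongr
          _ = _ := by ring
      have k2 : δ ^ 2 * X ^ 3 / ((tm b : ℝ) ^ 2 * ((g₂ * s₄ : ℕ) : ℝ) * ((m₀ * g₂ * s₃ * s₄ : ℕ) : ℝ)) ≤
          δ ^ 2 * X ^ 3 / (T * 𝔤) * (1 / r) := by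
        rw [mul_one_div, div_div]
        apply div_le_div_of_nonneg_left (by positivity) (by positivity)
        refine hk.trans (le_of_eq ?_)
        have e5 : ((b.2.2 : ℝ) * rd b.2.2) = (μ : ℝ) ^ 2 * m₀ := by
          have := g1
          exact_mod_cast this.symm
        rw [e5, htmb, h𝔤, hs₃, hs₄]
        push_cast
        ring
      have k3 : X + δ * X ^ 2 / tm b + δ ^ 2 * X ^ 3 /
          ((tm b : ℝ) ^ 2 * ((g₂ * s₄ : ℕ) : ℝ) * ((m₀ * g₂ * s₃ * s₄ : ℕ) : ℝ)) ≤ 3 * R * (1 / r) := by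
        rw [hR]
        have h5 : 0 ≤ δ ^ 2 * X ^ 3 / (T * 𝔤) * (1 / r) := by positivity
        have h6 : 0 ≤ X ^ 3 * (1 / r) := by positivity
        linarith
      calc C₂ * X ^ ε' * (X + δ * X ^ 2 / tm b + δ ^ 2 * X ^ 3 /
            ((tm b : ℝ) ^ 2 * ((g₂ * s₄ : ℕ) : ℝ) * ((m₀ * g₂ * s₃ * s₄ : ℕ) : ℝ))) ≤
            C₂ * X ^ ε' * (3 * R * (1 / r)) := by gcongr
        _ = _ := by ring)
    refine h1.trans ?_
    rw [← mul_sum]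
    have h3 := hws F (2 * X ^ 6) h2X6 (by
      intro b hb
      obtain ⟨e₁, he₁, hb1⟩ := mem_image.1 hb
      obtain ⟨a, c1, c2, c3, -⟩ := hfact e₁ (hmem'' e₁ (hnS e₁ he₁).1).1 b hb1
      exact ⟨a, c1, c2, c3⟩)
    rw [e26] at h3
    have e6 : X ^ ε' * (X ^ (6 * ε')) ^ 3 ≤ X ^ ε := by
      rw [← Real.rpow_natCast (X ^ (6 * ε')) 3, ← Real.rpow_mul hX0.le, ← Real.rpow_add hX0]
      apply hXe1
      rw [hε']; push_cast; linarith
    calc C₂ * X ^ ε' * (3 * R) * ∑ b ∈ F, wt b ≤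
          C₂ * X ^ ε' * (3 * R) * (C₄ * (2 ^ ε' * X ^ (6 * ε')) ^ 3) := by gcongr
      _ = 3 * C₂ * C₄ * (2 ^ ε') ^ 3 * ((X ^ ε' * (X ^ (6 * ε')) ^ 3) * R) := by ring
      _ ≤ _ := by gcongr
  -- (4) large moduli
  have b4 : (S₄.card : ℝ) ≤ C₃ * (X ^ ε * R) := by
    have h2X : 2 * δ < X ^ 2 := by nlinarith
    have h1 := hcb X δ (X ^ 2) hX hδ hδX hδ1 h2X hX21 S₄ (by
      intro e he
      obtain ⟨a1, a2⟩ := mem_filter.1 he
      obtain ⟨k1, k2⟩ := hmem'' e a1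
      obtain ⟨-, c1, c2, c3, c4, c5, c6⟩ := hfact e k1 _ rfl
      refine ⟨tm (lab e), ?_, c5, ?_⟩
      · push Not at a2
        have h3 : Y + 1 ≤ tm (lab e) := a2
        have h4 : ((Y : ℝ) + 1) ≤ tm (lab e) := by exact_mod_cast h3
        have h5 := Nat.lt_floor_add_one (X ^ 2)
        rw [← hY] at h5
        linarith
      · obtain ⟨a, ⟨t, C, E, b1, b2, -⟩, c⟩ := hHas e a1
        exact ⟨a, ⟨t, C, E, b1, b2, one_dvd _⟩, c⟩)
    have e1 : δ * X ^ 4 / X ^ 2 ≤ R := by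
      calc δ * X ^ 4 / X ^ 2 = δ * X ^ 2 := by field_simp
        _ ≤ X * X ^ 2 := by gcongr
        _ = X ^ 3 := by ring
        _ ≤ R := hRX
    calc (S₄.card : ℝ) ≤ C₃ * X ^ ε' * (δ * X ^ 4 / X ^ 2) := h1
      _ ≤ C₃ * X ^ ε * R := by
          have : X ^ ε' ≤ X ^ ε := hXe1 _ (by rw [hε']; linarith)
          gcongr
      _ = _ := by ring
  calc (S.card : ℝ) = S₁.card + (S₂.card + (S₃.card + S₄.card)) := hsplit
    _ ≤ 21 * (X ^ ε * R) + (5 * C₁ * C₄ * (2 ^ ε') ^ 4 * (X ^ ε * R) +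
        (3 * C₂ * C₄ * (2 ^ ε') ^ 3 * (X ^ ε * R) + C₃ * (X ^ ε * R))) := by linarith
    _ ≤ 36 * (X ^ ε * R) + (21 * (X ^ ε * R) + (5 * C₁ * C₄ * (2 ^ ε') ^ 4 * (X ^ ε * R) +
        (3 * C₂ * C₄ * (2 ^ ε') ^ 3 * (X ^ ε * R) + C₃ * (X ^ ε * R)))) := by linarith
    _ = _ := by ring

end Run7.h577.V
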