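import Mathlib
import Pool.Agent.Run7.h577.VL

/-!
The local data of a minimal model `y² = x³ - a x - b`.
-/

set_option autoImplicit false

namespace Run7.h577.V

open Finset Run7.h577.S

/-- a product of prime powers -/
def num (P : Finset ℕ) (e : ℕ → ℕ) : ℕ := ∏ p ∈ P, p ^ e p

theorem num_mul (P : Finset ℕ) (e e' : ℕ → ℕ) : num P e * num P e' = num P (fun p => e p + e' p) := by
  unfold num
  rw [← prod_mul_distrib]
  exact prod_congr rfl fun p _ => (pow_add _ _ _).symm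

theorem num_pow (P : Finset ℕ) (e : ℕ → ℕ) (k : ℕ) : num P e ^ k = num P (fun p => k * e p) := by
  unfold num
  rw [← prod_pow]
  exact prod_congr rfl fun p _ => by rw [← pow_mul, mul_comm]

theorem num_dvd_num {P : Finset ℕ} {e e' : ℕ → ℕ} (h : ∀ p ∈ P, e p ≤ e' p) : num P e ∣ num P e' :=
  prod_dvd_prod_of_dvd _ _ fun p hp => pow_dvd_pow p (h p hp)

section
variable {P : Finset ℕ} (hP : ∀ p ∈ P, p.Prime)
include hP

theorem num_pos (e : ℕ → ℕ) : 1 ≤ num P e :=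
  Finset.prod_pos fun p hp => pow_pos (hP p hp).pos _

theorem num_le {e e' : ℕ → ℕ} (h : ∀ p ∈ P, e p ≤ e' p) : num P e ≤ num P e' :=
  Nat.le_of_dvd (num_pos hP e') (num_dvd_num h)

theorem num_dvd {e : ℕ → ℕ} {z : ℤ} (h : ∀ p ∈ P, (p : ℤ) ^ e p ∣ z) : (num P e : ℤ) ∣ z := by
  unfold num
  push_cast
  apply Finset.prod_dvd_of_coprime
  · intro p hp q hq hpq
    apply IsCoprime.pow
    rw [Nat.isCoprime_iff_coprime]
    exact (Nat.coprime_primes (hP p hp) (hP q hq)).2 hpq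
  · exact h

theorem num_coprime {e : ℕ → ℕ} {c : ℤ} (h : ∀ p ∈ P, e p ≠ 0 → ¬ (p : ℤ) ∣ c) :
    IsCoprime c (num P e : ℤ) := by
  unfold num
  push_cast
  apply IsCoprime.prod_right
  intro p hp
  by_cases h0 : e p = 0
  · rw [h0, pow_zero]; exact isCoprime_one_right
  · apply IsCoprime.pow_right
    exact (prime_cop (hP p hp) (h p hp h0)).symm

theorem num_prime_dvd {e : ℕ → ℕ} {q : ℕ} (hq : q.Prime) (h : q ∣ num P e) : q ∈ P ∧ e q ≠ 0 := by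
  unfold num at h
  obtain ⟨p, hp, hd⟩ := (Prime.dvd_finsetProd_iff hq.prime _).1 h
  have h0 : e p ≠ 0 := by
    intro h0
    rw [h0, pow_zero] at hd
    exact hq.one_lt.ne' (Nat.dvd_one.1 hd)
  have h1 := hq.dvd_of_dvd_pow hd
  have h2 := (Nat.prime_dvd_prime_iff_eq hq (hP p hp)).1 h1
  subst h2
  exact ⟨hp, h0⟩

theorem num_sqfree {e : ℕ → ℕ} (h : ∀ p ∈ P, e p ≤ 1) : Squarefree (num P e) := by
  rw [Nat.squarefree_iff_prime_squarefree]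
  intro q hq hqq
  obtain ⟨hqP, hq0⟩ := num_prime_dvd hP hq ((dvd_mul_right q q).trans hqq)
  -- write the product as `q * rest`
  have h1 : num P e = q ^ e q * ∏ p ∈ P.erase q, p ^ e p := by
    unfold num
    rw [Finset.mul_prod_erase P (fun p => p ^ e p) hqP]
  have h2 : e q = 1 := le_antisymm (h q hqP) (Nat.one_le_iff_ne_zero.2 hq0)
  rw [h1, h2, pow_one] at hqq
  have h3 : q ∣ ∏ p ∈ P.erase q, p ^ e p := Nat.dvd_of_mul_dvd_mul_left hq.pos hqq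
  have hP' : ∀ p ∈ P.erase q, p.Prime := fun p hp => hP p (mem_of_mem_erase hp)
  obtain ⟨h4, -⟩ := num_prime_dvd hP' hq (e := e) h3
  exact (notMem_erase q P) h4

end

/-- the discriminant -/
def Disc (a b : ℤ) : ℤ := 4 * a ^ 3 - 27 * b ^ 2

/-- the prime-to-6 part of the conductor -/
def Cond6 (a b : ℤ) : ℕ :=
  ∏ p ∈ (Disc a b).natAbs.primeFactors.filter (fun p => 5 ≤ p), if (p : ℤ) ∣ a then p ^ 2 else p

/-- minimality -/
def Mn (a b : ℤ) : Prop := Disc a b ≠ 0 ∧ ∀ p : ℕ, p.Prime → ¬ ((p : ℤ) ^ 4 ∣ a ∧ (p : ℤ) ^ 6 ∣ b)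

section loc
variable {p : ℕ} (hp : p.Prime) {c d : ℤ}
include hp

theorem pr (hp : p.Prime) : Prime (p : ℤ) := Nat.prime_iff_prime_int.1 hp

theorem p_ne : (p : ℤ) ≠ 0 := by exact_mod_cast hp.ne_zero

theorem d2_of_3 (h : (p : ℤ) ^ 3 ∣ d ^ 2) : (p : ℤ) ^ 2 ∣ d := by
  have h1 : (p : ℤ) ∣ d := (pr hp hp).dvd_of_dvd_pow ((dvd_pow_self _ (by norm_num)).trans h)
  obtain ⟨e, rfl⟩ := h1
  have h2 : (p : ℤ) ^ 2 * p ∣ (p : ℤ) ^ 2 * e ^ 2 := by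
    have e1 : (p : ℤ) ^ 2 * p = (p : ℤ) ^ 3 := by ring
    have e2 : (p : ℤ) ^ 2 * e ^ 2 = (p * e) ^ 2 := by ring
    rw [e1, e2]; exact h
  have h3 := (mul_dvd_mul_iff_left (pow_ne_zero 2 (p_ne hp))).1 h2
  have h4 := (pr hp hp).dvd_of_dvd_pow h3
  rw [sq]
  exact mul_dvd_mul_left _ h4

theorem d3_of_5 (h0 : (p : ℤ) ^ 2 ∣ d) (h : (p : ℤ) ^ 5 ∣ d ^ 2) : (p : ℤ) ^ 3 ∣ d := by
  obtain ⟨e, rfl⟩ := h0
  have h2 : (p : ℤ) ^ 4 * p ∣ (p : ℤ) ^ 4 * e ^ 2 := by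
    have e1 : (p : ℤ) ^ 4 * p = (p : ℤ) ^ 5 := by ring
    have e2 : (p : ℤ) ^ 4 * e ^ 2 = ((p : ℤ) ^ 2 * e) ^ 2 := by ring
    rw [e1, e2]; exact h
  have h3 := (mul_dvd_mul_iff_left (pow_ne_zero 4 (p_ne hp))).1 h2
  have h4 := (pr hp hp).dvd_of_dvd_pow h3
  have e3 : (p : ℤ) ^ 3 = (p : ℤ) ^ 2 * p := by ring
  rw [e3]
  exact mul_dvd_mul_left _ h4

theorem c2_of_4 (h : (p : ℤ) ^ 4 ∣ c ^ 3) : (p : ℤ) ^ 2 ∣ c := by
  have h1 : (p : ℤ) ∣ c := (pr hp hp).dvd_of_dvd_pow ((dvd_pow_self _ (by norm_num)).trans h)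
  obtain ⟨e, rfl⟩ := h1
  have h2 : (p : ℤ) ^ 3 * p ∣ (p : ℤ) ^ 3 * e ^ 3 := by
    have e1 : (p : ℤ) ^ 3 * p = (p : ℤ) ^ 4 := by ring
    have e2 : (p : ℤ) ^ 3 * e ^ 3 = (p * e) ^ 3 := by ring
    rw [e1, e2]; exact h
  have h3 := (mul_dvd_mul_iff_left (pow_ne_zero 3 (p_ne hp))).1 h2
  have h4 := (pr hp hp).dvd_of_dvd_pow h3
  rw [sq]
  exact mul_dvd_mul_left _ h4

/-- the valuation of the discriminant in the additive cases -/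
theorem val_add (N : ℕ) (hN : N = (d ^ 2 - c ^ 3).natAbs) (h0 : d ^ 2 - c ^ 3 ≠ 0)
    (hc : (p : ℤ) ∣ c) (hred : ¬ ((p : ℤ) ^ 2 ∣ c ∧ (p : ℤ) ^ 3 ∣ d)) :
    (¬ (p : ℤ) ^ 2 ∣ d → N.factorization p ≤ 2) ∧ (¬ (p : ℤ) ^ 2 ∣ c → N.factorization p ≤ 3) ∧
      N.factorization p ≤ 4 := by
  have hN0 : N ≠ 0 := by rw [hN]; exact Int.natAbs_ne_zero.2 h0
  have key : ∀ k : ℕ, k ≤ N.factorization p → (p : ℤ) ^ k ∣ d ^ 2 - c ^ 3 := by
    intro k hk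
    have h1 : p ^ k ∣ N := (hp.pow_dvd_iff_le_factorization hN0).2 hk
    rw [hN] at h1
    have h2 := Int.natCast_dvd.2 h1
    push_cast at h2
    exact h2
  have hc3 : (p : ℤ) ^ 3 ∣ c ^ 3 := pow_dvd_pow_of_dvd hc 3
  have hd3 : 3 ≤ N.factorization p → (p : ℤ) ^ 2 ∣ d := by
    intro h3
    have h1 := dvd_add (key 3 h3) hc3
    rw [sub_add_cancel] at h1
    exact d2_of_3 hp h1
  have hc4 : 4 ≤ N.factorization p → (p : ℤ) ^ 2 ∣ c := by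
    intro h4
    have h1 := hd3 (by omega)
    have h2 : (p : ℤ) ^ 4 ∣ d ^ 2 := by
      have := pow_dvd_pow_of_dvd h1 2
      rwa [← pow_mul] at this
    have h3 := dvd_sub h2 (key 4 h4)
    have e : d ^ 2 - (d ^ 2 - c ^ 3) = c ^ 3 := by ring
    rw [e] at h3
    exact c2_of_4 hp h3
  refine ⟨fun h => ?_, fun h => ?_, ?_⟩
  · by_contra hcon
    exact h (hd3 (by omega))
  · by_contra hcon
    exact h (hc4 (by omega))
  · by_contra hcon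
    have h1 := hd3 (by omega)
    have h2 := hc4 (by omega)
    apply hred
    refine ⟨h2, d3_of_5 hp h1 ?_⟩
    have h3 : (p : ℤ) ^ 5 ∣ c ^ 3 := by
      have := pow_dvd_pow_of_dvd h2 3
      rw [← pow_mul] at this
      exact (pow_dvd_pow _ (by norm_num)).trans this
    have h4 := dvd_add (key 5 (by omega)) h3
    rwa [sub_add_cancel] at h4

end loc

/-- the maximal `u` with `u² ∣ c₁`, `u³ ∣ d₁` -/
theorem exists_u (c₁ d₁ : ℤ) (h0 : ¬ (c₁ = 0 ∧ d₁ = 0)) : ∃ (u : ℕ) (c d : ℤ), 1 ≤ u ∧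
    c * (u : ℤ) ^ 2 = c₁ ∧ d * (u : ℤ) ^ 3 = d₁ ∧
    ∀ p : ℕ, p.Prime → ¬ ((p : ℤ) ^ 2 ∣ c ∧ (p : ℤ) ^ 3 ∣ d) := by
  classical
  set Q : ℕ → Prop := fun u => (u : ℤ) ^ 2 ∣ c₁ ∧ (u : ℤ) ^ 3 ∣ d₁ with hQ
  set B := c₁.natAbs + d₁.natAbs with hB
  have hb : ∀ u : ℕ, 1 ≤ u → Q u → u ≤ B := by
    intro u hu ⟨h1, h2⟩
    by_cases hc : c₁ = 0
    · have hd : d₁ ≠ 0 := fun hd => h0 ⟨hc, hd⟩
      have h3 : u ^ 3 ∣ d₁.natAbs := Int.natCast_dvd.1 (by push_cast; exact h2)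
      have h4 := Nat.le_of_dvd (Int.natAbs_pos.2 hd) h3
      have h5 : u ≤ u ^ 3 := Nat.le_self_pow (by norm_num) u
      omega
    · have h3 : u ^ 2 ∣ c₁.natAbs := Int.natCast_dvd.1 (by push_cast; exact h1)
      have h4 := Nat.le_of_dvd (Int.natAbs_pos.2 hc) h3
      have h5 : u ≤ u ^ 2 := Nat.le_self_pow (by norm_num) u
      omega
  have hQ1 : Q 1 := by rw [hQ]; simp
  have h1B : 1 ≤ B := hb 1 le_rfl hQ1
  set u := Nat.findGreatest Q B with hu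
  have hQu : Q u := Nat.findGreatest_spec h1B hQ1
  have hu1 : 1 ≤ u := Nat.le_findGreatest h1B hQ1
  obtain ⟨⟨c, hc⟩, ⟨d, hd⟩⟩ := hQu
  refine ⟨u, c, d, hu1, by rw [hc]; ring, by rw [hd]; ring, ?_⟩
  rintro p hp ⟨⟨c', hc'⟩, ⟨d', hd'⟩⟩
  have h1 : Q (p * u) := by
    refine ⟨⟨c', ?_⟩, ⟨d', ?_⟩⟩
    · rw [hc, hc']; push_cast; ring
    · rw [hd, hd']; push_cast; ring
  have h2 : 1 ≤ p * u := Nat.mul_pos hp.pos hu1
  have h3 := Nat.le_findGreatest (hb _ h2 h1) h1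
  rw [← hu] at h3
  have h4 : 2 * u ≤ p * u := Nat.mul_le_mul_right _ hp.two_le
  omega

end Run7.h577.V
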