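import Mathlib
import Pool.Agent.Run7.h577.VM

/-!
The local data of a minimal model: the decomposition.
-/

set_option autoImplicit false
set_option linter.unusedSimpArgs false

namespace Run7.h577.V

open Finset Run7.h577.S

theorem cond6_eq (a b : ℤ) (P : Finset ℕ) (hP : ∀ p ∈ (Disc a b).natAbs.primeFactors, p ∈ P)
    (hPp : ∀ p ∈ P, p.Prime) (h0 : Disc a b ≠ 0) (e : ℕ → ℕ)
    (he : ∀ p, p.Prime → e p = if 5 ≤ p ∧ p ∣ (Disc a b).natAbs then (if (p : ℤ) ∣ a then 2 else 1) else 0) :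
    Cond6 a b = num P e := by
  classical
  unfold Cond6 num
  symm
  have h1 : ∏ p ∈ (Disc a b).natAbs.primeFactors.filter (fun p => 5 ≤ p), p ^ e p = ∏ p ∈ P, p ^ e p := by
    apply Finset.prod_subset
    · intro p hp
      exact hP p (mem_filter.1 hp).1
    · intro p hp hnp
      rw [he p (hPp p hp), if_neg, pow_zero]
      rintro ⟨h5, hd⟩
      apply hnp
      rw [mem_filter, Nat.mem_primeFactors]
      exact ⟨⟨hPp p hp, hd, Int.natAbs_ne_zero.2 h0⟩, h5⟩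
  rw [← h1]
  apply prod_congr rfl
  intro p hp
  obtain ⟨h2, h3⟩ := mem_filter.1 hp
  rw [he p (Nat.prime_of_mem_primeFactors h2), if_pos ⟨h3, Nat.dvd_of_mem_primeFactors h2⟩]
  split_ifs
  · rfl
  · rw [pow_one]

theorem cop_small {p : ℕ} (hp : p.Prime) (h5 : 5 ≤ p) (k : ℕ) : IsCoprime ((p : ℤ) ^ k) 12 ∧
    IsCoprime ((p : ℤ) ^ k) 108 ∧ IsCoprime ((p : ℤ) ^ k) 432 := by
  have h2 : IsCoprime (p : ℤ) 2 := by
    apply prime_cop hp
    intro h
    have : p ∣ 2 := by exact_mod_cast h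
    have := Nat.le_of_dvd (by norm_num) this
    omega
  have h3 : IsCoprime (p : ℤ) 3 := by
    apply prime_cop hp
    intro h
    have : p ∣ 3 := by exact_mod_cast h
    have := Nat.le_of_dvd (by norm_num) this
    omega
  have e12 : (12 : ℤ) = 2 ^ 2 * 3 := by norm_num
  have e108 : (108 : ℤ) = 2 ^ 2 * 3 ^ 3 := by norm_num
  have e432 : (432 : ℤ) = 2 ^ 4 * 3 ^ 3 := by norm_num
  refine ⟨?_, ?_, ?_⟩
  · rw [e12]; exact (h2.pow_right.mul_right h3).pow_left
  · rw [e108]; exact (h2.pow_right.mul_right h3.pow_right).pow_left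
  · rw [e432]; exact (h2.pow_right.mul_right h3.pow_right).pow_left

theorem small_prod (P : Finset ℕ) (hP : ∀ p ∈ P, p.Prime) :
    num P (fun p => if p < 5 then 5 else 0) ≤ 7776 := by
  classical
  unfold num
  have h1 : ∏ p ∈ P, p ^ (if p < 5 then 5 else 0) = ∏ p ∈ P.filter (fun p => p < 5), p ^ 5 := by
    rw [Finset.prod_filter]
    apply prod_congr rfl
    intro p _
    split_ifs
    · rfl
    · rw [pow_zero]
  rw [h1]
  have h2 : P.filter (fun p => p < 5) ⊆ {2, 3} := by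
    intro p hp
    obtain ⟨a, b⟩ := mem_filter.1 hp
    have h3 := hP p a
    have h4 := h3.two_le
    rw [mem_insert, mem_singleton]
    interval_cases p
    · left; rfl
    · right; rfl
    · norm_num at h3
  have h3 : ∏ p ∈ P.filter (fun p => p < 5), p ^ 5 ∣ ∏ p ∈ ({2, 3} : Finset ℕ), p ^ 5 :=
    Finset.prod_dvd_prod_of_subset _ _ _ h2
  have h4 : ∏ p ∈ ({2, 3} : Finset ℕ), p ^ 5 = 7776 := by decide
  rw [h4] at h3
  exact Nat.le_of_dvd (by norm_num) h3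

theorem data (a b : ℤ) (h : Mn a b) : ∃ (u g₀ gM g₂ g₃ g₄ n r₃ r₄ : ℕ) (c d : ℤ),
    1 ≤ u ∧ c * (u : ℤ) ^ 2 = 12 * a ∧ d * (u : ℤ) ^ 3 = 108 * b ∧ d ^ 2 - c ^ 3 ≠ 0 ∧
    u ∣ 36 * (g₀ * g₂ * g₃ * g₄ * gM) ∧ (g₀ * g₂ * g₃ * g₄ * gM) ∣ u ∧ gM ∣ (d ^ 2 - c ^ 3).natAbs ∧
    (1 ≤ g₀ ∧ 1 ≤ gM ∧ 1 ≤ g₂ ∧ 1 ≤ g₃ ∧ 1 ≤ g₄) ∧ ¬ 3 ∣ g₂ ∧ 1 ≤ n ∧
    (d ^ 2 - c ^ 3).natAbs * (g₀ * g₂ * g₃ * g₄ * gM) ^ 2 ≤
      7776 * (n * r₃ * r₄ ^ 2) * Cond6 a b * (gM * (g₂ ^ 2 * g₃ ^ 3 * g₄ ^ 4)) ∧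
    IsCoprime c ((n * rd n : ℕ) : ℤ) ∧ ((n * rd n : ℕ) : ℤ) ∣ d ^ 2 - c ^ 3 ∧
    Squarefree (g₂ * (g₃ * r₃) * (g₄ * r₄)) ∧ ((g₂ * (g₃ * r₃) * (g₄ * r₄) ^ 2 : ℕ) : ℤ) ∣ c ∧
    ((g₂ * (g₃ * r₃) ^ 2 * (g₄ * r₄) ^ 2 : ℕ) : ℤ) ∣ d := by
  classical
  obtain ⟨hD0, hmin⟩ := h
  obtain ⟨u, c, d, hu1, hc, hd, hred⟩ := exists_u (12 * a) (108 * b) (by
    rintro ⟨h1, h2⟩
    apply hD0
    have ha : a = 0 := by omega
    have hb : b = 0 := by omega
    unfold Disc
    rw [ha, hb]; norm_num)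
  have hrel : (u : ℤ) ^ 6 * (d ^ 2 - c ^ 3) = -(432 * Disc a b) := by
    unfold Disc
    have e : (u : ℤ) ^ 6 * (d ^ 2 - c ^ 3) = (d * (u : ℤ) ^ 3) ^ 2 - (c * (u : ℤ) ^ 2) ^ 3 := by ring
    rw [e, hc, hd]; ring
  have hD1 : d ^ 2 - c ^ 3 ≠ 0 := by
    intro h1
    rw [h1, mul_zero] at hrel
    apply hD0
    omega
  obtain ⟨N, hN⟩ : ∃ N : ℕ, N = (d ^ 2 - c ^ 3).natAbs := ⟨_, rfl⟩
  have hN0 : N ≠ 0 := by rw [hN]; exact Int.natAbs_ne_zero.2 hD1
  have hNdvd : ∀ k : ℕ, k ∣ N → (k : ℤ) ∣ d ^ 2 - c ^ 3 := by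
    intro k hk
    rw [hN] at hk
    exact Int.natCast_dvd.2 hk
  have hDn0 : (Disc a b).natAbs ≠ 0 := Int.natAbs_ne_zero.2 hD0
  obtain ⟨P, hPdef⟩ : ∃ P : Finset ℕ, P = (N * u * (Disc a b).natAbs).primeFactors := ⟨_, rfl⟩
  have hP0 : N * u * (Disc a b).natAbs ≠ 0 := Nat.mul_ne_zero (Nat.mul_ne_zero hN0 (by omega)) hDn0
  have hP : ∀ p ∈ P, p.Prime := by
    intro p hp
    rw [hPdef] at hp
    exact Nat.prime_of_mem_primeFactors hp
  have hPN : ∀ p : ℕ, p.Prime → p ∣ N → p ∈ P := by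
    intro p hp hd
    rw [hPdef, Nat.mem_primeFactors]
    exact ⟨hp, Dvd.dvd.mul_right (Dvd.dvd.mul_right hd _) _, hP0⟩
  have hPu : ∀ p : ℕ, p.Prime → p ∣ u → p ∈ P := by
    intro p hp hd
    rw [hPdef, Nat.mem_primeFactors]
    exact ⟨hp, Dvd.dvd.mul_right (Dvd.dvd.mul_left hd _) _, hP0⟩
  have hPD : ∀ p ∈ (Disc a b).natAbs.primeFactors, p ∈ P := by
    intro p hp
    rw [hPdef, Nat.mem_primeFactors]
    exact ⟨Nat.prime_of_mem_primeFactors hp, Dvd.dvd.mul_left (Nat.dvd_of_mem_primeFactors hp) _, hP0⟩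
  obtain ⟨v, hv⟩ : ∃ v : ℕ → ℕ, v = fun p => N.factorization p := ⟨_, rfl⟩
  have hvp : ∀ p : ℕ, p.Prime → ((p : ℤ) ^ v p ∣ d ^ 2 - c ^ 3) := by
    intro p hp
    have h1 : p ^ v p ∣ N := by rw [hv]; exact Nat.ordProj_dvd N p
    have h2 := hNdvd _ h1
    push_cast at h2
    exact h2
  have hv1 : ∀ p : ℕ, p.Prime → p ∣ N → 1 ≤ v p := by
    intro p hp hd
    rw [hv]
    exact hp.factorization_pos_of_dvd hN0 hd
  have hv0 : ∀ p : ℕ, ¬ p ∣ N → v p = 0 := by
    intro p hd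
    rw [hv]
    exact Nat.factorization_eq_zero_of_not_dvd hd
  have hNnum : N = num P v := by
    unfold num
    conv_lhs => rw [← Nat.prod_factorization_pow_eq_self hN0]
    rw [Finsupp.prod, Nat.support_factorization]
    rw [hv]
    apply Finset.prod_subset
    · intro p hp
      exact hPN p (Nat.prime_of_mem_primeFactors hp) (Nat.dvd_of_mem_primeFactors hp)
    · intro p _ hnp
      rw [← Nat.support_factorization, Finsupp.notMem_support_iff] at hnp
      rw [hnp, pow_zero]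
  -- the facts at a prime
  have hcu : ∀ p : ℕ, p.Prime → (p : ℤ) ∣ c → p ∣ N → (p : ℤ) ∣ d := by
    intro p hp h1 h2
    have h3 := dvd_add (hNdvd p h2) (Dvd.dvd.trans h1 (dvd_pow_self c (by norm_num : 3 ≠ 0)))
    rw [sub_add_cancel] at h3
    exact (pr hp hp).dvd_of_dvd_pow h3
  have hca : ∀ p : ℕ, p.Prime → 5 ≤ p → (p : ℤ) ∣ c → (p : ℤ) ∣ a := by
    intro p hp h5 h1
    have h2 : (p : ℤ) ∣ 12 * a := by rw [← hc]; exact h1.mul_right _
    have h3 := (cop_small hp h5 1).1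
    rw [pow_one] at h3
    exact h3.dvd_of_dvd_mul_left h2
  have hua : ∀ p : ℕ, p.Prime → 5 ≤ p → p ∣ u → (p : ℤ) ∣ a ∧ p ∣ (Disc a b).natAbs := by
    intro p hp h5 h1
    have h1' : (p : ℤ) ∣ (u : ℤ) := Int.natCast_dvd_natCast.2 h1
    obtain ⟨h12, h108, h432⟩ := cop_small hp h5 1
    rw [pow_one] at h12 h108 h432
    have h2 : (p : ℤ) ∣ 12 * a := by
      rw [← hc]; exact Dvd.dvd.mul_left (h1'.trans (dvd_pow_self _ (by norm_num))) _
    have h3 : (p : ℤ) ∣ 108 * b := by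
      rw [← hd]; exact Dvd.dvd.mul_left (h1'.trans (dvd_pow_self _ (by norm_num))) _
    have h4 := h12.dvd_of_dvd_mul_left h2
    have h5' := h108.dvd_of_dvd_mul_left h3
    refine ⟨h4, ?_⟩
    apply Int.natCast_dvd.1
    unfold Disc
    exact dvd_sub (Dvd.dvd.mul_left (h4.trans (dvd_pow_self _ (by norm_num))) _)
      (Dvd.dvd.mul_left (h5'.trans (dvd_pow_self _ (by norm_num))) _)
  have hND : ∀ p : ℕ, p.Prime → 5 ≤ p → p ∣ N → p ∣ (Disc a b).natAbs := by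
    intro p hp h5 h1
    have h3 := (cop_small hp h5 1).2.2
    rw [pow_one] at h3
    apply Int.natCast_dvd.1
    have h2 : (p : ℤ) ∣ 432 * Disc a b := by
      have h4 : (p : ℤ) ∣ -(432 * Disc a b) := by
        rw [← hrel]; exact Dvd.dvd.mul_left (hNdvd p h1) _
      exact (dvd_neg).1 h4
    exact h3.dvd_of_dvd_mul_left h2
  have hval : ∀ p : ℕ, p.Prime → (p : ℤ) ∣ c → (¬ (p : ℤ) ^ 2 ∣ d → v p ≤ 2) ∧
      (¬ (p : ℤ) ^ 2 ∣ c → v p ≤ 3) ∧ v p ≤ 4 := by
    intro p hp h1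
    rw [hv]
    exact val_add hp N hN hD1 h1 (hred p hp)
  -- the exponents
  obtain ⟨eM, heM⟩ : ∃ e : ℕ → ℕ, e = fun p => if p ∣ N ∧ ¬ (p : ℤ) ∣ c then v p - 1 else 0 := ⟨_, rfl⟩
  obtain ⟨e0, he0⟩ : ∃ e : ℕ → ℕ, e = fun p => if 5 ≤ p ∧ p ∣ u ∧ ¬ p ∣ N then 1 else 0 := ⟨_, rfl⟩
  obtain ⟨e1, he1⟩ : ∃ e : ℕ → ℕ, e = fun p =>
    if 5 ≤ p ∧ p ∣ u ∧ p ∣ N ∧ ¬ (p : ℤ) ∣ c then 1 else 0 := ⟨_, rfl⟩
  obtain ⟨e2, he2⟩ : ∃ e : ℕ → ℕ, e = fun p =>
    if 5 ≤ p ∧ p ∣ u ∧ p ∣ N ∧ (p : ℤ) ∣ c ∧ ¬ (p : ℤ) ^ 2 ∣ d then 1 else 0 := ⟨_, rfl⟩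
  obtain ⟨e3, he3⟩ : ∃ e : ℕ → ℕ, e = fun p =>
    if 5 ≤ p ∧ p ∣ u ∧ p ∣ N ∧ (p : ℤ) ∣ c ∧ (p : ℤ) ^ 2 ∣ d ∧ ¬ (p : ℤ) ^ 2 ∣ c then 1 else 0 := ⟨_, rfl⟩
  obtain ⟨e4, he4⟩ : ∃ e : ℕ → ℕ, e = fun p =>
    if 5 ≤ p ∧ p ∣ u ∧ p ∣ N ∧ (p : ℤ) ∣ c ∧ (p : ℤ) ^ 2 ∣ d ∧ (p : ℤ) ^ 2 ∣ c then 1 else 0 := ⟨_, rfl⟩
  obtain ⟨f3, hf3⟩ : ∃ e : ℕ → ℕ, e = fun p =>
    if 5 ≤ p ∧ ¬ p ∣ u ∧ p ∣ N ∧ (p : ℤ) ∣ c ∧ (p : ℤ) ^ 2 ∣ d ∧ ¬ (p : ℤ) ^ 2 ∣ c then 1 else 0 := ⟨_, rfl⟩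
  obtain ⟨f4, hf4⟩ : ∃ e : ℕ → ℕ, e = fun p =>
    if 5 ≤ p ∧ ¬ p ∣ u ∧ p ∣ N ∧ (p : ℤ) ∣ c ∧ (p : ℤ) ^ 2 ∣ d ∧ (p : ℤ) ^ 2 ∣ c then 1 else 0 := ⟨_, rfl⟩
  obtain ⟨ec, hec⟩ : ∃ e : ℕ → ℕ, e = fun p =>
    if 5 ≤ p ∧ p ∣ (Disc a b).natAbs then (if (p : ℤ) ∣ a then 2 else 1) else 0 := ⟨_, rfl⟩
  have hcond : Cond6 a b = num P ec := cond6_eq a b P hPD hP hD0 ec (fun p _ => by rw [hec])
  -- the product `g`
  have hg : num P e0 * num P e2 * num P e3 * num P e4 * num P e1 =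
      num P (fun p => if 5 ≤ p ∧ p ∣ u then 1 else 0) := by
    simp only [num_mul]
    unfold num
    apply prod_congr rfl
    intro p _
    congr 1
    rw [he0, he1, he2, he3, he4]
    simp only
    by_cases a1 : 5 ≤ p <;> by_cases a2 : p ∣ u <;> by_cases a3 : p ∣ N <;> by_cases a4 : (p : ℤ) ∣ c <;>
      by_cases a5 : (p : ℤ) ^ 2 ∣ d <;> by_cases a6 : (p : ℤ) ^ 2 ∣ c <;> simp [a1, a2, a3, a4, a5, a6]
  have hmem_pow : ∀ (e : ℕ → ℕ) (p : ℕ), p ∈ P → p ^ e p ∣ num P e := fun e p hp =>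
    Finset.dvd_prod_of_mem (fun p => p ^ e p) hp
  -- the multiplicative part
  obtain ⟨eR, heR⟩ : ∃ e : ℕ → ℕ, e = fun p => if p ∣ N ∧ ¬ (p : ℤ) ∣ c then 1 else 0 := ⟨_, rfl⟩
  obtain ⟨eD, heD⟩ : ∃ e : ℕ → ℕ, e = fun p => if p ∣ N ∧ ¬ (p : ℤ) ∣ c then v p else 0 := ⟨_, rfl⟩
  have hmulR : num P eM * num P eR = num P eD := by
    rw [num_mul]
    unfold num
    apply prod_congr rfl
    intro p hp
    congr 1
    rw [heM, heR, heD]
    simp only
    split_ifs with h1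
    · have := hv1 p (hP p hp) h1.1
      omega
    · rfl
  have hrdR : rd (num P eM) ∣ num P eR := by
    apply rd_dvd_of
    intro q hq hqn
    obtain ⟨h1, h2⟩ := num_prime_dvd hP hq hqn
    have h3 := hmem_pow eR q h1
    rw [heM] at h2
    simp only [ne_eq, ite_eq_right_iff, Classical.not_imp] at h2
    have h4 : eR q = 1 := by rw [heR]; exact if_pos h2.1
    rw [h4, pow_one] at h3
    exact h3
  have hnrd : num P eM * rd (num P eM) ∣ num P eD := by
    rw [← hmulR]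
    exact mul_dvd_mul_left _ hrdR
  have hnrdZ : ((num P eM * rd (num P eM) : ℕ) : ℤ) ∣ (num P eD : ℤ) := Int.natCast_dvd_natCast.2 hnrd
  have hcopD : IsCoprime c (num P eD : ℤ) := by
    apply num_coprime hP
    intro p _ h1
    rw [heD] at h1
    simp only [ne_eq, ite_eq_right_iff, Classical.not_imp] at h1
    exact h1.1.2
  have hdvdD : (num P eD : ℤ) ∣ d ^ 2 - c ^ 3 := by
    apply num_dvd hP
    intro p hp
    rw [heD]
    simp only
    split_ifs with h1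
    · exact hvp p (hP p hp)
    · rw [pow_zero]; exact one_dvd _
  refine ⟨u, num P e0, num P e1, num P e2, num P e3, num P e4, num P eM, num P f3, num P f4, c, d,
    hu1, hc, hd, hD1, ?_, ?_, ?_, ⟨num_pos hP _, num_pos hP _, num_pos hP _, num_pos hP _,
    num_pos hP _⟩, ?_, num_pos hP _, ?_, ?_, ?_, ?_, ?_, ?_⟩
  · -- `u ∣ 36 g`
    rw [hg, Nat.dvd_iff_prime_pow_dvd_dvd]
    intro p k hp hpk
    have hpow : ∀ j : ℕ, ¬ p ^ (j + 1) ∣ u → k ≤ j := by
      intro j hj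
      by_contra hcon
      exact hj ((pow_dvd_pow p (by omega)).trans hpk)
    have hcu2 : ∀ j : ℕ, j ∣ u → ((j : ℤ) ^ 2 ∣ 12 * a) ∧ ((j : ℤ) ^ 3 ∣ 108 * b) := by
      intro j hj
      have hj' : (j : ℤ) ∣ (u : ℤ) := Int.natCast_dvd_natCast.2 hj
      rw [← hc, ← hd]
      exact ⟨Dvd.dvd.mul_left (pow_dvd_pow_of_dvd hj' 2) _, Dvd.dvd.mul_left (pow_dvd_pow_of_dvd hj' 3) _⟩
    rcases lt_or_ge p 5 with h5 | h5
    · have h2 := hp.two_le
      interval_cases p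
      · have hk : k ≤ 2 := by
          apply hpow 2
          intro h8
          obtain ⟨q1, q2⟩ := hcu2 _ h8
          apply hmin 2 Nat.prime_two
          constructor
          · push_cast at q1 ⊢; norm_num at q1 ⊢; omega
          · push_cast at q2 ⊢; norm_num at q2 ⊢; omega
        exact Dvd.dvd.mul_right ((pow_dvd_pow 2 hk).trans (by norm_num)) _
      · have hk : k ≤ 2 := by
          apply hpow 2
          intro h8
          obtain ⟨q1, q2⟩ := hcu2 _ h8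
          apply hmin 3 Nat.prime_three
          constructor
          · push_cast at q1 ⊢; norm_num at q1 ⊢; omega
          · push_cast at q2 ⊢; norm_num at q2 ⊢; omega
        exact Dvd.dvd.mul_right ((pow_dvd_pow 3 hk).trans (by norm_num)) _
      · norm_num at hp
    · have hk : k ≤ 1 := by
        apply hpow 1
        intro h8
        obtain ⟨q1, q2⟩ := hcu2 _ h8
        apply hmin p hp
        push_cast at q1 q2
        rw [← pow_mul] at q1 q2
        exact ⟨(cop_small hp h5 _).1.dvd_of_dvd_mul_left q1,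
          (cop_small hp h5 _).2.1.dvd_of_dvd_mul_left q2⟩
      rcases Nat.eq_zero_or_pos k with hk0 | hk0
      · rw [hk0, pow_zero]; exact one_dvd _
      · have hk1 : k = 1 := by omega
        rw [hk1, pow_one] at hpk ⊢
        have h6 := hmem_pow (fun p => if 5 ≤ p ∧ p ∣ u then 1 else 0) p (hPu p hp hpk)
        simp only [h5, hpk, and_self, if_true, pow_one] at h6
        exact Dvd.dvd.mul_left h6 _
  · -- `g ∣ u`
    rw [hg]
    have h1 : (num P (fun p => if 5 ≤ p ∧ p ∣ u then 1 else 0) : ℤ) ∣ (u : ℤ) := by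
      apply num_dvd hP
      intro p hp
      split_ifs with h2
      · rw [pow_one]; exact Int.natCast_dvd_natCast.2 h2.2
      · rw [pow_zero]; exact one_dvd _
    exact Int.natCast_dvd_natCast.1 h1
  · -- `gM ∣ N`
    apply Int.natCast_dvd.1
    apply num_dvd hP
    intro p hp
    rw [he1]
    simp only
    split_ifs with h2
    · rw [pow_one]; exact hNdvd p h2.2.2.1
    · rw [pow_zero]; exact one_dvd _
  · -- `3 ∤ g₂`
    intro h3
    obtain ⟨-, h4⟩ := num_prime_dvd hP Nat.prime_three h3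
    apply h4
    rw [he2]
    simp
  · -- the inequality
    rw [← hN, hcond]
    have h1 : N * (num P e0 * num P e2 * num P e3 * num P e4 * num P e1) ^ 2 ≤
        num P (fun p => if p < 5 then 5 else 0) * (num P eM * num P f3 * num P f4 ^ 2) * num P ec *
          (num P e1 * (num P e2 ^ 2 * num P e3 ^ 3 * num P e4 ^ 4)) := by
      rw [hg, hNnum]
      simp only [num_mul, num_pow]
      apply num_le hP
      intro p hp
      have hpp := hP p hp
      have w1 := hv1 p hpp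
      have w2 := hv0 p
      have w3 := hca p hpp
      have w4 := hua p hpp
      have w5 := hND p hpp
      have w6 := hval p hpp
      rw [heM, he1, he2, he3, he4, hf3, hf4, hec]
      simp only
      by_cases a1 : 5 ≤ p
      · have a1' : ¬ p < 5 := by omega
        by_cases a3 : p ∣ N
        · have w1' := w1 a3
          have w5' := w5 a1 a3
          by_cases a4 : (p : ℤ) ∣ c
          · have w3' := w3 a1 a4
            obtain ⟨w6a, w6b, w6c⟩ := w6 a4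
            by_cases a2 : p ∣ u <;> by_cases a5 : (p : ℤ) ^ 2 ∣ d <;> by_cases a6 : (p : ℤ) ^ 2 ∣ c <;>
              simp only [a1, a1', a2, a3, a4, a5, a6, w5', w3', and_self, and_true, true_and, and_false,
                false_and, not_true, not_false_iff, if_true, if_false] <;>
              first
              | omega
              | (have := w6a a5; omega)
              | (have := w6b a6; omega)
          · by_cases a2 : p ∣ u
            · obtain ⟨w4a, w4b⟩ := w4 a1 a2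
              simp only [a1, a1', a2, a3, a4, w5', w4a, and_self, and_true, true_and, and_false,
                false_and, not_true, not_false_iff, if_true, if_false]
              omega
            · simp only [a1, a1', a2, a3, a4, w5', and_self, and_true, true_and, and_false,
                false_and, not_true, not_false_iff, if_true, if_false]
              split_ifs <;> omega
        · have w2' := w2 a3
          by_cases a2 : p ∣ u
          · obtain ⟨w4a, w4b⟩ := w4 a1 a2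
            simp only [a1, a1', a2, a3, w4a, w4b, w2', and_self, and_true, true_and, and_false,
                false_and, not_true, not_false_iff, if_true, if_false]
            omega
          · simp only [a1, a1', a2, a3, w2', and_self, and_true, true_and, and_false,
                false_and, not_true, not_false_iff, if_true, if_false]
            omega
      · have a1' : p < 5 := by omega
        by_cases a3 : p ∣ N
        · have w1' := w1 a3
          by_cases a4 : (p : ℤ) ∣ c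
          · obtain ⟨w6a, w6b, w6c⟩ := w6 a4
            simp only [a1, a1', a3, a4, and_self, and_true, true_and, and_false,
                false_and, not_true, not_false_iff, if_true, if_false]
            omega
          · simp only [a1, a1', a3, a4, and_self, and_true, true_and, and_false,
                false_and, not_true, not_false_iff, if_true, if_false]
            omega
        · have w2' := w2 a3
          simp only [a1, a1', a3, w2', and_self, and_true, true_and, and_false,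
                false_and, not_true, not_false_iff, if_true, if_false]
          omega
    refine h1.trans ?_
    have h2 := small_prod P hP
    gcongr
  · exact hcopD.of_isCoprime_of_dvd_right hnrdZ
  · exact hnrdZ.trans hdvdD
  · -- squarefree
    simp only [num_mul]
    apply num_sqfree hP
    intro p _
    rw [he2, he3, he4, hf3, hf4]
    simp only
    by_cases a1 : 5 ≤ p <;> by_cases a2 : p ∣ u <;> by_cases a3 : p ∣ N <;> by_cases a4 : (p : ℤ) ∣ c <;>
      by_cases a5 : (p : ℤ) ^ 2 ∣ d <;> by_cases a6 : (p : ℤ) ^ 2 ∣ c <;> simp [a1, a2, a3, a4, a5, a6]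
  · -- the divisor of `c`
    simp only [num_mul, num_pow]
    apply num_dvd hP
    intro p _
    rw [he2, he3, he4, hf3, hf4]
    simp only
    by_cases a1 : 5 ≤ p <;> by_cases a2 : p ∣ u <;> by_cases a3 : p ∣ N <;> by_cases a4 : (p : ℤ) ∣ c <;>
      by_cases a5 : (p : ℤ) ^ 2 ∣ d <;> by_cases a6 : (p : ℤ) ^ 2 ∣ c <;> simp [a1, a2, a3, a4, a5, a6]
  · -- the divisor of `d`
    simp only [num_mul, num_pow]
    apply num_dvd hP
    intro p hp
    have w := hcu p (hP p hp)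
    rw [he2, he3, he4, hf3, hf4]
    simp only
    by_cases a1 : 5 ≤ p <;> by_cases a2 : p ∣ u <;> by_cases a3 : p ∣ N <;> by_cases a4 : (p : ℤ) ∣ c <;>
      by_cases a5 : (p : ℤ) ^ 2 ∣ d <;> by_cases a6 : (p : ℤ) ^ 2 ∣ c <;> simp [a1, a2, a3, a4, a5, a6] <;>
      exact w a4 a3

end Run7.h577.V
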