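import Mathlib
import Pool.Agent.Run7.h577.VN
import Pool.Agent.Run7.h577.SN

/-!
The count of the curves with given labels.
-/

set_option autoImplicit false

namespace Run7.h577.V

open Finset Run7.h577.S

/-- `max (4|a|³, 27b²)` -/
noncomputable def Size (a b : ℤ) : ℝ := max (4 * |(a : ℝ)| ^ 3) (27 * (b : ℝ) ^ 2)

/-- the curves -/
def CurvH (σ A X : ℝ) : Set (ℤ × ℤ) :=
  {e | Mn e.1 e.2 ∧ |(e.1 : ℝ)| ≤ X ^ 2 ∧ |(e.2 : ℝ)| ≤ X ^ 3 ∧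
    A * (Cond6 e.1 e.2 : ℝ) ^ σ ≤ Size e.1 e.2}

/-- the data with given labels -/
def Lab (g₀ g₂ g₃ g₄ k : ℕ) (a b : ℤ) (u : ℕ) (c d : ℤ) : Prop :=
  ∃ gM n r₃ r₄ : ℕ, 2 ^ k ≤ gM ∧ gM ≤ 2 * 2 ^ k ∧ 1 ≤ u ∧ c * (u : ℤ) ^ 2 = 12 * a ∧
    d * (u : ℤ) ^ 3 = 108 * b ∧ d ^ 2 - c ^ 3 ≠ 0 ∧
    u ∣ 36 * (g₀ * g₂ * g₃ * g₄ * gM) ∧ (g₀ * g₂ * g₃ * g₄ * gM) ∣ u ∧ gM ∣ (d ^ 2 - c ^ 3).natAbs ∧
    (1 ≤ g₀ ∧ 1 ≤ gM ∧ 1 ≤ g₂ ∧ 1 ≤ g₃ ∧ 1 ≤ g₄) ∧ ¬ 3 ∣ g₂ ∧ 1 ≤ n ∧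
    (d ^ 2 - c ^ 3).natAbs * (g₀ * g₂ * g₃ * g₄ * gM) ^ 2 ≤
      7776 * (n * r₃ * r₄ ^ 2) * Cond6 a b * (gM * (g₂ ^ 2 * g₃ ^ 3 * g₄ ^ 4)) ∧
    IsCoprime c ((n * rd n : ℕ) : ℤ) ∧ ((n * rd n : ℕ) : ℤ) ∣ d ^ 2 - c ^ 3 ∧
    Squarefree (g₂ * (g₃ * r₃) * (g₄ * r₄)) ∧ ((g₂ * (g₃ * r₃) * (g₄ * r₄) ^ 2 : ℕ) : ℤ) ∣ c ∧
    ((g₂ * (g₃ * r₃) ^ 2 * (g₄ * r₄) ^ 2 : ℕ) : ℤ) ∣ d

theorem size_eq {a b c d : ℤ} {u : ℕ} (hc : c * (u : ℤ) ^ 2 = 12 * a)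
    (hd : d * (u : ℤ) ^ 3 = 108 * b) : HH c d * (u : ℝ) ^ 6 = 432 * Size a b := by
  have hc' : (c : ℝ) * (u : ℝ) ^ 2 = 12 * a := by exact_mod_cast hc
  have hd' : (d : ℝ) * (u : ℝ) ^ 3 = 108 * b := by exact_mod_cast hd
  have hu : (0 : ℝ) ≤ (u : ℝ) ^ 6 := by positivity
  unfold HH Size
  rw [max_mul_of_nonneg _ _ hu, mul_max_of_nonneg _ _ (by norm_num : (0 : ℝ) ≤ 432)]
  congr 1
  · have e : |(c : ℝ)| * (u : ℝ) ^ 2 = 12 * |(a : ℝ)| := by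
      have := congrArg abs hc'
      rw [abs_mul, abs_mul, abs_of_nonneg (by positivity : (0 : ℝ) ≤ (u : ℝ) ^ 2),
        abs_of_nonneg (by norm_num : (0 : ℝ) ≤ 12)] at this
      exact this
    calc |(c : ℝ)| ^ 3 * (u : ℝ) ^ 6 = (|(c : ℝ)| * (u : ℝ) ^ 2) ^ 3 := by ring
      _ = _ := by rw [e]; ring
  · calc (d : ℝ) ^ 2 * (u : ℝ) ^ 6 = ((d : ℝ) * (u : ℝ) ^ 3) ^ 2 := by ring
      _ = _ := by rw [hd']; ring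

theorem lab_box {X : ℝ} (hX : 1 ≤ X) {g k u : ℕ} {a b c d : ℤ} (hg : 1 ≤ g) (hgu : g * 2 ^ k ≤ u)
    (hc : c * (u : ℤ) ^ 2 = 12 * a) (hd : d * (u : ℤ) ^ 3 = 108 * b) (h0 : d ^ 2 - c ^ 3 ≠ 0)
    (ha : |(a : ℝ)| ≤ X ^ 2) (hb : |(b : ℝ)| ≤ X ^ 3) :
    |(c : ℝ)| ≤ (5 * X / (g * 2 ^ k)) ^ 2 ∧ |(d : ℝ)| ≤ (5 * X / (g * 2 ^ k)) ^ 3 ∧
      1 ≤ 5 * X / (g * 2 ^ k) := by
  have hg0 : (0 : ℝ) < g := by exact_mod_cast hg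
  have hw0 : (0 : ℝ) < (g : ℝ) * 2 ^ k := by positivity
  have hwu : (g : ℝ) * 2 ^ k ≤ u := by exact_mod_cast hgu
  obtain ⟨w, hw⟩ : ∃ w : ℝ, w = (g : ℝ) * 2 ^ k := ⟨_, rfl⟩
  rw [← hw] at hw0 hwu ⊢
  have hc' : (c : ℝ) * (u : ℝ) ^ 2 = 12 * a := by exact_mod_cast hc
  have hd' : (d : ℝ) * (u : ℝ) ^ 3 = 108 * b := by exact_mod_cast hd
  have ec : |(c : ℝ)| * (u : ℝ) ^ 2 = 12 * |(a : ℝ)| := by
    have := congrArg abs hc'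
    rw [abs_mul, abs_mul, abs_of_nonneg (by positivity : (0 : ℝ) ≤ (u : ℝ) ^ 2),
      abs_of_nonneg (by norm_num : (0 : ℝ) ≤ 12)] at this
    exact this
  have ed : |(d : ℝ)| * (u : ℝ) ^ 3 = 108 * |(b : ℝ)| := by
    have := congrArg abs hd'
    rw [abs_mul, abs_mul, abs_of_nonneg (by positivity : (0 : ℝ) ≤ (u : ℝ) ^ 3),
      abs_of_nonneg (by norm_num : (0 : ℝ) ≤ 108)] at this
    exact this
  have h1 : |(c : ℝ)| ≤ (5 * X / w) ^ 2 := by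
    rw [div_pow, le_div_iff₀ (by positivity)]
    calc |(c : ℝ)| * w ^ 2 ≤ |(c : ℝ)| * (u : ℝ) ^ 2 := by gcongr
      _ = 12 * |(a : ℝ)| := ec
      _ ≤ 12 * X ^ 2 := by linarith
      _ ≤ (5 * X) ^ 2 := by nlinarith [sq_nonneg X]
  have h2 : |(d : ℝ)| ≤ (5 * X / w) ^ 3 := by
    rw [div_pow, le_div_iff₀ (by positivity)]
    calc |(d : ℝ)| * w ^ 3 ≤ |(d : ℝ)| * (u : ℝ) ^ 3 := by gcongr
      _ = 108 * |(b : ℝ)| := ed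
      _ ≤ 108 * X ^ 3 := by linarith
      _ ≤ (5 * X) ^ 3 := by nlinarith [pow_nonneg (by linarith : (0 : ℝ) ≤ X) 3]
  refine ⟨h1, h2, ?_⟩
  by_contra hlt
  push Not at hlt
  have hnn : 0 ≤ 5 * X / w := by positivity
  have hc1 : |(c : ℝ)| < 1 := lt_of_le_of_lt h1 (pow_lt_one₀ hnn hlt (by norm_num))
  have hd1 : |(d : ℝ)| < 1 := lt_of_le_of_lt h2 (pow_lt_one₀ hnn hlt (by norm_num))
  have hc2 : |c| < 1 := by exact_mod_cast hc1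
  have hd2 : |d| < 1 := by exact_mod_cast hd1
  have hc3 : c = 0 := Int.abs_lt_one_iff.1 hc2
  have hd3 : d = 0 := Int.abs_lt_one_iff.1 hd2
  apply h0
  rw [hc3, hd3]
  norm_num

/-- the bound for the conductor -/
theorem cond_le {σ A : ℝ} (hσ : 0 < σ) (hA : 0 < A) {g u : ℕ} {a b c d : ℤ}
    (hu : u ≤ 36 * g) (hc : c * (u : ℤ) ^ 2 = 12 * a) (hd : d * (u : ℤ) ^ 3 = 108 * b)
    (hS : A * (Cond6 a b : ℝ) ^ σ ≤ Size a b) :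
    (Cond6 a b : ℝ) ≤ (36 ^ 6 / (432 * A)) ^ (1 / σ) * (g : ℝ) ^ (6 / σ) * HH c d ^ (1 / σ) := by
  have h1 := size_eq hc hd
  have hH0 := HH_nonneg c d
  have hg0 : (0 : ℝ) ≤ g := Nat.cast_nonneg _
  have hu' : (u : ℝ) ≤ 36 * g := by exact_mod_cast hu
  have hC0 : (0 : ℝ) ≤ Cond6 a b := Nat.cast_nonneg _
  have h2 : (Cond6 a b : ℝ) ^ σ ≤ 36 ^ 6 / (432 * A) * (g : ℝ) ^ 6 * HH c d := by
    have h3 : HH c d * (u : ℝ) ^ 6 ≤ HH c d * (36 * g) ^ 6 := by gcongr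
    have h4 : 432 * (A * (Cond6 a b : ℝ) ^ σ) ≤ HH c d * (36 * g) ^ 6 := by
      calc 432 * (A * (Cond6 a b : ℝ) ^ σ) ≤ 432 * Size a b := by linarith
        _ = HH c d * (u : ℝ) ^ 6 := h1.symm
        _ ≤ _ := h3
    have e : 36 ^ 6 / (432 * A) * (g : ℝ) ^ 6 * HH c d = HH c d * (36 * g) ^ 6 / (432 * A) := by ring
    rw [e, le_div_iff₀ (by positivity)]
    linarith
  have h5 : (Cond6 a b : ℝ) = ((Cond6 a b : ℝ) ^ σ) ^ (1 / σ) := by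
    rw [← Real.rpow_mul hC0, mul_one_div_cancel hσ.ne', Real.rpow_one]
  have h6 : ((g : ℝ) ^ 6) ^ (1 / σ) = (g : ℝ) ^ (6 / σ) := by
    rw [← Real.rpow_natCast (g : ℝ) 6, ← Real.rpow_mul hg0]
    congr 1
    push_cast
    ring
  rw [h5]
  calc ((Cond6 a b : ℝ) ^ σ) ^ (1 / σ) ≤ (36 ^ 6 / (432 * A) * (g : ℝ) ^ 6 * HH c d) ^ (1 / σ) :=
        Real.rpow_le_rpow (by positivity) h2 (by positivity)
    _ = _ := by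
        rw [Real.mul_rpow (by positivity) hH0, Real.mul_rpow (by positivity) (by positivity), h6]

/-- the constant -/
noncomputable def A2 (σ A : ℝ) (g₀ g₂ g₃ g₄ k : ℕ) : ℝ :=
  (36 ^ 6 / (432 * A)) ^ (1 / σ) * (2 * (((g₀ * g₂ * g₃ * g₄ : ℕ) : ℝ) * 2 ^ k)) ^ (6 / σ - 2) *
    (2 * 2 ^ k) * ((g₂ ^ 2 * g₃ ^ 3 * g₄ ^ 4 : ℕ) : ℝ)

theorem lab_hyp {σ A X : ℝ} (hσ : 0 < σ) (hσ3 : σ ≤ 3) (hA : 0 < A) {g₀ g₂ g₃ g₄ k u : ℕ}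
    {a b c d : ℤ} (hab : (a, b) ∈ CurvH σ A X) (h : Lab g₀ g₂ g₃ g₄ k a b u c d) :
    HypA 7776 (A2 σ A g₀ g₂ g₃ g₄ k * (HH c d) ^ (1 / σ)) g₂ g₃ g₄ c d := by
  obtain ⟨-, -, -, hS⟩ := hab
  obtain ⟨gM, n, r₃, r₄, hk1, hk2, hu1, hc, hd, h0, hu36, hgu, hgM, ⟨hg0, hgM1, hg2, hg3, hg4⟩, h3g,
    hn, hmain, hco, hdvd, hsq, hcd, hdd⟩ := h
  refine ⟨h0, n, r₃, r₄, hn, ?_, hco, hdvd, hsq, hcd, hdd⟩
  obtain ⟨gs, hgs⟩ : ∃ gs : ℕ, gs = g₀ * g₂ * g₃ * g₄ := ⟨_, rfl⟩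
  obtain ⟨G, hG⟩ : ∃ G : ℕ, G = g₂ ^ 2 * g₃ ^ 3 * g₄ ^ 4 := ⟨_, rfl⟩
  unfold A2
  simp only [] at hS
  rw [← hgs] at hmain hu36 ⊢
  rw [← hG] at hmain ⊢
  have hgs1 : 1 ≤ gs := by
    rw [hgs]
    exact Nat.mul_pos (Nat.mul_pos (Nat.mul_pos (by omega) (by omega)) (by omega)) (by omega)
  have hg1 : 1 ≤ gs * gM := Nat.mul_pos hgs1 hgM1
  have hu : u ≤ 36 * (gs * gM) := Nat.le_of_dvd (by omega) hu36
  have hcl := cond_le hσ hA hu hc hd hS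
  obtain ⟨A₁, hA₁⟩ : ∃ A₁ : ℝ, A₁ = (36 ^ 6 / (432 * A)) ^ (1 / σ) := ⟨_, rfl⟩
  rw [← hA₁] at hcl ⊢
  have hA₁0 : 0 ≤ A₁ := by rw [hA₁]; positivity
  have hH0 : 0 ≤ HH c d ^ (1 / σ) := Real.rpow_nonneg (HH_nonneg c d) _
  have hgR : (0 : ℝ) < ((gs * gM : ℕ) : ℝ) := by exact_mod_cast hg1
  have hgMR : (gM : ℝ) ≤ 2 * 2 ^ k := by exact_mod_cast hk2
  have hM0 : (0 : ℝ) ≤ (n : ℝ) * r₃ * r₄ ^ 2 := by positivity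
  have hG0 : (0 : ℝ) ≤ (G : ℝ) := Nat.cast_nonneg _
  have hmainR : |((d ^ 2 - c ^ 3 : ℤ) : ℝ)| * ((gs * gM : ℕ) : ℝ) ^ 2 ≤
      7776 * ((n : ℝ) * r₃ * r₄ ^ 2) * (Cond6 a b : ℝ) * ((gM : ℝ) * G) := by
    have e : |((d ^ 2 - c ^ 3 : ℤ) : ℝ)| = (((d ^ 2 - c ^ 3).natAbs : ℕ) : ℝ) := by
      rw [Nat.cast_natAbs, Int.cast_abs]
    rw [e]
    exact_mod_cast hmain
  have hs2 : 0 ≤ 6 / σ - 2 := by
    rw [sub_nonneg, le_div_iff₀ hσ]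
    linarith
  have hgpow : ((gs * gM : ℕ) : ℝ) ^ (6 / σ) =
      ((gs * gM : ℕ) : ℝ) ^ (6 / σ - 2) * ((gs * gM : ℕ) : ℝ) ^ 2 := by
    rw [← Real.rpow_natCast ((gs * gM : ℕ) : ℝ) 2, ← Real.rpow_add hgR]
    congr 1
    push_cast
    ring
  have hg2w : ((gs * gM : ℕ) : ℝ) ^ (6 / σ - 2) ≤ (2 * ((gs : ℝ) * 2 ^ k)) ^ (6 / σ - 2) := by
    apply Real.rpow_le_rpow hgR.le _ hs2
    push_cast
    have : (0 : ℝ) ≤ gs := Nat.cast_nonneg _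
    nlinarith
  have hstep : |((d ^ 2 - c ^ 3 : ℤ) : ℝ)| * ((gs * gM : ℕ) : ℝ) ^ 2 ≤
      7776 * ((n : ℝ) * r₃ * r₄ ^ 2) * (A₁ * (2 * ((gs : ℝ) * 2 ^ k)) ^ (6 / σ - 2) *
        (2 * 2 ^ k) * G * HH c d ^ (1 / σ)) * ((gs * gM : ℕ) : ℝ) ^ 2 := by
    refine hmainR.trans ?_
    calc 7776 * ((n : ℝ) * r₃ * r₄ ^ 2) * (Cond6 a b : ℝ) * ((gM : ℝ) * G)
        ≤ 7776 * ((n : ℝ) * r₃ * r₄ ^ 2) * (A₁ * ((gs * gM : ℕ) : ℝ) ^ (6 / σ) * HH c d ^ (1 / σ)) *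
          ((2 * 2 ^ k) * G) := by gcongr
      _ = 7776 * ((n : ℝ) * r₃ * r₄ ^ 2) * (A₁ * ((gs * gM : ℕ) : ℝ) ^ (6 / σ - 2) *
        (2 * 2 ^ k) * G * HH c d ^ (1 / σ)) * ((gs * gM : ℕ) : ℝ) ^ 2 := by rw [hgpow]; ring
      _ ≤ _ := by gcongr
  exact le_of_mul_le_mul_right hstep (by positivity)

/-- COUNT for given labels -/
theorem per_label (ε σ A : ℝ) (hε : 0 < ε) (hσ : 0 < σ) (hσ3 : σ ≤ 3) (hA : 0 < A) :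
    ∃ C : ℝ, 0 < C ∧ ∀ (X : ℝ) (g₀ g₂ g₃ g₄ k : ℕ), 1 ≤ X → ∀ S : Finset (ℤ × ℤ),
    (∀ e ∈ S, e ∈ CurvH σ A X ∧ ∃ u c d, Lab g₀ g₂ g₃ g₄ k e.1 e.2 u c d) →
    (S.card : ℝ) ≤ C * X ^ ε * (X ^ (6 / σ - 1) + X ^ 3) / ((g₀ * g₂ * g₃ * g₄ : ℕ) : ℝ) := by
  classical
  set ε' := ε / 8 with hε'
  have hε'0 : 0 < ε' := by positivity
  obtain ⟨C₁, hC₁, hcount⟩ := count_A ε' 7776 σ hε'0 (by norm_num) hσ (by linarith)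
  obtain ⟨C₂, hC₂, hdiv⟩ := Pool.Agent.R481.S2.divisor_bound_real ε' hε'0
  obtain ⟨A₁, hA₁⟩ : ∃ A₁ : ℝ, A₁ = (36 ^ 6 / (432 * A)) ^ (1 / σ) := ⟨_, rfl⟩
  have hA₁0 : 0 < A₁ := by rw [hA₁]; positivity
  refine ⟨C₂ * (72 : ℝ) ^ ε' * ((5 : ℝ) ^ 6) ^ ε' * C₁ * (5 : ℝ) ^ ε' *
    (A₁ * (10 : ℝ) ^ (6 / σ - 1) + 125), by positivity, fun X g₀ g₂ g₃ g₄ k hX S hS => ?_⟩
  have hX0 : 0 < X := by linarith
  rcases S.eq_empty_or_nonempty with hSe | ⟨e₀, he₀⟩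
  · rw [hSe, card_empty, Nat.cast_zero]
    positivity
  obtain ⟨⟨-, he₀a, he₀b, -⟩, u₀, c₀, d₀, gM₀, n₀, r₀, r₀', hk1₀, hk2₀, hu1₀, hc₀, hd₀, h0₀, hu36₀, hgu₀,
    hgM₀, ⟨hg0, hgM1₀, hg2, hg3, hg4⟩, h3g, -⟩ := hS e₀ he₀
  obtain ⟨gs, hgs⟩ : ∃ gs : ℕ, gs = g₀ * g₂ * g₃ * g₄ := ⟨_, rfl⟩
  have hgs1 : 1 ≤ gs := by
    rw [hgs]
    exact Nat.mul_pos (Nat.mul_pos (Nat.mul_pos (by omega) (by omega)) (by omega)) (by omega)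
  rw [← hgs]
  have hgsR : (1 : ℝ) ≤ gs := by exact_mod_cast hgs1
  obtain ⟨X', hX'⟩ : ∃ X' : ℝ, X' = 5 * X / (gs * 2 ^ k) := ⟨_, rfl⟩
  have hw1 : (gs : ℝ) ≤ gs * 2 ^ k := le_mul_of_one_le_right (by linarith) (one_le_pow₀ (by norm_num))
  have hw0 : (0 : ℝ) < gs * 2 ^ k := by positivity
  have hgle : ∀ (u gM : ℕ), 2 ^ k ≤ gM → 1 ≤ u → (g₀ * g₂ * g₃ * g₄ * gM) ∣ u → gs * 2 ^ k ≤ u := by
    intro u gM h1 h2 h3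
    rw [← hgs] at h3
    exact (Nat.mul_le_mul_left gs h1).trans (Nat.le_of_dvd (by omega) h3)
  have hX'1 : 1 ≤ X' := by
    rw [hX']
    exact (lab_box hX hgs1 (hgle u₀ gM₀ hk1₀ hu1₀ hgu₀) hc₀ hd₀ h0₀ he₀a he₀b).2.2
  have hX'0 : 0 < X' := by linarith
  have hX'5 : X' ≤ 5 * X := by
    rw [hX']
    apply div_le_self (by positivity)
    linarith
  -- the choice
  choose! U CC DD hLab using fun e (he : e ∈ S) => (hS e he).2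
  have hbox : ∀ e ∈ S, |(CC e : ℝ)| ≤ X' ^ 2 ∧ |(DD e : ℝ)| ≤ X' ^ 3 ∧ DD e ^ 2 - CC e ^ 3 ≠ 0 := by
    intro e he
    obtain ⟨gM, n, r₃, r₄, hk1, hk2, hu1, hc, hd, h0, hu36, hgu, -⟩ := hLab e he
    obtain ⟨⟨-, hea, heb, -⟩, -⟩ := hS e he
    have := lab_box hX hgs1 (hgle _ gM hk1 hu1 hgu) hc hd h0 hea heb
    rw [← hX'] at this
    exact ⟨this.1, this.2.1, h0⟩
  -- the fibres
  have hfib := card_fib S (fun e => (CC e, DD e))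
    (C₂ * ((72 : ℝ) * (5 * X) ^ 6) ^ ε') (by
      intro z hz
      obtain ⟨e₁, he₁, hz₁⟩ := mem_image.1 hz
      obtain ⟨hb1, hb2, hb0⟩ := hbox e₁ he₁
      have hz1 : CC e₁ = z.1 := congrArg Prod.fst hz₁
      have hz2 : DD e₁ = z.2 := congrArg Prod.snd hz₁
      rw [hz1] at hb1 hb0
      rw [hz2] at hb2 hb0
      obtain ⟨N, hN⟩ : ∃ N : ℕ, N = (z.2 ^ 2 - z.1 ^ 3).natAbs := ⟨_, rfl⟩
      have hN0 : 1 ≤ N := by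
        rw [hN]
        exact Nat.one_le_iff_ne_zero.2 (Int.natAbs_ne_zero.2 hb0)
      have hm1 : 1 ≤ 36 * gs * N := Nat.mul_pos (by omega) hN0
      have hcard : (S.filter (fun e => (CC e, DD e) = z)).card ≤ (36 * gs * N).divisors.card := by
        apply Finset.card_le_card_of_injOn U
        · intro e he
          obtain ⟨he, hez⟩ := mem_filter.1 he
          have h1 : CC e = z.1 := congrArg Prod.fst hez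
          have h2 : DD e = z.2 := congrArg Prod.snd hez
          obtain ⟨gM, n, r₃, r₄, hk1, hk2, hu1, hc, hd, h0, hu36, hgu, hgM, -⟩ := hLab e he
          rw [h1, h2, ← hN] at hgM
          rw [← hgs] at hu36
          have h3 : U e ∈ (36 * gs * N).divisors := by
            rw [Nat.mem_divisors]
            refine ⟨hu36.trans ?_, by omega⟩
            rw [← mul_assoc]
            exact mul_dvd_mul_left _ hgM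
          exact h3
        · intro e he e' he' hUU
          obtain ⟨he, hez⟩ := mem_filter.1 (Finset.mem_coe.1 he)
          obtain ⟨he', hez'⟩ := mem_filter.1 (Finset.mem_coe.1 he')
          have h1 : CC e = z.1 := congrArg Prod.fst hez
          have h2 : DD e = z.2 := congrArg Prod.snd hez
          have h1' : CC e' = z.1 := congrArg Prod.fst hez'
          have h2' : DD e' = z.2 := congrArg Prod.snd hez'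
          obtain ⟨gM, n, r₃, r₄, hk1, hk2, hu1, hc, hd, -⟩ := hLab e he
          obtain ⟨gM', n', r₃', r₄', hk1', hk2', hu1', hc', hd', -⟩ := hLab e' he'
          rw [h1] at hc
          rw [h2] at hd
          rw [h1', ← hUU] at hc'
          rw [h2', ← hUU] at hd'
          ext
          · have : 12 * e.1 = 12 * e'.1 := by rw [← hc, ← hc']
            omega
          · have : 108 * e.2 = 108 * e'.2 := by rw [← hd, ← hd']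
            omega
      have hcardR : ((S.filter (fun e => (CC e, DD e) = z)).card : ℝ) ≤
          ((36 * gs * N).divisors.card : ℝ) := by exact_mod_cast hcard
      refine hcardR.trans ((hdiv _ (by omega)).trans ?_)
      have hNle : (N : ℝ) ≤ 2 * X' ^ 6 := by
        have e : (N : ℝ) = |((z.2 ^ 2 - z.1 ^ 3 : ℤ) : ℝ)| := by
          rw [hN, Nat.cast_natAbs, Int.cast_abs]
        rw [e]
        push_cast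
        refine (abs_sub _ _).trans ?_
        rw [abs_pow, abs_pow]
        have i1 : |(z.2 : ℝ)| ^ 2 ≤ (X' ^ 3) ^ 2 := by gcongr
        have i2 : |(z.1 : ℝ)| ^ 3 ≤ (X' ^ 2) ^ 3 := by gcongr
        nlinarith
      have hX6 : (gs : ℝ) * X' ^ 6 ≤ (5 * X) ^ 6 := by
        rw [hX', div_pow, mul_div_assoc', div_le_iff₀ (by positivity), mul_comm]
        have : (gs : ℝ) ≤ (gs * 2 ^ k) ^ 6 := by
          calc (gs : ℝ) ≤ gs * 2 ^ k := hw1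
            _ ≤ (gs * 2 ^ k) ^ 6 := le_self_pow₀ (by linarith) (by norm_num)
        gcongr
      have : ((36 * gs * N : ℕ) : ℝ) ≤ 72 * (5 * X) ^ 6 := by
        push_cast
        nlinarith
      gcongr)
  -- the image
  have himg := hcount X' (A2 σ A g₀ g₂ g₃ g₄ k) g₂ g₃ g₄ hX'1 (by
      unfold A2
      rw [← hgs, ← hA₁]
      have : (0 : ℝ) < ((g₂ ^ 2 * g₃ ^ 3 * g₄ ^ 4 : ℕ) : ℝ) := by
        have : 0 < g₂ ^ 2 * g₃ ^ 3 * g₄ ^ 4 := by positivity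
        exact_mod_cast this
      positivity) h3g (S.image (fun e => (CC e, DD e))) (by
    intro z hz
    obtain ⟨e, he, rfl⟩ := mem_image.1 hz
    obtain ⟨hb1, hb2, -⟩ := hbox e he
    exact ⟨hb1, hb2, lab_hyp (X := X) hσ hσ3 hA (hS e he).1 (hLab e he)⟩)
  -- the main term
  have hG0 : (0 : ℝ) < ((g₂ ^ 2 * g₃ ^ 3 * g₄ ^ 4 : ℕ) : ℝ) := by
    have : 0 < g₂ ^ 2 * g₃ ^ 3 * g₄ ^ 4 := by positivity
    exact_mod_cast this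
  have hmain : A2 σ A g₀ g₂ g₃ g₄ k * X' ^ (6 / σ - 1) / ((g₂ ^ 2 * g₃ ^ 3 * g₄ ^ 4 : ℕ) : ℝ) =
      A₁ * (10 : ℝ) ^ (6 / σ - 1) * X ^ (6 / σ - 1) / gs := by
    unfold A2
    rw [← hgs, ← hA₁]
    have e1 : A₁ * (2 * ((gs : ℝ) * 2 ^ k)) ^ (6 / σ - 2) * (2 * 2 ^ k) *
        ((g₂ ^ 2 * g₃ ^ 3 * g₄ ^ 4 : ℕ) : ℝ) * X' ^ (6 / σ - 1) /
        ((g₂ ^ 2 * g₃ ^ 3 * g₄ ^ 4 : ℕ) : ℝ) =
        A₁ * (2 * ((gs : ℝ) * 2 ^ k)) ^ (6 / σ - 2) * (2 * 2 ^ k) * X' ^ (6 / σ - 1) := by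
      field_simp
    rw [e1, hX']
    have hw2 : (0 : ℝ) < 2 * ((gs : ℝ) * 2 ^ k) := by positivity
    have e2 : (5 * X / ((gs : ℝ) * 2 ^ k)) ^ (6 / σ - 1) =
        (10 : ℝ) ^ (6 / σ - 1) * X ^ (6 / σ - 1) / (2 * ((gs : ℝ) * 2 ^ k)) ^ (6 / σ - 1) := by
      rw [← Real.mul_rpow (by norm_num) hX0.le, ← Real.div_rpow (by positivity) hw2.le]
      congr 1
      field_simp
      norm_num
    have e3 : (2 * ((gs : ℝ) * 2 ^ k)) ^ (6 / σ - 1) =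
        (2 * ((gs : ℝ) * 2 ^ k)) ^ (6 / σ - 2) * (2 * ((gs : ℝ) * 2 ^ k)) := by
      have : (6 / σ - 1 : ℝ) = (6 / σ - 2) + 1 := by ring
      rw [this, Real.rpow_add hw2, Real.rpow_one]
    rw [e2, e3]
    have h5 : (0 : ℝ) < (2 * ((gs : ℝ) * 2 ^ k)) ^ (6 / σ - 2) := by positivity
    field_simp
  have hX3 : X' ^ 3 ≤ 125 * X ^ 3 / gs := by
    rw [hX', div_pow]
    have e : (5 * X) ^ 3 = 125 * X ^ 3 := by ring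
    rw [e]
    apply div_le_div_of_nonneg_left (by positivity) (by linarith)
    calc (gs : ℝ) ≤ gs * 2 ^ k := hw1
      _ ≤ (gs * 2 ^ k) ^ 3 := le_self_pow₀ (by linarith) (by norm_num)
  have himg2 : ((S.image (fun e => (CC e, DD e))).card : ℝ) ≤
      C₁ * (5 * X) ^ ε' * ((A₁ * (10 : ℝ) ^ (6 / σ - 1) + 125) * (X ^ (6 / σ - 1) + X ^ 3) / gs) := by
    refine himg.trans ?_
    rw [hmain]
    have i1 : A₁ * (10 : ℝ) ^ (6 / σ - 1) * X ^ (6 / σ - 1) / gs + X' ^ 3 ≤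
        (A₁ * (10 : ℝ) ^ (6 / σ - 1) + 125) * (X ^ (6 / σ - 1) + X ^ 3) / gs := by
      calc A₁ * (10 : ℝ) ^ (6 / σ - 1) * X ^ (6 / σ - 1) / gs + X' ^ 3
          ≤ A₁ * (10 : ℝ) ^ (6 / σ - 1) * X ^ (6 / σ - 1) / gs + 125 * X ^ 3 / gs := by linarith
        _ = (A₁ * (10 : ℝ) ^ (6 / σ - 1) * X ^ (6 / σ - 1) + 125 * X ^ 3) / gs := by ring
        _ ≤ _ := by
            apply div_le_div_of_nonneg_right _ (by linarith)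
            have j1 : 0 ≤ A₁ * (10 : ℝ) ^ (6 / σ - 1) * X ^ 3 := by positivity
            have j2 : 0 ≤ 125 * X ^ (6 / σ - 1) := by positivity
            nlinarith
    gcongr
  refine hfib.trans ?_
  have e1 : ((72 : ℝ) * (5 * X) ^ 6) ^ ε' = (72 : ℝ) ^ ε' * ((5 : ℝ) ^ 6) ^ ε' * X ^ (6 * ε') := by
    rw [mul_pow, Real.mul_rpow (by positivity) (by positivity),
      Real.mul_rpow (by positivity) (by positivity), rpow_six ε' X hX 6]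
    push_cast
    ring
  have e2 : (5 * X) ^ ε' = (5 : ℝ) ^ ε' * X ^ ε' := Real.mul_rpow (by norm_num) hX0.le
  have e3 : X ^ (6 * ε') * X ^ ε' ≤ X ^ ε := by
    rw [← Real.rpow_add hX0]
    apply Real.rpow_le_rpow_of_exponent_le hX
    rw [hε']
    linarith
  calc C₂ * ((72 : ℝ) * (5 * X) ^ 6) ^ ε' * ((S.image (fun e => (CC e, DD e))).card : ℝ)
      ≤ C₂ * ((72 : ℝ) * (5 * X) ^ 6) ^ ε' * (C₁ * (5 * X) ^ ε' *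
        ((A₁ * (10 : ℝ) ^ (6 / σ - 1) + 125) * (X ^ (6 / σ - 1) + X ^ 3) / gs)) := by gcongr
    _ = C₂ * (72 : ℝ) ^ ε' * ((5 : ℝ) ^ 6) ^ ε' * C₁ * (5 : ℝ) ^ ε' *
        (A₁ * (10 : ℝ) ^ (6 / σ - 1) + 125) * (X ^ (6 * ε') * X ^ ε') *
        (X ^ (6 / σ - 1) + X ^ 3) / gs := by rw [e1, e2]; ring
    _ ≤ _ := by gcongr

end Run7.h577.V
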