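import Mathlib
import Pool.Agent.Run7.h577.VO

/-!
The upper bound for the number of all curves.
-/

set_option autoImplicit false

namespace Run7.h577.V

open Finset Run7.h577.S

theorem lab_sum (I : Finset ℕ) (R : Finset ℕ) :
    ∑ L ∈ (((I ×ˢ I) ×ˢ (I ×ˢ I)) ×ˢ R : Finset (((ℕ × ℕ) × (ℕ × ℕ)) × ℕ)),
      (1 : ℝ) / ((L.1.1.1 * L.1.1.2 * L.1.2.1 * L.1.2.2 : ℕ) : ℝ) =
    (∑ n ∈ I, (1 : ℝ) / n) ^ 4 * R.card := by
  have h1 : ∀ L : ((ℕ × ℕ) × (ℕ × ℕ)) × ℕ,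
      (1 : ℝ) / ((L.1.1.1 * L.1.1.2 * L.1.2.1 * L.1.2.2 : ℕ) : ℝ) =
      ((1 / (L.1.1.1 : ℝ)) * (1 / (L.1.1.2 : ℝ))) * ((1 / (L.1.2.1 : ℝ)) * (1 / (L.1.2.2 : ℝ))) := by
    intro L
    push_cast
    rw [one_div_mul_one_div, one_div_mul_one_div, one_div_mul_one_div]
    congr 1
    ring
  rw [sum_congr rfl fun L _ => h1 L, sum_product]
  simp only [sum_const, nsmul_eq_mul]
  rw [← mul_sum, mul_comm]
  congr 1
  rw [sum_product]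
  have h2 : ∑ y ∈ I ×ˢ I, (1 / (y.1 : ℝ)) * (1 / (y.2 : ℝ)) = (∑ n ∈ I, (1 : ℝ) / n) ^ 2 := by
    rw [sum_product, sq, sum_mul_sum]
  simp only []
  calc ∑ x ∈ I ×ˢ I, ∑ y ∈ I ×ˢ I, 1 / (x.1 : ℝ) * (1 / (x.2 : ℝ)) * (1 / (y.1 : ℝ) * (1 / (y.2 : ℝ)))
      = (∑ y ∈ I ×ˢ I, (1 / (y.1 : ℝ)) * (1 / (y.2 : ℝ))) *
        ∑ y ∈ I ×ˢ I, (1 / (y.1 : ℝ)) * (1 / (y.2 : ℝ)) := by rw [sum_mul_sum]
    _ = _ := by rw [h2]; ring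

/-- the upper bound -/
theorem curv_up (ε σ A : ℝ) (hε : 0 < ε) (hσ : 0 < σ) (hσ3 : σ ≤ 3) (hA : 0 < A) :
    ∃ C : ℝ, 0 < C ∧ ∀ (X : ℝ), 1 ≤ X → ∀ S : Finset (ℤ × ℤ), (∀ e ∈ S, e ∈ CurvH σ A X) →
    (S.card : ℝ) ≤ C * X ^ ε * (X ^ (6 / σ - 1) + X ^ 3) := by
  classical
  set ε' := ε / 6 with hε'
  have hε'0 : 0 < ε' := by positivity
  obtain ⟨C₁, hC₁, hlab⟩ := per_label ε' σ A hε'0 hσ hσ3 hA
  obtain ⟨C₂, hC₂, hrd⟩ := rd_sum_sub ε' hε'0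
  obtain ⟨C₃, hC₃, hlog⟩ := two_pow_log ε' hε'0
  refine ⟨C₁ * (C₂ * (5 : ℝ) ^ ε') ^ 4 * (C₃ * (5 : ℝ) ^ ε'), by positivity, fun X hX S hS => ?_⟩
  have hX0 : 0 < X := by linarith
  obtain ⟨M, hM⟩ : ∃ M : ℕ, M = ⌊5 * X⌋₊ := ⟨_, rfl⟩
  have hM1 : 1 ≤ M := by
    rw [hM]
    apply Nat.le_floor
    rw [Nat.cast_one]
    linarith
  have hM5 : (M : ℝ) ≤ 5 * X := by
    rw [hM]
    exact Nat.floor_le (by linarith)
  obtain ⟨T, hT⟩ : ∃ T : Finset (((ℕ × ℕ) × (ℕ × ℕ)) × ℕ),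
    T = ((Icc 1 M ×ˢ Icc 1 M) ×ˢ (Icc 1 M ×ˢ Icc 1 M)) ×ˢ range (Nat.log 2 M + 1) := ⟨_, rfl⟩
  have hdat : ∀ e ∈ S, ∃ L : ((ℕ × ℕ) × (ℕ × ℕ)) × ℕ, L ∈ T ∧
      ∃ u c d, Lab L.1.1.1 L.1.1.2 L.1.2.1 L.1.2.2 L.2 e.1 e.2 u c d := by
    intro e he
    obtain ⟨hMn, hea, heb, -⟩ := hS e he
    obtain ⟨u, g₀, gM, g₂, g₃, g₄, n, r₃, r₄, c, d, hu1, hc, hd, h0, hu36, hgu, hgM,
      ⟨hg0, hgM1, hg2, hg3, hg4⟩, hrest⟩ := data e.1 e.2 hMn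
    obtain ⟨k, hk⟩ : ∃ k : ℕ, k = Nat.log 2 gM := ⟨_, rfl⟩
    have hk1 : 2 ^ k ≤ gM := by
      rw [hk]
      exact Nat.pow_log_le_self 2 (by omega)
    have hk2 : gM ≤ 2 * 2 ^ k := by
      have := Nat.lt_pow_succ_log_self (b := 2) (by norm_num) gM
      rw [← hk, pow_succ] at this
      omega
    have hgs1 : 1 ≤ g₀ * g₂ * g₃ * g₄ :=
      Nat.mul_pos (Nat.mul_pos (Nat.mul_pos (by omega) (by omega)) (by omega)) (by omega)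
    have hle : g₀ * g₂ * g₃ * g₄ * 2 ^ k ≤ u :=
      (Nat.mul_le_mul_left _ hk1).trans (Nat.le_of_dvd (by omega) hgu)
    have hbox := (lab_box hX hgs1 hle hc hd h0 hea heb).2.2
    have hwpos : (0 : ℝ) < ((g₀ * g₂ * g₃ * g₄ : ℕ) : ℝ) * 2 ^ k := by
      have : (0 : ℝ) < ((g₀ * g₂ * g₃ * g₄ : ℕ) : ℝ) := by exact_mod_cast hgs1
      positivity
    rw [le_div_iff₀ hwpos, one_mul] at hbox
    have hM2 : g₀ * g₂ * g₃ * g₄ * 2 ^ k ≤ M := by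
      rw [hM]
      apply Nat.le_floor
      exact_mod_cast hbox
    have hgsM : g₀ * g₂ * g₃ * g₄ ≤ M := (Nat.le_mul_of_pos_right _ (by positivity)).trans hM2
    have h2kM : 2 ^ k ≤ M := (Nat.le_mul_of_pos_left _ hgs1).trans hM2
    have d0 : g₀ ≤ M := (Nat.le_of_dvd hgs1 (by
      exact ((dvd_mul_right g₀ g₂).mul_right g₃).mul_right g₄)).trans hgsM
    have d2 : g₂ ≤ M := (Nat.le_of_dvd hgs1 (by
      exact ((dvd_mul_left g₂ g₀).mul_right g₃).mul_right g₄)).trans hgsM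
    have d3 : g₃ ≤ M := (Nat.le_of_dvd hgs1 (by
      exact (dvd_mul_left g₃ (g₀ * g₂)).mul_right g₄)).trans hgsM
    have d4 : g₄ ≤ M := (Nat.le_of_dvd hgs1 (dvd_mul_left g₄ _)).trans hgsM
    refine ⟨(((g₀, g₂), (g₃, g₄)), k), ?_, u, c, d, gM, n, r₃, r₄, hk1, hk2, hu1, hc, hd, h0, hu36,
      hgu, hgM, ⟨hg0, hgM1, hg2, hg3, hg4⟩, hrest⟩
    rw [hT]
    simp only [mem_product, mem_Icc, mem_range]
    refine ⟨⟨⟨⟨hg0, d0⟩, ⟨hg2, d2⟩⟩, ⟨hg3, d3⟩, ⟨hg4, d4⟩⟩, ?_⟩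
    have := Nat.le_log_of_pow_le (by norm_num : 1 < 2) h2kM
    omega
  choose! Lb hLT hLd using hdat
  have hsum := card_fib_sum S Lb T
    (fun L => C₁ * X ^ ε' * (X ^ (6 / σ - 1) + X ^ 3) *
      (1 / ((L.1.1.1 * L.1.1.2 * L.1.2.1 * L.1.2.2 : ℕ) : ℝ))) hLT (by
    intro L hL
    have := hlab X L.1.1.1 L.1.1.2 L.1.2.1 L.1.2.2 L.2 hX (S.filter (fun e => Lb e = L)) (by
      intro e he
      obtain ⟨he, heL⟩ := mem_filter.1 he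
      refine ⟨hS e he, ?_⟩
      rw [← heL]
      exact hLd e he)
    rw [mul_one_div]
    exact this)
  refine hsum.trans ?_
  rw [← mul_sum, hT, lab_sum, card_range]
  have h1 : ∑ n ∈ Icc 1 M, (1 : ℝ) / n ≤ C₂ * (5 * X) ^ ε' := by
    refine le_trans (sum_le_sum fun n hn => ?_) (hrd (Icc 1 M) (5 * X) (by linarith) ?_)
    · obtain ⟨a, -⟩ := mem_Icc.1 hn
      have h3 : (0 : ℝ) < rd n := by exact_mod_cast rd_pos n
      have h4 : (rd n : ℝ) ≤ n := by exact_mod_cast rd_le n a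
      exact one_div_le_one_div_of_le h3 h4
    · intro n hn
      obtain ⟨a, b⟩ := mem_Icc.1 hn
      refine ⟨a, ?_⟩
      have : (n : ℝ) ≤ M := by exact_mod_cast b
      linarith
  have h2 : ((Nat.log 2 M + 1 : ℕ) : ℝ) ≤ C₃ * (5 * X) ^ ε' := by
    push_cast
    apply hlog (5 * X) _ (by linarith)
    have : 2 ^ Nat.log 2 M ≤ M := Nat.pow_log_le_self 2 (by omega)
    have : ((2 : ℝ) ^ Nat.log 2 M) ≤ M := by exact_mod_cast this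
    linarith
  have h0 : 0 ≤ ∑ n ∈ Icc 1 M, (1 : ℝ) / n := sum_nonneg fun n _ => by positivity
  have e2 : (5 * X) ^ ε' = (5 : ℝ) ^ ε' * X ^ ε' := Real.mul_rpow (by norm_num) hX0.le
  have e3 : X ^ ε' * (X ^ ε') ^ 4 * X ^ ε' = X ^ ε := by
    rw [← Real.rpow_natCast (X ^ ε') 4, ← Real.rpow_mul hX0.le, ← Real.rpow_add hX0,
      ← Real.rpow_add hX0]
    congr 1
    rw [hε']
    push_cast
    ring
  calc C₁ * X ^ ε' * (X ^ (6 / σ - 1) + X ^ 3) *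
        ((∑ n ∈ Icc 1 M, (1 : ℝ) / n) ^ 4 * ((Nat.log 2 M + 1 : ℕ) : ℝ))
      ≤ C₁ * X ^ ε' * (X ^ (6 / σ - 1) + X ^ 3) *
        ((C₂ * (5 * X) ^ ε') ^ 4 * (C₃ * (5 * X) ^ ε')) := by gcongr
    _ = C₁ * (C₂ * (5 : ℝ) ^ ε') ^ 4 * (C₃ * (5 : ℝ) ^ ε') * (X ^ ε' * (X ^ ε') ^ 4 * X ^ ε') *
        (X ^ (6 / σ - 1) + X ^ 3) := by rw [e2]; ring
    _ = _ := by rw [e3]

theorem curvH_fin (σ A X : ℝ) : (CurvH σ A X).Finite :=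
  (box_fin (X ^ 2) (X ^ 3)).subset fun _ h => ⟨h.2.1, h.2.2.1⟩

theorem cond6_pos (a b : ℤ) : 1 ≤ Cond6 a b := by
  unfold Cond6
  apply Nat.succ_le_of_lt
  apply Finset.prod_pos
  intro p hp
  have := (Nat.prime_of_mem_primeFactors (mem_filter.1 hp).1).pos
  split_ifs <;> positivity

/-- the upper bound for all exponents -/
theorem all_up (ε σ A : ℝ) (hε : 0 < ε) (hσ : 0 < σ) (hA : 0 < A) :
    ∃ C : ℝ, 0 < C ∧ ∀ (X : ℝ), 1 ≤ X →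
    ((CurvH σ A X).ncard : ℝ) ≤ C * X ^ (max (6 / σ - 1) 3 + ε) := by
  classical
  -- reduce to the exponent `τ = min σ 3`
  obtain ⟨τ, hτ⟩ : ∃ τ : ℝ, τ = min σ (3 / 2) := ⟨_, rfl⟩
  have hτ0 : 0 < τ := by rw [hτ]; positivity
  have hτσ : τ ≤ σ := by rw [hτ]; exact min_le_left _ _
  have hτ3 : τ ≤ 3 := by rw [hτ]; exact (min_le_right _ _).trans (by norm_num)
  obtain ⟨C, hC, h⟩ := curv_up ε τ A hε hτ0 hτ3 hA
  refine ⟨C * 2, by positivity, fun X hX => ?_⟩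
  have hX0 : 0 < X := by linarith
  have hsub : CurvH σ A X ⊆ CurvH τ A X := by
    rintro e ⟨h1, h2, h3, h4⟩
    refine ⟨h1, h2, h3, le_trans ?_ h4⟩
    have hc : (1 : ℝ) ≤ Cond6 e.1 e.2 := by exact_mod_cast cond6_pos e.1 e.2
    exact mul_le_mul_of_nonneg_left (Real.rpow_le_rpow_of_exponent_le hc hτσ) hA.le
  have hexp : 6 / τ - 1 ≤ max (6 / σ - 1) 3 := by
    rcases le_total σ (3 / 2) with hs | hs
    · rw [hτ, min_eq_left hs]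
      exact le_max_left _ _
    · rw [hτ, min_eq_right hs]
      refine le_trans ?_ (le_max_right _ _)
      norm_num
  have h1 : ((CurvH σ A X).ncard : ℝ) ≤ C * X ^ ε * (X ^ (6 / τ - 1) + X ^ 3) := by
    have h2 := h X hX (curvH_fin σ A X).toFinset (by
      intro e he
      rw [Set.Finite.mem_toFinset] at he
      exact hsub he)
    rwa [← Set.ncard_eq_toFinset_card _ (curvH_fin σ A X)] at h2
  refine h1.trans ?_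
  have h3 : X ^ (6 / τ - 1) ≤ X ^ (max (6 / σ - 1) 3) := Real.rpow_le_rpow_of_exponent_le hX hexp
  have h4 : X ^ 3 ≤ X ^ (max (6 / σ - 1) 3) := by
    have : X ^ (3 : ℕ) = X ^ (3 : ℝ) := by norm_cast
    rw [this]
    exact Real.rpow_le_rpow_of_exponent_le hX (le_max_right _ _)
  rw [Real.rpow_add hX0]
  calc C * X ^ ε * (X ^ (6 / τ - 1) + X ^ 3)
      ≤ C * X ^ ε * (X ^ (max (6 / σ - 1) 3) + X ^ (max (6 / σ - 1) 3)) := by gcongr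
    _ = _ := by ring

end Run7.h577.V
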