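import Mathlib
import Pool.Agent.Run7.h577.VP
import Pool.Agent.N157.SZ_GAIN

/-!
The lower bound for the number of all curves, and the exponent.
-/

set_option autoImplicit false

namespace Run7.h577.V

open Finset Run7.h577.S Filter Topology

theorem p5_cop {p : ℕ} (hp : p.Prime) (h5 : 5 ≤ p) (k : ℕ) : IsCoprime (p : ℤ) (6 ^ k) := by
  apply IsCoprime.pow_right
  have h : Nat.Coprime p 6 := by
    rw [Nat.Prime.coprime_iff_not_dvd hp]
    intro h
    have h6 := Nat.le_of_dvd (by norm_num) h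
    interval_cases p
    · omega
    · exact absurd hp (by norm_num)
  exact_mod_cast Nat.isCoprime_iff_coprime.2 h

/-- the minimal model of a semistable curve -/
theorem mem_curv {a b c d D w : ℤ} (hw : w = 1 ∨ w = 3) (ha : a * w ^ 4 = 27 * c)
    (hb : b * w ^ 6 = 54 * d) (hrel : 1728 * D = c ^ 3 - d ^ 2) (hD : D ≠ 0) (hco : IsCoprime c D)
    (h3 : ¬ ((3 : ℤ) ^ 4 ∣ a ∧ (3 : ℤ) ^ 6 ∣ b)) :
    Mn a b ∧ Cond6 a b ≤ ∏ p ∈ D.natAbs.primeFactors, p ∧ |D| ≤ |Disc a b| ∧ |a| ≤ 27 * |c| ∧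
      |b| ≤ 54 * |d| := by
  have hw1 : (1 : ℤ) ≤ w := by rcases hw with h | h <;> omega
  have hDisc : Disc a b * w ^ 12 = 136048896 * D := by
    unfold Disc
    calc (4 * a ^ 3 - 27 * b ^ 2) * w ^ 12 = 4 * (a * w ^ 4) ^ 3 - 27 * (b * w ^ 6) ^ 2 := by ring
      _ = 78732 * (c ^ 3 - d ^ 2) := by rw [ha, hb]; ring
      _ = 136048896 * D := by rw [← hrel]; ring
  have hw12 : w ^ 12 ≤ 531441 := by
    rcases hw with h | h <;> rw [h] <;> norm_num
  have hw12p : (0 : ℤ) < w ^ 12 := by positivity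
  have hDisc0 : Disc a b ≠ 0 := by
    intro h
    rw [h, zero_mul] at hDisc
    apply hD
    omega
  have hDle : |D| ≤ |Disc a b| := by
    have h1 : |Disc a b| * w ^ 12 = 136048896 * |D| := by
      have := congrArg abs hDisc
      rwa [abs_mul, abs_mul, abs_of_pos hw12p, abs_of_pos (by norm_num : (0 : ℤ) < 136048896)] at this
    have h2 : |Disc a b| * w ^ 12 ≤ |Disc a b| * 531441 :=
      mul_le_mul_of_nonneg_left hw12 (abs_nonneg _)
    have h3 := abs_nonneg D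
    omega
  have hale : |a| ≤ 27 * |c| := by
    have h1 : |a| * w ^ 4 = 27 * |c| := by
      have := congrArg abs ha
      rwa [abs_mul, abs_mul, abs_of_pos (by positivity : (0 : ℤ) < w ^ 4),
        abs_of_pos (by norm_num : (0 : ℤ) < 27)] at this
    have : (1 : ℤ) ≤ w ^ 4 := one_le_pow₀ hw1
    nlinarith [abs_nonneg a]
  have hble : |b| ≤ 54 * |d| := by
    have h1 : |b| * w ^ 6 = 54 * |d| := by
      have := congrArg abs hb
      rwa [abs_mul, abs_mul, abs_of_pos (by positivity : (0 : ℤ) < w ^ 6),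
        abs_of_pos (by norm_num : (0 : ℤ) < 54)] at this
    have : (1 : ℤ) ≤ w ^ 6 := one_le_pow₀ hw1
    nlinarith [abs_nonneg b]
  -- primes at least 5
  have hpa : ∀ p : ℕ, p.Prime → 5 ≤ p → (p : ℤ) ∣ a → (p : ℤ) ∣ c := by
    intro p hp h5 h
    have h1 : (p : ℤ) ∣ 6 ^ 3 * c := by
      have : (6 : ℤ) ^ 3 * c = 8 * (a * w ^ 4) := by rw [ha]; ring
      rw [this]
      exact (h.mul_right _).mul_left _
    exact (p5_cop hp h5 3).dvd_of_dvd_mul_left h1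
  have hpb : ∀ p : ℕ, p.Prime → 5 ≤ p → (p : ℤ) ∣ b → (p : ℤ) ∣ d := by
    intro p hp h5 h
    have h1 : (p : ℤ) ∣ 6 ^ 3 * d := by
      have : (6 : ℤ) ^ 3 * d = 4 * (b * w ^ 6) := by rw [hb]; ring
      rw [this]
      exact (h.mul_right _).mul_left _
    exact (p5_cop hp h5 3).dvd_of_dvd_mul_left h1
  have hpD : ∀ p : ℕ, p.Prime → 5 ≤ p → (p : ℤ) ∣ Disc a b → (p : ℤ) ∣ D := by
    intro p hp h5 h
    have h1 : (p : ℤ) ∣ 6 ^ 12 * D := by
      have : (6 : ℤ) ^ 12 * D = 16 * (Disc a b * w ^ 12) := by rw [hDisc]; ring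
      rw [this]
      exact (h.mul_right _).mul_left _
    exact (p5_cop hp h5 12).dvd_of_dvd_mul_left h1
  have hcop : ∀ p : ℕ, p.Prime → (p : ℤ) ∣ c → ¬ (p : ℤ) ∣ D := by
    intro p hp h1 h2
    have h3 := hco.isUnit_of_dvd' h1 h2
    exact (pr hp hp).not_isUnit h3
  refine ⟨⟨hDisc0, ?_⟩, ?_, hDle, hale, hble⟩
  · rintro p hp ⟨h4, h6⟩
    by_cases h5 : 5 ≤ p
    · have g1 := hpa p hp h5 ((dvd_pow_self _ (by norm_num)).trans h4)
      have g2 := hpb p hp h5 ((dvd_pow_self _ (by norm_num)).trans h6)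
      apply hcop p hp g1
      have h1 : (p : ℤ) ∣ 6 ^ 6 * D := by
        have : (6 : ℤ) ^ 6 * D = 27 * (c ^ 3 - d ^ 2) := by rw [← hrel]; ring
        rw [this]
        exact (dvd_sub (dvd_pow g1 (by norm_num)) (dvd_pow g2 (by norm_num))).mul_left _
      exact (p5_cop hp h5 6).dvd_of_dvd_mul_left h1
    · have hp2 := hp.two_le
      have hp23 : p = 2 ∨ p = 3 := by
        have : p ≠ 4 := by
          rintro rfl
          exact absurd hp (by norm_num)
        omega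
      rcases hp23 with rfl | rfl
      · have g1 : (16 : ℤ) ∣ c := by
          have h1 : (16 : ℤ) ∣ 27 * c := by
            rw [← ha]
            norm_num at h4
            exact h4.mul_right _
          omega
        have g2 : (32 : ℤ) ∣ d := by
          have h1 : (64 : ℤ) ∣ 54 * d := by
            rw [← hb]
            norm_num at h6
            exact h6.mul_right _
          omega
        obtain ⟨c', rfl⟩ := g1
        obtain ⟨d', rfl⟩ := g2
        have h1 : 27 * D = 2 * (32 * c' ^ 3 - 8 * d' ^ 2) := by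
          have : 64 * (27 * D) = 64 * (2 * (32 * c' ^ 3 - 8 * d' ^ 2)) := by
            calc 64 * (27 * D) = 1728 * D := by ring
              _ = _ := by rw [hrel]; ring
          omega
        apply hcop 2 hp
        · exact ⟨8 * c', by push_cast; ring⟩
        · have : (2 : ℤ) ∣ D := by omega
          exact_mod_cast this
      · exact h3 ⟨by exact_mod_cast h4, by exact_mod_cast h6⟩
  · have h1 : Cond6 a b = ∏ p ∈ (Disc a b).natAbs.primeFactors.filter (fun p => 5 ≤ p), p := by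
      unfold Cond6
      apply prod_congr rfl
      intro p hp
      obtain ⟨hp1, hp5⟩ := mem_filter.1 hp
      have hpp := Nat.prime_of_mem_primeFactors hp1
      have hd := Int.natCast_dvd.2 (Nat.dvd_of_mem_primeFactors hp1)
      rw [if_neg]
      intro h
      exact hcop p hpp (hpa p hpp hp5 h) (hpD p hpp hp5 hd)
    rw [h1]
    apply Nat.le_of_dvd
    · apply Finset.prod_pos
      intro p hp
      exact (Nat.prime_of_mem_primeFactors hp).pos
    · apply Finset.prod_dvd_prod_of_subset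
      intro p hp
      obtain ⟨hp1, hp5⟩ := mem_filter.1 hp
      have hpp := Nat.prime_of_mem_primeFactors hp1
      have hd := Int.natCast_dvd.2 (Nat.dvd_of_mem_primeFactors hp1)
      rw [Nat.mem_primeFactors]
      exact ⟨hpp, Int.natCast_dvd.1 (hpD p hpp hp5 hd), Int.natAbs_ne_zero.2 hD⟩

/-- the curves with a large discriminant -/
def CurvD (σ C X : ℝ) : Set (ℤ × ℤ) :=
  {e | Mn e.1 e.2 ∧ |(e.1 : ℝ)| ≤ X ^ 2 ∧ |(e.2 : ℝ)| ≤ X ^ 3 ∧
    C * (Cond6 e.1 e.2 : ℝ) ^ σ ≤ |((Disc e.1 e.2 : ℤ) : ℝ)|}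

theorem curvD_fin (σ C X : ℝ) : (CurvD σ C X).Finite :=
  (box_fin (X ^ 2) (X ^ 3)).subset fun _ h => ⟨h.2.1, h.2.2.1⟩

theorem sem_mem {σ C X : ℝ} (hσ : 0 < σ) (hC : 0 < C) (W : WeierstrassCurve ℤ)
    (hΔ : W.Δ ≠ 0) (hco : IsCoprime W.c₄ W.Δ)
    (h4 : |(W.c₄ : ℝ)| ≤ (X / 6) ^ 2) (h6 : |(W.c₆ : ℝ)| ≤ (X / 6) ^ 3)
    (hN : C * (cond W : ℝ) ^ σ ≤ |(W.Δ : ℝ)|) (hX : 0 ≤ X) {a b w : ℤ} (hw : w = 1 ∨ w = 3)
    (ha : a * w ^ 4 = 27 * W.c₄) (hb : b * w ^ 6 = 54 * W.c₆)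
    (h3 : ¬ ((3 : ℤ) ^ 4 ∣ a ∧ (3 : ℤ) ^ 6 ∣ b)) : (a, b) ∈ CurvD σ C X := by
  obtain ⟨g1, g2, g3, g4, g5⟩ := mem_curv hw ha hb (by have := W.c_relation; linarith) hΔ hco h3
  refine ⟨g1, ?_, ?_, ?_⟩
  · have : |(a : ℝ)| ≤ 27 * |(W.c₄ : ℝ)| := by exact_mod_cast g4
    have e : (X / 6) ^ 2 = X ^ 2 / 36 := by ring
    rw [e] at h4
    have := sq_nonneg X
    simp only []
    linarith
  · have : |(b : ℝ)| ≤ 54 * |(W.c₆ : ℝ)| := by exact_mod_cast g5
    have e : (X / 6) ^ 3 = X ^ 3 / 216 := by ring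
    rw [e] at h6
    have := pow_nonneg hX 3
    simp only []
    linarith
  · have h1 : (Cond6 a b : ℝ) ≤ (cond W : ℝ) := by
      unfold Run7.h577.S.cond
      exact_mod_cast g2
    have h2 : |(W.Δ : ℝ)| ≤ |((Disc a b : ℤ) : ℝ)| := by exact_mod_cast g3
    calc C * (Cond6 a b : ℝ) ^ σ ≤ C * (cond W : ℝ) ^ σ := by gcongr
      _ ≤ |(W.Δ : ℝ)| := hN
      _ ≤ _ := h2

theorem sem_card (σ C X : ℝ) (hσ : 0 < σ) (hC : 0 < C) (hX : 0 ≤ X) :
    (SemD σ C (X / 6)).ncard ≤ 2 * (CurvD σ C X).ncard := by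
  have hfin : (SemD σ C (X / 6)).Finite := (semH_fin σ C (X / 6)).subset (semD_sub σ C (X / 6))
  obtain ⟨P, hP⟩ : ∃ P : Set (ℤ × ℤ), P = {q | 3 ∣ q.1 ∧ 27 ∣ q.2} := ⟨_, rfl⟩
  rw [← Set.ncard_inter_add_ncard_sdiff_eq_ncard (SemD σ C (X / 6)) P hfin, two_mul]
  apply Nat.add_le_add
  · apply Set.ncard_le_ncard_of_injOn (fun q => (q.1 / 3, 2 * (q.2 / 27))) _ _ (curvD_fin σ C X)
    · rintro q ⟨⟨W, ⟨hΔ, hco⟩, hq, h4, h6, hN⟩, hqP⟩
      rw [hP] at hqP
      obtain ⟨h3, h27⟩ := hqP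
      rw [hq] at h3 h27 ⊢
      simp only [] at h3 h27 ⊢
      apply sem_mem hσ hC W hΔ hco h4 h6 hN hX (w := 3) (Or.inr rfl)
      · omega
      · omega
      · rintro ⟨h81, -⟩
        obtain ⟨c', hc'⟩ := h3
        obtain ⟨d', hd'⟩ := h27
        have e1 : W.c₄ / 3 = c' := by omega
        rw [e1] at h81
        obtain ⟨c'', hc''⟩ := h81
        have hrel := W.c_relation
        rw [hc', hd', hc''] at hrel
        have h5 : 64 * W.Δ = 3 * (3 * (3 ^ 10 * c'' ^ 3) - 9 * d' ^ 2) := by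
          have : 27 * (64 * W.Δ) = 27 * (3 * (3 * (3 ^ 10 * c'' ^ 3) - 9 * d' ^ 2)) := by
            calc 27 * (64 * W.Δ) = 1728 * W.Δ := by ring
              _ = _ := by rw [hrel]; ring
          omega
        have h6 : (3 : ℤ) ∣ W.Δ := by omega
        have h7 : (3 : ℤ) ∣ W.c₄ := ⟨c', hc'⟩
        have h8 := hco.isUnit_of_dvd' h7 h6
        rw [Int.isUnit_iff] at h8
        omega
    · rintro q ⟨-, hqP⟩ q' ⟨-, hqP'⟩ h
      rw [hP] at hqP hqP'
      obtain ⟨h3, h27⟩ := hqP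
      obtain ⟨h3', h27'⟩ := hqP'
      simp only [Prod.mk.injEq] at h
      ext
      · omega
      · omega
  · apply Set.ncard_le_ncard_of_injOn (fun q => (27 * q.1, 54 * q.2)) _ _ (curvD_fin σ C X)
    · rintro q ⟨⟨W, ⟨hΔ, hco⟩, hq, h4, h6, hN⟩, hqP⟩
      rw [hP] at hqP
      rw [hq] at hqP ⊢
      apply sem_mem hσ hC W hΔ hco h4 h6 hN hX (w := 1) (Or.inl rfl)
      · simp
      · simp
      · rintro ⟨h81, h729⟩
        apply hqP
        constructor
        · simp only [] at h81 ⊢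
          omega
        · simp only [] at h729 ⊢
          omega
    · rintro q - q' - h
      simp only [Prod.mk.injEq] at h
      ext
      · omega
      · omega

/-- LOWER BOUND -/
theorem curv_low (σ C κ : ℝ) (hσ : 1 < σ) (hκ : σ < κ) (hκ2 : κ < 2) (hC : 0 < C) :
    ∃ c : ℝ, 0 < c ∧ ∃ X₀ : ℝ, ∀ X : ℝ, X₀ ≤ X →
      c * X ^ (6 / κ - 1) ≤ ((CurvD σ C X).ncard : ℝ) := by
  obtain ⟨c, hc, X₀, h⟩ := semi_low σ C κ hσ hκ hκ2 hC
  refine ⟨c * (1 / 6) ^ (6 / κ - 1) / 2, by positivity, max (6 * X₀) 1, fun X hX => ?_⟩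
  have h1 : 6 * X₀ ≤ X := (le_max_left _ _).trans hX
  have hX1 : 1 ≤ X := (le_max_right _ _).trans hX
  have h2 := h (X / 6) (by linarith)
  have h3 : ((SemD σ C (X / 6)).ncard : ℝ) ≤ 2 * ((CurvD σ C X).ncard : ℝ) := by
    exact_mod_cast sem_card σ C X (by linarith) hC (by linarith)
  have e : (X / 6) ^ (6 / κ - 1) = (1 / 6) ^ (6 / κ - 1) * X ^ (6 / κ - 1) := by
    rw [← Real.mul_rpow (by norm_num) (by linarith)]
    congr 1
    ring
  rw [e] at h2
  linarith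

theorem curvD_sub (σ C X : ℝ) : CurvD σ C X ⊆ CurvH σ (C / 2) X := by
  rintro e ⟨h1, h2, h3, h4⟩
  refine ⟨h1, h2, h3, ?_⟩
  have h5 : |((Disc e.1 e.2 : ℤ) : ℝ)| ≤ 2 * Size e.1 e.2 := by
    unfold Disc Size
    push_cast
    refine (abs_sub _ _).trans ?_
    rw [abs_mul, abs_mul, abs_pow, abs_pow, abs_of_pos (by norm_num : (0 : ℝ) < 4),
      abs_of_pos (by norm_num : (0 : ℝ) < 27), sq_abs]
    have := le_max_left (4 * |(e.1 : ℝ)| ^ 3) (27 * (e.2 : ℝ) ^ 2)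
    have := le_max_right (4 * |(e.1 : ℝ)| ^ 3) (27 * (e.2 : ℝ) ^ 2)
    linarith
  have h6 : C / 2 * (Cond6 e.1 e.2 : ℝ) ^ σ = (C * (Cond6 e.1 e.2 : ℝ) ^ σ) / 2 := by ring
  rw [h6]
  linarith

/-- the exponent, for every family between `CurvD` and `CurvH` -/
theorem curv_exp (σ C C' : ℝ) (hσ : 1 < σ) (hσ2 : σ ≤ 3 / 2) (hC : 0 < C) (hC' : 0 < C')
    (S : ℝ → Set (ℤ × ℤ)) (h1 : ∀ X, S X ⊆ CurvH σ C X) (h2 : ∀ X, CurvD σ C' X ⊆ S X) :
    Tendsto (fun X : ℝ => Real.log ((S X).ncard : ℝ) / Real.log X) atTop (𝓝 (6 / σ - 1)) := by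
  have hσ0 : 0 < σ := by linarith
  have hmax : max (6 / σ - 1) 3 = 6 / σ - 1 := by
    apply max_eq_left
    rw [le_sub_iff_add_le, le_div_iff₀ hσ0]
    linarith
  apply tendsto_exp
  · intro ε hε
    obtain ⟨K, hK, h⟩ := all_up ε σ C hε hσ0 hC
    refine ⟨K, hK, fun X hX => ?_⟩
    have h3 : ((S X).ncard : ℝ) ≤ ((CurvH σ C X).ncard : ℝ) := by
      exact_mod_cast Set.ncard_le_ncard (h1 X) (curvH_fin σ C X)
    have h4 := h X hX
    rw [hmax] at h4
    exact h3.trans h4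
  · intro ε hε
    -- choose `κ > σ` with `6 / κ - 1 ≥ 6 / σ - 1 - ε`
    obtain ⟨κ, hκ1, hκ2, hκ3⟩ : ∃ κ : ℝ, σ < κ ∧ κ < 2 ∧ 6 / σ - 1 - ε ≤ 6 / κ - 1 := by
      refine ⟨min (σ + ε / 12) (7 / 4), ?_, ?_, ?_⟩
      · rw [lt_min_iff]
        constructor <;> linarith
      · exact lt_of_le_of_lt (min_le_right _ _) (by norm_num)
      · have g1 : σ < min (σ + ε / 12) (7 / 4) := by
          rw [lt_min_iff]
          constructor <;> linarith
        have g2 : min (σ + ε / 12) (7 / 4) ≤ σ + ε / 12 := min_le_left _ _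
        set κ := min (σ + ε / 12) (7 / 4)
        have g3 : 0 < κ := by linarith
        have g4 : 6 / σ - 6 / κ = 6 * (κ - σ) / (σ * κ) := by field_simp
        have g5 : 6 * (κ - σ) / (σ * κ) ≤ ε := by
          rw [div_le_iff₀ (by positivity)]
          have : 1 ≤ σ * κ := by nlinarith
          nlinarith
        linarith
    obtain ⟨c, hc, X₀, h⟩ := curv_low σ C' κ hσ hκ1 hκ2 hC'
    refine ⟨c, hc, max X₀ 1, fun X hX => ?_⟩
    have hX1 : 1 ≤ X := (le_max_right _ _).trans hX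
    have h3 := h X ((le_max_left _ _).trans hX)
    have h4 : ((CurvD σ C' X).ncard : ℝ) ≤ ((S X).ncard : ℝ) := by
      exact_mod_cast Set.ncard_le_ncard (h2 X) ((curvH_fin σ C X).subset (h1 X))
    refine le_trans ?_ (h3.trans h4)
    apply mul_le_mul_of_nonneg_left _ hc.le
    exact Real.rpow_le_rpow_of_exponent_le hX1 hκ3

end Run7.h577.V
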