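import Pool.Agent.Run7.h577.T24

/-!
# Dependent pairs on a curve have at most `2 D` parameters
-/

set_option autoImplicit false

namespace Run7.h577

open Module Filter Pool.Agent.W256 Pool.Agent.N770

/-- the two rows of the matrix are linearly independent -/
def RowsLI {k : Type*} [Field k] {n : ℕ} (A : Fin 2 × Fin n → k) : Prop :=
  ∀ α β : k, (∀ j, α * A (0, j) + β * A (1, j) = 0) → α = 0 ∧ β = 0

/-- a nonzero polynomial relation of degree at most `D` -/
def Rel (k : Type*) {L : Type*} [Field k] [Field L] [Algebra k L] (D : ℕ) (u v : L) : Prop :=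
  ∃ P : MvPolynomial (Fin 2) k, P ≠ 0 ∧ P.totalDegree ≤ D ∧ MvPolynomial.aeval ![u, v] P = 0

/-- coordinates of pairs in a small space satisfy a linear relation -/
theorem exists_functional {k L : Type*} [Field k] [Field L] [Algebra k L] {n : ℕ} (e : Fin n → L)
    (he : LinearIndependent k (Fin.cons 1 e : Fin (n + 1) → L)) (W : Submodule k L)
    [FiniteDimensional k W] (h1W : (1 : L) ∈ W) (D : ℕ) (hW : finrank k W ^ 2 / 4 ≤ D)
    (σ : Fin (2 * D + 1) → Fin 2 × Fin n) :
    ∃ c : Fin (2 * D + 1) → k, c ≠ 0 ∧ ∀ A : Fin 2 × Fin n → k,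
      ∑ j, A (0, j) • e j ∈ W → ∑ j, A (1, j) • e j ∈ W → ∑ t, c t * A (σ t) = 0 := by
  classical
  obtain ⟨he1, he2⟩ := linearIndependent_finCons.mp he
  let T : (Fin n → k) →ₗ[k] L := Fintype.linearCombination k e
  have hT : ∀ a, T a = ∑ j, a j • e j := fun a => Fintype.linearCombination_apply k e a
  have hTinj : Function.Injective T := he1.fintypeLinearCombination_injective
  let W0 : Submodule k (Fin n → k) := W.comap T
  -- the dimension of `W0`
  have hW0 : finrank k W0 + 1 ≤ finrank k W := by
    let b := finBasis k W0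
    have hbW : ∀ i, T (b i : Fin n → k) ∈ W := fun i => (b i).2
    have hli : LinearIndependent k (Fin.cons 1 (fun i => T (b i : Fin n → k)) :
        Fin (finrank k W0 + 1) → L) := by
      rw [linearIndependent_finCons]
      constructor
      · have h1 : LinearIndependent k (fun i => (b i : Fin n → k)) :=
          b.linearIndependent.map' W0.subtype (Submodule.ker_subtype _)
        exact h1.map' T (LinearMap.ker_eq_bot.mpr hTinj)
      · intro h1
        apply he2
        have h2 : Submodule.span k (Set.range fun i => T (b i : Fin n → k)) ≤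
            Submodule.span k (Set.range e) := by
          rw [Submodule.span_le]
          rintro _ ⟨i, rfl⟩
          change T (b i : Fin n → k) ∈ Submodule.span k (Set.range e)
          rw [hT]
          exact Submodule.sum_mem _ fun j _ => Submodule.smul_mem _ _ (Submodule.subset_span ⟨j, rfl⟩)
        exact h2 h1
    have hmem : ∀ i, (Fin.cons 1 (fun i => T (b i : Fin n → k)) : Fin (finrank k W0 + 1) → L) i
        ∈ W := by
      intro i
      refine Fin.cases ?_ (fun i => ?_) i
      · exact h1W
      · exact hbW i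
    have hli2 : LinearIndependent k (fun i => (⟨_, hmem i⟩ : W)) :=
      LinearIndependent.of_comp W.subtype hli
    have := hli2.fintype_card_le_finrank
    rwa [Fintype.card_fin] at this
  have hW0D : finrank k W0 ≤ D := by
    set w := finrank k W
    set w0 := finrank k W0
    by_contra hcon
    push Not at hcon
    have h1 : D + 2 ≤ w := by omega
    have h2 : (D + 2) ^ 2 / 4 ≤ D := (Nat.div_le_div_right (Nat.pow_le_pow_left h1 2)).trans hW
    have h3 : 4 * (D + 1) ≤ (D + 2) ^ 2 := by nlinarith
    have h4 : D + 1 ≤ (D + 2) ^ 2 / 4 := by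
      rw [Nat.le_div_iff_mul_le (by norm_num)]
      linarith
    omega
  -- the space of pairs
  let row : Fin 2 → (Fin 2 × Fin n → k) →ₗ[k] (Fin n → k) := fun a =>
    LinearMap.pi fun j => LinearMap.proj (a, j)
  let WA : Submodule k (Fin 2 × Fin n → k) := W0.comap (row 0) ⊓ W0.comap (row 1)
  have hWA : finrank k WA ≤ 2 * D := by
    let ι : WA →ₗ[k] W0 × W0 :=
      (((row 0).comp WA.subtype).codRestrict W0 (fun x => x.2.1)).prod
        (((row 1).comp WA.subtype).codRestrict W0 (fun x => x.2.2))
    have hι : Function.Injective ι := by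
      rw [← LinearMap.ker_eq_bot, LinearMap.ker_eq_bot']
      intro x hx
      apply Subtype.ext
      funext ⟨a, j⟩
      have h1 := congrArg (fun z : W0 × W0 => (z.1 : Fin n → k) j) hx
      have h2 := congrArg (fun z : W0 × W0 => (z.2 : Fin n → k) j) hx
      fin_cases a
      · exact h1
      · exact h2
    have h1 := LinearMap.finrank_le_finrank_of_injective hι
    rw [Module.finrank_prod] at h1
    omega
  let Θ : WA →ₗ[k] (Fin (2 * D + 1) → k) :=
    (LinearMap.pi fun t => LinearMap.proj (σ t)).comp WA.subtype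
  have hlt : LinearMap.range Θ < ⊤ := by
    rw [lt_top_iff_ne_top]
    intro h
    have h1 : finrank k (LinearMap.range Θ) = 2 * D + 1 := by
      rw [h, finrank_top, Module.finrank_fin_fun]
    have h2 := LinearMap.finrank_range_le Θ
    omega
  obtain ⟨f, hf0, hf⟩ := Submodule.exists_le_ker_of_lt_top _ hlt
  have hfx : ∀ x, f x = ∑ t, f (Pi.single t 1) * x t := by
    intro x
    conv_lhs => rw [← (LinearMap.sum_single_apply (fun _ => k) x)]
    rw [map_sum]
    refine Finset.sum_congr rfl fun t _ => ?_
    have h1 : (Pi.single t (x t) : Fin (2 * D + 1) → k) =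
        x t • (Pi.single t 1 : Fin (2 * D + 1) → k) := by
      rw [← Pi.single_smul, smul_eq_mul, mul_one]
    rw [h1, map_smul, smul_eq_mul, mul_comm]
  refine ⟨fun t => f (Pi.single t 1), ?_, ?_⟩
  · intro h0
    apply hf0
    ext x
    have h1 := congrFun h0 x
    simpa using h1
  · intro A hA0 hA1
    have hAW : A ∈ WA := by
      constructor
      · change T (row 0 A) ∈ W
        rw [hT]
        exact hA0
      · change T (row 1 A) ∈ W
        rw [hT]
        exact hA1
    have h1 : f (Θ ⟨A, hAW⟩) = 0 := hf ⟨_, rfl⟩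
    rw [hfx] at h1
    exact h1

/-- **Dependent pairs on a curve have at most `2 D` parameters.** -/
theorem few_curve {k L : Type} [Field k] [IsAlgClosed k] [CharZero k] [Field L] [Algebra k L]
    {n : ℕ} (e : Fin n → L) (he : LinearIndependent k (Fin.cons 1 e : Fin (n + 1) → L))
    (V : Submodule k L) [FiniteDimensional k V] (h1V : (1 : L) ∈ V) (heV : ∀ j, e j ∈ V)
    (hdep : ∀ x ∈ V, ∀ y ∈ V, ∃ Q : MvPolynomial (Fin 2) k, Q ≠ 0 ∧
      MvPolynomial.aeval ![x, y] Q = 0)
    (h6 : SixExp k V) (D : ℕ)
    (hG : ∀ W ≤ V, (1 : L) ∈ W → (∀ m, finrank k (W ^ m : Submodule k L) ≤ m * D + 1) →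
      finrank k W ^ 2 / 4 ≤ D)
    (σ : Fin (2 * D + 1) → Fin 2 × Fin n) :
    ∃ f : MvPolynomial (Fin (2 * D + 1)) k, f ≠ 0 ∧ ∀ A : Fin 2 × Fin n → k, RowsLI A →
      Rel k D (∑ j, A (0, j) • e j) (∑ j, A (1, j) • e j) → MvPolynomial.eval (A ∘ σ) f = 0 := by
  classical
  by_contra hcon
  push Not at hcon
  let I : Type := {x : (Fin 2 × Fin n → k) × MvPolynomial (Fin 2) k // RowsLI x.1 ∧ x.2 ≠ 0 ∧
    x.2.totalDegree ≤ D ∧
    MvPolynomial.aeval ![∑ j, x.1 (0, j) • e j, ∑ j, x.1 (1, j) • e j] x.2 = 0}
  let Sf : MvPolynomial (Fin (2 * D + 1)) k → Set I := fun f =>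
    {i | MvPolynomial.eval (i.1.1 ∘ σ) f ≠ 0}
  obtain ⟨𝒰, h𝒰⟩ := Ultrafilter.exists_ultrafilter_of_finite_inter_nonempty
    (Sf '' {f | f ≠ 0}) (by
    intro T hT
    choose! w hw1 hw2 using (fun (a : Set I) (ha : a ∈ (T : Set (Set I))) => hT ha)
    obtain ⟨A, hA1, ⟨P, hP0, hPD, hP⟩, hA2⟩ := hcon (∏ a ∈ T, w a) (by
      rw [Finset.prod_ne_zero_iff]
      exact fun a ha => hw1 a ha)
    refine ⟨⟨(A, P), hA1, hP0, hPD, hP⟩, ?_⟩
    intro a ha
    rw [← hw2 a ha]
    rw [map_prod, Finset.prod_ne_zero_iff] at hA2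
    exact hA2 a ha)
  have hgen : ∀ f : MvPolynomial (Fin (2 * D + 1)) k,
      (∀ᶠ i in (𝒰 : Filter I), MvPolynomial.eval (i.1.1 ∘ σ) f = 0) → f = 0 := by
    intro f hf
    by_contra hf0
    have h3 : Sf f ∈ (𝒰 : Filter I) := h𝒰 ⟨f, hf0, rfl⟩
    obtain ⟨i, hi1, hi2⟩ := (hf.and h3).exists
    exact hi2 hi1
  obtain ⟨K, U, S, _, _, _, _, _, g, gL, gX, p, pX, hgs, hg, hgL, hgX, hp, hpX⟩ :=
    exists_ultra 𝒰 k L
  set u : I → L := fun i => ∑ j, i.1.1 (0, j) • e j with hu
  set v : I → L := fun i => ∑ j, i.1.1 (1, j) • e j with hv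
  have huV : ∀ i, u i ∈ V := fun i => V.sum_mem fun j _ => V.smul_mem _ (heV j)
  have hvV : ∀ i, v i ∈ V := fun i => V.sum_mem fun j _ => V.smul_mem _ (heV j)
  by_cases hpar : @Param K U _ _ p.toAlgebra D (gL u) (gL v)
  · have h1 := few_param 𝒰 g gL p hgs hg hgL hp e he V h1V heV h6 (fun i => i.1.1)
      (fun i => i.2.1) D (2 * D + 1) σ (by
        rw [injective_iff_map_eq_zero]
        intro f hf
        apply hgen f
        rw [← hg]
        rw [← hf]
        have h2 : MvPolynomial.eval₂Hom (g.comp (Pi.constRingHom I k))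
            (fun t => g (fun i => i.1.1 (σ t))) =
            g.comp (RingHom.pi (fun i : I => MvPolynomial.eval (i.1.1 ∘ σ))) := by
          apply MvPolynomial.ringHom_ext
          · intro c
            rw [MvPolynomial.coe_eval₂Hom, MvPolynomial.eval₂_C]
            change g _ = g _
            congr 1
            funext i
            change c = MvPolynomial.eval _ (MvPolynomial.C c)
            rw [MvPolynomial.eval_C]
          · intro t
            rw [MvPolynomial.coe_eval₂Hom, MvPolynomial.eval₂_X]
            change g _ = g _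
            congr 1
            funext i
            change _ = MvPolynomial.eval _ (MvPolynomial.X t)
            rw [MvPolynomial.eval_X]
            rfl
        rw [h2]
        rfl) hpar
    omega
  · obtain ⟨W, hWV, hW1, hWm, hWe⟩ := ultra_core2 𝒰 g gL p hgs hg hgL hp V h1V hdep D
      u v (fun i => i.1.2) huV hvV (fun i => i.2.2.1) (fun i => i.2.2.2.1)
      (fun i => i.2.2.2.2) (by
        let aKU : Algebra K U := p.toAlgebra
        refine lift_const 𝒰 g gL hgs hgL hp v ?_
        intro i c hc
        have h1 := Fintype.linearIndependent_iff.mp he (Fin.cons (-c) (fun j => i.1.1 (1, j))) (by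
          rw [Fin.sum_univ_succ]
          simp only [Fin.cons_zero, Fin.cons_succ]
          have h2 : ∑ j, i.1.1 (1, j) • e j = algebraMap k L c := hc
          rw [h2, Algebra.algebraMap_eq_smul_one, neg_smul, neg_add_cancel])
        have h3 : ∀ j, i.1.1 (1, j) = 0 := by
          intro j
          have := h1 j.succ
          rwa [Fin.cons_succ] at this
        have h4 := (i.2.1 0 1 (by
          intro j
          rw [h3 j]; ring)).2
        exact one_ne_zero h4) hpar
    have hWfd : FiniteDimensional k W := Submodule.finiteDimensional_of_le hWV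
    have hWD := hG W hWV hW1 hWm
    obtain ⟨c, hc0, hc⟩ := exists_functional e he W hW1 D hWD σ
    have h1 : (∑ t, MvPolynomial.C (c t) * MvPolynomial.X t :
        MvPolynomial (Fin (2 * D + 1)) k) = 0 := by
      apply hgen
      refine hWe.mono fun i hi => ?_
      rw [map_sum, ← hc i.1.1 hi.1 hi.2]
      refine Finset.sum_congr rfl fun t _ => ?_
      rw [map_mul, MvPolynomial.eval_C, MvPolynomial.eval_X]
      rfl
    apply hc0
    funext t
    have h2 := congrArg (fun f => MvPolynomial.eval (Pi.single t 1) f) h1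
    simp only [map_sum, map_mul, MvPolynomial.eval_C, MvPolynomial.eval_X, map_zero] at h2
    rw [Finset.sum_eq_single t] at h2
    · rwa [Pi.single_eq_same, mul_one] at h2
    · intro s _ hs
      rw [Pi.single_eq_of_ne hs, mul_zero]
    · intro h
      exact absurd (Finset.mem_univ _) h

end Run7.h577
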