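import Pool.Agent.Run7.h577.T21
import Pool.Agent.Run7.h577.T25

/-!
# Dependent pairs have at most `2 D` parameters
-/

set_option autoImplicit false

namespace Run7.h577

open Module Pool.Agent.W256 Pool.Agent.N770

/-- **Dependent pairs have at most `2 D` parameters.** -/
theorem few_gen {k M : Type} [Field k] [IsAlgClosed k] [CharZero k] [Field M] [Algebra k M]
    (S : Submodule k M) (hS : Grows k S) (h6 : SixExp k S) (h1S : (1 : M) ∈ S) {n : ℕ}
    (l : Fin n → M) (hl : LinearIndependent k (Fin.cons 1 l : Fin (n + 1) → M))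
    (hlS : ∀ j, l j ∈ S) (D : ℕ) (σ : Fin (2 * D + 1) → Fin 2 × Fin n) :
    ∃ f : MvPolynomial (Fin (2 * D + 1)) k, f ≠ 0 ∧ ∀ A : Fin 2 × Fin n → k, RowsLI A →
      Rel k D (∑ j, A (0, j) • l j) (∑ j, A (1, j) • l j) → MvPolynomial.eval (A ∘ σ) f = 0 := by
  classical
  let V : Submodule k M := Submodule.span k (Set.range (Fin.cons 1 l : Fin (n + 1) → M))
  have hVfd : FiniteDimensional k V := FiniteDimensional.span_of_finite k (Set.finite_range _)
  have h1 : (1 : M) ∈ V := Submodule.subset_span ⟨0, by rw [Fin.cons_zero]⟩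
  have hlV : ∀ j, l j ∈ V := fun j => Submodule.subset_span ⟨j.succ, by rw [Fin.cons_succ]⟩
  have hVS : V ≤ S := by
    rw [Submodule.span_le]
    rintro _ ⟨i, rfl⟩
    refine Fin.cases ?_ (fun i => ?_) i
    · exact h1S
    · exact hlS i
  set A : Subalgebra k M := Algebra.adjoin k (V : Set M) with hA
  have hAfg : A.FG := by
    obtain ⟨S, hS⟩ := (IsNoetherian.noetherian (⊤ : Submodule k V)).map V.subtype
    rw [Submodule.map_subtype_top] at hS
    refine ⟨S, ?_⟩
    rw [hA]
    conv_rhs => rw [← hS]
    rw [Algebra.adjoin_span]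
  have hft : Algebra.FiniteType k A := A.fg_iff_finiteType.mp hAfg
  have hVA : ∀ x ∈ V, x ∈ A := fun x hx => Algebra.subset_adjoin hx
  have hinjA : Function.Injective A.val.toLinearMap := Subtype.val_injective
  have hmapA : ∀ W : Submodule k A, finrank k (W.map A.val.toLinearMap) = finrank k W :=
    fun W => (Submodule.equivMapOfInjective A.val.toLinearMap hinjA W).finrank_eq.symm
  -- `V` inside `A`
  let VA : Submodule k A := V.comap A.val.toLinearMap
  have hVAmap : VA.map A.val.toLinearMap = V := by
    rw [Submodule.map_comap_eq, inf_eq_right]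
    intro x hx
    exact ⟨⟨x, hVA x hx⟩, rfl⟩
  have hVAfd : FiniteDimensional k VA := by
    have e := Submodule.equivMapOfInjective A.val.toLinearMap hinjA VA
    have : FiniteDimensional k (VA.map A.val.toLinearMap) := by rw [hVAmap]; infer_instance
    exact LinearEquiv.finiteDimensional e.symm
  have h1VA : (1 : A) ∈ VA := h1
  have hpowmono : ∀ m, m ≤ D + 3 → VA ^ m ≤ VA ^ (D + 3) := by
    intro m hm
    obtain ⟨j, hj⟩ := Nat.exists_eq_add_of_le hm
    rw [hj]
    have h2 : (1 : Submodule k A) ≤ VA ^ j := by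
      rw [Submodule.one_le]
      clear hm hj
      induction j with
      | zero => rw [pow_zero]; exact Submodule.one_le.mp le_rfl
      | succ j ih =>
        rw [pow_succ]
        have := Submodule.mul_mem_mul ih h1VA
        rwa [mul_one] at this
    calc VA ^ m = VA ^ m * 1 := (mul_one _).symm
      _ ≤ VA ^ m * VA ^ j := mul_le_mul' le_rfl h2
      _ = VA ^ (m + j) := (pow_add VA m j).symm
  have hYfd : FiniteDimensional k (VA ^ (D + 3) : Submodule k A) :=
    Module.Finite.iff_fg.mpr (Submodule.FG.pow (Module.Finite.iff_fg.mp inferInstance) _)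
  obtain ⟨L, _, _, ψ, hψ, hψdep⟩ := exists_curve (k := k) (A := A) (VA ^ (D + 3))
  have hVN : VA ≤ VA ^ (D + 3) := by
    have := hpowmono 1 (by omega)
    rwa [pow_one] at this
  have hVN2 : VA ^ 2 ≤ VA ^ (D + 3) := hpowmono 2 (by omega)
  -- the image of `V`
  let VL : Submodule k L := VA.map ψ.toLinearMap
  have hVLfd : FiniteDimensional k VL := inferInstance
  have h1VL : (1 : L) ∈ VL := ⟨1, h1VA, map_one ψ⟩
  let lA : Fin n → A := fun j => ⟨l j, hVA _ (hlV j)⟩
  have hlA : ∀ j, lA j ∈ VA := hlV
  let e : Fin n → L := fun j => ψ (lA j)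
  have heV : ∀ j, e j ∈ VL := fun j => ⟨lA j, hlA j, rfl⟩
  have he : LinearIndependent k (Fin.cons 1 e : Fin (n + 1) → L) := by
    rw [Fintype.linearIndependent_iff]
    intro c hc i
    have h2 : ∑ i, c i • (Fin.cons 1 lA : Fin (n + 1) → A) i = 0 := by
      apply hψ
      · apply hVN
        refine VA.sum_mem fun i _ => VA.smul_mem _ ?_
        refine Fin.cases ?_ (fun i => ?_) i
        · exact h1VA
        · exact hlA i
      · rw [map_sum, ← hc]
        refine Finset.sum_congr rfl fun i _ => ?_
        rw [map_smul]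
        congr 1
        refine Fin.cases ?_ (fun i => ?_) i
        · rw [Fin.cons_zero, Fin.cons_zero, map_one]
        · rw [Fin.cons_succ, Fin.cons_succ]
    have h3 := congrArg (fun x : A => (x : M)) h2
    refine Fintype.linearIndependent_iff.mp hl c ?_ i
    have h4 : ((∑ i, c i • (Fin.cons 1 lA : Fin (n + 1) → A) i : A) : M) =
        ∑ i, c i • (Fin.cons 1 l : Fin (n + 1) → M) i := by
      rw [AddSubmonoidClass.coe_finsetSum]
      refine Finset.sum_congr rfl fun i _ => ?_
      change c i • ((Fin.cons 1 lA : Fin (n + 1) → A) i : M) = _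
      congr 1
      refine Fin.cases ?_ (fun i => ?_) i
      · rfl
      · rfl
    rw [← h4]
    exact h3
  -- six exponentials
  have h6L : SixExp k VL := by
    intro y hy w hw hwV hywV
    choose ω hω1 hω2 using hwV
    choose ω' hω'1 hω'2 using hywV
    have hω2' : ∀ j, ψ (ω j) = w j := hω2
    have hω'2' : ∀ j, ψ (ω' j) = y * w j := hω'2
    have hω0 : (ω 0 : M) ≠ 0 := by
      intro h
      apply hw.ne_zero 0
      rw [← hω2' 0, show ω 0 = 0 from Subtype.ext h, map_zero]
    have hrel : ∀ j, ω 0 * ω' j = ω j * ω' 0 := by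
      intro j
      have h2 : ω 0 * ω' j - ω j * ω' 0 = 0 := by
        apply hψ
        · apply hVN2
          rw [pow_two]
          exact sub_mem (Submodule.mul_mem_mul (hω1 0) (hω'1 j))
            (Submodule.mul_mem_mul (hω1 j) (hω'1 0))
        · rw [map_sub, map_mul, map_mul, hω2', hω2', hω'2', hω'2']
          ring
      exact sub_eq_zero.mp h2
    have hrelM : ∀ j, (ω' 0 : M) / ω 0 * ω j = ω' j := by
      intro j
      have h2 := congrArg (fun x : A => (x : M)) (hrel j)
      have h3 : (ω 0 : M) * ω' j = ω j * ω' 0 := h2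
      rw [div_mul_eq_mul_div, div_eq_iff hω0, mul_comm (ω' 0 : M), ← h3, mul_comm]
    refine h6 ((ω' 0 : M) / ω 0) ?_ (fun j => (ω j : M)) ?_ (fun j => hVS (hω1 j)) ?_
    · intro c hc
      apply hy c
      have h2 : ω' 0 = algebraMap k A c * ω 0 := by
        apply Subtype.ext
        rw [div_eq_iff hω0] at hc
        exact hc
      have h3 := congrArg ψ h2
      rw [map_mul, hω'2', hω2', AlgHom.commutes] at h3
      exact mul_right_cancel₀ (hw.ne_zero 0) h3
    · have h2 : LinearIndependent k ω := by
        apply LinearIndependent.of_comp ψ.toLinearMap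
        have : (ψ.toLinearMap : A → L) ∘ ω = w := funext hω2'
        rw [this]
        exact hw
      exact h2.map' A.val.toLinearMap (LinearMap.ker_eq_bot.mpr hinjA)
    · intro j
      rw [hrelM]
      exact hVS (hω'1 j)
  -- growth
  have hG : ∀ W ≤ VL, (1 : L) ∈ W → (∀ m, finrank k (W ^ m : Submodule k L) ≤ m * D + 1) →
      finrank k W ^ 2 / 4 ≤ D := by
    intro W hWV hW1 hWm2
    set WA : Submodule k A := VA ⊓ W.comap ψ.toLinearMap with hWA
    have hWLfd : FiniteDimensional k W := Submodule.finiteDimensional_of_le hWV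
    have hWAfd : FiniteDimensional k WA := Submodule.finiteDimensional_of_le inf_le_left
    have hinj : ∀ m ≤ D + 3, ∀ x ∈ WA ^ m, ψ x = 0 → x = 0 := by
      intro m hm x hx hx0
      exact hψ x ((pow_le_pow_left' (inf_le_left : WA ≤ VA) m).trans (hpowmono m hm) hx) hx0
    have hle : ∀ m ≤ D + 3, finrank k (WA ^ m : Submodule k A) ≤ m * D + 1 := by
      intro m hm
      have hWm : FiniteDimensional k (W ^ m : Submodule k L) :=
        Module.Finite.iff_fg.mpr (Submodule.FG.pow (Module.Finite.iff_fg.mp inferInstance) m)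
      have hWAm : FiniteDimensional k (WA ^ m : Submodule k A) :=
        Module.Finite.iff_fg.mpr (Submodule.FG.pow (Module.Finite.iff_fg.mp inferInstance) m)
      have hmap : (WA ^ m).map ψ.toLinearMap ≤ W ^ m := by
        have e2 : (WA ^ m).map ψ.toLinearMap = (WA.map ψ.toLinearMap) ^ m :=
          Submodule.map_pow WA ψ m
        rw [e2]
        apply pow_le_pow_left'
        rw [Submodule.map_le_iff_le_comap]
        exact inf_le_right
      let f : (WA ^ m : Submodule k A) →ₗ[k] (W ^ m : Submodule k L) :=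
        (ψ.toLinearMap.comp (WA ^ m).subtype).codRestrict (W ^ m)
          (fun x => hmap ⟨x, x.2, rfl⟩)
      have hf : Function.Injective f := by
        rw [← LinearMap.ker_eq_bot, LinearMap.ker_eq_bot']
        intro x hx
        have h4 : ψ (x : A) = 0 := congrArg Subtype.val hx
        exact Subtype.ext (hinj m hm x.1 x.2 h4)
      exact (LinearMap.finrank_le_finrank_of_injective hf).trans (hWm2 m)
    have hfW : finrank k W = finrank k WA := by
      have h2 : WA.map ψ.toLinearMap = W := by
        apply le_antisymm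
        · rw [Submodule.map_le_iff_le_comap]
          exact inf_le_right
        · intro x hx
          obtain ⟨a, ha, rfl⟩ := hWV hx
          exact ⟨a, ⟨ha, hx⟩, rfl⟩
      let f : WA →ₗ[k] L := ψ.toLinearMap.comp WA.subtype
      have hf : Function.Injective f := by
        rw [← LinearMap.ker_eq_bot, LinearMap.ker_eq_bot']
        intro x hx
        have h4 : ψ (x : A) = 0 := hx
        exact Subtype.ext (hinj 1 (by omega) x.1 (by rw [pow_one]; exact x.2) h4)
      have h3 := LinearMap.finrank_range_of_inj hf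
      have h4 : LinearMap.range f = W := by
        rw [← h2]
        ext x
        constructor
        · rintro ⟨a, rfl⟩
          exact ⟨a, a.2, rfl⟩
        · rintro ⟨a, ha, rfl⟩
          exact ⟨⟨a, ha⟩, rfl⟩
      rw [h4] at h3
      exact h3
    set W' : Submodule k M := WA.map A.val.toLinearMap with hW'
    have hW'V : W' ≤ V := by
      calc W' ≤ VA.map A.val.toLinearMap := Submodule.map_mono inf_le_left
        _ = V := hVAmap
    have hW'fd : FiniteDimensional k W' := Submodule.finiteDimensional_of_le hW'V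
    have h2 := bound_of_grows S hS W' (hW'V.trans hVS) ⟨1, ⟨h1VA, by
      rw [SetLike.mem_coe, Submodule.mem_comap]
      change ψ 1 ∈ W
      rw [map_one]
      exact hW1⟩, rfl⟩ D (by
      intro m hm
      have e1 : W' ^ m = (WA ^ m).map A.val.toLinearMap := (Submodule.map_pow WA A.val m).symm
      rw [e1, hmapA]
      exact hle m hm)
    rw [hW', hmapA] at h2
    rw [hfW]
    exact h2
  obtain ⟨f, hf0, hf⟩ := few_curve e he VL h1VL heV (by
    rintro _ ⟨x, -, rfl⟩ _ ⟨y, -, rfl⟩
    exact hψdep x y) h6L D hG σ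
  refine ⟨f, hf0, ?_⟩
  rintro B hB ⟨P, hP0, hPD, hP⟩
  apply hf B hB
  refine ⟨P, hP0, hPD, ?_⟩
  have hsum : ∀ a : Fin 2, ((∑ j, B (a, j) • lA j : A) : M) = ∑ j, B (a, j) • l j := by
    intro a
    rw [AddSubmonoidClass.coe_finsetSum]
    rfl
  have hψsum : ∀ a : Fin 2, ψ (∑ j, B (a, j) • lA j : A) = ∑ j, B (a, j) • e j := by
    intro a
    rw [map_sum]
    refine Finset.sum_congr rfl fun j _ => ?_
    rw [map_smul]
  have hPA : MvPolynomial.aeval ![(∑ j, B (0, j) • lA j : A), ∑ j, B (1, j) • lA j] P = 0 := by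
    apply Subtype.val_injective
    have h2 := MvPolynomial.aeval_algebraMap_apply (A := A) (B := M)
      ![(∑ j, B (0, j) • lA j : A), ∑ j, B (1, j) • lA j] P
    have h3 : (algebraMap A M) ∘ ![(∑ j, B (0, j) • lA j : A), ∑ j, B (1, j) • lA j] =
        ![∑ j, B (0, j) • l j, ∑ j, B (1, j) • l j] := by
      funext i
      fin_cases i
      · exact hsum 0
      · exact hsum 1
    rw [h3, hP] at h2
    exact h2.symm
  rw [← hψsum 0, ← hψsum 1]
  have e' : (MvPolynomial.aeval ![ψ (∑ j, B (0, j) • lA j), ψ (∑ j, B (1, j) • lA j)] :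
      MvPolynomial (Fin 2) k →ₐ[k] L) =
      ψ.comp (MvPolynomial.aeval ![(∑ j, B (0, j) • lA j : A), ∑ j, B (1, j) • lA j]) := by
    apply MvPolynomial.algHom_ext
    intro i
    fin_cases i
    · simp
    · simp
  rw [e', AlgHom.comp_apply, hPA, map_zero]

end Run7.h577
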