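import Pool.Agent.Run7.h577.T19

/-!
# Lifting parametrisations; the covering theorem for pairs that are not parametrised
-/

set_option autoImplicit false

namespace Run7.h577

open Module Polynomial Filter IntermediateField Pool.Agent.W256 Pool.Agent.N770

section lift

variable {I k L K U : Type} (𝒰 : Ultrafilter I) [Field k] [Field L] [Algebra k L] [Field K]
  [Field U] [Algebra K U] (g : (I → k) →+* K) (gL : (I → L) →+* U) (hgs : Function.Surjective g)
  (hgL : ∀ f, gL f = 0 ↔ ∀ᶠ i in (𝒰 : Filter I), f i = 0)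
  (hp : ∀ a, algebraMap K U (g a) = gL (fun i => algebraMap k L (a i)))

include hgs hgL hp

theorem lift_adjoin (u v : I → L) (y : U) (hy : y ∈ adjoin K {gL u, gL v}) :
    ∃ f : I → L, gL f = y ∧ ∀ i, f i ∈ adjoin k {u i, v i} := by
  induction hy using IntermediateField.adjoin_induction with
  | mem y hy =>
    rcases hy with rfl | hy
    · exact ⟨u, rfl, fun i => subset_adjoin _ _ (Set.mem_insert _ _)⟩
    · rw [Set.mem_singleton_iff] at hy
      exact ⟨v, hy.symm, fun i => subset_adjoin _ _ (Set.mem_insert_of_mem _ rfl)⟩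
  | algebraMap c =>
    obtain ⟨a, rfl⟩ := hgs c
    exact ⟨fun i => algebraMap k L (a i), (hp a).symm, fun i => IntermediateField.algebraMap_mem _ _⟩
  | add a b _ _ ha hb =>
    obtain ⟨f, rfl, hf⟩ := ha
    obtain ⟨f', rfl, hf'⟩ := hb
    exact ⟨f + f', map_add _ _ _, fun i => add_mem (hf i) (hf' i)⟩
  | inv a ha' ha =>
    obtain ⟨f, rfl, hf⟩ := ha
    refine ⟨fun i => (f i)⁻¹, ?_, fun i => inv_mem (hf i)⟩
    by_cases h0 : gL f = 0
    · rw [h0, inv_zero, hgL]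
      refine ((hgL f).mp h0).mono fun i hi => ?_
      change (f i)⁻¹ = 0
      rw [hi, inv_zero]
    · have h1 : ∀ᶠ i in (𝒰 : Filter I), ¬ f i = 0 := by
        rw [Ultrafilter.eventually_not]
        rwa [hgL] at h0
      have h2 : gL (f * (fun i => (f i)⁻¹) - 1) = 0 := by
        rw [hgL]
        refine h1.mono fun i hi => ?_
        change f i * (f i)⁻¹ - 1 = 0
        rw [mul_inv_cancel₀ hi, sub_self]
      rw [map_sub, map_mul, map_one, sub_eq_zero] at h2
      exact eq_inv_of_mul_eq_one_right h2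
  | mul a b ha' hb' ha hb =>
    obtain ⟨f, rfl, hf⟩ := ha
    obtain ⟨f', rfl, hf'⟩ := hb
    exact ⟨f * f', map_mul _ _ _, fun i => mul_mem (hf i) (hf' i)⟩

omit hgL in
theorem lift_poly (D : ℕ) (r : K[X]) (hr : r.natDegree ≤ D) :
    ∃ r' : I → k[X], (∀ i, (r' i).natDegree ≤ D) ∧
      ∀ f : I → L, gL (fun i => aeval (f i) (r' i)) = aeval (gL f) r := by
  choose a ha using fun j => hgs (r.coeff j)
  refine ⟨fun i => ∑ j ∈ Finset.range (D + 1), C (a j i) * X ^ j, ?_, ?_⟩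
  · intro i
    apply natDegree_sum_le_of_forall_le
    intro j hj
    exact (natDegree_C_mul_X_pow_le _ _).trans (Nat.lt_succ_iff.mp (Finset.mem_range.mp hj))
  · intro f
    have h1 : (fun i => aeval (f i) (∑ j ∈ Finset.range (D + 1), C (a j i) * X ^ j)) =
        ∑ j ∈ Finset.range (D + 1), (fun i => algebraMap k L (a j i)) * f ^ j := by
      funext i
      rw [Finset.sum_apply, map_sum]
      refine Finset.sum_congr rfl fun j _ => ?_
      rw [map_mul, map_pow, aeval_C, aeval_X]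
      rfl
    rw [h1, map_sum, aeval_eq_sum_range' (Nat.lt_succ_of_le hr)]
    refine Finset.sum_congr rfl fun j _ => ?_
    rw [map_mul, map_pow, ← hp, ha, Algebra.smul_def]

theorem lift_param (D : ℕ) (u v : I → L) (h : Param K D (gL u) (gL v)) :
    ∀ᶠ i in (𝒰 : Filter I), Param k D (u i) (v i) := by
  obtain ⟨y, hy, r, s, hr, hs, hrd, hsd⟩ := h
  obtain ⟨f, rfl, hf⟩ := lift_adjoin 𝒰 g gL hgs hgL hp u v y hy
  obtain ⟨r', hr', hr2⟩ := lift_poly g gL hgs hp D r hrd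
  obtain ⟨s', hs', hs2⟩ := lift_poly g gL hgs hp D s hsd
  have h1 : ∀ᶠ i in (𝒰 : Filter I), u i = aeval (f i) (r' i) := by
    have h2 : gL (u - fun i => aeval (f i) (r' i)) = 0 := by rw [map_sub, hr2, hr, sub_self]
    rw [hgL] at h2
    exact h2.mono fun i hi => sub_eq_zero.mp hi
  have h1' : ∀ᶠ i in (𝒰 : Filter I), v i = aeval (f i) (s' i) := by
    have h2 : gL (v - fun i => aeval (f i) (s' i)) = 0 := by rw [map_sub, hs2, hs, sub_self]
    rw [hgL] at h2
    exact h2.mono fun i hi => sub_eq_zero.mp hi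
  refine (h1.and h1').mono fun i hi => ?_
  exact ⟨f i, hf i, r' i, s' i, hi.1, hi.2, hr' i, hs' i⟩

end lift

/-- constants -/
theorem lift_const {I k L K U : Type} (𝒰 : Ultrafilter I) [Field k] [Field L] [Algebra k L]
    [Field K] [IsAlgClosed K] [Field U] [Algebra K U] (g : (I → k) →+* K) (gL : (I → L) →+* U)
    (hgs : Function.Surjective g)
    (hgL : ∀ f, gL f = 0 ↔ ∀ᶠ i in (𝒰 : Filter I), f i = 0)
    (hp : ∀ a, algebraMap K U (g a) = gL (fun i => algebraMap k L (a i))) (v : I → L)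
    (hv : ∀ i, ∀ c : k, v i ≠ algebraMap k L c) : Transcendental K (gL v) := by
  intro h
  obtain ⟨c, hc⟩ := exists_const _ h
  obtain ⟨a, rfl⟩ := hgs c
  rw [hp] at hc
  have h2 : gL (v - fun i => algebraMap k L (a i)) = 0 := by rw [map_sub, hc, sub_self]
  rw [hgL] at h2
  obtain ⟨i, hi⟩ := h2.exists
  exact hv i _ (sub_eq_zero.mp hi)

theorem degree_pos_of_dep {k L : Type*} [Field k] [Field L] [Algebra k L] {D : ℕ} {u v : L}
    (P : MvPolynomial (Fin 2) k) (hP0 : P ≠ 0) (hPD : P.totalDegree ≤ D)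
    (hP : MvPolynomial.aeval ![u, v] P = 0) : 1 ≤ D := by
  by_contra hD
  have hD0 : P.totalDegree = 0 := by omega
  rw [MvPolynomial.totalDegree_eq_zero_iff_eq_C] at hD0
  rw [hD0, MvPolynomial.algHom_C, map_eq_zero] at hP
  rw [hP, MvPolynomial.C_0] at hD0
  exact hP0 hD0

/-- **The covering theorem for spaces of functions on a curve**, for pairs which are not
polynomials in one function. -/
theorem cover_curve2 {k L : Type} [Field k] [IsAlgClosed k] [CharZero k] [Field L] [Algebra k L]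
    (V : Submodule k L) [FiniteDimensional k V] (h1 : (1 : L) ∈ V)
    (hdep : ∀ x ∈ V, ∀ y ∈ V, ∃ Q : MvPolynomial (Fin 2) k, Q ≠ 0 ∧
      MvPolynomial.aeval ![x, y] Q = 0)
    (D : ℕ) :
    ∃ 𝒲 : Set (Submodule k L), 𝒲.Finite ∧
      (∀ W ∈ 𝒲, W ≤ V ∧ 1 ∈ W ∧ ∀ m, finrank k (W ^ m : Submodule k L) ≤ m * D + 1) ∧
      ∀ u ∈ V, ∀ v ∈ V, (∃ P : MvPolynomial (Fin 2) k, P ≠ 0 ∧ P.totalDegree ≤ D ∧
        MvPolynomial.aeval ![u, v] P = 0) → ¬ Param k D u v → ∃ W ∈ 𝒲, u ∈ W ∧ v ∈ W := by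
  classical
  by_contra hcon
  let I : Type := {x : (L × L) × MvPolynomial (Fin 2) k // x.1.1 ∈ V ∧ x.1.2 ∈ V ∧ x.2 ≠ 0 ∧
    x.2.totalDegree ≤ D ∧ MvPolynomial.aeval ![x.1.1, x.1.2] x.2 = 0 ∧ ¬ Param k D x.1.1 x.1.2}
  let Al : Set (Submodule k L) :=
    {W | W ≤ V ∧ 1 ∈ W ∧ ∀ m, finrank k (W ^ m : Submodule k L) ≤ m * D + 1}
  let A : Submodule k L → Set I := fun W => {i | ¬ (i.1.1.1 ∈ W ∧ i.1.1.2 ∈ W)}
  obtain ⟨𝒰, h𝒰⟩ := Ultrafilter.exists_ultrafilter_of_finite_inter_nonempty (A '' Al) (by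
    intro T hT
    by_contra hempty
    apply hcon
    choose! w hw1 hw2 using (fun (a : Set I) (ha : a ∈ (T : Set (Set I))) => hT ha)
    refine ⟨w '' (T : Set (Set I)), T.finite_toSet.image _, ?_, ?_⟩
    · rintro _ ⟨a, ha, rfl⟩
      exact hw1 a ha
    · rintro u hu v hv ⟨P, hP0, hPD, hP⟩ hPL
      by_contra h2
      push Not at h2
      apply hempty
      refine ⟨⟨((u, v), P), hu, hv, hP0, hPD, hP, hPL⟩, ?_⟩
      intro a ha
      rw [← hw2 a ha]
      exact fun h => h2 _ ⟨a, ha, rfl⟩ h.1 h.2)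
  obtain ⟨K, U, S, _, _, _, _, _, g, gL, gX, p, pX, hgs, hg, hgL, hgX, hp, hpX⟩ :=
    exists_ultra 𝒰 k L
  have hconst : ∀ i : I, ∀ c : k, i.1.1.2 ≠ algebraMap k L c := by
    rintro ⟨⟨⟨u, v⟩, P⟩, hu, hv, hP0, hPD, hP, hPL⟩ c hc
    change v = algebraMap k L c at hc
    apply hPL
    have hD := degree_pos_of_dep P hP0 hPD hP
    refine ⟨u, subset_adjoin _ _ (Set.mem_insert _ _), X, C c, ?_, ?_, ?_, ?_⟩
    · rw [aeval_X]
    · rw [aeval_C]; exact hc
    · rw [natDegree_X]; exact hD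
    · rw [natDegree_C]; exact Nat.zero_le D
  obtain ⟨W, hWV, hW1, hWm, hWe⟩ := ultra_core2 𝒰 g gL p hgs hg hgL hp V h1 hdep D
    (fun i => i.1.1.1) (fun i => i.1.1.2) (fun i => i.1.2) (fun i => i.2.1) (fun i => i.2.2.1)
    (fun i => i.2.2.2.1) (fun i => i.2.2.2.2.1) (fun i => i.2.2.2.2.2.1)
    (by
      let aKU : Algebra K U := p.toAlgebra
      exact lift_const 𝒰 g gL hgs hgL hp _ hconst)
    (by
      let aKU : Algebra K U := p.toAlgebra
      intro hpar
      obtain ⟨i, hi⟩ := (lift_param 𝒰 g gL hgs hgL hp D _ _ hpar).exists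
      exact i.2.2.2.2.2.2 hi)
  have h3 : A W ∈ (𝒰 : Filter I) := h𝒰 ⟨W, ⟨hWV, hW1, hWm⟩, rfl⟩
  obtain ⟨i, hi1, hi2⟩ := (hWe.and h3).exists
  exact hi2 hi1

end Run7.h577
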