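import Pool.Agent.N770.Cover
import Pool.Agent.N770.Dir
import Pool.Agent.Run7.h577.T20

/-!
# Transfer of growth and of the six exponentials theorem to ultraproducts
-/

set_option autoImplicit false

namespace Run7.h577

open Module Filter Pool.Agent.N770

/-- powers of a span -/
theorem span_pow_range {R A ι : Type*} [CommSemiring R] [CommSemiring A] [Algebra R A]
    (z : ι → A) (m : ℕ) : (Submodule.span R (Set.range z)) ^ m =
      Submodule.span R (Set.range (fun f : Fin m → ι => ∏ i, z (f i))) := by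
  induction m with
  | zero =>
    rw [pow_zero, Submodule.one_eq_span]
    congr 1
    ext x
    constructor
    · intro hx
      rw [Set.mem_singleton_iff] at hx
      exact ⟨Fin.elim0, by rw [hx]; simp⟩
    · rintro ⟨f, rfl⟩
      simp
  | succ m ih =>
    rw [pow_succ, ih, Submodule.span_mul_span]
    congr 1
    ext x
    constructor
    · rintro ⟨_, ⟨f, rfl⟩, _, ⟨j, rfl⟩, rfl⟩
      refine ⟨Fin.snoc f j, ?_⟩
      change ∏ i, z ((Fin.snoc f j : Fin (m + 1) → ι) i) = (∏ i, z (f i)) * z j
      rw [Fin.prod_univ_castSucc]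
      simp only [Fin.snoc_castSucc, Fin.snoc_last]
    · rintro ⟨f, rfl⟩
      refine ⟨_, ⟨fun i => f i.castSucc, rfl⟩, _, ⟨f (Fin.last m), rfl⟩, ?_⟩
      change (∏ i : Fin m, z (f i.castSucc)) * z (f (Fin.last m)) = ∏ i, z (f i)
      rw [Fin.prod_univ_castSucc]

/-- **Ultraproducts**, with surjective maps. -/
theorem exists_ultra2 {I : Type} (𝒰 : Ultrafilter I) (k L : Type) [Field k] [IsAlgClosed k]
    [CharZero k] [Field L] [Algebra k L] :
    ∃ (K U : Type) (_ : Field K) (_ : IsAlgClosed K) (_ : CharZero K) (_ : Field U)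
      (_ : Algebra K U) (g : (I → k) →+* K) (gL : (I → L) →+* U),
      Function.Surjective g ∧ Function.Surjective gL ∧
      (∀ f, g f = 0 ↔ ∀ᶠ i in (𝒰 : Filter I), f i = 0) ∧
      (∀ f, gL f = 0 ↔ ∀ᶠ i in (𝒰 : Filter I), f i = 0) ∧
      (∀ a, algebraMap K U (g a) = gL (fun i => algebraMap k L (a i))) := by
  refine ⟨Germ (𝒰 : Filter I) k, Germ (𝒰 : Filter I) L, inferInstance,
    isAlgClosed_germ 𝒰 k, ?_, inferInstance, (germMapr 𝒰 (algebraMap k L)).toAlgebra, ghr 𝒰 k,
    ghr 𝒰 L, ghr_surj 𝒰 k, ghr_surj 𝒰 L, ghr_eq_zero 𝒰, ghr_eq_zero 𝒰, fun a => rfl⟩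
  exact charZero_of_injective_ringHom
    ((ghr 𝒰 k).comp (Pi.constRingHom I k)).injective

section transfer

variable {J k M K U : Type} (𝒰 : Ultrafilter J) [Field k] [Field M] [Algebra k M] [Field K]
  [Field U] [Algebra K U] (g : (J → k) →+* K) (gM : (J → M) →+* U)
  (hgs : Function.Surjective g) (hgMs : Function.Surjective gM)
  (hg : ∀ f, g f = 0 ↔ ∀ᶠ i in (𝒰 : Filter J), f i = 0)
  (hgM : ∀ f, gM f = 0 ↔ ∀ᶠ i in (𝒰 : Filter J), f i = 0)
  (hp : ∀ a, algebraMap K U (g a) = gM (fun i => algebraMap k M (a i)))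

include hgM in
theorem t_eq (f f' : J → M) : gM f = gM f' ↔ ∀ᶠ i in (𝒰 : Filter J), f i = f' i := by
  rw [← sub_eq_zero, ← map_sub, hgM]
  constructor
  · exact fun h => h.mono fun i hi => sub_eq_zero.mp hi
  · exact fun h => h.mono fun i hi => sub_eq_zero.mpr hi

include hp in
theorem t_combo {ι : Type} [Fintype ι] (z : ι → J → M) (c : ι → J → k) :
    gM (fun N => ∑ i, c i N • z i N) = ∑ i, g (c i) • gM (z i) := by
  have h1 : (fun N => ∑ i, c i N • z i N) =
      ∑ i, (fun N => algebraMap k M (c i N)) * z i := by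
    funext N
    rw [Finset.sum_apply]
    refine Finset.sum_congr rfl fun i _ => ?_
    rw [Algebra.smul_def]
    rfl
  rw [h1, map_sum]
  refine Finset.sum_congr rfl fun i _ => ?_
  rw [map_mul, ← hp, Algebra.smul_def]

include hgs hg hgM hp in
theorem t_li {ι : Type} [Fintype ι] (z : ι → J → M) :
    LinearIndependent K (fun i => gM (z i)) ↔
      ∀ᶠ N in (𝒰 : Filter J), LinearIndependent k (fun i => z i N) := by
  classical
  constructor
  · intro h
    by_contra hcon
    rw [← Ultrafilter.eventually_not] at hcon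
    have hex : ∀ N, ∃ ε : ι → k, ¬ LinearIndependent k (fun i => z i N) →
        ∑ i, ε i • z i N = 0 ∧ ∃ i, ε i ≠ 0 := by
      intro N
      by_cases h : LinearIndependent k (fun i => z i N)
      · exact ⟨0, fun h' => absurd h h'⟩
      · obtain ⟨ε, h1, h2⟩ := Fintype.not_linearIndependent_iff.mp h
        exact ⟨ε, fun _ => ⟨h1, h2⟩⟩
    choose ε hε using hex
    have h1 : ∑ i, g (fun N => ε N i) • gM (z i) = 0 := by
      rw [← t_combo g gM hp z (fun i N => ε N i), hgM]
      exact hcon.mono fun N hN => (hε N hN).1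
    have h3 := Fintype.linearIndependent_iff.mp h (fun i => g (fun N => ε N i)) h1
    have h4 : ∀ᶠ N in (𝒰 : Filter J), ∀ i, ε N i = 0 := by
      rw [Filter.eventually_all]
      intro i
      exact (hg _).mp (h3 i)
    obtain ⟨N, hN1, hN2⟩ := (h4.and hcon).exists
    obtain ⟨i, hi⟩ := (hε N hN2).2
    exact hi (hN1 i)
  · intro h
    rw [Fintype.linearIndependent_iff]
    intro c hc i
    choose c' hc' using fun i => hgs (c i)
    have h1 : gM (fun N => ∑ i, c' i N • z i N) = 0 := by
      rw [t_combo g gM hp z c', ← hc]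
      refine Finset.sum_congr rfl fun i _ => ?_
      rw [hc']
    rw [hgM] at h1
    rw [← hc' i, hg]
    refine (h1.and h).mono fun N hN => ?_
    exact Fintype.linearIndependent_iff.mp hN.2 (fun i => c' i N) hN.1 i

include hgs hgM hp in
theorem t_mem {ι : Type} [Fintype ι] (z : ι → J → M) (f : J → M) :
    gM f ∈ Submodule.span K (Set.range fun i => gM (z i)) ↔
      ∀ᶠ N in (𝒰 : Filter J), f N ∈ Submodule.span k (Set.range fun i => z i N) := by
  classical
  constructor
  · intro h
    obtain ⟨c, hc⟩ := (Submodule.mem_span_range_iff_exists_fun K).mp h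
    choose c' hc' using fun i => hgs (c i)
    have h1 : gM f = gM (fun N => ∑ i, c' i N • z i N) := by
      rw [t_combo g gM hp z c', ← hc]
      refine Finset.sum_congr rfl fun i _ => ?_
      rw [hc']
    rw [t_eq 𝒰 gM hgM] at h1
    refine h1.mono fun N hN => ?_
    rw [hN]
    exact Submodule.sum_mem _ fun i _ => Submodule.smul_mem _ _ (Submodule.subset_span ⟨i, rfl⟩)
  · intro h
    have hex : ∀ N, ∃ c : ι → k, f N ∈ Submodule.span k (Set.range fun i => z i N) →
        ∑ i, c i • z i N = f N := by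
      intro N
      by_cases h : f N ∈ Submodule.span k (Set.range fun i => z i N)
      · obtain ⟨c, hc⟩ := (Submodule.mem_span_range_iff_exists_fun k).mp h
        exact ⟨c, fun _ => hc⟩
      · exact ⟨0, fun h' => absurd h' h⟩
    choose c hc using hex
    have h1 : gM f = gM (fun N => ∑ i, c N i • z i N) := by
      rw [t_eq 𝒰 gM hgM]
      exact h.mono fun N hN => (hc N hN).symm
    rw [h1, t_combo g gM hp z (fun i N => c N i)]
    exact Submodule.sum_mem _ fun i _ => Submodule.smul_mem _ _ (Submodule.subset_span ⟨i, rfl⟩)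

include hgs hg hgM hp in
theorem t_finrank {ι : Type} [Fintype ι] (z : ι → J → M) :
    ∀ᶠ N in (𝒰 : Filter J), finrank k (Submodule.span k (Set.range fun i => z i N)) =
      finrank K (Submodule.span K (Set.range fun i => gM (z i))) := by
  classical
  obtain ⟨κ, a, ha, hsp, hli⟩ := exists_linearIndependent' K (fun i => gM (z i))
  have hfin : Finite κ := Finite.of_injective a ha
  let _ : Fintype κ := Fintype.ofFinite κ
  have h1 : ∀ᶠ N in (𝒰 : Filter J), LinearIndependent k (fun i : κ => z (a i) N) :=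
    (t_li 𝒰 g gM hgs hg hgM hp (fun i : κ => z (a i))).mp hli
  have h2 : ∀ᶠ N in (𝒰 : Filter J), ∀ i, z i N ∈
      Submodule.span k (Set.range fun i : κ => z (a i) N) := by
    rw [Filter.eventually_all]
    intro i
    refine (t_mem 𝒰 g gM hgs hgM hp (fun i : κ => z (a i)) (z i)).mp ?_
    have h3 : gM (z i) ∈ Submodule.span K (Set.range fun i => gM (z i)) :=
      Submodule.subset_span ⟨i, rfl⟩
    rw [← hsp] at h3
    exact h3
  have h3 : finrank K (Submodule.span K (Set.range fun i => gM (z i))) = Fintype.card κ := by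
    rw [← hsp]
    exact finrank_span_eq_card hli
  refine (h1.and h2).mono fun N hN => ?_
  have h4 : Submodule.span k (Set.range fun i => z i N) =
      Submodule.span k (Set.range fun i : κ => z (a i) N) := by
    apply le_antisymm
    · rw [Submodule.span_le]
      rintro _ ⟨i, rfl⟩
      exact hN.2 i
    · rw [Submodule.span_le]
      rintro _ ⟨i, rfl⟩
      exact Submodule.subset_span ⟨a i, rfl⟩
  rw [h3, ← finrank_span_eq_card hN.1, h4]

include hgs hgMs hg hgM hp in
theorem t_grows {n : ℕ} (l : Fin n → J → M)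
    (hG : ∀ᶠ N in (𝒰 : Filter J), Grows k (Submodule.span k (Set.range fun i => l i N))) :
    Grows K (Submodule.span K (Set.range fun i => gM (l i))) := by
  classical
  intro W hW hWV h1W m hm
  set r := finrank K W with hr
  let b := finBasis K W
  choose z hz using fun i : Fin r => hgMs (b i : U)
  have hspan : Submodule.span K (Set.range fun i => gM (z i)) = W := by
    have h1 : (fun i => gM (z i)) = fun i => (b i : U) := funext hz
    rw [h1]
    have h2 := congrArg (Submodule.map W.subtype) b.span_eq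
    rw [Submodule.map_span, Submodule.map_subtype_top, ← Set.range_comp] at h2
    exact h2
  have hpow : ∀ m : ℕ, ∀ᶠ N in (𝒰 : Filter J),
      finrank k ((Submodule.span k (Set.range fun i => z i N)) ^ m : Submodule k M) =
        finrank K (W ^ m : Submodule K U) := by
    intro m
    have h1 := t_finrank 𝒰 g gM hgs hg hgM hp (fun (f : Fin m → Fin r) N => ∏ i, z (f i) N)
    have h3 : (fun f : Fin m → Fin r => gM (fun N => ∏ i, z (f i) N)) =
        fun f => ∏ i, gM (z (f i)) := by
      funext f
      have h2 : (fun N => ∏ i, z (f i) N) = ∏ i, z (f i) := by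
        funext N
        rw [Finset.prod_apply]
      rw [h2, map_prod]
    rw [h3] at h1
    refine h1.mono fun N hN => ?_
    rw [span_pow_range, hN, ← hspan, span_pow_range]
  have hle : ∀ᶠ N in (𝒰 : Filter J), ∀ i, z i N ∈
      Submodule.span k (Set.range fun i => l i N) := by
    rw [Filter.eventually_all]
    intro i
    refine (t_mem 𝒰 g gM hgs hgM hp l (z i)).mp ?_
    rw [hz]
    exact hWV (b i).2
  have h1m : ∀ᶠ N in (𝒰 : Filter J), (1 : M) ∈ Submodule.span k (Set.range fun i => z i N) := by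
    refine (t_mem 𝒰 g gM hgs hgM hp z (1 : J → M)).mp ?_
    rw [map_one, hspan]
    exact h1W
  obtain ⟨N, ⟨⟨⟨⟨hN1, hN2⟩, hN3⟩, hN4⟩, hN5⟩, hN6⟩ :=
    (((((hpow m).and (hpow (m + 1))).and (hpow 1)).and hle).and h1m |>.and hG).exists
  have hfd : FiniteDimensional k (Submodule.span k (Set.range fun i => z i N)) :=
    FiniteDimensional.span_of_finite k (Set.finite_range _)
  have key := hN6 (Submodule.span k (Set.range fun i => z i N)) hfd (by
    rw [Submodule.span_le]
    rintro _ ⟨i, rfl⟩
    exact hN4 i) hN5 m hm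
  rw [pow_one, pow_one] at hN3
  rw [hN1, hN2, hN3] at key
  exact key

include hgs hgMs hg hgM hp in
theorem t_six {n : ℕ} (l : Fin n → J → M)
    (h6 : ∀ᶠ N in (𝒰 : Filter J), SixExp k (Submodule.span k (Set.range fun i => l i N))) :
    SixExp K (Submodule.span K (Set.range fun i => gM (l i))) := by
  classical
  intro y hy w hw hwV hywV
  obtain ⟨y', rfl⟩ := hgMs y
  choose w' hw' using fun j => hgMs (w j)
  have h1 : ∀ᶠ N in (𝒰 : Filter J), LinearIndependent k (fun j => w' j N) := by
    refine (t_li 𝒰 g gM hgs hg hgM hp w').mp ?_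
    have : (fun j => gM (w' j)) = w := funext hw'
    rw [this]
    exact hw
  have h2 : ∀ᶠ N in (𝒰 : Filter J), ∀ j, w' j N ∈
      Submodule.span k (Set.range fun i => l i N) := by
    rw [Filter.eventually_all]
    intro j
    refine (t_mem 𝒰 g gM hgs hgM hp l (w' j)).mp ?_
    rw [hw']
    exact hwV j
  have h3 : ∀ᶠ N in (𝒰 : Filter J), ∀ j, y' N * w' j N ∈
      Submodule.span k (Set.range fun i => l i N) := by
    rw [Filter.eventually_all]
    intro j
    refine (t_mem 𝒰 g gM hgs hgM hp l (y' * w' j)).mp ?_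
    rw [map_mul, hw']
    exact hywV j
  have h4 : ∀ᶠ N in (𝒰 : Filter J), ¬ ∃ c : k, y' N = algebraMap k M c := by
    rw [Ultrafilter.eventually_not]
    intro hcon
    have hex : ∀ N, ∃ c : k, (∃ c : k, y' N = algebraMap k M c) → y' N = algebraMap k M c := by
      intro N
      by_cases h : ∃ c : k, y' N = algebraMap k M c
      · obtain ⟨c, hc⟩ := h
        exact ⟨c, fun _ => hc⟩
      · exact ⟨0, fun h' => absurd h' h⟩
    choose c hc using hex
    apply hy (g c)
    rw [hp, t_eq 𝒰 gM hgM]
    exact hcon.mono fun N hN => hc N hN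
  obtain ⟨N, ⟨⟨⟨hN1, hN2⟩, hN3⟩, hN4⟩, hN5⟩ := ((((h1.and h2).and h3).and h4).and h6).exists
  exact hN5 (y' N) (fun c hc => hN4 ⟨c, hc⟩) (fun j => w' j N) hN1 hN2 hN3

end transfer

end Run7.h577
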