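import Pool.Agent.Run7.h577.T22
import Pool.Agent.Run7.h577.T26
import Pool.Agent.Run7.h577.T27

/-!
# Uniform versions
-/

set_option autoImplicit false

namespace Run7.h577

open Module Filter Pool.Agent.W256 Pool.Agent.N770

theorem Grows.mono {k M : Type*} [Field k] [Field M] [Algebra k M] {S V : Submodule k M}
    (hS : Grows k S) (hV : V ≤ S) : Grows k V := fun W hW hWV h1 m hm =>
  hS W hW (hWV.trans hV) h1 m hm

theorem SixExp.mono {k M : Type*} [Field k] [Field M] [Algebra k M] {S V : Submodule k M}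
    (hS : SixExp k S) (hV : V ≤ S) : SixExp k V := fun y hy w hw h1 h2 =>
  hS y hy w hw (fun j => hV (h1 j)) (fun j => hV (h2 j))

/-- limits of polynomials in several variables -/
theorem lift_mv {k K : Type} [Field k] [Field K] (𝒰 : Ultrafilter ℕ)
    (g : (ℕ → k) →+* K) (hgs : Function.Surjective g)
    (hg : ∀ f, g f = 0 ↔ ∀ᶠ i in (𝒰 : Filter ℕ), f i = 0) {m : ℕ} (F : MvPolynomial (Fin m) K)
    (hF : F ≠ 0) :
    ∃ f : ℕ → MvPolynomial (Fin m) k, (∀ N, (f N).totalDegree ≤ F.totalDegree) ∧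
      (∀ᶠ N in (𝒰 : Filter ℕ), f N ≠ 0) ∧
      ∀ x : ℕ → Fin m → k, g (fun N => MvPolynomial.eval (x N) (f N)) =
        MvPolynomial.eval (fun t => g (fun N => x N t)) F := by
  classical
  choose c hc using fun s => hgs (F.coeff s)
  refine ⟨fun N => ∑ s ∈ F.support, MvPolynomial.monomial s (c s N), ?_, ?_, ?_⟩
  · intro N
    apply MvPolynomial.totalDegree_finsetSum_le
    intro s hs
    exact (MvPolynomial.totalDegree_monomial_le _ _).trans (MvPolynomial.le_totalDegree hs)
  · obtain ⟨s, hs⟩ := MvPolynomial.support_nonempty.mpr hF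
    have h1 : ∀ᶠ N in (𝒰 : Filter ℕ), ¬ c s N = 0 := by
      rw [Ultrafilter.eventually_not]
      intro h
      rw [← hg, hc] at h
      exact (MvPolynomial.mem_support_iff.mp hs) h
    refine h1.mono fun N hN h0 => hN ?_
    have h2 := congrArg (MvPolynomial.coeff s) h0
    rw [MvPolynomial.coeff_sum, Finset.sum_eq_single s, MvPolynomial.coeff_monomial, if_pos rfl,
      MvPolynomial.coeff_zero] at h2
    · exact h2
    · intro t _ hts
      rw [MvPolynomial.coeff_monomial, if_neg hts]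
    · intro h
      exact absurd hs h
  · intro x
    have h1 : (fun N => MvPolynomial.eval (x N) (∑ s ∈ F.support,
        MvPolynomial.monomial s (c s N))) =
        ∑ s ∈ F.support, c s * ∏ t, (fun N => x N t) ^ s t := by
      funext N
      rw [map_sum, Finset.sum_apply]
      refine Finset.sum_congr rfl fun s _ => ?_
      rw [MvPolynomial.eval_monomial, Pi.mul_apply, Finset.prod_apply, Finsupp.prod_fintype]
      · rfl
      · intro i
        exact pow_zero _
    rw [h1, map_sum, MvPolynomial.eval_eq']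
    refine Finset.sum_congr rfl fun s _ => ?_
    rw [map_mul, hc, map_prod]
    congr 1
    refine Finset.prod_congr rfl fun t _ => ?_
    rw [map_pow]

section uniform

variable {k M : Type} [Field k] [IsAlgClosed k] [CharZero k] [Field M] [Algebra k M]
  (S : Submodule k M) (hS : Grows k S) (h1S : (1 : M) ∈ S)

include hS h1S

/-- **Uniform version**: dependent pairs have at most `2 D` parameters. -/
theorem few_uniform_aux (h6 : SixExp k S) (n D : ℕ) (σ : Fin (2 * D + 1) → Fin 2 × Fin n) :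
    ∃ B : ℕ, ∀ l : Fin n → M, (∀ j, l j ∈ S) →
      LinearIndependent k (Fin.cons 1 l : Fin (n + 1) → M) →
      ∃ f : MvPolynomial (Fin (2 * D + 1)) k, f ≠ 0 ∧ f.totalDegree ≤ B ∧
        ∀ A : Fin 2 × Fin n → k, RowsLI A →
          Rel k D (∑ j, A (0, j) • l j) (∑ j, A (1, j) • l j) →
          MvPolynomial.eval (A ∘ σ) f = 0 := by
  classical
  by_contra hcon
  push Not at hcon
  choose l hlS hl hbad using hcon
  set 𝒰 : Ultrafilter ℕ := Filter.hyperfilter ℕ with h𝒰
  obtain ⟨K, U, _, _, _, _, _, g, gM, hgs, hgMs, hg, hgM, hp⟩ := exists_ultra2 𝒰 k M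
  let lc : Fin (n + 1) → ℕ → M := fun i N => (Fin.cons 1 (l N) : Fin (n + 1) → M) i
  have hlcS : ∀ N, Submodule.span k (Set.range fun i => lc i N) ≤ S := by
    intro N
    rw [Submodule.span_le]
    rintro _ ⟨i, rfl⟩
    change (Fin.cons 1 (l N) : Fin (n + 1) → M) i ∈ S
    refine Fin.cases ?_ (fun i => ?_) i
    · exact h1S
    · exact hlS N i
  have hG₁ := t_grows 𝒰 g gM hgs hgMs hg hgM hp lc
    (Filter.Eventually.of_forall fun N => Grows.mono hS (hlcS N))
  have h6₁ := t_six 𝒰 g gM hgs hgMs hg hgM hp lc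
    (Filter.Eventually.of_forall fun N => SixExp.mono h6 (hlcS N))
  set V₁ : Submodule K U := Submodule.span K (Set.range fun i => gM (lc i)) with hV₁
  let l₁ : Fin n → U := fun j => gM (fun N => l N j)
  have hcons : (fun i => gM (lc i)) = (Fin.cons 1 l₁ : Fin (n + 1) → U) := by
    funext i
    refine Fin.cases ?_ (fun i => ?_) i
    · change gM (fun N => 1) = 1
      exact map_one gM
    · rfl
  have hl₁ : LinearIndependent K (Fin.cons 1 l₁ : Fin (n + 1) → U) := by
    rw [← hcons]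
    exact (t_li 𝒰 g gM hgs hg hgM hp lc).mpr (Filter.Eventually.of_forall fun N => hl N)
  have h1V₁ : (1 : U) ∈ V₁ := by
    rw [hV₁, hcons]
    exact Submodule.subset_span ⟨0, by rw [Fin.cons_zero]⟩
  have hl₁V : ∀ j, l₁ j ∈ V₁ := by
    intro j
    rw [hV₁, hcons]
    exact Submodule.subset_span ⟨j.succ, by rw [Fin.cons_succ]⟩
  obtain ⟨F, hF0, hF⟩ := few_gen V₁ hG₁ h6₁ h1V₁ l₁ hl₁ hl₁V D σ
  obtain ⟨f, hfd, hf0, hfe⟩ := lift_mv 𝒰 g hgs hg F hF0
  have hgood : ∀ᶠ N in (𝒰 : Filter ℕ), f N ≠ 0 ∧ F.totalDegree ≤ N := by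
    refine hf0.and ?_
    exact (Filter.eventually_ge_atTop F.totalDegree).filter_mono Nat.hyperfilter_le_atTop
  have hex : ∀ N, ∃ (A : Fin 2 × Fin n → k) (P : MvPolynomial (Fin 2) k), P ≠ 0 ∧
      P.totalDegree ≤ D ∧ ((f N ≠ 0 ∧ F.totalDegree ≤ N) → RowsLI A ∧
        MvPolynomial.aeval ![∑ j, A (0, j) • l N j, ∑ j, A (1, j) • l N j] P = 0 ∧
        MvPolynomial.eval (A ∘ σ) (f N) ≠ 0) := by
    intro N
    by_cases h : f N ≠ 0 ∧ F.totalDegree ≤ N
    · obtain ⟨A, hA1, ⟨P, hP0, hPD, hP⟩, hA2⟩ := hbad N (f N) h.1 ((hfd N).trans h.2)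
      exact ⟨A, P, hP0, hPD, fun _ => ⟨hA1, hP, hA2⟩⟩
    · refine ⟨0, 1, one_ne_zero, ?_, fun h' => absurd h' h⟩
      rw [MvPolynomial.totalDegree_one]
      exact Nat.zero_le _
  choose A P hP0 hPD hAP using hex
  have hrow : RowsLI (fun s => g (fun N => A N s)) := by
    intro α β hαβ
    obtain ⟨a, rfl⟩ := hgs α
    obtain ⟨b, rfl⟩ := hgs β
    have h1 : ∀ᶠ N in (𝒰 : Filter ℕ), ∀ j, a N * A N (0, j) + b N * A N (1, j) = 0 := by
      rw [Filter.eventually_all]
      intro j
      have h2 : g (a * (fun N => A N (0, j)) + b * fun N => A N (1, j)) = 0 := by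
        rw [map_add, map_mul, map_mul]
        exact hαβ j
      exact (hg _).mp h2
    have h2 := (h1.and hgood).mono fun N hN => (hAP N hN.2).1 _ _ hN.1
    exact ⟨(hg _).mpr (h2.mono fun N hN => hN.1), (hg _).mpr (h2.mono fun N hN => hN.2)⟩
  have hrel : Rel K D (∑ j, g (fun N => A N (0, j)) • l₁ j) (∑ j, g (fun N => A N (1, j)) • l₁ j) := by
    refine ⟨lim g P D, lim_ne_zero g 𝒰 hg P D hPD hP0, totalDegree_lim g P D, ?_⟩
    rw [← t_combo g gM hp (fun j N => l N j) (fun j N => A N (0, j)),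
      ← t_combo g gM hp (fun j N => l N j) (fun j N => A N (1, j)), MvPolynomial.aeval_def,
      eval₂_lim g gM (algebraMap K U) hp P D hPD, hgM]
    exact hgood.mono fun N hN => (hAP N hN).2.1
  have h1 := hF _ hrow hrel
  have h2 := hfe (fun N => A N ∘ σ)
  have h3 : g (fun N => MvPolynomial.eval (A N ∘ σ) (f N)) = 0 := h2.trans h1
  rw [hg] at h3
  obtain ⟨N, hN1, hN2⟩ := (h3.and hgood).exists
  exact (hAP N hN2).2.2 hN1

/-- **Uniform covering theorem.** -/
theorem cover_uniform (n D : ℕ) :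
    ∃ C : ℕ, ∀ l : Fin n → M, (∀ j, l j ∈ S) →
      ∃ W : Fin C → Submodule k M,
        (∀ c, W c ≤ Submodule.span k (Set.range (Fin.cons 1 l : Fin (n + 1) → M)) ∧ 1 ∈ W c ∧
          finrank k (W c) ^ 2 / 4 ≤ D) ∧
        ∀ u ∈ Submodule.span k (Set.range (Fin.cons 1 l : Fin (n + 1) → M)),
          ∀ v ∈ Submodule.span k (Set.range (Fin.cons 1 l : Fin (n + 1) → M)),
          Rel k D u v → ¬ Param k D u v → ∃ c, u ∈ W c ∧ v ∈ W c := by
  classical
  by_contra hcon
  push Not at hcon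
  choose l hlS hbad using hcon
  set 𝒰 : Ultrafilter ℕ := Filter.hyperfilter ℕ with h𝒰
  obtain ⟨K, U, _, _, _, _, _, g, gM, hgs, hgMs, hg, hgM, hp⟩ := exists_ultra2 𝒰 k M
  let lc : Fin (n + 1) → ℕ → M := fun i N => (Fin.cons 1 (l N) : Fin (n + 1) → M) i
  have hlcS : ∀ N, Submodule.span k (Set.range fun i => lc i N) ≤ S := by
    intro N
    rw [Submodule.span_le]
    rintro _ ⟨i, rfl⟩
    change (Fin.cons 1 (l N) : Fin (n + 1) → M) i ∈ S
    refine Fin.cases ?_ (fun i => ?_) i
    · exact h1S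
    · exact hlS N i
  have hG₁ := t_grows 𝒰 g gM hgs hgMs hg hgM hp lc
    (Filter.Eventually.of_forall fun N => Grows.mono hS (hlcS N))
  set V₁ : Submodule K U := Submodule.span K (Set.range fun i => gM (lc i)) with hV₁
  have hV₁fd : FiniteDimensional K V₁ := FiniteDimensional.span_of_finite K (Set.finite_range _)
  have h1V₁ : (1 : U) ∈ V₁ := by
    refine Submodule.subset_span ⟨0, ?_⟩
    change gM (fun N => 1) = 1
    exact map_one gM
  obtain ⟨𝒲, h𝒲f, h𝒲, hcov⟩ := cover_grows2 V₁ hG₁ V₁ le_rfl h1V₁ D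
  set C₁ := h𝒲f.toFinset.card with hC₁
  let eq := h𝒲f.toFinset.equivFin
  let w : Fin C₁ → Submodule K U := fun c => (eq.symm c).1
  have hw𝒲 : ∀ c, w c ∈ 𝒲 := fun c => h𝒲f.mem_toFinset.mp (eq.symm c).2
  have hwsurj : ∀ W ∈ 𝒲, ∃ c, w c = W := by
    intro W hW
    refine ⟨eq ⟨W, h𝒲f.mem_toFinset.mpr hW⟩, ?_⟩
    simp only [w, Equiv.symm_apply_apply]
  have hwfd : ∀ c, FiniteDimensional K (w c) := fun c =>
    Submodule.finiteDimensional_of_le (h𝒲 _ (hw𝒲 c)).1
  have hz : ∀ c, ∃ z : Fin (finrank K (w c)) → ℕ → M,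
      Submodule.span K (Set.range fun i => gM (z i)) = w c := by
    intro c
    have := hwfd c
    let b := finBasis K (w c)
    choose z hz using fun i : Fin (finrank K (w c)) => hgMs (b i : U)
    refine ⟨z, ?_⟩
    have h1 : (fun i => gM (z i)) = fun i => (b i : U) := funext hz
    rw [h1]
    have h2 := congrArg (Submodule.map (w c).subtype) b.span_eq
    rw [Submodule.map_span, Submodule.map_subtype_top, ← Set.range_comp] at h2
    exact h2
  choose z hzspan using hz
  let WN : Fin C₁ → ℕ → Submodule k M := fun c N => Submodule.span k (Set.range fun i => z c i N)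
  let VN : ℕ → Submodule k M := fun N =>
    Submodule.span k (Set.range (Fin.cons 1 (l N) : Fin (n + 1) → M))
  let Good : ℕ → Prop := fun N => C₁ ≤ N ∧ ∀ c, WN c N ≤ VN N ∧ 1 ∈ WN c N ∧
    finrank k (WN c N) ^ 2 / 4 ≤ D
  have hgood : ∀ᶠ N in (𝒰 : Filter ℕ), Good N := by
    refine Filter.Eventually.and
      ((Filter.eventually_ge_atTop C₁).filter_mono Nat.hyperfilter_le_atTop) ?_
    rw [Filter.eventually_all]
    intro c
    refine Filter.Eventually.and ?_ (Filter.Eventually.and ?_ ?_)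
    · have h1 : ∀ᶠ N in (𝒰 : Filter ℕ), ∀ i, z c i N ∈
          Submodule.span k (Set.range fun i => lc i N) := by
        rw [Filter.eventually_all]
        intro i
        refine (t_mem 𝒰 g gM hgs hgM hp lc (z c i)).mp ?_
        apply (h𝒲 _ (hw𝒲 c)).1
        rw [← hzspan c]
        exact Submodule.subset_span ⟨i, rfl⟩
      refine h1.mono fun N hN => ?_
      change Submodule.span k _ ≤ _
      rw [Submodule.span_le]
      rintro _ ⟨i, rfl⟩
      exact hN i
    · refine (t_mem 𝒰 g gM hgs hgM hp (z c) (1 : ℕ → M)).mp ?_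
      rw [map_one, hzspan]
      exact (h𝒲 _ (hw𝒲 c)).2.1
    · refine (t_finrank 𝒰 g gM hgs hg hgM hp (z c)).mono fun N hN => ?_
      change finrank k (Submodule.span k (Set.range fun i => z c i N)) ^ 2 / 4 ≤ D
      rw [hN, hzspan]
      exact (h𝒲 _ (hw𝒲 c)).2.2
  have hex : ∀ N, ∃ (u v : M) (P : MvPolynomial (Fin 2) k), P ≠ 0 ∧
      P.totalDegree ≤ D ∧ (Good N → u ∈ VN N ∧ v ∈ VN N ∧
        MvPolynomial.aeval ![u, v] P = 0 ∧ ¬ Param k D u v ∧ ∀ c, u ∈ WN c N → v ∉ WN c N) := by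
    intro N
    by_cases h : Good N
    · obtain ⟨u, hu, v, hv, ⟨P, hP0, hPD, hP⟩, hpar, hc⟩ := hbad N
        (fun i => if h : (i : ℕ) < C₁ then WN ⟨i, h⟩ N else Submodule.span k {1}) (by
          intro i
          by_cases hi : (i : ℕ) < C₁
          · have e1 : (if h : (i : ℕ) < C₁ then WN ⟨i, h⟩ N else Submodule.span k {1}) =
                WN ⟨i, hi⟩ N := dif_pos hi
            rw [e1]
            exact h.2 _
          · have e1 : (if h : (i : ℕ) < C₁ then WN ⟨i, h⟩ N else Submodule.span k {1}) =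
                Submodule.span k {1} := dif_neg hi
            rw [e1]
            refine ⟨?_, Submodule.mem_span_singleton_self _, ?_⟩
            · rw [Submodule.span_singleton_le_iff_mem]
              exact Submodule.subset_span ⟨0, by rw [Fin.cons_zero]⟩
            · have h1 : finrank k (Submodule.span k {(1 : M)}) ≤ 1 := by
                have := finrank_span_le_card (R := k) ({(1 : M)} : Set M)
                simpa using this
              have h2 : finrank k (Submodule.span k {(1 : M)}) ^ 2 / 4 ≤ 1 ^ 2 / 4 :=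
                Nat.div_le_div_right (Nat.pow_le_pow_left h1 2)
              omega)
      refine ⟨u, v, P, hP0, hPD, fun _ => ⟨hu, hv, hP, hpar, ?_⟩⟩
      intro c hcu
      have h1 := hc ⟨c, lt_of_lt_of_le c.2 h.1⟩
      simp only [dif_pos c.2] at h1
      exact h1 hcu
    · refine ⟨0, 0, 1, one_ne_zero, ?_, fun h' => absurd h' h⟩
      rw [MvPolynomial.totalDegree_one]
      exact Nat.zero_le _
  choose u v P hP0 hPD hAP using hex
  have huV : gM u ∈ V₁ := by
    refine (t_mem 𝒰 g gM hgs hgM hp lc u).mpr ?_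
    exact hgood.mono fun N hN => (hAP N hN).1
  have hvV : gM v ∈ V₁ := by
    refine (t_mem 𝒰 g gM hgs hgM hp lc v).mpr ?_
    exact hgood.mono fun N hN => (hAP N hN).2.1
  have hrel : Rel K D (gM u) (gM v) := by
    refine ⟨lim g P D, lim_ne_zero g 𝒰 hg P D hPD hP0, totalDegree_lim g P D, ?_⟩
    rw [MvPolynomial.aeval_def, eval₂_lim g gM (algebraMap K U) hp P D hPD, hgM]
    exact hgood.mono fun N hN => (hAP N hN).2.2.1
  have hpar : ¬ Param K D (gM u) (gM v) := by
    intro h
    obtain ⟨N, hN1, hN2⟩ := ((lift_param 𝒰 g gM hgs hgM hp D u v h).and hgood).exists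
    exact (hAP N hN2).2.2.2.1 hN1
  obtain ⟨W, hW, hWu, hWv⟩ := hcov _ huV _ hvV hrel hpar
  obtain ⟨c, rfl⟩ := hwsurj W hW
  rw [← hzspan c] at hWu hWv
  have h1 := (t_mem 𝒰 g gM hgs hgM hp (z c) u).mp hWu
  have h2 := (t_mem 𝒰 g gM hgs hgM hp (z c) v).mp hWv
  obtain ⟨N, ⟨hN1, hN2⟩, hN3⟩ := ((h1.and h2).and hgood).exists
  exact (hAP N hN3).2.2.2.2 c hN1 hN2

end uniform

end Run7.h577
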