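import Pool.Agent.Run7.h577.T18

/-!
# Pencils; the part of a space in the field of a pair
-/

set_option autoImplicit false

namespace Run7.h577

open Module Polynomial IntermediateField Pool.Agent.W256 Pool.Agent.N770

/-- **Pencils of linear maps** -/
theorem pencil {K A V : Type*} [Field K] [IsAlgClosed K] [AddCommGroup A] [Module K A]
    [FiniteDimensional K A] [AddCommGroup V] [Module K V] [FiniteDimensional K V]
    (Ξ₀ Ξ₁ : A →ₗ[K] V) (E B : Submodule K V) (hEB : E ≤ B) (hE : finrank K E = 1)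
    (h0 : ∀ a, Ξ₀ a ∈ B → Ξ₁ a ∈ B) (hc : ∀ (c : K) (a : A), Ξ₁ a - c • Ξ₀ a ∈ B → Ξ₀ a ∈ B)
    (hinj : ∀ a, Ξ₀ a ∈ E → Ξ₁ a ∈ E → a = 0) (n w : ℕ) (hBw : finrank K B ≤ w)
    (hV : finrank K V ≤ n + 1) (hwn : w ≤ n) : finrank K A ≤ n + w - 2 := by
  classical
  let T0 : Submodule K A := B.comap Ξ₀
  have hT1 : T0 ≤ B.comap Ξ₁ := fun a ha => h0 a ha
  -- the dimension of `T0`
  let B' : Submodule K (V ⧸ E) := B.map E.mkQ
  have hB' : finrank K B' + 1 = finrank K B := by
    have h1 := LinearMap.finrank_range_add_finrank_ker (E.mkQ.domRestrict B)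
    have h2 : LinearMap.range (E.mkQ.domRestrict B) = B' := by
      ext x
      constructor
      · rintro ⟨a, rfl⟩
        exact ⟨a, a.2, rfl⟩
      · rintro ⟨a, ha, rfl⟩
        exact ⟨⟨a, ha⟩, rfl⟩
    have h3 : finrank K (LinearMap.ker (E.mkQ.domRestrict B)) = 1 := by
      rw [← hE]
      have h4 : (LinearMap.ker (E.mkQ.domRestrict B)).map B.subtype = E := by
        ext x
        constructor
        · rintro ⟨a, ha, rfl⟩
          exact (Submodule.Quotient.mk_eq_zero E).mp ha
        · intro hx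
          exact ⟨⟨x, hEB hx⟩, (Submodule.Quotient.mk_eq_zero E).mpr hx, rfl⟩
      rw [← (Submodule.equivMapOfInjective B.subtype Subtype.val_injective
        (LinearMap.ker (E.mkQ.domRestrict B))).finrank_eq.symm, h4]
    rw [h2, h3] at h1
    exact h1
  have hT0 : finrank K T0 ≤ 2 * finrank K B' := by
    let f : T0 →ₗ[K] B' × B' :=
      (((E.mkQ.comp Ξ₀).comp T0.subtype).codRestrict B' (fun a => ⟨Ξ₀ a, a.2, rfl⟩)).prod
        (((E.mkQ.comp Ξ₁).comp T0.subtype).codRestrict B' (fun a => ⟨Ξ₁ a, hT1 a.2, rfl⟩))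
    have hf : Function.Injective f := by
      rw [← LinearMap.ker_eq_bot, LinearMap.ker_eq_bot']
      intro a ha
      have h1 : E.mkQ (Ξ₀ a) = 0 := congrArg (fun z : B' × B' => (z.1 : V ⧸ E)) ha
      have h2 : E.mkQ (Ξ₁ a) = 0 := congrArg (fun z : B' × B' => (z.2 : V ⧸ E)) ha
      exact Subtype.ext (hinj a ((Submodule.Quotient.mk_eq_zero E).mp h1)
        ((Submodule.Quotient.mk_eq_zero E).mp h2))
    have h1 := LinearMap.finrank_le_finrank_of_injective hf
    rw [Module.finrank_prod] at h1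
    omega
  have hsumA := Submodule.finrank_quotient_add_finrank T0
  have hsumV := Submodule.finrank_quotient_add_finrank B
  have hBpos : 1 ≤ finrank K B := by omega
  by_cases hnt : Nontrivial (V ⧸ B)
  · have hlt : finrank K (A ⧸ T0) < finrank K (V ⧸ B) := by
      by_contra hcon
      push Not at hcon
      let Ξ₀' : (A ⧸ T0) →ₗ[K] (V ⧸ B) := T0.mapQ B Ξ₀ le_rfl
      let Ξ₁' : (A ⧸ T0) →ₗ[K] (V ⧸ B) := T0.mapQ B Ξ₁ hT1
      have hi : Function.Injective Ξ₀' := by
        rw [← LinearMap.ker_eq_bot, LinearMap.ker_eq_bot']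
        intro x hx
        obtain ⟨a, rfl⟩ := T0.mkQ_surjective x
        have h1 : B.mkQ (Ξ₀ a) = 0 := hx
        exact (Submodule.Quotient.mk_eq_zero T0).mpr ((Submodule.Quotient.mk_eq_zero B).mp h1)
      have heq : finrank K (A ⧸ T0) = finrank K (V ⧸ B) :=
        le_antisymm (LinearMap.finrank_le_finrank_of_injective hi) hcon
      have hs : Function.Surjective Ξ₀' :=
        (LinearMap.injective_iff_surjective_of_finrank_eq_finrank heq).mp hi
      let φ : (A ⧸ T0) ≃ₗ[K] (V ⧸ B) := LinearEquiv.ofBijective Ξ₀' ⟨hi, hs⟩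
      obtain ⟨c, hc'⟩ := Module.End.exists_eigenvalue (K := K)
        (Ξ₁'.comp φ.symm.toLinearMap : Module.End K (V ⧸ B))
      obtain ⟨x, hx⟩ := hc'.exists_hasEigenvector
      have hx1 : Ξ₁' (φ.symm x) = c • x := hx.apply_eq_smul
      obtain ⟨a, ha⟩ := T0.mkQ_surjective (φ.symm x)
      have hx2 : Ξ₀' (φ.symm x) = x := φ.apply_symm_apply x
      have h1 : B.mkQ (Ξ₁ a - c • Ξ₀ a) = 0 := by
        have e1 : Ξ₁' (T0.mkQ a) = B.mkQ (Ξ₁ a) := rfl
        have e2 : Ξ₀' (T0.mkQ a) = B.mkQ (Ξ₀ a) := rfl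
        rw [map_sub, map_smul, ← e1, ← e2, ha, hx1, hx2, sub_self]
      have h2 := hc c a ((Submodule.Quotient.mk_eq_zero B).mp h1)
      apply hx.2
      rw [← hx2, ← ha]
      exact (Submodule.Quotient.mk_eq_zero B).mpr h2
    omega
  · have h1 : finrank K (V ⧸ B) = 0 := by
      rw [not_nontrivial_iff_subsingleton] at hnt
      exact Module.finrank_zero_of_subsingleton
    have h2 : B = ⊤ := by
      apply Submodule.eq_top_of_finrank_eq
      omega
    have h3 : T0 = ⊤ := by
      rw [eq_top_iff]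
      intro a _
      change Ξ₀ a ∈ B
      rw [h2]
      trivial
    rw [h3, finrank_top] at hT0
    omega

/-- the part of a bounded space which lies in the field generated by a pair -/
theorem inf_pow_le {K U : Type*} [Field K] [Field U] [Algebra K U] [IsAlgClosed K] [CharZero K]
    (V : Submodule K U) [FiniteDimensional K V] (u v : U)
    (T : Finset K) (hT : ∀ t ∉ T, V ≤ intSub K (u + algebraMap K U t * v) 1)
    (D : ℕ) (P : MvPolynomial (Fin 2) K) (hP : P ≠ 0) (hPD : P.totalDegree ≤ D)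
    (huv : MvPolynomial.aeval ![u, v] P = 0) (hvt : Transcendental K v) (m : ℕ) :
    finrank K ((V ⊓ Subalgebra.toSubmodule (adjoin K {u, v}).toSubalgebra : Submodule K U) ^ m :
      Submodule K U) ≤ m * D + 1 := by
  classical
  set F : IntermediateField K U := adjoin K {u, v} with hF
  have huF : u ∈ F := subset_adjoin _ _ (Set.mem_insert _ _)
  have hvF : v ∈ F := subset_adjoin _ _ (Set.mem_insert_of_mem _ rfl)
  let u' : F := ⟨u, huF⟩
  let v' : F := ⟨v, hvF⟩
  have hP' : MvPolynomial.aeval ![u', v'] P = 0 := by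
    apply Subtype.val_injective
    have h2 := MvPolynomial.aeval_algebraMap_apply (A := F) (B := U) ![u', v'] P
    have h3 : (algebraMap F U) ∘ ![u', v'] = ![u, v] := by
      funext i
      fin_cases i <;> rfl
    rw [h3, huv] at h2
    exact h2.symm
  have hFtop : adjoin K {u', v'} = (⊤ : IntermediateField K F) := by
    rw [eq_top_iff]
    intro x _
    have h2 : (adjoin K {u', v'}).map F.val = adjoin K {u, v} := by
      rw [adjoin_map, Set.image_pair]
      rfl
    have h3 : (x : U) ∈ (adjoin K {u', v'}).map F.val := by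
      rw [h2]; exact x.2
    obtain ⟨y, hy, hyx⟩ := h3
    have : y = x := Subtype.val_injective hyx
    rwa [← this]
  have hv't : Transcendental K v' := by
    intro h
    apply hvt
    exact h.algebraMap (A := U)
  obtain ⟨θ, hθ0, hθ⟩ := degree_le u' v' P hP hP' hFtop
  obtain ⟨t, ht⟩ := Infinite.exists_notMem_finset (T ∪ θ.roots.toFinset.image (fun x => -x))
  rw [Finset.mem_union, not_or] at ht
  have ht1 : θ.eval (-t) ≠ 0 := by
    intro h0
    apply ht.2
    rw [Finset.mem_image]
    refine ⟨-t, ?_, neg_neg t⟩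
    rw [Multiset.mem_toFinset]
    exact (mem_roots hθ0).mpr h0
  obtain ⟨hfin, hdeg⟩ := hθ t ht1
  have hxt : Transcendental K (u' + algebraMap K F t * v') := by
    intro h
    apply hv't
    have h2 : Algebra.IsAlgebraic K K⟮u' + algebraMap K F t * v'⟯ :=
      isAlgebraic_adjoin_simple h.isIntegral
    have h3 : Algebra.IsAlgebraic K F :=
      Algebra.IsAlgebraic.trans K K⟮u' + algebraMap K F t * v'⟯ F
    exact Algebra.IsAlgebraic.isAlgebraic v'
  have hfd : FiniteDimensional K
      (V ⊓ Subalgebra.toSubmodule (adjoin K {u, v}).toSubalgebra : Submodule K U) :=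
    Submodule.finiteDimensional_of_le inf_le_left
  exact pow_le (V ⊓ Subalgebra.toSubmodule (adjoin K {u, v}).toSubalgebra : Submodule K U) u v
    (fun x hx => hx.2) D t (inf_le_left.trans (hT t ht.1)) huF hvF hxt hfin
    (hdeg.trans hPD) m

end Run7.h577
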