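import Pool.Agent.Run7.h577.T14
import Pool.Agent.Run7.h577.T29

/-!
# The ultraproduct argument, with the part of the minimal space in the field of the pair
-/

set_option autoImplicit false

namespace Run7.h577

open Module Polynomial Filter Pool.Agent.W256 Pool.Agent.N770

/-- The ultraproduct argument, with the part of the minimal space in the field of the pair. -/
theorem ultra_core4 {I k L K U : Type} (𝒰 : Ultrafilter I) [Field k] [IsAlgClosed k] [CharZero k]
    [Field L] [Algebra k L] [Field K] [IsAlgClosed K] [CharZero K] [Field U]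
    (g : (I → k) →+* K) (gL : (I → L) →+* U) (p : K →+* U) (hgs : Function.Surjective g)
    (hg : ∀ f, g f = 0 ↔ ∀ᶠ i in (𝒰 : Filter I), f i = 0)
    (hgL : ∀ f, gL f = 0 ↔ ∀ᶠ i in (𝒰 : Filter I), f i = 0)
    (hp : ∀ a, p (g a) = gL (fun i => algebraMap k L (a i)))
    (V : Submodule k L) [FiniteDimensional k V] (h1 : (1 : L) ∈ V)
    (hdep : ∀ x ∈ V, ∀ y ∈ V, ∃ Q : MvPolynomial (Fin 2) k, Q ≠ 0 ∧
      MvPolynomial.aeval ![x, y] Q = 0)
    (D : ℕ) (u v : I → L) (P : I → MvPolynomial (Fin 2) k) (hu : ∀ i, u i ∈ V)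
    (hv : ∀ i, v i ∈ V) (hP0 : ∀ i, P i ≠ 0) (hPD : ∀ i, (P i).totalDegree ≤ D)
    (hP : ∀ i, MvPolynomial.aeval ![u i, v i] (P i) = 0)
    (hvt : @Transcendental K U _ _ p.toAlgebra (gL v)) :
    letI : Algebra K U := p.toAlgebra
    ∃ W : Submodule k L, W ≤ V ∧ 1 ∈ W ∧
      (∀ᶠ i in (𝒰 : Filter I), u i ∈ W ∧ v i ∈ W) ∧
      (∀ m, finrank K ((Submodule.span K ((fun z => gL (fun _ => z)) '' (W : Set L)) ⊓
        Subalgebra.toSubmodule (IntermediateField.adjoin K {gL u, gL v}).toSubalgebra :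
          Submodule K U) ^ m : Submodule K U) ≤ m * D + 1) ∧
      (¬ Param K D (gL u) (gL v) →
        ∀ m, finrank k (W ^ m : Submodule k L) ≤ m * D + 1) := by
  classical
  set i0 : k →+* K := g.comp (Pi.constRingHom I k) with hi0
  set q : L →+* U := gL.comp (Pi.constRingHom I L) with hq
  let aKU : Algebra K U := p.toAlgebra
  let akK : Algebra k K := i0.toAlgebra
  have hpq : ∀ a, p (i0 a) = q (algebraMap k L a) := fun a => hp (fun _ => a)
  have hsm : ∀ (c : K) (x : U), c • x = p c * x := fun c x => rfl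
  have hch : CharZero U := charZero_of_injective_ringHom p.injective
  -- linear disjointness
  have hdis : ∀ (ι : Type) (s : Finset ι) (z : ι → L) (c : ι → K), LinearIndependent k z →
      ∑ m ∈ s, p (c m) * q (z m) = 0 → ∀ m ∈ s, c m = 0 := by
    intro J s z c hz hsum m hm
    choose c' hc' using fun m => hgs (c m)
    have e1 : ∑ m ∈ s, p (c m) * q (z m) =
        gL (∑ m ∈ s, (fun i => algebraMap k L (c' m i)) * fun _ => z m) := by
      rw [map_sum]
      refine Finset.sum_congr rfl fun m _ => ?_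
      rw [map_mul, ← hc' m, hp]
      rfl
    rw [e1, hgL] at hsum
    rw [← hc' m, hg]
    refine hsum.mono fun b hb => ?_
    rw [Finset.sum_apply] at hb
    have e2 : ∑ m ∈ s, c' m b • z m = 0 := by
      rw [← hb]
      refine Finset.sum_congr rfl fun m _ => ?_
      rw [Algebra.smul_def]
      rfl
    exact linearIndependent_iff'.1 hz s (fun m => c' m b) e2 m hm
  -- spans
  let SK : Submodule k L → Submodule K U := fun W => Submodule.span K (q '' (W : Set L))
  have hSKmem : ∀ (W : Submodule k L) (w : L), w ∈ W → q w ∈ SK W := fun W w hw =>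
    Submodule.subset_span ⟨w, hw, rfl⟩
  have hM1 : ∀ (W : Submodule k L) (f : I → L), gL f ∈ SK W →
      ∀ᶠ i in (𝒰 : Filter I), f i ∈ W := by
    intro W f hf
    have hrep : ∀ x ∈ SK W, ∃ f : I → L, (∀ i, f i ∈ W) ∧ gL f = x := by
      intro x hx
      induction hx using Submodule.span_induction with
      | mem x hx =>
        obtain ⟨w, hw, rfl⟩ := hx
        exact ⟨fun _ => w, fun _ => hw, rfl⟩
      | zero => exact ⟨0, fun _ => W.zero_mem, map_zero _⟩
      | add x y _ _ hx hy =>
        obtain ⟨f, hf, rfl⟩ := hx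
        obtain ⟨f', hf', rfl⟩ := hy
        exact ⟨f + f', fun i => W.add_mem (hf i) (hf' i), map_add _ _ _⟩
      | smul c x _ hx =>
        obtain ⟨f, hf, rfl⟩ := hx
        obtain ⟨a, rfl⟩ := hgs c
        refine ⟨(fun i => algebraMap k L (a i)) * f, fun i => ?_, ?_⟩
        · rw [Pi.mul_apply, ← Algebra.smul_def]
          exact W.smul_mem _ (hf i)
        · rw [map_mul, ← hp]
          rfl
    obtain ⟨f', hf', hff⟩ := hrep _ hf
    have h2 : gL (f' - f) = 0 := by rw [map_sub, hff, sub_self]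
    rw [hgL] at h2
    refine h2.mono fun i hi => ?_
    have h3 : f i = f' i := (sub_eq_zero.mp hi).symm
    rw [h3]
    exact hf' i
  have hM2 : ∀ (W : Submodule k L), FiniteDimensional k W → ∀ (f : I → L),
      (∀ᶠ i in (𝒰 : Filter I), f i ∈ W) → gL f ∈ SK W := by
    intro W hW f hf
    let b := finBasis k W
    let c : Fin (finrank k W) → I → k := fun j i => if h : f i ∈ W then b.repr ⟨f i, h⟩ j else 0
    have h2 : gL (f - ∑ j, (fun i => algebraMap k L (c j i)) * (fun _ => (b j : L))) = 0 := by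
      rw [hgL]
      refine hf.mono fun i hi => ?_
      rw [Pi.sub_apply, Finset.sum_apply, sub_eq_zero]
      have h3 := congrArg Subtype.val (b.sum_repr ⟨f i, hi⟩)
      rw [Submodule.coe_sum] at h3
      have h4 : f i = ∑ j, ((b.repr ⟨f i, hi⟩ j • b j : W) : L) := h3.symm
      conv_lhs => rw [h4]
      refine Finset.sum_congr rfl fun j _ => ?_
      change _ = algebraMap k L (c j i) * (b j : L)
      rw [← Algebra.smul_def]
      simp only [c, dif_pos hi]
      rfl
    rw [map_sub, sub_eq_zero, map_sum] at h2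
    rw [h2]
    refine Submodule.sum_mem _ fun j _ => ?_
    rw [map_mul, ← hp]
    exact (SK W).smul_mem (g (c j)) (hSKmem W _ (b j).2)
  -- the minimal subspace
  let Good : Submodule k L → Prop := fun W => W ≤ V ∧ 1 ∈ W ∧
    ∀ᶠ i in (𝒰 : Filter I), u i ∈ W ∧ v i ∈ W
  have hex : ∃ n, ∃ W, Good W ∧ finrank k W = n :=
    ⟨_, V, ⟨le_rfl, h1, Filter.Eventually.of_forall fun i => ⟨hu i, hv i⟩⟩, rfl⟩
  obtain ⟨V', hV'G, hV'n⟩ := Nat.find_spec hex
  obtain ⟨hV'V, h1V', hV'ev⟩ := hV'G
  have hV'fd : FiniteDimensional k V' := Submodule.finiteDimensional_of_le hV'V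
  have hMin : ∀ W : Submodule k L, W ≤ V' → 1 ∈ W → gL u ∈ SK W → gL v ∈ SK W → W = V' := by
    intro W hW hW1 hWu hWv
    have hG : Good W := ⟨hW.trans hV'V, hW1, (hM1 W u hWu).and (hM1 W v hWv)⟩
    have h2 := Nat.find_min' hex ⟨W, hG, rfl⟩
    rw [← hV'n] at h2
    exact Submodule.eq_of_le_of_finrank_le hW h2
  set n := finrank k V' with hn
  let b : Basis (Fin n) k V' := finBasis k V'
  let bq : Fin n → U := fun j => q (b j : L)
  set VK : Submodule K U := SK V' with hVK
  have huVK : gL u ∈ VK := hM2 V' hV'fd u (hV'ev.mono fun i hi => hi.1)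
  have hvVK : gL v ∈ VK := hM2 V' hV'fd v (hV'ev.mono fun i hi => hi.2)
  have hbqV : ∀ j, bq j ∈ VK := fun j => hSKmem V' _ (b j).2
  have hqsm : ∀ (a : k) (z : L), q (a • z) = i0 a • q z := by
    intro a z
    rw [Algebra.smul_def, map_mul, ← hpq]
    rfl
  have hqsum : ∀ a : Fin n → k, q (∑ j, a j • (b j : L)) = ∑ j, i0 (a j) • bq j := by
    intro a
    rw [map_sum]
    exact Finset.sum_congr rfl fun j _ => hqsm _ _
  have hVKspan : VK ≤ Submodule.span K (Set.range bq) := by
    rw [hVK, Submodule.span_le]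
    rintro _ ⟨w, hw, rfl⟩
    have h3 := congrArg Subtype.val (b.sum_repr ⟨w, hw⟩)
    rw [Submodule.coe_sum] at h3
    have h4 : w = ∑ j, (b.repr ⟨w, hw⟩ j) • (b j : L) := by
      conv_lhs => rw [show w = ((⟨w, hw⟩ : V') : L) from rfl, ← h3]
      rfl
    rw [h4, hqsum]
    exact Submodule.sum_mem _ fun j _ => Submodule.smul_mem _ _ (Submodule.subset_span ⟨j, rfl⟩)
  have hVKfd : FiniteDimensional K VK := by
    have : FiniteDimensional K (Submodule.span K (Set.range bq)) :=
      FiniteDimensional.span_of_finite K (Set.finite_range bq)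
    exact Submodule.finiteDimensional_of_le hVKspan
  have h1VK : (1 : U) ∈ VK := by
    have := hSKmem V' 1 h1V'
    rwa [map_one] at this
  have hcoord : ∀ x ∈ VK, ∃ γ : Fin n → K, x = ∑ j, γ j • bq j := by
    intro x hx
    obtain ⟨γ, hγ⟩ := (Submodule.mem_span_range_iff_exists_fun K).mp (hVKspan hx)
    exact ⟨γ, hγ.symm⟩
  -- derivations
  let 𝒟 : Set (Derivation ℤ U U) := {δ | (∀ c : K, ∃ c', δ (p c) = p c') ∧ ∀ z : L, δ (q z) = 0}
  let 𝒹 : Set (K → K) := {d | ∃ δ ∈ 𝒟, ∀ c, δ (p c) = p (d c)}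
  have hcon : ∀ c, (∀ d ∈ 𝒹, d c = 0) → ∃ a, c = i0 a := by
    intro c hc
    by_contra hna
    have htr : Transcendental k c := by
      intro halg
      exact hna (exists_const c halg)
    have hinj : Function.Injective (MvPolynomial.eval₂Hom i0 ![c]) := by
      have h3 : AlgebraicIndependent k ![c] := by
        rw [algebraicIndependent_unique_type_iff]
        exact htr
      exact h3
    obtain ⟨d, hd1, hd2⟩ := Pool.Agent.TH519.GL.exists_partial i0 ![c] hinj 0
    obtain ⟨δ, hδ1, hδ2⟩ := Pool.Agent.TH519.GL.exists_ext_der i0 p q hpq hdis d hd1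
    have h4 := hc (fun c => d c) ⟨δ, ⟨fun c => ⟨_, hδ1 c⟩, hδ2⟩, hδ1⟩
    have h5 := hd2 0
    rw [if_pos rfl] at h5
    rw [Matrix.cons_val_fin_one] at h5
    rw [h5] at h4
    exact one_ne_zero h4
  have hDV : ∀ δ ∈ 𝒟, ∀ w ∈ VK, δ w ∈ VK := by
    rintro δ ⟨hδ1, hδ2⟩ w hw
    induction hw using Submodule.span_induction with
    | mem x hx =>
      obtain ⟨z, -, rfl⟩ := hx
      rw [hδ2]
      exact VK.zero_mem
    | zero => rw [map_zero]; exact VK.zero_mem
    | add x y _ _ hx hy => rw [map_add]; exact VK.add_mem hx hy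
    | smul c x hx' hx =>
      obtain ⟨c', hc'⟩ := hδ1 c
      rw [hsm, δ.leibniz, smul_eq_mul, smul_eq_mul, hc', mul_comm x]
      exact VK.add_mem (VK.smul_mem c hx) (VK.smul_mem c' hx')
  -- the relation
  have hPstar := eval₂_lim g gL p hp P D hPD u v
  have hPstar0 : MvPolynomial.aeval ![gL u, gL v] (lim g P D) = 0 := by
    rw [MvPolynomial.aeval_def]
    change MvPolynomial.eval₂ p _ _ = 0
    rw [hPstar, hgL]
    exact Filter.Eventually.of_forall hP
  have hPne := lim_ne_zero g 𝒰 hg P D hPD hP0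
  -- bounding
  obtain ⟨T, hT⟩ := bounding (k := k) h1VK bq hbqV hVKspan (by
    intro i j
    obtain ⟨Q, hQ0, hQ⟩ := hdep _ (hV'V (b i).2) _ (hV'V (b j).2)
    refine ⟨Q, hQ0, ?_⟩
    rw [MvPolynomial.aeval_def, MvPolynomial.eval₂_map]
    have e1 : (algebraMap K U).comp (algebraMap k K) = q.comp (algebraMap k L) :=
      RingHom.ext hpq
    have e2 : ![bq i, bq j] = q ∘ ![(b i : L), (b j : L)] := by
      funext l
      fin_cases l <;> rfl
    rw [e1, e2]
    have e3 := MvPolynomial.hom_eval₂ Q (algebraMap k L) q ![(b i : L), (b j : L)]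
    change MvPolynomial.eval₂ (q.comp (algebraMap k L)) (fun l => q (![(b i : L), (b j : L)] l)) Q
      = 0
    rw [← e3, ← MvPolynomial.aeval_def, hQ, map_zero]) (gL u) (gL v) huVK hvVK (by
    intro κ lam hlam hlam1 hlamu hlamv
    by_contra hκ
    obtain ⟨j₀, hj₀⟩ : ∃ j, κ j ≠ 0 := by
      by_contra h
      push Not at h
      exact hκ (funext h)
    let κ' : V' →ₗ[k] k := b.constr k κ
    have hκ'b : ∀ j, κ' (b j) = κ j := fun j => b.constr_basis k κ j
    let W : Submodule k L := (LinearMap.ker κ').map V'.subtype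
    have hWV' : W ≤ V' := by
      rintro _ ⟨x, -, rfl⟩
      exact x.2
    have hlamq : ∀ (w : L) (hw : w ∈ V'), lam ⟨q w, hSKmem V' w hw⟩ = i0 (κ' ⟨w, hw⟩) := by
      intro w hw
      have h3 := b.sum_repr ⟨w, hw⟩
      have h4 : w = ∑ j, (b.repr ⟨w, hw⟩ j) • (b j : L) := by
        have := congrArg Subtype.val h3
        rw [Submodule.coe_sum] at this
        conv_lhs => rw [show w = ((⟨w, hw⟩ : V') : L) from rfl, ← this]
        rfl
      have h5 : (⟨q w, hSKmem V' w hw⟩ : VK) =
          ∑ j, i0 (b.repr ⟨w, hw⟩ j) • (⟨bq j, hbqV j⟩ : VK) := by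
        apply Subtype.ext
        rw [Submodule.coe_sum]
        change q w = ∑ j, i0 (b.repr ⟨w, hw⟩ j) • bq j
        rw [← hqsum, ← h4]
      rw [h5, map_sum]
      conv_rhs => rw [← h3, map_sum, map_sum]
      refine Finset.sum_congr rfl fun j _ => ?_
      rw [map_smul, map_smul, hlam, hκ'b, smul_eq_mul, smul_eq_mul, map_mul]
      rfl
    have h1W : (1 : L) ∈ W := by
      refine ⟨⟨1, h1V'⟩, ?_, rfl⟩
      rw [SetLike.mem_coe, LinearMap.mem_ker]
      have h3 := hlamq 1 h1V'
      have h4 : (⟨q 1, hSKmem V' 1 h1V'⟩ : VK) = ⟨1, h1VK⟩ := Subtype.ext (map_one q)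
      rw [h4, hlam1] at h3
      exact (map_eq_zero i0).mp h3.symm
    have hcov : ∀ (x : U) (hx : x ∈ VK), lam ⟨x, hx⟩ = 0 → x ∈ SK W := by
      intro x hx hlx
      obtain ⟨γ, hγ⟩ := hcoord x hx
      have h3 : ∑ j, γ j * i0 (κ j) = 0 := by
        have h4 : (⟨x, hx⟩ : VK) = ∑ j, γ j • (⟨bq j, hbqV j⟩ : VK) := by
          apply Subtype.ext
          rw [Submodule.coe_sum]
          exact hγ
        rw [h4, map_sum] at hlx
        rw [← hlx]
        refine Finset.sum_congr rfl fun j _ => ?_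
        rw [map_smul, hlam, smul_eq_mul]
        rfl
      have h5 : x = ∑ j, γ j • q ((b j : L) - (κ j / κ j₀) • (b j₀ : L)) := by
        have h6 : ∀ j, γ j • q ((b j : L) - (κ j / κ j₀) • (b j₀ : L)) =
            γ j • bq j - (γ j * i0 (κ j)) • ((i0 (κ j₀))⁻¹ • bq j₀) := by
          intro j
          rw [map_sub, hqsm, smul_sub, smul_smul, smul_smul, map_div₀, div_eq_mul_inv, mul_assoc]
        rw [Finset.sum_congr rfl fun j _ => h6 j, Finset.sum_sub_distrib, ← Finset.sum_smul, h3,
          zero_smul, sub_zero, hγ]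
      rw [h5]
      refine Submodule.sum_mem _ fun j _ => (SK W).smul_mem _ (hSKmem W _ ?_)
      refine ⟨b j - (κ j / κ j₀) • b j₀, ?_, rfl⟩
      rw [SetLike.mem_coe, LinearMap.mem_ker, map_sub, map_smul, hκ'b, hκ'b, smul_eq_mul,
        div_mul_cancel₀ _ hj₀, sub_self]
    have h7 := hMin W hWV' h1W (hcov _ huVK hlamu) (hcov _ hvVK hlamv)
    have h8 : ((b j₀ : V') : L) ∈ W := by rw [h7]; exact (b j₀).2
    obtain ⟨y, hy, hyb⟩ := h8
    have h9 : y = b j₀ := Subtype.ext hyb
    rw [h9] at hy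
    exact hj₀ (by rw [← hκ'b]; exact hy)) (lim g P D) hPne hPstar0
  refine ⟨V', hV'V, h1V', hV'ev, ?_, ?_⟩
  · intro m
    exact inf_pow_le VK (gL u) (gL v) T hT D (lim g P D) hPne (totalDegree_lim g P D) hPstar0 hvt m
  intro hpar m
  -- rigidity
  have hrig := rigid_dich' VK h1VK 𝒟 (fun δ hδ c => hδ.1 c) hDV (gL u) (gL v) huVK hvVK (by
    intro N hNV hN1 hNu hNv hND
    let Φ : (Fin n → K) →ₗ[K] U := Fintype.linearCombination K bq
    have hΦ : ∀ γ, Φ γ = ∑ j, γ j • bq j := fun γ => Fintype.linearCombination_apply K bq γ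
    let N' : Submodule K (Fin n → K) := N.comap Φ
    have hdesc := descent i0 𝒹 (by
      rintro d ⟨δ, -, hd⟩
      have := hd 0
      rw [map_zero, map_zero] at this
      exact ((map_eq_zero p).mp this.symm)) (by
      rintro d ⟨δ, -, hd⟩
      have := hd 1
      rw [map_one, δ.map_one_eq_zero] at this
      exact ((map_eq_zero p).mp this.symm)) hcon N' (by
      rintro d ⟨δ, hδ, hd⟩ c hc
      change Φ (fun j => d (c j)) ∈ N
      have h3 : Φ (fun j => d (c j)) = δ (Φ c) := by
        rw [hΦ, hΦ, map_sum]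
        refine Finset.sum_congr rfl fun j _ => ?_
        rw [hsm, hsm, δ.leibniz, smul_eq_mul, smul_eq_mul, hδ.2, mul_zero, zero_add, hd, mul_comm]
      rw [h3]
      exact hND δ hδ _ hc)
    let Nk : Submodule k L :=
      { carrier := {z | q z ∈ N}
        add_mem' := fun {a b} ha hb => by
          change q (a + b) ∈ N
          rw [map_add]
          exact N.add_mem ha hb
        zero_mem' := by
          change q 0 ∈ N
          rw [map_zero]
          exact N.zero_mem
        smul_mem' := fun c x hx => by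
          change q (c • x) ∈ N
          rw [hqsm]
          exact N.smul_mem _ hx }
    let W : Submodule k L := V' ⊓ Nk
    have hcov : ∀ x ∈ N, x ∈ SK W := by
      intro x hx
      obtain ⟨γ, hγ⟩ := hcoord x (hNV hx)
      have h3 : γ ∈ N' := by
        change Φ γ ∈ N
        rw [hΦ, ← hγ]
        exact hx
      have h4 := hdesc γ h3
      rw [hγ, ← hΦ]
      clear hγ h3
      induction h4 using Submodule.span_induction with
      | mem c hc =>
        obtain ⟨hcN, a, rfl⟩ := hc
        rw [hΦ, ← hqsum]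
        apply hSKmem
        refine ⟨Submodule.sum_mem _ fun j _ => V'.smul_mem _ (b j).2, ?_⟩
        change q _ ∈ N
        rw [hqsum, ← hΦ]
        exact hcN
      | zero => rw [map_zero]; exact (SK W).zero_mem
      | add x y _ _ hx hy => rw [map_add]; exact (SK W).add_mem hx hy
      | smul c x _ hx => rw [map_smul]; exact (SK W).smul_mem c hx
    have h5 := hMin W inf_le_left ⟨h1V', by
      change q 1 ∈ N
      rw [map_one]
      exact hN1⟩ (hcov _ hNu) (hcov _ hNv)
    rw [hVK, Submodule.span_le]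
    rintro _ ⟨w, hw, rfl⟩
    have h6 : w ∈ W := by rw [h5]; exact hw
    exact h6.2) T hT D (lim g P D) hPne (totalDegree_lim g P D) hPstar0 hvt hpar
  refine le_trans ?_ (hrig m)
  have hpow : ∀ m : ℕ, ∀ x ∈ V' ^ m, q x ∈ VK ^ m := by
    intro m
    induction m with
    | zero =>
      intro x hx
      rw [pow_zero, Submodule.mem_one] at hx
      obtain ⟨c, rfl⟩ := hx
      rw [← hpq, pow_zero, Submodule.mem_one]
      exact ⟨i0 c, rfl⟩
    | succ m ih =>
      intro x hx
      rw [pow_succ] at hx ⊢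
      induction hx using Submodule.mul_induction_on' with
      | mem_mul_mem x hx y hy =>
        rw [map_mul]
        exact Submodule.mul_mem_mul (ih x hx) (hSKmem V' y hy)
      | add x _ y _ hx hy => rw [map_add]; exact add_mem hx hy
  have hfdm : FiniteDimensional k (V' ^ m : Submodule k L) :=
    Module.Finite.iff_fg.mpr (Submodule.FG.pow (Module.Finite.iff_fg.mp inferInstance) m)
  have hfdK : FiniteDimensional K (VK ^ m : Submodule K U) :=
    Module.Finite.iff_fg.mpr (Submodule.FG.pow (Module.Finite.iff_fg.mp inferInstance) m)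
  let bm := finBasis k (V' ^ m : Submodule k L)
  have hli : LinearIndependent K (fun j => (⟨q (bm j : L), hpow m _ (bm j).2⟩ :
      (VK ^ m : Submodule K U))) := by
    apply LinearIndependent.of_comp (VK ^ m : Submodule K U).subtype
    rw [linearIndependent_iff']
    intro s c hc j hj
    have hz : LinearIndependent k (fun j => (bm j : L)) :=
      bm.linearIndependent.map' (Submodule.subtype _) (Submodule.ker_subtype _)
    exact hdis _ s (fun j => (bm j : L)) c hz hc j hj
  have h10 := hli.fintype_card_le_finrank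
  rwa [Fintype.card_fin] at h10


end Run7.h577
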