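import Pool.Agent.Run7.h577.T24
import Pool.Agent.Run7.h577.T27
import Pool.Agent.Run7.h577.T30

/-!
# A second bound for the number of parameters
-/

set_option autoImplicit false

namespace Run7.h577

open Module Polynomial Filter IntermediateField Pool.Agent.W256 Pool.Agent.N770

/-- the derivations attached to independent coordinates of a pair -/
theorem few_setup {I k L K U : Type} (𝒰 : Ultrafilter I) [Field k]
    [Field L] [Algebra k L] [Field K] [CharZero K] [Field U]
    (g : (I → k) →+* K) (gL : (I → L) →+* U) (p : K →+* U) (hgs : Function.Surjective g)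
    (hg : ∀ f, g f = 0 ↔ ∀ᶠ i in (𝒰 : Filter I), f i = 0)
    (hgL : ∀ f, gL f = 0 ↔ ∀ᶠ i in (𝒰 : Filter I), f i = 0)
    (hp : ∀ a, p (g a) = gL (fun i => algebraMap k L (a i)))
    {n : ℕ} (e : Fin n → L) (he : LinearIndependent k (Fin.cons 1 e : Fin (n + 1) → L))
    (A : I → Fin 2 × Fin n → k)
    (hrow : ∀ i, ∀ α β : k, (∀ j, α * A i (0, j) + β * A i (1, j) = 0) → α = 0 ∧ β = 0)
    (N : ℕ) (σ : Fin N → Fin 2 × Fin n)
    (hσ : Function.Injective (MvPolynomial.eval₂Hom (g.comp (Pi.constRingHom I k))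
      (fun t => g (fun i => A i (σ t))))) :
    ∃ (δ : Fin N → Derivation ℤ U U) (d : Fin N → K → K),
      (∀ t c, δ t (p c) = p (d t c)) ∧ (∀ t (z : L), δ t (gL (fun _ => z)) = 0) ∧
      (∀ γ : Fin N → K, ∀ c c' : K,
        ∑ t, p (γ t) * δ t (gL fun i => ∑ j, A i (0, j) • e j) = p c →
        ∑ t, p (γ t) * δ t (gL fun i => ∑ j, A i (1, j) • e j) = p c' → γ = 0) ∧
      (∀ c c' : K, gL (fun i => ∑ j, A i (1, j) • e j) ≠
        p c * gL (fun i => ∑ j, A i (0, j) • e j) + p c') ∧
      (∀ c : K, gL (fun i => ∑ j, A i (0, j) • e j) ≠ p c) := by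
  classical
  have hch : CharZero U := charZero_of_injective_ringHom p.injective
  set i0 : k →+* K := g.comp (Pi.constRingHom I k) with hi0
  set q : L →+* U := gL.comp (Pi.constRingHom I L) with hq
  have hpq : ∀ a, p (i0 a) = q (algebraMap k L a) := fun a => hp (fun _ => a)
  have hdis : ∀ (ι : Type) (s : Finset ι) (z : ι → L) (c : ι → K), LinearIndependent k z →
      ∑ m ∈ s, p (c m) * q (z m) = 0 → ∀ m ∈ s, c m = 0 := fun ι s z c hz h =>
    udis 𝒰 g gL p hgs hg hgL hp ι s z c hz h
  have hcomb : ∀ (c0 : K) (c : Fin n → K), p c0 + ∑ j, p (c j) * q (e j) = 0 →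
      c0 = 0 ∧ ∀ j, c j = 0 := by
    intro c0 c h
    have h1 := hdis (Fin (n + 1)) Finset.univ (Fin.cons 1 e : Fin (n + 1) → L)
      (Fin.cons c0 c : Fin (n + 1) → K) he (by
        rw [Fin.sum_univ_succ, ← h]
        simp only [Fin.cons_zero, Fin.cons_succ, map_one, mul_one])
    refine ⟨h1 0 (Finset.mem_univ _), fun j => ?_⟩
    have := h1 j.succ (Finset.mem_univ _)
    rwa [Fin.cons_succ] at this
  set X : Fin 2 × Fin n → K := fun s => g (fun i => A i s) with hX
  have hexp : ∀ a : Fin 2, gL (fun i => ∑ j, A i (a, j) • e j) = ∑ j, p (X (a, j)) * q (e j) := by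
    intro a
    have h1 : (fun i => ∑ j, A i (a, j) • e j) =
        ∑ j, (fun i => algebraMap k L (A i (a, j))) * fun _ => e j := by
      funext i
      rw [Finset.sum_apply]
      refine Finset.sum_congr rfl fun j _ => ?_
      rw [Algebra.smul_def]
      rfl
    rw [h1, map_sum]
    refine Finset.sum_congr rfl fun j _ => ?_
    rw [map_mul, ← hp]
    rfl
  choose d hd1 hd2 using fun t => Pool.Agent.TH519.GL.exists_partial i0 (fun t => X (σ t)) hσ t
  choose δ hδ1 hδ2 using fun t => Pool.Agent.TH519.GL.exists_ext_der i0 p q hpq hdis (d t) (hd1 t)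
  have hδe : ∀ (a : Fin 2) t, δ t (∑ j, p (X (a, j)) * q (e j)) =
      ∑ j, p (d t (X (a, j))) * q (e j) := by
    intro a t
    rw [map_sum]
    refine Finset.sum_congr rfl fun j _ => ?_
    rw [(δ t).leibniz, hδ2, hδ1, smul_zero, zero_add, smul_eq_mul, mul_comm]
  have hcomb2 : ∀ (a : Fin 2) (γ : Fin N → K),
      ∑ t, p (γ t) * δ t (∑ j, p (X (a, j)) * q (e j)) =
        ∑ j, p (∑ t, γ t * d t (X (a, j))) * q (e j) := by
    intro a γ
    calc _ = ∑ t, ∑ j, p (γ t * d t (X (a, j))) * q (e j) := by
          refine Finset.sum_congr rfl fun t _ => ?_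
          rw [hδe, Finset.mul_sum]
          refine Finset.sum_congr rfl fun j _ => ?_
          rw [map_mul, mul_assoc]
      _ = _ := by
          rw [Finset.sum_comm]
          refine Finset.sum_congr rfl fun j _ => ?_
          rw [map_sum, Finset.sum_mul]
  refine ⟨δ, fun t c => d t c, hδ1, fun t z => hδ2 t z, ?_, ?_, ?_⟩
  · intro γ c c' h1 h2
    rw [hexp, hcomb2] at h1 h2
    have k1 := (hcomb (-c) _ (by rw [h1, map_neg, neg_add_cancel])).2
    have k2 := (hcomb (-c') _ (by rw [h2, map_neg, neg_add_cancel])).2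
    funext t0
    have k3 : ∀ a : Fin 2, ∀ j, ∑ t, γ t * d t (X (a, j)) = 0 := by
      intro a
      fin_cases a
      · exact k1
      · exact k2
    have k4 := k3 (σ t0).1 (σ t0).2
    rw [Prod.mk.eta] at k4
    have k5 : ∑ t, γ t * d t (X (σ t0)) = γ t0 := by
      rw [Finset.sum_eq_single t0]
      · have := hd2 t0 t0
        rw [if_pos rfl] at this
        rw [this, mul_one]
      · intro t _ ht
        have := hd2 t t0
        rw [if_neg (Ne.symm ht)] at this
        rw [this, mul_zero]
      · intro h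
        exact absurd (Finset.mem_univ _) h
    rw [k5] at k4
    exact k4
  · intro c c' h
    rw [hexp 0, hexp 1] at h
    have h6 := (hcomb (-c') (fun j => X (1, j) - c * X (0, j)) (by
      have h7 : ∑ j, p (X (1, j) - c * X (0, j)) * q (e j) =
          ∑ j, p (X (1, j)) * q (e j) - p c * ∑ j, p (X (0, j)) * q (e j) := by
        rw [Finset.mul_sum, ← Finset.sum_sub_distrib]
        refine Finset.sum_congr rfl fun j _ => ?_
        rw [map_sub, map_mul]
        ring
      rw [h7, h, map_neg]
      ring)).2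
    obtain ⟨a, rfl⟩ := hgs c
    have h7 : ∀ᶠ i in (𝒰 : Filter I), ∀ j, A i (1, j) - a i * A i (0, j) = 0 := by
      rw [Filter.eventually_all]
      intro j
      have h8 : g ((fun i => A i (1, j)) - a * fun i => A i (0, j)) = 0 := by
        rw [map_sub, map_mul]
        exact h6 j
      exact (hg _).mp h8
    obtain ⟨i, hi⟩ := h7.exists
    have h8 := (hrow i (-(a i)) 1 (by
      intro j
      rw [← hi j]; ring)).2
    exact one_ne_zero h8
  · intro c hc
    have h1 := (hcomb (-c) (fun j => X (0, j)) (by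
      rw [← hexp 0, hc, map_neg, neg_add_cancel])).2
    have h2 : ∀ᶠ i in (𝒰 : Filter I), ∀ j, A i (0, j) = 0 := by
      rw [Filter.eventually_all]
      intro j
      exact (hg _).mp (h1 j)
    obtain ⟨i, hi⟩ := h2.exists
    have h3 := (hrow i 1 0 (by
      intro j
      rw [hi j]; ring)).1
    exact one_ne_zero h3

/-- spans of constant sequences -/
theorem span_const {I k L K U : Type} [Field k]
    [Field L] [Algebra k L] [Field K] [Field U] [Algebra K U]
    (g : (I → k) →+* K) (gL : (I → L) →+* U)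
    (hp : ∀ a, algebraMap K U (g a) = gL (fun i => algebraMap k L (a i)))
    {ι : Type} [Fintype ι] (W : Submodule k L) (b : ι → L) (hb : Submodule.span k (Set.range b) = W) :
    Submodule.span K ((fun z => gL (fun _ => z)) '' (W : Set L)) =
      Submodule.span K (Set.range fun j => gL (fun _ => b j)) := by
  apply le_antisymm
  · rw [Submodule.span_le]
    rintro _ ⟨z, hz, rfl⟩
    rw [← hb] at hz
    obtain ⟨c, rfl⟩ := (Submodule.mem_span_range_iff_exists_fun k).mp hz
    change gL (fun _ => ∑ j, c j • b j) ∈ _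
    rw [t_combo g gL hp (fun j _ => b j) (fun j _ => c j)]
    exact Submodule.sum_mem _ fun j _ => Submodule.smul_mem _ _ (Submodule.subset_span ⟨j, rfl⟩)
  · rw [Submodule.span_le]
    rintro _ ⟨j, rfl⟩
    refine Submodule.subset_span ⟨b j, ?_, rfl⟩
    rw [← hb]
    exact Submodule.subset_span ⟨j, rfl⟩

/-- **The second bound.** -/
theorem few_pencil {I k L K U : Type} (𝒰 : Ultrafilter I) [Field k]
    [Field L] [Algebra k L] [Field K] [IsAlgClosed K] [CharZero K] [Field U] [Algebra K U]
    (g : (I → k) →+* K) (gL : (I → L) →+* U) (hgs : Function.Surjective g)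
    (hg : ∀ f, g f = 0 ↔ ∀ᶠ i in (𝒰 : Filter I), f i = 0)
    (hgL : ∀ f, gL f = 0 ↔ ∀ᶠ i in (𝒰 : Filter I), f i = 0)
    (hp : ∀ a, algebraMap K U (g a) = gL (fun i => algebraMap k L (a i)))
    {n : ℕ} (e : Fin n → L) (he : LinearIndependent k (Fin.cons 1 e : Fin (n + 1) → L))
    (A : I → Fin 2 × Fin n → k)
    (hrow : ∀ i, ∀ α β : k, (∀ j, α * A i (0, j) + β * A i (1, j) = 0) → α = 0 ∧ β = 0)
    (D N : ℕ) (σ : Fin N → Fin 2 × Fin n)
    (hσ : Function.Injective (MvPolynomial.eval₂Hom (g.comp (Pi.constRingHom I k))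
      (fun t => g (fun i => A i (σ t)))))
    (hpar : Param K D (gL fun i => ∑ j, A i (0, j) • e j) (gL fun i => ∑ j, A i (1, j) • e j))
    (W : Submodule k L) [FiniteDimensional k W] (hWn : finrank k W ≤ n + 1) (h1W : (1 : L) ∈ W)
    (hWe : ∀ᶠ i in (𝒰 : Filter I), ∑ j, A i (0, j) • e j ∈ W ∧ ∑ j, A i (1, j) • e j ∈ W)
    (w : ℕ) (hw : w ≤ n)
    (hB : finrank K (Submodule.span K ((fun z => gL (fun _ => z)) '' (W : Set L)) ⊓
        Subalgebra.toSubmodule (adjoin K {gL fun i => ∑ j, A i (0, j) • e j,
          gL fun i => ∑ j, A i (1, j) • e j}).toSubalgebra : Submodule K U) ≤ w) :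
    N ≤ n + w - 2 := by
  classical
  obtain ⟨δ, d, hδp, hδq, hinj, hnl, hnc⟩ := few_setup 𝒰 g gL (algebraMap K U) hgs hg hgL hp e he A
    hrow N σ hσ
  set u : U := gL (fun i => ∑ j, A i (0, j) • e j) with hu
  set v : U := gL (fun i => ∑ j, A i (1, j) • e j) with hv
  set VK : Submodule K U := Submodule.span K ((fun z => gL (fun _ => z)) '' (W : Set L)) with hVK
  set F : IntermediateField K U := adjoin K {u, v} with hF
  let b := finBasis k W
  have hbspan : Submodule.span k (Set.range fun j => (b j : L)) = W := by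
    have h2 := congrArg (Submodule.map W.subtype) b.span_eq
    rw [Submodule.map_span, Submodule.map_subtype_top, ← Set.range_comp] at h2
    exact h2
  have hVKspan : VK = Submodule.span K (Set.range fun j => gL (fun _ => (b j : L))) :=
    span_const g gL hp W (fun j => (b j : L)) hbspan
  have hVKfd : FiniteDimensional K VK := by
    rw [hVKspan]
    exact FiniteDimensional.span_of_finite K (Set.finite_range _)
  have hVKn : finrank K VK ≤ n + 1 := by
    rw [hVKspan]
    refine (finrank_range_le_card _).trans ?_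
    rw [Fintype.card_fin]
    exact hWn
  have h1VK : (1 : U) ∈ VK := Submodule.subset_span ⟨1, h1W, map_one gL⟩
  have huVK : u ∈ VK := by
    rw [hVKspan]
    refine (t_mem 𝒰 g gL hgs hgL hp (fun j _ => (b j : L)) _).mpr ?_
    rw [hbspan]
    exact hWe.mono fun i hi => hi.1
  have hvVK : v ∈ VK := by
    rw [hVKspan]
    refine (t_mem 𝒰 g gL hgs hgL hp (fun j _ => (b j : L)) _).mpr ?_
    rw [hbspan]
    exact hWe.mono fun i hi => hi.2
  have hDV : ∀ t, ∀ x ∈ VK, δ t x ∈ VK := by
    intro t x hx
    induction hx using Submodule.span_induction with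
    | mem x hx =>
      obtain ⟨z, -, rfl⟩ := hx
      rw [hδq]
      exact VK.zero_mem
    | zero => rw [map_zero]; exact VK.zero_mem
    | add x y _ _ hx hy => rw [map_add]; exact VK.add_mem hx hy
    | smul c x hx' hx =>
      rw [Algebra.smul_def, (δ t).leibniz, smul_eq_mul, smul_eq_mul, hδp, mul_comm x,
        ← Algebra.smul_def, ← Algebra.smul_def]
      exact VK.add_mem (VK.smul_mem c hx) (VK.smul_mem _ hx')
  -- the linear maps
  let Ξ : ∀ x ∈ VK, (Fin N → K) →ₗ[K] VK := fun x hx =>
    { toFun := fun γ => ⟨∑ t, γ t • δ t x, VK.sum_mem fun t _ => VK.smul_mem _ (hDV t x hx)⟩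
      map_add' := by
        intro γ γ'
        apply Subtype.ext
        change ∑ t, (γ t + γ' t) • δ t x = ∑ t, γ t • δ t x + ∑ t, γ' t • δ t x
        rw [← Finset.sum_add_distrib]
        exact Finset.sum_congr rfl fun t _ => add_smul _ _ _
      map_smul' := by
        intro c γ
        apply Subtype.ext
        change ∑ t, (c * γ t) • δ t x = c • ∑ t, γ t • δ t x
        rw [Finset.smul_sum]
        exact Finset.sum_congr rfl fun t _ => mul_smul _ _ _ }
  have hΞ : ∀ (x : U) (hx : x ∈ VK) γ, ((Ξ x hx γ : VK) : U) =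
      ∑ t, algebraMap K U (γ t) * δ t x := by
    intro x hx γ
    change ∑ t, γ t • δ t x = _
    exact Finset.sum_congr rfl fun t _ => Algebra.smul_def _ _
  let E : Submodule K VK := Submodule.span K {(⟨1, h1VK⟩ : VK)}
  let B : Submodule K VK := (Subalgebra.toSubmodule F.toSubalgebra).comap VK.subtype
  have hEB : E ≤ B := by
    rw [Submodule.span_singleton_le_iff_mem]
    exact F.one_mem
  have hE1 : finrank K E = 1 := finrank_span_singleton (by
    intro h
    exact one_ne_zero (congrArg (fun z : VK => (z : U)) h))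
  have hBw : finrank K B ≤ w := by
    have h1 : B.map VK.subtype = VK ⊓ Subalgebra.toSubmodule F.toSubalgebra :=
      Submodule.map_comap_subtype VK _
    rw [(Submodule.equivMapOfInjective VK.subtype Subtype.val_injective B).finrank_eq, h1]
    exact hB
  obtain ⟨y, hyF, r, s, hur, hvs, hrd, hsd⟩ := hpar
  have hyt : Transcendental K y := by
    intro hy
    obtain ⟨c, rfl⟩ := exists_const y hy
    apply hnc (r.eval c)
    rw [hur, aeval_algebraMap_apply, coe_aeval_eq_eval]
  have hFa : ∀ f : K[X], aeval y f ∈ F := by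
    intro f
    rw [aeval_eq_sum_range]
    refine sum_mem fun i _ => ?_
    rw [Algebra.smul_def]
    exact mul_mem (F.algebraMap_mem _) (pow_mem hyF i)
  have hr' : derivative r ≠ 0 := by
    intro h
    apply hnc (r.coeff 0)
    rw [hur, eq_C_of_natDegree_eq_zero (derivative_eq_zero.mp h), aeval_C, coeff_C_zero]
  have hm' : ∀ c : K, derivative s - C c * derivative r ≠ 0 := by
    intro c h
    have h1 : derivative (s - C c * r) = 0 := by
      rw [derivative_sub, derivative_C_mul]
      exact h
    have h2 := eq_C_of_natDegree_eq_zero (derivative_eq_zero.mp h1)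
    apply hnl c ((s - C c * r).coeff 0)
    have h3 := congrArg (aeval y) h2
    rw [map_sub, map_mul, aeval_C, aeval_C, ← hur, ← hvs] at h3
    rw [← h3]
    ring
  have hne : ∀ f : K[X], f ≠ 0 → aeval y f ≠ 0 := by
    intro f hf h
    exact hf ((transcendental_iff_injective.1 hyt) (by rw [h, map_zero]))
  -- the chain rule
  have hchain : ∀ (f : K[X]), f.natDegree ≤ D → ∀ γ : Fin N → K,
      ∑ t, algebraMap K U (γ t) * δ t (aeval y f) =
        aeval y (derivative f) * ∑ t, algebraMap K U (γ t) * δ t y +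
          ∑ t, algebraMap K U (γ t) * aeval y (dpoly D (d t) f) := by
    intro f hf γ
    rw [Finset.mul_sum, ← Finset.sum_add_distrib]
    refine Finset.sum_congr rfl fun t _ => ?_
    rw [der_aeval (δ t) (d t) (hδp t) y D f hf]
    ring
  have hsumF : ∀ (f : K[X]) (γ : Fin N → K),
      ∑ t, algebraMap K U (γ t) * aeval y (dpoly D (d t) f) ∈ F := fun f γ =>
    sum_mem fun t _ => mul_mem (F.algebraMap_mem _) (hFa _)
  have hmemB : ∀ x : VK, x ∈ B ↔ (x : U) ∈ F := fun x => Iff.rfl
  have key := pencil (Ξ u huVK) (Ξ v hvVK) E B hEB hE1 (by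
      intro γ hγ
      rw [hmemB, hΞ u huVK γ] at hγ
      rw [hmemB, hΞ v hvVK γ]
      rw [hur, hchain r hrd] at hγ
      rw [hvs, hchain s hsd]
      have h1 : aeval y (derivative r) * ∑ t, algebraMap K U (γ t) * δ t y ∈ F := by
        have := sub_mem hγ (hsumF r γ)
        rwa [add_sub_cancel_right] at this
      have h2 : ∑ t, algebraMap K U (γ t) * δ t y ∈ F := by
        have := mul_mem (inv_mem (hFa (derivative r))) h1
        rwa [inv_mul_cancel_left₀ (hne _ hr')] at this
      exact add_mem (mul_mem (hFa _) h2) (hsumF s γ)) (by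
      intro c γ hγ
      rw [hmemB] at hγ ⊢
      rw [Submodule.coe_sub, Submodule.coe_smul, hΞ v hvVK γ, hΞ u huVK γ, Algebra.smul_def] at hγ
      rw [hΞ u huVK γ]
      rw [hur, hvs, hchain r hrd, hchain s hsd] at hγ
      rw [hur, hchain r hrd]
      have h1 : aeval y (derivative s - C c * derivative r) *
          ∑ t, algebraMap K U (γ t) * δ t y ∈ F := by
        have h2 := add_mem (sub_mem hγ (hsumF s γ)) (mul_mem (F.algebraMap_mem c) (hsumF r γ))
        have h3 : aeval y (derivative s - C c * derivative r) *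
            ∑ t, algebraMap K U (γ t) * δ t y =
            aeval y (derivative s) * ∑ t, algebraMap K U (γ t) * δ t y +
              ∑ t, algebraMap K U (γ t) * aeval y (dpoly D (d t) s) -
              algebraMap K U c * (aeval y (derivative r) * ∑ t, algebraMap K U (γ t) * δ t y +
              ∑ t, algebraMap K U (γ t) * aeval y (dpoly D (d t) r)) -
              ∑ t, algebraMap K U (γ t) * aeval y (dpoly D (d t) s) +
              algebraMap K U c * ∑ t, algebraMap K U (γ t) * aeval y (dpoly D (d t) r) := by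
          rw [map_sub, map_mul, aeval_C]
          ring
        rw [h3]
        exact h2
      have h2 : ∑ t, algebraMap K U (γ t) * δ t y ∈ F := by
        have := mul_mem (inv_mem (hFa (derivative s - C c * derivative r))) h1
        rwa [inv_mul_cancel_left₀ (hne _ (hm' c))] at this
      exact add_mem (mul_mem (hFa _) h2) (hsumF r γ)) (by
      intro γ hγ0 hγ1
      obtain ⟨c, hc⟩ := Submodule.mem_span_singleton.mp hγ0
      obtain ⟨c', hc'⟩ := Submodule.mem_span_singleton.mp hγ1
      have e1 := congrArg (fun z : VK => (z : U)) hc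
      have e2 := congrArg (fun z : VK => (z : U)) hc'
      have e3 : c • (1 : U) = ∑ t, algebraMap K U (γ t) * δ t u := e1.trans (hΞ u huVK γ)
      have e4 : c' • (1 : U) = ∑ t, algebraMap K U (γ t) * δ t v := e2.trans (hΞ v hvVK γ)
      rw [← Algebra.algebraMap_eq_smul_one] at e3 e4
      exact hinj γ c c' e3.symm e4.symm) n w hBw hVKn hw
  rwa [Module.finrank_fin_fun] at key

end Run7.h577
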