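import Pool.Agent.Run7.h577.T26
import Pool.Agent.Run7.h577.T31

/-!
# The number of parameters of the dependent pairs
-/

set_option autoImplicit false

namespace Run7.h577

open Module Filter Pool.Agent.W256 Pool.Agent.N770

/-- **Ultraproducts**, with surjective maps. -/
theorem exists_ultra3 {I : Type} (𝒰 : Ultrafilter I) (k L : Type) [Field k] [IsAlgClosed k]
    [CharZero k] [Field L] [Algebra k L] :
    ∃ (K U : Type) (_ : Field K) (_ : IsAlgClosed K) (_ : CharZero K) (_ : Field U)
      (g : (I → k) →+* K) (gL : (I → L) →+* U) (p : K →+* U),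
      Function.Surjective g ∧ Function.Surjective gL ∧
      (∀ f, g f = 0 ↔ ∀ᶠ i in (𝒰 : Filter I), f i = 0) ∧
      (∀ f, gL f = 0 ↔ ∀ᶠ i in (𝒰 : Filter I), f i = 0) ∧
      (∀ a, p (g a) = gL (fun i => algebraMap k L (a i))) := by
  refine ⟨Germ (𝒰 : Filter I) k, Germ (𝒰 : Filter I) L, inferInstance,
    isAlgClosed_germ 𝒰 k, ?_, inferInstance, ghr 𝒰 k,
    ghr 𝒰 L, germMapr 𝒰 (algebraMap k L), ghr_surj 𝒰 k, ghr_surj 𝒰 L, ghr_eq_zero 𝒰,
    ghr_eq_zero 𝒰, fun a => rfl⟩
  exact charZero_of_injective_ringHom
    ((ghr 𝒰 k).comp (Pi.constRingHom I k)).injective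

/-- spaces with slowly growing powers are small -/
def GD (k : Type*) {L : Type*} [Field k] [Field L] [Algebra k L] (D M₀ : ℕ) (V : Submodule k L) :
    Prop :=
  ∀ W : Submodule k L, FiniteDimensional k W → W ≤ V → (1 : L) ∈ W →
    (∀ m ≤ M₀, finrank k (W ^ m : Submodule k L) ≤ m * D + 1) → finrank k W ^ 2 / 4 ≤ D

section transfer

variable {J k M K U : Type} (𝒰 : Ultrafilter J) [Field k] [Field M] [Algebra k M] [Field K]
  [Field U] [Algebra K U] (g : (J → k) →+* K) (gM : (J → M) →+* U)
  (hgs : Function.Surjective g) (hgMs : Function.Surjective gM)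
  (hg : ∀ f, g f = 0 ↔ ∀ᶠ i in (𝒰 : Filter J), f i = 0)
  (hgM : ∀ f, gM f = 0 ↔ ∀ᶠ i in (𝒰 : Filter J), f i = 0)
  (hp : ∀ a, algebraMap K U (g a) = gM (fun i => algebraMap k M (a i)))

include hgs hgMs hg hgM hp in
theorem t_growsD (D M₀ : ℕ) {n : ℕ} (l : Fin n → J → M)
    (hG : ∀ᶠ N in (𝒰 : Filter J), GD k D M₀ (Submodule.span k (Set.range fun i => l i N))) :
    GD K D M₀ (Submodule.span K (Set.range fun i => gM (l i))) := by
  classical
  intro W hW hWV h1W hWm
  set r := finrank K W with hr
  let b := finBasis K W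
  choose z hz using fun i : Fin r => hgMs (b i : U)
  have hspan : Submodule.span K (Set.range fun i => gM (z i)) = W := by
    have h1 : (fun i => gM (z i)) = fun i => (b i : U) := funext hz
    rw [h1]
    have h2 := congrArg (Submodule.map W.subtype) b.span_eq
    rw [Submodule.map_span, Submodule.map_subtype_top, ← Set.range_comp] at h2
    exact h2
  have hpow : ∀ m : ℕ, ∀ᶠ N in (𝒰 : Filter J),
      finrank k ((Submodule.span k (Set.range fun i => z i N)) ^ m : Submodule k M) =
        finrank K (W ^ m : Submodule K U) := by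
    intro m
    have h1 := t_finrank 𝒰 g gM hgs hg hgM hp (fun (f : Fin m → Fin r) N => ∏ i, z (f i) N)
    have h3 : (fun f : Fin m → Fin r => gM (fun N => ∏ i, z (f i) N)) =
        fun f => ∏ i, gM (z (f i)) := by
      funext f
      have h2 : (fun N => ∏ i, z (f i) N) = ∏ i, z (f i) := by
        funext N
        rw [Finset.prod_apply]
      rw [h2, map_prod]
    rw [h3] at h1
    refine h1.mono fun N hN => ?_
    rw [span_pow_range, hN, ← hspan, span_pow_range]
  have hpow' : ∀ᶠ N in (𝒰 : Filter J), ∀ m ∈ Finset.range (M₀ + 1),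
      finrank k ((Submodule.span k (Set.range fun i => z i N)) ^ m : Submodule k M) =
        finrank K (W ^ m : Submodule K U) :=
    (Filter.eventually_all_finset _).2 fun m _ => hpow m
  have hle : ∀ᶠ N in (𝒰 : Filter J), ∀ i, z i N ∈
      Submodule.span k (Set.range fun i => l i N) := by
    rw [Filter.eventually_all]
    intro i
    refine (t_mem 𝒰 g gM hgs hgM hp l (z i)).mp ?_
    rw [hz]
    exact hWV (b i).2
  have h1m : ∀ᶠ N in (𝒰 : Filter J), (1 : M) ∈ Submodule.span k (Set.range fun i => z i N) := by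
    refine (t_mem 𝒰 g gM hgs hgM hp z (1 : J → M)).mp ?_
    rw [map_one, hspan]
    exact h1W
  obtain ⟨N, ⟨⟨⟨⟨hN1, hN3⟩, hN4⟩, hN5⟩, hN6⟩⟩ :=
    (((hpow'.and (hpow 1)).and hle).and h1m |>.and hG).exists
  have hfd : FiniteDimensional k (Submodule.span k (Set.range fun i => z i N)) :=
    FiniteDimensional.span_of_finite k (Set.finite_range _)
  have key := hN6 (Submodule.span k (Set.range fun i => z i N)) hfd (by
    rw [Submodule.span_le]
    rintro _ ⟨i, rfl⟩
    exact hN4 i) hN5 (by
    intro m hm
    rw [hN1 m (Finset.mem_range.mpr (Nat.lt_succ_of_le hm))]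
    exact hWm m hm)
  rw [pow_one, pow_one] at hN3
  rw [hN3] at key
  exact key

end transfer

/-- coordinates of pairs in a small space satisfy a linear relation -/
theorem exists_functional2 {k L : Type*} [Field k] [Field L] [Algebra k L] {n : ℕ} (e : Fin n → L)
    (he : LinearIndependent k (Fin.cons 1 e : Fin (n + 1) → L)) (W : Submodule k L)
    [FiniteDimensional k W] (h1W : (1 : L) ∈ W) (N : ℕ) (hN : 2 * (finrank k W - 1) < N)
    (σ : Fin N → Fin 2 × Fin n) :
    ∃ c : Fin N → k, c ≠ 0 ∧ ∀ A : Fin 2 × Fin n → k,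
      ∑ j, A (0, j) • e j ∈ W → ∑ j, A (1, j) • e j ∈ W → ∑ t, c t * A (σ t) = 0 := by
  classical
  obtain ⟨he1, he2⟩ := linearIndependent_finCons.mp he
  let T : (Fin n → k) →ₗ[k] L := Fintype.linearCombination k e
  have hT : ∀ a, T a = ∑ j, a j • e j := fun a => Fintype.linearCombination_apply k e a
  have hTinj : Function.Injective T := he1.fintypeLinearCombination_injective
  let W0 : Submodule k (Fin n → k) := W.comap T
  -- the dimension of `W0`
  have hW0 : finrank k W0 + 1 ≤ finrank k W := by
    let b := finBasis k W0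
    have hbW : ∀ i, T (b i : Fin n → k) ∈ W := fun i => (b i).2
    have hli : LinearIndependent k (Fin.cons 1 (fun i => T (b i : Fin n → k)) :
        Fin (finrank k W0 + 1) → L) := by
      rw [linearIndependent_finCons]
      constructor
      · have h1 : LinearIndependent k (fun i => (b i : Fin n → k)) :=
          b.linearIndependent.map' W0.subtype (Submodule.ker_subtype _)
        exact h1.map' T (LinearMap.ker_eq_bot.mpr hTinj)
      · intro h1
        apply he2
        have h2 : Submodule.span k (Set.range fun i => T (b i : Fin n → k)) ≤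
            Submodule.span k (Set.range e) := by
          rw [Submodule.span_le]
          rintro _ ⟨i, rfl⟩
          change T (b i : Fin n → k) ∈ Submodule.span k (Set.range e)
          rw [hT]
          exact Submodule.sum_mem _ fun j _ => Submodule.smul_mem _ _ (Submodule.subset_span ⟨j, rfl⟩)
        exact h2 h1
    have hmem : ∀ i, (Fin.cons 1 (fun i => T (b i : Fin n → k)) : Fin (finrank k W0 + 1) → L) i
        ∈ W := by
      intro i
      refine Fin.cases ?_ (fun i => ?_) i
      · exact h1W
      · exact hbW i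
    have hli2 : LinearIndependent k (fun i => (⟨_, hmem i⟩ : W)) :=
      LinearIndependent.of_comp W.subtype hli
    have := hli2.fintype_card_le_finrank
    rwa [Fintype.card_fin] at this
  -- the space of pairs
  let row : Fin 2 → (Fin 2 × Fin n → k) →ₗ[k] (Fin n → k) := fun a =>
    LinearMap.pi fun j => LinearMap.proj (a, j)
  let WA : Submodule k (Fin 2 × Fin n → k) := W0.comap (row 0) ⊓ W0.comap (row 1)
  have hWA : finrank k WA < N := by
    let ι : WA →ₗ[k] W0 × W0 :=
      (((row 0).comp WA.subtype).codRestrict W0 (fun x => x.2.1)).prod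
        (((row 1).comp WA.subtype).codRestrict W0 (fun x => x.2.2))
    have hι : Function.Injective ι := by
      rw [← LinearMap.ker_eq_bot, LinearMap.ker_eq_bot']
      intro x hx
      apply Subtype.ext
      funext ⟨a, j⟩
      have h1 := congrArg (fun z : W0 × W0 => (z.1 : Fin n → k) j) hx
      have h2 := congrArg (fun z : W0 × W0 => (z.2 : Fin n → k) j) hx
      fin_cases a
      · exact h1
      · exact h2
    have h1 := LinearMap.finrank_le_finrank_of_injective hι
    rw [Module.finrank_prod] at h1
    omega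
  let Θ : WA →ₗ[k] (Fin N → k) :=
    (LinearMap.pi fun t => LinearMap.proj (σ t)).comp WA.subtype
  have hlt : LinearMap.range Θ < ⊤ := by
    rw [lt_top_iff_ne_top]
    intro h
    have h1 : finrank k (LinearMap.range Θ) = N := by
      rw [h, finrank_top, Module.finrank_fin_fun]
    have h2 := LinearMap.finrank_range_le Θ
    omega
  obtain ⟨f, hf0, hf⟩ := Submodule.exists_le_ker_of_lt_top _ hlt
  have hfx : ∀ x, f x = ∑ t, f (Pi.single t 1) * x t := by
    intro x
    conv_lhs => rw [← (LinearMap.sum_single_apply (fun _ => k) x)]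
    rw [map_sum]
    refine Finset.sum_congr rfl fun t _ => ?_
    have h1 : (Pi.single t (x t) : Fin N → k) =
        x t • (Pi.single t 1 : Fin N → k) := by
      rw [← Pi.single_smul, smul_eq_mul, mul_one]
    rw [h1, map_smul, smul_eq_mul, mul_comm]
  refine ⟨fun t => f (Pi.single t 1), ?_, ?_⟩
  · intro h0
    apply hf0
    ext x
    have h1 := congrFun h0 x
    simpa using h1
  · intro A hA0 hA1
    have hAW : A ∈ WA := by
      constructor
      · change T (row 0 A) ∈ W
        rw [hT]
        exact hA0
      · change T (row 1 A) ∈ W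
        rw [hT]
        exact hA1
    have h1 : f (Θ ⟨A, hAW⟩) = 0 := hf ⟨_, rfl⟩
    rw [hfx] at h1
    exact h1

/-- **The number of parameters of the dependent pairs on a curve.** -/
theorem few_curve2 {k L : Type} [Field k] [IsAlgClosed k] [CharZero k] [Field L] [Algebra k L]
    {n : ℕ} (e : Fin n → L) (he : LinearIndependent k (Fin.cons 1 e : Fin (n + 1) → L))
    (V : Submodule k L) [FiniteDimensional k V] (h1V : (1 : L) ∈ V) (heV : ∀ j, e j ∈ V)
    (hVn : finrank k V ≤ n + 1)
    (hdep : ∀ x ∈ V, ∀ y ∈ V, ∃ Q : MvPolynomial (Fin 2) k, Q ≠ 0 ∧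
      MvPolynomial.aeval ![x, y] Q = 0)
    (h6 : SixExp k V) (D : ℕ) (hG : GD k D (D + 3) V) (hw : Nat.sqrt (4 * D + 3) ≤ n)
    (N : ℕ) (hN : 2 * D < N ∨ n + Nat.sqrt (4 * D + 3) - 2 < N)
    (σ : Fin N → Fin 2 × Fin n) :
    ∃ f : MvPolynomial (Fin N) k, f ≠ 0 ∧ ∀ A : Fin 2 × Fin n → k, RowsLI A →
      Rel k D (∑ j, A (0, j) • e j) (∑ j, A (1, j) • e j) → MvPolynomial.eval (A ∘ σ) f = 0 := by
  classical
  by_contra hcon
  push Not at hcon
  let I : Type := {x : (Fin 2 × Fin n → k) × MvPolynomial (Fin 2) k // RowsLI x.1 ∧ x.2 ≠ 0 ∧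
    x.2.totalDegree ≤ D ∧
    MvPolynomial.aeval ![∑ j, x.1 (0, j) • e j, ∑ j, x.1 (1, j) • e j] x.2 = 0}
  let Sf : MvPolynomial (Fin N) k → Set I := fun f =>
    {i | MvPolynomial.eval (i.1.1 ∘ σ) f ≠ 0}
  obtain ⟨𝒰, h𝒰⟩ := Ultrafilter.exists_ultrafilter_of_finite_inter_nonempty
    (Sf '' {f | f ≠ 0}) (by
    intro T hT
    choose! w hw1 hw2 using (fun (a : Set I) (ha : a ∈ (T : Set (Set I))) => hT ha)
    obtain ⟨A, hA1, ⟨P, hP0, hPD, hP⟩, hA2⟩ := hcon (∏ a ∈ T, w a) (by
      rw [Finset.prod_ne_zero_iff]
      exact fun a ha => hw1 a ha)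
    refine ⟨⟨(A, P), hA1, hP0, hPD, hP⟩, ?_⟩
    intro a ha
    rw [← hw2 a ha]
    rw [map_prod, Finset.prod_ne_zero_iff] at hA2
    exact hA2 a ha)
  have hgen : ∀ f : MvPolynomial (Fin N) k,
      (∀ᶠ i in (𝒰 : Filter I), MvPolynomial.eval (i.1.1 ∘ σ) f = 0) → f = 0 := by
    intro f hf
    by_contra hf0
    have h3 : Sf f ∈ (𝒰 : Filter I) := h𝒰 ⟨f, hf0, rfl⟩
    obtain ⟨i, hi1, hi2⟩ := (hf.and h3).exists
    exact hi2 hi1
  obtain ⟨K, U, _, _, _, _, g, gL, p, hgs, hgLs, hg, hgL, hp⟩ := exists_ultra3 𝒰 k L
  let aKU : Algebra K U := p.toAlgebra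
  set u : I → L := fun i => ∑ j, i.1.1 (0, j) • e j with hu
  set v : I → L := fun i => ∑ j, i.1.1 (1, j) • e j with hv
  have huV : ∀ i, u i ∈ V := fun i => V.sum_mem fun j _ => V.smul_mem _ (heV j)
  have hvV : ∀ i, v i ∈ V := fun i => V.sum_mem fun j _ => V.smul_mem _ (heV j)
  have hσ : Function.Injective (MvPolynomial.eval₂Hom (g.comp (Pi.constRingHom I k))
      (fun t => g (fun i => i.1.1 (σ t)))) := by
      rw [injective_iff_map_eq_zero]
      intro f hf
      apply hgen f
      rw [← hg]
      rw [← hf]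
      have h2 : MvPolynomial.eval₂Hom (g.comp (Pi.constRingHom I k))
          (fun t => g (fun i => i.1.1 (σ t))) =
          g.comp (RingHom.pi (fun i : I => MvPolynomial.eval (i.1.1 ∘ σ))) := by
        apply MvPolynomial.ringHom_ext
        · intro c
          rw [MvPolynomial.coe_eval₂Hom, MvPolynomial.eval₂_C]
          change g _ = g _
          congr 1
          funext i
          change c = MvPolynomial.eval _ (MvPolynomial.C c)
          rw [MvPolynomial.eval_C]
        · intro t
          rw [MvPolynomial.coe_eval₂Hom, MvPolynomial.eval₂_X]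
          change g _ = g _
          congr 1
          funext i
          change _ = MvPolynomial.eval _ (MvPolynomial.X t)
          rw [MvPolynomial.eval_X]
          rfl
      rw [h2]
      rfl
  have hvt : Transcendental K (gL v) := by
    refine lift_const 𝒰 g gL hgs hgL hp v ?_
    intro i c hc
    have h1 := Fintype.linearIndependent_iff.mp he (Fin.cons (-c) (fun j => i.1.1 (1, j))) (by
      rw [Fin.sum_univ_succ]
      simp only [Fin.cons_zero, Fin.cons_succ]
      have h2 : ∑ j, i.1.1 (1, j) • e j = algebraMap k L c := hc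
      rw [h2, Algebra.algebraMap_eq_smul_one, neg_smul, neg_add_cancel])
    have h3 : ∀ j, i.1.1 (1, j) = 0 := by
      intro j
      have := h1 j.succ
      rwa [Fin.cons_succ] at this
    have h4 := (i.2.1 0 1 (by
      intro j
      rw [h3 j]; ring)).2
    exact one_ne_zero h4
  obtain ⟨W, hWV, hW1, hWe, hWB, hWR⟩ := ultra_core4 𝒰 g gL p hgs hg hgL hp V h1V hdep D
      u v (fun i => i.1.2) huV hvV (fun i => i.2.2.1) (fun i => i.2.2.2.1)
      (fun i => i.2.2.2.2) hvt
  have hWfd : FiniteDimensional k W := Submodule.finiteDimensional_of_le hWV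
  have hsq : ∀ x : ℕ, x ^ 2 / 4 ≤ D → x ≤ Nat.sqrt (4 * D + 3) := by
    intro x hx
    rw [Nat.le_sqrt']
    omega
  by_cases hpar : Param K D (gL u) (gL v)
  · rcases hN with hN | hN
    · have h1 := few_param 𝒰 g gL p hgs hg hgL hp e he V h1V heV h6 (fun i => i.1.1)
        (fun i => i.2.1) D N σ hσ hpar
      omega
    · have h1 := few_pencil 𝒰 g gL hgs hg hgL hp e he (fun i => i.1.1)
        (fun i => i.2.1) D N σ hσ hpar W ((Submodule.finrank_mono hWV).trans hVn) hW1 hWe
        (Nat.sqrt (4 * D + 3)) hw (by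
          apply hsq
          let b := finBasis k V
          have hbspan : Submodule.span k (Set.range fun j => (b j : L)) = V := by
            have h2 := congrArg (Submodule.map V.subtype) b.span_eq
            rw [Submodule.map_span, Submodule.map_subtype_top, ← Set.range_comp] at h2
            exact h2
          have hGK := t_growsD 𝒰 g gL hgs hgLs hg hgL hp D (D + 3) (fun j _ => (b j : L))
            (Filter.Eventually.of_forall fun N => by
              rw [hbspan]
              exact hG)
          rw [← span_const g gL hp V (fun j => (b j : L)) hbspan] at hGK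
          have hWKfd : FiniteDimensional K
              (Submodule.span K ((fun z => gL (fun _ => z)) '' (W : Set L))) := by
            let bW := finBasis k W
            have hbW : Submodule.span k (Set.range fun j => (bW j : L)) = W := by
              have h2 := congrArg (Submodule.map W.subtype) bW.span_eq
              rw [Submodule.map_span, Submodule.map_subtype_top, ← Set.range_comp] at h2
              exact h2
            rw [span_const g gL hp W (fun j => (bW j : L)) hbW]
            exact FiniteDimensional.span_of_finite K (Set.finite_range _)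
          refine hGK _ (Submodule.finiteDimensional_of_le inf_le_left) ?_ ?_ (fun m _ => hWB m)
          · refine inf_le_left.trans (Submodule.span_mono ?_)
            exact Set.image_mono hWV
          · exact ⟨Submodule.subset_span ⟨1, hW1, map_one gL⟩,
              (IntermediateField.adjoin K {gL u, gL v}).one_mem⟩)
      omega
  · have hWD := hG W hWfd hWV hW1 (fun m _ => hWR hpar m)
    have hWw := hsq _ hWD
    have hWN : 2 * (finrank k W - 1) < N := by
      rcases hN with hN | hN
      · have h1 : finrank k W - 1 ≤ D := by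
          set x := finrank k W
          have h2 : x ^ 2 ≤ 4 * D + 3 := by omega
          by_contra hcon
          have h3 : D + 2 ≤ x := by omega
          nlinarith
        omega
      · omega
    obtain ⟨c, hc0, hc⟩ := exists_functional2 e he W hW1 N hWN σ
    have h1 : (∑ t, MvPolynomial.C (c t) * MvPolynomial.X t :
        MvPolynomial (Fin N) k) = 0 := by
      apply hgen
      refine hWe.mono fun i hi => ?_
      rw [map_sum, ← hc i.1.1 hi.1 hi.2]
      refine Finset.sum_congr rfl fun t _ => ?_
      rw [map_mul, MvPolynomial.eval_C, MvPolynomial.eval_X]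
      rfl
    apply hc0
    funext t
    have h2 := congrArg (fun f => MvPolynomial.eval (Pi.single t 1) f) h1
    simp only [map_sum, map_mul, MvPolynomial.eval_C, MvPolynomial.eval_X, map_zero] at h2
    rw [Finset.sum_eq_single t] at h2
    · rwa [Pi.single_eq_same, mul_one] at h2
    · intro s _ hs
      rw [Pi.single_eq_of_ne hs, mul_zero]
    · intro h
      exact absurd (Finset.mem_univ _) h

/-- **The number of parameters of the dependent pairs.** -/
theorem few_gen2 {k M : Type} [Field k] [IsAlgClosed k] [CharZero k] [Field M] [Algebra k M]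
    (S : Submodule k M) (hS : Grows k S) (h6 : SixExp k S) (h1S : (1 : M) ∈ S) {n : ℕ}
    (l : Fin n → M) (hl : LinearIndependent k (Fin.cons 1 l : Fin (n + 1) → M))
    (hlS : ∀ j, l j ∈ S) (D : ℕ) (hw : Nat.sqrt (4 * D + 3) ≤ n) (N : ℕ)
    (hN : 2 * D < N ∨ n + Nat.sqrt (4 * D + 3) - 2 < N) (σ : Fin N → Fin 2 × Fin n) :
    ∃ f : MvPolynomial (Fin N) k, f ≠ 0 ∧ ∀ A : Fin 2 × Fin n → k, RowsLI A →
      Rel k D (∑ j, A (0, j) • l j) (∑ j, A (1, j) • l j) → MvPolynomial.eval (A ∘ σ) f = 0 := by
  classical
  let V : Submodule k M := Submodule.span k (Set.range (Fin.cons 1 l : Fin (n + 1) → M))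
  have hVfd : FiniteDimensional k V := FiniteDimensional.span_of_finite k (Set.finite_range _)
  have h1 : (1 : M) ∈ V := Submodule.subset_span ⟨0, by rw [Fin.cons_zero]⟩
  have hlV : ∀ j, l j ∈ V := fun j => Submodule.subset_span ⟨j.succ, by rw [Fin.cons_succ]⟩
  have hVS : V ≤ S := by
    rw [Submodule.span_le]
    rintro _ ⟨i, rfl⟩
    refine Fin.cases ?_ (fun i => ?_) i
    · exact h1S
    · exact hlS i
  set A : Subalgebra k M := Algebra.adjoin k (V : Set M) with hA
  have hAfg : A.FG := by
    obtain ⟨S, hS⟩ := (IsNoetherian.noetherian (⊤ : Submodule k V)).map V.subtype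
    rw [Submodule.map_subtype_top] at hS
    refine ⟨S, ?_⟩
    rw [hA]
    conv_rhs => rw [← hS]
    rw [Algebra.adjoin_span]
  have hft : Algebra.FiniteType k A := A.fg_iff_finiteType.mp hAfg
  have hVA : ∀ x ∈ V, x ∈ A := fun x hx => Algebra.subset_adjoin hx
  have hinjA : Function.Injective A.val.toLinearMap := Subtype.val_injective
  have hmapA : ∀ W : Submodule k A, finrank k (W.map A.val.toLinearMap) = finrank k W :=
    fun W => (Submodule.equivMapOfInjective A.val.toLinearMap hinjA W).finrank_eq.symm
  -- `V` inside `A`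
  let VA : Submodule k A := V.comap A.val.toLinearMap
  have hVAmap : VA.map A.val.toLinearMap = V := by
    rw [Submodule.map_comap_eq, inf_eq_right]
    intro x hx
    exact ⟨⟨x, hVA x hx⟩, rfl⟩
  have hVAfd : FiniteDimensional k VA := by
    have e := Submodule.equivMapOfInjective A.val.toLinearMap hinjA VA
    have : FiniteDimensional k (VA.map A.val.toLinearMap) := by rw [hVAmap]; infer_instance
    exact LinearEquiv.finiteDimensional e.symm
  have h1VA : (1 : A) ∈ VA := h1
  have hpowmono : ∀ m, m ≤ D + 3 → VA ^ m ≤ VA ^ (D + 3) := by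
    intro m hm
    obtain ⟨j, hj⟩ := Nat.exists_eq_add_of_le hm
    rw [hj]
    have h2 : (1 : Submodule k A) ≤ VA ^ j := by
      rw [Submodule.one_le]
      clear hm hj
      induction j with
      | zero => rw [pow_zero]; exact Submodule.one_le.mp le_rfl
      | succ j ih =>
        rw [pow_succ]
        have := Submodule.mul_mem_mul ih h1VA
        rwa [mul_one] at this
    calc VA ^ m = VA ^ m * 1 := (mul_one _).symm
      _ ≤ VA ^ m * VA ^ j := mul_le_mul' le_rfl h2
      _ = VA ^ (m + j) := (pow_add VA m j).symm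
  have hYfd : FiniteDimensional k (VA ^ (D + 3) : Submodule k A) :=
    Module.Finite.iff_fg.mpr (Submodule.FG.pow (Module.Finite.iff_fg.mp inferInstance) _)
  obtain ⟨L, _, _, ψ, hψ, hψdep⟩ := exists_curve (k := k) (A := A) (VA ^ (D + 3))
  have hVN : VA ≤ VA ^ (D + 3) := by
    have := hpowmono 1 (by omega)
    rwa [pow_one] at this
  have hVN2 : VA ^ 2 ≤ VA ^ (D + 3) := hpowmono 2 (by omega)
  -- the image of `V`
  let VL : Submodule k L := VA.map ψ.toLinearMap
  have hVLfd : FiniteDimensional k VL := inferInstance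
  have h1VL : (1 : L) ∈ VL := ⟨1, h1VA, map_one ψ⟩
  let lA : Fin n → A := fun j => ⟨l j, hVA _ (hlV j)⟩
  have hlA : ∀ j, lA j ∈ VA := hlV
  let e : Fin n → L := fun j => ψ (lA j)
  have heV : ∀ j, e j ∈ VL := fun j => ⟨lA j, hlA j, rfl⟩
  have he : LinearIndependent k (Fin.cons 1 e : Fin (n + 1) → L) := by
    rw [Fintype.linearIndependent_iff]
    intro c hc i
    have h2 : ∑ i, c i • (Fin.cons 1 lA : Fin (n + 1) → A) i = 0 := by
      apply hψ
      · apply hVN
        refine VA.sum_mem fun i _ => VA.smul_mem _ ?_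
        refine Fin.cases ?_ (fun i => ?_) i
        · exact h1VA
        · exact hlA i
      · rw [map_sum, ← hc]
        refine Finset.sum_congr rfl fun i _ => ?_
        rw [map_smul]
        congr 1
        refine Fin.cases ?_ (fun i => ?_) i
        · rw [Fin.cons_zero, Fin.cons_zero, map_one]
        · rw [Fin.cons_succ, Fin.cons_succ]
    have h3 := congrArg (fun x : A => (x : M)) h2
    refine Fintype.linearIndependent_iff.mp hl c ?_ i
    have h4 : ((∑ i, c i • (Fin.cons 1 lA : Fin (n + 1) → A) i : A) : M) =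
        ∑ i, c i • (Fin.cons 1 l : Fin (n + 1) → M) i := by
      rw [AddSubmonoidClass.coe_finsetSum]
      refine Finset.sum_congr rfl fun i _ => ?_
      change c i • ((Fin.cons 1 lA : Fin (n + 1) → A) i : M) = _
      congr 1
      refine Fin.cases ?_ (fun i => ?_) i
      · rfl
      · rfl
    rw [← h4]
    exact h3
  -- six exponentials
  have h6L : SixExp k VL := by
    intro y hy w hw hwV hywV
    choose ω hω1 hω2 using hwV
    choose ω' hω'1 hω'2 using hywV
    have hω2' : ∀ j, ψ (ω j) = w j := hω2
    have hω'2' : ∀ j, ψ (ω' j) = y * w j := hω'2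
    have hω0 : (ω 0 : M) ≠ 0 := by
      intro h
      apply hw.ne_zero 0
      rw [← hω2' 0, show ω 0 = 0 from Subtype.ext h, map_zero]
    have hrel : ∀ j, ω 0 * ω' j = ω j * ω' 0 := by
      intro j
      have h2 : ω 0 * ω' j - ω j * ω' 0 = 0 := by
        apply hψ
        · apply hVN2
          rw [pow_two]
          exact sub_mem (Submodule.mul_mem_mul (hω1 0) (hω'1 j))
            (Submodule.mul_mem_mul (hω1 j) (hω'1 0))
        · rw [map_sub, map_mul, map_mul, hω2', hω2', hω'2', hω'2']
          ring
      exact sub_eq_zero.mp h2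
    have hrelM : ∀ j, (ω' 0 : M) / ω 0 * ω j = ω' j := by
      intro j
      have h2 := congrArg (fun x : A => (x : M)) (hrel j)
      have h3 : (ω 0 : M) * ω' j = ω j * ω' 0 := h2
      rw [div_mul_eq_mul_div, div_eq_iff hω0, mul_comm (ω' 0 : M), ← h3, mul_comm]
    refine h6 ((ω' 0 : M) / ω 0) ?_ (fun j => (ω j : M)) ?_ (fun j => hVS (hω1 j)) ?_
    · intro c hc
      apply hy c
      have h2 : ω' 0 = algebraMap k A c * ω 0 := by
        apply Subtype.ext
        rw [div_eq_iff hω0] at hc
        exact hc
      have h3 := congrArg ψ h2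
      rw [map_mul, hω'2', hω2', AlgHom.commutes] at h3
      exact mul_right_cancel₀ (hw.ne_zero 0) h3
    · have h2 : LinearIndependent k ω := by
        apply LinearIndependent.of_comp ψ.toLinearMap
        have : (ψ.toLinearMap : A → L) ∘ ω = w := funext hω2'
        rw [this]
        exact hw
      exact h2.map' A.val.toLinearMap (LinearMap.ker_eq_bot.mpr hinjA)
    · intro j
      rw [hrelM]
      exact hVS (hω'1 j)
  -- growth
  have hG : GD k D (D + 3) VL := by
    intro W _ hWV hW1 hWm2
    set WA : Submodule k A := VA ⊓ W.comap ψ.toLinearMap with hWA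
    have hWLfd : FiniteDimensional k W := Submodule.finiteDimensional_of_le hWV
    have hWAfd : FiniteDimensional k WA := Submodule.finiteDimensional_of_le inf_le_left
    have hinj : ∀ m ≤ D + 3, ∀ x ∈ WA ^ m, ψ x = 0 → x = 0 := by
      intro m hm x hx hx0
      exact hψ x ((pow_le_pow_left' (inf_le_left : WA ≤ VA) m).trans (hpowmono m hm) hx) hx0
    have hle : ∀ m ≤ D + 3, finrank k (WA ^ m : Submodule k A) ≤ m * D + 1 := by
      intro m hm
      have hWm : FiniteDimensional k (W ^ m : Submodule k L) :=
        Module.Finite.iff_fg.mpr (Submodule.FG.pow (Module.Finite.iff_fg.mp inferInstance) m)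
      have hWAm : FiniteDimensional k (WA ^ m : Submodule k A) :=
        Module.Finite.iff_fg.mpr (Submodule.FG.pow (Module.Finite.iff_fg.mp inferInstance) m)
      have hmap : (WA ^ m).map ψ.toLinearMap ≤ W ^ m := by
        have e2 : (WA ^ m).map ψ.toLinearMap = (WA.map ψ.toLinearMap) ^ m :=
          Submodule.map_pow WA ψ m
        rw [e2]
        apply pow_le_pow_left'
        rw [Submodule.map_le_iff_le_comap]
        exact inf_le_right
      let f : (WA ^ m : Submodule k A) →ₗ[k] (W ^ m : Submodule k L) :=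
        (ψ.toLinearMap.comp (WA ^ m).subtype).codRestrict (W ^ m)
          (fun x => hmap ⟨x, x.2, rfl⟩)
      have hf : Function.Injective f := by
        rw [← LinearMap.ker_eq_bot, LinearMap.ker_eq_bot']
        intro x hx
        have h4 : ψ (x : A) = 0 := congrArg Subtype.val hx
        exact Subtype.ext (hinj m hm x.1 x.2 h4)
      exact (LinearMap.finrank_le_finrank_of_injective hf).trans (hWm2 m hm)
    have hfW : finrank k W = finrank k WA := by
      have h2 : WA.map ψ.toLinearMap = W := by
        apply le_antisymm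
        · rw [Submodule.map_le_iff_le_comap]
          exact inf_le_right
        · intro x hx
          obtain ⟨a, ha, rfl⟩ := hWV hx
          exact ⟨a, ⟨ha, hx⟩, rfl⟩
      let f : WA →ₗ[k] L := ψ.toLinearMap.comp WA.subtype
      have hf : Function.Injective f := by
        rw [← LinearMap.ker_eq_bot, LinearMap.ker_eq_bot']
        intro x hx
        have h4 : ψ (x : A) = 0 := hx
        exact Subtype.ext (hinj 1 (by omega) x.1 (by rw [pow_one]; exact x.2) h4)
      have h3 := LinearMap.finrank_range_of_inj hf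
      have h4 : LinearMap.range f = W := by
        rw [← h2]
        ext x
        constructor
        · rintro ⟨a, rfl⟩
          exact ⟨a, a.2, rfl⟩
        · rintro ⟨a, ha, rfl⟩
          exact ⟨⟨a, ha⟩, rfl⟩
      rw [h4] at h3
      exact h3
    set W' : Submodule k M := WA.map A.val.toLinearMap with hW'
    have hW'V : W' ≤ V := by
      calc W' ≤ VA.map A.val.toLinearMap := Submodule.map_mono inf_le_left
        _ = V := hVAmap
    have hW'fd : FiniteDimensional k W' := Submodule.finiteDimensional_of_le hW'V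
    have h2 := bound_of_grows S hS W' (hW'V.trans hVS) ⟨1, ⟨h1VA, by
      rw [SetLike.mem_coe, Submodule.mem_comap]
      change ψ 1 ∈ W
      rw [map_one]
      exact hW1⟩, rfl⟩ D (by
      intro m hm
      have e1 : W' ^ m = (WA ^ m).map A.val.toLinearMap := (Submodule.map_pow WA A.val m).symm
      rw [e1, hmapA]
      exact hle m hm)
    rw [hW', hmapA] at h2
    rw [hfW]
    exact h2
  have hVLn : finrank k VL ≤ n + 1 := by
    have h2 : finrank k VA = finrank k V := by rw [← hmapA VA, hVAmap]
    have h3 : finrank k V ≤ n + 1 := by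
      have := finrank_range_le_card (R := k) (Fin.cons 1 l : Fin (n + 1) → M)
      rwa [Fintype.card_fin] at this
    exact (Submodule.finrank_map_le ψ.toLinearMap VA).trans (h2.le.trans h3)
  obtain ⟨f, hf0, hf⟩ := few_curve2 e he VL h1VL heV hVLn (by
    rintro _ ⟨x, -, rfl⟩ _ ⟨y, -, rfl⟩
    exact hψdep x y) h6L D hG hw N hN σ
  refine ⟨f, hf0, ?_⟩
  rintro B hB ⟨P, hP0, hPD, hP⟩
  apply hf B hB
  refine ⟨P, hP0, hPD, ?_⟩
  have hsum : ∀ a : Fin 2, ((∑ j, B (a, j) • lA j : A) : M) = ∑ j, B (a, j) • l j := by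
    intro a
    rw [AddSubmonoidClass.coe_finsetSum]
    rfl
  have hψsum : ∀ a : Fin 2, ψ (∑ j, B (a, j) • lA j : A) = ∑ j, B (a, j) • e j := by
    intro a
    rw [map_sum]
    refine Finset.sum_congr rfl fun j _ => ?_
    rw [map_smul]
  have hPA : MvPolynomial.aeval ![(∑ j, B (0, j) • lA j : A), ∑ j, B (1, j) • lA j] P = 0 := by
    apply Subtype.val_injective
    have h2 := MvPolynomial.aeval_algebraMap_apply (A := A) (B := M)
      ![(∑ j, B (0, j) • lA j : A), ∑ j, B (1, j) • lA j] P
    have h3 : (algebraMap A M) ∘ ![(∑ j, B (0, j) • lA j : A), ∑ j, B (1, j) • lA j] =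
        ![∑ j, B (0, j) • l j, ∑ j, B (1, j) • l j] := by
      funext i
      fin_cases i
      · exact hsum 0
      · exact hsum 1
    rw [h3, hP] at h2
    exact h2.symm
  rw [← hψsum 0, ← hψsum 1]
  have e' : (MvPolynomial.aeval ![ψ (∑ j, B (0, j) • lA j), ψ (∑ j, B (1, j) • lA j)] :
      MvPolynomial (Fin 2) k →ₐ[k] L) =
      ψ.comp (MvPolynomial.aeval ![(∑ j, B (0, j) • lA j : A), ∑ j, B (1, j) • lA j]) := by
    apply MvPolynomial.algHom_ext
    intro i
    fin_cases i
    · simp
    · simp
  rw [e', AlgHom.comp_apply, hPA, map_zero]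

end Run7.h577
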