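import Pool.Agent.Run7.h577.T28
import Pool.Agent.Run7.h577.T32

/-!
# Uniform version of the number of parameters
-/

set_option autoImplicit false

namespace Run7.h577

open Module Filter Pool.Agent.W256 Pool.Agent.N770

section uniform

variable {k M : Type} [Field k] [IsAlgClosed k] [CharZero k] [Field M] [Algebra k M]
  (S : Submodule k M) (hS : Grows k S) (h1S : (1 : M) ∈ S)

include hS h1S

/-- **Uniform version**: dependent pairs have few parameters. -/
theorem few_uniform2 (h6 : SixExp k S) (n D : ℕ) (hw : Nat.sqrt (4 * D + 3) ≤ n) (R : ℕ)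
    (hR : 2 * D < R ∨ n + Nat.sqrt (4 * D + 3) - 2 < R) (σ : Fin R → Fin 2 × Fin n) :
    ∃ B : ℕ, ∀ l : Fin n → M, (∀ j, l j ∈ S) →
      LinearIndependent k (Fin.cons 1 l : Fin (n + 1) → M) →
      ∃ f : MvPolynomial (Fin R) k, f ≠ 0 ∧ f.totalDegree ≤ B ∧
        ∀ A : Fin 2 × Fin n → k, RowsLI A →
          Rel k D (∑ j, A (0, j) • l j) (∑ j, A (1, j) • l j) →
          MvPolynomial.eval (A ∘ σ) f = 0 := by
  classical
  by_contra hcon
  push Not at hcon
  choose l hlS hl hbad using hcon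
  set 𝒰 : Ultrafilter ℕ := Filter.hyperfilter ℕ with h𝒰
  obtain ⟨K, U, _, _, _, _, _, g, gM, hgs, hgMs, hg, hgM, hp⟩ := exists_ultra2 𝒰 k M
  let lc : Fin (n + 1) → ℕ → M := fun i N => (Fin.cons 1 (l N) : Fin (n + 1) → M) i
  have hlcS : ∀ N, Submodule.span k (Set.range fun i => lc i N) ≤ S := by
    intro N
    rw [Submodule.span_le]
    rintro _ ⟨i, rfl⟩
    change (Fin.cons 1 (l N) : Fin (n + 1) → M) i ∈ S
    refine Fin.cases ?_ (fun i => ?_) i
    · exact h1S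
    · exact hlS N i
  have hG₁ := t_grows 𝒰 g gM hgs hgMs hg hgM hp lc
    (Filter.Eventually.of_forall fun N => Grows.mono hS (hlcS N))
  have h6₁ := t_six 𝒰 g gM hgs hgMs hg hgM hp lc
    (Filter.Eventually.of_forall fun N => SixExp.mono h6 (hlcS N))
  set V₁ : Submodule K U := Submodule.span K (Set.range fun i => gM (lc i)) with hV₁
  let l₁ : Fin n → U := fun j => gM (fun N => l N j)
  have hcons : (fun i => gM (lc i)) = (Fin.cons 1 l₁ : Fin (n + 1) → U) := by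
    funext i
    refine Fin.cases ?_ (fun i => ?_) i
    · change gM (fun N => 1) = 1
      exact map_one gM
    · rfl
  have hl₁ : LinearIndependent K (Fin.cons 1 l₁ : Fin (n + 1) → U) := by
    rw [← hcons]
    exact (t_li 𝒰 g gM hgs hg hgM hp lc).mpr (Filter.Eventually.of_forall fun N => hl N)
  have h1V₁ : (1 : U) ∈ V₁ := by
    rw [hV₁, hcons]
    exact Submodule.subset_span ⟨0, by rw [Fin.cons_zero]⟩
  have hl₁V : ∀ j, l₁ j ∈ V₁ := by
    intro j
    rw [hV₁, hcons]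
    exact Submodule.subset_span ⟨j.succ, by rw [Fin.cons_succ]⟩
  obtain ⟨F, hF0, hF⟩ := few_gen2 V₁ hG₁ h6₁ h1V₁ l₁ hl₁ hl₁V D hw R hR σ
  obtain ⟨f, hfd, hf0, hfe⟩ := lift_mv 𝒰 g hgs hg F hF0
  have hgood : ∀ᶠ N in (𝒰 : Filter ℕ), f N ≠ 0 ∧ F.totalDegree ≤ N := by
    refine hf0.and ?_
    exact (Filter.eventually_ge_atTop F.totalDegree).filter_mono Nat.hyperfilter_le_atTop
  have hex : ∀ N, ∃ (A : Fin 2 × Fin n → k) (P : MvPolynomial (Fin 2) k), P ≠ 0 ∧
      P.totalDegree ≤ D ∧ ((f N ≠ 0 ∧ F.totalDegree ≤ N) → RowsLI A ∧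
        MvPolynomial.aeval ![∑ j, A (0, j) • l N j, ∑ j, A (1, j) • l N j] P = 0 ∧
        MvPolynomial.eval (A ∘ σ) (f N) ≠ 0) := by
    intro N
    by_cases h : f N ≠ 0 ∧ F.totalDegree ≤ N
    · obtain ⟨A, hA1, ⟨P, hP0, hPD, hP⟩, hA2⟩ := hbad N (f N) h.1 ((hfd N).trans h.2)
      exact ⟨A, P, hP0, hPD, fun _ => ⟨hA1, hP, hA2⟩⟩
    · refine ⟨0, 1, one_ne_zero, ?_, fun h' => absurd h' h⟩
      rw [MvPolynomial.totalDegree_one]
      exact Nat.zero_le _
  choose A P hP0 hPD hAP using hex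
  have hrow : RowsLI (fun s => g (fun N => A N s)) := by
    intro α β hαβ
    obtain ⟨a, rfl⟩ := hgs α
    obtain ⟨b, rfl⟩ := hgs β
    have h1 : ∀ᶠ N in (𝒰 : Filter ℕ), ∀ j, a N * A N (0, j) + b N * A N (1, j) = 0 := by
      rw [Filter.eventually_all]
      intro j
      have h2 : g (a * (fun N => A N (0, j)) + b * fun N => A N (1, j)) = 0 := by
        rw [map_add, map_mul, map_mul]
        exact hαβ j
      exact (hg _).mp h2
    have h2 := (h1.and hgood).mono fun N hN => (hAP N hN.2).1 _ _ hN.1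
    exact ⟨(hg _).mpr (h2.mono fun N hN => hN.1), (hg _).mpr (h2.mono fun N hN => hN.2)⟩
  have hrel : Rel K D (∑ j, g (fun N => A N (0, j)) • l₁ j) (∑ j, g (fun N => A N (1, j)) • l₁ j) := by
    refine ⟨lim g P D, lim_ne_zero g 𝒰 hg P D hPD hP0, totalDegree_lim g P D, ?_⟩
    rw [← t_combo g gM hp (fun j N => l N j) (fun j N => A N (0, j)),
      ← t_combo g gM hp (fun j N => l N j) (fun j N => A N (1, j)), MvPolynomial.aeval_def,
      eval₂_lim g gM (algebraMap K U) hp P D hPD, hgM]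
    exact hgood.mono fun N hN => (hAP N hN).2.1
  have h1 := hF _ hrow hrel
  have h2 := hfe (fun N => A N ∘ σ)
  have h3 : g (fun N => MvPolynomial.eval (A N ∘ σ) (f N)) = 0 := h2.trans h1
  rw [hg] at h3
  obtain ⟨N, hN1, hN2⟩ := (h3.and hgood).exists
  exact (hAP N hN2).2.2 hN1

end uniform

/-- small degrees -/
theorem sqrt_le_of_lt {n D : ℕ} (h : D < (n + 1) ^ 2 / 4) : Nat.sqrt (4 * D + 3) ≤ n := by
  rw [← Nat.lt_succ_iff, Nat.sqrt_lt']
  have h1 : 4 * (D + 1) ≤ (n + 1) ^ 2 := by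
    have := Nat.div_mul_le_self ((n + 1) ^ 2) 4
    omega
  rw [Nat.succ_eq_add_one]
  omega

end Run7.h577
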