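import Mathlib
import Pool.Agent.Run7.h577.VQ
import Pool.Agent.N195.FH_ARCH
import Pool.Agent.N40.FH_MD
import Pool.Agent.N40.FH_DENJ

/-!
Faltings heights: the violators of `h_F ≤ κ log N + c`.
-/

set_option autoImplicit false

namespace Run7.h577.V

open Finset Run7.h577.S Filter Topology
open Pool.Agent.N906.FH (Ec minDisc arch jE IsPer Mx)

theorem size_nonneg (a b : ℤ) : 0 ≤ Size a b := le_max_of_le_left (by positivity)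

theorem mx_le (a b : ℤ) : Mx a b ≤ 2 * Size a b := by
  unfold Mx
  apply max_le
  · have h := le_max_left (4 * |(a : ℝ)| ^ 3) (27 * (b : ℝ) ^ 2)
    have h0 : 0 ≤ |(a : ℝ)| ^ 3 := by positivity
    unfold Size
    linarith
  · have e : Pool.Agent.N906.SZ.Dd a b = 4 * a ^ 3 - 27 * b ^ 2 := rfl
    rw [e]
    unfold Size
    push_cast
    refine (abs_sub _ _).trans ?_
    rw [abs_mul, abs_mul, abs_pow, abs_pow, abs_of_pos (by norm_num : (0 : ℝ) < 4),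
      abs_of_pos (by norm_num : (0 : ℝ) < 27), sq_abs]
    have := le_max_left (4 * |(a : ℝ)| ^ 3) (27 * (b : ℝ) ^ 2)
    have := le_max_right (4 * |(a : ℝ)| ^ 3) (27 * (b : ℝ) ^ 2)
    linarith

theorem pow_of_log {σ N S C : ℝ} (hN : 0 < N) (hS : 0 < S)
    (h : σ * Real.log N ≤ Real.log S + C) : Real.exp (-C) * N ^ σ ≤ S := by
  have h1 : N ^ σ ≤ S * Real.exp C := by
    rw [Real.rpow_def_of_pos hN]
    calc Real.exp (Real.log N * σ) ≤ Real.exp (Real.log S + C) := Real.exp_le_exp.2 (by linarith)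
      _ = S * Real.exp C := by rw [Real.exp_add, Real.exp_log hS]
  calc Real.exp (-C) * N ^ σ ≤ Real.exp (-C) * (S * Real.exp C) := by
        apply mul_le_mul_of_nonneg_left h1 (Real.exp_pos _).le
    _ = S * (Real.exp (-C) * Real.exp C) := by ring
    _ = S := by rw [← Real.exp_add]; simp

/-- the violators for the height over `ℚ` -/
def HU (f : ℤ → ℤ → ℝ) (κ c X : ℝ) : Set (ℤ × ℤ) :=
  {q | Mn q.1 q.2 ∧ |(q.1 : ℝ)| ≤ X ^ 2 ∧ |(q.2 : ℝ)| ≤ X ^ 3 ∧ ∃ τ, IsPer q.1 q.2 τ ∧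
    κ * Real.log (f q.1 q.2) + c ≤ (Real.log (minDisc (Ec q.1 q.2) : ℝ) + arch τ) / 12}

/-- the violators for the stable height -/
def HSt (f : ℤ → ℤ → ℝ) (κ c X : ℝ) : Set (ℤ × ℤ) :=
  {q | Mn q.1 q.2 ∧ |(q.1 : ℝ)| ≤ X ^ 2 ∧ |(q.2 : ℝ)| ≤ X ^ 3 ∧ ∃ τ, IsPer q.1 q.2 τ ∧
    κ * Real.log (f q.1 q.2) + c ≤ (Real.log ((jE q.1 q.2).den : ℝ) + arch τ) / 12}

theorem den_le {a b : ℤ} (hD : Disc a b ≠ 0) :
    Real.log ((jE a b).den : ℝ) ≤ Real.log |((Disc a b : ℤ) : ℝ)| := by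
  have h1 : jE a b = ((6912 * a ^ 3 : ℤ) : ℚ) / ((Disc a b : ℤ) : ℚ) := by
    rw [Pool.Agent.N40.FH.jE_eq (a := a) (b := b) hD]
    push_cast
    rfl
  have h2 : ((jE a b).den : ℤ) ∣ Disc a b := by
    rw [h1, ← Rat.divInt_eq_div]
    exact Rat.den_dvd _ _
  have h3 : (0 : ℝ) < ((jE a b).den : ℝ) := by exact_mod_cast (jE a b).den_pos
  apply Real.log_le_log h3
  have h4 : (jE a b).den ≤ (Disc a b).natAbs :=
    Nat.le_of_dvd (Int.natAbs_pos.2 hD) (Int.natCast_dvd.1 h2)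
  have h5 : |((Disc a b : ℤ) : ℝ)| = ((Disc a b).natAbs : ℝ) := by rw [Nat.cast_natAbs, Int.cast_abs]
  rw [h5]
  exact_mod_cast h4

theorem up_common {f : ℤ → ℤ → ℝ} (hf : ∀ a b, Mn a b → (Cond6 a b : ℝ) ≤ f a b) {κ c C₁ C₂ H : ℝ}
    (hκ : 0 < κ) {a b : ℤ} {τ : UpperHalfPlane} (hm : Mn a b)
    (h1 : arch τ + Real.log |((Disc a b : ℤ) : ℝ)| ≤ Real.log (Mx a b) + C₁)
    (h2 : H ≤ Real.log |((Disc a b : ℤ) : ℝ)| + C₂)
    (h3 : κ * Real.log (f a b) + c ≤ (H + arch τ) / 12) :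
    Real.exp (-(C₁ + C₂ - 12 * c)) / 2 * (Cond6 a b : ℝ) ^ (12 * κ) ≤ Size a b := by
  have hN : (0 : ℝ) < Cond6 a b := by exact_mod_cast cond6_pos a b
  have hMx : 0 < Mx a b := lt_of_lt_of_le (abs_pos.2 (by exact_mod_cast hm.1))
    (le_max_right (|(a : ℝ)| ^ 3) |((Disc a b : ℤ) : ℝ)|)
  have g1 : Real.log (Cond6 a b : ℝ) ≤ Real.log (f a b) := Real.log_le_log hN (hf a b hm)
  have g2 : κ * Real.log (Cond6 a b : ℝ) ≤ κ * Real.log (f a b) := mul_le_mul_of_nonneg_left g1 hκ.le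
  have g3 := pow_of_log (σ := 12 * κ) (C := C₁ + C₂ - 12 * c) hN hMx (by linarith)
  have g4 := mx_le a b
  calc Real.exp (-(C₁ + C₂ - 12 * c)) / 2 * (Cond6 a b : ℝ) ^ (12 * κ) =
        (Real.exp (-(C₁ + C₂ - 12 * c)) * (Cond6 a b : ℝ) ^ (12 * κ)) / 2 := by ring
    _ ≤ Mx a b / 2 := by linarith
    _ ≤ Size a b := by linarith

theorem HU_sub {f : ℤ → ℤ → ℝ} (hf : ∀ a b, Mn a b → (Cond6 a b : ℝ) ≤ f a b) {κ : ℝ} (c : ℝ)
    (hκ : 0 < κ) : ∃ C : ℝ, 0 < C ∧ ∀ X : ℝ, HU f κ c X ⊆ CurvH (12 * κ) C X := by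
  obtain ⟨C₁, hC₁⟩ := Pool.Agent.N195.FH.arch_bds
  obtain ⟨C₂, hC₂⟩ := Pool.Agent.N40.FH.md
  refine ⟨Real.exp (-(C₁ + C₂ - 12 * c)) / 2, by positivity, ?_⟩
  rintro X q ⟨h1, h2, h3, τ, hτ, h4⟩
  exact ⟨h1, h2, h3, up_common hf hκ h1 ((hC₁ q.1 q.2 h1.1).2 τ hτ).2.2 (hC₂ q.1 q.2 h1).2 h4⟩

theorem HSt_sub {f : ℤ → ℤ → ℝ} (hf : ∀ a b, Mn a b → (Cond6 a b : ℝ) ≤ f a b) {κ : ℝ} (c : ℝ)
    (hκ : 0 < κ) : ∃ C : ℝ, 0 < C ∧ ∀ X : ℝ, HSt f κ c X ⊆ CurvH (12 * κ) C X := by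
  obtain ⟨C₁, hC₁⟩ := Pool.Agent.N195.FH.arch_bds
  refine ⟨Real.exp (-(C₁ + 0 - 12 * c)) / 2, by positivity, ?_⟩
  rintro X q ⟨h1, h2, h3, τ, hτ, h4⟩
  exact ⟨h1, h2, h3, up_common hf hκ h1 ((hC₁ q.1 q.2 h1.1).2 τ hτ).2.2
    (by rw [add_zero]; exact den_le h1.1) h4⟩

theorem low_common {f : ℤ → ℤ → ℝ} {B : ℝ} (hB : 1 ≤ B)
    (hf : ∀ a b, Mn a b → (Cond6 a b : ℝ) ≤ f a b ∧ f a b ≤ B * Cond6 a b) {κ c C₁ C₂ H : ℝ}
    (hκ : 0 < κ) {a b : ℤ} {τ : UpperHalfPlane} (hm : Mn a b) (h1 : -C₁ ≤ arch τ)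
    (h2 : Real.log |((Disc a b : ℤ) : ℝ)| - C₂ ≤ H)
    (h3 : Real.exp (12 * κ * Real.log B + C₁ + C₂ + 12 * c) * (Cond6 a b : ℝ) ^ (12 * κ) ≤
      |((Disc a b : ℤ) : ℝ)|) :
    κ * Real.log (f a b) + c ≤ (H + arch τ) / 12 := by
  have hN : (0 : ℝ) < Cond6 a b := by exact_mod_cast cond6_pos a b
  obtain ⟨g1, g2⟩ := hf a b hm
  have hf0 : 0 < f a b := lt_of_lt_of_le hN g1
  have g3 : Real.log (f a b) ≤ Real.log B + Real.log (Cond6 a b : ℝ) := by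
    rw [← Real.log_mul (by linarith) hN.ne']
    exact Real.log_le_log hf0 g2
  have g4 := Real.log_le_log (by positivity) h3
  rw [Real.log_mul (Real.exp_pos _).ne' (by positivity), Real.log_exp, Real.log_rpow hN] at g4
  have g5 := mul_le_mul_of_nonneg_left g3 hκ.le
  linarith

theorem sub_HU {f : ℤ → ℤ → ℝ} {B : ℝ} (hB : 1 ≤ B)
    (hf : ∀ a b, Mn a b → (Cond6 a b : ℝ) ≤ f a b ∧ f a b ≤ B * Cond6 a b) {κ : ℝ} (c : ℝ)
    (hκ : 0 < κ) : ∃ C : ℝ, 0 < C ∧ ∀ X : ℝ, CurvD (12 * κ) C X ⊆ HU f κ c X := by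
  obtain ⟨C₁, hC₁⟩ := Pool.Agent.N195.FH.arch_bds
  obtain ⟨C₂, hC₂⟩ := Pool.Agent.N40.FH.md
  refine ⟨Real.exp (12 * κ * Real.log B + C₁ + C₂ + 12 * c), by positivity, ?_⟩
  rintro X q ⟨h1, h2, h3, h4⟩
  obtain ⟨⟨τ, hτ⟩, hτ2⟩ := hC₁ q.1 q.2 h1.1
  exact ⟨h1, h2, h3, τ, hτ, low_common hB hf hκ h1 (hτ2 τ hτ).1 (hC₂ q.1 q.2 h1).1 h4⟩

/-- the curves with a large discriminant whose invariant has a large denominator -/
def CurvS (σ C X : ℝ) : Set (ℤ × ℤ) :=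
  {e | e ∈ CurvD σ C X ∧ |((Disc e.1 e.2 : ℤ) : ℝ)| ≤ 136048896 * ((jE e.1 e.2).den : ℝ)}

theorem curvS_fin (σ C X : ℝ) : (CurvS σ C X).Finite := (curvD_fin σ C X).subset fun _ h => h.1

theorem sub_HSt {f : ℤ → ℤ → ℝ} {B : ℝ} (hB : 1 ≤ B)
    (hf : ∀ a b, Mn a b → (Cond6 a b : ℝ) ≤ f a b ∧ f a b ≤ B * Cond6 a b) {κ : ℝ} (c : ℝ)
    (hκ : 0 < κ) : ∃ C : ℝ, 0 < C ∧ ∀ X : ℝ, CurvS (12 * κ) C X ⊆ HSt f κ c X := by
  obtain ⟨C₁, hC₁⟩ := Pool.Agent.N195.FH.arch_bds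
  refine ⟨Real.exp (12 * κ * Real.log B + C₁ + Real.log 136048896 + 12 * c), by positivity, ?_⟩
  rintro X q ⟨⟨h1, h2, h3, h4⟩, h5⟩
  obtain ⟨⟨τ, hτ⟩, hτ2⟩ := hC₁ q.1 q.2 h1.1
  refine ⟨h1, h2, h3, τ, hτ, low_common hB hf hκ h1 (hτ2 τ hτ).1 ?_ h4⟩
  have hD : (0 : ℝ) < |((Disc q.1 q.2 : ℤ) : ℝ)| := abs_pos.2 (by exact_mod_cast h1.1)
  have hden : (0 : ℝ) < ((jE q.1 q.2).den : ℝ) := by exact_mod_cast (jE q.1 q.2).den_pos
  have h6 := Real.log_le_log hD h5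
  rw [Real.log_mul (by norm_num) hden.ne'] at h6
  linarith

/-- the denominator of the invariant of a semistable curve -/
theorem sem_den (W : WeierstrassCurve ℤ) (hΔ : W.Δ ≠ 0) (hco : IsCoprime W.c₄ W.Δ) {a b w : ℤ}
    (hw : w = 1 ∨ w = 3) (ha : a * w ^ 4 = 27 * W.c₄) (hb : b * w ^ 6 = 54 * W.c₆) :
    |((Disc a b : ℤ) : ℝ)| ≤ 136048896 * ((jE a b).den : ℝ) := by
  have hrel := W.c_relation
  have hw1 : (1 : ℤ) ≤ w := by rcases hw with h | h <;> omega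
  have hw12 : (1 : ℤ) ≤ w ^ 12 := one_le_pow₀ hw1
  have hDisc : Disc a b * w ^ 12 = 136048896 * W.Δ := by
    unfold Disc
    calc (4 * a ^ 3 - 27 * b ^ 2) * w ^ 12 = 4 * (a * w ^ 4) ^ 3 - 27 * (b * w ^ 6) ^ 2 := by ring
      _ = 78732 * (W.c₄ ^ 3 - W.c₆ ^ 2) := by rw [ha, hb]; ring
      _ = 136048896 * W.Δ := by rw [← hrel]; ring
  have hD0 : Disc a b ≠ 0 := by
    intro h
    rw [h, zero_mul] at hDisc
    apply hΔ
    omega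
  obtain ⟨q, hq⟩ : ∃ q : ℚ, q = jE a b := ⟨_, rfl⟩
  have hj : q * (W.Δ : ℚ) = (W.c₄ : ℚ) ^ 3 := by
    have h1 : q = 6912 * (a : ℚ) ^ 3 / ((Disc a b : ℤ) : ℚ) := by
      rw [hq]
      exact Pool.Agent.N40.FH.jE_eq hD0
    have hD0' : ((Disc a b : ℤ) : ℚ) ≠ 0 := by exact_mod_cast hD0
    have hw0 : (w : ℚ) ^ 12 ≠ 0 := by
      have : (w : ℚ) ≠ 0 := by exact_mod_cast (by omega : w ≠ 0)
      exact pow_ne_zero _ this
    have e1 : ((Disc a b : ℤ) : ℚ) * (w : ℚ) ^ 12 = 136048896 * (W.Δ : ℚ) := by exact_mod_cast hDisc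
    have e2 : (a : ℚ) * (w : ℚ) ^ 4 = 27 * (W.c₄ : ℚ) := by exact_mod_cast ha
    have e3 : q * ((Disc a b : ℤ) : ℚ) = 6912 * (a : ℚ) ^ 3 := by
      rw [h1, div_mul_cancel₀ _ hD0']
    have e4 : 136048896 * (q * (W.Δ : ℚ)) = 136048896 * (W.c₄ : ℚ) ^ 3 := by
      calc 136048896 * (q * (W.Δ : ℚ)) = q * (136048896 * (W.Δ : ℚ)) := by ring
        _ = q * ((Disc a b : ℤ) : ℚ) * (w : ℚ) ^ 12 := by rw [← e1]; ring
        _ = 6912 * ((a : ℚ) * (w : ℚ) ^ 4) ^ 3 := by rw [e3]; ring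
        _ = _ := by rw [e2]; ring
    linarith
  have hz : q.num * W.Δ = W.c₄ ^ 3 * q.den := by
    have hden0 : (q.den : ℚ) ≠ 0 := by exact_mod_cast q.den_ne_zero
    have h1 : (q.num : ℚ) = q * q.den := (Rat.mul_den_eq_num q).symm
    have h2 : (q.num : ℚ) * (W.Δ : ℚ) = (W.c₄ : ℚ) ^ 3 * (q.den : ℚ) := by
      rw [h1, ← hj]; ring
    exact_mod_cast h2
  have hdvd : W.Δ ∣ (q.den : ℤ) := by
    have h1 : W.Δ ∣ W.c₄ ^ 3 * (q.den : ℤ) := ⟨q.num, by rw [← hz]; ring⟩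
    exact (hco.symm.pow_right (n := 3)).dvd_of_dvd_mul_left h1
  have hle : W.Δ.natAbs ≤ q.den := Nat.le_of_dvd q.den_pos (Int.natCast_dvd_natCast.1 (by
    rw [Int.natCast_natAbs]
    exact (abs_dvd _ _).2 hdvd))
  have h5 : |((Disc a b : ℤ) : ℝ)| * (w : ℝ) ^ 12 = 136048896 * (W.Δ.natAbs : ℝ) := by
    have h6 := congrArg (fun z : ℤ => |(z : ℝ)|) hDisc
    simp only [Int.cast_mul, Int.cast_pow, abs_mul, Int.cast_ofNat] at h6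
    rw [Nat.cast_natAbs, Int.cast_abs]
    have hwR : (0 : ℝ) ≤ (w : ℝ) ^ 12 := by positivity
    rw [abs_of_nonneg hwR] at h6
    rw [h6]
    norm_num
  have hw12R : (1 : ℝ) ≤ (w : ℝ) ^ 12 := by exact_mod_cast hw12
  have h7 : (W.Δ.natAbs : ℝ) ≤ ((jE a b).den : ℝ) := by
    rw [← hq]
    exact_mod_cast hle
  calc |((Disc a b : ℤ) : ℝ)| ≤ |((Disc a b : ℤ) : ℝ)| * (w : ℝ) ^ 12 :=
        le_mul_of_one_le_right (abs_nonneg _) hw12R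
    _ = 136048896 * (W.Δ.natAbs : ℝ) := h5
    _ ≤ _ := by linarith

theorem sem_card_gen (σ C X : ℝ) (T : Set (ℤ × ℤ)) (hT : T.Finite)
    (h : ∀ (W : WeierstrassCurve ℤ) (a b w : ℤ), W.Δ ≠ 0 → IsCoprime W.c₄ W.Δ →
      |(W.c₄ : ℝ)| ≤ (X / 6) ^ 2 → |(W.c₆ : ℝ)| ≤ (X / 6) ^ 3 →
      C * (Run7.h577.S.cond W : ℝ) ^ σ ≤ |(W.Δ : ℝ)| → (w = 1 ∨ w = 3) → a * w ^ 4 = 27 * W.c₄ →
      b * w ^ 6 = 54 * W.c₆ → ¬ ((3 : ℤ) ^ 4 ∣ a ∧ (3 : ℤ) ^ 6 ∣ b) → (a, b) ∈ T) :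
    (SemD σ C (X / 6)).ncard ≤ 2 * T.ncard := by
  have hfin : (SemD σ C (X / 6)).Finite := (semH_fin σ C (X / 6)).subset (semD_sub σ C (X / 6))
  obtain ⟨P, hP⟩ : ∃ P : Set (ℤ × ℤ), P = {q | 3 ∣ q.1 ∧ 27 ∣ q.2} := ⟨_, rfl⟩
  rw [← Set.ncard_inter_add_ncard_sdiff_eq_ncard (SemD σ C (X / 6)) P hfin, two_mul]
  apply Nat.add_le_add
  · apply Set.ncard_le_ncard_of_injOn (fun q => (q.1 / 3, 2 * (q.2 / 27))) _ _ hT
    · rintro q ⟨⟨W, ⟨hΔ, hco⟩, hq, h4, h6, hN⟩, hqP⟩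
      rw [hP] at hqP
      obtain ⟨h3, h27⟩ := hqP
      rw [hq] at h3 h27 ⊢
      simp only [] at h3 h27 ⊢
      apply h W _ _ 3 hΔ hco h4 h6 hN (Or.inr rfl)
      · omega
      · omega
      · rintro ⟨h81, -⟩
        obtain ⟨c', hc'⟩ := h3
        obtain ⟨d', hd'⟩ := h27
        have e1 : W.c₄ / 3 = c' := by omega
        rw [e1] at h81
        obtain ⟨c'', hc''⟩ := h81
        have hrel := W.c_relation
        rw [hc', hd', hc''] at hrel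
        have h5 : 64 * W.Δ = 3 * (3 * (3 ^ 10 * c'' ^ 3) - 9 * d' ^ 2) := by
          have : 27 * (64 * W.Δ) = 27 * (3 * (3 * (3 ^ 10 * c'' ^ 3) - 9 * d' ^ 2)) := by
            calc 27 * (64 * W.Δ) = 1728 * W.Δ := by ring
              _ = _ := by rw [hrel]; ring
          omega
        have h6 : (3 : ℤ) ∣ W.Δ := by omega
        have h7 : (3 : ℤ) ∣ W.c₄ := ⟨c', hc'⟩
        have h8 := hco.isUnit_of_dvd' h7 h6
        rw [Int.isUnit_iff] at h8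
        omega
    · rintro q ⟨-, hqP⟩ q' ⟨-, hqP'⟩ h
      rw [hP] at hqP hqP'
      obtain ⟨h3, h27⟩ := hqP
      obtain ⟨h3', h27'⟩ := hqP'
      simp only [Prod.mk.injEq] at h
      ext
      · omega
      · omega
  · apply Set.ncard_le_ncard_of_injOn (fun q => (27 * q.1, 54 * q.2)) _ _ hT
    · rintro q ⟨⟨W, ⟨hΔ, hco⟩, hq, h4, h6, hN⟩, hqP⟩
      rw [hP] at hqP
      rw [hq] at hqP ⊢
      apply h W _ _ 1 hΔ hco h4 h6 hN (Or.inl rfl)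
      · simp
      · simp
      · rintro ⟨h81, h729⟩
        apply hqP
        constructor
        · simp only [] at h81 ⊢
          omega
        · simp only [] at h729 ⊢
          omega
    · rintro q - q' - h
      simp only [Prod.mk.injEq] at h
      ext
      · omega
      · omega

theorem curvS_low (σ C κ : ℝ) (hσ : 1 < σ) (hκ : σ < κ) (hκ2 : κ < 2) (hC : 0 < C) :
    ∃ c : ℝ, 0 < c ∧ ∃ X₀ : ℝ, ∀ X : ℝ, X₀ ≤ X →
      c * X ^ (6 / κ - 1) ≤ ((CurvS σ C X).ncard : ℝ) := by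
  obtain ⟨c, hc, X₀, h⟩ := semi_low σ C κ hσ hκ hκ2 hC
  refine ⟨c * (1 / 6) ^ (6 / κ - 1) / 2, by positivity, max (6 * X₀) 1, fun X hX => ?_⟩
  have h1 : 6 * X₀ ≤ X := (le_max_left _ _).trans hX
  have hX1 : 1 ≤ X := (le_max_right _ _).trans hX
  have h2 := h (X / 6) (by linarith)
  have h3 : ((SemD σ C (X / 6)).ncard : ℝ) ≤ 2 * ((CurvS σ C X).ncard : ℝ) := by
    have := sem_card_gen σ C X (CurvS σ C X) (curvS_fin σ C X) (by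
      intro W a b w hΔ hco h4 h6 hN hw ha hb h3
      exact ⟨sem_mem (by linarith) hC W hΔ hco h4 h6 hN (by linarith) hw ha hb h3,
        sem_den W hΔ hco hw ha hb⟩)
    exact_mod_cast this
  have e : (X / 6) ^ (6 / κ - 1) = (1 / 6) ^ (6 / κ - 1) * X ^ (6 / κ - 1) := by
    rw [← Real.mul_rpow (by norm_num) (by linarith)]
    congr 1
    ring
  rw [e] at h2
  linarith

/-- the exponent, in general -/
theorem exp_gen (σ C : ℝ) (hσ : 1 < σ) (hσ2 : σ ≤ 3 / 2) (hC : 0 < C)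
    (S : ℝ → Set (ℤ × ℤ)) (h1 : ∀ X, S X ⊆ CurvH σ C X)
    (h2 : ∀ κ : ℝ, σ < κ → κ < 2 → ∃ c : ℝ, 0 < c ∧ ∃ X₀ : ℝ, ∀ X : ℝ, X₀ ≤ X →
      c * X ^ (6 / κ - 1) ≤ ((S X).ncard : ℝ)) :
    Tendsto (fun X : ℝ => Real.log ((S X).ncard : ℝ) / Real.log X) atTop (𝓝 (6 / σ - 1)) := by
  have hσ0 : 0 < σ := by linarith
  have hmax : max (6 / σ - 1) 3 = 6 / σ - 1 := by
    apply max_eq_left
    rw [le_sub_iff_add_le, le_div_iff₀ hσ0]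
    linarith
  apply tendsto_exp
  · intro ε hε
    obtain ⟨K, hK, h⟩ := all_up ε σ C hε hσ0 hC
    refine ⟨K, hK, fun X hX => ?_⟩
    have h3 : ((S X).ncard : ℝ) ≤ ((CurvH σ C X).ncard : ℝ) := by
      exact_mod_cast Set.ncard_le_ncard (h1 X) (curvH_fin σ C X)
    have h4 := h X hX
    rw [hmax] at h4
    exact h3.trans h4
  · intro ε hε
    obtain ⟨κ, hκ1, hκ2, hκ3⟩ : ∃ κ : ℝ, σ < κ ∧ κ < 2 ∧ 6 / σ - 1 - ε ≤ 6 / κ - 1 := by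
      refine ⟨min (σ + ε / 12) (7 / 4), ?_, ?_, ?_⟩
      · rw [lt_min_iff]
        constructor <;> linarith
      · exact lt_of_le_of_lt (min_le_right _ _) (by norm_num)
      · have g1 : σ < min (σ + ε / 12) (7 / 4) := by
          rw [lt_min_iff]
          constructor <;> linarith
        have g2 : min (σ + ε / 12) (7 / 4) ≤ σ + ε / 12 := min_le_left _ _
        set κ := min (σ + ε / 12) (7 / 4)
        have g3 : 0 < κ := by linarith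
        have g4 : 6 / σ - 6 / κ = 6 * (κ - σ) / (σ * κ) := by field_simp
        have g5 : 6 * (κ - σ) / (σ * κ) ≤ ε := by
          rw [div_le_iff₀ (by positivity)]
          have : 1 ≤ σ * κ := by nlinarith
          nlinarith
        linarith
    obtain ⟨c, hc, X₀, h⟩ := h2 κ hκ1 hκ2
    refine ⟨c, hc, max X₀ 1, fun X hX => ?_⟩
    have hX1 : 1 ≤ X := (le_max_right _ _).trans hX
    refine le_trans ?_ (h X ((le_max_left _ _).trans hX))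
    apply mul_le_mul_of_nonneg_left _ hc.le
    exact Real.rpow_le_rpow_of_exponent_le hX1 hκ3

end Run7.h577.V
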