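import Mathlib

/-!
# Traces and tame ramification, elementary form
-/

set_option autoImplicit false

namespace Run7.h577

open Module

/-- in a finite dimensional algebra over a field of characteristic zero, an element all of whose
multiples have trace zero is nilpotent -/
theorem nilp_of_trace {E B : Type*} [Field E] [CharZero E] [CommRing B] [Algebra E B]
    [FiniteDimensional E B] (f : B) (h : ∀ g : B, Algebra.trace E B (f * g) = 0) :
    IsNilpotent f := by
  have hart : IsArtinian B B := isArtinian_of_tower E inferInstance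
  obtain ⟨n, y, hy⟩ := IsArtinian.exists_pow_succ_smul_dvd f (1 : B)
  simp only [smul_eq_mul, mul_one] at hy
  have h1 : ∀ j, f ^ n * (f * y) ^ j = f ^ n := by
    intro j
    induction j with
    | zero => rw [pow_zero, mul_one]
    | succ j ih =>
      rw [pow_succ, ← mul_assoc, ih, ← mul_assoc, ← pow_succ, hy]
  set e := (f * y) ^ (n + 1) with he
  have hee : e * e = e := by
    have h2 : e * e = f * (f ^ n * (f * y) ^ (n + 1)) * y ^ (n + 1) := by
      rw [he]; ring
    rw [h2, h1, he]
    ring
  have hfe : f ^ n * e = f ^ n := h1 _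
  have htr : Algebra.trace E B e = 0 := by
    have h2 : e = f * (f ^ n * y ^ (n + 1)) := by rw [he]; ring
    rw [h2]
    exact h _
  have hidem : IsIdempotentElem (Algebra.lmul E B e) := by
    rw [IsIdempotentElem, ← map_mul, hee]
  have h3 := LinearMap.IsIdempotentElem.eq_zero_of_trace_eq_zero hidem htr
  have h4 : e = 0 := by
    have := LinearMap.congr_fun h3 (1 : B)
    simpa using this
  refine ⟨n, ?_⟩
  rw [← hfe, h4, mul_zero]

section tame

variable {R E L C : Type*} [CommRing R] [IsDomain R] [IsPrincipalIdealRing R] [Algebra ℚ R]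
  [Field E] [Field L] [Algebra R E] [IsFractionRing R E] [Algebra E L] [Algebra R L]
  [IsScalarTower R E L] [FiniteDimensional E L] [Algebra.IsSeparable E L]
  [CommRing C] [IsDomain C] [Algebra R C] [Algebra C L] [IsScalarTower R C L]
  [IsIntegralClosure C R L]

variable (R E L C) in
theorem trace_algebraMap (f : C) :
    ∃ r : R, algebraMap R E r = Algebra.trace E L (algebraMap C L f) :=
  IsIntegrallyClosed.isIntegral_iff.mp
    (Algebra.isIntegral_trace ((IsIntegralClosure.isIntegral R L f).algebraMap (B := L)))

/-- **Trace modulo a prime.** -/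
theorem exists_trace_not_mem (π : R) (hπ : Irreducible π) (P : Ideal C) [hP : P.IsPrime]
    (hπP : algebraMap R C π ∈ P) (f : C) (hf : f ∉ P) :
    ∃ g : C, ∀ r : R, algebraMap R E (π * r) ≠ Algebra.trace E L (algebraMap C L (f * g)) := by
  by_contra hcon
  push Not at hcon
  have : IsPrincipalIdealRing R := inferInstance
  have hdd : IsDedekindDomain R := inferInstance
  have hinjRE : Function.Injective (algebraMap R E) := IsFractionRing.injective R E
  have htor : IsTorsionFree R L := by
    have : FaithfulSMul R L := by
      rw [faithfulSMul_iff_algebraMap_injective, IsScalarTower.algebraMap_eq R E L]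
      exact (algebraMap E L).injective.comp hinjRE
    infer_instance
  have hfree : Module.Free R C := IsIntegralClosure.module_free R E L C
  have hfin : Module.Finite R C := IsIntegralClosure.finite R E L C
  have hfr : IsFractionRing C L := IsIntegralClosure.isFractionRing_of_finite_extension R E L C
  have hloc : IsLocalization (Algebra.algebraMapSubmonoid C (nonZeroDivisors R)) L :=
    IsIntegralClosure.isLocalization R E L C
  -- the traces over `R`
  have htr : ∀ g : C, ∃ r, Algebra.trace R C (f * g) = π * r := by
    intro g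
    obtain ⟨r, hr⟩ := hcon g
    refine ⟨r, hinjRE ?_⟩
    rw [hr, Algebra.trace_localization R (nonZeroDivisors R)]
  let I : Ideal R := Ideal.span {π}
  have hI : I.IsMaximal := PrincipalIdealRing.isMaximal_of_irreducible hπ
  let _ : Field (R ⧸ I) := Ideal.Quotient.field I
  have hch : CharZero (R ⧸ I) := algebraRat.charZero (R ⧸ I)
  have hnil := nilp_of_trace (E := R ⧸ I) (B := TensorProduct R (R ⧸ I) C)
    (1 ⊗ₜ f) (by
      intro x
      obtain ⟨g, rfl⟩ : ∃ g : C, x = 1 ⊗ₜ g := by
        induction x using TensorProduct.induction_on with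
        | zero => exact ⟨0, (TensorProduct.tmul_zero _ _).symm⟩
        | tmul a g =>
          obtain ⟨a, rfl⟩ := Ideal.Quotient.mk_surjective a
          refine ⟨a • g, ?_⟩
          rw [← TensorProduct.smul_tmul]
          congr 1
          rw [Algebra.smul_def, mul_one]
          rfl
        | add x y hx hy =>
          obtain ⟨g, rfl⟩ := hx
          obtain ⟨g', rfl⟩ := hy
          exact ⟨g + g', (TensorProduct.tmul_add _ _ _).symm⟩
      rw [Algebra.TensorProduct.tmul_mul_tmul, one_mul]
      have h1 : Algebra.lmul (R ⧸ I) (TensorProduct R (R ⧸ I) C) ((1 : R ⧸ I) ⊗ₜ[R] (f * g)) =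
          (Algebra.lmul R C (f * g)).baseChange (R ⧸ I) := by
        apply LinearMap.ext
        intro x
        induction x using TensorProduct.induction_on with
        | zero => rw [map_zero, map_zero]
        | tmul a c =>
          change ((1 : R ⧸ I) ⊗ₜ[R] (f * g)) * (a ⊗ₜ[R] c) = a ⊗ₜ[R] (f * g * c)
          rw [Algebra.TensorProduct.tmul_mul_tmul, one_mul]
        | add x y hx hy => rw [map_add, map_add, hx, hy]
      rw [Algebra.trace_apply, h1, LinearMap.trace_baseChange, ← Algebra.trace_apply]
      obtain ⟨r, hr⟩ := htr g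
      rw [hr, map_mul]
      have h2 : algebraMap R (R ⧸ I) π = 0 :=
        Ideal.Quotient.eq_zero_iff_mem.mpr (Ideal.mem_span_singleton_self π)
      rw [h2, zero_mul])
  obtain ⟨n, hn⟩ := hnil
  -- map to the quotient by `P`
  let α : (R ⧸ I) →ₐ[R] (C ⧸ P) := Ideal.Quotient.liftₐ I (Algebra.ofId R (C ⧸ P)) (by
    intro a ha
    obtain ⟨b, rfl⟩ := Ideal.mem_span_singleton'.mp ha
    change algebraMap R (C ⧸ P) (b * π) = 0
    rw [map_mul]
    have h2 : algebraMap R (C ⧸ P) π = 0 := Ideal.Quotient.eq_zero_iff_mem.mpr hπP
    rw [h2, mul_zero])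
  let β : C →ₐ[R] (C ⧸ P) := Ideal.Quotient.mkₐ R P
  let γ := Algebra.TensorProduct.lift α β (fun _ _ => Commute.all _ _)
  have h3 := congrArg γ hn
  rw [Algebra.TensorProduct.tmul_pow, map_zero, one_pow, Algebra.TensorProduct.lift_tmul, map_one,
    one_mul] at h3
  have h4 : f ^ n ∈ P := Ideal.Quotient.eq_zero_iff_mem.mp h3
  exact hf (hP.mem_of_pow_mem n h4)

end tame

end Run7.h577
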