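import Pool.Agent.Run7.h577.T9

/-!
# Rigidity inside a larger field, and descent of subspaces
-/

set_option autoImplicit false

namespace Run7.h577

open Module Polynomial IntermediateField Pool.Agent.W256 Pool.Agent.N770

/-- **Rigidity** for a space inside a larger field. -/
theorem rigid' {K U : Type*} [Field K] [Field U] [Algebra K U] [IsAlgClosed K] [CharZero K]
    (V : Submodule K U) [FiniteDimensional K V]
    (h1 : (1 : U) ∈ V) (𝒟 : Set (Derivation ℤ U U))
    (hDK : ∀ D ∈ 𝒟, ∀ c : K, ∃ c' : K, D (algebraMap K U c) = algebraMap K U c')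
    (hDV : ∀ D ∈ 𝒟, ∀ w ∈ V, D w ∈ V) (u v : U) (hu : u ∈ V) (hv : v ∈ V)
    (hmin : ∀ N : Submodule K U, N ≤ V → (1 : U) ∈ N → u ∈ N → v ∈ N →
      (∀ D ∈ 𝒟, ∀ w ∈ N, D w ∈ N) → V ≤ N)
    (T : Finset K) (hT : ∀ t ∉ T, V ≤ intSub K (u + algebraMap K U t * v) 1)
    (D : ℕ) (P : MvPolynomial (Fin 2) K) (hP : P ≠ 0) (hPD : P.totalDegree ≤ D)
    (huv : MvPolynomial.aeval ![u, v] P = 0) (hline : NoLine K P) (m : ℕ) :
    finrank K (V ^ m : Submodule K U) ≤ m * D + 1 := by
  classical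
  set M : IntermediateField K U := adjoin K (V : Set U) with hM
  have hVM : ∀ w ∈ V, w ∈ M := fun w hw => subset_adjoin _ _ hw
  have hDM : ∀ δ ∈ 𝒟, ∀ f ∈ M, δ f ∈ M := by
    intro δ hδ f hf
    induction hf using IntermediateField.adjoin_induction with
    | mem y hy => exact hVM _ (hDV δ hδ y hy)
    | algebraMap c =>
      obtain ⟨c', hc'⟩ := hDK δ hδ c
      rw [hc']
      exact M.algebraMap_mem c'
    | add a b _ _ ha hb => rw [map_add]; exact M.add_mem ha hb
    | inv a ha' ha =>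
      rw [δ.leibniz_inv, smul_eq_mul]
      exact M.mul_mem (M.neg_mem (pow_mem (M.inv_mem ha') 2)) ha
    | mul a b ha' hb' ha hb =>
      rw [δ.leibniz, smul_eq_mul, smul_eq_mul]
      exact M.add_mem (M.mul_mem ha' hb) (M.mul_mem hb' ha)
  -- restriction of derivations
  let res : ∀ δ ∈ 𝒟, Derivation ℤ M M := fun δ hδ =>
    Derivation.mk' ({ toFun := fun f => ⟨δ f, hDM δ hδ f f.2⟩
                      map_add' := fun a b => Subtype.ext (map_add δ (a : U) b)
                      map_smul' := fun n a => Subtype.ext (map_zsmul δ n (a : U)) } : M →ₗ[ℤ] M)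
      (fun a b => Subtype.ext (δ.leibniz (a : U) b))
  have hres : ∀ δ (hδ : δ ∈ 𝒟) (f : M), ((res δ hδ f : M) : U) = δ f := fun δ hδ f => rfl
  set V' : Submodule K M := V.comap M.val.toLinearMap with hV'
  have hmapV : V'.map M.val.toLinearMap = V := by
    rw [hV', Submodule.map_comap_eq, inf_eq_right]
    intro x hx
    exact ⟨⟨x, hVM x hx⟩, rfl⟩
  have hinj : Function.Injective M.val.toLinearMap := Subtype.val_injective
  have hmap : ∀ W : Submodule K M, finrank K (W.map M.val.toLinearMap) = finrank K W :=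
    fun W => (Submodule.equivMapOfInjective M.val.toLinearMap hinj W).finrank_eq.symm
  have hpow : ∀ k, (V' ^ k).map M.val.toLinearMap = V ^ k := by
    intro k
    rw [← hmapV]
    exact Submodule.map_pow V' M.val k
  have hV'f : FiniteDimensional K V' := by
    have e := Submodule.equivMapOfInjective M.val.toLinearMap hinj V'
    have : FiniteDimensional K (V'.map M.val.toLinearMap) := by rw [hmapV]; infer_instance
    exact LinearEquiv.finiteDimensional e.symm
  have htop : adjoin K (V' : Set M) = ⊤ := by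
    rw [eq_top_iff]
    intro x _
    have h2 : (adjoin K (V' : Set M)).map M.val = adjoin K (V : Set U) := by
      rw [adjoin_map]
      congr 1
      rw [← hmapV]
      rfl
    have h3 : (x : U) ∈ (adjoin K (V' : Set M)).map M.val := by
      rw [h2]; exact x.2
    obtain ⟨y, hy, hyx⟩ := h3
    have : y = x := Subtype.val_injective hyx
    rwa [← this]
  have key := rigid V' (show (1 : U) ∈ V from h1) htop
    {δ' | ∃ δ, ∃ hδ : δ ∈ 𝒟, δ' = res δ hδ} (by
      rintro _ ⟨δ, hδ, rfl⟩ c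
      obtain ⟨c', hc'⟩ := hDK δ hδ c
      exact ⟨c', Subtype.ext hc'⟩) (by
      rintro _ ⟨δ, hδ, rfl⟩ w hw
      exact hDV δ hδ w hw) ⟨u, hVM u hu⟩ ⟨v, hVM v hv⟩ hu hv (by
      intro N hNV hN1 hNu hNv hND
      have h2 := hmin (N.map M.val.toLinearMap) (by
        rw [← hmapV]
        exact Submodule.map_mono hNV) ⟨1, hN1, rfl⟩ ⟨_, hNu, rfl⟩ ⟨_, hNv, rfl⟩ (by
        rintro δ hδ _ ⟨w, hw, rfl⟩
        exact ⟨res δ hδ w, hND _ ⟨δ, hδ, rfl⟩ w hw, rfl⟩)
      rw [← hmapV] at h2
      intro w hw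
      obtain ⟨w', hw', hww⟩ := h2 ⟨w, hw, rfl⟩
      have : w' = w := Subtype.val_injective hww
      rwa [← this]) T (by
      intro t ht x hx
      rw [mem_intSub]
      apply IntAt.of_val
      exact hT t ht hx) D P hP hPD (by
      apply Subtype.val_injective
      have h2 := MvPolynomial.aeval_algebraMap_apply (A := M) (B := U)
        ![(⟨u, hVM u hu⟩ : M), ⟨v, hVM v hv⟩] P
      have h3 : (algebraMap M U) ∘ ![(⟨u, hVM u hu⟩ : M), ⟨v, hVM v hv⟩] = ![u, v] := by
        funext i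
        fin_cases i <;> rfl
      rw [h3, huv] at h2
      exact h2.symm) hline m
  rw [← hpow, hmap]
  exact key

/-- **Descent.** -/
theorem descent {k K ι : Type*} [Field k] [Field K] [Fintype ι] (i : k →+* K)
    (𝒹 : Set (K → K)) (hd0 : ∀ d ∈ 𝒹, d 0 = 0) (hd1 : ∀ d ∈ 𝒹, d 1 = 0)
    (hcon : ∀ c, (∀ d ∈ 𝒹, d c = 0) → ∃ a, c = i a) (N : Submodule K (ι → K))
    (hN : ∀ d ∈ 𝒹, ∀ c ∈ N, (fun j => d (c j)) ∈ N) :
    ∀ c ∈ N, c ∈ Submodule.span K {c' | c' ∈ N ∧ ∃ a : ι → k, c' = fun j => i (a j)} := by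
  classical
  let supp : (ι → K) → Finset ι := fun c => Finset.univ.filter (fun j => c j ≠ 0)
  have hsupp : ∀ c j, j ∈ supp c ↔ c j ≠ 0 := by
    intro c j
    simp [supp]
  intro c
  obtain ⟨n, hn⟩ : ∃ n, (supp c).card = n := ⟨_, rfl⟩
  induction n using Nat.strong_induction_on generalizing c with
  | _ n ih =>
    intro hc
    by_cases hc0 : c = 0
    · rw [hc0]; exact zero_mem _
    -- a nonzero element of minimal support
    have hex : ∃ m : ℕ, ∃ c' ∈ N, c' ≠ 0 ∧ supp c' ⊆ supp c ∧ (supp c').card = m :=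
      ⟨_, c, hc, hc0, subset_rfl, rfl⟩
    obtain ⟨c₁, hc₁, hc₁0, hc₁s, hc₁m⟩ := Nat.find_spec hex
    have hmin : ∀ c' ∈ N, c' ≠ 0 → supp c' ⊆ supp c → (supp c₁).card ≤ (supp c').card := by
      intro c' h1 h2 h3
      rw [hc₁m]
      exact Nat.find_min' hex ⟨c', h1, h2, h3, rfl⟩
    obtain ⟨j₀, hj₀⟩ : ∃ j, c₁ j ≠ 0 := by
      by_contra hcon
      push Not at hcon
      exact hc₁0 (funext hcon)
    -- normalisation
    set c₂ : ι → K := (c₁ j₀)⁻¹ • c₁ with hc₂
    have hc₂N : c₂ ∈ N := N.smul_mem _ hc₁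
    have hc₂j : c₂ j₀ = 1 := by
      rw [hc₂, Pi.smul_apply, smul_eq_mul, inv_mul_cancel₀ hj₀]
    have hs2 : supp c₂ = supp c₁ := by
      ext j
      rw [hsupp, hsupp, hc₂, Pi.smul_apply, smul_eq_mul]
      constructor
      · intro h h0
        exact h (by rw [h0, mul_zero])
      · intro h
        exact mul_ne_zero (inv_ne_zero hj₀) h
    have hder : ∀ d ∈ 𝒹, ∀ j, d (c₂ j) = 0 := by
      intro d hd
      by_contra hcon2
      push Not at hcon2
      obtain ⟨j₁, hj₁⟩ := hcon2
      have h1 := hN d hd c₂ hc₂N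
      have h2 : supp (fun j => d (c₂ j)) ⊆ (supp c₁).erase j₀ := by
        intro j hj
        rw [hsupp] at hj
        rw [Finset.mem_erase]
        constructor
        · rintro rfl
          rw [hc₂j, hd1 d hd] at hj
          exact hj rfl
        · rw [← hs2, hsupp]
          intro h0
          rw [h0, hd0 d hd] at hj
          exact hj rfl
      have h3 := hmin _ h1 (fun h => hj₁ (congrFun h j₁))
        (h2.trans ((Finset.erase_subset _ _).trans hc₁s))
      have h4 := Finset.card_le_card h2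
      rw [Finset.card_erase_of_mem ((hsupp _ _).mpr hj₀)] at h4
      have h5 : 0 < (supp c₁).card := Finset.card_pos.mpr ⟨j₀, (hsupp _ _).mpr hj₀⟩
      omega
    choose a ha using fun j => hcon (c₂ j) (fun d hd => hder d hd j)
    have hc₂S : c₂ ∈ Submodule.span K {c' | c' ∈ N ∧ ∃ a : ι → k, c' = fun j => i (a j)} :=
      Submodule.subset_span ⟨hc₂N, a, funext ha⟩
    -- reduction
    have h1 : c - c j₀ • c₂ ∈ N := N.sub_mem hc (N.smul_mem _ hc₂N)
    have h2 : supp (c - c j₀ • c₂) ⊆ (supp c).erase j₀ := by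
      intro j hj
      rw [hsupp, Pi.sub_apply, Pi.smul_apply, smul_eq_mul] at hj
      rw [Finset.mem_erase]
      constructor
      · rintro rfl
        rw [hc₂j, mul_one, sub_self] at hj
        exact hj rfl
      · by_contra hjc
        rw [hsupp, not_not] at hjc
        have hj2 : c₂ j = 0 := by
          by_contra h
          have h3 : j ∈ supp c₁ := by rw [← hs2, hsupp]; exact h
          exact (hsupp _ _).mp (hc₁s h3) hjc
        rw [hjc, hj2, mul_zero, sub_zero] at hj
        exact hj rfl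
    have hj₀c : j₀ ∈ supp c := hc₁s ((hsupp _ _).mpr hj₀)
    have h3 := Finset.card_le_card h2
    rw [Finset.card_erase_of_mem hj₀c] at h3
    have h5 : 0 < (supp c).card := Finset.card_pos.mpr ⟨j₀, hj₀c⟩
    have h4 := ih (supp (c - c j₀ • c₂)).card (by omega) (c - c j₀ • c₂) rfl h1
    have h6 : c = (c - c j₀ • c₂) + c j₀ • c₂ := by abel
    rw [h6]
    exact add_mem h4 (Submodule.smul_mem _ _ hc₂S)

end Run7.h577
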