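import Pool.Agent.Run7.h577.T10

/-!
# Points at infinity are defined over the smaller field
-/

set_option autoImplicit false

namespace Run7.h577

open Module Polynomial IntermediateField Pool.Agent.W256 Pool.Agent.N770

variable {k K F : Type*} [Field k] [Field K] [Algebra k K] [Field F] [Algebra K F]

/-- points at infinity satisfy the top form of each relation, with coefficients in `k` -/
theorem exists_theta' {V : Submodule K F} (h1 : (1 : F) ∈ V) (x y : V) (Q : MvPolynomial (Fin 2) k)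
    (hQ : Q ≠ 0)
    (h : MvPolynomial.aeval ![(x : F), (y : F)] (Q.map (algebraMap k K)) = 0) :
    ∃ θ : k[X], θ ≠ 0 ∧ ∀ ψ : grAlg V →ₐ[K] K, fnl ψ ⟨1, h1⟩ = 0 → fnl ψ y ≠ 0 →
      (θ.map (algebraMap k K)).eval (fnl ψ x / fnl ψ y) = 0 := by
  classical
  set P : MvPolynomial (Fin 2) K := Q.map (algebraMap k K) with hPQ
  have hcoef : ∀ s, P.coeff s = algebraMap k K (Q.coeff s) := by
    intro s
    rw [hPQ, MvPolynomial.coeff_map]
  have hP : P ≠ 0 := by
    intro h0
    apply hQ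
    exact (MvPolynomial.map_injective _ (algebraMap k K).injective) (by rw [← hPQ, h0, map_zero])
  set D := P.totalDegree with hD
  set S := P.support.filter (fun s => s 0 + s 1 = D) with hS
  have hdeg : ∀ s ∈ P.support, s 0 + s 1 ≤ D := by
    intro s hs
    have := MvPolynomial.le_totalDegree hs
    rwa [sum_eq_two] at this
  obtain ⟨s₀, hs₀, hs₀D⟩ : ∃ s₀ ∈ P.support, s₀ 0 + s₀ 1 = D := by
    obtain ⟨s₀, hs₀, h1⟩ := Finset.exists_mem_eq_sup P.support
      (MvPolynomial.support_nonempty.mpr hP) (fun s => s.sum fun _ e => e)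
    refine ⟨s₀, hs₀, ?_⟩
    rw [hD, MvPolynomial.totalDegree, h1]
    rw [sum_eq_two]
  let θ₀ : k[X] := ∑ s ∈ S, C (Q.coeff s) * X ^ (s 0)
  let θ : K[X] := ∑ s ∈ S, C (P.coeff s) * X ^ (s 0)
  have hθθ : θ₀.map (algebraMap k K) = θ := by
    simp only [θ₀, θ, Polynomial.map_sum, Polynomial.map_mul, map_C, Polynomial.map_pow, map_X,
      hcoef]
  have hθc : θ.coeff (s₀ 0) = P.coeff s₀ := by
    rw [finsetSum_coeff]
    rw [Finset.sum_eq_single s₀]
    · simp
    · intro s hs hne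
      rw [coeff_C_mul, coeff_X_pow, if_neg, mul_zero]
      intro h0
      apply hne
      have h1 := (Finset.mem_filter.mp hs).2
      ext i
      fin_cases i
      · exact h0.symm
      · change s 1 = s₀ 1
        omega
    · intro h0
      exact absurd (Finset.mem_filter.mpr ⟨hs₀, hs₀D⟩) h0
  refine ⟨θ₀, ?_, ?_⟩
  · intro h0
    rw [← hθθ, h0, Polynomial.map_zero, coeff_zero] at hθc
    exact (MvPolynomial.mem_support_iff.mp hs₀) hθc.symm
  · intro ψ hψ1 hψy
    rw [hθθ]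
    set gx : grAlg V := ⟨gen K x.1, gen_mem x.2⟩ with hgx
    set gy : grAlg V := ⟨gen K y.1, gen_mem y.2⟩ with hgy
    set g1 : grAlg V := ⟨gen K 1, gen_mem h1⟩ with hg1
    have e1 : fnl ψ x = ψ gx := rfl
    have e2 : fnl ψ y = ψ gy := rfl
    have e3 : ψ g1 = 0 := hψ1
    -- the homogenised relation
    have hrel : ∑ s ∈ P.support, algebraMap K (grAlg V) (P.coeff s) *
        (gx ^ (s 0) * gy ^ (s 1) * g1 ^ (D - (s 0 + s 1))) = 0 := by
      apply Subtype.ext
      rw [← (grAlg V).coe_val, map_sum, map_zero]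
      have e4 : ∀ s ∈ P.support, (grAlg V).val (algebraMap K (grAlg V) (P.coeff s) *
          (gx ^ (s 0) * gy ^ (s 1) * g1 ^ (D - (s 0 + s 1)))) =
          X ^ D * C (algebraMap K F (P.coeff s) * ((x : F) ^ (s 0) * (y : F) ^ (s 1))) := by
        intro s hs
        have e5 : (X : F[X]) ^ D = X ^ (s 0) * X ^ (s 1) * X ^ (D - (s 0 + s 1)) := by
          rw [← pow_add, ← pow_add]
          congr 1
          have := hdeg s hs
          omega
        rw [map_mul, map_mul, map_mul, map_pow, map_pow, map_pow, AlgHom.commutes,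
          Polynomial.algebraMap_apply]
        change C (algebraMap K F (P.coeff s)) * ((C (x : F) * X) ^ (s 0) * (C (y : F) * X) ^ (s 1) *
          (C 1 * X) ^ (D - (s 0 + s 1))) = _
        rw [e5, C_mul, C_mul, C_pow, C_pow, C_1, one_mul, mul_pow, mul_pow]
        ring
      rw [Finset.sum_congr rfl e4, ← Finset.mul_sum, ← map_sum]
      have e6 : ∑ s ∈ P.support, algebraMap K F (P.coeff s) * ((x : F) ^ (s 0) * (y : F) ^ (s 1)) =
          0 := by
        rw [← h, MvPolynomial.aeval_def, MvPolynomial.eval₂_eq']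
        refine Finset.sum_congr rfl fun s _ => ?_
        rw [Fin.prod_univ_two]
        rfl
      rw [e6, C_0, mul_zero]
    have hrel2 := congrArg ψ hrel
    rw [map_sum, map_zero] at hrel2
    have e7 : ∀ s ∈ P.support, ψ (algebraMap K (grAlg V) (P.coeff s) *
        (gx ^ (s 0) * gy ^ (s 1) * g1 ^ (D - (s 0 + s 1)))) =
        if s 0 + s 1 = D then P.coeff s * (ψ gx ^ (s 0) * ψ gy ^ (s 1)) else 0 := by
      intro s hs
      rw [map_mul, map_mul, map_mul, map_pow, map_pow, map_pow, AlgHom.commutes, e3]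
      split_ifs with hsD
      · rw [hsD, Nat.sub_self, pow_zero, mul_one]
        rfl
      · rw [zero_pow (by have := hdeg s hs; omega), mul_zero, mul_zero]
    rw [Finset.sum_congr rfl e7, ← Finset.sum_filter] at hrel2
    rw [e2] at hψy
    rw [e1, e2, eval_finsetSum]
    have e8 : (∑ s ∈ S, (C (P.coeff s) * X ^ (s 0)).eval (ψ gx / ψ gy)) * ψ gy ^ D = 0 := by
      rw [Finset.sum_mul, ← hrel2]
      refine Finset.sum_congr rfl fun s hs => ?_
      have hsD := (Finset.mem_filter.mp hs).2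
      rw [eval_mul, eval_C, eval_pow, eval_X, ← hsD, pow_add, div_pow]
      field_simp
    exact (mul_eq_zero.mp e8).resolve_right (pow_ne_zero _ hψy)

/-- **Bounding lemma.** -/
theorem bounding [IsAlgClosed k] [IsAlgClosed K] {V : Submodule K F} [FiniteDimensional K V]
    (h1 : (1 : F) ∈ V) {ι : Type*} (b : ι → F) (hbV : ∀ j, b j ∈ V)
    (hb : V ≤ Submodule.span K (Set.range b))
    (hrel : ∀ i j, ∃ Q : MvPolynomial (Fin 2) k, Q ≠ 0 ∧
      MvPolynomial.aeval ![b i, b j] (Q.map (algebraMap k K)) = 0)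
    (u v : F) (hu : u ∈ V) (hv : v ∈ V)
    (hmin : ∀ (κ : ι → k) (lam : V →ₗ[K] K), (∀ j, lam ⟨b j, hbV j⟩ = algebraMap k K (κ j)) →
      lam ⟨1, h1⟩ = 0 → lam ⟨u, hu⟩ = 0 → lam ⟨v, hv⟩ = 0 → κ = 0)
    (P : MvPolynomial (Fin 2) K) (hP : P ≠ 0) (hP2 : MvPolynomial.aeval ![u, v] P = 0) :
    ∃ T : Finset K, ∀ t ∉ T, V ≤ intSub K (u + algebraMap K F t * v) 1 := by
  classical
  obtain ⟨θ, hθ0, hθ⟩ := exists_theta h1 ⟨u, hu⟩ ⟨v, hv⟩ P hP hP2
  refine ⟨θ.roots.toFinset.image (fun x => -x), ?_⟩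
  intro t ht
  have hg : u + algebraMap K F t * v ∈ V := by
    rw [← Algebra.smul_def]
    exact add_mem hu (V.smul_mem t hv)
  have key : ∀ ψ : grAlg V →ₐ[K] K, ψ ⟨gen K 1, gen_mem h1⟩ = 0 →
      ψ ⟨gen K (u + algebraMap K F t * v), gen_mem hg⟩ = 0 →
      ∀ x (hx : x ∈ V), ψ ⟨gen K x, gen_mem hx⟩ = 0 := by
    intro ψ hψ1 hψg
    have h2 : fnl ψ ⟨u, hu⟩ + t * fnl ψ ⟨v, hv⟩ = 0 := by
      have h3 : fnl ψ (⟨u, hu⟩ + t • ⟨v, hv⟩) = 0 := by
        rw [← hψg, fnl_apply]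
        congr 1
        apply Subtype.ext
        change gen K (u + t • v) = gen K (u + algebraMap K F t * v)
        rw [Algebra.smul_def]
      rwa [map_add, map_smul, smul_eq_mul] at h3
    have h4 : fnl ψ ⟨v, hv⟩ = 0 := by
      by_contra h4
      have h5 := hθ ψ hψ1 h4
      have h6 : fnl ψ ⟨u, hu⟩ / fnl ψ ⟨v, hv⟩ = -t := by
        rw [div_eq_iff h4, neg_mul]
        exact eq_neg_of_add_eq_zero_left h2
      rw [h6] at h5
      apply ht
      rw [Finset.mem_image]
      refine ⟨-t, ?_, neg_neg t⟩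
      rw [Multiset.mem_toFinset, mem_roots hθ0]
      exact h5
    have h4' : fnl ψ ⟨u, hu⟩ = 0 := by
      rw [h4, mul_zero, add_zero] at h2
      exact h2
    -- all values vanish
    have hall : ∀ j, fnl ψ ⟨b j, hbV j⟩ = 0 := by
      by_contra hcon
      push Not at hcon
      obtain ⟨j₀, hj₀⟩ := hcon
      have hr : ∀ i, ∃ a : k, fnl ψ ⟨b i, hbV i⟩ = fnl ψ ⟨b j₀, hbV j₀⟩ * algebraMap k K a := by
        intro i
        obtain ⟨Q, hQ, hQ2⟩ := hrel i j₀
        obtain ⟨θ', hθ'0, hθ'⟩ := exists_theta' h1 ⟨b i, hbV i⟩ ⟨b j₀, hbV j₀⟩ Q hQ hQ2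
        have h5 := hθ' ψ hψ1 hj₀
        have h6 : IsAlgebraic k (fnl ψ ⟨b i, hbV i⟩ / fnl ψ ⟨b j₀, hbV j₀⟩) :=
          ⟨θ', hθ'0, by rw [aeval_def, eval₂_eq_eval_map]; exact h5⟩
        obtain ⟨a, ha⟩ := exists_const _ h6
        exact ⟨a, by rw [← ha, mul_div_cancel₀ _ hj₀]⟩
      choose κ hκ using hr
      have h7 := hmin κ ((fnl ψ ⟨b j₀, hbV j₀⟩)⁻¹ • fnl ψ) (by
        intro j
        rw [LinearMap.smul_apply, hκ j, smul_eq_mul, inv_mul_cancel_left₀ hj₀]) (by
        rw [LinearMap.smul_apply, show fnl ψ ⟨1, h1⟩ = 0 from hψ1, smul_zero]) (by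
        rw [LinearMap.smul_apply, h4', smul_zero]) (by
        rw [LinearMap.smul_apply, h4, smul_zero])
      apply hj₀
      rw [hκ j₀, h7, Pi.zero_apply, map_zero, mul_zero]
    intro x hx
    have h8 : (⟨x, hx⟩ : V) ∈ LinearMap.ker (fnl ψ) := by
      have h9 : V ≤ (LinearMap.ker (fnl ψ)).map V.subtype := by
        refine hb.trans ?_
        rw [Submodule.span_le]
        rintro _ ⟨j, rfl⟩
        exact ⟨⟨b j, hbV j⟩, hall j, rfl⟩
      obtain ⟨y, hy, hyx⟩ := h9 hx
      have : y = ⟨x, hx⟩ := Subtype.ext hyx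
      rwa [← this]
    exact h8
  obtain ⟨N, hN⟩ := exists_pow_le V h1 _ hg key
  exact le_intSub_of_pow_le V h1 _ N hN

end Run7.h577
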