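import Mathlib
import Pool.Agent.TH519.GL.U1

/-!
# Ultraproducts
-/

set_option autoImplicit false

namespace Run7.h577

open Filter Polynomial

section germs

variable {I : Type}

/-- the ring homomorphism from sequences to germs -/
noncomputable def ghr (𝒰 : Ultrafilter I) (R : Type) [CommRing R] :
    (I → R) →+* Germ (𝒰 : Filter I) R := Germ.coeRingHom _

theorem ghr_eq (𝒰 : Ultrafilter I) {R : Type} [CommRing R] (f g : I → R) :
    ghr 𝒰 R f = ghr 𝒰 R g ↔ ∀ᶠ b in (𝒰 : Filter I), f b = g b := Germ.coe_eq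

theorem ghr_eq_zero (𝒰 : Ultrafilter I) {R : Type} [CommRing R] (f : I → R) :
    ghr 𝒰 R f = 0 ↔ ∀ᶠ b in (𝒰 : Filter I), f b = 0 := by
  rw [← map_zero (ghr 𝒰 R), ghr_eq]
  rfl

theorem ghr_surj (𝒰 : Ultrafilter I) (R : Type) [CommRing R] :
    Function.Surjective (ghr 𝒰 R) := by
  intro z
  induction z using Germ.inductionOn with
  | _ f => exact ⟨f, rfl⟩

/-- ring homomorphisms act on germs -/
noncomputable def germMapr (𝒰 : Ultrafilter I) {R S : Type} [CommRing R] [CommRing S]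
    (f : R →+* S) : Germ (𝒰 : Filter I) R →+* Germ (𝒰 : Filter I) S where
  toFun := Germ.map f
  map_one' := by
    change Germ.map f ((1 : I → R) : Germ (𝒰 : Filter I) R) = ((1 : I → S) : Germ (𝒰 : Filter I) S)
    rw [Germ.map_coe]
    congr 1
    funext b
    simp
  map_zero' := by
    change Germ.map f ((0 : I → R) : Germ (𝒰 : Filter I) R) = ((0 : I → S) : Germ (𝒰 : Filter I) S)
    rw [Germ.map_coe]
    congr 1
    funext b
    simp
  map_mul' x y := by
    induction x, y using Germ.inductionOn₂ with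
    | _ x y =>
      rw [← Germ.coe_mul, Germ.map_coe, Germ.map_coe, Germ.map_coe, ← Germ.coe_mul]
      congr 1
      funext b
      simp
  map_add' x y := by
    induction x, y using Germ.inductionOn₂ with
    | _ x y =>
      rw [← Germ.coe_add, Germ.map_coe, Germ.map_coe, Germ.map_coe, ← Germ.coe_add]
      congr 1
      funext b
      simp

theorem germMapr_ghr (𝒰 : Ultrafilter I) {R S : Type} [CommRing R] [CommRing S] (f : R →+* S)
    (a : I → R) : germMapr 𝒰 f (ghr 𝒰 R a) = ghr 𝒰 S (fun b => f (a b)) := rfl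

theorem isAlgClosed_germ (𝒰 : Ultrafilter I) (k : Type) [Field k] [IsAlgClosed k] :
    IsAlgClosed (Germ (𝒰 : Filter I) k) := by
  apply IsAlgClosed.of_exists_root
  intro p hp hirr
  set n := p.natDegree with hn
  have hn0 : 0 < n := hirr.natDegree_pos
  choose c hc using fun j => ghr_surj 𝒰 k (p.coeff j)
  let q : I → k[X] := fun i => X ^ n + ∑ j ∈ Finset.range n, C (c j i) * X ^ j
  have hdeg : ∀ i, (∑ j ∈ Finset.range n, C (c j i) * X ^ j : k[X]).degree < n := by
    intro i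
    refine lt_of_le_of_lt (degree_sum_le _ _) ?_
    rw [Finset.sup_lt_iff (by exact_mod_cast WithBot.bot_lt_coe n)]
    intro j hj
    refine lt_of_le_of_lt (degree_C_mul_X_pow_le _ _) ?_
    exact_mod_cast Finset.mem_range.mp hj
  have hq : ∀ i, (q i).degree = n := by
    intro i
    change (X ^ n + ∑ j ∈ Finset.range n, C (c j i) * X ^ j : k[X]).degree = n
    rw [degree_add_eq_left_of_degree_lt]
    · exact degree_X_pow n
    · rw [degree_X_pow]; exact hdeg i
  have hroot : ∀ i, ∃ r, (q i).IsRoot r := by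
    intro i
    apply IsAlgClosed.exists_root
    rw [hq i]
    exact_mod_cast hn0.ne'
  choose r hr using hroot
  refine ⟨ghr 𝒰 k r, ?_⟩
  rw [eval_eq_sum_range, Finset.sum_range_succ, ← hn, hn, hp.coeff_natDegree, one_mul, ← hn]
  have h1 : ∑ j ∈ Finset.range n, p.coeff j * (ghr 𝒰 k r) ^ j + (ghr 𝒰 k r) ^ n =
      ghr 𝒰 k (∑ j ∈ Finset.range n, c j * r ^ j + r ^ n) := by
    rw [map_add, map_sum, map_pow]
    congr 1
    refine Finset.sum_congr rfl fun j _ => ?_
    rw [map_mul, map_pow, hc]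
  rw [h1, ghr_eq_zero]
  refine Filter.Eventually.of_forall fun i => ?_
  have h2 := hr i
  rw [IsRoot.def] at h2
  simp only [q, eval_add, eval_pow, eval_X, eval_finsetSum, eval_mul, eval_C] at h2
  simp only [Pi.add_apply, Finset.sum_apply, Pi.mul_apply, Pi.pow_apply]
  rw [add_comm]
  exact h2

end germs

/-- **Ultraproducts.** -/
theorem exists_ultra {I : Type} (𝒰 : Ultrafilter I) (k L : Type) [Field k] [IsAlgClosed k]
    [CharZero k] [Field L] [Algebra k L] :
    ∃ (K U S : Type) (_ : Field K) (_ : IsAlgClosed K) (_ : CharZero K) (_ : Field U)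
      (_ : CommRing S) (g : (I → k) →+* K) (gL : (I → L) →+* U) (gX : (I → k[X]) →+* S)
      (p : K →+* U) (pX : K →+* S), Function.Surjective g ∧
      (∀ f, g f = 0 ↔ ∀ᶠ i in (𝒰 : Filter I), f i = 0) ∧
      (∀ f, gL f = 0 ↔ ∀ᶠ i in (𝒰 : Filter I), f i = 0) ∧
      (∀ f, gX f = 0 ↔ ∀ᶠ i in (𝒰 : Filter I), f i = 0) ∧
      (∀ a, p (g a) = gL (fun i => algebraMap k L (a i))) ∧
      (∀ a, pX (g a) = gX (fun i => C (a i))) := by
  refine ⟨Germ (𝒰 : Filter I) k, Germ (𝒰 : Filter I) L, Germ (𝒰 : Filter I) k[X], inferInstance,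
    isAlgClosed_germ 𝒰 k, ?_, inferInstance, inferInstance, ghr 𝒰 k, ghr 𝒰 L, ghr 𝒰 k[X],
    germMapr 𝒰 (algebraMap k L), germMapr 𝒰 C, ghr_surj 𝒰 k, ghr_eq_zero 𝒰, ghr_eq_zero 𝒰,
    ghr_eq_zero 𝒰, fun a => rfl, fun a => rfl⟩
  exact charZero_of_injective_ringHom
    ((ghr 𝒰 k).comp (Pi.constRingHom I k)).injective

end Run7.h577
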