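import Pool.Agent.Run7.h577.T11
import Pool.Agent.Run7.h577.T12

/-!
# Limits of polynomials
-/

set_option autoImplicit false

namespace Run7.h577

open Module Polynomial Filter

/-- exponents of total degree at most `D` -/
noncomputable def box (D : ℕ) : Finset (Fin 2 →₀ ℕ) :=
  ((Finset.range (D + 1) ×ˢ Finset.range (D + 1)).image
    (fun ab => Finsupp.equivFunOnFinite.symm ![ab.1, ab.2])).filter (fun s => s 0 + s 1 ≤ D)

theorem mem_box {D : ℕ} {s : Fin 2 →₀ ℕ} : s ∈ box D ↔ s 0 + s 1 ≤ D := by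
  rw [box, Finset.mem_filter]
  constructor
  · exact fun h => h.2
  · intro h
    refine ⟨?_, h⟩
    rw [Finset.mem_image]
    refine ⟨(s 0, s 1), ?_, ?_⟩
    · rw [Finset.mem_product, Finset.mem_range, Finset.mem_range]
      constructor <;> omega
    · ext i
      fin_cases i <;> rfl

theorem support_subset_box {R : Type*} [CommSemiring R] {P : MvPolynomial (Fin 2) R} {D : ℕ}
    (hP : P.totalDegree ≤ D) : P.support ⊆ box D := by
  intro s hs
  rw [mem_box]
  have := MvPolynomial.le_totalDegree hs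
  rw [Finsupp.sum_fintype _ _ (fun _ => rfl), Fin.sum_univ_two] at this
  omega

theorem eval₂_box {R T : Type*} [CommRing R] [CommRing T] (f : R →+* T) (x y : T)
    (P : MvPolynomial (Fin 2) R) (D : ℕ) (hP : P.totalDegree ≤ D) :
    MvPolynomial.eval₂ f ![x, y] P = ∑ s ∈ box D, f (P.coeff s) * (x ^ (s 0) * y ^ (s 1)) := by
  rw [MvPolynomial.eval₂_eq']
  rw [Finset.sum_subset (support_subset_box hP)]
  · refine Finset.sum_congr rfl fun s _ => ?_
    rw [Fin.prod_univ_two]
    rfl
  · intro s _ hs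
    rw [MvPolynomial.notMem_support_iff.mp hs, map_zero, zero_mul]

section lim

variable {I k K : Type} [Field k] [Field K] (g : (I → k) →+* K)

/-- the limit of a sequence of polynomials -/
noncomputable def lim (P : I → MvPolynomial (Fin 2) k) (D : ℕ) : MvPolynomial (Fin 2) K :=
  ∑ s ∈ box D, MvPolynomial.monomial s (g (fun i => (P i).coeff s))

theorem coeff_lim (P : I → MvPolynomial (Fin 2) k) (D : ℕ) (s : Fin 2 →₀ ℕ) (hs : s ∈ box D) :
    (lim g P D).coeff s = g (fun i => (P i).coeff s) := by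
  classical
  rw [lim, MvPolynomial.coeff_sum, Finset.sum_eq_single s]
  · rw [MvPolynomial.coeff_monomial, if_pos rfl]
  · intro t _ hts
    rw [MvPolynomial.coeff_monomial, if_neg hts]
  · intro h
    exact absurd hs h

theorem totalDegree_lim (P : I → MvPolynomial (Fin 2) k) (D : ℕ) :
    (lim g P D).totalDegree ≤ D := by
  rw [lim]
  apply MvPolynomial.totalDegree_finsetSum_le
  intro s hs
  refine (MvPolynomial.totalDegree_monomial_le _ _).trans ?_
  rw [Finsupp.sum_fintype _ _ (fun _ => rfl), Fin.sum_univ_two]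
  exact mem_box.mp hs

theorem eval₂_lim {R T : Type*} [CommRing R] [Algebra k R] [CommRing T] (gR : (I → R) →+* T)
    (pT : K →+* T) (hp : ∀ a, pT (g a) = gR (fun i => algebraMap k R (a i)))
    (P : I → MvPolynomial (Fin 2) k) (D : ℕ) (hPD : ∀ i, (P i).totalDegree ≤ D)
    (x y : I → R) :
    MvPolynomial.eval₂ pT ![gR x, gR y] (lim g P D) =
      gR (fun i => MvPolynomial.aeval ![x i, y i] (P i)) := by
  rw [eval₂_box pT _ _ _ D (totalDegree_lim g P D)]
  have h1 : (fun i => MvPolynomial.aeval ![x i, y i] (P i)) =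
      ∑ s ∈ box D, (fun i => algebraMap k R ((P i).coeff s)) * (x ^ (s 0) * y ^ (s 1)) := by
    funext i
    rw [Finset.sum_apply, MvPolynomial.aeval_def, eval₂_box _ _ _ _ D (hPD i)]
    rfl
  rw [h1, map_sum]
  refine Finset.sum_congr rfl fun s hs => ?_
  rw [coeff_lim g P D s hs, hp, map_mul, map_mul, map_pow, map_pow]

variable (𝒰 : Ultrafilter I)

theorem lim_ne_zero (hg : ∀ f, g f = 0 ↔ ∀ᶠ i in (𝒰 : Filter I), f i = 0)
    (P : I → MvPolynomial (Fin 2) k) (D : ℕ) (hPD : ∀ i, (P i).totalDegree ≤ D)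
    (hP : ∀ i, P i ≠ 0) : lim g P D ≠ 0 := by
  intro h0
  have h1 : ∀ s ∈ box D, ∀ᶠ i in (𝒰 : Filter I), (P i).coeff s = 0 := by
    intro s hs
    rw [← hg, ← coeff_lim g P D s hs, h0, MvPolynomial.coeff_zero]
  have h2 : ∀ᶠ i in (𝒰 : Filter I), ∀ s ∈ box D, (P i).coeff s = 0 :=
    (Filter.eventually_all_finset (box D)).2 h1
  obtain ⟨i, hi⟩ := h2.exists
  apply hP i
  ext s
  rw [MvPolynomial.coeff_zero]
  by_cases hs : s ∈ box D
  · exact hi s hs
  · by_contra h3
    exact hs (support_subset_box (hPD i) (MvPolynomial.mem_support_iff.mpr h3))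

theorem noLine_lim {S : Type} [CommRing S] (gX : (I → k[X]) →+* S) (pX : K →+* S)
    (hgs : Function.Surjective g)
    (hg : ∀ f, g f = 0 ↔ ∀ᶠ i in (𝒰 : Filter I), f i = 0)
    (hgX : ∀ f, gX f = 0 ↔ ∀ᶠ i in (𝒰 : Filter I), f i = 0)
    (hp : ∀ a, pX (g a) = gX (fun i => C (a i)))
    (P : I → MvPolynomial (Fin 2) k) (D : ℕ) (hPD : ∀ i, (P i).totalDegree ≤ D)
    (hP : ∀ i, NoLine k (P i)) : NoLine K (lim g P D) := by
  intro p q hpq
  let Ψ : K[X] →+* S := eval₂RingHom pX (gX (fun _ => X))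
  -- lifting polynomials
  have lift : ∀ p : K[X], ∃ f : I → k[X], gX f = Ψ p ∧
      ((∀ᶠ i in (𝒰 : Filter I), (f i).natDegree = 0) → p.natDegree = 0) := by
    intro p
    choose a ha using fun j => hgs (p.coeff j)
    set n := p.natDegree with hn
    have hcf : ∀ i j, j ∈ Finset.range (n + 1) →
        (∑ l ∈ Finset.range (n + 1), C (a l i) * X ^ l : k[X]).coeff j = a j i := by
      intro i j hj
      simp only [finsetSum_coeff, coeff_C_mul, coeff_X_pow, mul_ite, mul_one, mul_zero,
        Finset.sum_ite_eq, hj, if_true]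
    refine ⟨fun i => ∑ j ∈ Finset.range (n + 1), C (a j i) * X ^ j, ?_, ?_⟩
    · have h1 : (fun i => ∑ j ∈ Finset.range (n + 1), C (a j i) * X ^ j) =
          ∑ j ∈ Finset.range (n + 1), (fun i => C (a j i)) * (fun _ : I => (X : k[X])) ^ j := by
        funext i
        rw [Finset.sum_apply]
        rfl
      rw [h1, map_sum]
      change _ = eval₂ pX (gX (fun _ => X)) p
      rw [eval₂_eq_sum_range]
      refine Finset.sum_congr rfl fun j _ => ?_
      rw [map_mul, map_pow, ← hp, ha]
    · intro h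
      by_contra hn0
      have h2 : g (a n) = 0 := by
        rw [hg]
        refine h.mono fun i hi => ?_
        rw [← hcf i n (Finset.mem_range.mpr (Nat.lt_succ_self n))]
        apply coeff_eq_zero_of_natDegree_lt
        rw [hi]
        exact Nat.pos_of_ne_zero hn0
      rw [ha] at h2
      have h3 : p.leadingCoeff = 0 := h2
      rw [leadingCoeff_eq_zero] at h3
      apply hn0
      rw [hn, h3, natDegree_zero]
  obtain ⟨f, hf, hf2⟩ := lift p
  obtain ⟨f', hf', hf2'⟩ := lift q
  have h1 : MvPolynomial.eval₂ pX ![gX f, gX f'] (lim g P D) = 0 := by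
    have h2 := congrArg Ψ hpq
    rw [map_zero, MvPolynomial.aeval_def, MvPolynomial.hom_eval₂] at h2
    rw [← h2]
    have e1 : Ψ.comp (algebraMap K K[X]) = pX := by
      apply RingHom.ext
      intro a
      change eval₂ pX _ (C a) = _
      rw [eval₂_C]
    rw [e1]
    congr 1
    funext i
    fin_cases i
    · exact hf
    · exact hf'
  rw [eval₂_lim g gX pX (fun a => hp a) P D hPD, hgX] at h1
  have h3 : ∀ᶠ i in (𝒰 : Filter I), (f i).natDegree = 0 ∧ (f' i).natDegree = 0 :=
    h1.mono fun i hi => hP i _ _ hi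
  exact ⟨hf2 (h3.mono fun i hi => hi.1), hf2' (h3.mono fun i hi => hi.2)⟩

end lim

end Run7.h577
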