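import Mathlib

/-!
# Curves in affine varieties which separate a finite dimensional space of functions
-/

set_option autoImplicit false

namespace Run7.h577

open Module

/-- digits -/
theorem digits_inj (M : ℕ) : ∀ (r : ℕ) (s t : Fin r → ℕ), (∀ i, s i < M) → (∀ i, t i < M) →
    ∑ i, s i * M ^ (i : ℕ) = ∑ i, t i * M ^ (i : ℕ) → s = t := by
  intro r
  induction r with
  | zero => intro s t _ _ _; exact Subsingleton.elim _ _
  | succ r ih =>
    intro s t hs ht h
    rw [Fin.sum_univ_succ, Fin.sum_univ_succ] at h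
    have e : ∀ s : Fin (r + 1) → ℕ, ∑ i : Fin r, s i.succ * M ^ ((i.succ : Fin (r + 1)) : ℕ) =
        M * ∑ i : Fin r, s i.succ * M ^ (i : ℕ) := by
      intro s
      rw [Finset.mul_sum]
      refine Finset.sum_congr rfl fun i _ => ?_
      rw [Fin.val_succ, pow_succ]
      ring
    rw [e, e, Fin.val_zero, pow_zero, mul_one, mul_one] at h
    have hM : 0 < M := (Nat.zero_le _).trans_lt (hs 0)
    have h0 : s 0 = t 0 := by
      have h1 := congrArg (fun x => x % M) h
      simp only [Nat.add_mul_mod_self_left, Nat.mod_eq_of_lt (hs 0), Nat.mod_eq_of_lt (ht 0)] at h1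
      exact h1
    rw [h0] at h
    have h2 := Nat.eq_of_mul_eq_mul_left hM (Nat.add_left_cancel h)
    have h3 := ih (fun i => s i.succ) (fun i => t i.succ) (fun i => hs _) (fun i => ht _) h2
    funext i
    refine Fin.cases h0 (fun i => congrFun h3 i) i

/-- **Substitution.** -/
theorem exists_subst {k : Type*} [Field k] {r : ℕ} (Z : Submodule k (MvPolynomial (Fin r) k))
    (hZ : Z.FG) :
    ∃ κ : MvPolynomial (Fin r) k →ₐ[k] Polynomial k, ∀ z ∈ Z, κ z = 0 → z = 0 := by
  classical
  obtain ⟨S, hS⟩ := hZ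
  set M := S.sup (fun f => f.totalDegree) + 1 with hM
  have hdeg : ∀ z ∈ Z, z.totalDegree < M := by
    intro z hz
    rw [← hS] at hz
    rw [hM, Nat.lt_succ_iff]
    induction hz using Submodule.span_induction with
    | mem x hx => exact Finset.le_sup (f := fun f => f.totalDegree) hx
    | zero => rw [MvPolynomial.totalDegree_zero]; exact Nat.zero_le _
    | add x y _ _ hx hy => exact (MvPolynomial.totalDegree_add _ _).trans (max_le hx hy)
    | smul a x _ hx => exact (MvPolynomial.totalDegree_smul_le _ _).trans hx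
  refine ⟨MvPolynomial.aeval (fun i : Fin r => Polynomial.X ^ (M ^ (i : ℕ))), ?_⟩
  intro z hz h0
  by_contra hz0
  obtain ⟨s₀, hs₀⟩ := MvPolynomial.support_nonempty.mpr hz0
  have hlt : ∀ s ∈ z.support, ∀ i, s i < M := by
    intro s hs i
    refine lt_of_le_of_lt ?_ (hdeg z hz)
    refine le_trans ?_ (MvPolynomial.le_totalDegree hs)
    rw [Finsupp.sum_fintype _ _ (fun _ => rfl)]
    exact Finset.single_le_sum (f := fun i => s i) (fun _ _ => Nat.zero_le _) (Finset.mem_univ i)
  have h1 := congrArg (fun p => Polynomial.coeff p (∑ i, s₀ i * M ^ (i : ℕ))) h0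
  simp only [Polynomial.coeff_zero] at h1
  rw [MvPolynomial.aeval_def, MvPolynomial.eval₂_eq', Polynomial.finsetSum_coeff,
    Finset.sum_eq_single s₀] at h1
  · have e : ∀ s : Fin r →₀ ℕ, ∏ i : Fin r, (Polynomial.X ^ M ^ (i : ℕ) : Polynomial k) ^ s i =
        Polynomial.X ^ (∑ i, s i * M ^ (i : ℕ)) := by
      intro s
      rw [← Finset.prod_pow_eq_pow_sum]
      refine Finset.prod_congr rfl fun i _ => ?_
      rw [← pow_mul, mul_comm]
    rw [e] at h1
    change Polynomial.coeff (Polynomial.C _ * _) _ = 0 at h1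
    rw [Polynomial.coeff_C_mul, Polynomial.coeff_X_pow_self, mul_one] at h1
    exact (MvPolynomial.mem_support_iff.mp hs₀) h1
  · intro s hs hne
    have e : ∏ i : Fin r, (Polynomial.X ^ M ^ (i : ℕ) : Polynomial k) ^ s i =
        Polynomial.X ^ (∑ i, s i * M ^ (i : ℕ)) := by
      rw [← Finset.prod_pow_eq_pow_sum]
      refine Finset.prod_congr rfl fun i _ => ?_
      rw [← pow_mul, mul_comm]
    rw [e]
    change Polynomial.coeff (Polynomial.C _ * _) _ = 0
    rw [Polynomial.coeff_C_mul, Polynomial.coeff_X_pow, if_neg, mul_zero]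
    intro h2
    apply hne
    have h3 := digits_inj M r (fun i => s i) (fun i => s₀ i) (hlt s hs) (hlt s₀ hs₀) h2.symm
    ext i
    exact congrFun h3 i
  · intro h
    exact absurd hs₀ h

/-- **Universal integral equations.** -/
theorem exists_coeffs {k C A : Type*} [Field k] [CommRing C] [Algebra k C] [CommRing A]
    [IsDomain A] [Algebra k A] (φ : C →ₐ[k] A) (hφ : φ.toRingHom.IsIntegral) {r : ℕ}
    (y : Fin r → A) :
    ∃ Z : Submodule k C, Z.FG ∧ ∀ a : Fin r → k, ∑ j, a j • y j ≠ 0 →
      ∃ c ∈ Z, c ≠ 0 ∧ ∃ b : A, φ c = b * ∑ j, a j • y j := by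
  classical
  let mφ : MvPolynomial (Fin r) C →+* MvPolynomial (Fin r) A := MvPolynomial.map φ.toRingHom
  have hint : mφ.IsIntegralElem (∑ j, MvPolynomial.X j * MvPolynomial.C (y j)) := by
    algebraize [mφ]
    refine IsIntegral.sum _ fun j _ => ?_
    refine IsIntegral.mul ?_ ?_
    · have h1 : (algebraMap (MvPolynomial (Fin r) C) (MvPolynomial (Fin r) A))
          (MvPolynomial.X j) = MvPolynomial.X j := MvPolynomial.map_X _ _
      rw [← h1]
      exact isIntegral_algebraMap
    · have h1 := (hφ (y j)).map (MvPolynomial.C : A →+* MvPolynomial (Fin r) A)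
      have h2 : (MvPolynomial.C : A →+* MvPolynomial (Fin r) A).comp φ.toRingHom =
          mφ.comp MvPolynomial.C := by
        apply RingHom.ext
        intro c
        exact (MvPolynomial.map_C _ _).symm
      rw [h2] at h1
      exact h1.of_comp
  obtain ⟨f, hf, hf0⟩ := hint
  -- the coefficients
  let T : Finset C := (Finset.range (f.natDegree + 1)).biUnion
    (fun n => (f.coeff n).support.image (fun s => (f.coeff n).coeff s))
  refine ⟨Submodule.span k (T : Set C), ⟨T, rfl⟩, ?_⟩
  intro a ha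
  set y₀ := ∑ j, a j • y j with hy₀
  let e : MvPolynomial (Fin r) C →+* C :=
    MvPolynomial.eval (fun j => algebraMap k C (a j))
  let e' : MvPolynomial (Fin r) A →+* A :=
    MvPolynomial.eval (fun j => algebraMap k A (a j))
  have hcomm : e'.comp mφ = φ.toRingHom.comp e := by
    apply MvPolynomial.ringHom_ext
    · intro c
      simp [e, e', mφ]
    · intro i
      simp [e, e', mφ]
  have he' : e' (∑ j, MvPolynomial.X j * MvPolynomial.C (y j)) = y₀ := by
    rw [map_sum]
    refine Finset.sum_congr rfl fun j _ => ?_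
    simp only [e', map_mul, MvPolynomial.eval_X, MvPolynomial.eval_C, Algebra.smul_def]
  set p : Polynomial C := f.map e with hp
  have hpm : p.Monic := hf.map e
  have hp0 : p.eval₂ φ.toRingHom y₀ = 0 := by
    rw [hp, Polynomial.eval₂_map, ← hcomm, ← he', ← Polynomial.hom_eval₂, hf0, map_zero]
  have hcoef : ∀ n, p.coeff n ∈ Submodule.span k (T : Set C) := by
    intro n
    rw [hp, Polynomial.coeff_map]
    by_cases hn : n ∈ Finset.range (f.natDegree + 1)
    · change MvPolynomial.eval _ (f.coeff n) ∈ _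
      rw [MvPolynomial.eval_eq']
      refine Submodule.sum_mem _ fun s hs => ?_
      have h1 : ∏ i, (algebraMap k C (a i)) ^ s i = algebraMap k C (∏ i, a i ^ s i) := by
        rw [map_prod]
        refine Finset.prod_congr rfl fun i _ => ?_
        rw [map_pow]
      rw [h1, mul_comm, ← Algebra.smul_def]
      apply Submodule.smul_mem
      apply Submodule.subset_span
      exact Finset.mem_biUnion.mpr ⟨n, hn, Finset.mem_image.mpr ⟨s, hs, rfl⟩⟩
    · rw [Polynomial.coeff_eq_zero_of_natDegree_lt, map_zero]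
      · exact zero_mem _
      · rw [Finset.mem_range] at hn
        omega
  have hC : Nontrivial C := by
    by_contra h
    rw [not_nontrivial_iff_subsingleton] at h
    have : (1 : A) = 0 := by
      rw [← map_one φ, Subsingleton.elim (1 : C) 0, map_zero]
    exact one_ne_zero this
  -- the lowest coefficient
  have hex : ∃ n, p.coeff n ≠ 0 := ⟨p.natDegree, by
    rw [hpm.coeff_natDegree]; exact one_ne_zero⟩
  set n := Nat.find hex with hn
  have hn1 : p.coeff n ≠ 0 := Nat.find_spec hex
  have hn2 : ∀ m, m < n → p.coeff m = 0 := by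
    intro m hm
    have := Nat.find_min hex hm
    rwa [not_not] at this
  obtain ⟨q, hq⟩ : Polynomial.X ^ n ∣ p := by
    rw [Polynomial.X_pow_dvd_iff]
    exact hn2
  have hq0 : q.coeff 0 = p.coeff n := by
    rw [hq]
    have := Polynomial.coeff_X_pow_mul q n 0
    rwa [zero_add, eq_comm] at this
  have hqe : q.eval₂ φ.toRingHom y₀ = 0 := by
    rw [hq, Polynomial.eval₂_mul, Polynomial.eval₂_X_pow] at hp0
    rcases mul_eq_zero.mp hp0 with h | h
    · exact absurd h (pow_ne_zero n ha)
    · exact h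
  refine ⟨p.coeff n, hcoef n, hn1, -(q.divX.eval₂ φ.toRingHom y₀), ?_⟩
  have h1 : q = q.divX * Polynomial.X + Polynomial.C (q.coeff 0) := (Polynomial.divX_mul_X_add q).symm
  rw [h1, Polynomial.eval₂_add, Polynomial.eval₂_mul, Polynomial.eval₂_X, Polynomial.eval₂_C,
    hq0] at hqe
  have h2 : φ (p.coeff n) = φ.toRingHom (p.coeff n) := rfl
  rw [h2]
  linear_combination hqe

/-- **Separating curves.** Let `A` be a finitely generated domain over `k` and `Y` a finite
dimensional subspace. There is a homomorphism from `A` to a field of transcendence degree at most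
one over `k` which is injective on `Y`. -/
theorem exists_curve {k A : Type} [Field k] [CommRing A] [IsDomain A] [Algebra k A]
    [Algebra.FiniteType k A] (Y : Submodule k A) [FiniteDimensional k Y] :
    ∃ (L : Type) (_ : Field L) (_ : Algebra k L) (ψ : A →ₐ[k] L), (∀ y ∈ Y, ψ y = 0 → y = 0) ∧
      ∀ x y : A, ∃ Q : MvPolynomial (Fin 2) k, Q ≠ 0 ∧
        MvPolynomial.aeval ![ψ x, ψ y] Q = 0 := by
  classical
  obtain ⟨s, φ, hφi, hφ⟩ := exists_integral_inj_algHom_of_fg k A
  let b := finBasis k Y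
  obtain ⟨Z, hZ, hZ2⟩ := exists_coeffs φ hφ (fun j => (b j : A))
  obtain ⟨κ, hκ⟩ := exists_subst Z hZ
  let aCA : Algebra (MvPolynomial (Fin s) k) A := φ.toRingHom.toAlgebra
  have hint : Algebra.IsIntegral (MvPolynomial (Fin s) k) A := ⟨hφ⟩
  have hkp : (RingHom.ker κ).IsPrime := RingHom.ker_isPrime κ
  obtain ⟨𝔮, h𝔮p, h𝔮⟩ := Ideal.exists_ideal_over_prime_of_isIntegral_of_isDomain
    (S := A) (RingHom.ker κ) (by
      have h1 : RingHom.ker (algebraMap (MvPolynomial (Fin s) k) A) = ⊥ :=
        (RingHom.injective_iff_ker_eq_bot _).mp hφi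
      rw [h1]
      exact bot_le)
  have hmem : ∀ c, φ c ∈ 𝔮 ↔ κ c = 0 := by
    intro c
    have : c ∈ 𝔮.comap (algebraMap (MvPolynomial (Fin s) k) A) ↔ c ∈ RingHom.ker κ := by
      rw [h𝔮]
    exact this
  let ψ : A →ₐ[k] FractionRing (A ⧸ 𝔮) :=
    (Algebra.algHom k (A ⧸ 𝔮) (FractionRing (A ⧸ 𝔮))).comp (Ideal.Quotient.mkₐ k 𝔮)
  have hψ : ∀ x, ψ x = algebraMap (A ⧸ 𝔮) (FractionRing (A ⧸ 𝔮)) (Ideal.Quotient.mk 𝔮 x) :=
    fun x => rfl
  have hinjB : Function.Injective (algebraMap (A ⧸ 𝔮) (FractionRing (A ⧸ 𝔮))) :=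
    IsFractionRing.injective _ _
  refine ⟨FractionRing (A ⧸ 𝔮), inferInstance, inferInstance, ψ, ?_, ?_⟩
  · intro y hy h0
    by_contra hy0
    have h1 : y ∈ 𝔮 := by
      rw [hψ, map_eq_zero_iff _ hinjB] at h0
      exact Ideal.Quotient.eq_zero_iff_mem.mp h0
    have h2 : y = ∑ j, (b.repr ⟨y, hy⟩ j) • (b j : A) := by
      have := congrArg Subtype.val (b.sum_repr ⟨y, hy⟩)
      rw [Submodule.coe_sum] at this
      conv_lhs => rw [show y = ((⟨y, hy⟩ : Y) : A) from rfl, ← this]
      rfl
    obtain ⟨c, hcZ, hc0, a, hca⟩ := hZ2 (fun j => b.repr ⟨y, hy⟩ j) (by rw [← h2]; exact hy0)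
    rw [← h2] at hca
    apply hc0
    apply hκ c hcZ
    rw [← hmem, hca]
    exact 𝔮.mul_mem_left a h1
  · intro x y
    -- the transcendence degree
    let B := A ⧸ 𝔮
    let C' := MvPolynomial (Fin s) k ⧸ (RingHom.ker κ)
    let ι : C' →ₐ[k] B := Ideal.Quotient.liftₐ (RingHom.ker κ)
      ((Ideal.Quotient.mkₐ k 𝔮).comp φ) (by
        intro c hc
        change Ideal.Quotient.mk 𝔮 (φ c) = 0
        rw [Ideal.Quotient.eq_zero_iff_mem, hmem]
        exact hc)
    have hι : ∀ c, ι (Ideal.Quotient.mk _ c) = Ideal.Quotient.mk 𝔮 (φ c) := fun c => rfl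
    have hιi : Function.Injective ι := by
      rw [injective_iff_map_eq_zero]
      intro c hc
      obtain ⟨c, rfl⟩ := Ideal.Quotient.mk_surjective c
      rw [hι, Ideal.Quotient.eq_zero_iff_mem, hmem] at hc
      rw [Ideal.Quotient.eq_zero_iff_mem]
      exact hc
    let κ' : C' →ₐ[k] Polynomial k := Ideal.kerLiftAlg κ
    have hκ'i : Function.Injective κ' := Ideal.kerLiftAlg_injective κ
    let aC'B : Algebra C' B := ι.toRingHom.toAlgebra
    have htow : IsScalarTower k C' B := IsScalarTower.of_algebraMap_eq' (by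
      exact ι.comp_algebraMap.symm)
    have hfs : FaithfulSMul C' B := (faithfulSMul_iff_algebraMap_injective _ _).mpr hιi
    have hdC : IsDomain C' := Ideal.Quotient.isDomain _
    have hdB : IsDomain B := Ideal.Quotient.isDomain _
    have hintB : Algebra.IsIntegral C' B := by
      constructor
      intro z
      obtain ⟨z, rfl⟩ := Ideal.Quotient.mk_surjective z
      have h1 := (hφ z).map (Ideal.Quotient.mk 𝔮)
      have h2 : (Ideal.Quotient.mk 𝔮).comp φ.toRingHom =
          (ι : C' →+* B).comp (Ideal.Quotient.mk (RingHom.ker κ)) := rfl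
      rw [h2] at h1
      exact h1.of_comp
    have hfs0 : FaithfulSMul k C' := by
      rw [faithfulSMul_iff_algebraMap_injective]
      exact (algebraMap k C').injective
    have ht1 : Algebra.trdeg k C' ≤ 1 := by
      have h1 := trdeg_le_of_injective κ' hκ'i
      rwa [Polynomial.trdeg_of_isDomain] at h1
    have ht2 : Algebra.trdeg k C' + Algebra.trdeg C' B = Algebra.trdeg k B :=
      trdeg_add_eq k C'
    have ht3 : Algebra.trdeg C' B = 0 := trdeg_eq_zero
    rw [ht3, add_zero] at ht2
    by_contra hcon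
    push Not at hcon
    have h1 : AlgebraicIndependent k ![Ideal.Quotient.mk 𝔮 x, Ideal.Quotient.mk 𝔮 y] := by
      rw [algebraicIndependent_iff]
      intro p hp
      by_contra h0
      apply hcon p h0
      have h2 := MvPolynomial.aeval_algebraMap_apply (A := A ⧸ 𝔮) (B := FractionRing (A ⧸ 𝔮))
        ![Ideal.Quotient.mk 𝔮 x, Ideal.Quotient.mk 𝔮 y] p
      rw [hp, map_zero] at h2
      rw [← h2]
      congr 2
      funext i
      fin_cases i <;> rfl
    have h2 := h1.cardinalMk_le_trdeg
    rw [← ht2] at h2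
    have h3 := h2.trans ht1
    simp at h3

end Run7.h577
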