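import Pool.Agent.Run7.h577.T14
import Pool.Agent.Run7.h577.T15

/-!
# The covering theorem
-/

set_option autoImplicit false

namespace Run7.h577

open Module Pool.Agent.N770

/-- **The covering theorem**, for a space of numbers whose powers grow up to the exponent `D + 3`. -/
theorem cover_gen {k M : Type} [Field k] [IsAlgClosed k] [CharZero k] [Field M] [Algebra k M]
    (V : Submodule k M) [FiniteDimensional k V] (h1 : (1 : M) ∈ V) (D N : ℕ) :
    ∃ 𝒲 : Set (Submodule k M), 𝒲.Finite ∧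
      (∀ W ∈ 𝒲, W ≤ V ∧ 1 ∈ W ∧ ∀ m ≤ N, finrank k (W ^ m : Submodule k M) ≤ m * D + 1) ∧
      ∀ u ∈ V, ∀ v ∈ V, (∃ P : MvPolynomial (Fin 2) k, P ≠ 0 ∧ P.totalDegree ≤ D ∧
        MvPolynomial.aeval ![u, v] P = 0 ∧ NoLine k P) → ∃ W ∈ 𝒲, u ∈ W ∧ v ∈ W := by
  classical
  set A : Subalgebra k M := Algebra.adjoin k (V : Set M) with hA
  have hAfg : A.FG := by
    obtain ⟨S, hS⟩ := (IsNoetherian.noetherian (⊤ : Submodule k V)).map V.subtype
    rw [Submodule.map_subtype_top] at hS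
    refine ⟨S, ?_⟩
    rw [hA]
    conv_rhs => rw [← hS]
    rw [Algebra.adjoin_span]
  have hft : Algebra.FiniteType k A := A.fg_iff_finiteType.mp hAfg
  have hVA : ∀ x ∈ V, x ∈ A := fun x hx => Algebra.subset_adjoin hx
  have hinjA : Function.Injective A.val.toLinearMap := Subtype.val_injective
  have hmapA : ∀ W : Submodule k A, finrank k (W.map A.val.toLinearMap) = finrank k W :=
    fun W => (Submodule.equivMapOfInjective A.val.toLinearMap hinjA W).finrank_eq.symm
  -- `V` inside `A`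
  let VA : Submodule k A := V.comap A.val.toLinearMap
  have hVAmap : VA.map A.val.toLinearMap = V := by
    rw [Submodule.map_comap_eq, inf_eq_right]
    intro x hx
    exact ⟨⟨x, hVA x hx⟩, rfl⟩
  have hVAfd : FiniteDimensional k VA := by
    have e := Submodule.equivMapOfInjective A.val.toLinearMap hinjA VA
    have : FiniteDimensional k (VA.map A.val.toLinearMap) := by rw [hVAmap]; infer_instance
    exact LinearEquiv.finiteDimensional e.symm
  have h1VA : (1 : A) ∈ VA := h1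
  have hpowmono : ∀ m, m ≤ N → VA ^ m ≤ VA ^ N := by
    intro m hm
    obtain ⟨j, rfl⟩ := Nat.exists_eq_add_of_le hm
    have h2 : (1 : Submodule k A) ≤ VA ^ j := by
      rw [Submodule.one_le]
      clear hm
      induction j with
      | zero => rw [pow_zero]; exact Submodule.one_le.mp le_rfl
      | succ j ih =>
        rw [pow_succ]
        have := Submodule.mul_mem_mul ih h1VA
        rwa [mul_one] at this
    calc VA ^ m = VA ^ m * 1 := (mul_one _).symm
      _ ≤ VA ^ m * VA ^ j := mul_le_mul' le_rfl h2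
      _ = VA ^ (m + j) := (pow_add VA m j).symm
  have hYfd : FiniteDimensional k (VA ^ N : Submodule k A) :=
    Module.Finite.iff_fg.mpr (Submodule.FG.pow (Module.Finite.iff_fg.mp inferInstance) N)
  obtain ⟨L, _, _, ψ, hψ, hψdep⟩ := exists_curve (k := k) (A := A) (VA ^ N)
  -- the image of `V`
  let VL : Submodule k L := VA.map ψ.toLinearMap
  have hVLfd : FiniteDimensional k VL := inferInstance
  have h1VL : (1 : L) ∈ VL := ⟨1, h1VA, map_one ψ⟩
  obtain ⟨𝒲, h𝒲f, h𝒲, hcov⟩ := cover_curve VL h1VL (by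
    rintro _ ⟨x, -, rfl⟩ _ ⟨y, -, rfl⟩
    exact hψdep x y) D
  let pull : Submodule k L → Submodule k M := fun W => (VA ⊓ W.comap ψ.toLinearMap).map A.val.toLinearMap
  refine ⟨pull '' 𝒲, h𝒲f.image _, ?_, ?_⟩
  · rintro _ ⟨W, hW, rfl⟩
    obtain ⟨-, h2, h3⟩ := h𝒲 W hW
    refine ⟨?_, ⟨1, ⟨h1VA, by
      rw [SetLike.mem_coe, Submodule.mem_comap]
      change ψ 1 ∈ W
      rw [map_one]
      exact h2⟩, rfl⟩, ?_⟩
    · calc pull W ≤ VA.map A.val.toLinearMap := Submodule.map_mono inf_le_left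
        _ = V := hVAmap
    · intro m hm
      set WA : Submodule k A := VA ⊓ W.comap ψ.toLinearMap with hWA
      have e1 : (pull W) ^ m = (WA ^ m).map A.val.toLinearMap := (Submodule.map_pow WA A.val m).symm
      rw [e1, hmapA]
      have hle : WA ^ m ≤ VA ^ N :=
        (pow_le_pow_left' (inf_le_left : WA ≤ VA) m).trans (hpowmono m hm)
      -- `ψ` is injective on `WA ^ m`
      have hWLfd : FiniteDimensional k W := Submodule.finiteDimensional_of_le (h𝒲 W hW).1
      have hWm : FiniteDimensional k (W ^ m : Submodule k L) :=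
        Module.Finite.iff_fg.mpr (Submodule.FG.pow (Module.Finite.iff_fg.mp inferInstance) m)
      have hWAfd : FiniteDimensional k WA := Submodule.finiteDimensional_of_le inf_le_left
      have hWAm : FiniteDimensional k (WA ^ m : Submodule k A) :=
        Module.Finite.iff_fg.mpr (Submodule.FG.pow (Module.Finite.iff_fg.mp inferInstance) m)
      have hmap : (WA ^ m).map ψ.toLinearMap ≤ W ^ m := by
        have e2 : (WA ^ m).map ψ.toLinearMap = (WA.map ψ.toLinearMap) ^ m :=
          Submodule.map_pow WA ψ m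
        rw [e2]
        apply pow_le_pow_left'
        rw [Submodule.map_le_iff_le_comap]
        exact inf_le_right
      let f : (WA ^ m : Submodule k A) →ₗ[k] (W ^ m : Submodule k L) :=
        (ψ.toLinearMap.comp (WA ^ m).subtype).codRestrict (W ^ m)
          (fun x => hmap ⟨x, x.2, rfl⟩)
      have hf : Function.Injective f := by
        rw [← LinearMap.ker_eq_bot, LinearMap.ker_eq_bot']
        intro x hx
        have h4 : ψ (x : A) = 0 := congrArg Subtype.val hx
        exact Subtype.ext (hψ x (hle x.2) h4)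
      exact (LinearMap.finrank_le_finrank_of_injective hf).trans (h3 m)
  · rintro u hu v hv ⟨P, hP0, hPD, hP, hPL⟩
    have hPA : MvPolynomial.aeval ![(⟨u, hVA u hu⟩ : A), ⟨v, hVA v hv⟩] P = 0 := by
      apply Subtype.val_injective
      have h2 := MvPolynomial.aeval_algebraMap_apply (A := A) (B := M)
        ![(⟨u, hVA u hu⟩ : A), ⟨v, hVA v hv⟩] P
      have h3 : (algebraMap A M) ∘ ![(⟨u, hVA u hu⟩ : A), ⟨v, hVA v hv⟩] = ![u, v] := by
        funext i
        fin_cases i <;> rfl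
      rw [h3, hP] at h2
      exact h2.symm
    have hPL' : MvPolynomial.aeval ![ψ ⟨u, hVA u hu⟩, ψ ⟨v, hVA v hv⟩] P = 0 := by
      have e : (MvPolynomial.aeval ![ψ ⟨u, hVA u hu⟩, ψ ⟨v, hVA v hv⟩] :
          MvPolynomial (Fin 2) k →ₐ[k] L) =
          ψ.comp (MvPolynomial.aeval ![(⟨u, hVA u hu⟩ : A), ⟨v, hVA v hv⟩]) := by
        apply MvPolynomial.algHom_ext
        intro i
        fin_cases i
        · simp
        · simp
      rw [e, AlgHom.comp_apply, hPA, map_zero]
    obtain ⟨W, hW, hWu, hWv⟩ := hcov _ ⟨_, show (⟨u, hVA u hu⟩ : A) ∈ VA from hu, rfl⟩ _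
      ⟨_, show (⟨v, hVA v hv⟩ : A) ∈ VA from hv, rfl⟩ ⟨P, hP0, hPD, hPL', hPL⟩
    exact ⟨_, ⟨W, hW, rfl⟩, ⟨_, ⟨hu, hWu⟩, rfl⟩, ⟨_, ⟨hv, hWv⟩, rfl⟩⟩

/-- **The covering theorem** in a space with growth. -/
theorem cover_grows {k M : Type} [Field k] [IsAlgClosed k] [CharZero k] [Field M] [Algebra k M]
    (S : Submodule k M) (hS : Grows k S) (V : Submodule k M) [FiniteDimensional k V]
    (hVS : V ≤ S) (h1 : (1 : M) ∈ V) (D : ℕ) :
    ∃ 𝒲 : Set (Submodule k M), 𝒲.Finite ∧
      (∀ W ∈ 𝒲, W ≤ V ∧ 1 ∈ W ∧ finrank k W ^ 2 / 4 ≤ D) ∧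
      ∀ u ∈ V, ∀ v ∈ V, (∃ P : MvPolynomial (Fin 2) k, P ≠ 0 ∧ P.totalDegree ≤ D ∧
        MvPolynomial.aeval ![u, v] P = 0 ∧ NoLine k P) → ∃ W ∈ 𝒲, u ∈ W ∧ v ∈ W := by
  obtain ⟨𝒲, h𝒲f, h𝒲, hcov⟩ := cover_gen V h1 D (D + 3)
  refine ⟨𝒲, h𝒲f, ?_, hcov⟩
  intro W hW
  obtain ⟨h2, h3, h4⟩ := h𝒲 W hW
  refine ⟨h2, h3, ?_⟩
  have hWfd : FiniteDimensional k W := Submodule.finiteDimensional_of_le h2
  have hgrow := hS W hWfd (h2.trans hVS) h3
  set c := finrank k W ^ 2 / 4 with hc
  have hlow : ∀ m, m * c ≤ finrank k (W ^ (m + 1) : Submodule k M) := by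
    intro m
    induction m with
    | zero => simp
    | succ m ih =>
      have := hgrow (m + 1) (Nat.succ_le_succ (Nat.zero_le m))
      calc (m + 1) * c = m * c + c := by ring
        _ ≤ _ := Nat.add_le_add_right ih c
        _ ≤ _ := this
  have h5 := (hlow (D + 2)).trans (h4 (D + 3) le_rfl)
  by_contra h6
  push Not at h6
  have h7 : (D + 2) * (D + 1) ≤ (D + 2) * c := Nat.mul_le_mul_left _ h6
  have h8 : (D + 2) * (D + 1) ≤ (D + 3) * D + 1 := h7.trans h5
  nlinarith

end Run7.h577
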