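import Pool.Agent.Run7.h577.T10

/-!
# Degrees of polynomial parametrisations
-/

set_option autoImplicit false

namespace Run7.h577

open Module Polynomial IntermediateField Pool.Agent.W256 Pool.Agent.N770

/-- expansions in powers of a nonconstant polynomial -/
theorem expansion {K : Type*} [Field K] (r : K[X]) (A : Fin r.natDegree → K[X])
    (h : ∑ i, (A i).comp r * X ^ (i : ℕ) = 0) : ∀ i, A i = 0 := by
  classical
  by_cases hr : r.natDegree = 0
  · intro i
    exact absurd i.2 (by omega)
  have hcomp : ∀ a : K[X], a.comp r = 0 → a = 0 := by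
    intro a ha
    rw [comp_eq_zero_iff] at ha
    rcases ha with ha | ⟨-, ha⟩
    · exact ha
    · exfalso
      apply hr
      rw [ha, natDegree_C]
  have hnd : ∀ i, (A i).comp r * X ^ (i : ℕ) ≠ 0 →
      ((A i).comp r * X ^ (i : ℕ)).natDegree = (A i).natDegree * r.natDegree + i := by
    intro i hi
    have h1 : (A i).comp r ≠ 0 := left_ne_zero_of_mul hi
    rw [natDegree_mul h1 (pow_ne_zero _ X_ne_zero), natDegree_comp, natDegree_X_pow]
  have h2 := degree_sum_eq_of_disjoint (fun i : Fin r.natDegree => (A i).comp r * X ^ (i : ℕ))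
    Finset.univ (by
      intro i hi j hj hij hdeg
      apply hij
      have h3 := natDegree_eq_of_degree_eq hdeg
      simp only at h3
      rw [hnd i hi.2, hnd j hj.2] at h3
      have h4 := congrArg (fun n => n % r.natDegree) h3
      simp only [Nat.mul_add_mod_self_right, Nat.mod_eq_of_lt i.2, Nat.mod_eq_of_lt j.2] at h4
      exact Fin.ext h4)
  rw [h, degree_zero] at h2
  intro i
  have h3 : degree ((A i).comp r * X ^ (i : ℕ)) ≤ ⊥ := by
    rw [h2]
    exact Finset.le_sup (f := fun i : Fin r.natDegree => degree ((A i).comp r * X ^ (i : ℕ)))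
      (Finset.mem_univ i)
  have h4 : (A i).comp r * X ^ (i : ℕ) = 0 := by
    rw [← degree_eq_bot]
    exact le_bot_iff.mp h3
  rcases mul_eq_zero.mp h4 with h5 | h5
  · exact hcomp _ h5
  · exact absurd h5 (pow_ne_zero _ X_ne_zero)

/-- the degree of a polynomial is bounded by the degree of the extension -/
theorem natDegree_le_of_finrank {K F : Type*} [Field K] [Field F] [Algebra K F] (y : F)
    (hy : Transcendental K y) (r : K[X]) (x : F) (hx : x = aeval y r)
    (hxt : Transcendental K x) [FiniteDimensional K⟮x⟯ F] :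
    r.natDegree ≤ finrank K⟮x⟯ F := by
  classical
  set E := K⟮x⟯ with hE
  set g : E := AdjoinSimple.gen K x with hg
  have hgx : (g : F) = x := AdjoinSimple.algebraMap_gen K x
  let aE : Algebra K[X] E := (ev K g).toAlgebra
  let aL : Algebra K[X] F := (ev K (g : F)).toAlgebra
  have htow : IsScalarTower K[X] E F :=
    IsScalarTower.of_algebraMap_eq fun p => aeval_algebraMap_apply F g p
  have hfrac : IsFractionRing K[X] E := isFrac E g (by rw [hgx]) (by rw [hgx]; exact hxt)
  have hli : LinearIndependent K[X] (fun i : Fin r.natDegree => y ^ (i : ℕ)) := by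
    rw [Fintype.linearIndependent_iff]
    intro A hA
    apply expansion r A
    apply (transcendental_iff_injective.1 hy)
    rw [map_zero, map_sum, ← hA]
    refine Finset.sum_congr rfl fun i _ => ?_
    rw [map_mul, map_pow, aeval_X, aeval_comp, Algebra.smul_def]
    change aeval (aeval y r) (A i) * y ^ (i : ℕ) = aeval (g : F) (A i) * y ^ (i : ℕ)
    rw [hgx, hx]
  have hli2 : LinearIndependent E (fun i : Fin r.natDegree => y ^ (i : ℕ)) :=
    (LinearIndependent.iff_fractionRing K[X] E).mp hli
  have := hli2.fintype_card_le_finrank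
  rwa [Fintype.card_fin] at this

/-- the degrees of a polynomial parametrisation are bounded by the degree of the curve -/
theorem param_degree {K F : Type*} [Field K] [CharZero K] [Field F] [Algebra K F] (u v y : F)
    (hF : adjoin K {u, v} = (⊤ : IntermediateField K F)) (P : MvPolynomial (Fin 2) K) (hP : P ≠ 0)
    (h : MvPolynomial.aeval ![u, v] P = 0) (hv : Transcendental K v) (p q : K[X])
    (hp : u = aeval y p) (hq : v = aeval y q) :
    p.natDegree ≤ P.totalDegree ∧ q.natDegree ≤ P.totalDegree := by
  classical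
  obtain ⟨θ, hθ0, hθ⟩ := degree_le u v P hP h hF
  have hyt : Transcendental K y := by
    intro hya
    apply hv
    rw [hq]
    have h5 : Algebra.adjoin K {y} ≤ integralClosure K F :=
      Algebra.adjoin_le (by
        rw [Set.singleton_subset_iff]
        exact hya.isIntegral)
    have h6 : IsIntegral K (aeval y q) := h5 (aeval_mem_adjoin_singleton K y)
    exact h6.isAlgebraic
  have key : ∀ t : K, θ.eval (-t) ≠ 0 → (p + C t * q).natDegree ≤ P.totalDegree := by
    intro t ht
    obtain ⟨hfin, hdeg⟩ := hθ t ht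
    have hx : u + algebraMap K F t * v = aeval y (p + C t * q) := by
      rw [map_add, map_mul, aeval_C, ← hp, ← hq]
    have hxt : Transcendental K (u + algebraMap K F t * v) := by
      intro h
      apply hv
      have h2 : Algebra.IsAlgebraic K K⟮u + algebraMap K F t * v⟯ :=
        isAlgebraic_adjoin_simple h.isIntegral
      have h3 : Algebra.IsAlgebraic K F :=
        Algebra.IsAlgebraic.trans K K⟮u + algebraMap K F t * v⟯ F
      exact Algebra.IsAlgebraic.isAlgebraic v
    exact (natDegree_le_of_finrank y hyt _ _ hx hxt).trans hdeg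
  obtain ⟨t₁, ht₁⟩ := Infinite.exists_notMem_finset (θ.roots.toFinset.image (fun x => -x))
  obtain ⟨t₂, ht₂⟩ := Infinite.exists_notMem_finset
    (insert t₁ (θ.roots.toFinset.image (fun x => -x)))
  rw [Finset.mem_insert, not_or] at ht₂
  have hroot : ∀ t ∉ θ.roots.toFinset.image (fun x => -x), θ.eval (-t) ≠ 0 := by
    intro t ht h0
    apply ht
    rw [Finset.mem_image]
    refine ⟨-t, ?_, neg_neg t⟩
    rw [Multiset.mem_toFinset]
    exact (mem_roots hθ0).mpr h0
  have k1 := key t₁ (hroot _ ht₁)
  have k2 := key t₂ (hroot _ ht₂.2)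
  have hcoef : ∀ j, P.totalDegree < j → p.coeff j = 0 ∧ q.coeff j = 0 := by
    intro j hj
    have e1 : (p + C t₁ * q).coeff j = 0 := coeff_eq_zero_of_natDegree_lt (k1.trans_lt hj)
    have e2 : (p + C t₂ * q).coeff j = 0 := coeff_eq_zero_of_natDegree_lt (k2.trans_lt hj)
    rw [coeff_add, coeff_C_mul] at e1 e2
    have h3 : (t₂ - t₁) * q.coeff j = 0 := by linear_combination e2 - e1
    have h4 : q.coeff j = 0 :=
      (mul_eq_zero.mp h3).resolve_left (sub_ne_zero.mpr ht₂.1)
    rw [h4, mul_zero, add_zero] at e1
    exact ⟨e1, h4⟩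
  exact ⟨natDegree_le_iff_coeff_eq_zero.mpr fun j hj => (hcoef j hj).1,
    natDegree_le_iff_coeff_eq_zero.mpr fun j hj => (hcoef j hj).2⟩

end Run7.h577
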