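import Pool.Agent.Run7.h577.T17

/-!
# Rigidity or a polynomial parametrisation
-/

set_option autoImplicit false

namespace Run7.h577

open Module Polynomial IntermediateField Pool.Agent.W256 Pool.Agent.N770

/-- `u` and `v` are polynomials, of degree at most `D`, in an element of `K(u, v)` -/
def Param (K : Type*) {M : Type*} [Field K] [Field M] [Algebra K M] (D : ℕ) (u v : M) : Prop :=
  ∃ y ∈ adjoin K {u, v}, ∃ p q : K[X], u = aeval y p ∧ v = aeval y q ∧
    p.natDegree ≤ D ∧ q.natDegree ≤ D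

variable {K M : Type*} [Field K] [Field M] [Algebra K M]

/-- **Rigidity or a polynomial parametrisation.** -/
theorem rigid_dich [IsAlgClosed K] [CharZero K] (V : Submodule K M) [FiniteDimensional K V]
    (h1 : (1 : M) ∈ V) (hV : adjoin K (V : Set M) = ⊤) (𝒟 : Set (Derivation ℤ M M))
    (hDK : ∀ D ∈ 𝒟, ∀ c : K, ∃ c' : K, D (algebraMap K M c) = algebraMap K M c')
    (hDV : ∀ D ∈ 𝒟, ∀ w ∈ V, D w ∈ V) (u v : M) (hu : u ∈ V) (hv : v ∈ V)
    (hmin : ∀ N : Submodule K M, N ≤ V → (1 : M) ∈ N → u ∈ N → v ∈ N →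
      (∀ D ∈ 𝒟, ∀ w ∈ N, D w ∈ N) → V ≤ N)
    (T : Finset K) (hT : ∀ t ∉ T, V ≤ intSub K (u + algebraMap K M t * v) 1)
    (D : ℕ) (P : MvPolynomial (Fin 2) K) (hP : P ≠ 0) (hPD : P.totalDegree ≤ D)
    (huv : MvPolynomial.aeval ![u, v] P = 0) (hvt : Transcendental K v)
    (hpar : ¬ Param K D u v) (m : ℕ) :
    finrank K (V ^ m : Submodule K M) ≤ m * D + 1 := by
  classical
  set F : IntermediateField K M := adjoin K {u, v} with hF
  have huF : u ∈ F := subset_adjoin _ _ (Set.mem_insert _ _)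
  have hvF : v ∈ F := subset_adjoin _ _ (Set.mem_insert_of_mem _ rfl)
  -- the generic combination
  let u' : F := ⟨u, huF⟩
  let v' : F := ⟨v, hvF⟩
  have hP' : MvPolynomial.aeval ![u', v'] P = 0 := by
    apply Subtype.val_injective
    have h2 := MvPolynomial.aeval_algebraMap_apply (A := F) (B := M) ![u', v'] P
    have h3 : (algebraMap F M) ∘ ![u', v'] = ![u, v] := by
      funext i
      fin_cases i <;> rfl
    rw [h3, huv] at h2
    exact h2.symm
  have hFtop : adjoin K {u', v'} = (⊤ : IntermediateField K F) := by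
    rw [eq_top_iff]
    intro x _
    have h2 : (adjoin K {u', v'}).map F.val = adjoin K {u, v} := by
      rw [adjoin_map, Set.image_pair]
      rfl
    have h3 : (x : M) ∈ (adjoin K {u', v'}).map F.val := by
      rw [h2]; exact x.2
    obtain ⟨y, hy, hyx⟩ := h3
    have : y = x := Subtype.val_injective hyx
    rwa [← this]
  have hv't : Transcendental K v' := by
    intro h
    apply hvt
    exact h.algebraMap (A := M)
  obtain ⟨θ, hθ0, hθ⟩ := degree_le u' v' P hP hP' hFtop
  obtain ⟨t, ht⟩ := Infinite.exists_notMem_finset (T ∪ θ.roots.toFinset.image (fun x => -x))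
  rw [Finset.mem_union, not_or] at ht
  have ht1 : θ.eval (-t) ≠ 0 := by
    intro h0
    apply ht.2
    rw [Finset.mem_image]
    refine ⟨-t, ?_, neg_neg t⟩
    rw [Multiset.mem_toFinset]
    exact (mem_roots hθ0).mpr h0
  obtain ⟨hfin, hdeg⟩ := hθ t ht1
  have hVI := hT t ht.1
  set x : F := u' + algebraMap K F t * v' with hxdef
  have hxt : Transcendental K x := by
    intro h
    apply hv't
    have h2 : Algebra.IsAlgebraic K K⟮x⟯ := isAlgebraic_adjoin_simple h.isIntegral
    have h3 : Algebra.IsAlgebraic K F := Algebra.IsAlgebraic.trans K K⟮x⟯ F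
    exact Algebra.IsAlgebraic.isAlgebraic v'
  have hxM : (x : M) = u + algebraMap K M t * v := rfl
  have hxMt : Transcendental K (x : M) := by
    intro h
    apply hxt
    exact (isAlgebraic_algebraMap_iff (A := M) (algebraMap F M).injective).mp h
  have hxV : (x : M) ∈ V := by
    rw [hxM, ← Algebra.smul_def]
    exact V.add_mem hu (V.smul_mem t hv)
  have hVO : ∀ w ∈ V, w ∈ OI K (x : M) := by
    intro w hw
    exact (mem_intSub.mp (hVI hw)).fin
  have hx0 : (x : M) ≠ 0 := by
    intro h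
    rw [h] at hxMt
    exact hxMt isAlgebraic_zero
  have hfdF : FiniteDimensional F M := by
    apply fd_of_integral V hV F
    intro w hw
    obtain ⟨p, hp, hpw⟩ := mem_OI.mp (hVO w hw)
    refine ⟨p.map ((aeval x : K[X] →ₐ[K] F) : K[X] →+* F), hp.map _, ?_⟩
    rw [eval₂_map]
    have e1 : (algebraMap F M).comp ((aeval x : K[X] →ₐ[K] F) : K[X] →+* F) = ev K (x : M) :=
      ev_comp x
    rw [e1]
    exact hpw
  -- stability
  have hstab : ∀ δ ∈ 𝒟, ∀ f ∈ F, δ f ∈ F := by
    intro δ hδ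
    refine stable F x hxMt δ (hDK δ hδ) ?_ ?_ ?_
    · exact der_OI V hV (x : M) hxV hVO δ (hDK δ hδ) (hDV δ hδ)
    · have h2 := (mem_intSub.mp (hVI (hDV δ hδ _ hxV))).inf hx0
      rw [pow_one] at h2
      exact h2
    · rintro ⟨y, hy⟩
      have huO : u' ∈ OI K x := OI_of_map (L := F) (M := M) (hVO u hu)
      have hvO : v' ∈ OI K x := OI_of_map (L := F) (M := M) (hVO v hv)
      obtain ⟨p, hp⟩ := hy u' huO
      obtain ⟨q, hq⟩ := hy v' hvO
      obtain ⟨hpd, hqd⟩ := param_degree u' v' y hFtop P hP hP' hv't p q hp hq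
      apply hpar
      refine ⟨(y : M), y.2, p, q, ?_, ?_, hpd.trans hPD, hqd.trans hPD⟩
      · have h3 := congrArg (fun z : F => (z : M)) hp
        rw [← show (u' : M) = u from rfl, h3]
        exact (aeval_algebraMap_apply M y p).symm
      · have h3 := congrArg (fun z : F => (z : M)) hq
        rw [← show (v' : M) = v from rfl, h3]
        exact (aeval_algebraMap_apply M y q).symm
  -- minimality
  have hVF : ∀ w ∈ V, w ∈ adjoin K {u, v} := by
    have h2 := hmin (V ⊓ Subalgebra.toSubmodule F.toSubalgebra) inf_le_left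
      ⟨h1, F.one_mem⟩ ⟨hu, huF⟩ ⟨hv, hvF⟩
      (fun δ hδ w hw => ⟨hDV δ hδ w hw.1, hstab δ hδ w hw.2⟩)
    intro w hw
    exact (h2 hw).2
  exact pow_le V u v hVF D t hVI huF hvF hxt hfin (hdeg.trans hPD) m

/-- the same inside a larger field -/
theorem rigid_dich' {K U : Type*} [Field K] [Field U] [Algebra K U] [IsAlgClosed K] [CharZero K]
    (V : Submodule K U) [FiniteDimensional K V]
    (h1 : (1 : U) ∈ V) (𝒟 : Set (Derivation ℤ U U))
    (hDK : ∀ D ∈ 𝒟, ∀ c : K, ∃ c' : K, D (algebraMap K U c) = algebraMap K U c')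
    (hDV : ∀ D ∈ 𝒟, ∀ w ∈ V, D w ∈ V) (u v : U) (hu : u ∈ V) (hv : v ∈ V)
    (hmin : ∀ N : Submodule K U, N ≤ V → (1 : U) ∈ N → u ∈ N → v ∈ N →
      (∀ D ∈ 𝒟, ∀ w ∈ N, D w ∈ N) → V ≤ N)
    (T : Finset K) (hT : ∀ t ∉ T, V ≤ intSub K (u + algebraMap K U t * v) 1)
    (D : ℕ) (P : MvPolynomial (Fin 2) K) (hP : P ≠ 0) (hPD : P.totalDegree ≤ D)
    (huv : MvPolynomial.aeval ![u, v] P = 0) (hvt : Transcendental K v)
    (hpar : ¬ Param K D u v) (m : ℕ) :
    finrank K (V ^ m : Submodule K U) ≤ m * D + 1 := by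
  classical
  set M : IntermediateField K U := adjoin K (V : Set U) with hM
  have hVM : ∀ w ∈ V, w ∈ M := fun w hw => subset_adjoin _ _ hw
  have hDM : ∀ δ ∈ 𝒟, ∀ f ∈ M, δ f ∈ M := by
    intro δ hδ f hf
    induction hf using IntermediateField.adjoin_induction with
    | mem y hy => exact hVM _ (hDV δ hδ y hy)
    | algebraMap c =>
      obtain ⟨c', hc'⟩ := hDK δ hδ c
      rw [hc']
      exact M.algebraMap_mem c'
    | add a b _ _ ha hb => rw [map_add]; exact M.add_mem ha hb
    | inv a ha' ha =>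
      rw [δ.leibniz_inv, smul_eq_mul]
      exact M.mul_mem (M.neg_mem (pow_mem (M.inv_mem ha') 2)) ha
    | mul a b ha' hb' ha hb =>
      rw [δ.leibniz, smul_eq_mul, smul_eq_mul]
      exact M.add_mem (M.mul_mem ha' hb) (M.mul_mem hb' ha)
  -- restriction of derivations
  let res : ∀ δ ∈ 𝒟, Derivation ℤ M M := fun δ hδ =>
    Derivation.mk' ({ toFun := fun f => ⟨δ f, hDM δ hδ f f.2⟩
                      map_add' := fun a b => Subtype.ext (map_add δ (a : U) b)
                      map_smul' := fun n a => Subtype.ext (map_zsmul δ n (a : U)) } : M →ₗ[ℤ] M)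
      (fun a b => Subtype.ext (δ.leibniz (a : U) b))
  have hres : ∀ δ (hδ : δ ∈ 𝒟) (f : M), ((res δ hδ f : M) : U) = δ f := fun δ hδ f => rfl
  set V' : Submodule K M := V.comap M.val.toLinearMap with hV'
  have hmapV : V'.map M.val.toLinearMap = V := by
    rw [hV', Submodule.map_comap_eq, inf_eq_right]
    intro x hx
    exact ⟨⟨x, hVM x hx⟩, rfl⟩
  have hinj : Function.Injective M.val.toLinearMap := Subtype.val_injective
  have hmap : ∀ W : Submodule K M, finrank K (W.map M.val.toLinearMap) = finrank K W :=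
    fun W => (Submodule.equivMapOfInjective M.val.toLinearMap hinj W).finrank_eq.symm
  have hpow : ∀ k, (V' ^ k).map M.val.toLinearMap = V ^ k := by
    intro k
    rw [← hmapV]
    exact Submodule.map_pow V' M.val k
  have hV'f : FiniteDimensional K V' := by
    have e := Submodule.equivMapOfInjective M.val.toLinearMap hinj V'
    have : FiniteDimensional K (V'.map M.val.toLinearMap) := by rw [hmapV]; infer_instance
    exact LinearEquiv.finiteDimensional e.symm
  have htop : adjoin K (V' : Set M) = ⊤ := by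
    rw [eq_top_iff]
    intro x _
    have h2 : (adjoin K (V' : Set M)).map M.val = adjoin K (V : Set U) := by
      rw [adjoin_map]
      congr 1
      rw [← hmapV]
      rfl
    have h3 : (x : U) ∈ (adjoin K (V' : Set M)).map M.val := by
      rw [h2]; exact x.2
    obtain ⟨y, hy, hyx⟩ := h3
    have : y = x := Subtype.val_injective hyx
    rwa [← this]
  have key := rigid_dich V' (show (1 : U) ∈ V from h1) htop
    {δ' | ∃ δ, ∃ hδ : δ ∈ 𝒟, δ' = res δ hδ} (by
      rintro _ ⟨δ, hδ, rfl⟩ c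
      obtain ⟨c', hc'⟩ := hDK δ hδ c
      exact ⟨c', Subtype.ext hc'⟩) (by
      rintro _ ⟨δ, hδ, rfl⟩ w hw
      exact hDV δ hδ w hw) ⟨u, hVM u hu⟩ ⟨v, hVM v hv⟩ hu hv (by
      intro N hNV hN1 hNu hNv hND
      have h2 := hmin (N.map M.val.toLinearMap) (by
        rw [← hmapV]
        exact Submodule.map_mono hNV) ⟨1, hN1, rfl⟩ ⟨_, hNu, rfl⟩ ⟨_, hNv, rfl⟩ (by
        rintro δ hδ _ ⟨w, hw, rfl⟩
        exact ⟨res δ hδ w, hND _ ⟨δ, hδ, rfl⟩ w hw, rfl⟩)
      rw [← hmapV] at h2
      intro w hw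
      obtain ⟨w', hw', hww⟩ := h2 ⟨w, hw, rfl⟩
      have : w' = w := Subtype.val_injective hww
      rwa [← this]) T (by
      intro t ht x hx
      rw [mem_intSub]
      apply IntAt.of_val
      exact hT t ht hx) D P hP hPD (by
      apply Subtype.val_injective
      have h2 := MvPolynomial.aeval_algebraMap_apply (A := M) (B := U)
        ![(⟨u, hVM u hu⟩ : M), ⟨v, hVM v hv⟩] P
      have h3 : (algebraMap M U) ∘ ![(⟨u, hVM u hu⟩ : M), ⟨v, hVM v hv⟩] = ![u, v] := by
        funext i
        fin_cases i <;> rfl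
      rw [h3, huv] at h2
      exact h2.symm) (by
      intro h
      apply hvt
      exact h.algebraMap (A := U)) (by
      rintro ⟨y, hy, p, q, hp, hq, hpd, hqd⟩
      apply hpar
      refine ⟨(y : U), ?_, p, q, ?_, ?_, hpd, hqd⟩
      · have h2 : (adjoin K {(⟨u, hVM u hu⟩ : M), ⟨v, hVM v hv⟩}).map M.val = adjoin K {u, v} := by
          rw [adjoin_map, Set.image_pair]
          rfl
        rw [← h2]
        exact ⟨y, hy, rfl⟩
      · have h3 := congrArg (fun z : M => (z : U)) hp
        exact h3.trans (aeval_algebraMap_apply U y p).symm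
      · have h3 := congrArg (fun z : M => (z : U)) hq
        exact h3.trans (aeval_algebraMap_apply U y q).symm) m
  rw [← hpow, hmap]
  exact key

end Run7.h577
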