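import Pool.Agent.Run7.h577.T1

/-!
# Local computations in Dedekind domains, and the two local lemmas on traces
-/

set_option autoImplicit false

namespace Run7.h577

open Module

section dedekind

variable {C : Type*} [CommRing C] [IsDedekindDomain C] (P : Ideal C) [hP : P.IsPrime]

/-- a local parameter -/
theorem exists_param (hP0 : P ≠ ⊥) :
    ∃ τ ∈ P, ∃ s ∉ P, ∀ b ∈ P, ∃ c, s * b = τ * c := by
  obtain ⟨τ, hτ, hτ2⟩ := Ideal.exists_mem_pow_notMem_pow_succ P hP0 hP.ne_top 1
  rw [pow_one] at hτ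
  obtain ⟨𝔠, h𝔠⟩ : P ∣ Ideal.span {τ} := by
    rw [Ideal.dvd_iff_le, Ideal.span_singleton_le_iff_mem]
    exact hτ
  have h1 : ¬ 𝔠 ≤ P := by
    intro hle
    apply hτ2
    have h2 : Ideal.span {τ} ≤ P * P := by
      rw [h𝔠]
      exact Ideal.mul_mono le_rfl hle
    rw [pow_succ, pow_one]
    exact h2 (Ideal.mem_span_singleton_self τ)
  obtain ⟨s, hs, hsP⟩ := SetLike.not_le_iff_exists.mp h1
  refine ⟨τ, hτ, s, hsP, ?_⟩
  intro b hb
  have h2 : b * s ∈ Ideal.span {τ} := by
    rw [h𝔠]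
    exact Ideal.mul_mem_mul hb hs
  obtain ⟨c, hc⟩ := Ideal.mem_span_singleton.mp h2
  exact ⟨c, by rw [mul_comm s b, hc]⟩

/-- local orders -/
theorem exists_order (τ s : C) (hτ : τ ∈ P) (hs : s ∉ P) (h : ∀ b ∈ P, ∃ c, s * b = τ * c)
    (π : C) (hπ : π ≠ 0) : ∃ e : ℕ, ∃ t ∉ P, ∃ w ∉ P, t * π = w * τ ^ e := by
  by_contra hcon
  push Not at hcon
  have h1 : ∀ e : ℕ, ∃ c : C, s ^ e * π = τ ^ e * c := by
    intro e
    induction e with
    | zero => exact ⟨π, by rw [pow_zero, pow_zero]⟩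
    | succ e ih =>
      obtain ⟨c, hc⟩ := ih
      have hcP : c ∈ P := by
        by_contra hcP
        exact hcon e (s ^ e) (fun h => hs (hP.mem_of_pow_mem e h)) c hcP (by rw [hc, mul_comm])
      obtain ⟨d, hd⟩ := h c hcP
      refine ⟨d, ?_⟩
      calc s ^ (e + 1) * π = s * (s ^ e * π) := by ring
        _ = τ ^ e * (s * c) := by rw [hc]; ring
        _ = τ ^ (e + 1) * d := by rw [hd]; ring
  have h2 : ∀ e : ℕ, π ∈ P ^ e := by
    intro e
    obtain ⟨c, hc⟩ := h1 e
    have h3 : s ^ e * π ∈ P ^ e := by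
      rw [hc]
      exact Ideal.mul_mem_right _ _ (Ideal.pow_mem_pow hτ e)
    rcases Ideal.IsPrime.mul_mem_pow P h3 with h4 | h4
    · exact absurd (hP.mem_of_pow_mem e h4) hs
    · exact h4
  have h3 : π ∈ (⨅ i : ℕ, P ^ i : Ideal C) := by
    rw [Ideal.mem_iInf]
    exact h2
  rw [Ideal.iInf_pow_eq_bot_of_isDomain P hP.ne_top] at h3
  exact hπ h3

variable {L : Type*} [Field L] [Algebra C L] [IsFractionRing C L]

/-- the local ring is a valuation ring -/
theorem dichotomy (hP0 : P ≠ ⊥) (y : L) :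
    (∃ s ∉ P, ∃ f : C, algebraMap C L s * y = algebraMap C L f) ∨
      (∃ b ∈ P, ∃ s ∉ P, y * algebraMap C L b = algebraMap C L s) := by
  obtain ⟨τ, hτ, s, hs, hsτ⟩ := exists_param P hP0
  obtain ⟨p, q, hq, rfl⟩ := IsFractionRing.div_surjective (A := C) y
  have hq0 : q ≠ 0 := nonZeroDivisors.ne_zero hq
  by_cases hp0 : p = 0
  · left
    refine ⟨1, fun h => hP.ne_top ((Ideal.eq_top_iff_one P).mpr h), 0, ?_⟩
    rw [hp0, map_zero, zero_div, mul_zero]
  obtain ⟨m, s1, hs1, w1, hw1, e1⟩ := exists_order P τ s hτ hs hsτ p hp0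
  obtain ⟨n, s2, hs2, w2, hw2, e2⟩ := exists_order P τ s hτ hs hsτ q hq0
  have hinj : Function.Injective (algebraMap C L) := IsFractionRing.injective C L
  have hne : ∀ x : C, x ≠ 0 → algebraMap C L x ≠ 0 := fun x hx => by
    rwa [Ne, map_eq_zero_iff _ hinj]
  have hs10 : s1 ≠ 0 := fun h => hs1 (h ▸ P.zero_mem)
  have hs20 : s2 ≠ 0 := fun h => hs2 (h ▸ P.zero_mem)
  have hw20 : w2 ≠ 0 := fun h => hw2 (h ▸ P.zero_mem)
  have hmul : ∀ {a b : C}, a ∉ P → b ∉ P → a * b ∉ P := fun ha hb h => by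
    rcases hP.mem_or_mem h with h | h
    · exact ha h
    · exact hb h
  have hτ0 : τ ≠ 0 := by
    rintro rfl
    apply hP0
    rw [eq_bot_iff]
    intro b hb
    obtain ⟨c, hc⟩ := hsτ b hb
    rw [zero_mul] at hc
    rcases mul_eq_zero.mp hc with h | h
    · exact absurd (h ▸ P.zero_mem) hs
    · exact h
  -- cross relation
  have key : s1 * w2 * τ ^ n * p = s2 * w1 * τ ^ m * q := by
    calc s1 * w2 * τ ^ n * p = (w2 * τ ^ n) * (s1 * p) := by ring
      _ = (s2 * q) * (w1 * τ ^ m) := by rw [← e2, e1]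
      _ = s2 * w1 * τ ^ m * q := by ring
  rcases le_or_gt n m with hnm | hnm
  · left
    obtain ⟨k, rfl⟩ := Nat.exists_eq_add_of_le hnm
    refine ⟨s1 * w2, hmul hs1 hw2, s2 * w1 * τ ^ k, ?_⟩
    have h1 : s1 * w2 * p = s2 * w1 * τ ^ k * q := by
      apply mul_left_cancel₀ (pow_ne_zero n hτ0)
      calc τ ^ n * (s1 * w2 * p) = s1 * w2 * τ ^ n * p := by ring
        _ = s2 * w1 * τ ^ (n + k) * q := key
        _ = τ ^ n * (s2 * w1 * τ ^ k * q) := by ring
    rw [← mul_div_assoc, ← map_mul, div_eq_iff (hne q hq0), ← map_mul, h1]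
  · right
    obtain ⟨k, rfl⟩ := Nat.exists_eq_add_of_lt hnm
    refine ⟨s1 * w2 * τ ^ (k + 1), Ideal.mul_mem_left _ _ ?_, s2 * w1, hmul hs2 hw1, ?_⟩
    · rw [pow_succ]
      exact Ideal.mul_mem_left _ _ hτ
    · have h1 : p * (s1 * w2 * τ ^ (k + 1)) = s2 * w1 * q := by
        apply mul_left_cancel₀ (pow_ne_zero m hτ0)
        calc τ ^ m * (p * (s1 * w2 * τ ^ (k + 1))) = s1 * w2 * τ ^ (m + k + 1) * p := by ring
          _ = s2 * w1 * τ ^ m * q := key
          _ = τ ^ m * (s2 * w1 * q) := by ring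
      rw [div_mul_eq_mul_div, ← map_mul, div_eq_iff (hne q hq0), ← map_mul, h1]

/-- elements of `P` are, up to a factor outside of `P`, nilpotent modulo any nonzero element of
`P` -/
theorem exists_nilp (hP0 : P ≠ ⊥) (π : C) (hπ0 : π ≠ 0) (hπ : π ∈ P) (b : C) (hb : b ∈ P) :
    ∃ α ∉ P, ∃ N : ℕ, (α * b) ^ N ∈ Ideal.span {π} := by
  obtain ⟨τ, hτ, s, hs, hsτ⟩ := exists_param P hP0
  obtain ⟨e, t, ht, w, hw, h1⟩ := exists_order P τ s hτ hs hsτ π hπ0
  have he : e ≠ 0 := by
    rintro rfl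
    rw [pow_zero, mul_one] at h1
    exact hw (h1 ▸ Ideal.mul_mem_left _ _ hπ)
  obtain ⟨k, rfl⟩ := Nat.exists_eq_succ_of_ne_zero he
  obtain ⟨c, hc⟩ := hsτ b hb
  refine ⟨w * s, fun h => (hP.mem_or_mem h).elim hw hs, k + 1, ?_⟩
  rw [Ideal.mem_span_singleton]
  refine ⟨w ^ k * c ^ (k + 1) * t, ?_⟩
  calc (w * s * b) ^ (k + 1) = w ^ (k + 1) * (s * b) ^ (k + 1) := by ring
    _ = w ^ k * c ^ (k + 1) * (w * τ ^ (k + 1)) := by rw [hc]; ring
    _ = π * (w ^ k * c ^ (k + 1) * t) := by rw [← h1]; ring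

end dedekind

section tame

variable {R E L C : Type*} [CommRing R] [IsDomain R] [IsPrincipalIdealRing R] [Algebra ℚ R]
  [Field E] [Field L] [Algebra R E] [IsFractionRing R E] [Algebra E L] [Algebra R L]
  [IsScalarTower R E L] [FiniteDimensional E L] [Algebra.IsSeparable E L]
  [CommRing C] [IsDedekindDomain C] [Algebra R C] [Algebra C L] [IsScalarTower R C L]
  [IsIntegralClosure C R L]


variable (E) in
/-- **Local lemma.** -/
theorem local_trace [IsFractionRing C L] (π : R) (hπ : Irreducible π) (P : Ideal C)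
    [hP : P.IsPrime] (hπP : algebraMap R C π ∈ P) (hP0 : P ≠ ⊥) (y : L)
    (hy : ∀ g : C, ∃ r : R, algebraMap R E (π * r) = Algebra.trace E L (y * algebraMap C L g)) :
    ∃ s ∉ P, ∃ p ∈ P, algebraMap C L s * y = algebraMap C L p := by
  rcases dichotomy P hP0 y with ⟨s, hs, f, hf⟩ | ⟨b, hb, s, hs, hbs⟩
  · by_cases hfP : f ∈ P
    · exact ⟨s, hs, f, hfP, hf⟩
    · obtain ⟨g, hg⟩ := exists_trace_not_mem (E := E) (L := L) π hπ P hπP f hfP
      obtain ⟨r, hr⟩ := hy (s * g)
      exfalso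
      apply hg r
      have e1 : y * algebraMap C L (s * g) = algebraMap C L (f * g) := by
        rw [map_mul, map_mul, ← hf]; ring
      rw [hr, e1]
  · obtain ⟨g, hg⟩ := exists_trace_not_mem (E := E) (L := L) π hπ P hπP s hs
    obtain ⟨r, hr⟩ := hy (b * g)
    exfalso
    apply hg r
    have e1 : y * algebraMap C L (b * g) = algebraMap C L (s * g) := by
      rw [map_mul, map_mul, ← hbs]; ring
    rw [hr, e1]

variable (E) in
/-- **Finite places.** -/
theorem local_finite [IsFractionRing C L] {M : Type*} [Field M] [Algebra L M] (O₁ : Subring M)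
    (η : Derivation ℤ L M) (hC : ∀ f : C, algebraMap L M (algebraMap C L f) ∈ O₁)
    (hη : ∀ f : C, η (algebraMap C L f) ∈ O₁)
    (π : R) (hπ : Irreducible π) (P : Ideal C) [hP : P.IsPrime] (hπP : algebraMap R C π ∈ P)
    (hP0 : P ≠ ⊥) (hπ0 : algebraMap R C π ≠ 0) (h : L)
    (hh : ∀ g : C, ∃ r : R, algebraMap R E r = Algebra.trace E L (h * algebraMap C L g)) :
    ∃ s ∉ P, algebraMap L M (algebraMap C L s * h) * η (algebraMap C L (algebraMap R C π)) ∈
      O₁ := by
  set πC : C := algebraMap R C π with hπC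
  set π' : L := algebraMap C L πC with hπ'
  have hπE : π' = algebraMap E L (algebraMap R E π) := by
    rw [hπ', hπC, ← IsScalarTower.algebraMap_apply, ← IsScalarTower.algebraMap_apply]
  obtain ⟨s1, hs1, p, hp, h1⟩ := local_trace E π hπ P hπP hP0 (π' * h) (by
    intro g
    obtain ⟨r, hr⟩ := hh g
    refine ⟨r, ?_⟩
    have e1 : Algebra.trace E L (π' * h * algebraMap C L g) =
        algebraMap R E π * Algebra.trace E L (h * algebraMap C L g) := by
      rw [mul_assoc, hπE, ← Algebra.smul_def (algebraMap R E π), map_smul, smul_eq_mul]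
    rw [map_mul, hr, e1])
  obtain ⟨τ, hτ, s2, hs2, hsτ⟩ := exists_param P hP0
  obtain ⟨e, s3, hs3, w, hw, h3⟩ := exists_order P τ s2 hτ hs2 hsτ πC hπ0
  have he : e ≠ 0 := by
    rintro rfl
    rw [pow_zero, mul_one] at h3
    exact hw (h3 ▸ Ideal.mul_mem_left _ _ hπP)
  obtain ⟨k, rfl⟩ := Nat.exists_eq_succ_of_ne_zero he
  obtain ⟨b, hb⟩ := hsτ p hp
  have hmul : ∀ {a b : C}, a ∉ P → b ∉ P → a * b ∉ P := fun ha hb h => by
    rcases hP.mem_or_mem h with h | h
    · exact ha h
    · exact hb h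
  have hinj : Function.Injective (algebraMap C L) := IsFractionRing.injective C L
  have hτ0 : algebraMap C L τ ≠ 0 := by
    rw [Ne, map_eq_zero_iff _ hinj]
    rintro rfl
    rw [zero_pow (Nat.succ_ne_zero k), mul_zero] at h3
    rcases mul_eq_zero.mp h3 with h | h
    · exact hs3 (h ▸ P.zero_mem)
    · exact hπ0 h
  -- images in `L`
  have g1 : algebraMap C L s1 * (π' * h) = algebraMap C L p := h1
  have g3 : algebraMap C L s3 * π' = algebraMap C L w * algebraMap C L τ ^ (k + 1) := by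
    rw [hπ', ← map_mul, h3, map_mul, map_pow]
  have gb : algebraMap C L s2 * algebraMap C L p = algebraMap C L τ * algebraMap C L b := by
    rw [← map_mul, hb, map_mul]
  -- derivative
  have hder : algebraMap L M (algebraMap C L s3) * η π' +
      algebraMap L M π' * η (algebraMap C L s3) =
      algebraMap L M (algebraMap C L w) * ((k + 1 : ℕ) * (algebraMap L M (algebraMap C L τ) ^ k *
        η (algebraMap C L τ))) +
      algebraMap L M (algebraMap C L τ ^ (k + 1)) * η (algebraMap C L w) := by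
    have := congrArg η g3
    rw [η.leibniz, η.leibniz, η.leibniz_pow] at this
    simp only [nsmul_eq_mul] at this
    simp only [Algebra.smul_def, map_pow, Nat.add_sub_cancel] at this ⊢
    rw [this]
  refine ⟨s1 * s2 * w * s3, hmul (hmul (hmul hs1 hs2) hw) hs3, ?_⟩
  -- the three terms
  have t2 : algebraMap C L (s1 * s2 * w) * h * π' = algebraMap C L (s2 * w * p) := by
    simp only [map_mul]
    linear_combination (algebraMap C L s2 * algebraMap C L w) * g1
  have t3 : algebraMap C L (s1 * s2 * w) * h * algebraMap C L τ ^ (k + 1) =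
      algebraMap C L (s2 * s3 * p) := by
    simp only [map_mul]
    linear_combination (algebraMap C L s2 * algebraMap C L s3) * g1 -
      (algebraMap C L s1 * algebraMap C L s2 * h) * g3
  have t4 : algebraMap C L (s1 * s2 * w) * h * algebraMap C L τ ^ k =
      algebraMap C L (s3 * b) := by
    apply mul_right_cancel₀ hτ0
    have : algebraMap C L (s1 * s2 * w) * h * algebraMap C L τ ^ k * algebraMap C L τ =
        algebraMap C L (s1 * s2 * w) * h * algebraMap C L τ ^ (k + 1) := by ring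
    rw [this, t3]
    simp only [map_mul]
    linear_combination (algebraMap C L s3) * gb
  have final : algebraMap L M (algebraMap C L (s1 * s2 * w * s3) * h) * η π' =
      algebraMap L M (algebraMap C L w) * ((k + 1 : ℕ) *
        (algebraMap L M (algebraMap C L (s3 * b)) * η (algebraMap C L τ))) +
      algebraMap L M (algebraMap C L (s2 * s3 * p)) * η (algebraMap C L w) -
      algebraMap L M (algebraMap C L (s2 * w * p)) * η (algebraMap C L s3) := by
    rw [← t2, ← t3, ← t4]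
    simp only [map_mul, map_pow] at hder ⊢
    linear_combination (algebraMap L M (algebraMap C L s1) * algebraMap L M (algebraMap C L s2) *
      algebraMap L M (algebraMap C L w) * algebraMap L M h) * hder
  rw [final]
  refine O₁.sub_mem (O₁.add_mem (O₁.mul_mem (hC _) (O₁.mul_mem ?_ (O₁.mul_mem (hC _) (hη _))))
    (O₁.mul_mem (hC _) (hη _))) (O₁.mul_mem (hC _) (hη _))
  exact natCast_mem O₁ (k + 1)

variable (E) in
/-- **Infinite places.** -/
theorem local_infinite [IsFractionRing C L] (π : R) (hπ : Irreducible π) (P : Ideal C)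
    [hP : P.IsPrime] (hπP : algebraMap R C π ∈ P) (hP0 : P ≠ ⊥) (hπ0 : algebraMap R C π ≠ 0)
    (y : L)
    (hy : ∀ j : C, (∃ N : ℕ, j ^ N ∈ Ideal.span {algebraMap R C π}) →
      ∃ r : R, algebraMap R E (π * r) = Algebra.trace E L (y * algebraMap C L j)) :
    ∃ s ∉ P, ∃ f : C, algebraMap C L s * y = algebraMap C L f := by
  rcases dichotomy P hP0 y with h | ⟨b, hb, s, hs, hbs⟩
  · exact h
  · exfalso
    obtain ⟨α, hα, N, hN⟩ := exists_nilp P hP0 _ hπ0 hπP b hb
    obtain ⟨t, ht, p, hp, htp⟩ := local_trace E π hπ P hπP hP0 (y * algebraMap C L (α * b)) (by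
      intro g
      rw [mul_assoc, ← map_mul]
      apply hy
      refine ⟨N, ?_⟩
      rw [mul_pow]
      exact Ideal.mul_mem_right _ _ hN)
    have h1 : t * (α * s) = p := by
      apply IsFractionRing.injective C L
      rw [← htp, map_mul, map_mul, map_mul, ← hbs]
      ring
    have h2 : t * (α * s) ∈ P := h1 ▸ hp
    rcases hP.mem_or_mem h2 with h3 | h3
    · exact ht h3
    · rcases hP.mem_or_mem h3 with h3 | h3
      · exact hα h3
      · exact hs h3

end tame

end Run7.h577
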