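import Pool.Agent.Run7.h577.T16
import Pool.Agent.Run7.h577.T20

/-!
# Transport of parametrisations along a specialisation; the covering theorem
-/

set_option autoImplicit false

namespace Run7.h577

open Module Polynomial IntermediateField Pool.Agent.W256 Pool.Agent.N770

section transport

variable {k M L : Type*} [Field k] [Field M] [Algebra k M] [Field L] [Algebra k L]

/-- a specialisation which is transcendental on `z` is injective on elements algebraic over `z` -/
theorem inj_of_trans (A : Subalgebra k M) (ψ : A →ₐ[k] L) (z w : A)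
    (hz : Transcendental k (ψ z)) (hw : IsAlgebraic k⟮(z : M)⟯ (w : M)) (hw0 : ψ w = 0) :
    w = 0 := by
  by_contra hne
  have hzt : Transcendental k (z : M) := by
    intro h
    apply hz
    have h1 : IsAlgebraic k z :=
      (isAlgebraic_algebraMap_iff (A := M) (Subtype.val_injective)).mp h
    exact IsAlgebraic.algHom ψ h1
  set E := k⟮(z : M)⟯ with hE
  set g : E := AdjoinSimple.gen k (z : M) with hg
  have hgx : (g : M) = z := AdjoinSimple.algebraMap_gen k (z : M)
  let aE : Algebra k[X] E := (ev k g).toAlgebra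
  let aL : Algebra k[X] M := (ev k (g : M)).toAlgebra
  have htow : IsScalarTower k[X] E M :=
    IsScalarTower.of_algebraMap_eq fun p => aeval_algebraMap_apply M g p
  have hfrac : IsFractionRing k[X] E := isFrac E g (by rw [hgx]) (by rw [hgx]; exact hzt)
  have h1 : IsAlgebraic k[X] (w : M) := (IsFractionRing.isAlgebraic_iff k[X] E M).mpr hw
  have hwM : (w : M) ≠ 0 := fun h => hne (Subtype.ext h)
  obtain ⟨q, hq0, hq⟩ := h1.exists_nonzero_coeff_and_aeval_eq_zero
    (mem_nonZeroDivisors_of_ne_zero hwM)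
  let f : k[X] →+* A := ((aeval z : k[X] →ₐ[k] A) : k[X] →+* A)
  have hf : (A.val : A →+* M).comp f = ev k (g : M) := by
    apply RingHom.ext
    intro p
    rw [hgx]
    exact (aeval_algebraMap_apply M z p).symm
  have h2 : eval₂ f w q = 0 := by
    have h2' : (A.val : A →+* M) (eval₂ f w q) = 0 := by
      rw [hom_eval₂, hf]
      exact hq
    exact Subtype.ext h2'
  have h3 := congrArg (ψ : A →+* L) h2
  rw [hom_eval₂, map_zero] at h3
  have h4 : (ψ : A →+* L) w = 0 := hw0
  rw [h4, eval₂_at_zero] at h3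
  apply hq0
  apply (transcendental_iff_injective.1 hz)
  rw [map_zero, ← h3]
  change aeval (ψ z) (q.coeff 0) = ψ (aeval z (q.coeff 0))
  rw [← aeval_algHom_apply]

theorem aeval_swap (P : MvPolynomial (Fin 2) k) (u v : M) :
    MvPolynomial.aeval ![v, u] (MvPolynomial.rename (Equiv.swap (0 : Fin 2) 1) P) =
      MvPolynomial.aeval ![u, v] P := by
  rw [MvPolynomial.aeval_rename]
  congr 1
  apply MvPolynomial.algHom_ext
  intro i
  fin_cases i
  · simp
  · simp

open algebraAdjoinAdjoin in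
/-- transport, when one element stays transcendental -/
theorem param_up_aux (A : Subalgebra k M) (ψ : A →ₐ[k] L) (u v z : A)
    (hz : Transcendental k (ψ z)) (hu : IsAlgebraic k⟮(z : M)⟯ (u : M))
    (hv : IsAlgebraic k⟮(z : M)⟯ (v : M)) (D : ℕ) (h : Param k D (ψ u) (ψ v)) :
    Param k D (u : M) (v : M) := by
  classical
  obtain ⟨y, hy, p, q, hp, hq, hpd, hqd⟩ := h
  set B : Subalgebra k M := Algebra.adjoin k {(u : M), (v : M)} with hB
  have hBA : B ≤ A := by
    rw [hB]
    apply Algebra.adjoin_le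
    rintro x (rfl | hx)
    · exact u.2
    · rw [Set.mem_singleton_iff] at hx
      rw [hx]; exact v.2
  let ψB : B →ₐ[k] L := ψ.comp (Subalgebra.inclusion hBA)
  have halg : ∀ w ∈ B, IsAlgebraic k⟮(z : M)⟯ w := by
    intro w hw
    have h1 : B ≤ (integralClosure k⟮(z : M)⟯ M).restrictScalars k := by
      rw [hB]
      apply Algebra.adjoin_le
      rintro x (rfl | hx)
      · exact hu.isIntegral
      · rw [Set.mem_singleton_iff] at hx
        rw [hx]; exact hv.isIntegral
    have h2 : IsIntegral k⟮(z : M)⟯ w := h1 hw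
    exact h2.isAlgebraic
  have hinj : Function.Injective ψB := by
    rw [injective_iff_map_eq_zero]
    intro w hw
    have h1 := inj_of_trans A ψ z (Subalgebra.inclusion hBA w) hz (halg _ w.2) hw
    apply Subtype.ext
    have h2 : ((Subalgebra.inclusion hBA w : A) : M) = ((0 : A) : M) := by rw [h1]
    exact h2
  let Φ : adjoin k {(u : M), (v : M)} →ₐ[k] L := IsFractionRing.liftAlgHom (g := ψB) hinj
  have hΦ : ∀ b : B, Φ (algebraMap B (adjoin k {(u : M), (v : M)}) b) = ψB b := fun b =>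
    IsFractionRing.lift_algebraMap hinj b
  have huB : (u : M) ∈ B := Algebra.subset_adjoin (Set.mem_insert _ _)
  have hvB : (v : M) ∈ B := Algebra.subset_adjoin (Set.mem_insert_of_mem _ rfl)
  set uF : adjoin k {(u : M), (v : M)} := algebraMap B _ ⟨u, huB⟩ with huF
  set vF : adjoin k {(u : M), (v : M)} := algebraMap B _ ⟨v, hvB⟩ with hvF
  have hΦu : Φ uF = ψ u := hΦ ⟨u, huB⟩
  have hΦv : Φ vF = ψ v := hΦ ⟨v, hvB⟩
  have hle : adjoin k {ψ u, ψ v} ≤ Φ.fieldRange := by
    rw [adjoin_le_iff]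
    rintro x (rfl | hx)
    · exact ⟨uF, hΦu⟩
    · rw [Set.mem_singleton_iff] at hx
      rw [hx]
      exact ⟨vF, hΦv⟩
  obtain ⟨y', hy'⟩ := hle hy
  have hy'' : Φ y' = y := hy'
  have hΦi : Function.Injective Φ := Φ.injective
  refine ⟨(y' : M), y'.2, p, q, ?_, ?_, hpd, hqd⟩
  · have h1 : uF = aeval y' p := by
      apply hΦi
      rw [hΦu, hp, ← hy'', aeval_algHom_apply]
    have h2 := congrArg (fun x : adjoin k {(u : M), (v : M)} => (x : M)) h1
    exact h2.trans (aeval_algebraMap_apply M y' p).symm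
  · have h1 : vF = aeval y' q := by
      apply hΦi
      rw [hΦv, hq, ← hy'', aeval_algHom_apply]
    have h2 := congrArg (fun x : adjoin k {(u : M), (v : M)} => (x : M)) h1
    exact h2.trans (aeval_algebraMap_apply M y' q).symm

/-- transport of parametrisations -/
theorem param_up [IsAlgClosed k] (A : Subalgebra k M) (ψ : A →ₐ[k] L) (u v : A)
    (P : MvPolynomial (Fin 2) k) (hP0 : P ≠ 0)
    (hP : MvPolynomial.aeval ![(u : M), (v : M)] P = 0)
    (hu : ∀ c : k, ψ u = algebraMap k L c → (u : M) = algebraMap k M c)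
    (hv : ∀ c : k, ψ v = algebraMap k L c → (v : M) = algebraMap k M c) (D : ℕ)
    (h : Param k D (ψ u) (ψ v)) : Param k D (u : M) (v : M) := by
  by_cases hvt : Transcendental k (ψ v)
  · refine param_up_aux A ψ u v v hvt ?_ ?_ D h
    · refine algebraic_of_dep ?_ P hP0 hP
      intro h1
      apply hvt
      have h2 : IsAlgebraic k v :=
        (isAlgebraic_algebraMap_iff (A := M) (Subtype.val_injective)).mp h1
      exact IsAlgebraic.algHom ψ h2
    · exact isAlgebraic_algebraMap (⟨v, mem_adjoin_simple_self k (v : M)⟩ : k⟮(v : M)⟯)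
  · rw [Transcendental, not_not] at hvt
    obtain ⟨c, hc⟩ := exists_const _ hvt
    have hvc := hv c hc
    by_cases hut : Transcendental k (ψ u)
    · refine param_up_aux A ψ u v u hut ?_ ?_ D h
      · exact isAlgebraic_algebraMap (⟨u, mem_adjoin_simple_self k (u : M)⟩ : k⟮(u : M)⟯)
      · rw [hvc]
        exact isAlgebraic_algebraMap (algebraMap k k⟮(u : M)⟯ c)
    · rw [Transcendental, not_not] at hut
      obtain ⟨c', hc'⟩ := exists_const _ hut
      have huc := hu c' hc'
      refine ⟨0, zero_mem _, C c', C c, ?_, ?_, ?_, ?_⟩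
      · rw [aeval_C, huc]
      · rw [aeval_C, hvc]
      · rw [natDegree_C]; exact Nat.zero_le D
      · rw [natDegree_C]; exact Nat.zero_le D

end transport

/-- **The covering theorem**, for pairs which are not polynomials in one number. -/
theorem cover_gen2 {k M : Type} [Field k] [IsAlgClosed k] [CharZero k] [Field M] [Algebra k M]
    (V : Submodule k M) [FiniteDimensional k V] (h1 : (1 : M) ∈ V) (D N : ℕ) (hN1 : 1 ≤ N) :
    ∃ 𝒲 : Set (Submodule k M), 𝒲.Finite ∧
      (∀ W ∈ 𝒲, W ≤ V ∧ 1 ∈ W ∧ ∀ m ≤ N, finrank k (W ^ m : Submodule k M) ≤ m * D + 1) ∧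
      ∀ u ∈ V, ∀ v ∈ V, (∃ P : MvPolynomial (Fin 2) k, P ≠ 0 ∧ P.totalDegree ≤ D ∧
        MvPolynomial.aeval ![u, v] P = 0) → ¬ Param k D u v → ∃ W ∈ 𝒲, u ∈ W ∧ v ∈ W := by
  classical
  set A : Subalgebra k M := Algebra.adjoin k (V : Set M) with hA
  have hAfg : A.FG := by
    obtain ⟨S, hS⟩ := (IsNoetherian.noetherian (⊤ : Submodule k V)).map V.subtype
    rw [Submodule.map_subtype_top] at hS
    refine ⟨S, ?_⟩
    rw [hA]
    conv_rhs => rw [← hS]
    rw [Algebra.adjoin_span]
  have hft : Algebra.FiniteType k A := A.fg_iff_finiteType.mp hAfg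
  have hVA : ∀ x ∈ V, x ∈ A := fun x hx => Algebra.subset_adjoin hx
  have hinjA : Function.Injective A.val.toLinearMap := Subtype.val_injective
  have hmapA : ∀ W : Submodule k A, finrank k (W.map A.val.toLinearMap) = finrank k W :=
    fun W => (Submodule.equivMapOfInjective A.val.toLinearMap hinjA W).finrank_eq.symm
  -- `V` inside `A`
  let VA : Submodule k A := V.comap A.val.toLinearMap
  have hVAmap : VA.map A.val.toLinearMap = V := by
    rw [Submodule.map_comap_eq, inf_eq_right]
    intro x hx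
    exact ⟨⟨x, hVA x hx⟩, rfl⟩
  have hVAfd : FiniteDimensional k VA := by
    have e := Submodule.equivMapOfInjective A.val.toLinearMap hinjA VA
    have : FiniteDimensional k (VA.map A.val.toLinearMap) := by rw [hVAmap]; infer_instance
    exact LinearEquiv.finiteDimensional e.symm
  have h1VA : (1 : A) ∈ VA := h1
  have hpowmono : ∀ m, m ≤ N → VA ^ m ≤ VA ^ N := by
    intro m hm
    obtain ⟨j, rfl⟩ := Nat.exists_eq_add_of_le hm
    have h2 : (1 : Submodule k A) ≤ VA ^ j := by
      rw [Submodule.one_le]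
      clear hm hN1
      induction j with
      | zero => rw [pow_zero]; exact Submodule.one_le.mp le_rfl
      | succ j ih =>
        rw [pow_succ]
        have := Submodule.mul_mem_mul ih h1VA
        rwa [mul_one] at this
    calc VA ^ m = VA ^ m * 1 := (mul_one _).symm
      _ ≤ VA ^ m * VA ^ j := mul_le_mul' le_rfl h2
      _ = VA ^ (m + j) := (pow_add VA m j).symm
  have hYfd : FiniteDimensional k (VA ^ N : Submodule k A) :=
    Module.Finite.iff_fg.mpr (Submodule.FG.pow (Module.Finite.iff_fg.mp inferInstance) N)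
  obtain ⟨L, _, _, ψ, hψ, hψdep⟩ := exists_curve (k := k) (A := A) (VA ^ N)
  have hVN : VA ≤ VA ^ N := by
    have := hpowmono 1 hN1
    rwa [pow_one] at this
  -- the image of `V`
  let VL : Submodule k L := VA.map ψ.toLinearMap
  have hVLfd : FiniteDimensional k VL := inferInstance
  have h1VL : (1 : L) ∈ VL := ⟨1, h1VA, map_one ψ⟩
  obtain ⟨𝒲, h𝒲f, h𝒲, hcov⟩ := cover_curve2 VL h1VL (by
    rintro _ ⟨x, -, rfl⟩ _ ⟨y, -, rfl⟩
    exact hψdep x y) D
  let pull : Submodule k L → Submodule k M := fun W => (VA ⊓ W.comap ψ.toLinearMap).map A.val.toLinearMap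
  refine ⟨pull '' 𝒲, h𝒲f.image _, ?_, ?_⟩
  · rintro _ ⟨W, hW, rfl⟩
    obtain ⟨-, h2, h3⟩ := h𝒲 W hW
    refine ⟨?_, ⟨1, ⟨h1VA, by
      rw [SetLike.mem_coe, Submodule.mem_comap]
      change ψ 1 ∈ W
      rw [map_one]
      exact h2⟩, rfl⟩, ?_⟩
    · calc pull W ≤ VA.map A.val.toLinearMap := Submodule.map_mono inf_le_left
        _ = V := hVAmap
    · intro m hm
      set WA : Submodule k A := VA ⊓ W.comap ψ.toLinearMap with hWA
      have e1 : (pull W) ^ m = (WA ^ m).map A.val.toLinearMap := (Submodule.map_pow WA A.val m).symm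
      rw [e1, hmapA]
      have hle : WA ^ m ≤ VA ^ N :=
        (pow_le_pow_left' (inf_le_left : WA ≤ VA) m).trans (hpowmono m hm)
      -- `ψ` is injective on `WA ^ m`
      have hWLfd : FiniteDimensional k W := Submodule.finiteDimensional_of_le (h𝒲 W hW).1
      have hWm : FiniteDimensional k (W ^ m : Submodule k L) :=
        Module.Finite.iff_fg.mpr (Submodule.FG.pow (Module.Finite.iff_fg.mp inferInstance) m)
      have hWAfd : FiniteDimensional k WA := Submodule.finiteDimensional_of_le inf_le_left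
      have hWAm : FiniteDimensional k (WA ^ m : Submodule k A) :=
        Module.Finite.iff_fg.mpr (Submodule.FG.pow (Module.Finite.iff_fg.mp inferInstance) m)
      have hmap : (WA ^ m).map ψ.toLinearMap ≤ W ^ m := by
        have e2 : (WA ^ m).map ψ.toLinearMap = (WA.map ψ.toLinearMap) ^ m :=
          Submodule.map_pow WA ψ m
        rw [e2]
        apply pow_le_pow_left'
        rw [Submodule.map_le_iff_le_comap]
        exact inf_le_right
      let f : (WA ^ m : Submodule k A) →ₗ[k] (W ^ m : Submodule k L) :=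
        (ψ.toLinearMap.comp (WA ^ m).subtype).codRestrict (W ^ m)
          (fun x => hmap ⟨x, x.2, rfl⟩)
      have hf : Function.Injective f := by
        rw [← LinearMap.ker_eq_bot, LinearMap.ker_eq_bot']
        intro x hx
        have h4 : ψ (x : A) = 0 := congrArg Subtype.val hx
        exact Subtype.ext (hψ x (hle x.2) h4)
      exact (LinearMap.finrank_le_finrank_of_injective hf).trans (h3 m)
  · rintro u hu v hv ⟨P, hP0, hPD, hP⟩ hPL
    have hPA : MvPolynomial.aeval ![(⟨u, hVA u hu⟩ : A), ⟨v, hVA v hv⟩] P = 0 := by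
      apply Subtype.val_injective
      have h2 := MvPolynomial.aeval_algebraMap_apply (A := A) (B := M)
        ![(⟨u, hVA u hu⟩ : A), ⟨v, hVA v hv⟩] P
      have h3 : (algebraMap A M) ∘ ![(⟨u, hVA u hu⟩ : A), ⟨v, hVA v hv⟩] = ![u, v] := by
        funext i
        fin_cases i <;> rfl
      rw [h3, hP] at h2
      exact h2.symm
    have hPL' : MvPolynomial.aeval ![ψ ⟨u, hVA u hu⟩, ψ ⟨v, hVA v hv⟩] P = 0 := by
      have e : (MvPolynomial.aeval ![ψ ⟨u, hVA u hu⟩, ψ ⟨v, hVA v hv⟩] :
          MvPolynomial (Fin 2) k →ₐ[k] L) =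
          ψ.comp (MvPolynomial.aeval ![(⟨u, hVA u hu⟩ : A), ⟨v, hVA v hv⟩]) := by
        apply MvPolynomial.algHom_ext
        intro i
        fin_cases i
        · simp
        · simp
      rw [e, AlgHom.comp_apply, hPA, map_zero]
    have hcst : ∀ (w : M) (hw : w ∈ V) (c : k), ψ ⟨w, hVA w hw⟩ = algebraMap k L c →
        w = algebraMap k M c := by
      intro w hw c hc
      have h2 : (⟨w, hVA w hw⟩ : A) - algebraMap k A c = 0 := by
        apply hψ
        · apply hVN
          apply VA.sub_mem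
          · exact hw
          · rw [Algebra.algebraMap_eq_smul_one]
            exact VA.smul_mem c h1VA
        · rw [map_sub, hc, AlgHom.commutes, sub_self]
      rw [sub_eq_zero] at h2
      exact congrArg Subtype.val h2
    obtain ⟨W, hW, hWu, hWv⟩ := hcov _ ⟨_, show (⟨u, hVA u hu⟩ : A) ∈ VA from hu, rfl⟩ _
      ⟨_, show (⟨v, hVA v hv⟩ : A) ∈ VA from hv, rfl⟩ ⟨P, hP0, hPD, hPL'⟩ (by
        intro hpar
        exact hPL (param_up A ψ ⟨u, hVA u hu⟩ ⟨v, hVA v hv⟩ P hP0 hP (hcst u hu) (hcst v hv) D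
          hpar))
    exact ⟨_, ⟨W, hW, rfl⟩, ⟨_, ⟨hu, hWu⟩, rfl⟩, ⟨_, ⟨hv, hWv⟩, rfl⟩⟩

/-- the numerical consequence of growth -/
theorem bound_of_grows {k M : Type*} [Field k] [Field M] [Algebra k M]
    (S : Submodule k M) (hS : Grows k S) (W : Submodule k M) [FiniteDimensional k W]
    (hWS : W ≤ S) (h1 : (1 : M) ∈ W) (D : ℕ)
    (h4 : ∀ m ≤ D + 3, finrank k (W ^ m : Submodule k M) ≤ m * D + 1) :
    finrank k W ^ 2 / 4 ≤ D := by
  have hgrow := hS W inferInstance hWS h1
  set c := finrank k W ^ 2 / 4 with hc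
  have hlow : ∀ m, m * c ≤ finrank k (W ^ (m + 1) : Submodule k M) := by
    intro m
    induction m with
    | zero => simp
    | succ m ih =>
      have := hgrow (m + 1) (Nat.succ_le_succ (Nat.zero_le m))
      calc (m + 1) * c = m * c + c := by ring
        _ ≤ _ := Nat.add_le_add_right ih c
        _ ≤ _ := this
  have h5 := (hlow (D + 2)).trans (h4 (D + 3) le_rfl)
  by_contra h6
  push Not at h6
  have h7 : (D + 2) * (D + 1) ≤ (D + 2) * c := Nat.mul_le_mul_left _ h6
  have h8 : (D + 2) * (D + 1) ≤ (D + 3) * D + 1 := h7.trans h5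
  nlinarith

/-- **The covering theorem** in a space with growth. -/
theorem cover_grows2 {k M : Type} [Field k] [IsAlgClosed k] [CharZero k] [Field M] [Algebra k M]
    (S : Submodule k M) (hS : Grows k S) (V : Submodule k M) [FiniteDimensional k V]
    (hVS : V ≤ S) (h1 : (1 : M) ∈ V) (D : ℕ) :
    ∃ 𝒲 : Set (Submodule k M), 𝒲.Finite ∧
      (∀ W ∈ 𝒲, W ≤ V ∧ 1 ∈ W ∧ finrank k W ^ 2 / 4 ≤ D) ∧
      ∀ u ∈ V, ∀ v ∈ V, (∃ P : MvPolynomial (Fin 2) k, P ≠ 0 ∧ P.totalDegree ≤ D ∧
        MvPolynomial.aeval ![u, v] P = 0) → ¬ Param k D u v → ∃ W ∈ 𝒲, u ∈ W ∧ v ∈ W := by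
  obtain ⟨𝒲, h𝒲f, h𝒲, hcov⟩ := cover_gen2 V h1 D (D + 3) (by omega)
  refine ⟨𝒲, h𝒲f, ?_, hcov⟩
  intro W hW
  obtain ⟨h2, h3, h4⟩ := h𝒲 W hW
  have hWfd : FiniteDimensional k W := Submodule.finiteDimensional_of_le h2
  exact ⟨h2, h3, bound_of_grows S hS W (h2.trans hVS) h3 D h4⟩

end Run7.h577
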