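import Mathlib

/-!
# Counting points of a grid on sets of small dimension
-/

set_option autoImplicit false

namespace Run7.h577

open MvPolynomial

/-- every projection of `E` to `d` coordinates lies in a hypersurface of degree at most `B` -/
def DimLt {k : Type*} [Field k] {m : ℕ} (B d : ℕ) (E : Set (Fin m → k)) : Prop :=
  ∀ σ : Fin d → Fin m, Function.Injective σ →
    ∃ f : MvPolynomial (Fin d) k, f ≠ 0 ∧ f.totalDegree ≤ B ∧ ∀ e ∈ E, eval (e ∘ σ) f = 0

/-- the points of the grid in the set -/
noncomputable def grid {k : Type*} {m : ℕ} (X : Finset k) (E : Set (Fin m → k)) :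
    Finset (Fin m → k) := by
  classical
  exact (Fintype.piFinset (fun _ : Fin m => X)).filter (fun e => e ∈ E)

theorem mem_grid {k : Type*} {m : ℕ} {X : Finset k} {E : Set (Fin m → k)} {e : Fin m → k} :
    e ∈ grid X E ↔ (∀ i, e i ∈ X) ∧ e ∈ E := by
  classical
  rw [grid, Finset.mem_filter, Fintype.mem_piFinset]

/-- **Counting.** -/
theorem card_grid {k : Type*} [Field k] (B : ℕ) (X : Finset k) (hX : X.Nonempty) :
    ∀ (m c : ℕ) (E : Set (Fin m → k)), DimLt B (c + 1) E →
      (grid X E).card ≤ (B + 1) ^ m * X.card ^ c := by
  classical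
  have hX1 : 1 ≤ X.card := hX.card_pos
  intro m
  induction m with
  | zero =>
    intro c E _
    have h1 : (grid X E).card ≤ 1 := by
      have := Finset.card_le_univ (grid X E)
      simpa using this
    have h2 : 1 ≤ (B + 1) ^ 0 * X.card ^ c := by
      rw [pow_zero, one_mul]
      exact Nat.one_le_pow _ _ hX1
    exact h1.trans h2
  | succ m ih =>
    intro c E hE
    set S := grid X E with hS
    let fib : (Fin m → k) → Finset k := fun e => X.filter (fun x => (Fin.cons x e : Fin (m + 1) → k) ∈ E)
    set T := S.image Fin.tail with hT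
    -- the fibres
    have hfibcard : ∀ e : Fin m → k, (S.filter (fun a => Fin.tail a = e)).card ≤ (fib e).card := by
      intro e
      apply Finset.card_le_card_of_injOn (fun a => a 0)
      · intro a ha
        rw [Finset.mem_coe, Finset.mem_filter] at ha
        have h1 := mem_grid.mp ha.1
        rw [Finset.mem_coe, Finset.mem_filter]
        refine ⟨h1.1 0, ?_⟩
        rw [← ha.2, Fin.cons_self_tail]
        exact h1.2
      · intro a ha b hb hab
        rw [Finset.mem_coe, Finset.mem_filter] at ha hb
        simp only at hab
        rw [← Fin.cons_self_tail a, ← Fin.cons_self_tail b, ha.2, hb.2, hab]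
    -- large fibres
    have hbig : ∀ J : Fin c → Fin m, Function.Injective J →
        ∃ g : MvPolynomial (Fin c) k, g ≠ 0 ∧ g.totalDegree ≤ B ∧
          ∀ e : Fin m → k, B < (fib e).card → eval (e ∘ J) g = 0 := by
      intro J hJ
      let σ : Fin (c + 1) → Fin (m + 1) := Fin.cons 0 (Fin.succ ∘ J)
      have hσ : Function.Injective σ := by
        rw [Fin.cons_injective_iff]
        refine ⟨?_, (Fin.succ_injective m).comp hJ⟩
        rintro ⟨i, hi⟩
        exact Fin.succ_ne_zero _ hi
      obtain ⟨f, hf0, hfB, hf⟩ := hE σ hσ
      have hF0 : finSuccEquiv k c f ≠ 0 := by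
        rwa [Ne, EmbeddingLike.map_eq_zero_iff]
      obtain ⟨j, hj⟩ : ∃ j, (finSuccEquiv k c f).coeff j ≠ 0 := by
        by_contra hcon
        push Not at hcon
        exact hF0 (Polynomial.ext hcon)
      refine ⟨(finSuccEquiv k c f).coeff j, hj, ?_, ?_⟩
      · have := totalDegree_coeff_finSuccEquiv_add_le f j hj
        omega
      · intro e he
        set r : Polynomial k := Polynomial.map (eval (e ∘ J)) (finSuccEquiv k c f) with hr
        have hrd : r.natDegree ≤ B := by
          rw [Polynomial.natDegree_le_iff_coeff_eq_zero]
          intro i hi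
          rw [hr, Polynomial.coeff_map]
          have h1 : (finSuccEquiv k c f).coeff i = 0 := by
            by_contra h1
            have := totalDegree_coeff_finSuccEquiv_add_le f i h1
            omega
          rw [h1, map_zero]
        have hroots : ∀ x ∈ fib e, r.eval x = 0 := by
          intro x hx
          rw [Finset.mem_filter] at hx
          have h1 := hf _ hx.2
          have h2 : (Fin.cons x e : Fin (m + 1) → k) ∘ σ = Fin.cons x (e ∘ J) := by
            funext i
            refine Fin.cases ?_ (fun i => ?_) i
            · rfl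
            · rfl
          rw [h2, eval_eq_eval_mv_eval'] at h1
          exact h1
        have hr0 : r = 0 := by
          by_contra hr0
          have h1 := Polynomial.card_le_degree_of_subset_roots (p := r) (Z := fib e) (by
            intro x hx
            rw [Polynomial.mem_roots hr0]
            exact hroots x hx)
          omega
        have h1 := congrArg (fun q => Polynomial.coeff q j) hr0
        simp only [hr, Polynomial.coeff_map, Polynomial.coeff_zero] at h1
        exact h1
    set Eb : Set (Fin m → k) := {e | e ∈ Fin.tail '' E ∧ B < (fib e).card} with hEb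
    -- the number of large fibres
    have hTb : (grid X Eb).card * X.card ≤ (B + 1) ^ m * X.card ^ c := by
      rcases Nat.eq_zero_or_pos c with rfl | hc
      · have h1 : grid X Eb = ∅ := by
          rw [Finset.eq_empty_iff_forall_notMem]
          intro e he
          obtain ⟨g, hg0, -, hg⟩ := hbig Fin.elim0 (fun i => i.elim0)
          have h2 := hg e (mem_grid.mp he).2.2
          apply hg0
          rw [eq_C_of_isEmpty g] at h2 ⊢
          rw [eval_C] at h2
          rw [h2, C_0]
        rw [h1, Finset.card_empty, zero_mul]
        exact Nat.zero_le _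
      · obtain ⟨c', rfl⟩ := Nat.exists_eq_succ_of_ne_zero hc.ne'
        have h1 := ih c' Eb (by
          intro J hJ
          obtain ⟨g, hg0, hgB, hg⟩ := hbig J hJ
          exact ⟨g, hg0, hgB, fun e he => hg e he.2⟩)
        calc (grid X Eb).card * X.card ≤ ((B + 1) ^ m * X.card ^ c') * X.card :=
              Nat.mul_le_mul_right _ h1
          _ = (B + 1) ^ m * X.card ^ (c' + 1) := by rw [pow_succ]; ring
    have hTs : T.card ≤ (B + 1) ^ m * X.card ^ c := by
      have h1 := ih c (Fin.tail '' E) (by
        intro σ hσ
        obtain ⟨f, hf0, hfB, hf⟩ := hE (Fin.succ ∘ σ) ((Fin.succ_injective m).comp hσ)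
        refine ⟨f, hf0, hfB, ?_⟩
        rintro _ ⟨e, he, rfl⟩
        exact hf e he)
      refine le_trans (Finset.card_le_card ?_) h1
      intro e he
      rw [hT, Finset.mem_image] at he
      obtain ⟨a, ha, rfl⟩ := he
      have h2 := mem_grid.mp ha
      exact mem_grid.mpr ⟨fun i => h2.1 _, ⟨a, h2.2, rfl⟩⟩
    have hsum : S.card = ∑ e ∈ T, (S.filter (fun a => Fin.tail a = e)).card :=
      Finset.card_eq_sum_card_image Fin.tail S
    have hle : ∀ e ∈ T, (S.filter (fun a => Fin.tail a = e)).card ≤
        B + (if e ∈ grid X Eb then X.card else 0) := by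
      intro e he
      by_cases h1 : B < (fib e).card
      · have h2 : e ∈ grid X Eb := by
          rw [hT, Finset.mem_image] at he
          obtain ⟨a, ha, rfl⟩ := he
          have h3 := mem_grid.mp ha
          exact mem_grid.mpr ⟨fun i => h3.1 _, ⟨a, h3.2, rfl⟩, h1⟩
        rw [if_pos h2]
        have h3 : (fib e).card ≤ X.card := Finset.card_filter_le _ _
        exact (hfibcard e).trans (h3.trans (Nat.le_add_left _ _))
      · exact (hfibcard e).trans ((not_lt.mp h1).trans (Nat.le_add_right _ _))
    calc S.card = ∑ e ∈ T, (S.filter (fun a => Fin.tail a = e)).card := hsum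
      _ ≤ ∑ e ∈ T, (B + (if e ∈ grid X Eb then X.card else 0)) := Finset.sum_le_sum hle
      _ = B * T.card + ∑ e ∈ T, (if e ∈ grid X Eb then X.card else 0) := by
          rw [Finset.sum_add_distrib, Finset.sum_const, smul_eq_mul, mul_comm]
      _ ≤ B * T.card + (grid X Eb).card * X.card := by
          apply Nat.add_le_add_left
          rw [← Finset.sum_filter, Finset.sum_const, smul_eq_mul]
          apply Nat.mul_le_mul_right
          apply Finset.card_le_card
          intro e he
          exact (Finset.mem_filter.mp he).2
      _ ≤ B * ((B + 1) ^ m * X.card ^ c) + (B + 1) ^ m * X.card ^ c :=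
          Nat.add_le_add (Nat.mul_le_mul_left _ hTs) hTb
      _ = (B + 1) ^ (m + 1) * X.card ^ c := by rw [pow_succ]; ring

end Run7.h577
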