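import Mathlib

/-!
# Many derivations on a pair of polynomials
-/

set_option autoImplicit false

namespace Run7.h577

open Module Polynomial

variable {K U : Type*} [Field K] [Field U] [Algebra K U]

/-- the polynomial with the coefficients `d (r.coeff j)`, up to degree `D` -/
noncomputable def dpoly (D : ℕ) (d : K → K) (r : K[X]) : K[X] :=
  ∑ j ∈ Finset.range (D + 1), C (d (r.coeff j)) * X ^ j

theorem natDegree_dpoly (D : ℕ) (d : K → K) (r : K[X]) : (dpoly D d r).natDegree ≤ D := by
  apply natDegree_sum_le_of_forall_le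
  intro j hj
  exact (natDegree_C_mul_X_pow_le _ _).trans (Nat.lt_succ_iff.mp (Finset.mem_range.mp hj))

theorem der_aeval (δ : Derivation ℤ U U) (d : K → K)
    (hd : ∀ c, δ (algebraMap K U c) = algebraMap K U (d c)) (y : U) (D : ℕ) (r : K[X])
    (hr : r.natDegree ≤ D) :
    δ (aeval y r) = aeval y (derivative r) * δ y + aeval y (dpoly D d r) := by
  have h1 : aeval y r = ∑ j ∈ Finset.range (D + 1), algebraMap K U (r.coeff j) * y ^ j := by
    rw [aeval_eq_sum_range' (Nat.lt_succ_of_le hr)]
    refine Finset.sum_congr rfl fun j _ => ?_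
    rw [Algebra.smul_def]
  have h2 : aeval y (derivative r) =
      ∑ j ∈ Finset.range (D + 1), algebraMap K U (r.coeff j) * (j * y ^ (j - 1)) := by
    conv_lhs => rw [as_sum_range' r (D + 1) (Nat.lt_succ_of_le hr)]
    rw [derivative_sum, map_sum]
    refine Finset.sum_congr rfl fun j _ => ?_
    rw [derivative_monomial, aeval_monomial, map_mul, map_natCast, mul_assoc]
  rw [h1, h2, map_sum, dpoly, map_sum, Finset.sum_mul, ← Finset.sum_add_distrib]
  refine Finset.sum_congr rfl fun j _ => ?_
  rw [δ.leibniz, δ.leibniz_pow, hd, smul_eq_mul, smul_eq_mul, nsmul_eq_mul, smul_eq_mul, map_mul,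
    map_pow, aeval_X, aeval_C]
  ring

/-- the linear map attached to a polynomial and derivations -/
noncomputable def Rmap {N : ℕ} (D : ℕ) (d : Fin N → K → K) (r : K[X]) :
    ((Fin N → K) × K × K) →ₗ[K] K[X] where
  toFun κ := ∑ t, κ.1 t • dpoly D (d t) r + κ.2.1 • derivative r + κ.2.2 • (X * derivative r)
  map_add' κ κ' := by
    simp only [Prod.fst_add, Prod.snd_add, Pi.add_apply, add_smul, Finset.sum_add_distrib]
    abel
  map_smul' c κ := by
    simp only [Prod.smul_fst, Prod.smul_snd, Pi.smul_apply, smul_eq_mul, RingHom.id_apply,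
      smul_add, Finset.smul_sum, smul_smul]

theorem natDegree_Rmap {N : ℕ} (D : ℕ) (d : Fin N → K → K) (r : K[X]) (hr : r.natDegree ≤ D)
    (κ : (Fin N → K) × K × K) : (Rmap D d r κ).natDegree ≤ D := by
  change (∑ t, κ.1 t • dpoly D (d t) r + κ.2.1 • derivative r +
    κ.2.2 • (X * derivative r)).natDegree ≤ D
  apply natDegree_add_le_of_degree_le
  · apply natDegree_add_le_of_degree_le
    · apply natDegree_sum_le_of_forall_le
      intro t _
      exact (natDegree_smul_le _ _).trans (natDegree_dpoly D _ r)
    · exact (natDegree_smul_le _ _).trans ((natDegree_derivative_le r).trans (by omega))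
  · refine (natDegree_smul_le _ _).trans ?_
    by_cases h0 : derivative r = 0
    · rw [h0, mul_zero, natDegree_zero]; exact Nat.zero_le _
    · rw [natDegree_X_mul h0]
      have h1 := natDegree_derivative_le r
      have h2 : r.natDegree ≠ 0 := by
        intro h2
        apply h0
        rw [eq_C_of_natDegree_eq_zero h2, derivative_C]
      omega

/-- **Many derivations on a pair of polynomials.** -/
theorem three_of_many {N : ℕ} (D : ℕ) (y : U) (hy : Transcendental K y)
    (r s : K[X]) (hr : r.natDegree ≤ D) (hs : s.natDegree ≤ D) (hr' : derivative r ≠ 0)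
    (δ : Fin N → Derivation ℤ U U) (d : Fin N → K → K)
    (hd : ∀ t c, δ t (algebraMap K U c) = algebraMap K U (d t c))
    (hinj : ∀ γ : Fin N → K, ∀ c c' : K,
      ∑ t, algebraMap K U (γ t) * δ t (aeval y r) = algebraMap K U c →
      ∑ t, algebraMap K U (γ t) * δ t (aeval y s) = algebraMap K U c' → γ = 0)
    (hN : 2 * D < N) :
    ∃ (z : U) (γ : Fin 3 → Fin N → K) (c c' : Fin 3 → K),
      z * aeval y (derivative r) = aeval y (derivative s) ∧
      LinearIndependent K (fun i => ∑ t, algebraMap K U (γ i t) * δ t (aeval y r) -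
        algebraMap K U (c i)) ∧
      ∀ i, z * (∑ t, algebraMap K U (γ i t) * δ t (aeval y r) - algebraMap K U (c i)) =
        ∑ t, algebraMap K U (γ i t) * δ t (aeval y s) - algebraMap K U (c' i) := by
  classical
  have hr'y : aeval y (derivative r) ≠ 0 := by
    intro h
    exact hr' ((transcendental_iff_injective.1 hy) (by rw [h, map_zero]))
  set z : U := aeval y (derivative s) / aeval y (derivative r) with hz
  have hzr : z * aeval y (derivative r) = aeval y (derivative s) := div_mul_cancel₀ _ hr'y
  -- the kernel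
  let Θ : ((Fin N → K) × K × K) →ₗ[K] ((Fin D → K) × (Fin D → K)) :=
    (LinearMap.pi fun j : Fin D => (lcoeff K ((j : ℕ) + 1)).comp (Rmap D d r)).prod
      (LinearMap.pi fun j : Fin D => (lcoeff K ((j : ℕ) + 1)).comp (Rmap D d s))
  have hΘ1 : ∀ κ, Θ κ = 0 → Rmap D d r κ = C ((Rmap D d r κ).coeff 0) := by
    intro κ hκ
    ext j
    rcases Nat.eq_zero_or_pos j with rfl | hj
    · rw [coeff_C_zero]
    · rw [coeff_C_of_ne_zero hj.ne']
      by_cases hjD : j ≤ D
      · have h1 := congrFun (congrArg Prod.fst hκ) ⟨j - 1, by omega⟩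
        have h2 : (Rmap D d r κ).coeff (j - 1 + 1) = 0 := h1
        rwa [Nat.sub_add_cancel hj] at h2
      · exact coeff_eq_zero_of_natDegree_lt ((natDegree_Rmap D d r hr κ).trans_lt (by omega))
  have hΘ2 : ∀ κ, Θ κ = 0 → Rmap D d s κ = C ((Rmap D d s κ).coeff 0) := by
    intro κ hκ
    ext j
    rcases Nat.eq_zero_or_pos j with rfl | hj
    · rw [coeff_C_zero]
    · rw [coeff_C_of_ne_zero hj.ne']
      by_cases hjD : j ≤ D
      · have h1 := congrFun (congrArg Prod.snd hκ) ⟨j - 1, by omega⟩
        have h2 : (Rmap D d s κ).coeff (j - 1 + 1) = 0 := h1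
        rwa [Nat.sub_add_cancel hj] at h2
      · exact coeff_eq_zero_of_natDegree_lt ((natDegree_Rmap D d s hs κ).trans_lt (by omega))
  -- the auxiliary function
  let η : ((Fin N → K) × K × K) → U := fun κ =>
    ∑ t, algebraMap K U (κ.1 t) * δ t y - algebraMap K U κ.2.1 - algebraMap K U κ.2.2 * y
  have hform : ∀ (r : K[X]), r.natDegree ≤ D → ∀ κ : (Fin N → K) × K × K,
      Rmap D d r κ = C ((Rmap D d r κ).coeff 0) →
      ∑ t, algebraMap K U (κ.1 t) * δ t (aeval y r) - algebraMap K U ((Rmap D d r κ).coeff 0) =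
        aeval y (derivative r) * η κ := by
    intro r hr κ hκ
    have h1 : algebraMap K U ((Rmap D d r κ).coeff 0) =
        ∑ t, algebraMap K U (κ.1 t) * aeval y (dpoly D (d t) r) +
          algebraMap K U κ.2.1 * aeval y (derivative r) +
          algebraMap K U κ.2.2 * (y * aeval y (derivative r)) := by
      have h2 : aeval y (Rmap D d r κ) = algebraMap K U ((Rmap D d r κ).coeff 0) := by
        conv_lhs => rw [hκ]
        rw [aeval_C]
      rw [← h2]
      change aeval y (∑ t, κ.1 t • dpoly D (d t) r + κ.2.1 • derivative r +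
        κ.2.2 • (X * derivative r)) = _
      rw [map_add, map_add, map_sum, map_smul, map_smul, map_mul, aeval_X, Algebra.smul_def,
        Algebra.smul_def]
      congr 2
      refine Finset.sum_congr rfl fun t _ => ?_
      rw [map_smul, Algebra.smul_def]
    have h2 : ∑ t, algebraMap K U (κ.1 t) * δ t (aeval y r) =
        aeval y (derivative r) * ∑ t, algebraMap K U (κ.1 t) * δ t y +
          ∑ t, algebraMap K U (κ.1 t) * aeval y (dpoly D (d t) r) := by
      rw [Finset.mul_sum, ← Finset.sum_add_distrib]
      refine Finset.sum_congr rfl fun t _ => ?_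
      rw [der_aeval (δ t) (d t) (hd t) y D r hr]
      ring
    rw [h1, h2]
    simp only [η]
    ring
  -- the linear map
  let x : ((Fin N → K) × K × K) →ₗ[K] U :=
    { toFun := fun κ => ∑ t, algebraMap K U (κ.1 t) * δ t (aeval y r) -
        algebraMap K U ((Rmap D d r κ).coeff 0)
      map_add' := by
        intro κ κ'
        simp only [Prod.fst_add, Pi.add_apply, map_add, coeff_add, add_mul,
          Finset.sum_add_distrib]
        ring
      map_smul' := by
        intro c κ
        have e1 : ∀ w : U, c • w = algebraMap K U c * w := fun w => Algebra.smul_def c w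
        rw [map_smul, coeff_smul, RingHom.id_apply, e1, mul_sub, Finset.mul_sum,
          smul_eq_mul, map_mul]
        congr 1
        refine Finset.sum_congr rfl fun t _ => ?_
        rw [Prod.smul_fst, Pi.smul_apply, smul_eq_mul, map_mul, mul_assoc] }
  have hx : ∀ κ, x κ = ∑ t, algebraMap K U (κ.1 t) * δ t (aeval y r) -
      algebraMap K U ((Rmap D d r κ).coeff 0) := fun κ => rfl
  have hxinj : ∀ κ, Θ κ = 0 → x κ = 0 → κ = 0 := by
    intro κ hκ hxκ
    have h1 := hform r hr κ (hΘ1 κ hκ)
    rw [← hx, hxκ] at h1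
    have h2 : η κ = 0 := (mul_eq_zero.mp h1.symm).resolve_left hr'y
    have h3 := hform s hs κ (hΘ2 κ hκ)
    rw [h2, mul_zero, sub_eq_zero] at h3
    rw [hx, sub_eq_zero] at hxκ
    have h4 := hinj κ.1 _ _ hxκ h3
    have h5 : algebraMap K U κ.2.1 + algebraMap K U κ.2.2 * y = 0 := by
      simp only [η, h4, Pi.zero_apply, map_zero, zero_mul, Finset.sum_const_zero, zero_sub] at h2
      linear_combination -h2
    have h6 : (C κ.2.1 + C κ.2.2 * X : K[X]) = 0 := by
      apply transcendental_iff_injective.1 hy
      rw [map_zero, map_add, map_mul, aeval_C, aeval_C, aeval_X]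
      exact h5
    have h7 := congrArg (fun p => coeff p 0) h6
    have h8 := congrArg (fun p => coeff p 1) h6
    simp only [coeff_add, coeff_C_zero, coeff_C_mul, coeff_X_zero, mul_zero, add_zero,
      coeff_zero] at h7
    simp only [coeff_add, coeff_C_mul, coeff_X_one, mul_one, coeff_zero,
      coeff_C_of_ne_zero one_ne_zero, zero_add] at h8
    exact Prod.ext h4 (Prod.ext h7 h8)
  have hdim : 3 ≤ finrank K (LinearMap.ker Θ) := by
    have h1 := LinearMap.finrank_range_add_finrank_ker Θ
    have h2 : finrank K ((Fin N → K) × K × K) = N + 2 := by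
      rw [Module.finrank_prod, Module.finrank_prod, Module.finrank_fin_fun, Module.finrank_self]
    have h3 : finrank K (LinearMap.range Θ) ≤ 2 * D := by
      have h4 := Submodule.finrank_le (LinearMap.range Θ)
      rw [Module.finrank_prod, Module.finrank_fin_fun] at h4
      omega
    omega
  let bs := finBasis K (LinearMap.ker Θ)
  let κ : Fin 3 → ((Fin N → K) × K × K) := fun i => (bs (Fin.castLE hdim i) : _)
  have hκΘ : ∀ i, Θ (κ i) = 0 := fun i => (bs (Fin.castLE hdim i)).2
  refine ⟨z, fun i => (κ i).1, fun i => (Rmap D d r (κ i)).coeff 0,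
    fun i => (Rmap D d s (κ i)).coeff 0, hzr, ?_, ?_⟩
  · have hli : LinearIndependent K (fun i : Fin 3 => bs (Fin.castLE hdim i)) :=
      bs.linearIndependent.comp _ (Fin.castLE_injective hdim)
    have := hli.map' (x.comp (LinearMap.ker Θ).subtype) (by
      rw [LinearMap.ker_eq_bot']
      intro w hw
      exact Subtype.ext (hxinj _ w.2 hw))
    exact this
  · intro i
    rw [hform r hr _ (hΘ1 _ (hκΘ i)), hform s hs _ (hΘ2 _ (hκΘ i)), ← mul_assoc, hzr]

end Run7.h577
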