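import Pool.Agent.N770.Dir
import Pool.Agent.Run7.h577.T20
import Pool.Agent.Run7.h577.T23

/-!
# Pairs of polynomials in one function: at most `2 D` parameters
-/

set_option autoImplicit false

namespace Run7.h577

open Module Polynomial Filter IntermediateField Pool.Agent.W256 Pool.Agent.N770

/-- linear disjointness in ultraproducts -/
theorem udis {I k L K U : Type} (𝒰 : Ultrafilter I) [Field k]
    [Field L] [Algebra k L] [Field K] [Field U]
    (g : (I → k) →+* K) (gL : (I → L) →+* U) (p : K →+* U) (hgs : Function.Surjective g)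
    (hg : ∀ f, g f = 0 ↔ ∀ᶠ i in (𝒰 : Filter I), f i = 0)
    (hgL : ∀ f, gL f = 0 ↔ ∀ᶠ i in (𝒰 : Filter I), f i = 0)
    (hp : ∀ a, p (g a) = gL (fun i => algebraMap k L (a i)))
    (ι : Type) (s : Finset ι) (z : ι → L) (c : ι → K) (hz : LinearIndependent k z)
    (hsum : ∑ m ∈ s, p (c m) * gL (fun _ => z m) = 0) : ∀ m ∈ s, c m = 0 := by
  intro m hm
  choose c' hc' using fun m => hgs (c m)
  have e1 : ∑ m ∈ s, p (c m) * gL (fun _ => z m) =
      gL (∑ m ∈ s, (fun i => algebraMap k L (c' m i)) * fun _ => z m) := by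
    rw [map_sum]
    refine Finset.sum_congr rfl fun m _ => ?_
    rw [map_mul, ← hc' m, hp]
  rw [e1, hgL] at hsum
  rw [← hc' m, hg]
  refine hsum.mono fun b hb => ?_
  rw [Finset.sum_apply] at hb
  have e2 : ∑ m ∈ s, c' m b • z m = 0 := by
    rw [← hb]
    refine Finset.sum_congr rfl fun m _ => ?_
    rw [Algebra.smul_def]
    rfl
  exact linearIndependent_iff'.1 hz s (fun m => c' m b) e2 m hm

/-- **At most `2 D` parameters.** -/
theorem few_param {I k L K U : Type} (𝒰 : Ultrafilter I) [Field k]
    [Field L] [Algebra k L] [Field K] [IsAlgClosed K] [CharZero K] [Field U]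
    (g : (I → k) →+* K) (gL : (I → L) →+* U) (p : K →+* U) (hgs : Function.Surjective g)
    (hg : ∀ f, g f = 0 ↔ ∀ᶠ i in (𝒰 : Filter I), f i = 0)
    (hgL : ∀ f, gL f = 0 ↔ ∀ᶠ i in (𝒰 : Filter I), f i = 0)
    (hp : ∀ a, p (g a) = gL (fun i => algebraMap k L (a i)))
    {n : ℕ} (e : Fin n → L) (he : LinearIndependent k (Fin.cons 1 e : Fin (n + 1) → L))
    (V : Submodule k L) (h1V : (1 : L) ∈ V) (heV : ∀ j, e j ∈ V) (h6 : SixExp k V)
    (A : I → Fin 2 × Fin n → k)
    (hrow : ∀ i, ∀ α β : k, (∀ j, α * A i (0, j) + β * A i (1, j) = 0) → α = 0 ∧ β = 0)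
    (D N : ℕ) (σ : Fin N → Fin 2 × Fin n)
    (hσ : Function.Injective (MvPolynomial.eval₂Hom (g.comp (Pi.constRingHom I k))
      (fun t => g (fun i => A i (σ t)))))
    (hpar : @Param K U _ _ p.toAlgebra D (gL fun i => ∑ j, A i (0, j) • e j)
      (gL fun i => ∑ j, A i (1, j) • e j)) : N ≤ 2 * D := by
  classical
  by_contra hN
  push Not at hN
  let aKU : Algebra K U := p.toAlgebra
  have hsm : ∀ (c : K) (x : U), c • x = p c * x := fun c x => rfl
  have hch : CharZero U := charZero_of_injective_ringHom p.injective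
  set i0 : k →+* K := g.comp (Pi.constRingHom I k) with hi0
  set q : L →+* U := gL.comp (Pi.constRingHom I L) with hq
  have hpq : ∀ a, p (i0 a) = q (algebraMap k L a) := fun a => hp (fun _ => a)
  have hdis : ∀ (ι : Type) (s : Finset ι) (z : ι → L) (c : ι → K), LinearIndependent k z →
      ∑ m ∈ s, p (c m) * q (z m) = 0 → ∀ m ∈ s, c m = 0 := fun ι s z c hz h =>
    udis 𝒰 g gL p hgs hg hgL hp ι s z c hz h
  have hcomb : ∀ (c0 : K) (c : Fin n → K), p c0 + ∑ j, p (c j) * q (e j) = 0 →
      c0 = 0 ∧ ∀ j, c j = 0 := by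
    intro c0 c h
    have h1 := hdis (Fin (n + 1)) Finset.univ (Fin.cons 1 e : Fin (n + 1) → L)
      (Fin.cons c0 c : Fin (n + 1) → K) he (by
        rw [Fin.sum_univ_succ, ← h]
        simp only [Fin.cons_zero, Fin.cons_succ, map_one, mul_one])
    refine ⟨h1 0 (Finset.mem_univ _), fun j => ?_⟩
    have := h1 j.succ (Finset.mem_univ _)
    rwa [Fin.cons_succ] at this
  set X : Fin 2 × Fin n → K := fun s => g (fun i => A i s) with hX
  have hexp : ∀ a : Fin 2, gL (fun i => ∑ j, A i (a, j) • e j) = ∑ j, p (X (a, j)) * q (e j) := by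
    intro a
    have h1 : (fun i => ∑ j, A i (a, j) • e j) =
        ∑ j, (fun i => algebraMap k L (A i (a, j))) * fun _ => e j := by
      funext i
      rw [Finset.sum_apply]
      refine Finset.sum_congr rfl fun j _ => ?_
      rw [Algebra.smul_def]
      rfl
    rw [h1, map_sum]
    refine Finset.sum_congr rfl fun j _ => ?_
    rw [map_mul, ← hp]
    rfl
  set u : U := gL (fun i => ∑ j, A i (0, j) • e j) with hu
  set v : U := gL (fun i => ∑ j, A i (1, j) • e j) with hv
  have hunc : ∀ c : K, u ≠ p c := by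
    intro c hc
    have h1 := (hcomb (-c) (fun j => X (0, j)) (by
      rw [← hexp 0, ← hu, hc, map_neg, neg_add_cancel])).2
    have h2 : ∀ᶠ i in (𝒰 : Filter I), ∀ j, A i (0, j) = 0 := by
      rw [Filter.eventually_all]
      intro j
      exact (hg _).mp (h1 j)
    obtain ⟨i, hi⟩ := h2.exists
    have h3 := (hrow i 1 0 (by
      intro j
      rw [hi j]; ring)).1
    exact one_ne_zero h3
  obtain ⟨y, -, r, s, hur, hvs, hrd, hsd⟩ := hpar
  have hyt : Transcendental K y := by
    intro hy
    obtain ⟨c, rfl⟩ := exists_const y hy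
    apply hunc (r.eval c)
    rw [hur]
    change aeval (algebraMap K U c) r = algebraMap K U (r.eval c)
    rw [aeval_algebraMap_apply, coe_aeval_eq_eval]
  have hr' : derivative r ≠ 0 := by
    intro h
    apply hunc (r.coeff 0)
    rw [hur, eq_C_of_natDegree_eq_zero (derivative_eq_zero.mp h), aeval_C,
      coeff_C_zero]
    rfl
  choose d hd1 hd2 using fun t => Pool.Agent.TH519.GL.exists_partial i0 (fun t => X (σ t)) hσ t
  choose δ hδ1 hδ2 using fun t => Pool.Agent.TH519.GL.exists_ext_der i0 p q hpq hdis (d t) (hd1 t)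
  have hδe : ∀ (a : Fin 2) t, δ t (∑ j, p (X (a, j)) * q (e j)) =
      ∑ j, p (d t (X (a, j))) * q (e j) := by
    intro a t
    rw [map_sum]
    refine Finset.sum_congr rfl fun j _ => ?_
    rw [(δ t).leibniz, hδ2, hδ1, smul_zero, zero_add, smul_eq_mul, mul_comm]
  have hcomb2 : ∀ (a : Fin 2) (γ : Fin N → K),
      ∑ t, p (γ t) * δ t (∑ j, p (X (a, j)) * q (e j)) =
        ∑ j, p (∑ t, γ t * d t (X (a, j))) * q (e j) := by
    intro a γ
    calc _ = ∑ t, ∑ j, p (γ t * d t (X (a, j))) * q (e j) := by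
          refine Finset.sum_congr rfl fun t _ => ?_
          rw [hδe, Finset.mul_sum]
          refine Finset.sum_congr rfl fun j _ => ?_
          rw [map_mul, mul_assoc]
      _ = _ := by
          rw [Finset.sum_comm]
          refine Finset.sum_congr rfl fun j _ => ?_
          rw [map_sum, Finset.sum_mul]
  have hue : u = ∑ j, p (X (0, j)) * q (e j) := hexp 0
  have hve : v = ∑ j, p (X (1, j)) * q (e j) := hexp 1
  obtain ⟨z, γ, c, c', hz, hli, hzx⟩ := three_of_many D y hyt r s hrd hsd hr' δ
    (fun t c => d t c) (fun t c => hδ1 t c) (by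
      intro γ c c' h1 h2
      rw [← hur] at h1
      rw [← hvs] at h2
      have h1' : ∑ t, p (γ t) * δ t u = p c := h1
      have h2' : ∑ t, p (γ t) * δ t v = p c' := h2
      rw [hue, hcomb2] at h1'
      rw [hve, hcomb2] at h2'
      have k1 := (hcomb (-c) _ (by rw [h1', map_neg, neg_add_cancel])).2
      have k2 := (hcomb (-c') _ (by rw [h2', map_neg, neg_add_cancel])).2
      funext t0
      have k3 : ∀ a : Fin 2, ∀ j, ∑ t, γ t * d t (X (a, j)) = 0 := by
        intro a
        fin_cases a
        · exact k1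
        · exact k2
      have k4 := k3 (σ t0).1 (σ t0).2
      rw [Prod.mk.eta] at k4
      have k5 : ∑ t, γ t * d t (X (σ t0)) = γ t0 := by
        rw [Finset.sum_eq_single t0]
        · have := hd2 t0 t0
          rw [if_pos rfl] at this
          rw [this, mul_one]
        · intro t _ ht
          have := hd2 t t0
          rw [if_neg (Ne.symm ht)] at this
          rw [this, mul_zero]
        · intro h
          exact absurd (Finset.mem_univ _) h
      rw [k5] at k4
      exact k4) hN
  -- lifting to the curve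
  have hliftV : ∀ (c0 : K) (c : Fin n → K), ∃ f : I → L, (∀ i, f i ∈ V) ∧
      gL f = p c0 + ∑ j, p (c j) * q (e j) := by
    intro c0 c
    obtain ⟨a0, rfl⟩ := hgs c0
    choose a ha using fun j => hgs (c j)
    refine ⟨(fun i => algebraMap k L (a0 i)) + ∑ j, (fun i => algebraMap k L (a j i)) * fun _ => e j,
      ?_, ?_⟩
    · intro i
      rw [Pi.add_apply, Finset.sum_apply]
      apply V.add_mem
      · rw [Algebra.algebraMap_eq_smul_one]
        exact V.smul_mem _ h1V
      · refine V.sum_mem fun j _ => ?_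
        change algebraMap k L (a j i) * e j ∈ V
        rw [← Algebra.smul_def]
        exact V.smul_mem _ (heV j)
    · rw [map_add, ← hp, map_sum]
      congr 1
      refine Finset.sum_congr rfl fun j _ => ?_
      rw [map_mul, ← hp, ha]
      rfl
  set x : Fin 3 → U := fun i => ∑ t, p (γ i t) * δ t u - p (c i) with hx
  have hxe : ∀ i, x i = p (-(c i)) + ∑ j, p (∑ t, γ i t * d t (X (0, j))) * q (e j) := by
    intro i
    change ∑ t, p (γ i t) * δ t u - p (c i) = _
    rw [hue, hcomb2, map_neg]
    ring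
  have hli' : LinearIndependent K x := by
    rw [hx, hur]
    exact hli
  have hzx' : ∀ i, z * x i = p (-(c' i)) + ∑ j, p (∑ t, γ i t * d t (X (1, j))) * q (e j) := by
    intro i
    have h1 := hzx i
    rw [← hur, ← hvs] at h1
    have h2 : z * x i = ∑ t, p (γ i t) * δ t v - p (c' i) := h1
    rw [h2, hve, hcomb2, map_neg]
    ring
  choose f hfV hf using fun i => hliftV (-(c i)) (fun j => ∑ t, γ i t * d t (X (0, j)))
  choose f' hf'V hf' using fun i => hliftV (-(c' i)) (fun j => ∑ t, γ i t * d t (X (1, j)))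
  have hfx : ∀ i, gL (f i) = x i := fun i => by rw [hf, hxe]
  have hfx' : ∀ i, gL (f' i) = z * x i := fun i => by rw [hf', hzx']
  -- the three properties
  have hA : ∀ᶠ i in (𝒰 : Filter I), ∀ j, f 0 i * f' j i = f j i * f' 0 i := by
    rw [Filter.eventually_all]
    intro j
    have h1 : gL (f 0 * f' j - f j * f' 0) = 0 := by
      rw [map_sub, map_mul, map_mul, hfx, hfx, hfx', hfx']
      ring
    rw [hgL] at h1
    exact h1.mono fun i hi => sub_eq_zero.mp hi
  have hB : ∀ᶠ i in (𝒰 : Filter I), LinearIndependent k (fun j => f j i) := by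
    by_contra hcon
    rw [← Ultrafilter.eventually_not] at hcon
    have hex : ∀ i, ∃ ε : Fin 3 → k, ¬ LinearIndependent k (fun j => f j i) →
        ∑ j, ε j • f j i = 0 ∧ ∃ j, ε j ≠ 0 := by
      intro i
      by_cases h : LinearIndependent k (fun j => f j i)
      · exact ⟨0, fun h' => absurd h h'⟩
      · obtain ⟨ε, h1, h2⟩ := Fintype.not_linearIndependent_iff.mp h
        exact ⟨ε, fun _ => ⟨h1, h2⟩⟩
    choose ε hε using hex
    have h1 : ∑ j, p (g (fun i => ε i j)) * x j = 0 := by
      have h2 : gL (∑ j, (fun i => algebraMap k L (ε i j)) * f j) = 0 := by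
        rw [hgL]
        refine hcon.mono fun i hi => ?_
        rw [Finset.sum_apply, ← (hε i hi).1]
        refine Finset.sum_congr rfl fun j _ => ?_
        rw [Algebra.smul_def]
        rfl
      rw [map_sum] at h2
      rw [← h2]
      refine Finset.sum_congr rfl fun j _ => ?_
      rw [map_mul, hfx, hp]
    have h3 := Fintype.linearIndependent_iff.mp hli' (fun j => g (fun i => ε i j)) h1
    have h4 : ∀ᶠ i in (𝒰 : Filter I), ∀ j, ε i j = 0 := by
      rw [Filter.eventually_all]
      intro j
      exact (hg _).mp (h3 j)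
    obtain ⟨i, hi1, hi2⟩ := (h4.and hcon).exists
    obtain ⟨j, hj⟩ := (hε i hi2).2
    exact hj (hi1 j)
  have hC : ∀ᶠ i in (𝒰 : Filter I), ¬ ∃ a : k, f' 0 i = a • f 0 i := by
    rw [Ultrafilter.eventually_not]
    intro hcon
    have hex : ∀ i, ∃ a : k, (∃ a : k, f' 0 i = a • f 0 i) → f' 0 i = a • f 0 i := by
      intro i
      by_cases h : ∃ a : k, f' 0 i = a • f 0 i
      · obtain ⟨a, ha⟩ := h
        exact ⟨a, fun _ => ha⟩
      · exact ⟨0, fun h' => absurd h' h⟩
    choose a ha using hex
    have h1 : z * x 0 = p (g a) * x 0 := by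
      have h2 : gL (f' 0 - (fun i => algebraMap k L (a i)) * f 0) = 0 := by
        rw [hgL]
        refine hcon.mono fun i hi => ?_
        change f' 0 i - algebraMap k L (a i) * f 0 i = 0
        rw [ha i hi, Algebra.smul_def, sub_self]
      rw [map_sub, map_mul, hfx', hfx, ← hp, sub_eq_zero] at h2
      exact h2
    have h2 : z = p (g a) := mul_right_cancel₀ (hli'.ne_zero 0) h1
    rw [h2] at hz
    have h3 : derivative (s - C (g a) * r) = 0 := by
      apply transcendental_iff_injective.1 hyt
      rw [map_zero, derivative_sub, derivative_C_mul, map_sub, map_mul, aeval_C, ← hz]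
      exact sub_self _
    have h4 := eq_C_of_natDegree_eq_zero (derivative_eq_zero.mp h3)
    set c1 := (s - C (g a) * r).coeff 0 with hc1
    have h5 : v - p (g a) * u = p c1 := by
      have h6 := congrArg (aeval y) h4
      rw [map_sub, map_mul, aeval_C, aeval_C, ← hur, ← hvs] at h6
      exact h6
    have h6 := (hcomb (-c1) (fun j => X (1, j) - g a * X (0, j)) (by
      have h7 : ∑ j, p (X (1, j) - g a * X (0, j)) * q (e j) = v - p (g a) * u := by
        rw [hue, hve, Finset.mul_sum, ← Finset.sum_sub_distrib]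
        refine Finset.sum_congr rfl fun j _ => ?_
        rw [map_sub, map_mul]
        ring
      rw [h7, h5, map_neg, neg_add_cancel])).2
    have h7 : ∀ᶠ i in (𝒰 : Filter I), ∀ j, A i (1, j) - a i * A i (0, j) = 0 := by
      rw [Filter.eventually_all]
      intro j
      have h8 : g ((fun i => A i (1, j)) - a * fun i => A i (0, j)) = 0 := by
        rw [map_sub, map_mul]
        exact h6 j
      exact (hg _).mp h8
    obtain ⟨i, hi⟩ := h7.exists
    have h8 := (hrow i (-(a i)) 1 (by
      intro j
      rw [← hi j]; ring)).2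
    exact one_ne_zero h8
  obtain ⟨i, ⟨hAi, hBi⟩, hCi⟩ := ((hA.and hB).and hC).exists
  have hf0 : f 0 i ≠ 0 := hBi.ne_zero 0
  refine h6 (f' 0 i / f 0 i) ?_ (fun j => f j i) hBi (fun j => hfV j i) ?_
  · intro a ha
    apply hCi
    refine ⟨a, ?_⟩
    rw [div_eq_iff hf0] at ha
    rw [ha, Algebra.smul_def]
  · intro j
    have h1 : f' 0 i / f 0 i * f j i = f' j i := by
      rw [div_mul_eq_mul_div, div_eq_iff hf0, mul_comm (f' 0 i), ← hAi j]
      ring
    rw [h1]
    exact hf'V j i

end Run7.h577
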