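import Pool.Agent.W256.Curve2
import Pool.Agent.Run7.h577.T2

/-!
# The rings of functions which are regular at finite distance or at infinity
-/

set_option autoImplicit false

namespace Run7.h577

open Module Polynomial IntermediateField Pool.Agent.W256

variable {K L : Type*} [Field K] [Field L] [Algebra K L]

/-- elements of `L` integral over `K[y]` -/
noncomputable def OI (K : Type*) {L : Type*} [Field K] [Field L] [Algebra K L] (y : L) :
    Subalgebra K L where
  carrier := {f | (ev K y).IsIntegralElem f}
  mul_mem' := fun ha hb => RingHom.IsIntegralElem.mul _ ha hb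
  add_mem' := fun ha hb => RingHom.IsIntegralElem.add _ ha hb
  algebraMap_mem' := fun c => by
    have := (ev K y).isIntegralElem_map (x := C c)
    have h2 : ev K y (C c) = algebraMap K L c := aeval_C y c
    rwa [h2] at this

theorem mem_OI {y f : L} : f ∈ OI K y ↔ (ev K y).IsIntegralElem f := Iff.rfl

theorem OI_self (y : L) : y ∈ OI K y := by
  have := (ev K y).isIntegralElem_map (x := X)
  have h2 : ev K y X = y := aeval_X y
  rw [mem_OI]
  rwa [h2] at this

theorem OI_aeval (y : L) (p : K[X]) : aeval y p ∈ OI K y :=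
  (ev K y).isIntegralElem_map (x := p)

/-- an element integral over the ring of elements which are regular at finite distance is regular
at finite distance -/
theorem OI_trans {y f : L} (h : IsIntegral (OI K y) f) : f ∈ OI K y :=
  isIntegralElem_trans (ev K y) (algebraMap (OI K y) L) (fun a => a.2) f h

/-- **Clearing poles.** -/
theorem OI_pow (x : L) (hx : x ≠ 0) (f : L) (hf : f ∈ OI K x) :
    ∃ N : ℕ, ∀ M, N ≤ M → x⁻¹ ^ M * f ∈ OI K x⁻¹ := by
  obtain ⟨p, hp, hpf⟩ := mem_OI.mp hf
  set n := p.natDegree with hn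
  refine ⟨(Finset.range (n + 1)).sup (fun i => (p.coeff i).natDegree), ?_⟩
  intro M hM
  have hdeg : ∀ i ∈ Finset.range n, (p.coeff i).natDegree ≤ M * (n - i) := by
    intro i hi
    have hi' := Finset.mem_range.mp hi
    have h1 : (p.coeff i).natDegree ≤ M :=
      (Finset.le_sup (f := fun i => (p.coeff i).natDegree)
        (Finset.mem_range.mpr (by omega))).trans hM
    calc (p.coeff i).natDegree ≤ M * 1 := by rw [mul_one]; exact h1
      _ ≤ M * (n - i) := Nat.mul_le_mul_left M (by omega)
  let _ : Invertible x := invertibleOfNonzero hx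
  have hrefl : ∀ (N : ℕ) (q : K[X]), q.natDegree ≤ N →
      ev K x⁻¹ (reflect N q) = x⁻¹ ^ N * ev K x q := by
    intro N q hq
    have h1 := eval₂_reflect_mul_pow (algebraMap K L) x N q hq
    rw [invOf_eq_inv] at h1
    change aeval x⁻¹ (reflect N q) = x⁻¹ ^ N * aeval x q
    rw [aeval_def, aeval_def, ← h1]
    have e1 : x⁻¹ ^ N * x ^ N = 1 := by rw [← mul_pow, inv_mul_cancel₀ hx, one_pow]
    calc _ = eval₂ (algebraMap K L) x⁻¹ (reflect N q) * (x⁻¹ ^ N * x ^ N) := by
          rw [e1, mul_one]
      _ = _ := by ring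
  refine ⟨X ^ n + ∑ i ∈ Finset.range n, C (reflect (M * (n - i)) (p.coeff i)) * X ^ i, ?_, ?_⟩
  · apply monic_X_pow_add
    refine lt_of_le_of_lt (degree_sum_le _ _) ?_
    rw [Finset.sup_lt_iff (by exact_mod_cast WithBot.bot_lt_coe n)]
    intro i hi
    refine lt_of_le_of_lt (degree_C_mul_X_pow_le _ _) ?_
    exact_mod_cast Finset.mem_range.mp hi
  · have h2 : eval₂ (ev K x) f p = f ^ n + ∑ i ∈ Finset.range n, ev K x (p.coeff i) * f ^ i := by
      rw [eval₂_eq_sum_range, Finset.sum_range_succ, ← hn, hn, hp.coeff_natDegree, map_one,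
        one_mul, add_comm]
    rw [h2] at hpf
    rw [eval₂_add, eval₂_X_pow, eval₂_finsetSum]
    have h3 : ∀ i ∈ Finset.range n, eval₂ (ev K x⁻¹) (x⁻¹ ^ M * f)
        (C (reflect (M * (n - i)) (p.coeff i)) * X ^ i) =
        x⁻¹ ^ (M * n) * (ev K x (p.coeff i) * f ^ i) := by
      intro i hi
      rw [eval₂_mul, eval₂_C, eval₂_X_pow, hrefl _ _ (hdeg i hi), mul_pow, ← pow_mul]
      have h4 : M * n = M * (n - i) + M * i := by
        rw [← Nat.mul_add]
        congr 1
        have := Finset.mem_range.mp hi
        omega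
      rw [h4, pow_add]
      ring
    rw [Finset.sum_congr rfl h3, ← Finset.mul_sum, mul_pow, ← pow_mul, ← mul_add, hpf, mul_zero]

/-- **Liouville.** Functions regular everywhere are algebraic over the constants. -/
theorem OI_inter (x : L) (hx : Transcendental K x) (f : L) (h1 : f ∈ OI K x)
    (h2 : f ∈ OI K x⁻¹) : IsAlgebraic K f := by
  classical
  set E := K⟮x⟯ with hE
  set x' : E := AdjoinSimple.gen K x with hx'
  have hxx : algebraMap E L x' = x := AdjoinSimple.algebraMap_gen K x
  have hcomp : (algebraMap E L).comp (ev K x') = ev K x := by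
    apply RingHom.ext
    intro p
    change algebraMap E L (aeval x' p) = aeval x p
    rw [← hxx, aeval_algebraMap_apply]
  have hcomp' : (algebraMap E L).comp (ev K x'⁻¹) = ev K x⁻¹ := by
    apply RingHom.ext
    intro p
    change algebraMap E L (aeval x'⁻¹ p) = aeval x⁻¹ p
    rw [← hxx, ← map_inv₀, aeval_algebraMap_apply]
  have hint : IsIntegral E f := by
    have h3 := mem_OI.mp h1
    rw [← hcomp] at h3
    obtain ⟨p, hp, hx⟩ := h3
    exact ⟨p.map _, hp.map _, by rw [eval₂_map]; exact hx⟩
  have hc : ∀ i, ∃ a : K, algebraMap E L ((minpoly E f).coeff i) = algebraMap K L a := by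
    intro i
    have c1 : (ev K x).IsIntegralElem (algebraMap E L ((minpoly E f).coeff i)) := by
      rw [← hcomp]
      apply RingHom.IsIntegralElem.map
      apply coeff_minpoly_integral
      rw [hcomp]; exact h1
    have c2 : (ev K x⁻¹).IsIntegralElem (algebraMap E L ((minpoly E f).coeff i)) := by
      rw [← hcomp']
      apply RingHom.IsIntegralElem.map
      apply coeff_minpoly_integral
      rw [hcomp']; exact h2
    obtain ⟨p, hp, hpc⟩ := exists_poly_bounded x hx _ ((minpoly E f).coeff i).2 c1 0
      (by rw [pow_zero, mul_one]; exact c2)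
    refine ⟨p.coeff 0, ?_⟩
    have h3 : p = C (p.coeff 0) := eq_C_of_natDegree_le_zero hp
    rw [show algebraMap E L ((minpoly E f).coeff i) = aeval x p from hpc, h3, aeval_C]
    simp
  choose a ha using hc
  set n := (minpoly E f).natDegree with hn
  refine ⟨∑ i ∈ Finset.range (n + 1), C (a i) * X ^ i, ?_, ?_⟩
  · intro h0
    have h3 := congrArg (fun q => coeff q n) h0
    simp only [finsetSum_coeff, coeff_C_mul, coeff_X_pow, mul_ite, mul_one, mul_zero,
      Finset.sum_ite_eq, Finset.mem_range, Nat.lt_succ_self, if_true, coeff_zero] at h3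
    have h4 := ha n
    rw [hn, (minpoly.monic hint).coeff_natDegree, map_one, ← hn, h3, map_zero] at h4
    exact one_ne_zero h4
  · have h3 : aeval f (minpoly E f) = 0 := minpoly.aeval E f
    rw [aeval_eq_sum_range, ← hn] at h3
    rw [map_sum, ← h3]
    refine Finset.sum_congr rfl fun i _ => ?_
    rw [map_mul, aeval_C, map_pow, aeval_X, ← ha i, Algebra.smul_def]

end Run7.h577
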