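import Pool.Agent.Run7.h577.T3

/-!
# Regularity of the product of a differential and a derivation
-/

set_option autoImplicit false

namespace Run7.h577

open Module Polynomial IntermediateField Pool.Agent.W256

variable {K L : Type*} [Field K] [Field L] [Algebra K L]

theorem isFrac (E : IntermediateField K L) (y : E) (hy : K⟮(y : L)⟯ = E)
    (ht : Transcendental K (y : L)) : @IsFractionRing K[X] _ E _ (ev K y).toAlgebra := by
  let aE : Algebra K[X] E := (ev K y).toAlgebra
  have hty : Transcendental K y := by
    intro h
    exact ht (h.algebraMap (A := L))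
  have : FaithfulSMul K[X] E := by
    rw [faithfulSMul_iff_algebraMap_injective]
    exact ev_injective hty
  apply IsFractionRing.of_field
  intro z
  have hz : (z : L) ∈ K⟮(y : L)⟯ := by rw [hy]; exact z.2
  obtain ⟨p, q, hpq⟩ := (mem_adjoin_simple_iff K (z : L)).1 hz
  refine ⟨p, q, ?_⟩
  apply Subtype.ext
  rw [hpq]
  change _ = ((aeval y p / aeval y q : E) : L)
  have h1 : ∀ r : K[X], ((aeval y r : E) : L) = aeval (y : L) r := fun r =>
    (aeval_algebraMap_apply L y r).symm
  push_cast
  rw [h1, h1]

theorem exists_linear [IsAlgClosed K] (Q : Ideal K[X]) [hQ : Q.IsPrime] (hQ0 : Q ≠ ⊥) :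
    ∃ c : K, X - C c ∈ Q := by
  obtain ⟨q, hq, hq0⟩ := Submodule.exists_mem_ne_zero_of_ne_bot hQ0
  obtain ⟨n, hn⟩ : ∃ n, q.natDegree = n := ⟨_, rfl⟩
  induction n using Nat.strong_induction_on generalizing q with
  | _ n ih =>
    by_cases hd : q.degree = 0
    · exfalso
      rw [eq_C_of_degree_eq_zero hd] at hq hq0
      apply hQ.ne_top
      apply Ideal.eq_top_of_isUnit_mem _ hq
      rw [isUnit_C, isUnit_iff_ne_zero]
      intro h
      apply hq0
      rw [h, C_0]
    · obtain ⟨c, hc⟩ := IsAlgClosed.exists_root q hd
      obtain ⟨r, hr⟩ := dvd_iff_isRoot.mpr hc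
      rw [hr] at hq
      rcases hQ.mem_or_mem hq with h | h
      · exact ⟨c, h⟩
      · have hr0 : r ≠ 0 := by
          rintro rfl
          rw [mul_zero] at hr
          exact hq0 hr
        refine ih r.natDegree ?_ r h hr0 rfl
        rw [← hn, hr, natDegree_mul (X_sub_C_ne_zero c) hr0, natDegree_X_sub_C]
        omega

/-- **Regularity at finite distance.** -/
theorem finite_regular [IsAlgClosed K] [CharZero K] (E : IntermediateField K L)
    [FiniteDimensional E L] (y : E) (hy : K⟮(y : L)⟯ = E) (ht : Transcendental K (y : L))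
    {M : Type*} [Field M] [Algebra L M] (O₁ : Subring M) (η : Derivation ℤ L M)
    (hK : ∀ c : K, η (algebraMap K L c) = 0)
    (hC : ∀ f ∈ OI K (y : L), algebraMap L M f ∈ O₁) (hη : ∀ f ∈ OI K (y : L), η f ∈ O₁)
    (h : L) (hh : ∀ g ∈ OI K (y : L), ∃ r : K[X], aeval y r = Algebra.trace E L (h * g)) :
    algebraMap L M h * η (y : L) ∈ O₁ := by
  let aE : Algebra K[X] E := (ev K y).toAlgebra
  let aL : Algebra K[X] L := (ev K (y : L)).toAlgebra
  have htow : IsScalarTower K[X] E L :=
    IsScalarTower.of_algebraMap_eq fun p => aeval_algebraMap_apply L y p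
  have hfrac : IsFractionRing K[X] E := isFrac E y hy ht
  have hdd : IsDedekindDomain (integralClosure K[X] L) := integralClosure.isDedekindDomain K[X] E L
  have hfrac' : IsFractionRing (integralClosure K[X] L) L :=
    IsIntegralClosure.isFractionRing_of_finite_extension K[X] E L _
  have hinjKL : Function.Injective (algebraMap K[X] L) := ev_injective ht
  have hinjKC : Function.Injective (algebraMap K[X] (integralClosure K[X] L)) := by
    intro a b hab
    exact hinjKL (congrArg Subtype.val hab)
  let I : Ideal (integralClosure K[X] L) :=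
    { carrier := {s | algebraMap L M ((s : L) * h) * η (y : L) ∈ O₁}
      add_mem' := by
        intro a b ha hb
        change algebraMap L M (((a : L) + b) * h) * η (y : L) ∈ O₁
        rw [add_mul, map_add, add_mul]
        exact O₁.add_mem ha hb
      zero_mem' := by
        change algebraMap L M ((0 : L) * h) * η (y : L) ∈ O₁
        rw [zero_mul, map_zero, zero_mul]
        exact O₁.zero_mem
      smul_mem' := by
        intro c a ha
        change algebraMap L M (((c : L) * a) * h) * η (y : L) ∈ O₁
        rw [mul_assoc (c : L), map_mul, mul_assoc]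
        exact O₁.mul_mem (hC _ c.2) ha }
  have hI : I = ⊤ := by
    by_contra hI
    obtain ⟨P, hPm, hIP⟩ := Ideal.exists_le_maximal I hI
    have hQ0 : P.comap (algebraMap K[X] (integralClosure K[X] L)) ≠ ⊥ := by
      have hm := Ideal.isMaximal_comap_of_isIntegral_of_isMaximal (R := K[X]) P
      intro h0
      rw [h0] at hm
      exact Polynomial.not_isField K (Ring.isField_iff_maximal_bot.mpr hm)
    have hPp := hPm.isPrime
    obtain ⟨c, hc⟩ := exists_linear (P.comap (algebraMap K[X] (integralClosure K[X] L))) hQ0
    have hcP : algebraMap K[X] (integralClosure K[X] L) (X - C c) ∈ P := hc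
    have hc0 : algebraMap K[X] (integralClosure K[X] L) (X - C c) ≠ 0 := by
      rw [Ne, map_eq_zero_iff _ hinjKC]
      exact X_sub_C_ne_zero c
    have hP0 : P ≠ ⊥ := by
      rintro rfl
      exact hc0 hcP
    obtain ⟨s, hs, hs2⟩ := local_finite (R := K[X]) E O₁ η (C := integralClosure K[X] L)
      (fun f => hC _ f.2) (fun f => hη _ f.2)
      (X - C c) (irreducible_X_sub_C c) P hcP hP0 hc0 h (fun g => hh _ g.2)
    apply hs
    apply hIP
    change algebraMap L M ((s : L) * h) * η (y : L) ∈ O₁
    have e1 : η (algebraMap (integralClosure K[X] L) L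
        (algebraMap K[X] (integralClosure K[X] L) (X - C c))) = η (y : L) := by
      have e2 : algebraMap (integralClosure K[X] L) L
        (algebraMap K[X] (integralClosure K[X] L) (X - C c)) = (y : L) - algebraMap K L c := by
        change aeval (y : L) (X - C c) = _
        rw [map_sub, aeval_X, aeval_C]
      rw [e2, map_sub, hK, sub_zero]
    rw [e1] at hs2
    exact hs2
  have h1 : (1 : integralClosure K[X] L) ∈ I := by rw [hI]; trivial
  have h2 : algebraMap L M (((1 : integralClosure K[X] L) : L) * h) * η (y : L) ∈ O₁ := h1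
  rwa [OneMemClass.coe_one, one_mul] at h2

/-- `j` is in the radical of the ideal generated by `z` in the ring of elements integral over
`K[z]` -/
def Rad (K : Type*) {L : Type*} [Field K] [Field L] [Algebra K L] (z j : L) : Prop :=
  j ∈ OI K z ∧ ∃ N : ℕ, ∃ g ∈ OI K z, j ^ N = z * g

/-- **Regularity at infinity.** -/
theorem infinite_regular [CharZero K] (E : IntermediateField K L)
    [FiniteDimensional E L] (z : E) (hz : K⟮(z : L)⟯ = E) (ht : Transcendental K (z : L))
    {M : Type*} [Field M] [Algebra L M] (O₁ : Subring M)
    (hC : ∀ f ∈ OI K (z : L), algebraMap L M f ∈ O₁) (y : L)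
    (hy : ∀ j : L, Rad K (z : L) j → ∃ r : K[X], aeval z (X * r) = Algebra.trace E L (y * j))
    (a : M) (ha : a ∈ O₁) (N : ℕ)
    (hN : algebraMap L M (z : L) ^ N * (algebraMap L M y * a) ∈ O₁) :
    algebraMap L M y * a ∈ O₁ := by
  let aE : Algebra K[X] E := (ev K z).toAlgebra
  let aL : Algebra K[X] L := (ev K (z : L)).toAlgebra
  have htow : IsScalarTower K[X] E L :=
    IsScalarTower.of_algebraMap_eq fun p => aeval_algebraMap_apply L z p
  have hfrac : IsFractionRing K[X] E := isFrac E z hz ht
  have hdd : IsDedekindDomain (integralClosure K[X] L) := integralClosure.isDedekindDomain K[X] E L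
  have hfrac' : IsFractionRing (integralClosure K[X] L) L :=
    IsIntegralClosure.isFractionRing_of_finite_extension K[X] E L _
  have hinjKL : Function.Injective (algebraMap K[X] L) := ev_injective ht
  have hinjKC : Function.Injective (algebraMap K[X] (integralClosure K[X] L)) := by
    intro a b hab
    exact hinjKL (congrArg Subtype.val hab)
  let I : Ideal (integralClosure K[X] L) :=
    { carrier := {s | algebraMap L M (s : L) * (algebraMap L M y * a) ∈ O₁}
      add_mem' := by
        intro b c hb hc
        change algebraMap L M ((b : L) + c) * (algebraMap L M y * a) ∈ O₁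
        rw [map_add, add_mul]
        exact O₁.add_mem hb hc
      zero_mem' := by
        change algebraMap L M (0 : L) * (algebraMap L M y * a) ∈ O₁
        rw [map_zero, zero_mul]
        exact O₁.zero_mem
      smul_mem' := by
        intro c b hb
        change algebraMap L M ((c : L) * b) * (algebraMap L M y * a) ∈ O₁
        rw [map_mul, mul_assoc]
        exact O₁.mul_mem (hC _ c.2) hb }
  have hzC : ((algebraMap K[X] (integralClosure K[X] L) X : integralClosure K[X] L) : L) =
      (z : L) := by
    change aeval (z : L) X = _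
    rw [aeval_X]
  have hI : I = ⊤ := by
    by_contra hI
    obtain ⟨P, hPm, hIP⟩ := Ideal.exists_le_maximal I hI
    have hPp := hPm.isPrime
    have hzP : algebraMap K[X] (integralClosure K[X] L) X ∈ P := by
      apply hPp.mem_of_pow_mem N
      apply hIP
      change algebraMap L M (((algebraMap K[X] (integralClosure K[X] L) X) ^ N :
        integralClosure K[X] L) : L) * (algebraMap L M y * a) ∈ O₁
      rw [SubmonoidClass.coe_pow, hzC, map_pow]
      exact hN
    have hz0 : algebraMap K[X] (integralClosure K[X] L) X ≠ 0 := by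
      rw [Ne, map_eq_zero_iff _ hinjKC]
      exact X_ne_zero
    have hP0 : P ≠ ⊥ := by
      rintro rfl
      exact hz0 hzP
    obtain ⟨s, hs, f, hf⟩ := local_infinite (R := K[X]) E (C := integralClosure K[X] L)
      X irreducible_X P hzP hP0 hz0 y (by
        rintro j ⟨N, hN⟩
        obtain ⟨g, hg⟩ := Ideal.mem_span_singleton.mp hN
        refine hy _ ⟨j.2, N, g, g.2, ?_⟩
        have h1 : ((j ^ N : integralClosure K[X] L) : L) =
            ((algebraMap K[X] (integralClosure K[X] L) X * g : integralClosure K[X] L) : L) :=
          congrArg Subtype.val hg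
        rw [SubmonoidClass.coe_pow, MulMemClass.coe_mul, hzC] at h1
        exact h1)
    apply hs
    apply hIP
    change algebraMap L M (s : L) * (algebraMap L M y * a) ∈ O₁
    rw [← mul_assoc, ← map_mul]
    have h1 : (s : L) * y = f := hf
    rw [h1]
    exact O₁.mul_mem (hC _ f.2) ha
  have h1 : (1 : integralClosure K[X] L) ∈ I := by rw [hI]; trivial
  have h2 : algebraMap L M ((1 : integralClosure K[X] L) : L) * (algebraMap L M y * a) ∈ O₁ := h1
  rwa [OneMemClass.coe_one, map_one, one_mul] at h2

end Run7.h577
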