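import Pool.Agent.Run7.h577.T4

/-!
# Differentials from functionals
-/

set_option autoImplicit false

namespace Run7.h577

open Module Polynomial IntermediateField Pool.Agent.W256

variable {K L : Type*} [Field K] [Field L] [Algebra K L]

theorem Rad.mul {z j f : L} (h : Rad K z j) (hf : f ∈ OI K z) : Rad K z (f * j) := by
  obtain ⟨h1, N, g, hg, hN⟩ := h
  refine ⟨(OI K z).mul_mem hf h1, N, f ^ N * g, (OI K z).mul_mem ((OI K z).pow_mem hf N) hg, ?_⟩
  rw [mul_pow, hN]
  ring

theorem Rad.of_mul {z f : L} (hf : f ∈ OI K z) : Rad K z (z * f) :=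
  ⟨(OI K z).mul_mem (OI_self z) hf, 1, f, hf, by rw [pow_one]⟩

/-- **Existence of differentials.** -/
theorem exists_form [CharZero K] (x : L) (hx : Transcendental K x) [FiniteDimensional K⟮x⟯ L]
    (lam : L →ₗ[K] K) (h1 : ∀ f ∈ OI K x, lam f = 0) (h2 : ∀ j, Rad K x⁻¹ j → lam j = 0)
    (f₀ : L) (N₀ : ℕ) (hf₀ : x ^ N₀ * f₀ ∈ OI K x) (hne : lam f₀ ≠ 0) :
    ∃ h : L, h ≠ 0 ∧
      (∀ f ∈ OI K x, ∃ r : K[X], aeval (AdjoinSimple.gen K x) r =
        Algebra.trace K⟮x⟯ L (h * f)) ∧
      ∀ j : L, Rad K x⁻¹ j → ∃ r : K[X], aeval (AdjoinSimple.gen K x)⁻¹ (X ^ 2 * r) =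
        Algebra.trace K⟮x⟯ L (h * j) := by
  classical
  set E := K⟮x⟯ with hE
  set g : E := AdjoinSimple.gen K x with hg
  have hgx : (g : L) = x := AdjoinSimple.algebraMap_gen K x
  have hx0 : x ≠ 0 := by
    rintro rfl
    exact hx isAlgebraic_zero
  have hg0 : g ≠ 0 := by
    intro h
    apply hx0
    rw [← hgx, h]
    rfl
  have hxi : x⁻¹ * x = 1 := inv_mul_cancel₀ hx0
  let aE : Algebra K[X] E := (ev K g).toAlgebra
  let aL : Algebra K[X] L := (ev K (g : L)).toAlgebra
  have htow : IsScalarTower K[X] E L :=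
    IsScalarTower.of_algebraMap_eq fun p => aeval_algebraMap_apply L g p
  have hfrac : IsFractionRing K[X] E := isFrac E g (by rw [hgx]) (by rw [hgx]; exact hx)
  have hinjKE : Function.Injective (algebraMap K[X] E) := IsFractionRing.injective K[X] E
  have hinjKL : Function.Injective (algebraMap K[X] L) := by
    rw [IsScalarTower.algebraMap_eq K[X] E L]
    exact (algebraMap E L).injective.comp hinjKE
  have htor : IsTorsionFree K[X] L := by
    have : FaithfulSMul K[X] L := (faithfulSMul_iff_algebraMap_injective _ _).mpr hinjKL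
    infer_instance
  have hfree : Module.Free K[X] (integralClosure K[X] L) :=
    IsIntegralClosure.module_free K[X] E L _
  have hfin : Module.Finite K[X] (integralClosure K[X] L) := IsIntegralClosure.finite K[X] E L _
  have hloc : IsLocalization (Algebra.algebraMapSubmonoid (integralClosure K[X] L)
      (nonZeroDivisors K[X])) L := IsIntegralClosure.isLocalization K[X] E L _
  have hmem : ∀ f : integralClosure K[X] L, (f : L) ∈ OI K x := by
    intro f
    have := f.2
    rw [← hgx]
    exact this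
  have hmem' : ∀ f ∈ OI K x, f ∈ integralClosure K[X] L := by
    intro f hf
    rw [← hgx] at hf
    exact hf
  -- the coefficients
  have hbd : ∀ f : integralClosure K[X] L, ∃ N : ℕ, ∀ k, N ≤ k →
      lam (x⁻¹ ^ (k + 1) * (f : L)) = 0 := by
    intro f
    obtain ⟨N, hN⟩ := OI_pow x hx0 f (hmem f)
    refine ⟨N, fun k hk => h2 _ ?_⟩
    rw [pow_succ', mul_assoc]
    exact Rad.of_mul (hN k hk)
  choose N hN using hbd
  let p : integralClosure K[X] L → K[X] := fun f =>
    ∑ k ∈ Finset.range (N f), C (lam (x⁻¹ ^ (k + 1) * (f : L))) * X ^ k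
  have hp : ∀ f k, (p f).coeff k = lam (x⁻¹ ^ (k + 1) * (f : L)) := by
    intro f k
    simp only [p, finsetSum_coeff, coeff_C_mul, coeff_X_pow, mul_ite, mul_one, mul_zero,
      Finset.sum_ite_eq, Finset.mem_range]
    split_ifs with h
    · rfl
    · exact (hN f k (not_lt.mp h)).symm
  have hpadd : ∀ f f', p (f + f') = p f + p f' := by
    intro f f'
    ext k
    rw [coeff_add, hp, hp, hp, ← map_add]
    congr 1
    push_cast
    ring
  have hpC : ∀ (c : K) f, p (C c • f) = C c * p f := by
    intro c f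
    ext k
    have e1 : ((C c • f : integralClosure K[X] L) : L) = algebraMap K L c * f := by
      rw [Algebra.smul_def]
      change aeval (g : L) (C c) * (f : L) = _
      rw [aeval_C]
    have e2 : x⁻¹ ^ (k + 1) * ((C c • f : integralClosure K[X] L) : L) =
        c • (x⁻¹ ^ (k + 1) * (f : L)) := by
      rw [e1, Algebra.smul_def]
      ring
    rw [coeff_C_mul, hp, hp, e2, map_smul, smul_eq_mul]
  have hpX : ∀ f, p ((X : K[X]) • f) = X * p f := by
    intro f
    have e1 : (((X : K[X]) • f : integralClosure K[X] L) : L) = x * f := by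
      rw [Algebra.smul_def]
      change aeval (g : L) X * (f : L) = _
      rw [aeval_X, hgx]
    ext k
    rcases k with _ | k
    · rw [coeff_X_mul_zero, hp, e1, zero_add, pow_one, ← mul_assoc, hxi, one_mul]
      exact h1 _ (hmem f)
    · rw [coeff_X_mul, hp, hp, e1]
      congr 1
      rw [pow_succ x⁻¹ (k + 1), mul_assoc, ← mul_assoc x⁻¹ x, hxi, one_mul]
  have hpsmul : ∀ (q : K[X]) f, p (q • f) = q * p f := by
    intro q
    induction q using Polynomial.induction_on' with
    | add q r hq hr => intro f; rw [add_smul, hpadd, hq, hr, add_mul]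
    | monomial n c =>
      induction n with
      | zero => intro f; rw [monomial_zero_left]; exact hpC c f
      | succ n ih =>
        intro f
        have e2 : (monomial (n + 1) c : K[X]) = X * monomial n c := by
          rw [X_mul, monomial_mul_X]
        rw [e2, mul_smul, hpX, ih, mul_assoc]
  let pl : integralClosure K[X] L →ₗ[K[X]] K[X] :=
    { toFun := p, map_add' := hpadd, map_smul' := hpsmul }
  -- the functional on `L`
  let b := Module.Free.chooseBasis K[X] (integralClosure K[X] L)
  let b' := Basis.localizationLocalization E (nonZeroDivisors K[X]) L b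
  let φ : L →ₗ[E] E := b'.constr E (fun i => algebraMap K[X] E (p (b i)))
  have hφ : ∀ f : integralClosure K[X] L, φ (f : L) = algebraMap K[X] E (p f) := by
    intro f
    have e1 : (φ.restrictScalars K[X]).comp (Algebra.linearMap (integralClosure K[X] L) L
        |>.restrictScalars K[X]) = (Algebra.linearMap K[X] E).comp pl := by
      apply b.ext
      intro i
      change φ (algebraMap (integralClosure K[X] L) L (b i)) = algebraMap K[X] E (p (b i))
      rw [← Basis.localizationLocalization_apply E (nonZeroDivisors K[X]) L b i,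
        Basis.constr_basis]
    exact LinearMap.congr_fun e1 f
  let h : L := ((Algebra.traceForm E L).toDual (traceForm_nondegenerate E L)).symm φ
  have hh : ∀ f : L, Algebra.trace E L (h * f) = φ f := by
    intro f
    have := LinearMap.BilinForm.apply_toDual_symm_apply
      (hB := traceForm_nondegenerate E L) φ f
    rw [Algebra.traceForm_apply] at this
    exact this
  refine ⟨h, ?_, ?_, ?_⟩
  · intro h0
    have hf1 : x ^ (N₀ + 1) * f₀ ∈ OI K x := by
      rw [pow_succ', mul_assoc]
      exact (OI K x).mul_mem (OI_self x) hf₀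
    let f : integralClosure K[X] L := ⟨_, hmem' _ hf1⟩
    have e1 := hh f
    rw [h0, zero_mul, map_zero, hφ] at e1
    have e2 : p f = 0 := (map_eq_zero_iff _ hinjKE).mp e1.symm
    have e3 := hp f N₀
    rw [e2, coeff_zero] at e3
    apply hne
    rw [e3]
    congr 1
    change f₀ = x⁻¹ ^ (N₀ + 1) * (x ^ (N₀ + 1) * f₀)
    rw [← mul_assoc, ← mul_pow, hxi, one_pow, one_mul]
  · intro f hf
    refine ⟨p ⟨f, hmem' f hf⟩, ?_⟩
    rw [hh]
    exact (hφ ⟨f, hmem' f hf⟩).symm
  · intro j hj
    have hj1 := hj.1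
    obtain ⟨N1, hN1⟩ := OI_pow x⁻¹ (inv_ne_zero hx0) j hj1
    rw [inv_inv] at hN1
    set M := N1 + 2 with hM
    have hf1 : x ^ M * j ∈ OI K x := hN1 M (by omega)
    let f : integralClosure K[X] L := ⟨_, hmem' _ hf1⟩
    have hdeg : (p f).natDegree ≤ N1 := by
      rw [natDegree_le_iff_coeff_eq_zero]
      intro k hk
      rw [hp]
      apply h2
      change Rad K x⁻¹ (x⁻¹ ^ (k + 1) * (x ^ M * j))
      have e1 : x⁻¹ ^ (k + 1) * (x ^ M * j) = x⁻¹ ^ (k + 1 - M) * j := by
        have e2 : k + 1 = (k + 1 - M) + M := by omega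
        conv_lhs => rw [e2]
        rw [pow_add, mul_assoc, ← mul_assoc (x⁻¹ ^ M), ← mul_pow, hxi, one_pow, one_mul]
      rw [e1]
      exact hj.mul ((OI K x⁻¹).pow_mem (OI_self _) _)
    refine ⟨reflect N1 (p f), ?_⟩
    let _ : Invertible g := invertibleOfNonzero hg0
    have e1 := eval₂_reflect_mul_pow (algebraMap K E) g N1 (p f) hdeg
    rw [invOf_eq_inv] at e1
    have e2 : j = algebraMap E L (g⁻¹ ^ M) * (f : L) := by
      change j = algebraMap E L (g⁻¹ ^ M) * (x ^ M * j)
      rw [map_pow, map_inv₀]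
      change j = (g : L)⁻¹ ^ M * (x ^ M * j)
      rw [hgx, ← mul_assoc, ← mul_pow, hxi, one_pow, one_mul]
    have e3 : h * j = g⁻¹ ^ M • (h * (f : L)) := by
      rw [Algebra.smul_def]
      conv_lhs => rw [e2]
      ring
    rw [e3, map_smul, hh, hφ, smul_eq_mul, map_mul, map_pow, aeval_X, aeval_def]
    have e4 : algebraMap K[X] E (p f) = eval₂ (algebraMap K E) g (p f) := rfl
    rw [e4, ← e1, hM, pow_add]
    have e5 : g⁻¹ ^ N1 * g ^ N1 = 1 := by rw [← mul_pow, inv_mul_cancel₀ hg0, one_pow]
    calc g⁻¹ ^ 2 * eval₂ (algebraMap K E) g⁻¹ (reflect N1 (p f)) =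
        g⁻¹ ^ 2 * (g⁻¹ ^ N1 * g ^ N1) * eval₂ (algebraMap K E) g⁻¹ (reflect N1 (p f)) := by
          rw [e5, mul_one]
      _ = _ := by ring

end Run7.h577
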