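import Pool.Agent.Run7.h577.T5

/-!
# Curves without differentials are polynomially parametrised
-/

set_option autoImplicit false

namespace Run7.h577

open Module Polynomial IntermediateField Pool.Agent.W256

variable {K L : Type*} [Field K] [Field L] [Algebra K L]

theorem Rad.add {z j j' : L} (h : Rad K z j) (h' : Rad K z j') : Rad K z (j + j') := by
  obtain ⟨h1, N, g, hg, hN⟩ := h
  obtain ⟨h1', N', g', hg', hN'⟩ := h'
  let zC : OI K z := ⟨z, OI_self z⟩
  have e1 : (⟨j, h1⟩ : OI K z) ∈ (Ideal.span {zC}).radical :=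
    ⟨N, Ideal.mem_span_singleton.mpr ⟨⟨g, hg⟩, Subtype.ext hN⟩⟩
  have e2 : (⟨j', h1'⟩ : OI K z) ∈ (Ideal.span {zC}).radical :=
    ⟨N', Ideal.mem_span_singleton.mpr ⟨⟨g', hg'⟩, Subtype.ext hN'⟩⟩
  obtain ⟨N'', hN''⟩ := add_mem e1 e2
  obtain ⟨g'', hg''⟩ := Ideal.mem_span_singleton.mp hN''
  exact ⟨(OI K z).add_mem h1 h1', N'', g'', g''.2, congrArg Subtype.val hg''⟩

/-- **Polynomial parametrisation.** -/
theorem exists_param_of [IsAlgClosed K] [CharZero K] (x : L) (hx : Transcendental K x)
    [FiniteDimensional K⟮x⟯ L]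
    (H : ∀ f : L, (∃ N : ℕ, x ^ N * f ∈ OI K x) → ∃ g ∈ OI K x, ∃ j, Rad K x⁻¹ j ∧ f = g + j) :
    ∃ y : L, ∀ f ∈ OI K x, ∃ q : K[X], f = aeval y q := by
  classical
  set E := K⟮x⟯ with hE
  set g : E := AdjoinSimple.gen K x with hg
  have hgx : (g : L) = x := AdjoinSimple.algebraMap_gen K x
  have hx0 : x ≠ 0 := by
    rintro rfl
    exact hx isAlgebraic_zero
  have hxi : x⁻¹ * x = 1 := inv_mul_cancel₀ hx0
  set z : L := x⁻¹ with hz
  have hgz : ((g⁻¹ : E) : L) = z := by
    rw [hz, ← hgx]
    rfl
  have hzt : Transcendental K z := transcendental_inv hx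
  have hz0 : z ≠ 0 := inv_ne_zero hx0
  have hconst : ∀ f, f ∈ OI K x → f ∈ OI K z → ∃ c : K, f = algebraMap K L c := by
    intro f h1 h2
    have h3 := OI_inter x hx f h1 h2
    obtain ⟨c, hc⟩ := minpoly.mem_range_of_degree_eq_one K f
      (IsAlgClosed.degree_eq_one_of_irreducible K (minpoly.irreducible h3.isIntegral))
    exact ⟨c, hc.symm⟩
  have hpole : ∀ f, f ∈ OI K z → ∃ N : ℕ, ∀ M, N ≤ M → x ^ M * f ∈ OI K x := by
    intro f hf
    have := OI_pow z hz0 f hf
    rwa [hz, inv_inv] at this
  let aE : Algebra K[X] E := (ev K g⁻¹).toAlgebra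
  let aL : Algebra K[X] L := (ev K ((g⁻¹ : E) : L)).toAlgebra
  have htow : IsScalarTower K[X] E L :=
    IsScalarTower.of_algebraMap_eq fun p => aeval_algebraMap_apply L g⁻¹ p
  have hadj : K⟮((g⁻¹ : E) : L)⟯ = E := by
    rw [hgz, hE]
    apply le_antisymm
    · rw [adjoin_simple_le_iff]
      exact inv_mem (mem_adjoin_simple_self K x)
    · rw [adjoin_simple_le_iff]
      have := inv_mem (mem_adjoin_simple_self K z)
      rwa [hz, inv_inv] at this
  have hfrac : IsFractionRing K[X] E := isFrac E g⁻¹ hadj (by rw [hgz]; exact hzt)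
  have hdd : IsDedekindDomain (integralClosure K[X] L) := integralClosure.isDedekindDomain K[X] E L
  have hmem : ∀ f : integralClosure K[X] L, (f : L) ∈ OI K z := by
    intro f
    have := f.2
    rw [← hgz]
    exact this
  have hmem' : ∀ f ∈ OI K z, f ∈ integralClosure K[X] L := by
    intro f hf
    rw [← hgz] at hf
    exact hf
  -- the prime at infinity
  let P : Ideal (integralClosure K[X] L) :=
    { carrier := {f | Rad K z (f : L)}
      add_mem' := fun ha hb => Rad.add ha hb
      zero_mem' := ⟨(OI K z).zero_mem, 1, 0, (OI K z).zero_mem, by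
        change (0 : L) ^ 1 = z * 0
        rw [mul_zero, pow_one]⟩
      smul_mem' := fun c f hf => Rad.mul hf (hmem c) }
  have hmemP : ∀ f : integralClosure K[X] L, f ∈ P ↔ Rad K z (f : L) := fun f => Iff.rfl
  have hdec : ∀ f : integralClosure K[X] L, ∃ c : K, ∃ j ∈ P, (f : L) = algebraMap K L c + j := by
    intro f
    obtain ⟨N, hN⟩ := hpole f (hmem f)
    obtain ⟨a, ha, j, hj, haj⟩ := H f ⟨N, hN N le_rfl⟩
    have h1 : a ∈ OI K z := by
      have : a = f - j := by rw [haj]; ring
      rw [this]
      exact (OI K z).sub_mem (hmem f) hj.1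
    obtain ⟨c, hc⟩ := hconst a ha h1
    exact ⟨c, ⟨j, hmem' j hj.1⟩, hj, by rw [haj, hc]⟩
  have hKC : ∀ c : K, algebraMap K L c ∈ integralClosure K[X] L := fun c =>
    hmem' _ ((OI K z).algebraMap_mem c)
  have h1P : ∀ c : K, c ≠ 0 → (⟨algebraMap K L c, hKC c⟩ : integralClosure K[X] L) ∉ P := by
    intro c hc hcP
    obtain ⟨-, N, a, ha, hN⟩ := (hmemP _).mp hcP
    apply hx
    apply OI_inter x hx x (OI_self x)
    have h2 : x = algebraMap K L ((c ^ N)⁻¹) * a := by
      have h3 : algebraMap K L c ^ N = z * a := hN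
      have h4 : algebraMap K L (c ^ N)⁻¹ * algebraMap K L c ^ N = 1 := by
        rw [← map_pow, ← map_mul, inv_mul_cancel₀ (pow_ne_zero N hc), map_one]
      calc x = x * (algebraMap K L (c ^ N)⁻¹ * algebraMap K L c ^ N) := by rw [h4, mul_one]
        _ = (z * x) * (algebraMap K L ((c ^ N)⁻¹) * a) := by rw [h3]; ring
        _ = _ := by rw [hxi, one_mul]
    have h5 : algebraMap K L ((c ^ N)⁻¹) * a ∈ OI K z :=
      (OI K z).mul_mem ((OI K z).algebraMap_mem _) ha
    rw [← h2] at h5
    exact h5
  have hPp : P.IsPrime := by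
    constructor
    · intro h
      apply h1P 1 one_ne_zero
      rw [h]
      trivial
    · intro a b hab
      obtain ⟨c, j, hj, hcj⟩ := hdec a
      obtain ⟨d, j', hj', hdj⟩ := hdec b
      have hcd : (⟨algebraMap K L (c * d), hKC _⟩ : integralClosure K[X] L) ∈ P := by
        have e1 : (⟨algebraMap K L (c * d), hKC _⟩ : integralClosure K[X] L) =
            a * b - b * j - (⟨algebraMap K L c, hKC c⟩ : integralClosure K[X] L) * j' := by
          apply Subtype.ext
          change algebraMap K L (c * d) = (a : L) * b - b * j - algebraMap K L c * j'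
          rw [hcj, hdj, map_mul]
          ring
        rw [e1]
        exact P.sub_mem (P.sub_mem hab (P.mul_mem_left _ hj)) (P.mul_mem_left _ hj')
      by_cases hc : c = 0
      · left
        rw [hc, map_zero, zero_add] at hcj
        rw [show a = j from Subtype.ext hcj]
        exact hj
      · right
        by_cases hd : d = 0
        · rw [hd, map_zero, zero_add] at hdj
          rw [show b = j' from Subtype.ext hdj]
          exact hj'
        · exact absurd hcd (h1P _ (mul_ne_zero hc hd))
  let zC : integralClosure K[X] L := ⟨z, hmem' z (OI_self z)⟩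
  have hzC0 : zC ≠ 0 := fun h => hz0 (congrArg Subtype.val h)
  have hzP : zC ∈ P := ⟨OI_self z, 1, 1, (OI K z).one_mem, by
    change z ^ 1 = z * 1
    rw [pow_one, mul_one]⟩
  have hP0 : P ≠ ⊥ := by
    intro h
    rw [h] at hzP
    exact hzC0 hzP
  have hmul : ∀ {a b : integralClosure K[X] L}, a ∉ P → b ∉ P → a * b ∉ P := fun ha hb h => by
    rcases hPp.mem_or_mem h with h | h
    · exact ha h
    · exact hb h
  have hpw : ∀ {a : integralClosure K[X] L} (n : ℕ), a ∉ P → a ^ n ∉ P := fun n ha h =>
    ha (hPp.mem_of_pow_mem n h)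
  obtain ⟨τ, hτ, s₀, hs₀, hsτ⟩ := exists_param P hP0
  obtain ⟨e, t, ht, w, hw, h3⟩ := exists_order P τ s₀ hτ hs₀ hsτ zC hzC0
  have he : e ≠ 0 := by
    rintro rfl
    rw [pow_zero, mul_one] at h3
    exact hw (h3 ▸ Ideal.mul_mem_left _ _ hzP)
  obtain ⟨k, rfl⟩ := Nat.exists_eq_succ_of_ne_zero he
  have g3 : (t : L) * z = w * (τ : L) ^ (k + 1) := congrArg Subtype.val h3
  have hτ0 : (τ : L) ≠ 0 := by
    intro h0
    rw [h0, zero_pow (Nat.succ_ne_zero k), mul_zero] at g3
    rcases mul_eq_zero.mp g3 with h | h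
    · apply ht
      rw [show t = 0 from Subtype.ext h]
      exact P.zero_mem
    · exact hz0 h
  -- the parameter
  obtain ⟨N, hN⟩ := hpole (τ ^ k : integralClosure K[X] L) (hmem _)
  obtain ⟨y, hy, j, hj, hyj⟩ := H (x * (τ : L) ^ k) ⟨N, by
    have := hN (N + 1) (Nat.le_succ N)
    rw [pow_succ, mul_assoc] at this
    exact this⟩
  let jC : integralClosure K[X] L := ⟨j, hmem' j hj.1⟩
  have hjC : jC ∈ P := hj
  have hstar : (w : L) * τ * y = ((t - w * τ * jC : integralClosure K[X] L) : L) := by
    have e1 : y = x * (τ : L) ^ k - j := by rw [hyj]; ring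
    change (w : L) * τ * y = t - w * τ * j
    have e2 : (w : L) * τ * (x * (τ : L) ^ k) = t := by
      calc (w : L) * τ * (x * (τ : L) ^ k) = (w * (τ : L) ^ (k + 1)) * x := by ring
        _ = t * (z * x) := by rw [← g3]; ring
        _ = t := by rw [hxi, mul_one]
    rw [e1, mul_sub, e2]
  set t' : integralClosure K[X] L := t - w * τ * jC with ht'
  have ht'P : t' ∉ P := by
    intro h
    apply ht
    have : t = t' + w * τ * jC := by rw [ht']; ring
    rw [this]
    exact P.add_mem h (P.mul_mem_left _ hjC)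
  refine ⟨y, ?_⟩
  -- the induction
  have key : ∀ n : ℕ, ∀ f ∈ OI K x, (∃ s ∉ P, ∃ a : integralClosure K[X] L,
      (s : L) * (τ : L) ^ n * f = a) → ∃ q : K[X], f = aeval y q := by
    intro n
    induction n with
    | zero =>
      rintro f hf ⟨s, hs, a, ha⟩
      rw [pow_zero, mul_one] at ha
      let I : Ideal (integralClosure K[X] L) :=
        { carrier := {r | (r : L) * f ∈ integralClosure K[X] L}
          add_mem' := by
            intro b c hb hc
            change ((b : L) + c) * f ∈ integralClosure K[X] L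
            rw [add_mul]
            exact add_mem hb hc
          zero_mem' := by
            change (0 : L) * f ∈ integralClosure K[X] L
            rw [zero_mul]
            exact zero_mem _
          smul_mem' := by
            intro c b hb
            change ((c : L) * b) * f ∈ integralClosure K[X] L
            rw [mul_assoc]
            exact mul_mem c.2 hb }
      have hsI : s ∈ I := by
        change (s : L) * f ∈ integralClosure K[X] L
        rw [ha]
        exact a.2
      obtain ⟨N1, hN1⟩ := OI_pow x hx0 f hf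
      have hzI : zC ∈ I.radical := by
        refine ⟨N1, ?_⟩
        change z ^ N1 * f ∈ integralClosure K[X] L
        exact hmem' _ (hN1 N1 le_rfl)
      have hPI : P ≤ I.radical := by
        intro b hb
        obtain ⟨-, M, c, hc, hM⟩ := (hmemP _).mp hb
        rw [← Ideal.radical_idem I]
        refine ⟨M, ?_⟩
        have : b ^ M = zC * ⟨c, hmem' c hc⟩ := Subtype.ext hM
        rw [this]
        exact Ideal.mul_mem_right _ _ hzI
      obtain ⟨c, j1, hj1, hcj⟩ := hdec s
      have hc0 : c ≠ 0 := by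
        rintro rfl
        rw [map_zero, zero_add] at hcj
        apply hs
        rw [show s = j1 from Subtype.ext hcj]
        exact hj1
      have h1 : (⟨algebraMap K L c, hKC c⟩ : integralClosure K[X] L) ∈ I.radical := by
        have e1 : (⟨algebraMap K L c, hKC c⟩ : integralClosure K[X] L) = s - j1 := by
          apply Subtype.ext
          change algebraMap K L c = (s : L) - j1
          rw [hcj]; ring
        rw [e1]
        exact sub_mem (Ideal.le_radical hsI) (hPI hj1)
      have h2 : I.radical = ⊤ := by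
        apply Ideal.eq_top_of_isUnit_mem _ h1
        refine IsUnit.of_mul_eq_one ⟨algebraMap K L c⁻¹, hKC _⟩ ?_
        apply Subtype.ext
        change algebraMap K L c * algebraMap K L c⁻¹ = 1
        rw [← map_mul, mul_inv_cancel₀ hc0, map_one]
      have h3 : I = ⊤ := Ideal.radical_eq_top.mp h2
      have h4 : (1 : integralClosure K[X] L) ∈ I := by rw [h3]; trivial
      have h5 : ((1 : integralClosure K[X] L) : L) * f ∈ integralClosure K[X] L := h4
      rw [OneMemClass.coe_one, one_mul] at h5
      obtain ⟨c', hc'⟩ := hconst f hf (hmem ⟨f, h5⟩)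
      exact ⟨C c', by rw [aeval_C, hc']⟩
    | succ n ih =>
      rintro f hf ⟨s, hs, a, ha⟩
      obtain ⟨α, j1, hj1, hα⟩ := hdec (w ^ (n + 1) * a)
      obtain ⟨β, j2, hj2, hβ⟩ := hdec (s * t' ^ (n + 1))
      have hβ0 : β ≠ 0 := by
        rintro rfl
        rw [map_zero, zero_add] at hβ
        apply hmul hs (hpw (n + 1) ht'P)
        rw [show s * t' ^ (n + 1) = j2 from Subtype.ext hβ]
        exact hj2
      set c : K := α / β with hc
      have hα' : (w : L) ^ (n + 1) * a = algebraMap K L α + j1 := hα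
      have hβ' : (s : L) * (t' : L) ^ (n + 1) = algebraMap K L β + j2 := hβ
      have hcc : algebraMap K L c * algebraMap K L β = algebraMap K L α := by
        rw [← map_mul, hc, div_mul_cancel₀ _ hβ0]
      have hbP : j1 - (⟨algebraMap K L c, hKC c⟩ : integralClosure K[X] L) * j2 ∈ P :=
        P.sub_mem hj1 (P.mul_mem_left _ hj2)
      obtain ⟨d, hd⟩ := hsτ _ hbP
      have hd' : (s₀ : L) * ((j1 : L) - algebraMap K L c * j2) = τ * d :=
        congrArg Subtype.val hd
      obtain ⟨q, hq⟩ := ih (f - algebraMap K L c * y ^ (n + 1))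
        ((OI K x).sub_mem hf ((OI K x).mul_mem ((OI K x).algebraMap_mem c)
          ((OI K x).pow_mem hy _))) ⟨s₀ * (s * w ^ (n + 1)), hmul hs₀ (hmul hs (hpw _ hw)), d, by
          apply mul_left_cancel₀ hτ0
          rw [← hd']
          have e1 : (s : L) * (w : L) ^ (n + 1) * (τ : L) ^ (n + 1) * y ^ (n + 1) =
              algebraMap K L β + j2 := by
            rw [← hβ', ← hstar]
            ring
          have e2 : (s : L) * (w : L) ^ (n + 1) * (τ : L) ^ (n + 1) * f =
              algebraMap K L α + j1 := by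
            rw [← hα', ← ha]
            ring
          change (τ : L) * ((s₀ : L) * ((s : L) * (w : L) ^ (n + 1)) * (τ : L) ^ n *
            (f - algebraMap K L c * y ^ (n + 1))) = _
          calc (τ : L) * ((s₀ : L) * ((s : L) * (w : L) ^ (n + 1)) * (τ : L) ^ n *
              (f - algebraMap K L c * y ^ (n + 1))) =
              (s₀ : L) * ((s : L) * (w : L) ^ (n + 1) * (τ : L) ^ (n + 1) * f -
                algebraMap K L c * ((s : L) * (w : L) ^ (n + 1) * (τ : L) ^ (n + 1) *
                  y ^ (n + 1))) := by ring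
            _ = (s₀ : L) * ((j1 : L) - algebraMap K L c * j2) := by
              rw [e1, e2, ← hcc]
              ring⟩
      refine ⟨q + C c * X ^ (n + 1), ?_⟩
      rw [map_add, ← hq, map_mul, aeval_C, map_pow, aeval_X]
      ring
  intro f hf
  obtain ⟨N1, hN1⟩ := OI_pow x hx0 f hf
  refine key ((k + 1) * N1) f hf ⟨w ^ N1, hpw N1 hw,
    t ^ N1 * ⟨z ^ N1 * f, hmem' _ (hN1 N1 le_rfl)⟩, ?_⟩
  change (w : L) ^ N1 * (τ : L) ^ ((k + 1) * N1) * f = (t : L) ^ N1 * (z ^ N1 * f)
  calc (w : L) ^ N1 * (τ : L) ^ ((k + 1) * N1) * f = (w * (τ : L) ^ (k + 1)) ^ N1 * f := by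
        rw [mul_pow, ← pow_mul]
    _ = _ := by rw [← g3]; ring

end Run7.h577
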