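import Pool.Agent.Run7.h577.T6

/-!
# Stability of subfields under derivations
-/

set_option autoImplicit false

namespace Run7.h577

open Module Polynomial IntermediateField Pool.Agent.W256

section tower

variable {K L M : Type*} [Field K] [Field L] [Algebra K L] [Field M] [Algebra K M] [Algebra L M]
  [IsScalarTower K L M]

theorem ev_comp (y : L) : (algebraMap L M).comp (ev K y) = ev K (algebraMap L M y) := by
  apply RingHom.ext
  intro p
  exact (aeval_algebraMap_apply M y p).symm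

theorem OI_map {y f : L} (hf : f ∈ OI K y) : algebraMap L M f ∈ OI K (algebraMap L M y) := by
  rw [mem_OI, ← ev_comp]
  exact RingHom.IsIntegralElem.map (mem_OI.mp hf) (algebraMap L M)

theorem OI_of_map {y f : L} (hf : algebraMap L M f ∈ OI K (algebraMap L M y)) : f ∈ OI K y := by
  rw [mem_OI, ← ev_comp] at hf
  exact RingHom.IsIntegralElem.of_map (algebraMap L M).injective hf

theorem OI_trace [FiniteDimensional L M] (y : L) (f : M) (hf : f ∈ OI K (algebraMap L M y)) :
    Algebra.trace L M f ∈ OI K y := by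
  let aL : Algebra K[X] L := (ev K y).toAlgebra
  let aM : Algebra K[X] M := (ev K (algebraMap L M y)).toAlgebra
  have htow : IsScalarTower K[X] L M := IsScalarTower.of_algebraMap_eq' (ev_comp y).symm
  have h1 : IsIntegral K[X] f := hf
  exact Algebra.isIntegral_trace h1

end tower

/-- A derivation which maps the constants and one separating element to a subfield maps the
subfield to itself. -/
theorem der_stable {K M : Type*} [Field K] [CharZero K] [Field M] [Algebra K M]
    (F : IntermediateField K M) (D : Derivation ℤ M M)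
    (hDK : ∀ c : K, D (algebraMap K M c) ∈ F) (x : M) (hx : x ∈ F) (hDx : D x ∈ F)
    (halg : ∀ f ∈ F, IsAlgebraic K⟮x⟯ f) : ∀ f ∈ F, D f ∈ F := by
  have hE : K⟮x⟯ ≤ F := by rw [adjoin_simple_le_iff]; exact hx
  have hDE : ∀ e ∈ K⟮x⟯, D e ∈ F := by
    intro e he
    induction he using IntermediateField.adjoin_induction with
    | mem y hy => rw [Set.mem_singleton_iff] at hy; rw [hy]; exact hDx
    | algebraMap c => exact hDK c
    | add a b _ _ ha hb => rw [map_add]; exact F.add_mem ha hb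
    | inv a ha' ha =>
      rw [D.leibniz_inv, smul_eq_mul]
      exact F.mul_mem (F.neg_mem (pow_mem (F.inv_mem (hE ha')) 2)) ha
    | mul a b ha' hb' ha hb =>
      rw [D.leibniz, smul_eq_mul, smul_eq_mul]
      exact F.add_mem (F.mul_mem (hE ha') hb) (F.mul_mem (hE hb') ha)
  intro f hf
  have hint : IsIntegral K⟮x⟯ f := (halg f hf).isIntegral
  set p := minpoly K⟮x⟯ f with hp
  have hsep : aeval f (derivative p) ≠ 0 := by
    have h1 : p.Separable := (minpoly.irreducible hint).separable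
    exact h1.aeval_derivative_ne_zero (minpoly.aeval _ f)
  have h0 : aeval f p = 0 := minpoly.aeval _ f
  rw [aeval_eq_sum_range] at h0
  have h1 := congrArg D h0
  rw [map_sum, map_zero] at h1
  have h2 : ∀ i ∈ Finset.range (p.natDegree + 1), D (p.coeff i • f ^ i) =
      f ^ i * D (p.coeff i : M) + ((p.coeff i : M) * ((i : M) * f ^ (i - 1))) * D f := by
    intro i _
    rw [Algebra.smul_def, D.leibniz, D.leibniz_pow]
    simp only [smul_eq_mul, nsmul_eq_mul]
    change (p.coeff i : M) * (i * (f ^ (i - 1) * D f)) + f ^ i * D (p.coeff i : M) = _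
    ring
  rw [Finset.sum_congr rfl h2, Finset.sum_add_distrib, ← Finset.sum_mul] at h1
  have h3 : aeval f (derivative p) =
      ∑ i ∈ Finset.range (p.natDegree + 1), (p.coeff i : M) * ((i : M) * f ^ (i - 1)) := by
    conv_lhs => rw [p.as_sum_range_C_mul_X_pow]
    rw [derivative_sum, map_sum]
    refine Finset.sum_congr rfl fun i _ => ?_
    rw [derivative_C_mul_X_pow, map_mul, map_pow, aeval_X, aeval_C, map_mul, map_natCast]
    change (p.coeff i : M) * i * f ^ (i - 1) = _
    ring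
  rw [← h3] at h1
  have h4 : D f = -(∑ i ∈ Finset.range (p.natDegree + 1), f ^ i * D (p.coeff i : M)) /
      aeval f (derivative p) := by
    rw [eq_div_iff hsep]
    linear_combination h1
  rw [h4]
  refine F.div_mem (F.neg_mem (sum_mem fun i _ => F.mul_mem (pow_mem hf i)
    (hDE _ (p.coeff i).2))) ?_
  rw [h3]
  exact sum_mem fun i _ => F.mul_mem (hE (p.coeff i).2)
    (F.mul_mem (IntermediateField.natCast_mem F i) (pow_mem hf _))

/-- **Stability.** -/
theorem stable {K M : Type*} [Field K] [IsAlgClosed K] [CharZero K] [Field M] [Algebra K M]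
    (F₀ : IntermediateField K M) (x : F₀) (hx : Transcendental K (x : M))
    [FiniteDimensional F₀ M] [hfin : FiniteDimensional K⟮x⟯ F₀] (D : Derivation ℤ M M)
    (hDK : ∀ c : K, ∃ c' : K, D (algebraMap K M c) = algebraMap K M c')
    (ha : ∀ f ∈ OI K (x : M), D f ∈ OI K (x : M))
    (hb : D (x : M) * (x : M)⁻¹ ∈ OI K (x : M)⁻¹)
    (hc : ¬ ∃ y : F₀, ∀ f ∈ OI K x, ∃ q : K[X], f = aeval y q) : ∀ f ∈ F₀, D f ∈ F₀ := by
  classical
  have hxL : Transcendental K x := fun h => hx (h.algebraMap (A := M))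
  have hx0 : (x : M) ≠ 0 := by
    intro h
    rw [h] at hx
    exact hx isAlgebraic_zero
  have hx0L : x ≠ 0 := fun h => hx0 (by rw [h]; rfl)
  set n : ℕ := finrank F₀ M with hn
  have hch : CharZero F₀ := charZero_of_injective_algebraMap (algebraMap K F₀).injective
  have hn0 : (n : F₀) ≠ 0 := by
    have : 0 < n := finrank_pos
    exact_mod_cast this.ne'
  -- the projection of the derivation
  let proj : M →ₗ[F₀] M := LinearMap.id -
    (Algebra.linearMap F₀ M).comp ((n : F₀)⁻¹ • Algebra.trace F₀ M)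
  have hproj : ∀ f : M, proj f = f - algebraMap F₀ M ((n : F₀)⁻¹ * Algebra.trace F₀ M f) :=
    fun f => rfl
  let D₀ : Derivation ℤ F₀ M := D.compAlgebraMap F₀
  have hD₀ : ∀ f : F₀, D₀ f = D (f : M) := fun f => rfl
  let η : Derivation ℤ F₀ M := proj.compDer D₀
  have hη : ∀ f : F₀, η f = D (f : M) - algebraMap F₀ M ((n : F₀)⁻¹ *
      Algebra.trace F₀ M (D (f : M))) := fun f => rfl
  have hηK : ∀ c : K, η (algebraMap K F₀ c) = 0 := by
    intro c
    obtain ⟨c', hc'⟩ := hDK c
    have e1 : D ((algebraMap K F₀ c : F₀) : M) = algebraMap F₀ M (algebraMap K F₀ c') := by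
      change D (algebraMap K M c) = _
      rw [hc']
      rfl
    rw [hη, e1, Algebra.trace_algebraMap, ← hn, nsmul_eq_mul, ← mul_assoc,
      inv_mul_cancel₀ hn0, one_mul, sub_self]
  have hninv : ∀ y : F₀, (n : F₀)⁻¹ ∈ OI K y := by
    intro y
    have := (OI K y).algebraMap_mem ((n : K)⁻¹)
    rwa [map_inv₀, map_natCast] at this
  have htrx : ∀ f ∈ OI K (x : M), algebraMap F₀ M ((n : F₀)⁻¹ * Algebra.trace F₀ M f) ∈
      OI K (x : M) := by
    intro f hf
    exact OI_map (L := F₀) (M := M) (y := x) ((OI K x).mul_mem (hninv x) (OI_trace x f hf))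
  have hηO : ∀ f ∈ OI K x, η f ∈ (OI K (x : M)).toSubring := by
    intro f hf
    have h1 : (f : M) ∈ OI K (x : M) := OI_map (L := F₀) (M := M) hf
    have h2 := ha _ h1
    rw [hη]
    exact (OI K (x : M)).sub_mem h2 (htrx _ h2)
  -- the differential
  obtain ⟨f₀, ⟨N₀, hN₀⟩, hf₀⟩ : ∃ f : F₀, (∃ N : ℕ, x ^ N * f ∈ OI K x) ∧
      ¬ ∃ g ∈ OI K x, ∃ j, Rad K x⁻¹ j ∧ f = g + j := by
    by_contra hcon
    apply hc
    exact exists_param_of x hxL (fun f hf => by
      by_contra h2
      exact hcon ⟨f, hf, h2⟩)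
  let S : Submodule K F₀ :=
    { carrier := {f | ∃ g ∈ OI K x, ∃ j, Rad K x⁻¹ j ∧ f = g + j}
      add_mem' := by
        rintro a b ⟨g, hg, j, hj, rfl⟩ ⟨g', hg', j', hj', rfl⟩
        exact ⟨g + g', (OI K x).add_mem hg hg', j + j', hj.add hj', by ring⟩
      zero_mem' := ⟨0, (OI K x).zero_mem, 0, ⟨(OI K x⁻¹).zero_mem, 1, 0, (OI K x⁻¹).zero_mem,
        by rw [mul_zero, pow_one]⟩, by rw [add_zero]⟩
      smul_mem' := by
        rintro c a ⟨g, hg, j, hj, rfl⟩
        refine ⟨c • g, (OI K x).smul_mem hg c, c • j, ?_, by rw [smul_add]⟩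
        rw [Algebra.smul_def]
        exact hj.mul ((OI K x⁻¹).algebraMap_mem c) }
  obtain ⟨lam, hlam0, hlam⟩ := Submodule.exists_le_ker_of_notMem (p := S) (v := f₀) hf₀
  obtain ⟨h, hh0, hh1, hh2⟩ := exists_form x hxL lam
    (fun f hf => by
      have : f ∈ S := ⟨f, hf, 0, ⟨(OI K x⁻¹).zero_mem, 1, 0, (OI K x⁻¹).zero_mem,
        by rw [mul_zero, pow_one]⟩, by rw [add_zero]⟩
      exact hlam this)
    (fun j hj => by
      have : j ∈ S := ⟨0, (OI K x).zero_mem, j, hj, by rw [zero_add]⟩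
      exact hlam this)
    f₀ N₀ hN₀ hlam0
  set g : K⟮x⟯ := AdjoinSimple.gen K x with hg
  have hgx : (g : F₀) = x := AdjoinSimple.algebraMap_gen K x
  have hg0 : g ≠ 0 := by
    intro h
    apply hx0L
    rw [← hgx, h]
    rfl
  have hgi : ((g⁻¹ : K⟮x⟯) : F₀) = x⁻¹ := by
    have e1 : ((g⁻¹ : K⟮x⟯) : F₀) = (g : F₀)⁻¹ := rfl
    rw [e1, hgx]
  have hadj : K⟮((g⁻¹ : K⟮x⟯) : F₀)⟯ = K⟮x⟯ := by
    rw [hgi]
    apply le_antisymm
    · rw [adjoin_simple_le_iff]
      exact inv_mem (mem_adjoin_simple_self K x)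
    · rw [adjoin_simple_le_iff]
      have := inv_mem (mem_adjoin_simple_self K (x⁻¹ : F₀))
      rwa [inv_inv] at this
  -- regularity at finite distance
  have hfinite : algebraMap F₀ M h * η x ∈ OI K (x : M) := by
    have := finite_regular K⟮x⟯ g (by rw [hgx]) (by rw [hgx]; exact hxL)
      (OI K (x : M)).toSubring η hηK
      (fun f hf => by rw [hgx] at hf; exact OI_map (L := F₀) (M := M) hf)
      (fun f hf => by rw [hgx] at hf; exact hηO f hf) h
      (fun f hf => by rw [hgx] at hf; exact hh1 f hf)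
    rw [hgx] at this
    exact this
  -- regularity at infinity
  have hxinv : algebraMap F₀ M x⁻¹ = (x : M)⁻¹ := by rw [map_inv₀]; rfl
  have hinf : algebraMap F₀ M h * η x ∈ OI K (x : M)⁻¹ := by
    have hax : η x * (x : M)⁻¹ ∈ OI K (x : M)⁻¹ := by
      rw [hη, sub_mul]
      refine (OI K (x : M)⁻¹).sub_mem hb ?_
      have e1 : algebraMap F₀ M ((n : F₀)⁻¹ * Algebra.trace F₀ M (D (x : M))) * (x : M)⁻¹ =
          algebraMap F₀ M ((n : F₀)⁻¹ * Algebra.trace F₀ M (D (x : M) * (x : M)⁻¹)) := by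
        have e2 : D (x : M) * (x : M)⁻¹ = (x⁻¹ : F₀) • D (x : M) := by
          rw [Algebra.smul_def, hxinv, mul_comm]
        rw [e2, map_smul, smul_eq_mul, ← hxinv, ← map_mul]
        congr 1
        ring
      rw [e1, ← hxinv]
      refine OI_map (L := F₀) (M := M) ((OI K x⁻¹).mul_mem (hninv _) (OI_trace x⁻¹ _ ?_))
      rw [hxinv]
      exact hb
    obtain ⟨N, hN⟩ := OI_pow (x : M) hx0 _ hfinite
    have := infinite_regular K⟮x⟯ g⁻¹ hadj (by rw [hgi]; exact transcendental_inv hxL)
      (OI K (x : M)⁻¹).toSubring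
      (fun f hf => by
        rw [hgi] at hf
        have := OI_map (L := F₀) (M := M) hf
        rw [hxinv] at this
        exact this) (h * x)
      (fun j hj => by
        rw [hgi] at hj
        obtain ⟨r, hr⟩ := hh2 j hj
        refine ⟨r, ?_⟩
        have e1 : h * x * j = g • (h * j) := by
          rw [Algebra.smul_def]
          change h * x * j = (g : F₀) * (h * j)
          rw [hgx]; ring
        rw [e1, map_smul, smul_eq_mul, ← hr]
        rw [map_mul, map_mul, map_pow, aeval_X, sq]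
        rw [← mul_assoc, ← mul_assoc, mul_inv_cancel₀ hg0, one_mul])
      (η x * (x : M)⁻¹) hax N (by
        have e1 : algebraMap F₀ M ((g⁻¹ : K⟮x⟯) : F₀) ^ N *
            (algebraMap F₀ M (h * x) * (η x * (x : M)⁻¹)) =
            (x : M)⁻¹ ^ N * (algebraMap F₀ M h * η x) := by
          rw [hgi, hxinv, map_mul]
          change (x : M)⁻¹ ^ N * (algebraMap F₀ M h * (x : M) * (η x * (x : M)⁻¹)) = _
          field_simp
        rw [e1]
        exact hN N le_rfl)
    have e1 : algebraMap F₀ M (h * x) * (η x * (x : M)⁻¹) = algebraMap F₀ M h * η x := by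
      rw [map_mul]
      change algebraMap F₀ M h * (x : M) * (η x * (x : M)⁻¹) = _
      field_simp
    rw [e1] at this
    exact this
  obtain ⟨c, hcc⟩ := minpoly.mem_range_of_degree_eq_one K _
    (IsAlgClosed.degree_eq_one_of_irreducible K (minpoly.irreducible
      (OI_inter (x : M) hx _ hfinite hinf).isIntegral))
  have hηx : η x ∈ F₀ := by
    have e1 : η x = algebraMap F₀ M (h⁻¹ * algebraMap K F₀ c) := by
      have hh0' : algebraMap F₀ M h ≠ 0 := by
        rw [Ne, map_eq_zero]; exact hh0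
      rw [map_mul, map_inv₀, eq_inv_mul_iff_mul_eq₀ hh0']
      exact hcc.symm
    rw [e1]
    exact (h⁻¹ * algebraMap K F₀ c : F₀).2
  have hDx : D (x : M) ∈ F₀ := by
    have e1 : D (x : M) = η x + algebraMap F₀ M ((n : F₀)⁻¹ *
        Algebra.trace F₀ M (D (x : M))) := by
      rw [hη]; ring
    rw [e1]
    exact F₀.add_mem hηx ((n : F₀)⁻¹ * Algebra.trace F₀ M (D (x : M)) : F₀).2
  refine der_stable F₀ D (fun c => ?_) (x : M) x.2 hDx ?_
  · obtain ⟨c', hc'⟩ := hDK c
    rw [hc']
    exact F₀.algebraMap_mem c'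
  · intro f hf
    have h1 : IsAlgebraic K⟮x⟯ (⟨f, hf⟩ : F₀) := Algebra.IsAlgebraic.isAlgebraic _
    obtain ⟨p, hp0, hp⟩ := h1
    have hmap : K⟮x⟯.map F₀.val = K⟮(x : M)⟯ := by
      rw [adjoin_map, Set.image_singleton]
      rfl
    let e : K⟮x⟯ ≃ₐ[K] K⟮(x : M)⟯ := (equivMap K⟮x⟯ F₀.val).trans (equivOfEq hmap)
    refine ⟨p.map (e : K⟮x⟯ →+* K⟮(x : M)⟯), ?_, ?_⟩
    · rw [Ne, Polynomial.map_eq_zero_iff e.injective]
      exact hp0
    · rw [aeval_def, eval₂_map]
      have h2 : (algebraMap K⟮(x : M)⟯ M).comp (e : K⟮x⟯ →+* K⟮(x : M)⟯) =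
          (algebraMap F₀ M).comp (algebraMap K⟮x⟯ F₀) := by
        apply RingHom.ext
        intro a
        rfl
      rw [h2]
      have h3 := congrArg (algebraMap F₀ M) hp
      rw [aeval_def, hom_eval₂, map_zero] at h3
      exact h3

end Run7.h577
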