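import Pool.Agent.Run7.h577.T7

/-!
# Derivations preserve integral closures
-/

set_option autoImplicit false

namespace Run7.h577

open Module Polynomial IntermediateField Pool.Agent.W256

section ring

variable {R : Type*} [Ring R]

/-- the inner derivation -/
def ad (F X : R) : R := X * F - F * X

theorem ad_mul (F X Y : R) : ad F (X * Y) = ad F X * Y + X * ad F Y := by
  simp only [ad]
  noncomm_ring

theorem ad_iter_mul (F a G : R) (h1 : ad F a = G) (h2 : ad F G = 0) (X : R) (i : ℕ) :
    (ad F)^[i + 1] (a * X) = a * (ad F)^[i + 1] X + (i + 1 : ℕ) * (G * (ad F)^[i] X) := by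
  induction i with
  | zero =>
    simp only [zero_add, Function.iterate_one, Function.iterate_zero, id_eq, Nat.cast_one, one_mul]
    rw [ad_mul, h1, add_comm]
  | succ i ih =>
    rw [Function.iterate_succ_apply', ih]
    have e1 : ∀ x y : R, ad F (x + y) = ad F x + ad F y := by
      intro x y
      simp only [ad]
      noncomm_ring
    have e2 : ∀ (n : ℕ) (x : R), ad F ((n : R) * x) = n * ad F x := by
      intro n x
      simp only [ad]
      have := (Nat.cast_commute n F).eq
      rw [mul_sub, mul_assoc, ← mul_assoc F, ← this, mul_assoc]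
    rw [e1, ad_mul, h1, e2, ad_mul, h2, zero_mul, zero_add, ← Function.iterate_succ_apply' (ad F) i,
      ← Function.iterate_succ_apply' (ad F) (i + 1)]
    push_cast
    noncomm_ring

theorem ad_iter_pow (F a G : R) (h1 : ad F a = G) (h2 : ad F G = 0) (m : ℕ) :
    (ad F)^[m] (a ^ m) = (m.factorial : R) * G ^ m ∧ (ad F)^[m + 1] (a ^ m) = 0 := by
  induction m with
  | zero =>
    constructor
    · simp
    · simp [ad]
  | succ m ih =>
    constructor
    · rw [pow_succ', ad_iter_mul F a G h1 h2, ih.1, ih.2, mul_zero, zero_add, Nat.factorial_succ,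
        pow_succ']
      push_cast
      have e1 : G * ((m.factorial : R) * G ^ m) = (m.factorial : R) * (G * G ^ m) := by
        rw [← mul_assoc, ← (Nat.cast_commute m.factorial G).eq, mul_assoc]
      rw [e1, mul_assoc]
    · rw [pow_succ', ad_iter_mul F a G h1 h2, ih.2, mul_zero, mul_zero, add_zero,
        Function.iterate_succ_apply', ih.2]
      simp [ad]

end ring

/-- **Derivations preserve integral closures.** -/
theorem der_integral {K M : Type*} [Field K] [CharZero K] [Field M] [Algebra K M]
    (A : Subalgebra K M) [IsNoetherianRing A] (D : Derivation ℤ M M) (hD : ∀ a ∈ A, D a ∈ A)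
    (f : M) (hf : IsIntegral A f) (a b : M) (ha : a ∈ A) (hb : b ∈ A) (hb0 : b ≠ 0)
    (hab : f * b = a) : IsIntegral A (D f) := by
  classical
  -- a common denominator
  obtain ⟨c, hcA, hc0, hc⟩ : ∃ c ∈ A, c ≠ 0 ∧ ∀ m : ℕ, c * f ^ m ∈ A := by
    obtain ⟨p, hp, hpf⟩ := hf
    set n := p.natDegree with hn
    refine ⟨b ^ n, pow_mem hb n, pow_ne_zero n hb0, ?_⟩
    have hfn : f ^ n = -∑ i ∈ Finset.range n, (p.coeff i : M) * f ^ i := by
      rw [eval₂_eq_sum_range, Finset.sum_range_succ, ← hn, hn, hp.coeff_natDegree, map_one,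
        one_mul] at hpf
      rw [← hn] at hpf
      have e1 : ∑ i ∈ Finset.range n, (p.coeff i : M) * f ^ i =
          ∑ i ∈ Finset.range n, algebraMap A M (p.coeff i) * f ^ i := rfl
      rw [e1]
      linear_combination hpf
    intro m
    induction m using Nat.strong_induction_on with
    | _ m ih =>
      rcases lt_or_ge m n with hmn | hmn
      · have e1 : b ^ n * f ^ m = b ^ (n - m) * a ^ m := by
          rw [← hab, mul_pow]
          have e2 : b ^ n = b ^ (n - m) * b ^ m := by rw [← pow_add]; congr 1; omega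
          rw [e2]; ring
        rw [e1]
        exact mul_mem (pow_mem hb _) (pow_mem ha _)
      · obtain ⟨k, rfl⟩ := Nat.exists_eq_add_of_le hmn
        have e1 : b ^ n * f ^ (n + k) =
            -∑ i ∈ Finset.range n, (p.coeff i : M) * (b ^ n * f ^ (i + k)) := by
          rw [pow_add, hfn, ← mul_assoc, mul_neg, neg_mul, Finset.mul_sum, Finset.sum_mul]
          congr 1
          refine Finset.sum_congr rfl fun i _ => ?_
          ring
        rw [e1]
        refine neg_mem (sum_mem fun i hi => mul_mem (p.coeff i).2 (ih _ ?_))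
        have := Finset.mem_range.mp hi
        omega
  -- the operators
  let F : Module.End ℤ M := LinearMap.mulLeft ℤ f
  let G : Module.End ℤ M := LinearMap.mulLeft ℤ (D f)
  have h1 : ad F (D : M →ₗ[ℤ] M) = G := by
    apply LinearMap.ext
    intro y
    change D (f * y) - f * D y = D f * y
    rw [D.leibniz, smul_eq_mul, smul_eq_mul]
    ring
  have h2 : ad F G = 0 := by
    apply LinearMap.ext
    intro y
    change D f * (f * y) - f * (D f * y) = 0
    ring
  have hG : ∀ (m : ℕ) (y : M), (G ^ m) y = D f ^ m * y := by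
    intro m
    induction m with
    | zero => intro y; rw [pow_zero, pow_zero, one_mul]; rfl
    | succ m ih =>
      intro y
      rw [pow_succ', Module.End.mul_apply, ih, pow_succ']
      change D f * (D f ^ m * y) = _
      ring
  have hkey : ∀ (X : Module.End ℤ M), (∀ y ∈ A, X y ∈ A) → ∀ i j k : ℕ,
      (c * f ^ j) * ((ad F)^[i] X) (c * f ^ k) ∈ A := by
    intro X hX i
    induction i with
    | zero => intro j k; exact mul_mem (hc j) (hX _ (hc k))
    | succ i ih =>
      intro j k
      rw [Function.iterate_succ_apply']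
      have e1 : (ad F ((ad F)^[i] X)) (c * f ^ k) =
          ((ad F)^[i] X) (c * f ^ (k + 1)) - f * ((ad F)^[i] X) (c * f ^ k) := by
        change ((ad F)^[i] X) (f * (c * f ^ k)) - f * ((ad F)^[i] X) (c * f ^ k) = _
        have e2 : f * (c * f ^ k) = c * f ^ (k + 1) := by ring
        rw [e2]
      rw [e1]
      have e3 : c * f ^ j * (((ad F)^[i] X) (c * f ^ (k + 1)) - f * ((ad F)^[i] X) (c * f ^ k)) =
          c * f ^ j * ((ad F)^[i] X) (c * f ^ (k + 1)) -
            c * f ^ (j + 1) * ((ad F)^[i] X) (c * f ^ k) := by ring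
      rw [e3]
      exact sub_mem (ih j (k + 1)) (ih (j + 1) k)
  have hDpow : ∀ (m : ℕ), ∀ y ∈ A, ((D : M →ₗ[ℤ] M) ^ m : Module.End ℤ M) y ∈ A := by
    intro m
    induction m with
    | zero => intro y hy; exact hy
    | succ m ih =>
      intro y hy
      rw [pow_succ', Module.End.mul_apply]
      exact hD _ (ih y hy)
  have hfin : ∀ m : ℕ, (c * c) * D f ^ m ∈ A := by
    intro m
    have e1 := hkey ((D : M →ₗ[ℤ] M) ^ m : Module.End ℤ M) (hDpow m) m 0 0
    rw [(ad_iter_pow F (D : M →ₗ[ℤ] M) G h1 h2 m).1, pow_zero, mul_one, Module.End.mul_apply,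
      hG] at e1
    have e2 : ((m.factorial : Module.End ℤ M)) (D f ^ m * c) = (m.factorial : M) * (D f ^ m * c) := by
      rw [Module.End.natCast_apply, nsmul_eq_mul]
    rw [e2] at e1
    have hfac : (m.factorial : K) ≠ 0 := by exact_mod_cast m.factorial_ne_zero
    have e3 := A.smul_mem e1 ((m.factorial : K)⁻¹)
    rw [Algebra.smul_def, map_inv₀, map_natCast] at e3
    have hfac' : (m.factorial : M) ≠ 0 := by
      have := (map_ne_zero (algebraMap K M)).mpr hfac
      rwa [map_natCast] at this
    have e4 : (m.factorial : M)⁻¹ * (c * ((m.factorial : M) * (D f ^ m * c))) =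
        (c * c) * D f ^ m := by
      field_simp
    rwa [e4] at e3
  -- finiteness
  have hd0 : c * c ≠ 0 := mul_ne_zero hc0 hc0
  have hmemS : ∀ y ∈ Algebra.adjoin A {D f}, (c * c) * y ∈ A := by
    intro y hy
    rw [Algebra.adjoin_singleton_eq_range_aeval] at hy
    obtain ⟨q, rfl⟩ := hy
    change (c * c) * aeval (D f) q ∈ A
    rw [aeval_eq_sum_range, Finset.mul_sum]
    refine sum_mem fun i _ => ?_
    rw [Algebra.smul_def, mul_left_comm]
    exact mul_mem (q.coeff i).2 (hfin i)
  let φ : Algebra.adjoin A {D f} →ₗ[A] A :=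
    { toFun := fun y => ⟨(c * c) * y, hmemS y y.2⟩
      map_add' := by
        intro y y'
        apply Subtype.ext
        change (c * c) * ((y : M) + y') = (c * c) * y + (c * c) * y'
        ring
      map_smul' := by
        intro r y
        apply Subtype.ext
        change (c * c) * ((r : M) * y) = (r : M) * ((c * c) * y)
        ring }
  have hφ : Function.Injective φ := by
    intro y y' h
    apply Subtype.ext
    exact mul_left_cancel₀ hd0 (congrArg Subtype.val h)
  have hnoeth : IsNoetherian A (Algebra.adjoin A {D f}) := isNoetherian_of_injective φ hφ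
  refine IsIntegral.of_mem_of_fg (Algebra.adjoin A {D f}) ?_ (D f)
    (Algebra.self_mem_adjoin_singleton A (D f))
  have h3 : Module.Finite A (Algebra.adjoin A {D f}) := Module.IsNoetherian.finite A _
  exact Module.Finite.iff_fg.mp h3

/-- **The main application.** -/
theorem der_OI {K M : Type*} [Field K] [CharZero K] [Field M] [Algebra K M]
    (V : Submodule K M) [FiniteDimensional K V] (hV : adjoin K (V : Set M) = ⊤)
    (x : M) (hx : x ∈ V) (hVx : ∀ v ∈ V, v ∈ OI K x) (D : Derivation ℤ M M)
    (hDK : ∀ c : K, ∃ c' : K, D (algebraMap K M c) = algebraMap K M c')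
    (hDV : ∀ v ∈ V, D v ∈ V) : ∀ f ∈ OI K x, D f ∈ OI K x := by
  set A : Subalgebra K M := Algebra.adjoin K (V : Set M) with hA
  have hAfg : A.FG := by
    obtain ⟨S, hS⟩ := (IsNoetherian.noetherian (⊤ : Submodule K V)).map V.subtype
    rw [Submodule.map_subtype_top] at hS
    refine ⟨S, ?_⟩
    rw [hA]
    conv_rhs => rw [← hS]
    rw [Algebra.adjoin_span]
  have hft : Algebra.FiniteType K A := A.fg_iff_finiteType.mp hAfg
  have hnoeth : IsNoetherianRing A := Algebra.FiniteType.isNoetherianRing K A
  have hDA : ∀ a ∈ A, D a ∈ A := by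
    intro a ha
    induction ha using Algebra.adjoin_induction with
    | mem y hy => exact Algebra.subset_adjoin (hDV y hy)
    | algebraMap r =>
      obtain ⟨c', hc'⟩ := hDK r
      rw [hc']
      exact A.algebraMap_mem c'
    | add y y' _ _ hy hy' => rw [map_add]; exact add_mem hy hy'
    | mul y y' hy1 hy1' hy hy' =>
      rw [D.leibniz, smul_eq_mul, smul_eq_mul]
      exact add_mem (mul_mem hy1 hy') (mul_mem hy1' hy)
  have hAO : ∀ a ∈ A, a ∈ OI K x := by
    intro a ha
    exact (Algebra.adjoin_le (show (V : Set M) ⊆ OI K x from hVx)) ha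
  have hxA : x ∈ A := Algebra.subset_adjoin hx
  intro f hf
  have hfA : IsIntegral A f := by
    obtain ⟨p, hp, hpf⟩ := mem_OI.mp hf
    refine ⟨p.map ((aeval (⟨x, hxA⟩ : A) : K[X] →ₐ[K] A) : K[X] →+* A), hp.map _, ?_⟩
    rw [eval₂_map]
    have e1 : (algebraMap A M).comp ((aeval (⟨x, hxA⟩ : A) : K[X] →ₐ[K] A) : K[X] →+* A) =
        ev K x := by
      apply RingHom.ext
      intro q
      exact (aeval_algebraMap_apply M (⟨x, hxA⟩ : A) q).symm
    rw [e1]
    exact hpf
  have hfrac : ∃ a ∈ A, ∃ b ∈ A, b ≠ 0 ∧ f * b = a := by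
    have h1 : f ∈ adjoin K (V : Set M) := by rw [hV]; exact mem_top
    obtain ⟨a, ha, b, hb, hab⟩ := IntermediateField.mem_adjoin_iff_div.1 h1
    by_cases hb0 : b = 0
    · refine ⟨0, A.zero_mem, 1, A.one_mem, one_ne_zero, ?_⟩
      rw [hab, hb0, div_zero, zero_mul]
    · exact ⟨a, ha, b, hb, hb0, by rw [hab, div_mul_cancel₀ _ hb0]⟩
  obtain ⟨a, ha, b, hb, hb0, hab⟩ := hfrac
  have h1 := der_integral A D hDA f hfA a b ha hb hb0 hab
  apply OI_trans
  obtain ⟨p, hp, hpf⟩ := h1
  let i : A →+* OI K x := Subring.inclusion (S := A.toSubring) (T := (OI K x).toSubring) hAO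
  refine ⟨p.map i, hp.map _, ?_⟩
  rw [eval₂_map]
  exact hpf

end Run7.h577
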