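import Pool.Agent.N770.Cover
import Pool.Agent.Run7.h577.T8

/-!
# Rigidity
-/

set_option autoImplicit false

namespace Run7.h577

open Module Polynomial IntermediateField Pool.Agent.W256 Pool.Agent.N770

/-- the curve `P = 0` contains no image of the affine line -/
def NoLine (K : Type*) [Field K] (P : MvPolynomial (Fin 2) K) : Prop :=
  ∀ p q : K[X], MvPolynomial.aeval ![p, q] P = 0 → p.natDegree = 0 ∧ q.natDegree = 0

variable {K M : Type*} [Field K] [Field M] [Algebra K M]

/-- a field generated by a space of functions which are integral over a subfield -/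
theorem fd_of_integral (V : Submodule K M) [FiniteDimensional K V]
    (hV : adjoin K (V : Set M) = ⊤) (F : IntermediateField K M)
    (hVF : ∀ v ∈ V, IsIntegral F v) : FiniteDimensional F M := by
  classical
  obtain ⟨S, hS⟩ := (IsNoetherian.noetherian (⊤ : Submodule K V)).map V.subtype
  rw [Submodule.map_subtype_top] at hS
  have hSV : ∀ x ∈ S, x ∈ V := by
    intro x hx
    rw [← hS]; exact Submodule.subset_span hx
  have hfd : FiniteDimensional F (adjoin F (S : Set M)) := by
    apply finiteDimensional_adjoin
    intro x hx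
    exact hVF x (hSV x hx)
  have htop : adjoin F (S : Set M) = ⊤ := by
    rw [eq_top_iff]
    intro y _
    have h1 : adjoin K (V : Set M) ≤ (adjoin F (S : Set M)).restrictScalars K := by
      rw [adjoin_le_iff]
      intro w hw
      have h2 : w ∈ Submodule.span K (S : Set M) := by rw [hS]; exact hw
      have h3 : Submodule.span K (S : Set M) ≤
          Subalgebra.toSubmodule ((adjoin F (S : Set M)).restrictScalars K).toSubalgebra := by
        rw [Submodule.span_le]
        intro s hs
        exact subset_adjoin _ _ hs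
      exact h3 h2
    rw [hV] at h1
    exact h1 (mem_top (x := y))
  rw [htop] at hfd
  exact LinearEquiv.finiteDimensional
    ((IntermediateField.topEquiv (F := F) (E := M)).toLinearEquiv)

/-- the upper bound for the dimensions of powers -/
theorem pow_le [IsAlgClosed K] (V : Submodule K M)
    [hVf : FiniteDimensional K V] (u v : M)
    (hVF : ∀ x ∈ V, x ∈ adjoin K {u, v}) (D : ℕ)
    (t : K) (ht : V ≤ intSub K (u + algebraMap K M t * v) 1)
    (huF : u ∈ adjoin K {u, v}) (hvF : v ∈ adjoin K {u, v})
    (hg't : Transcendental K ((⟨u, huF⟩ : adjoin K {u, v}) + algebraMap K _ t * ⟨v, hvF⟩))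
    (hfin : FiniteDimensional
      K⟮(⟨u, huF⟩ : adjoin K {u, v}) + algebraMap K _ t * ⟨v, hvF⟩⟯ (adjoin K {u, v}))
    (hdeg : finrank K⟮(⟨u, huF⟩ : adjoin K {u, v}) + algebraMap K _ t * ⟨v, hvF⟩⟯
      (adjoin K {u, v}) ≤ D) (m : ℕ) :
    finrank K (V ^ m : Submodule K M) ≤ m * D + 1 := by
  classical
  set F : IntermediateField K M := adjoin K {u, v} with hF
  set g' : F := (⟨u, huF⟩ : F) + algebraMap K F t * ⟨v, hvF⟩ with hg'
  set V' : Submodule K F := V.comap F.val.toLinearMap with hV'
  have hmapV : V'.map F.val.toLinearMap = V := by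
    rw [hV', Submodule.map_comap_eq, inf_eq_right]
    intro x hx
    exact ⟨⟨x, hVF x hx⟩, rfl⟩
  have hinj : Function.Injective F.val.toLinearMap := Subtype.val_injective
  have hmap : ∀ W : Submodule K F, finrank K (W.map F.val.toLinearMap) = finrank K W :=
    fun W => (Submodule.equivMapOfInjective F.val.toLinearMap hinj W).finrank_eq.symm
  have hpow : ∀ k, (V' ^ k).map F.val.toLinearMap = V ^ k := by
    intro k
    rw [← hmapV]
    exact Submodule.map_pow V' F.val k
  have hV'f : FiniteDimensional K V' := by
    have e := Submodule.equivMapOfInjective F.val.toLinearMap hinj V'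
    have : FiniteDimensional K (V'.map F.val.toLinearMap) := by rw [hmapV]; exact hVf
    exact LinearEquiv.finiteDimensional e.symm
  have hV'I : V' ≤ intSub K g' 1 := by
    intro x hx
    rw [mem_intSub]
    apply IntAt.of_val
    exact ht hx
  have hub := finrank_pow_le g' hg't V' hV'I
  rw [← hpow, hmap]
  exact (hub m).trans (Nat.add_le_add_right (Nat.mul_le_mul_left m hdeg) 1)

/-- **Rigidity.** -/
theorem rigid [IsAlgClosed K] [CharZero K] (V : Submodule K M) [FiniteDimensional K V]
    (h1 : (1 : M) ∈ V) (hV : adjoin K (V : Set M) = ⊤) (𝒟 : Set (Derivation ℤ M M))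
    (hDK : ∀ D ∈ 𝒟, ∀ c : K, ∃ c' : K, D (algebraMap K M c) = algebraMap K M c')
    (hDV : ∀ D ∈ 𝒟, ∀ w ∈ V, D w ∈ V) (u v : M) (hu : u ∈ V) (hv : v ∈ V)
    (hmin : ∀ N : Submodule K M, N ≤ V → (1 : M) ∈ N → u ∈ N → v ∈ N →
      (∀ D ∈ 𝒟, ∀ w ∈ N, D w ∈ N) → V ≤ N)
    (T : Finset K) (hT : ∀ t ∉ T, V ≤ intSub K (u + algebraMap K M t * v) 1)
    (D : ℕ) (P : MvPolynomial (Fin 2) K) (hP : P ≠ 0) (hPD : P.totalDegree ≤ D)
    (huv : MvPolynomial.aeval ![u, v] P = 0) (hline : NoLine K P) (m : ℕ) :
    finrank K (V ^ m : Submodule K M) ≤ m * D + 1 := by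
  classical
  set F : IntermediateField K M := adjoin K {u, v} with hF
  have huF : u ∈ F := subset_adjoin _ _ (Set.mem_insert _ _)
  have hvF : v ∈ F := subset_adjoin _ _ (Set.mem_insert_of_mem _ rfl)
  by_cases hvt : Transcendental K v
  swap
  · -- both are constants
    rw [Transcendental, not_not] at hvt
    obtain ⟨c, rfl⟩ := exists_const v hvt
    have hut : IsAlgebraic K u := by
      by_contra hut
      have e1 : MvPolynomial.aeval ![(X : K[X]), C c] P = 0 := by
        have e2 : aeval u (MvPolynomial.aeval ![(X : K[X]), C c] P) = 0 := by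
          rw [← huv, ← AlgHom.comp_apply]
          congr 1
          apply MvPolynomial.algHom_ext
          intro i
          fin_cases i
          · simp
          · simp
        exact (transcendental_iff_injective.1 hut) (by rw [e2, map_zero])
      have := (hline _ _ e1).1
      rw [natDegree_X] at this
      exact one_ne_zero this
    obtain ⟨a, rfl⟩ := exists_const u hut
    have hle : V ≤ Submodule.span K {(1 : M)} := by
      have hN : ∀ a : K, algebraMap K M a ∈ Submodule.span K {(1 : M)} := by
        intro a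
        rw [Algebra.algebraMap_eq_smul_one]
        exact Submodule.smul_mem _ _ (Submodule.mem_span_singleton_self _)
      refine hmin _ ?_ (Submodule.mem_span_singleton_self _) (hN a) (hN c) ?_
      · rw [Submodule.span_singleton_le_iff_mem]; exact h1
      · intro D hD w hw
        obtain ⟨b, rfl⟩ := Submodule.mem_span_singleton.mp hw
        rw [← Algebra.algebraMap_eq_smul_one]
        obtain ⟨c', hc'⟩ := hDK D hD b
        rw [hc']
        exact hN c'
    have hVm : V ^ m ≤ Submodule.span K {(1 : M)} := by
      have e1 : (Submodule.span K {(1 : M)}) = 1 := Submodule.one_eq_span.symm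
      calc V ^ m ≤ (Submodule.span K {(1 : M)}) ^ m := pow_le_pow_left' hle m
        _ = Submodule.span K {(1 : M)} := by rw [e1, one_pow]
    have h3 := Submodule.finrank_mono hVm
    have h4 : finrank K (Submodule.span K {(1 : M)}) ≤ 1 := by
      have := finrank_span_le_card (R := K) ({(1 : M)} : Set M)
      simpa using this
    omega
  -- the generic combination
  let u' : F := ⟨u, huF⟩
  let v' : F := ⟨v, hvF⟩
  have hP' : MvPolynomial.aeval ![u', v'] P = 0 := by
    apply Subtype.val_injective
    have h2 := MvPolynomial.aeval_algebraMap_apply (A := F) (B := M) ![u', v'] P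
    have h3 : (algebraMap F M) ∘ ![u', v'] = ![u, v] := by
      funext i
      fin_cases i <;> rfl
    rw [h3, huv] at h2
    exact h2.symm
  have hFtop : adjoin K {u', v'} = (⊤ : IntermediateField K F) := by
    rw [eq_top_iff]
    intro x _
    have h2 : (adjoin K {u', v'}).map F.val = adjoin K {u, v} := by
      rw [adjoin_map, Set.image_pair]
      rfl
    have h3 : (x : M) ∈ (adjoin K {u', v'}).map F.val := by
      rw [h2]; exact x.2
    obtain ⟨y, hy, hyx⟩ := h3
    have : y = x := Subtype.val_injective hyx
    rwa [← this]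
  have hv't : Transcendental K v' := by
    intro h
    apply hvt
    exact h.algebraMap (A := M)
  obtain ⟨θ, hθ0, hθ⟩ := degree_le u' v' P hP hP' hFtop
  obtain ⟨t, ht⟩ := Infinite.exists_notMem_finset (T ∪ θ.roots.toFinset.image (fun x => -x))
  rw [Finset.mem_union, not_or] at ht
  have ht1 : θ.eval (-t) ≠ 0 := by
    intro h0
    apply ht.2
    rw [Finset.mem_image]
    refine ⟨-t, ?_, neg_neg t⟩
    rw [Multiset.mem_toFinset]
    exact (mem_roots hθ0).mpr h0
  obtain ⟨hfin, hdeg⟩ := hθ t ht1
  have hVI := hT t ht.1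
  set x : F := u' + algebraMap K F t * v' with hxdef
  have hxt : Transcendental K x := by
    intro h
    apply hv't
    have h2 : Algebra.IsAlgebraic K K⟮x⟯ := isAlgebraic_adjoin_simple h.isIntegral
    have h3 : Algebra.IsAlgebraic K F := Algebra.IsAlgebraic.trans K K⟮x⟯ F
    exact Algebra.IsAlgebraic.isAlgebraic v'
  have hxM : (x : M) = u + algebraMap K M t * v := rfl
  have hxMt : Transcendental K (x : M) := by
    intro h
    apply hxt
    exact (isAlgebraic_algebraMap_iff (A := M) (algebraMap F M).injective).mp h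
  have hxV : (x : M) ∈ V := by
    rw [hxM, ← Algebra.smul_def]
    exact V.add_mem hu (V.smul_mem t hv)
  have hVO : ∀ w ∈ V, w ∈ OI K (x : M) := by
    intro w hw
    exact (mem_intSub.mp (hVI hw)).fin
  have hx0 : (x : M) ≠ 0 := by
    intro h
    rw [h] at hxMt
    exact hxMt isAlgebraic_zero
  have hfdF : FiniteDimensional F M := by
    apply fd_of_integral V hV F
    intro w hw
    obtain ⟨p, hp, hpw⟩ := mem_OI.mp (hVO w hw)
    refine ⟨p.map ((aeval x : K[X] →ₐ[K] F) : K[X] →+* F), hp.map _, ?_⟩
    rw [eval₂_map]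
    have e1 : (algebraMap F M).comp ((aeval x : K[X] →ₐ[K] F) : K[X] →+* F) = ev K (x : M) :=
      ev_comp x
    rw [e1]
    exact hpw
  -- stability
  have hstab : ∀ δ ∈ 𝒟, ∀ f ∈ F, δ f ∈ F := by
    intro δ hδ
    refine stable F x hxMt δ (hDK δ hδ) ?_ ?_ ?_
    · exact der_OI V hV (x : M) hxV hVO δ (hDK δ hδ) (hDV δ hδ)
    · have h2 := (mem_intSub.mp (hVI (hDV δ hδ _ hxV))).inf hx0
      rw [pow_one] at h2
      exact h2
    · rintro ⟨y, hy⟩
      have huO : u' ∈ OI K x := OI_of_map (L := F) (M := M) (hVO u hu)
      have hvO : v' ∈ OI K x := OI_of_map (L := F) (M := M) (hVO v hv)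
      obtain ⟨p, hp⟩ := hy u' huO
      obtain ⟨q, hq⟩ := hy v' hvO
      have hyt : Transcendental K y := by
        intro hya
        apply hv't
        rw [hq]
        have h5 : Algebra.adjoin K {y} ≤ integralClosure K F :=
          Algebra.adjoin_le (by
            rw [Set.singleton_subset_iff]
            exact hya.isIntegral)
        have h6 : IsIntegral K (aeval y q) := h5 (aeval_mem_adjoin_singleton K y)
        exact h6.isAlgebraic
      have e1 : MvPolynomial.aeval ![p, q] P = 0 := by
        have e2 : aeval y (MvPolynomial.aeval ![p, q] P) = 0 := by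
          rw [← hP', ← AlgHom.comp_apply]
          congr 1
          apply MvPolynomial.algHom_ext
          intro i
          fin_cases i
          · simp [hp]
          · simp [hq]
        exact (transcendental_iff_injective.1 hyt) (by rw [e2, map_zero])
      have h2 := (hline _ _ e1).2
      apply hv't
      rw [hq, eq_C_of_natDegree_eq_zero h2, aeval_C]
      exact isAlgebraic_algebraMap _
  -- minimality
  have hVF : ∀ w ∈ V, w ∈ adjoin K {u, v} := by
    have h2 := hmin (V ⊓ Subalgebra.toSubmodule F.toSubalgebra) inf_le_left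
      ⟨h1, F.one_mem⟩ ⟨hu, huF⟩ ⟨hv, hvF⟩
      (fun δ hδ w hw => ⟨hDV δ hδ w hw.1, hstab δ hδ w hw.2⟩)
    intro w hw
    exact (h2 hw).2
  exact pow_le V u v hVF D t hVI huF hvF hxt hfin (hdeg.trans hPD) m

end Run7.h577
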